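import Pool.Agent.FPX.Basic

namespace FPX

/-- Normal Hall subgroups are characteristic. -/
theorem A1_char {G : Type} [Group G] [Finite G] (N : Subgroup G) [N.Normal]
    (hcop : (Nat.card N).Coprime N.index) : N.Characteristic := by
  have key : ∀ g : G, g ∈ N ↔ g ^ Nat.card N = 1 := by
    intro g
    constructor
    · intro hg
      have h1 : (⟨g, hg⟩ : N) ^ Nat.card N = 1 := pow_card_eq_one'
      exact congrArg (fun x : N => (x : G)) h1
    · intro hg
      have h1 : ((g : G) : G ⧸ N) ^ Nat.card N = 1 := by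
        rw [← QuotientGroup.mk_pow, hg]
        rfl
      have h2 : ((g : G) : G ⧸ N) ^ N.index = 1 := pow_card_eq_one'
      have h3 : orderOf ((g : G) : G ⧸ N) ∣ 1 := by
        rw [← hcop.gcd_eq_one]
        exact Nat.dvd_gcd (orderOf_dvd_of_pow_eq_one h1) (orderOf_dvd_of_pow_eq_one h2)
      have h4 : ((g : G) : G ⧸ N) = 1 := orderOf_eq_one_iff.1 (Nat.dvd_one.1 h3)
      exact (QuotientGroup.eq_one_iff g).1 h4
  apply char_of_forall
  intro α g hg
  rw [key] at hg ⊢
  rw [← map_pow, hg, map_one]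

/-- Normal Hall subgroups.  If `N` is normal in `G` of order coprime to its index and `G` has (F)
then `G/N` has (F).

Proof.  `N` is characteristic (it is the set of the `g` with `g ^ |N| = 1`: such a `g` has image of
order dividing both `|N|` and `|G : N|`).  Let `H/N` be a subgroup of `G/N` (`H` the preimage).  By
Schur-Zassenhaus (`Subgroup.exists_right_complement'_of_coprime` or
`exists_left_complement'_of_coprime`, applied to `N` inside `H`) there is `L ≤ H` with `L ∩ N = 1`,
`L N = H`.  Let `α` have fixed points exactly `L`.  Then `α` has no fixed point `≠ 1` on `N`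
(`L ∩ N = 1`).  `α` induces an automorphism `β` of `G/N` (`QuotientGroup.congr`).  If `gN` is fixed
by `β` then `g⁻¹ * α g ∈ N`, so by `lang_fix` some `g n` is fixed by `α`, so `g n ∈ L ≤ H` and
`gN ∈ H/N`.  Conversely `gN ∈ H/N` contains an element of `L` (as `H = L N`), which is fixed. -/
theorem pf_quot {G : Type} [Group G] [Finite G] (N : Subgroup G) [N.Normal]
    (hcop : (Nat.card N).Coprime N.index) (h : PF G) : PF (G ⧸ N) := by
  have hchar : N.Characteristic := A1_char N hcop
  intro Hb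
  set H : Subgroup G := Hb.comap (QuotientGroup.mk' N) with hH
  have hNH : N ≤ H := by
    intro n hn
    rw [hH, Subgroup.mem_comap]
    have h1 : (QuotientGroup.mk' N) n = 1 := by
      rw [QuotientGroup.mk'_apply, QuotientGroup.eq_one_iff]
      exact hn
    rw [h1]
    exact Hb.one_mem
  have hcop' : (Nat.card (N.subgroupOf H)).Coprime (N.subgroupOf H).index := by
    have h1 : Nat.card (N.subgroupOf H) = Nat.card N :=
      Nat.card_congr (Subgroup.subgroupOfEquivOfLe hNH).toEquiv
    rw [h1]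
    have h2 : (N.subgroupOf H).index ∣ N.index := Subgroup.relIndex_dvd_index_of_normal N H
    exact Nat.Coprime.coprime_dvd_right h2 hcop
  obtain ⟨L', hL'⟩ := Subgroup.exists_right_complement'_of_coprime hcop'
  set L : Subgroup G := L'.map H.subtype with hL
  have hLH : L ≤ H := by
    rintro g ⟨l, hl, rfl⟩
    exact l.2
  have hLN : ∀ g ∈ N, g ∈ L → g = 1 := by
    rintro g hgN ⟨l, hl, rfl⟩
    have h1 : l ∈ N.subgroupOf H := Subgroup.mem_subgroupOf.2 hgN
    have h2 := hL'.disjoint
    rw [Subgroup.disjoint_def] at h2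
    have h3 : l = 1 := h2 h1 hl
    rw [h3]
    rfl
  have hprod : ∀ g ∈ H, ∃ n ∈ N, ∃ l ∈ L, n * l = g := by
    intro g hg
    obtain ⟨⟨n, l⟩, hnl⟩ := hL'.2 ⟨g, hg⟩
    refine ⟨((n : H) : G), Subgroup.mem_subgroupOf.1 n.2, ((l : H) : G), ⟨l, l.2, rfl⟩, ?_⟩
    exact congrArg (fun x : H => (x : G)) hnl
  obtain ⟨α, hα⟩ := h L
  have hmap : N.map (α : G ≃* G).toMonoidHom = N := by
    ext x
    constructor
    · rintro ⟨y, hy, rfl⟩
      exact char_mem hchar α hy
    · intro hx
      refine ⟨α⁻¹ x, char_mem hchar α⁻¹ hx, ?_⟩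
      exact MulAut.apply_inv_self G α x
  have hfix : ∀ n ∈ N, α n = n → n = 1 := fun n hn hn2 => hLN n hn ((hα n).1 hn2)
  refine ⟨QuotientGroup.congr N N α hmap, fun q => ?_⟩
  obtain ⟨g, rfl⟩ := QuotientGroup.mk_surjective q
  have h1 : QuotientGroup.congr N N α hmap (g : G ⧸ N) = ((α g : G) : G ⧸ N) := rfl
  constructor
  · intro h2
    have h2' : ((g : G) : G ⧸ N) = ((α g : G) : G ⧸ N) := h2.symm
    rw [QuotientGroup.eq] at h2'
    obtain ⟨n, hn, hn2⟩ := lang_fix α N (fun n hn => char_mem hchar α hn) hfix g h2'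
    have h3 : g * n ∈ H := hLH ((hα _).1 hn2)
    rw [hH, Subgroup.mem_comap, QuotientGroup.mk'_apply] at h3
    have h4 : ((g * n : G) : G ⧸ N) = (g : G ⧸ N) := by
      rw [QuotientGroup.eq, mul_inv_rev, mul_assoc, inv_mul_cancel, mul_one]
      exact N.inv_mem hn
    rw [h4] at h3
    exact h3
  · intro h2
    have h3 : g ∈ H := by
      rw [hH, Subgroup.mem_comap, QuotientGroup.mk'_apply]
      exact h2
    obtain ⟨n, hn, l, hl, hnl⟩ := hprod g h3
    have h4 : ((g : G) : G ⧸ N) = ((l : G) : G ⧸ N) := by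
      have h5 : ((n : G) : G ⧸ N) = 1 := (QuotientGroup.eq_one_iff n).2 hn
      rw [← hnl, QuotientGroup.mk_mul, h5, one_mul]
    have h6 : α l = l := (hα l).2 hl
    show QuotientGroup.congr N N α hmap (g : G ⧸ N) = (g : G ⧸ N)
    rw [h4]
    show ((α l : G) : G ⧸ N) = ((l : G) : G ⧸ N)
    rw [h6]

end FPX
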