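import Pool.Agent.FPX.Basic

namespace FPX

/-- Direct products of groups of pairwise coprime orders.

Proof.  Let `H ≤ ∏ B i` and `H i := H.map (Pi.evalMonoidHom B i)`.  For `h ∈ H` and `i`, the element
`Pi.mulSingle i (h i)` is in `H`: it is `h ^ n` where `n` is `≡ 1` modulo `|B i|` and `≡ 0` modulo
`|B j|` for all `j ≠ i` (Chinese remainder; e.g. `n = M * u` with `M = ∏_{j ≠ i} |B j|` coprime to
`|B i|`).  So an element `g` with `g i ∈ H i` for all `i` is in `H` (it is the product of the
elements `Pi.mulSingle i (g i)`; `Subgroup.pi_mem_of_mulSingle_mem`).  Take `α i` with fixed points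
`H i` and `α := MulEquiv.piCongrRight α`. -/
theorem pf_pi {ι : Type} [Finite ι] (B : ι → Type) [∀ i, Group (B i)] [∀ i, Finite (B i)]
    (hcop : Pairwise fun i j => (Nat.card (B i)).Coprime (Nat.card (B j)))
    (h : ∀ i, PF (B i)) : PF (∀ i, B i) := by
  classical
  have _ := Fintype.ofFinite ι
  intro H
  choose α hα using fun i => h i (H.map (Pi.evalMonoidHom B i))
  have key : ∀ (i : ι) (g : ∀ i, B i), g ∈ H → Pi.mulSingle i (g i) ∈ H := by
    intro i g hg
    have hco : (∏ j ∈ Finset.univ.erase i, Nat.card (B j)).Coprime (Nat.card (B i)) := by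
      apply Nat.Coprime.prod_left
      intro j hj
      exact hcop (Finset.ne_of_mem_erase hj)
    obtain ⟨n, hn0, hn1⟩ := Nat.chineseRemainder hco 0 1
    have hpow : g ^ n = Pi.mulSingle i (g i) := by
      funext j
      rw [Pi.pow_apply]
      by_cases hj : j = i
      · subst hj
        rw [Pi.mulSingle_eq_same]
        have h1 : n ≡ 1 [MOD orderOf (g j)] := hn1.of_dvd (orderOf_dvd_natCard _)
        have h2 := pow_eq_pow_iff_modEq.2 h1
        rw [pow_one] at h2
        exact h2
      · rw [Pi.mulSingle_eq_of_ne hj]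
        have h1 : Nat.card (B j) ∣ ∏ j ∈ Finset.univ.erase i, Nat.card (B j) :=
          Finset.dvd_prod_of_mem _ (Finset.mem_erase.2 ⟨hj, Finset.mem_univ j⟩)
        have h2 : (∏ j ∈ Finset.univ.erase i, Nat.card (B j)) ∣ n :=
          (Nat.modEq_zero_iff_dvd).1 hn0
        exact orderOf_dvd_iff_pow_eq_one.1 (((orderOf_dvd_natCard _).trans h1).trans h2)
    rw [← hpow]
    exact H.pow_mem hg n
  refine ⟨MulEquiv.piCongrRight α, fun g => ?_⟩
  constructor
  · intro hg
    apply Subgroup.pi_mem_of_mulSingle_mem g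
    intro i
    have h1 : α i (g i) = g i := congrFun hg i
    rw [hα, Subgroup.mem_map] at h1
    obtain ⟨x, hx, hxi⟩ := h1
    have h2 : x i = g i := hxi
    rw [← h2]
    exact key i x hx
  · intro hg
    funext i
    change α i (g i) = g i
    rw [hα]
    exact Subgroup.mem_map_of_mem (Pi.evalMonoidHom B i) hg

end FPX
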