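import Pool.Agent.FPX.Basic

namespace FPX

/-- the action on a vector space -/
theorem A3_core1 {N0 M T : Type} [Group N0] [Group M] (p : ℕ) [Fact p.Prime] [AddCommGroup T]
    [Module (ZMod p) T] (q : N0 → T) (hsurj : ∀ t, ∃ n, q n = t) (res : M →* MulAut N0)
    (φ : M → T →+ T) (hφ : ∀ α a, φ α (q a) = q (res α a)) :
    ∃ σ : M →* (T ≃ₗ[ZMod p] T), ∀ α a, q (res α a) = σ α (q a) := by
  let L : M → (T →ₗ[ZMod p] T) := fun α => AddMonoidHom.toZModLinearMap p (φ α)
  have hL : ∀ α a, L α (q a) = q (res α a) := fun α a => hφ α a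
  have hL1 : L 1 = LinearMap.id := by
    apply LinearMap.ext
    intro t
    obtain ⟨n, rfl⟩ := hsurj t
    rw [hL, map_one]
    rfl
  have hLm : ∀ α β, L (α * β) = (L α).comp (L β) := by
    intro α β
    apply LinearMap.ext
    intro t
    obtain ⟨n, rfl⟩ := hsurj t
    rw [hL, LinearMap.comp_apply, hL, hL, map_mul]
    rfl
  let σ : M →* (T ≃ₗ[ZMod p] T) :=
    { toFun := fun α => LinearEquiv.ofLinear (L α) (L α⁻¹)
        (by rw [← hLm, mul_inv_cancel, hL1]) (by rw [← hLm, inv_mul_cancel, hL1])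
      map_one' := by
        apply LinearEquiv.toLinearMap_injective
        exact hL1
      map_mul' := by
        intro α β
        apply LinearEquiv.toLinearMap_injective
        exact hLm α β }
  exact ⟨σ, fun α a => (hL α a).symm⟩

/-- the section model for an abstract group -/
theorem A3_core {N0 M : Type} [Group N0] [Finite N0] [Group M] (p : ℕ) [Fact p.Prime]
    (K0 : Subgroup N0) (hK0 : K0.Normal) (hc : ∀ a b : N0, a * b * a⁻¹ * b⁻¹ ∈ K0)
    (he : ∀ a : N0, a ^ p ∈ K0) (res : M →* MulAut N0) (hres : ∀ α, ∀ a ∈ K0, res α a ∈ K0) :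
    ∃ (T : Type) (_ : AddCommGroup T) (_ : Module (ZMod p) T) (_ : Finite T) (q : N0 → T)
      (σ : M →* (T ≃ₗ[ZMod p] T)), (∀ t, ∃ n, q n = t) ∧ (∀ a b, q (a * b) = q a + q b) ∧
      (∀ a, q a = 0 ↔ a ∈ K0) ∧ ∀ α a, q (res α a) = σ α (q a) := by
  have hcomm : ∀ a b : N0 ⧸ K0, a * b = b * a := by
    intro a b
    induction a using QuotientGroup.induction_on with
    | _ a =>
      induction b using QuotientGroup.induction_on with
      | _ b =>
        rw [← QuotientGroup.mk_mul, ← QuotientGroup.mk_mul, QuotientGroup.eq]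
        have h1 := hc b⁻¹ a⁻¹
        have h2 : (a * b)⁻¹ * (b * a) = b⁻¹ * a⁻¹ * b⁻¹⁻¹ * a⁻¹⁻¹ := by group
        rw [h2]
        exact h1
  let I1 : CommGroup (N0 ⧸ K0) := { QuotientGroup.Quotient.group K0 with mul_comm := hcomm }
  let I2 : AddCommGroup (Additive (N0 ⧸ K0)) := Additive.addCommGroup
  let q : N0 → Additive (N0 ⧸ K0) := fun n => Additive.ofMul (n : N0 ⧸ K0)
  have hsurj : ∀ t, ∃ n, q n = t := by
    intro t
    obtain ⟨n, hn⟩ := QuotientGroup.mk_surjective (s := K0) (Additive.toMul t)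
    exact ⟨n, hn⟩
  have hmul : ∀ a b, q (a * b) = q a + q b := fun a b => rfl
  have hker : ∀ a, q a = 0 ↔ a ∈ K0 := fun a => QuotientGroup.eq_one_iff a
  have hpow : ∀ (n : ℕ) a, q (a ^ n) = n • q a := fun n a => rfl
  have hexp : ∀ t : Additive (N0 ⧸ K0), p • t = 0 := by
    intro t
    obtain ⟨n, rfl⟩ := hsurj t
    rw [← hpow, hker]
    exact he n
  let I3 : Module (ZMod p) (Additive (N0 ⧸ K0)) := AddCommGroup.zmodModule hexp
  obtain ⟨σ, hσ⟩ := A3_core1 (T := Additive (N0 ⧸ K0)) p q hsurj res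
    (fun α => MonoidHom.toAdditive (QuotientGroup.map K0 K0
      (res α : N0 ≃* N0).toMonoidHom (fun a ha => hres α a ha))) (fun α a => rfl)
  exact ⟨Additive (N0 ⧸ K0), I2, I3, inferInstanceAs (Finite (N0 ⧸ K0)), q, σ, hsurj, hmul,
    hker, hσ⟩

/-- The section model.

Proof.  `T := Additive (N ⧸ K.subgroupOf N)`; `K.subgroupOf N` is normal in `N` (`K` is
characteristic in `G`), the quotient is commutative by `hcomm` and has exponent `p` by `hexp`
(`AddCommGroup.zmodModule` gives the module structure).  `π g` is the class of `g` if `g ∈ N` and `0`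
otherwise.  Every automorphism `α` of `G` induces one of `N ⧸ K` (`char_mem`, `exists_res`), and
additive automorphisms are `ZMod p`-linear (`AddMonoidHom.toZModLinearMap`); functoriality is clear
on representatives. -/
theorem exists_smod {G : Type} [Group G] [Finite G] (p : ℕ) [Fact p.Prime] (N K : Subgroup G)
    (hN : N.Characteristic) (hK : K.Characteristic) (hKN : K ≤ N)
    (hcomm : ∀ a ∈ N, ∀ b ∈ N, a * b * a⁻¹ * b⁻¹ ∈ K) (hexp : ∀ a ∈ N, a ^ p ∈ K) :
    ∃ (T : Type) (_ : AddCommGroup T) (_ : Module (ZMod p) T) (_ : Finite T) (π : G → T)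
      (σ : MulAut G →* (T ≃ₗ[ZMod p] T)), SMod p N K T π σ := by
  classical
  have hKn : K.Normal := by
    have := hK
    infer_instance
  let res : MulAut G →* MulAut N :=
    { toFun := fun α =>
        { toFun := fun k => ⟨α k, char_mem hN α k.2⟩
          invFun := fun k => ⟨α⁻¹ k, char_mem hN α⁻¹ k.2⟩
          left_inv := fun k => Subtype.ext (MulAut.inv_apply_self G α k)
          right_inv := fun k => Subtype.ext (MulAut.apply_inv_self G α k)
          map_mul' := fun a b => Subtype.ext (map_mul α (a : G) (b : G)) }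
      map_one' := by
        ext k
        rfl
      map_mul' := by
        intro α β
        ext k
        rfl }
  obtain ⟨T, I2, I3, I4, q, σ, h1, h2, h3, h4⟩ := A3_core p (K.subgroupOf N)
    (Subgroup.Normal.subgroupOf hKn N)
    (fun a b => by
      rw [Subgroup.mem_subgroupOf]
      exact hcomm a a.2 b b.2)
    (fun a => by
      rw [Subgroup.mem_subgroupOf]
      exact hexp a a.2) res
    (fun α a ha => by
      rw [Subgroup.mem_subgroupOf] at ha ⊢
      exact char_mem hK α ha)
  refine ⟨T, I2, I3, I4, fun g => if h : g ∈ N then q ⟨g, h⟩ else 0, σ, ?_, ?_, ?_, ?_⟩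
  · intro t
    obtain ⟨n, hn⟩ := h1 t
    refine ⟨n, n.2, ?_⟩
    rw [dif_pos n.2]
    exact hn
  · intro a ha b hb
    simp only [dif_pos ha, dif_pos hb, dif_pos (N.mul_mem ha hb)]
    exact h2 ⟨a, ha⟩ ⟨b, hb⟩
  · intro a ha
    simp only [dif_pos ha]
    rw [h3, Subgroup.mem_subgroupOf]
  · intro α a ha
    simp only [dif_pos ha, dif_pos (char_mem hN α ha)]
    exact h4 α ⟨a, ha⟩

end FPX
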