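import Pool.Agent.FPX.Basic

namespace FPX

theorem A4_lin {G : Type} [Group G] (p : ℕ) (V : Type) [AddCommGroup V] [Module (ZMod p) V]
    (e : MulAut G → (V ≃+ V)) (he : ∀ a b x, e (a * b) x = e a (e b x)) :
    ∃ ρ : MulAut G →* (V ≃ₗ[ZMod p] V), ∀ α v, ρ α v = e α v := by
  refine ⟨MonoidHom.mk' (fun α => (e α).toLinearEquiv (fun c x => ZMod.map_smul (e α) c x)) ?_,
    fun α v => rfl⟩
  intro a b
  refine LinearEquiv.ext fun x => ?_
  rw [LinearEquiv.mul_apply]
  exact he a b x

/-- The model of an elementary abelian characteristic subgroup `W` (an element `f v` for every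
`v : V`).

Proof.  `V := Additive W` with the commutative group structure given by `hcomm` and the module
structure `AddCommGroup.zmodModule` given by `hexp`; `f v = v` (the element of `G`).  `ρ α` is the
restriction of `α` to `W` (`exists_res`), additive hence `ZMod p`-linear. -/
theorem exists_mod {G : Type} [Group G] [Finite G] (p : ℕ) [Fact p.Prime] (W : Subgroup G)
    (hW : W.Characteristic) (hcomm : ∀ a ∈ W, ∀ b ∈ W, a * b = b * a)
    (hexp : ∀ a ∈ W, a ^ p = 1) :
    ∃ (V : Type) (_ : AddCommGroup V) (_ : Module (ZMod p) V) (_ : Finite V) (f : V → G)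
      (ρ : MulAut G →* (V ≃ₗ[ZMod p] V)), Mod p W V f ρ := by
  let iC : CommGroup W :=
    { (inferInstance : Group W) with mul_comm := fun a b => Subtype.ext (hcomm a a.2 b b.2) }
  have hk : ∀ x : Additive W, p • x = 0 := by
    intro x
    have h1 : (Additive.toMul x) ^ p = 1 := by
      apply Subtype.ext
      rw [Subgroup.coe_pow, Subgroup.coe_one]
      exact hexp _ (Additive.toMul x).2
    exact congrArg Additive.ofMul h1
  let iM : Module (ZMod p) (Additive W) := AddCommGroup.zmodModule hk
  let e : MulAut G → (Additive W ≃+ Additive W) := fun α =>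
    { toFun := fun x => Additive.ofMul ⟨α (Additive.toMul x : W), char_mem hW α (Additive.toMul x).2⟩
      invFun := fun x =>
        Additive.ofMul ⟨α⁻¹ (Additive.toMul x : W), char_mem hW α⁻¹ (Additive.toMul x).2⟩
      left_inv := fun x => congrArg Additive.ofMul (Subtype.ext (MulAut.inv_apply_self G α _))
      right_inv := fun x => congrArg Additive.ofMul (Subtype.ext (MulAut.apply_inv_self G α _))
      map_add' := fun a b => congrArg Additive.ofMul (Subtype.ext
        (map_mul α ((Additive.toMul a : W) : G) ((Additive.toMul b : W) : G))) }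
  obtain ⟨ρ, hρ⟩ := A4_lin (G := G) p (Additive W) e (fun a b x =>
    congrArg Additive.ofMul (Subtype.ext (MulAut.mul_apply G a b _)))
  refine ⟨Additive W, inferInstance, iM, inferInstanceAs (Finite W),
    fun v => ((Additive.toMul v : W) : G), ρ, ?_, ?_, ?_, ?_⟩
  · intro a b hab
    exact congrArg Additive.ofMul (Subtype.ext hab)
  · intro g
    constructor
    · intro hg
      exact ⟨Additive.ofMul ⟨g, hg⟩, rfl⟩
    · rintro ⟨v, rfl⟩
      exact (Additive.toMul v).2
  · intro u v
    rfl
  · intro α v
    exact (congrArg (fun w : Additive W => ((Additive.toMul w : W) : G)) (hρ α v)).symm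

end FPX
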