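import Pool.Agent.FPX.Basic

namespace FPX

/-- Facts on a normal Sylow subgroup `P`: (1) it contains every element of `p`-power order,
(2) it is characteristic, (3) `|P|` is coprime to `|G : P|`.

Proof.  (3) `|P|` is a power of `p` (`IsPGroup.iff_card`) and `p ∤ |G : P|`.  (1) The image of `g` in
`G/P` has order dividing `p ^ k` and `|G : P|`, so it is trivial.  (2) `P` is the set of the
elements `g` with `g ^ p ^ k = 1` for some `k`; use `char_of_forall`. -/
theorem nsyl_mem {G : Type} [Group G] [Finite G] {p : ℕ} {P : Subgroup G} (h : NSyl p P) {g : G}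
    {k : ℕ} (hg : g ^ p ^ k = 1) : g ∈ P := by
  haveI := h.normal
  have h1 : ((g : G) : G ⧸ P) ^ p ^ k = 1 := by
    rw [← QuotientGroup.mk_pow, hg]
    rfl
  have h2 : orderOf ((g : G) : G ⧸ P) ∣ p ^ k := orderOf_dvd_of_pow_eq_one h1
  have h3 : orderOf ((g : G) : G ⧸ P) ∣ P.index := by
    rw [Subgroup.index]
    exact orderOf_dvd_natCard _
  have h4 : (p ^ k).Coprime P.index :=
    Nat.Coprime.pow_left k ((Nat.Prime.coprime_iff_not_dvd h.prime).2 h.index)
  have h5 : orderOf ((g : G) : G ⧸ P) = 1 := Nat.eq_one_of_dvd_coprimes h4 h2 h3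
  rw [orderOf_eq_one_iff] at h5
  exact (QuotientGroup.eq_one_iff g).1 h5

theorem nsyl_char {G : Type} [Group G] [Finite G] {p : ℕ} {P : Subgroup G} (h : NSyl p P) :
    P.Characteristic := by
  apply char_of_forall
  intro α g hg
  obtain ⟨k, hk⟩ := h.pgroup ⟨g, hg⟩
  have hk' : g ^ p ^ k = 1 := congrArg Subtype.val hk
  refine nsyl_mem h (k := k) ?_
  rw [← map_pow, hk', map_one]

theorem nsyl_coprime {G : Type} [Group G] [Finite G] {p : ℕ} {P : Subgroup G} (h : NSyl p P) :
    (Nat.card P).Coprime P.index := by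
  haveI : Fact p.Prime := ⟨h.prime⟩
  obtain ⟨n, hn⟩ := IsPGroup.iff_card.1 h.pgroup
  rw [hn]
  exact Nat.Coprime.pow_left n ((Nat.Prime.coprime_iff_not_dvd h.prime).2 h.index)

end FPX
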