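import Pool.Agent.FPX.A5

namespace FPX

/-- The normal `p`-complement `C` of `C_G(P)`, `P` a normal Sylow `p`-subgroup:
`C_G(P) = Z(P) × C`.

Proof.  `M := cen P` is normal in `G`.  `Z := P ⊓ M` is central in `M` (elements of `M` commute with
`P`) and it is a `p`-group; `|M : Z| = |M P : P|` divides `|G : P|`, so it is prime to `p`.
Schur-Zassenhaus in `M` gives a complement `C₀` of `Z` in `M`: `C₀ ∩ Z = 1`, `M = Z C₀`.  Put
`n := |C₀| = |M : Z|`, coprime to `p` and hence to `|Z|`.  For `m = z c` (`z ∈ Z`, `c ∈ C₀`) one has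
`m ^ n = z ^ n c ^ n = z ^ n`, which is `1` iff `z = 1`.  So `C₀ = {m ∈ M : m ^ n = 1}`, and this set
is invariant under all automorphisms of `G` (`P` is characteristic, so `M = cen P` is). -/
theorem exists_C {G : Type} [Group G] [Finite G] {p : ℕ} {P : Subgroup G} (h : NSyl p P) :
    ∃ C : Subgroup G, C.Characteristic ∧ C ⊓ P = ⊥ ∧ C ≤ cen P ∧ (Nat.card C).Coprime p ∧
      ∀ m ∈ cen P, ∃ z ∈ P, z ∈ cen P ∧ ∃ c ∈ C, m = z * c := by
  have hPn : P.Normal := h.normal
  set M : Subgroup G := cen P with hM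
  have hcen : ∀ g : G, g ∈ M ↔ ∀ x ∈ P, x * g = g * x := by
    intro g
    rw [hM, Subgroup.mem_centralizer_iff]
    exact Iff.rfl
  have hMchar : M.Characteristic := by
    apply char_of_forall
    intro α g hg
    rw [hcen] at hg ⊢
    intro x hx
    have h1 : α⁻¹ x ∈ P := char_mem (nsyl_char h) α⁻¹ hx
    have h2 := congrArg α (hg _ h1)
    rwa [map_mul, map_mul, MulAut.apply_inv_self] at h2
  have hZn : (P.subgroupOf M).Normal := inferInstance
  have hidx : (P.subgroupOf M).index ∣ P.index := by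
    have h1 : P.relIndex M ∣ P.index := Subgroup.relIndex_dvd_index_of_normal P M
    exact h1
  have hcardZ : Nat.card (P.subgroupOf M) ∣ Nat.card P := by
    have h1 : Nat.card (P.subgroupOf M) = Nat.card ((P.subgroupOf M).map M.subtype) :=
      (Nat.card_congr ((P.subgroupOf M).equivMapOfInjective M.subtype
        M.subtype_injective).toEquiv)
    rw [h1]
    apply Subgroup.card_dvd_of_le
    rw [Subgroup.subgroupOf_map_subtype]
    exact inf_le_left
  have hcop : (Nat.card (P.subgroupOf M)).Coprime (P.subgroupOf M).index :=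
    Nat.Coprime.of_dvd hcardZ hidx (nsyl_coprime h)
  obtain ⟨H, hH⟩ := Subgroup.exists_right_complement'_of_coprime hcop
  have hcardH : Nat.card H = (P.subgroupOf M).index := (hH.symm.index_eq_card).symm
  have hdec : ∀ m : M, ∃ z ∈ P.subgroupOf M, ∃ c ∈ H, z * c = m := by
    intro m
    obtain ⟨⟨z, c⟩, hzc⟩ := hH.2 m
    exact ⟨z, z.2, c, c.2, hzc⟩
  have hmem : ∀ m : M, m ∈ H ↔ m ^ Nat.card H = 1 := by
    intro m
    constructor
    · intro hm
      have h1 : (⟨m, hm⟩ : H) ^ Nat.card H = 1 := pow_card_eq_one'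
      have h2 := congrArg (Subtype.val : H → M) h1
      exact h2
    · intro hm
      obtain ⟨z, hz, c, hc, rfl⟩ := hdec m
      have hcomm : Commute z c := by
        have h1 := (hcen c).1 c.2 z (Subgroup.mem_subgroupOf.1 hz)
        exact Subtype.ext h1
      have hc1 : c ^ Nat.card H = 1 := by
        have h1 : (⟨c, hc⟩ : H) ^ Nat.card H = 1 := pow_card_eq_one'
        exact congrArg (Subtype.val : H → M) h1
      have hz1 : z ^ Nat.card (P.subgroupOf M) = 1 := by
        have h1 : (⟨z, hz⟩ : P.subgroupOf M) ^ Nat.card (P.subgroupOf M) = 1 := pow_card_eq_one'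
        exact congrArg (Subtype.val : P.subgroupOf M → M) h1
      rw [hcomm.mul_pow, hc1, mul_one, hcardH] at hm
      have h2 : orderOf z = 1 := by
        have h3 := orderOf_dvd_of_pow_eq_one hm
        have h4 := orderOf_dvd_of_pow_eq_one hz1
        have h5 := Nat.dvd_gcd h4 h3
        rw [hcop] at h5
        exact Nat.dvd_one.1 h5
      rw [orderOf_eq_one_iff] at h2
      rw [h2, one_mul]
      exact hc
  have hmemC : ∀ g : G, g ∈ H.map M.subtype ↔ g ∈ M ∧ g ^ Nat.card H = 1 := by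
    intro g
    constructor
    · rintro ⟨c, hc, rfl⟩
      refine ⟨c.2, ?_⟩
      have h1 := (hmem c).1 hc
      exact congrArg (Subtype.val : M → G) h1
    · rintro ⟨h1, h2⟩
      refine ⟨⟨g, h1⟩, (hmem _).2 (Subtype.ext h2), rfl⟩
  refine ⟨H.map M.subtype, ?_, ?_, ?_, ?_, ?_⟩
  · apply char_of_forall
    intro α g hg
    rw [hmemC] at hg ⊢
    refine ⟨char_mem hMchar α hg.1, ?_⟩
    rw [← map_pow, hg.2, map_one]
  · rw [eq_bot_iff]
    rintro g ⟨⟨c, hc, rfl⟩, hg⟩
    have h1 : c ∈ P.subgroupOf M := Subgroup.mem_subgroupOf.2 hg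
    have h2 : c ∈ P.subgroupOf M ⊓ H := ⟨h1, hc⟩
    rw [hH.disjoint.eq_bot] at h2
    rw [Subgroup.mem_bot] at h2 ⊢
    rw [h2]
    rfl
  · intro g hg
    exact ((hmemC g).1 hg).1
  · have h1 : Nat.card (H.map M.subtype) = Nat.card H :=
      (Nat.card_congr (H.equivMapOfInjective M.subtype M.subtype_injective).toEquiv).symm
    rw [h1, hcardH, Nat.coprime_comm, h.prime.coprime_iff_not_dvd]
    intro h2
    exact h.index (h2.trans hidx)
  · intro m hm
    obtain ⟨z, hz, c, hc, hzc⟩ := hdec ⟨m, hm⟩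
    refine ⟨z, Subgroup.mem_subgroupOf.1 hz, z.2, c, ⟨c, hc, rfl⟩, ?_⟩
    have h1 := congrArg (Subtype.val : M → G) hzc
    exact h1.symm

end FPX
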