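import Pool.Agent.FPX.Basic

namespace FPX

/-- The elements `g` with `g⁻¹ α(g)` in the normal subgroup `B`. -/
def A7_sub {G : Type} [Group G] (α : MulAut G) (B : Subgroup G) (hB : B.Normal) :
    Subgroup G where
  carrier := {g | g⁻¹ * α g ∈ B}
  one_mem' := by
    change (1 : G)⁻¹ * α 1 ∈ B
    rw [map_one, inv_one, one_mul]
    exact B.one_mem
  mul_mem' := by
    intro g h hg hh
    change (g * h)⁻¹ * α (g * h) ∈ B
    have e : (g * h)⁻¹ * α (g * h) = h⁻¹ * (g⁻¹ * α g) * (h⁻¹)⁻¹ * (h⁻¹ * α h) := by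
      rw [map_mul]; group
    rw [e]
    exact B.mul_mem (hB.conj_mem _ hg _) hh
  inv_mem' := by
    intro g hg
    change (g⁻¹)⁻¹ * α g⁻¹ ∈ B
    have e : (g⁻¹)⁻¹ * α g⁻¹ = (g * (g⁻¹ * α g) * g⁻¹)⁻¹ := by
      rw [map_inv]; group
    rw [e]
    exact B.inv_mem (hB.conj_mem _ hg _)

theorem A7_mem {G : Type} [Group G] (α : MulAut G) (B : Subgroup G) (hB : B.Normal) (g : G) :
    g ∈ A7_sub α B hB ↔ g⁻¹ * α g ∈ B := Iff.rfl

/-- The complement lemma.  `B`, `C` are normal subgroups with `B ∩ C = 1`, `α` is the identity on `B`,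
leaves `C` invariant without fixed points `≠ 1` there, and acts trivially on `G/BC`; if `|B|` is
coprime to `|G : BC|` then `BC` has a complement in `G`.

Proof.  `B` and `C` commute elementwise (`Subgroup.commute_of_normal_of_disjoint`).
`Y₀ := {g : g⁻¹ * α g ∈ B}` is a subgroup: for `g, h ∈ Y₀`,
`(g h)⁻¹ α(g h) = (h⁻¹ (g⁻¹ α g) h) (h⁻¹ α h) ∈ B`, and
`g (α g)⁻¹ = (g (g⁻¹ α g) g⁻¹)⁻¹ ∈ B`.  `B ≤ Y₀`.
`Y₀ ∩ BC = B`: for `y = b c ∈ Y₀`, `y⁻¹ α y = c⁻¹ b⁻¹ b α(c) = c⁻¹ α(c) ∈ B ∩ C = 1`, so `c = 1`.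
`Y₀ C = G`: for `g ∈ G`, `g⁻¹ α g = b c`; by `lang` there is `c₁ ∈ C` with `c₁ (α c₁)⁻¹ = c`; then
`(g c₁)⁻¹ α(g c₁) = c₁⁻¹ b c α(c₁) = b (c₁⁻¹ c α(c₁)) = b`, so `g c₁ ∈ Y₀`.
So `|Y₀ : B| = |G : BC|` (the map `Y₀ → G/BC` is onto with kernel `B`), coprime to `|B|`, and `B` is
normal in `Y₀`; Schur-Zassenhaus gives a complement `Y` of `B` in `Y₀`.
`Y ∩ BC ≤ Y₀ ∩ BC = B`, so `Y ∩ BC ≤ Y ∩ B = 1`; and `Y BC = Y B C = Y₀ C = G`. -/
theorem exists_compl {G : Type} [Group G] [Finite G] (α : MulAut G) (B C : Subgroup G)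
    (hB : B.Normal) (hC : C.Normal) (hBC : B ⊓ C = ⊥) (hαB : ∀ b ∈ B, α b = b)
    (hαC : ∀ c ∈ C, α c ∈ C) (hfix : ∀ c ∈ C, α c = c → c = 1)
    (hg : ∀ g : G, g⁻¹ * α g ∈ B ⊔ C) (hcop : (Nat.card B).Coprime (B ⊔ C).index) :
    ∃ Y : Subgroup G, Y ⊓ (B ⊔ C) = ⊥ ∧ Y ⊔ (B ⊔ C) = ⊤ := by
  obtain ⟨Y₀, hY₀⟩ : ∃ Y₀ : Subgroup G, Y₀ = A7_sub α B hB := ⟨_, rfl⟩
  have hmem : ∀ g, g ∈ Y₀ ↔ g⁻¹ * α g ∈ B := fun g => by rw [hY₀]; exact A7_mem α B hB g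
  have hsup : ∀ g, g ∈ B ⊔ C → ∃ b ∈ B, ∃ c ∈ C, g = b * c := by
    intro g h
    have h1 : g ∈ ((B ⊔ C : Subgroup G) : Set G) := h
    rw [Subgroup.mul_normal] at h1
    obtain ⟨b, hb, c, hc, h2⟩ := h1
    exact ⟨b, hb, c, hc, h2.symm⟩
  have hBY : B ≤ Y₀ := by
    intro b hb
    rw [hmem, hαB b hb, inv_mul_cancel]
    exact B.one_mem
  have hint : ∀ y, y ∈ Y₀ → y ∈ B ⊔ C → y ∈ B := by
    intro y hy hy2
    obtain ⟨b, hb, c, hc, rfl⟩ := hsup y hy2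
    rw [hmem] at hy
    have e : (b * c)⁻¹ * α (b * c) = c⁻¹ * α c := by
      rw [map_mul, hαB b hb]; group
    rw [e] at hy
    have h1 : c⁻¹ * α c ∈ B ⊓ C := ⟨hy, C.mul_mem (C.inv_mem hc) (hαC c hc)⟩
    rw [hBC, Subgroup.mem_bot] at h1
    have h2 : c = 1 := hfix c hc (inv_mul_eq_one.1 h1).symm
    rw [h2, mul_one]
    exact hb
  have hgen : ∀ g : G, ∃ y ∈ Y₀, ∃ c ∈ C, g = y * c := by
    intro g
    obtain ⟨b, hb, c, hc, h1⟩ := hsup _ (hg g)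
    obtain ⟨c₁, hc₁, h2⟩ := lang α C hαC hfix c hc
    refine ⟨g * c₁, ?_, c₁⁻¹, C.inv_mem hc₁, by group⟩
    rw [hmem]
    have hcomm : b * c₁⁻¹ = c₁⁻¹ * b := by
      have h3 : Disjoint B C := disjoint_iff.2 hBC
      exact (Subgroup.commute_of_normal_of_disjoint B C hB hC h3 b c₁⁻¹ hb (C.inv_mem hc₁)).eq
    have e : (g * c₁)⁻¹ * α (g * c₁) = b := by
      have h4 : (g * c₁)⁻¹ * α (g * c₁) = c₁⁻¹ * (g⁻¹ * α g) * α c₁ := by
        rw [map_mul]; group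
      rw [h4, h1, ← mul_assoc, ← hcomm, ← h2]
      group
    rw [e]
    exact hb
  -- index
  have htop : Y₀ ⊔ (B ⊔ C) = ⊤ := by
    rw [eq_top_iff]
    intro g _
    obtain ⟨y, hy, c, hc, rfl⟩ := hgen g
    exact (Y₀ ⊔ (B ⊔ C)).mul_mem (Subgroup.mem_sup_left hy)
      (Subgroup.mem_sup_right (Subgroup.mem_sup_right hc))
  have hinf : (B ⊔ C) ⊓ Y₀ = B := by
    apply le_antisymm
    · rintro y ⟨h1, h2⟩
      exact hint y h2 h1
    · exact le_inf le_sup_left hBY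
  have hN : (B ⊔ C).Normal := Subgroup.sup_normal B C
  have hidx : (B.subgroupOf Y₀).index = (B ⊔ C).index := by
    change B.relIndex Y₀ = _
    rw [← hinf, Subgroup.inf_relIndex_right, ← Subgroup.relIndex_sup_right, htop,
      Subgroup.relIndex_top_right, hinf]
  have hcard : Nat.card (B.subgroupOf Y₀) = Nat.card B :=
    Nat.card_congr (Subgroup.subgroupOfEquivOfLe hBY).toEquiv
  have hNn : (B.subgroupOf Y₀).Normal := hB.subgroupOf Y₀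
  obtain ⟨Y', hY'⟩ := Subgroup.exists_right_complement'_of_coprime (N := B.subgroupOf Y₀)
    (by rw [hidx, hcard]; exact hcop)
  refine ⟨Y'.map Y₀.subtype, ?_, ?_⟩
  · rw [eq_bot_iff]
    rintro x ⟨hx, hx2⟩
    obtain ⟨y, hy, rfl⟩ := hx
    have h1 : (y : G) ∈ B := hint y y.2 hx2
    have h2 : y ∈ B.subgroupOf Y₀ := Subgroup.mem_subgroupOf.2 h1
    have h3 : y = 1 := Subgroup.disjoint_def.1 hY'.disjoint h2 hy
    rw [h3]
    exact Subgroup.one_mem _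
  · rw [eq_top_iff, ← htop]
    apply sup_le _ le_sup_right
    intro y hy
    have h1 : (⟨y, hy⟩ : Y₀) ∈ B.subgroupOf Y₀ ⊔ Y' := by
      rw [hY'.sup_eq_top]
      exact Subgroup.mem_top _
    have h2 := Subgroup.mem_map_of_mem Y₀.subtype h1
    rw [Subgroup.map_sup] at h2
    have h3 : (B.subgroupOf Y₀).map Y₀.subtype ≤ B := by
      rintro x ⟨z, hz, rfl⟩
      exact Subgroup.mem_subgroupOf.1 hz
    exact (sup_le (h3.trans (le_sup_left.trans le_sup_right)) le_sup_left :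
      (B.subgroupOf Y₀).map Y₀.subtype ⊔ Y'.map Y₀.subtype ≤ Y'.map Y₀.subtype ⊔ (B ⊔ C)) h2

end FPX
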