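import Pool.Agent.FPX.Basic

namespace FPX

/-- the elements of order prime to `r` of an abelian group -/
def A8_A {A : Type*} [CommGroup A] (r : ℕ) : Subgroup A where
  carrier := {a | (orderOf a).Coprime r}
  one_mem' := by
    show (orderOf (1 : A)).Coprime r
    rw [orderOf_one]
    exact Nat.coprime_one_left r
  mul_mem' := by
    intro a b ha hb
    exact Nat.Coprime.coprime_dvd_left (Commute.all a b).orderOf_mul_dvd_mul_orderOf
      (Nat.Coprime.mul_left ha hb)
  inv_mem' := by
    intro a ha
    show (orderOf a⁻¹).Coprime r
    rw [orderOf_inv]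
    exact ha

theorem A8_index {G : Type} [Group G] [Finite G] {r : ℕ} (hr : r.Prime) (K : Subgroup G)
    (hK : ∀ g : G, (orderOf g).Coprime r → g ∈ K) : ∃ k : ℕ, K.index = r ^ k := by
  refine ⟨_, Nat.eq_prime_pow_of_unique_prime_dvd (p := r) K.index_ne_zero_of_finite ?_⟩
  intro q hq hqK
  by_contra hqr
  have : Fact q.Prime := ⟨hq⟩
  obtain ⟨Q⟩ : Nonempty (Sylow q G) := inferInstance
  have hQK : (Q : Subgroup G) ≤ K := by
    intro g hg
    apply hK
    obtain ⟨k, hk⟩ := (IsPGroup.iff_orderOf.1 Q.isPGroup') ⟨g, hg⟩
    rw [Subgroup.orderOf_mk] at hk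
    rw [hk]
    exact Nat.Coprime.pow_left k ((Nat.coprime_primes hq hr).2 hqr)
  exact Q.not_dvd_index (hqK.trans (Subgroup.index_dvd_of_le hQK))

/-- A nontrivial finite solvable group has a proper characteristic subgroup of prime power index
(`O^r(G)` for a prime `r` dividing `|G : G'|`).

Proof.  `G' := commutator G ≠ ⊤` (`G` is solvable and nontrivial), so some prime `r` divides
`|G : G'|`.  Let `K` be the closure of `{g : (orderOf g).Coprime r}`; it is characteristic
(automorphisms preserve orders; `char_of_forall` and induction on the closure).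
`K ≠ ⊤`: the abelian group `A = G/G'` has order divisible by `r`, so it has a subgroup `A₁ < A`
containing all its elements of order prime to `r`, e.g. the subgroup of all elements of order prime
to `r` (it has no element of order `r`, while `A` has one by Cauchy); the image of `K` is contained
in `A₁`.
`|G : K|` is a power of `r`: let `q ≠ r` be a prime and `Q` a Sylow `q`-subgroup of `G`; its
elements have `q`-power order, so `Q ≤ K`, and `|G : K|` divides `|G : Q|`, which is prime to `q`.
So `r` is the only prime divisor of `|G : K|`. -/
theorem exists_Or {G : Type} [Group G] [Finite G] [Nontrivial G] [Group.IsSolvable G] :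
    ∃ r : ℕ, r.Prime ∧ ∃ K : Subgroup G, K.Characteristic ∧ K ≠ ⊤ ∧ ∃ k : ℕ, K.index = r ^ k := by
  have h1 : commutator G < ⊤ := Group.IsSolvable.commutator_lt_top_of_nontrivial G
  have h2 : (commutator G).index ≠ 1 := fun h => h1.ne (Subgroup.index_eq_one.1 h)
  obtain ⟨r, hr, hrd⟩ := Nat.exists_prime_and_dvd h2
  refine ⟨r, hr, Subgroup.closure {g : G | (orderOf g).Coprime r}, ?_, ?_,
    A8_index hr _ fun g hg => Subgroup.subset_closure hg⟩
  · apply char_of_forall
    intro α g hg
    induction hg using Subgroup.closure_induction with
    | mem x hx =>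
      apply Subgroup.subset_closure
      show (orderOf (α x)).Coprime r
      have h3 : orderOf (α x) = orderOf x :=
        orderOf_injective (α : G ≃* G).toMonoidHom (α : G ≃* G).injective x
      rw [h3]
      exact hx
    | one =>
      rw [map_one]
      exact Subgroup.one_mem _
    | mul x y _ _ hx hy =>
      rw [map_mul]
      exact Subgroup.mul_mem _ hx hy
    | inv x _ hx =>
      rw [map_inv]
      exact Subgroup.inv_mem _ hx
  · intro htop
    have : Fact r.Prime := ⟨hr⟩
    have hA : r ∣ Nat.card (Abelianization G) := hrd
    obtain ⟨a, ha⟩ := exists_prime_orderOf_dvd_card' r hA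
    have hle : Subgroup.closure {g : G | (orderOf g).Coprime r} ≤
        (A8_A r : Subgroup (Abelianization G)).comap (Abelianization.of) := by
      rw [Subgroup.closure_le]
      intro g hg
      exact Nat.Coprime.coprime_dvd_left (orderOf_map_dvd Abelianization.of g) hg
    obtain ⟨g, rfl⟩ := QuotientGroup.mk_surjective a
    have h3 : g ∈ (A8_A r : Subgroup (Abelianization G)).comap (Abelianization.of) := by
      apply hle
      rw [htop]
      exact Subgroup.mem_top g
    have h4 : (orderOf (Abelianization.of g)).Coprime r := h3
    have h5 : orderOf (Abelianization.of g) = r := ha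
    rw [h5, Nat.coprime_self] at h4
    exact hr.one_lt.ne' h4

end FPX
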