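import Pool.Agent.FPX.Basic

namespace FPX

/-- If the endomorphism `φ` with kernel `H` of the finite commutative group `G` is the product of two
injective endomorphisms, then `H` is the group of fixed points of an automorphism.

Proof.  `u₁, u₂` are bijective; `α g = u₁⁻¹ ((u₂ g)⁻¹)`; `α g = g` iff `(u₂ g)⁻¹ = u₁ g` iff
`φ g = 1`. -/
theorem real_of_sum {G : Type} [CommGroup G] [Finite G] (H : Subgroup G) (φ u₁ u₂ : G →* G)
    (hφ : φ.ker = H) (h : ∀ g, φ g = u₁ g * u₂ g) (h1 : Function.Injective u₁)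
    (h2 : Function.Injective u₂) : ∃ α : MulAut G, ∀ g, α g = g ↔ g ∈ H := by
  have hb1 : Function.Bijective u₁ := Finite.injective_iff_bijective.1 h1
  have hb2 : Function.Bijective u₂ := Finite.injective_iff_bijective.1 h2
  obtain ⟨e1, he1⟩ : ∃ e1 : G ≃* G, ∀ g, e1 g = u₁ g := ⟨MulEquiv.ofBijective u₁ hb1, fun _ => rfl⟩
  obtain ⟨e2, he2⟩ : ∃ e2 : G ≃* G, ∀ g, e2 g = u₂ g := ⟨MulEquiv.ofBijective u₂ hb2, fun _ => rfl⟩
  refine ⟨(e2.trans (MulEquiv.inv G)).trans e1.symm, ?_⟩
  intro g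
  have hval : ((e2.trans (MulEquiv.inv G)).trans e1.symm) g = e1.symm (u₂ g)⁻¹ := by
    rw [← he2]
    rfl
  rw [hval, MulEquiv.symm_apply_eq, he1, ← hφ, MonoidHom.mem_ker, h, eq_comm, eq_inv_iff_mul_eq_one]

/-- Every subgroup of a finite commutative group is the kernel of an endomorphism.

Proof.  `G/H` embeds in `G`: the dual of `G/H` embeds in the dual of `G`, and a finite commutative
group is isomorphic to its dual (`CommGroup.monoidHom_mulEquiv_of_hasEnoughRootsOfUnity` with `ℂ`). -/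
theorem exists_end_ker {G : Type} [CommGroup G] [Finite G] (H : Subgroup G) :
    ∃ φ : G →* G, φ.ker = H := by
  obtain ⟨eG⟩ := CommGroup.monoidHom_mulEquiv_of_hasEnoughRootsOfUnity G ℂ
  obtain ⟨eQ⟩ := CommGroup.monoidHom_mulEquiv_of_hasEnoughRootsOfUnity (G ⧸ H) ℂ
  obtain ⟨F, hF⟩ : ∃ F : ((G ⧸ H) →* ℂˣ) →* (G →* ℂˣ), ∀ f, F f = f.comp (QuotientGroup.mk' H) :=
    ⟨MonoidHom.compHom' (QuotientGroup.mk' H), fun _ => rfl⟩
  refine ⟨(eG.toMonoidHom.comp F).comp (eQ.symm.toMonoidHom.comp (QuotientGroup.mk' H)), ?_⟩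
  ext g
  rw [MonoidHom.mem_ker]
  have hval : ((eG.toMonoidHom.comp F).comp (eQ.symm.toMonoidHom.comp (QuotientGroup.mk' H))) g =
      eG (F (eQ.symm (QuotientGroup.mk' H g))) := rfl
  rw [hval]
  constructor
  · intro h1
    have h2 : F (eQ.symm (QuotientGroup.mk' H g)) = 1 := by
      rw [← map_one eG] at h1
      exact eG.injective h1
    have h3 : eQ.symm (QuotientGroup.mk' H g) = 1 := by
      rw [hF] at h2
      refine MonoidHom.ext fun y => ?_
      obtain ⟨z, rfl⟩ := QuotientGroup.mk'_surjective H y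
      exact DFunLike.congr_fun h2 z
    have h4 : QuotientGroup.mk' H g = 1 := by
      rw [← map_one eQ.symm] at h3
      exact eQ.symm.injective h3
    rw [← MonoidHom.mem_ker, QuotientGroup.ker_mk'] at h4
    exact h4
  · intro hg
    have h4 : QuotientGroup.mk' H g = 1 := by
      rw [← MonoidHom.mem_ker, QuotientGroup.ker_mk']
      exact hg
    rw [h4, map_one, map_one, map_one]

end FPX
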