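import Pool.Agent.FPX.B0

namespace FPX

/-- an idempotent power -/
theorem B2_idem {M : Type} [Monoid M] [Finite M] (x : M) : ∃ N, 1 ≤ N ∧ x ^ N * x ^ N = x ^ N := by
  obtain ⟨m, n, hmn, heq⟩ : ∃ m n : ℕ, m < n ∧ x ^ m = x ^ n := by
    obtain ⟨a, b, hab, h⟩ := Finite.exists_ne_map_eq_of_infinite (fun n : ℕ => x ^ n)
    rcases lt_or_gt_of_ne hab with h1 | h1
    · exact ⟨a, b, h1, h⟩
    · exact ⟨b, a, h1, h.symm⟩
  obtain ⟨k, rfl⟩ := Nat.exists_eq_add_of_lt hmn
  have h1 : ∀ j, m ≤ j → x ^ (j + (k + 1)) = x ^ j := by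
    intro j hj
    obtain ⟨i, rfl⟩ := Nat.exists_eq_add_of_le hj
    have e : m + i + (k + 1) = (m + k + 1) + i := by ring
    rw [e, pow_add, ← heq, ← pow_add]
  have h2 : ∀ l j, m ≤ j → x ^ (j + l * (k + 1)) = x ^ j := by
    intro l
    induction l with
    | zero =>
      intro j _
      rw [zero_mul, add_zero]
    | succ l ih =>
      intro j hj
      have e : j + (l + 1) * (k + 1) = (j + l * (k + 1)) + (k + 1) := by ring
      rw [e, h1 _ (by omega), ih j hj]
  refine ⟨(m + 1) * (k + 1), ?_, ?_⟩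
  · exact Nat.mul_pos (Nat.succ_pos _) (Nat.succ_pos _)
  · rw [← pow_add]
    apply h2 (m + 1) ((m + 1) * (k + 1))
    nlinarith

theorem B2_core {A : Type} [AddCommGroup A] [Finite A] (hodd : Odd (Nat.card A))
    (F : AddMonoid.End A) : ∃ u₁ u₂ : AddMonoid.End A, (∀ g, F g = u₁ g + u₂ g) ∧
      Function.Injective u₁ ∧ Function.Injective u₂ := by
  have hfin : Finite (AddMonoid.End A) :=
    Finite.of_injective (fun f : AddMonoid.End A => (f : A → A)) DFunLike.coe_injective
  obtain ⟨N, hN, hidem⟩ := B2_idem F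
  have hee : ∀ g, (F ^ N) ((F ^ N) g) = (F ^ N) g := fun g => DFunLike.congr_fun hidem g
  have hcF : ∀ g, (F ^ N) (F g) = F ((F ^ N) g) := fun g =>
    DFunLike.congr_fun (Commute.pow_self F N).eq g
  have hpow : ∀ g, F g = 0 → (F ^ N) g = 0 := by
    intro g hg
    obtain ⟨M, rfl⟩ : ∃ M, N = M + 1 := ⟨N - 1, by omega⟩
    have h1 : (F ^ (M + 1)) g = (F ^ M) (F g) := by
      rw [pow_succ]
      rfl
    rw [h1, hg, map_zero]
  have hfix : ∀ g, F g = g → (F ^ N) g = g := by
    intro g hg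
    have h1 : ∀ M : ℕ, (F ^ M) g = g := by
      intro M
      induction M with
      | zero => rfl
      | succ M ih =>
        have h2 : (F ^ (M + 1)) g = (F ^ M) (F g) := by
          rw [pow_succ]
          rfl
        rw [h2, hg, ih]
    exact h1 N
  have htwo : ∀ g : A, g + g = 0 → g = 0 := by
    intro g hg
    obtain ⟨k, hk⟩ := hodd
    have h1 : (Nat.card A) • g = 0 := card_nsmul_eq_zero'
    rw [hk, add_nsmul, one_nsmul, mul_comm, mul_nsmul, two_nsmul] at h1
    rw [← two_nsmul, ← mul_nsmul, mul_comm, mul_nsmul, two_nsmul, hg, nsmul_zero, zero_add] at h1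
    exact h1
  refine ⟨(1 - F ^ N) + (F ^ N * F + F ^ N * F), (1 - F ^ N) * (F - 1) - F ^ N * F, ?_, ?_, ?_⟩
  · intro g
    show F g = ((g - (F ^ N) g) + ((F ^ N) (F g) + (F ^ N) (F g))) +
      (((F g - g) - (F ^ N) (F g - g)) - (F ^ N) (F g))
    rw [map_sub]
    abel
  · rw [injective_iff_map_eq_zero]
    intro g hg
    have hg' : (g - (F ^ N) g) + ((F ^ N) (F g) + (F ^ N) (F g)) = 0 := hg
    have h1 := congrArg (F ^ N) hg'
    rw [map_add, map_add, map_sub, hee, hee, sub_self, zero_add, map_zero] at h1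
    have h2 := htwo _ h1
    rw [h2, add_zero, add_zero, sub_eq_zero] at hg'
    rw [hcF, ← hg'] at h2
    rw [hg']
    exact hpow g h2
  · rw [injective_iff_map_eq_zero]
    intro g hg
    have hg' : ((F g - g) - (F ^ N) (F g - g)) - (F ^ N) (F g) = 0 := hg
    have h1 := congrArg (F ^ N) hg'
    rw [map_sub, map_sub, hee, hee, sub_self, zero_sub, map_zero, neg_eq_zero] at h1
    have h2 : (F ^ N) g = 0 := by
      rw [← hee]
      apply hpow
      rw [← hcF]
      exact h1
    rw [map_sub, h1, h2, sub_zero, sub_zero, sub_zero, sub_eq_zero] at hg'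
    rw [← hfix g hg']
    exact h2

/-- A finite commutative group of odd order has (F).

Proof.  Let `φ` be an endomorphism with kernel `H` (`exists_end_ker`).  Additive notation; all maps
below are endomorphisms.  `G` is finite, so some power `e = φ ^ N`, `N ≥ 1`, satisfies `e ^ 2 = e`.
`u₁ = (1 - e) + 2 e φ`, `u₂ = (1 - e)(φ - 1) - e φ`; `u₁ + u₂ = (1 - e) φ + e φ = φ`.
`u₁` is injective: if `u₁ g = 0`, apply `1 - e`: `(1 - e) g = 0`; apply `e`: `2 e φ g = 0`, so
`e φ g = 0` (odd order), apply `φ ^ (N-1)`: `e g = 0`; so `g = 0`.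
`u₂` is injective: if `u₂ g = 0`, apply `e`: `e φ g = 0`, so `e g = 0`; apply `1 - e`:
`(1 - e)(φ g - g) = 0`, and with `e g = 0`: `φ g = g`, so `e g = φ ^ N g = g`, `g = 0`.
`real_of_sum`. -/
theorem pf_odd (G : Type) [CommGroup G] [Finite G] (h : Odd (Nat.card G)) : PF G := by
  intro H
  obtain ⟨φ, hφ⟩ := exists_end_ker H
  have h' : Odd (Nat.card (Additive G)) := h
  obtain ⟨u₁, u₂, h1, h2, h3⟩ := B2_core h' (MonoidHom.toAdditive φ)
  exact real_of_sum H φ (MonoidHom.toAdditive.symm u₁) (MonoidHom.toAdditive.symm u₂) hφ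
    (fun g => h1 (Additive.ofMul g)) h2 h3

end FPX
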