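import Pool.Agent.FPX.Defs

namespace FPX

variable {ι : Type} [Fintype ι] [DecidableEq ι]

theorem B3_single (e : ι → ℕ) (a : ∀ i, ZMod (2 ^ e i)) :
    a = ∑ j, (a j).val • (Pi.single j 1 : ∀ i, ZMod (2 ^ e i)) := by
  funext i
  rw [Finset.sum_apply, Finset.sum_eq_single i]
  · rw [Pi.smul_apply, Pi.single_eq_same, nsmul_eq_mul, mul_one, ZMod.natCast_zmod_val]
  · intro j _ hj
    rw [Pi.smul_apply, Pi.single_eq_of_ne hj.symm, smul_zero]
  · intro hi
    exact absurd (Finset.mem_univ i) hi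

/-- Injectivity criterion for endomorphisms of `A = ∏ Z/2^(e i)`.

Proof.  Suppose `φ` is not injective; its kernel is a nontrivial 2-group, so it contains `a ≠ 0` with
`2 a = 0`, so `a i = 2 ^ (e i - 1) c i` with `c i ∈ {0, 1}` (`c i = 0` if `e i = 0`).  Let `k` be the
smallest `e i` with `c i ≠ 0` (`k ≥ 1`) and `c' i = c i` if `e i = k`, `0` otherwise.  For `i` with
`e i = k`: `0 = φ(a) i = ∑_j φ(single j (2 ^ (e j - 1) c j)) i`.  For `e j < k`, `c j = 0`.  For
`e j > k = e i`, `φ(single j (2 ^ (e j - 1))) i = 2 ^ (e j - 1) φ(single j 1) i = 0` in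
`Z/2^k`.  For `e j = k` the term is `2 ^ (k - 1) c j φ(single j 1) i`.  So
`2 ^ (k-1) ∑_{e j = k} φ(single j 1) i c j = 0` in `Z/2^k`, i.e. the sum is even, for all `i` with
`e i = k`.  The hypothesis gives `c' = 0`, contradiction. -/
theorem inj_of_blocks (e : ι → ℕ) (φ : (∀ i, ZMod (2 ^ e i)) →+ (∀ i, ZMod (2 ^ e i)))
    (h : ∀ k, 1 ≤ k → ∀ c : ι → ZMod 2, (∀ i, e i ≠ k → c i = 0) →
      (∀ i, e i = k → ∑ j, (((φ (Pi.single j 1)) i).val : ZMod 2) * c j = 0) → c = 0) :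
    Function.Injective φ := by
  rw [injective_iff_map_eq_zero]
  intro a0 ha0
  by_contra hne
  obtain ⟨a, ha, hane, h2a⟩ : ∃ a, φ a = 0 ∧ a ≠ 0 ∧ 2 • a = 0 := by
    have hex : ∃ n : ℕ, 2 ^ n • a0 = 0 := by
      refine ⟨∑ i, e i, ?_⟩
      funext i
      rw [Pi.smul_apply, Pi.zero_apply, nsmul_eq_mul]
      have h1 : ((2 ^ ∑ i, e i : ℕ) : ZMod (2 ^ e i)) = 0 := by
        rw [ZMod.natCast_eq_zero_iff]
        exact pow_dvd_pow 2 (Finset.single_le_sum (fun _ _ => Nat.zero_le _) (Finset.mem_univ i))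
      rw [h1, zero_mul]
    obtain ⟨n, hn, hmin⟩ : ∃ n, 2 ^ n • a0 = 0 ∧ ∀ m < n, 2 ^ m • a0 ≠ 0 := by
      classical
      exact ⟨Nat.find hex, Nat.find_spec hex, fun m hm => Nat.find_min hex hm⟩
    have hn0 : n ≠ 0 := by
      rintro rfl
      rw [pow_zero, one_smul] at hn
      exact hne hn
    obtain ⟨m, rfl⟩ := Nat.exists_eq_succ_of_ne_zero hn0
    refine ⟨2 ^ m • a0, by rw [map_nsmul, ha0, smul_zero], hmin m (Nat.lt_succ_self m), ?_⟩
    rw [← mul_smul, ← pow_succ']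
    exact hn
  have hval : ∀ j, a j ≠ 0 → 1 ≤ e j ∧ (a j).val = 2 ^ (e j - 1) := by
    intro j hj
    have h1 : 2 • a j = 0 := congrFun h2a j
    have hlt := ZMod.val_lt (a j)
    have hpos : 0 < (a j).val := Nat.pos_of_ne_zero (fun h => hj ((ZMod.val_eq_zero _).1 h))
    have hdvd : 2 ^ e j ∣ 2 * (a j).val := by
      rw [← ZMod.natCast_eq_zero_iff, Nat.cast_mul, ZMod.natCast_zmod_val, ← h1, nsmul_eq_mul]
    have he : 1 ≤ e j := by
      by_contra h
      have h3 : 2 ^ e j = 1 := by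
        rw [show e j = 0 by omega, pow_zero]
      omega
    have h4 : 2 ^ e j = 2 * 2 ^ (e j - 1) := by
      rw [← pow_succ', Nat.sub_add_cancel he]
    refine ⟨he, ?_⟩
    obtain ⟨c, hc⟩ := hdvd
    have hc2 : c < 2 := by
      by_contra h
      push Not at h
      nlinarith
    have hc1 : 0 < c := by
      by_contra h
      have : c = 0 := by omega
      rw [this, mul_zero] at hc
      omega
    have hc' : c = 1 := by omega
    rw [hc', mul_one] at hc
    omega
  classical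
  obtain ⟨i0, hi0, hmin⟩ : ∃ i0, a i0 ≠ 0 ∧ ∀ i, a i ≠ 0 → e i0 ≤ e i := by
    have hne' : (Finset.univ.filter fun i => a i ≠ 0).Nonempty := by
      by_contra h
      rw [Finset.not_nonempty_iff_eq_empty] at h
      apply hane
      funext i
      by_contra hi
      have : i ∈ Finset.univ.filter fun i => a i ≠ 0 := Finset.mem_filter.2 ⟨Finset.mem_univ _, hi⟩
      rw [h] at this
      exact absurd this (Finset.notMem_empty i)
    obtain ⟨i0, h1, h2⟩ := Finset.exists_min_image _ e hne'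
    exact ⟨i0, (Finset.mem_filter.1 h1).2, fun i hi => h2 i (Finset.mem_filter.2 ⟨Finset.mem_univ _, hi⟩)⟩
  obtain ⟨k, hk⟩ : ∃ k, k = e i0 := ⟨_, rfl⟩
  have hk1 : 1 ≤ k := by
    rw [hk]
    exact (hval i0 hi0).1
  obtain ⟨c, hc⟩ : ∃ c : ι → ℕ, ∀ j, c j = if e j = k ∧ a j ≠ 0 then 1 else 0 := ⟨_, fun _ => rfl⟩
  have hzero := h k hk1 (fun j => (c j : ZMod 2)) ?_ ?_
  · have h1 := congrFun hzero i0
    simp only [Pi.zero_apply] at h1
    rw [hc, if_pos ⟨hk.symm, hi0⟩] at h1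
    exact absurd h1 (by decide)
  · intro i hi
    show (c i : ZMod 2) = 0
    rw [hc, if_neg (fun h => hi h.1), Nat.cast_zero]
  · intro i hi
    have hφ : (φ a) i = ((∑ j, (a j).val * ((φ (Pi.single j 1)) i).val : ℕ) : ZMod (2 ^ e i)) := by
      conv_lhs => rw [B3_single e a]
      rw [map_sum, Finset.sum_apply, Nat.cast_sum]
      refine Finset.sum_congr rfl fun j _ => ?_
      rw [map_nsmul, Pi.smul_apply, nsmul_eq_mul, Nat.cast_mul, ZMod.natCast_zmod_val ((φ (Pi.single j 1)) i)]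
    rw [ha, Pi.zero_apply, eq_comm, ZMod.natCast_eq_zero_iff] at hφ
    replace hφ := (show 2 ^ k ∣ 2 ^ e i by rw [hi]).trans hφ
    have hcong : (∑ j, (a j).val * ((φ (Pi.single j 1)) i).val) ≡
        (∑ j, 2 ^ (k - 1) * (c j * ((φ (Pi.single j 1)) i).val)) [MOD 2 ^ k] := by
      refine Nat.ModEq.sum fun j _ => ?_
      generalize ((φ (Pi.single j 1)) i).val = y
      by_cases haj : a j = 0
      · have h1 : (a j).val = 0 := (ZMod.val_eq_zero _).2 haj
        rw [h1, hc, if_neg (fun h => h.2 haj), zero_mul, mul_zero]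
      · by_cases hej : e j = k
        · rw [hc, if_pos ⟨hej, haj⟩, (hval j haj).2, one_mul, hej]
        · rw [hc, if_neg (fun h => hej h.1), zero_mul, mul_zero, (hval j haj).2]
          have h1 : k ≤ e j - 1 := by
            have h2 := hmin j haj
            omega
          rw [Nat.modEq_zero_iff_dvd]
          exact (pow_dvd_pow 2 h1).mul_right _
    rw [← Finset.mul_sum] at hcong
    have hd : 2 ^ k ∣ 2 ^ (k - 1) * ∑ j, c j * ((φ (Pi.single j 1)) i).val :=
      (Nat.modEq_zero_iff_dvd).1 (hcong.symm.trans ((Nat.modEq_zero_iff_dvd).2 hφ))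
    have hk2 : 2 ^ k = 2 ^ (k - 1) * 2 := by
      rw [← pow_succ, Nat.sub_add_cancel hk1]
    rw [hk2] at hd
    have hd2 : 2 ∣ ∑ j, c j * ((φ (Pi.single j 1)) i).val :=
      Nat.dvd_of_mul_dvd_mul_left (by positivity) hd
    rw [← ZMod.natCast_eq_zero_iff, Nat.cast_sum] at hd2
    rw [← hd2]
    refine Finset.sum_congr rfl fun j _ => ?_
    rw [Nat.cast_mul, mul_comm]

end FPX
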