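import Pool.Agent.FPX.Defs

namespace FPX

variable {ι : Type} [Fintype ι] [DecidableEq ι]

/-- Block diagonal endomorphisms of `∏ Z/2^(e i)` with prescribed blocks modulo 2.

Proof.  `u a i = ∑_{j : e j = e i} (U i j).val • cast (a j)` where `cast : ZMod (2 ^ e j) → ZMod (2 ^ e i)`
is the ring homomorphism (`ZMod.castHom`, `2 ^ e i ∣ 2 ^ e j` as `e i = e j`).  For `e i = e j ≥ 1`:
`u (single j 1) i = (U i j).val`, whose value modulo 2 is `U i j`. -/
theorem exists_block (e : ι → ℕ) (U : ι → ι → ZMod 2) :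
    ∃ u : (∀ i, ZMod (2 ^ e i)) →+ (∀ i, ZMod (2 ^ e i)),
      ∀ i j, 1 ≤ e i → e i = e j → (((u (Pi.single j 1)) i).val : ZMod 2) = U i j := by
  classical
  refine ⟨AddMonoidHom.mk' (fun a i => ∑ j, if h : e i = e j then
    (U i j).val • (ZMod.castHom (pow_dvd_pow 2 h.le) (ZMod (2 ^ e i)) (a j)) else 0) ?_, ?_⟩
  · intro a b
    funext i
    rw [Pi.add_apply, ← Finset.sum_add_distrib]
    refine Finset.sum_congr rfl fun j _ => ?_
    by_cases h : e i = e j
    · rw [dif_pos h, dif_pos h, dif_pos h, Pi.add_apply, map_add, smul_add]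
    · rw [dif_neg h, dif_neg h, dif_neg h, add_zero]
  · intro i j hi hij
    have h1 : (AddMonoidHom.mk' (fun (a : ∀ i, ZMod (2 ^ e i)) i => ∑ j, if h : e i = e j then
        (U i j).val • (ZMod.castHom (pow_dvd_pow 2 h.le) (ZMod (2 ^ e i)) (a j)) else 0) (by
          intro a b
          funext i
          rw [Pi.add_apply, ← Finset.sum_add_distrib]
          refine Finset.sum_congr rfl fun j _ => ?_
          by_cases h : e i = e j
          · rw [dif_pos h, dif_pos h, dif_pos h, Pi.add_apply, map_add, smul_add]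
          · rw [dif_neg h, dif_neg h, dif_neg h, add_zero]))
        (Pi.single j 1) i = (((U i j).val : ℕ) : ZMod (2 ^ e i)) := by
      show (∑ j', if h : e i = e j' then
        (U i j').val • (ZMod.castHom (pow_dvd_pow 2 h.le) (ZMod (2 ^ e i))
          ((Pi.single j 1 : ∀ i, ZMod (2 ^ e i)) j')) else 0) = _
      rw [Finset.sum_eq_single j]
      · rw [dif_pos hij, Pi.single_eq_same, map_one, nsmul_one]
      · intro b _ hb
        by_cases h : e i = e b
        · rw [dif_pos h, Pi.single_eq_of_ne hb, map_zero, smul_zero]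
        · rw [dif_neg h]
      · intro h
        exact absurd (Finset.mem_univ _) h
    rw [h1, ZMod.val_natCast_of_lt, ZMod.natCast_zmod_val]
    calc (U i j).val < 2 := ZMod.val_lt _
      _ = 2 ^ 1 := by norm_num
      _ ≤ 2 ^ e i := Nat.pow_le_pow_right (by norm_num) hi

/-- For `k ≥ 1`, the reduction modulo 2 of an element of `ZMod (2 ^ k)` is additive. -/
theorem val_cast_sub {k : ℕ} (hk : 1 ≤ k) (a b : ZMod (2 ^ k)) :
    ((a - b).val : ZMod 2) = (a.val : ZMod 2) - (b.val : ZMod 2) := by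
  have hd : 2 ∣ 2 ^ k := dvd_pow_self 2 (by omega)
  have : NeZero (2 ^ k) := ⟨by positivity⟩
  have h1 : ∀ c : ZMod (2 ^ k), ((c.val : ℕ) : ZMod 2) = ZMod.castHom hd (ZMod 2) c := by
    intro c
    rw [ZMod.castHom_apply, ZMod.natCast_val]
  rw [h1, h1, h1, map_sub]

end FPX
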