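import Pool.Agent.FPX.Defs

namespace FPX

/-- the cyclic permutation matrix plus a diagonal matrix -/
def L19_M (m : ℕ) (w : Fin (m + 2) → ZMod 2) : Matrix (Fin (m + 2)) (Fin (m + 2)) (ZMod 2) :=
  fun i j => (if j = i + 1 then 1 else 0) + (if j = i then w i else 0)

theorem L19_mulVec (m : ℕ) (w v : Fin (m + 2) → ZMod 2) (i : Fin (m + 2)) :
    (L19_M m w).mulVec v i = v (i + 1) + w i * v i := by
  simp only [L19_M, Matrix.mulVec, dotProduct, add_mul, ite_mul, one_mul, zero_mul,
    Finset.sum_add_distrib, Finset.sum_ite_eq', Finset.mem_univ, if_true]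

open Fin.CommRing in
theorem L19_unit (m : ℕ) (w : Fin (m + 2) → ZMod 2) (i₀ : Fin (m + 2)) (h : w i₀ = 0) :
    IsUnit (L19_M m w) := by
  rw [← Matrix.mulVec_injective_iff_isUnit]
  have key : ∀ v : Fin (m + 2) → ZMod 2, (L19_M m w).mulVec v = 0 → v = 0 := by
    intro v hv
    have h1 : ∀ i, v (i + 1) = - (w i * v i) := by
      intro i
      have := congrFun hv i
      rw [L19_mulVec] at this
      exact eq_neg_of_add_eq_zero_left this
    have h2 : ∀ k : ℕ, v (i₀ + 1 + (k : Fin (m + 2))) = 0 := by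
      intro k
      induction k with
      | zero => simp [h1, h]
      | succ k ih =>
        have e : i₀ + 1 + ((k + 1 : ℕ) : Fin (m + 2)) = (i₀ + 1 + (k : Fin (m + 2))) + 1 := by
          push_cast; ring
        rw [e, h1, ih, mul_zero, neg_zero]
    funext i
    have e := h2 (i - i₀ - 1 : Fin (m + 2)).val
    rw [Fin.cast_val_eq_self] at e
    have e2 : i₀ + 1 + (i - i₀ - 1) = i := by ring
    rwa [e2] at e
  intro v v' hvv
  have h3 : (L19_M m w).mulVec (v - v') = 0 := by
    rw [Matrix.mulVec_sub]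
    exact sub_eq_zero.2 hvv
  exact sub_eq_zero.1 (key _ h3)

theorem L19_diag (m : ℕ) (d : Fin (m + 2) → ZMod 2) :
    ∃ U : Matrix (Fin (m + 2)) (Fin (m + 2)) (ZMod 2),
      IsUnit U ∧ IsUnit (Matrix.diagonal d - U) := by
  let x : Fin (m + 2) → ZMod 2 := Function.update 0 1 (d 1)
  have hx0 : x 0 = 0 := by simp [x]
  have hx1 : x 1 = d 1 := by simp [x]
  refine ⟨L19_M m x, L19_unit m x 0 hx0, ?_⟩
  have e : Matrix.diagonal d - L19_M m x = - L19_M m (x - d) := by
    ext i j
    simp only [L19_M, Matrix.sub_apply, Matrix.neg_apply, Matrix.diagonal_apply, Pi.sub_apply]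
    by_cases hij : i = j
    · subst hij
      simp only [if_true]
      ring
    · have hji : ¬ j = i := fun h => hij h.symm
      simp only [if_neg hij, if_neg hji]
      ring
  rw [e]
  exact (L19_unit m (x - d) 1 (by rw [Pi.sub_apply, hx1, sub_self])).neg

theorem L19_fin (m : ℕ) (B : Matrix (Fin (m + 2)) (Fin (m + 2)) (ZMod 2)) :
    ∃ U : Matrix (Fin (m + 2)) (Fin (m + 2)) (ZMod 2), IsUnit U ∧ IsUnit (B - U) := by
  obtain ⟨L, L', D, hB⟩ := Matrix.Pivot.exists_list_transvec_mul_diagonal_mul_list_transvec B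
  obtain ⟨U, hU, hU'⟩ := L19_diag m D
  have hP : IsUnit (L.map Matrix.TransvectionStruct.toMatrix).prod := by
    rw [Matrix.isUnit_iff_isUnit_det, Matrix.TransvectionStruct.det_toMatrix_prod]
    exact isUnit_one
  have hQ : IsUnit (L'.map Matrix.TransvectionStruct.toMatrix).prod := by
    rw [Matrix.isUnit_iff_isUnit_det, Matrix.TransvectionStruct.det_toMatrix_prod]
    exact isUnit_one
  refine ⟨(L.map Matrix.TransvectionStruct.toMatrix).prod * U *
    (L'.map Matrix.TransvectionStruct.toMatrix).prod, (hP.mul hU).mul hQ, ?_⟩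
  rw [hB, ← sub_mul, ← mul_sub]
  exact (hP.mul hU').mul hQ

/-- Every square matrix over `F_2` of size `≠ 1` is a sum of two invertible matrices.

Proof.  Size `0` is trivial.  By elimination (`Matrix.Pivot.exists_list_transvec_mul_mul_list_transvec_eq_diagonal`)
`B = P D Q` with `P, Q` invertible and `D` diagonal, so we may assume `B = D = diagonal d`.  Let
`s` be a cyclic permutation of the index set `n` (transport from `Fin m`, `finRotate`) and `S` its
permutation matrix, `(S v) i = v (s i)`.  Choose two different indices `i₀, j₀` and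
`x : n → ZMod 2` with `x i₀ = 0`, `x j₀ = d j₀` (and arbitrary, e.g. `0`, elsewhere).  Put
`U = S + diagonal x`; `D - U = -S + diagonal (d - x)`.  Both are invertible because both are
injective: if `v (s i) = -x i v i` for all `i`, then `v (s i₀) = 0`, then
`v (s (s i₀)) = -x (s i₀) v (s i₀) = 0`, and so on around the cycle, `v = 0`; in the same way with
`d - x`, which vanishes at `j₀`. -/
theorem mat_sum {n : Type} [Fintype n] [DecidableEq n] (hn : Fintype.card n ≠ 1)
    (B : Matrix n n (ZMod 2)) : ∃ U : Matrix n n (ZMod 2), IsUnit U ∧ IsUnit (B - U) := by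
  rcases Nat.eq_zero_or_pos (Fintype.card n) with h0 | hpos
  · have : IsEmpty n := Fintype.card_eq_zero_iff.1 h0
    exact ⟨1, isUnit_one, isUnit_of_subsingleton _⟩
  obtain ⟨m, hm⟩ : ∃ m, Fintype.card n = m + 2 := ⟨Fintype.card n - 2, by omega⟩
  let e : n ≃ Fin (m + 2) := Fintype.equivFinOfCardEq hm
  obtain ⟨U, hU, hU'⟩ := L19_fin m (B.submatrix e.symm e.symm)
  refine ⟨U.submatrix e e, (Matrix.isUnit_submatrix_equiv e e).2 hU, ?_⟩
  have h : B - U.submatrix e e = (B.submatrix e.symm e.symm - U).submatrix e e := by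
    ext i j
    simp
  rw [h]
  exact (Matrix.isUnit_submatrix_equiv e e).2 hU'

end FPX
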