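import Pool.Agent.FPX.B0
import Pool.Agent.FPX.B3
import Pool.Agent.FPX.B4
import Pool.Agent.FPX.L19

namespace FPX

theorem B5_inj {ι : Type} [Fintype ι] [DecidableEq ι] (e : ι → ℕ)
    (ψ : (∀ i, ZMod (2 ^ e i)) →+ (∀ i, ZMod (2 ^ e i)))
    (M : ∀ k, Matrix {i // e i = k} {i // e i = k} (ZMod 2)) (hM : ∀ k, IsUnit (M k))
    (h : ∀ k, 1 ≤ k → ∀ i j : {i // e i = k},
      (((ψ (Pi.single j.1 1)) i.1).val : ZMod 2) = M k i j) : Function.Injective ψ := by
  apply inj_of_blocks e ψ
  intro k hk c hc0 hc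
  have h1 : (M k).mulVec (fun j : {i // e i = k} => c j.1) = 0 := by
    funext i
    have h2 := hc i.1 i.2
    rw [Matrix.mulVec, dotProduct, Pi.zero_apply, ← h2]
    have h3 : ∑ j, (((ψ (Pi.single j 1)) i.1).val : ZMod 2) * c j
        = ∑ j ∈ Finset.univ.filter (fun j => e j = k),
            (((ψ (Pi.single j 1)) i.1).val : ZMod 2) * c j := by
      rw [Finset.sum_filter]
      apply Finset.sum_congr rfl
      intro j _
      split_ifs with h4
      · rfl
      · rw [hc0 j h4, mul_zero]
    rw [h3, ← Finset.sum_subtype_eq_sum_filter, Finset.subtype_univ]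
    apply Finset.sum_congr rfl
    intro j _
    rw [h k hk i j]
  have h2 : (fun j : {i // e i = k} => c j.1) = 0 := by
    obtain ⟨N, hN⟩ := (hM k).exists_left_inv
    have h3 := congrArg (N.mulVec) h1
    rwa [Matrix.mulVec_mulVec, hN, Matrix.one_mulVec, Matrix.mulVec_zero] at h3
  funext i
  by_cases hi : e i = k
  · exact congrFun h2 ⟨i, hi⟩
  · exact hc0 i hi

/-- the multiplicative form of an additive endomorphism -/
def B5_mul {ι : Type} {e : ι → ℕ} (u : (∀ i, ZMod (2 ^ e i)) →+ (∀ i, ZMod (2 ^ e i))) :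
    (∀ i, Multiplicative (ZMod (2 ^ e i))) →* (∀ i, Multiplicative (ZMod (2 ^ e i))) where
  toFun g := fun i => Multiplicative.ofAdd (u (fun j => Multiplicative.toAdd (g j)) i)
  map_one' := by
    funext i
    change Multiplicative.ofAdd (u (0 : ∀ j, ZMod (2 ^ e j)) i) = 1
    rw [map_zero]
    rfl
  map_mul' a b := by
    funext i
    change Multiplicative.ofAdd (u ((fun j => Multiplicative.toAdd (a j)) +
      (fun j => Multiplicative.toAdd (b j))) i) = _
    rw [map_add]
    rfl

/-- the additive form of a multiplicative endomorphism -/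
def B5_add {ι : Type} {e : ι → ℕ}
    (φ : (∀ i, Multiplicative (ZMod (2 ^ e i))) →* (∀ i, Multiplicative (ZMod (2 ^ e i)))) :
    (∀ i, ZMod (2 ^ e i)) →+ (∀ i, ZMod (2 ^ e i)) where
  toFun a := fun i => Multiplicative.toAdd (φ (fun j => Multiplicative.ofAdd (a j)) i)
  map_zero' := by
    funext i
    change Multiplicative.toAdd (φ (1 : ∀ j, Multiplicative (ZMod (2 ^ e j))) i) = 0
    rw [map_one]
    rfl
  map_add' a b := by
    funext i
    change Multiplicative.toAdd (φ ((fun j => Multiplicative.ofAdd (a j)) *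
      (fun j => Multiplicative.ofAdd (b j))) i) = _
    rw [map_mul]
    rfl

theorem B5_mul_inj {ι : Type} {e : ι → ℕ}
    {u : (∀ i, ZMod (2 ^ e i)) →+ (∀ i, ZMod (2 ^ e i))} (hu : Function.Injective u) :
    Function.Injective (B5_mul u) := by
  intro a b hab
  have h1 : u (fun j => Multiplicative.toAdd (a j)) = u (fun j => Multiplicative.toAdd (b j)) := by
    funext i
    exact congrArg Multiplicative.toAdd (congrFun hab i)
  have h2 := hu h1
  funext i
  exact congrArg Multiplicative.ofAdd (congrFun h2 i)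

/-- Direct products of cyclic 2-groups in which no order occurs exactly once have (F).

Proof.  Let `φ` have kernel `H` (`exists_end_ker`); write it additively.  For every `k ≥ 1`, the matrix
`B_k` over `F_2` indexed by `{i // e i = k}` with entries `(φ (single j 1) i).val` is a sum
`U_k + (B_k - U_k)` of two invertible matrices (`mat_sum`, the size is not `1`).  `exists_block` gives `u`
with blocks `U_k`; `φ - u` has blocks `B_k - U_k` (`val_cast_sub`).  Both are injective by
`inj_of_blocks` (an invertible matrix kills only `0`).  `real_of_sum` with `u₁ = u`,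
`u₂ = φ - u`. -/
theorem pf_two {ι : Type} [Fintype ι] (e : ι → ℕ) (he : ∀ i, 1 ≤ e i)
    (hc : ∀ k, Nat.card {i // e i = k} ≠ 1) :
    PF (∀ i, Multiplicative (ZMod (2 ^ e i))) := by
  classical
  intro H
  obtain ⟨φ, hφ⟩ := exists_end_ker H
  set Φ := B5_add φ with hΦ
  have key : ∀ k, ∃ U : Matrix {i // e i = k} {i // e i = k} (ZMod 2), IsUnit U ∧
      IsUnit ((Matrix.of fun i j : {i // e i = k} =>
        (((Φ (Pi.single j.1 1)) i.1).val : ZMod 2)) - U) := by
    intro k
    apply mat_sum
    rw [← Nat.card_eq_fintype_card]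
    exact hc k
  choose U hU1 hU2 using key
  obtain ⟨u, hu⟩ := exists_block e
    (fun i j => if h : e j = e i then U (e i) ⟨i, rfl⟩ ⟨j, h⟩ else 0)
  have hublk : ∀ k, 1 ≤ k → ∀ i j : {i // e i = k},
      (((u (Pi.single j.1 1)) i.1).val : ZMod 2) = U k i j := by
    rintro k hk ⟨i, hi⟩ ⟨j, hj⟩
    subst hi
    rw [hu i j hk hj.symm, dif_pos hj]
  have hi1 : Function.Injective u := B5_inj e u U hU1 hublk
  have hi2 : Function.Injective (Φ - u : (∀ i, ZMod (2 ^ e i)) →+ (∀ i, ZMod (2 ^ e i))) := by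
    refine B5_inj e (Φ - u) _ hU2 ?_
    intro k hk i j
    rw [Matrix.sub_apply, Matrix.of_apply, AddMonoidHom.sub_apply, Pi.sub_apply,
      val_cast_sub (by have := i.2; omega), hublk k hk i j]
  refine real_of_sum H φ (B5_mul u) (B5_mul (Φ - u)) hφ ?_ (B5_mul_inj hi1) (B5_mul_inj hi2)
  intro g
  funext i
  change φ g i = Multiplicative.ofAdd (u (fun j => Multiplicative.toAdd (g j)) i +
    ((Φ - u) (fun j => Multiplicative.toAdd (g j))) i)
  rw [AddMonoidHom.sub_apply, Pi.sub_apply, add_sub_cancel]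
  rfl

end FPX
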