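import Pool.Agent.FPX.Basic

namespace FPX

/-- A group with a fixed point free automorphism has no characteristic section of order 2.

Proof.  `α` induces the identity on `N/K` (order 2): `n⁻¹ α(n) ∈ K` for all `n ∈ N`.  By `lang_inv` for `N`,
every `m ∈ N` is of the form `n⁻¹ α(n)` with `n ∈ N`, so `N ≤ K`, contradiction. -/
theorem no_sec2 {G : Type} [Group G] [Finite G] (N K : Subgroup G) (hN : N.Characteristic)
    (hK : K.Characteristic) (hKN : K ≤ N) (h2 : K.relIndex N = 2) (α : MulAut G)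
    (hα : ∀ g, α g = g → g = 1) : False := by
  have h3 : (K.subgroupOf N).index = 2 := h2
  have h4 : ∀ n ∈ N, n⁻¹ * α n ∈ K := by
    intro n hn
    have hαn := char_mem hN α hn
    have h5 := Subgroup.mul_mem_iff_of_index_two h3 (a := ⟨n⁻¹, N.inv_mem hn⟩) (b := ⟨α n, hαn⟩)
    rw [Subgroup.mem_subgroupOf, Subgroup.mem_subgroupOf, Subgroup.mem_subgroupOf] at h5
    apply h5.2
    show n⁻¹ ∈ K ↔ α n ∈ K
    rw [K.inv_mem_iff, char_mem_iff hK]
  have h5 : N ≤ K := by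
    intro m hm
    obtain ⟨n, hn, h⟩ := lang_inv α N (fun n hn => char_mem hN α hn) (fun n _ h => hα n h) m hm
    rw [← h]
    exact h4 n hn
  rw [Subgroup.relIndex_eq_one.2 h5] at h2
  omega

/-- elements of order two in `Z/2^(m+1)` -/
theorem B6_half (m n : ℕ) (hn : n = m + 1) (x : ZMod (2 ^ n)) (hx : 2 * x = 0) :
    ∃ c : ℕ, x = 2 ^ m * c := by
  subst hn
  obtain ⟨a, rfl⟩ := ZMod.natCast_zmod_surjective x
  have h1 : ((2 * a : ℕ) : ZMod (2 ^ (m + 1))) = 0 := by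
    push_cast
    exact hx
  rw [ZMod.natCast_eq_zero_iff, pow_succ, mul_comm (2 ^ m) 2] at h1
  obtain ⟨c, hc⟩ := Nat.dvd_of_mul_dvd_mul_left (by norm_num) h1
  exact ⟨c, by rw [hc]; push_cast; ring⟩

theorem B6_top (m n : ℕ) (hn : n = m + 1) : (2 : ZMod (2 ^ n)) ^ m + 2 ^ m = 0 := by
  subst hn
  have h1 : ((2 ^ (m + 1) : ℕ) : ZMod (2 ^ (m + 1))) = 0 := by
    rw [ZMod.natCast_eq_zero_iff]
  push_cast at h1
  rw [← h1]
  ring

theorem B6_ne (m n : ℕ) (hn : n = m + 1) : (2 : ZMod (2 ^ n)) ^ m ≠ 0 := by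
  subst hn
  intro h
  have h1 : ((2 ^ m : ℕ) : ZMod (2 ^ (m + 1))) = 0 := by
    push_cast
    exact h
  rw [ZMod.natCast_eq_zero_iff] at h1
  have h2 := Nat.le_of_dvd (by positivity) h1
  have h3 : 2 ^ m < 2 ^ (m + 1) := Nat.pow_lt_pow_right (by norm_num) (by omega)
  omega

theorem B6_or (m n : ℕ) (hn : n = m + 1) (x : ZMod (2 ^ n)) (hx : 2 * x = 0) :
    x = 0 ∨ x = 2 ^ m := by
  obtain ⟨c, rfl⟩ := B6_half m n hn x hx
  have ht := B6_top m n hn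
  have ht' : (2 : ZMod (2 ^ n)) ^ m * 2 = 0 := by rw [← ht]; ring
  rcases Nat.even_or_odd' c with ⟨a, rfl | rfl⟩
  · left
    push_cast
    rw [← mul_assoc, ht', zero_mul]
  · right
    push_cast
    rw [mul_add, ← mul_assoc, ht', zero_mul, zero_add, mul_one]

theorem B6_zero (j n : ℕ) (hn : n ≤ j) (y : ZMod (2 ^ n)) : 2 ^ j * y = 0 := by
  have h1 : ((2 ^ j : ℕ) : ZMod (2 ^ n)) = 0 := by
    rw [ZMod.natCast_eq_zero_iff]
    exact pow_dvd_pow 2 hn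
  push_cast at h1
  rw [h1, zero_mul]

/-- the elements of order at most two which are `2^j`-th powers -/
def B6_S {ι : Type} (e : ι → ℕ) (j : ℕ) : Subgroup (∀ i, Multiplicative (ZMod (2 ^ e i))) where
  carrier := {g | g ^ 2 = 1 ∧ ∃ h, g = h ^ 2 ^ j}
  mul_mem' := by
    rintro a b ⟨ha, h, rfl⟩ ⟨hb, h', rfl⟩
    exact ⟨by rw [mul_pow, ha, hb, one_mul], h * h', by rw [mul_pow]⟩
  one_mem' := ⟨one_pow 2, 1, (one_pow _).symm⟩
  inv_mem' := by
    rintro a ⟨ha, h, rfl⟩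
    exact ⟨by rw [inv_pow, ha, inv_one], h⁻¹, by rw [inv_pow]⟩

theorem B6_mem {ι : Type} (e : ι → ℕ) (j : ℕ) (g : ∀ i, Multiplicative (ZMod (2 ^ e i))) :
    g ∈ B6_S e j ↔ g ^ 2 = 1 ∧ ∃ h, g = h ^ 2 ^ j := Iff.rfl

theorem B6_char {ι : Type} (e : ι → ℕ) (j : ℕ) : (B6_S e j).Characteristic := by
  apply char_of_forall
  rintro α g ⟨h1, h, rfl⟩
  refine ⟨?_, α h, ?_⟩
  · rw [← map_pow, h1, map_one]
  · rw [map_pow]

theorem B6_two {ι : Type} (e : ι → ℕ) {g : ∀ i, Multiplicative (ZMod (2 ^ e i))} (h : g ^ 2 = 1)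
    (i : ι) : 2 * Multiplicative.toAdd (g i) = 0 := by
  have h1 := congrFun h i
  rw [Pi.pow_apply, Pi.one_apply] at h1
  have h2 := congrArg Multiplicative.toAdd h1
  rw [toAdd_pow, toAdd_one, nsmul_eq_mul, Nat.cast_ofNat] at h2
  exact h2

theorem B6_pow {ι : Type} (e : ι → ℕ) (h : ∀ i, Multiplicative (ZMod (2 ^ e i))) (j : ℕ)
    (i : ι) : Multiplicative.toAdd ((h ^ 2 ^ j) i) = 2 ^ j * Multiplicative.toAdd (h i) := by
  rw [Pi.pow_apply, toAdd_pow, nsmul_eq_mul]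
  push_cast
  rfl

theorem B6_iff {ι : Type} (e : ι → ℕ) (k : ℕ) (i₀ : ι) (hi₀ : e i₀ = k + 1)
    (huniq : ∀ i, e i = k + 1 → i = i₀) (g : ∀ i, Multiplicative (ZMod (2 ^ e i)))
    (hg : g ∈ B6_S e k) : g ∈ B6_S e (k + 1) ↔ Multiplicative.toAdd (g i₀) = 0 := by
  obtain ⟨h2, h, hh⟩ := hg
  constructor
  · rintro ⟨_, h', hh'⟩
    rw [hh', B6_pow]
    exact B6_zero _ _ hi₀.le _
  · intro h0
    have hex : ∀ i, ∃ y : ZMod (2 ^ e i), Multiplicative.toAdd (g i) = 2 ^ (k + 1) * y := by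
      intro i
      rcases lt_trichotomy (e i) (k + 1) with hlt | heq | hgt
      · refine ⟨0, ?_⟩
        rw [hh, B6_pow, mul_zero]
        exact B6_zero _ _ (by omega) _
      · have hi := huniq i heq
        subst hi
        exact ⟨0, by rw [h0, mul_zero]⟩
      · obtain ⟨m, hm⟩ : ∃ m, e i = m + 1 := ⟨e i - 1, by omega⟩
        obtain ⟨c, hc⟩ := B6_half m (e i) hm _ (B6_two e h2 i)
        obtain ⟨l, hl⟩ : ∃ l, m = (k + 1) + l := ⟨m - (k + 1), by omega⟩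
        refine ⟨2 ^ l * c, ?_⟩
        rw [hc, hl, pow_add]
        ring
    choose y hy using hex
    refine ⟨h2, fun i => Multiplicative.ofAdd (y i), ?_⟩
    funext i
    apply Multiplicative.toAdd.injective
    rw [B6_pow]
    exact hy i

/-- If the order `2^k` occurs exactly once among the cyclic factors then (F) fails.

Proof.  In additive notation, `N = {g = 2 ^ (k-1) h : 2 g = 0}` and `K = {g = 2 ^ k h : 2 g = 0}`,
characteristic subgroups of `G = ∏ Z/2^(e i)`.  `g ∈ N` iff `g i = 0` for `e i < k` and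
`g i ∈ {0, 2 ^ (e i - 1)}` for `e i ≥ k`; `g ∈ K` iff moreover `g i = 0` for `e i = k`.  So
`|N : K| = 2 ^ #{i : e i = k} = 2` (`K` is the kernel of the map `N → {0, 2 ^ (k-1)}`, `g ↦ g i₀`,
which is onto, `i₀` the unique index with `e i₀ = k`).  `no_sec2`. -/
theorem not_pf {ι : Type} [Fintype ι] (e : ι → ℕ) (k : ℕ) (hk : 1 ≤ k)
    (h1 : Nat.card {i // e i = k} = 1) : ¬ PF (∀ i, Multiplicative (ZMod (2 ^ e i))) := by
  classical
  intro hF
  obtain ⟨k, rfl⟩ : ∃ k', k = k' + 1 := ⟨k - 1, by omega⟩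
  obtain ⟨hsub, ⟨⟨i₀, hi₀⟩⟩⟩ := Nat.card_eq_one_iff_unique.1 h1
  have huniq : ∀ i, e i = k + 1 → i = i₀ := fun i hi =>
    congrArg Subtype.val (hsub.elim (⟨i, hi⟩ : {i // e i = k + 1}) ⟨i₀, hi₀⟩)
  obtain ⟨α, hα⟩ := hF ⊥
  have : ∀ i, NeZero (2 ^ e i) := fun i => ⟨by positivity⟩
  refine no_sec2 (B6_S e k) (B6_S e (k + 1)) (B6_char e k) (B6_char e (k + 1)) ?_ ?_ α
    (fun g hg => (Subgroup.mem_bot.1 ((hα g).1 hg)))
  · rintro g ⟨h2, h, rfl⟩
    exact ⟨h2, h ^ 2, by rw [← pow_mul, pow_succ, mul_comm]⟩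
  · rw [Subgroup.relIndex_eq_two_iff]
    have hpow : (Pi.mulSingle i₀ (Multiplicative.ofAdd (2 ^ k : ZMod (2 ^ e i₀))) :
        ∀ i, Multiplicative (ZMod (2 ^ e i))) =
        (Pi.mulSingle i₀ (Multiplicative.ofAdd (1 : ZMod (2 ^ e i₀)))) ^ 2 ^ k := by
      rw [← Pi.mulSingle_pow, ← ofAdd_nsmul, nsmul_eq_mul, mul_one]
      push_cast
      rfl
    have hmem : (Pi.mulSingle i₀ (Multiplicative.ofAdd (2 ^ k : ZMod (2 ^ e i₀))) :
        ∀ i, Multiplicative (ZMod (2 ^ e i))) ∈ B6_S e k := by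
      refine ⟨?_, _, hpow⟩
      rw [← Pi.mulSingle_pow, ← ofAdd_nsmul, nsmul_eq_mul]
      have h3 : ((2 : ℕ) : ZMod (2 ^ e i₀)) * 2 ^ k = 0 := by
        rw [← B6_top k (e i₀) hi₀]
        push_cast
        ring
      rw [h3, ofAdd_zero, Pi.mulSingle_one]
    refine ⟨_, hmem, ?_⟩
    intro b hb
    have hbg := (B6_S e k).mul_mem hb hmem
    rw [B6_iff e k i₀ hi₀ huniq _ hbg, B6_iff e k i₀ hi₀ huniq _ hb]
    have h4 : Multiplicative.toAdd ((b * (Pi.mulSingle i₀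
        (Multiplicative.ofAdd (2 ^ k : ZMod (2 ^ e i₀))) : ∀ i, Multiplicative (ZMod (2 ^ e i)))) i₀) =
        Multiplicative.toAdd (b i₀) + 2 ^ k := by
      rw [Pi.mul_apply, Pi.mulSingle_eq_same, toAdd_mul, toAdd_ofAdd]
    rw [h4]
    rcases B6_or k (e i₀) hi₀ _ (B6_two e hb.1 i₀) with h5 | h5
    · right
      rw [h5, zero_add]
      exact ⟨rfl, B6_ne k (e i₀) hi₀⟩
    · left
      rw [h5]
      exact ⟨B6_top k (e i₀) hi₀, B6_ne k (e i₀) hi₀⟩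

end FPX
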