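import Pool.Agent.FPX.Defs

/-! Basic facts: characteristic subgroups, Lang's bijection, counting. -/

namespace FPX

variable {G : Type} [Group G]

theorem char_mem {K : Subgroup G} (hK : K.Characteristic) (α : MulAut G) {g : G} (hg : g ∈ K) :
    α g ∈ K := by
  have h := hK.fixed α.symm
  have : g ∈ K.comap (α.symm : G ≃* G).toMonoidHom ↔ g ∈ K := by rw [h]
  have h2 : α g ∈ K.comap (α.symm : G ≃* G).toMonoidHom := by
    rw [Subgroup.mem_comap]
    change (α : G ≃* G).symm ((α : G ≃* G) g) ∈ K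
    rw [MulEquiv.symm_apply_apply]
    exact hg
  rw [h] at h2
  exact h2

theorem char_mem_iff {K : Subgroup G} (hK : K.Characteristic) (α : MulAut G) {g : G} :
    α g ∈ K ↔ g ∈ K := by
  refine ⟨fun h => ?_, char_mem hK α⟩
  have := char_mem hK α⁻¹ h
  rwa [MulAut.inv_apply_self] at this

theorem char_of_forall {K : Subgroup G} (h : ∀ (α : MulAut G) (g : G), g ∈ K → α g ∈ K) :
    K.Characteristic := by
  rw [Subgroup.characteristic_iff_map_le]
  intro φ
  rw [Subgroup.map_le_iff_le_comap]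
  intro g hg
  exact h φ g hg

theorem exists_res {K : Subgroup G} (hK : K.Characteristic) (α : MulAut G) :
    ∃ β : MulAut K, ∀ k : K, ((β k : K) : G) = α k := by
  refine ⟨{ toFun := fun k => ⟨α k, char_mem hK α k.2⟩
            invFun := fun k => ⟨α⁻¹ k, char_mem hK α⁻¹ k.2⟩
            left_inv := fun k => ?_
            right_inv := fun k => ?_
            map_mul' := fun a b => ?_ }, fun k => rfl⟩
  · apply Subtype.ext
    exact MulAut.inv_apply_self G α k
  · apply Subtype.ext
    exact MulAut.apply_inv_self G α k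
  · apply Subtype.ext
    exact map_mul α (a : G) (b : G)

theorem char_trans {K : Subgroup G} (hK : K.Characteristic) {L : Subgroup K}
    (hL : L.Characteristic) : (L.map K.subtype).Characteristic := by
  apply char_of_forall
  rintro α g ⟨l, hl, rfl⟩
  obtain ⟨β, hβ⟩ := exists_res hK α
  exact ⟨β l, char_mem hL β hl, hβ l⟩

theorem pf_char {K : Subgroup G} (hK : K.Characteristic) (h : PF G) : PF K := by
  intro H
  obtain ⟨α, hα⟩ := h (H.map K.subtype)
  obtain ⟨β, hβ⟩ := exists_res hK α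
  refine ⟨β, fun k => ?_⟩
  rw [← Subtype.coe_inj, hβ, hα]
  constructor
  · rintro ⟨l, hl, h2⟩
    have : l = k := Subtype.ext h2
    rwa [← this]
  · intro hk
    exact ⟨k, hk, rfl⟩

theorem pf_iso {H : Type} [Group H] (e : G ≃* H) (h : PF G) : PF H := by
  intro K
  obtain ⟨α, hα⟩ := h (K.comap e.toMonoidHom)
  refine ⟨(e.symm.trans α).trans e, fun x => ?_⟩
  have h1 := hα (e.symm x)
  rw [Subgroup.mem_comap] at h1
  have h2 : e.toMonoidHom (e.symm x) = x := e.apply_symm_apply x
  rw [h2] at h1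
  rw [← h1]
  change e (α (e.symm x)) = x ↔ _
  constructor
  · intro h3
    have h4 := congrArg e.symm h3
    rwa [e.symm_apply_apply] at h4
  · intro h3
    rw [h3, e.apply_symm_apply]

/-- Lang's bijection. -/
theorem lang [Finite G] (α : MulAut G) (N : Subgroup G) (hN : ∀ n ∈ N, α n ∈ N)
    (hfix : ∀ n ∈ N, α n = n → n = 1) : ∀ m ∈ N, ∃ n ∈ N, n * (α n)⁻¹ = m := by
  have hinj : Function.Injective
      (fun n : N => (⟨n * (α n)⁻¹, N.mul_mem n.2 (N.inv_mem (hN n n.2))⟩ : N)) := by
    intro a b hab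
    have h1 : (a : G) * (α a)⁻¹ = b * (α b)⁻¹ := congrArg Subtype.val hab
    have h2 : α ((b : G)⁻¹ * a) = (b : G)⁻¹ * a := by
      rw [map_mul, map_inv]
      have h3 : (a : G) = b * (α b)⁻¹ * α a := by rw [← h1]; group
      conv_rhs => rw [h3]
      group
    have h4 := hfix _ (N.mul_mem (N.inv_mem b.2) a.2) h2
    apply Subtype.ext
    exact (inv_mul_eq_one.mp h4).symm
  have hsurj := Finite.surjective_of_injective hinj
  intro m hm
  obtain ⟨n, hn⟩ := hsurj ⟨m, hm⟩
  exact ⟨n, n.2, congrArg Subtype.val hn⟩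

theorem lang_inv [Finite G] (α : MulAut G) (N : Subgroup G) (hN : ∀ n ∈ N, α n ∈ N)
    (hfix : ∀ n ∈ N, α n = n → n = 1) : ∀ m ∈ N, ∃ n ∈ N, n⁻¹ * α n = m := by
  intro m hm
  obtain ⟨n, hn, h⟩ := lang α N hN hfix m hm
  refine ⟨n⁻¹, N.inv_mem hn, ?_⟩
  rw [inv_inv, map_inv, h]

/-- If `g⁻¹ α(g)` is in `N` then some element of `g N` is fixed. -/
theorem lang_fix [Finite G] (α : MulAut G) (N : Subgroup G) (hN : ∀ n ∈ N, α n ∈ N)
    (hfix : ∀ n ∈ N, α n = n → n = 1) (g : G) (hg : g⁻¹ * α g ∈ N) :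
    ∃ n ∈ N, α (g * n) = g * n := by
  obtain ⟨n, hn, h⟩ := lang α N hN hfix _ hg
  refine ⟨n, hn, ?_⟩
  rw [map_mul]
  have h1 : α g = g * (n * (α n)⁻¹) := by rw [h]; group
  rw [h1]; group

/-- Counting: if `α` is trivial on the left cosets of `D` then `|G : D| ≤ |C_G(α)|`. -/
theorem count [Finite G] (α : MulAut G) (H D : Subgroup G) (hH : ∀ g, α g = g ↔ g ∈ H)
    (hD : ∀ g, g⁻¹ * α g ∈ D) : D.index ≤ Nat.card H := by
  classical
  -- the map g ↦ g⁻¹ α(g) has fibres the cosets H g
  have hinj : Function.Injective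
      (fun q : Quotient (QuotientGroup.rightRel H) =>
        (⟨(Quotient.out q)⁻¹ * α (Quotient.out q), hD _⟩ : D)) := by
    intro a b hab
    have h1 : (Quotient.out a)⁻¹ * α (Quotient.out a) = (Quotient.out b)⁻¹ * α (Quotient.out b) :=
      congrArg Subtype.val hab
    have h2 : Quotient.out b * (Quotient.out a)⁻¹ ∈ H := by
      rw [← hH, map_mul, map_inv]
      have h3 : α (Quotient.out b) = Quotient.out b * ((Quotient.out a)⁻¹ * α (Quotient.out a)) := by
        rw [h1]; group
      rw [h3]; group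
    rw [← Quotient.out_eq a, ← Quotient.out_eq b]
    apply Quotient.sound
    rw [← Quotient.eq_iff_equiv, Quotient.eq, QuotientGroup.rightRel_apply]
    exact h2
  have h1 := Nat.card_le_card_of_injective _ hinj
  have h2 : Nat.card (Quotient (QuotientGroup.rightRel H)) = H.index := by
    rw [Subgroup.index]
    exact Nat.card_congr (QuotientGroup.quotientRightRelEquivQuotientLeftRel H)
  rw [h2] at h1
  have h3 := H.card_mul_index
  have h4 := D.card_mul_index
  have h5 : Nat.card D * D.index ≤ Nat.card D * Nat.card H := by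
    rw [h4, ← h3]
    calc Nat.card H * H.index ≤ Nat.card H * Nat.card D := Nat.mul_le_mul_left _ h1
      _ = _ := Nat.mul_comm _ _
  exact Nat.le_of_mul_le_mul_left h5 Nat.card_pos

end FPX
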