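import Mathlib

/-!
Finite groups in which every subgroup is the fixed point subgroup of an automorphism
(property (F)).  Definitions used by all files of the project.
Left conjugation is used everywhere: `MulAut.conj x w = x * w * x⁻¹`.
-/

namespace FPX

/-- Property (F): every subgroup is the group of fixed points of an automorphism. -/
def PF (G : Type) [Group G] : Prop :=
  ∀ H : Subgroup G, ∃ α : MulAut G, ∀ g : G, α g = g ↔ g ∈ H

/-- `G` is not a direct product of two nontrivial subgroups of coprime orders. -/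
def Indec (G : Type) [Group G] : Prop :=
  ∀ A B : Subgroup G, A.Normal → B.Normal → A ⊔ B = ⊤ →
    (Nat.card A).Coprime (Nat.card B) → A = ⊥ ∨ B = ⊥

/-- `P` is a normal Sylow `p`-subgroup of `G` (possibly trivial). -/
structure NSyl {G : Type} [Group G] (p : ℕ) (P : Subgroup G) : Prop where
  prime : p.Prime
  normal : P.Normal
  pgroup : IsPGroup p P
  index : ¬ p ∣ P.index

/-- The centraliser of a subgroup. -/
abbrev cen {G : Type} [Group G] (W : Subgroup G) : Subgroup G :=
  Subgroup.centralizer (W : Set G)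

/-- Section model: `N` and `K` are subgroups of `G` (in applications characteristic, `K ≤ N`),
and `N/K` is identified with the `F_p`-vector space `T` by `π` (only its values on `N` matter);
`σ` is the action of the automorphisms of `G`. -/
structure SMod {G : Type} [Group G] (p : ℕ) (N K : Subgroup G) (T : Type) [AddCommGroup T]
    [Module (ZMod p) T] (π : G → T) (σ : MulAut G →* (T ≃ₗ[ZMod p] T)) : Prop where
  surj : ∀ t : T, ∃ n ∈ N, π n = t
  mul : ∀ a ∈ N, ∀ b ∈ N, π (a * b) = π a + π b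
  ker : ∀ a ∈ N, (π a = 0 ↔ a ∈ K)
  act : ∀ α : MulAut G, ∀ a ∈ N, π (α a) = σ α (π a)

/-- Model of an elementary abelian characteristic subgroup `W` of `G`: it is the image of the
`F_p`-vector space `V` under `f`; `ρ` is the action of the automorphisms of `G`. -/
structure Mod {G : Type} [Group G] (p : ℕ) (W : Subgroup G) (V : Type) [AddCommGroup V]
    [Module (ZMod p) V] (f : V → G) (ρ : MulAut G →* (V ≃ₗ[ZMod p] V)) : Prop where
  inj : Function.Injective f
  mem : ∀ g : G, g ∈ W ↔ ∃ v, f v = g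
  add : ∀ u v : V, f (u + v) = f u * f v
  act : ∀ (α : MulAut G) (v : V), α (f v) = f (ρ α v)

/-- The linear situation of Proposition LA: `Γ` is a `p'`-subgroup of `GL(V)` normalised by `A`,
every subspace is the fixed space of an element of `A`, and `a0` in `A` has no nonzero fixed vector
and commutes with no nontrivial element of `Γ`. -/
structure LAH (p : ℕ) (V : Type) [AddCommGroup V] [Module (ZMod p) V]
    (A Γ : Subgroup (V ≃ₗ[ZMod p] V)) (a0 : V ≃ₗ[ZMod p] V) : Prop where
  sub : Γ ≤ A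
  norm : ∀ a ∈ A, ∀ g ∈ Γ, a * g * a⁻¹ ∈ Γ
  cop : (Nat.card Γ).Coprime p
  hU : ∀ U : Submodule (ZMod p) V, ∃ a ∈ A, ∀ v, a v = v ↔ v ∈ U
  a0A : a0 ∈ A
  a0V : ∀ v, a0 v = v → v = 0
  a0Γ : ∀ g ∈ Γ, a0 * g = g * a0 → g = 1

/-- The situation reached after Proposition LA and (1.4): `P` normal Sylow `p`-subgroup,
`W` the group of central elements of `P` of order `1` or `p`, `|W| = p^2`, `p ≥ 5`, the centraliser
`cen W` has index the odd prime `r`, `x` has order `r` and is not in `cen W`. -/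
structure Sit {G : Type} [Group G] (p r : ℕ) (P W : Subgroup G) (x : G) : Prop where
  syl : NSyl p P
  p5 : 5 ≤ p
  rprime : r.Prime
  r2 : r ≠ 2
  rp : r ≠ p
  Pchar : P.Characteristic
  Wchar : W.Characteristic
  Wmem : ∀ a : G, a ∈ W ↔ a ∈ P ∧ a ∈ cen P ∧ a ^ p = 1
  Wcard : Nat.card W = p ^ 2
  Dcen : ∀ g : G, g ∈ cen W ↔ ∃ a ∈ P, ∃ c ∈ cen P, g = a * c
  Didx : (cen W).index = r
  xord : orderOf x = r
  xnot : x ∉ cen W
  xfix : ∀ w ∈ W, x * w = w * x → w = 1
  tau : ∃ τ : ℕ, ∀ w ∈ W, (x * w * x⁻¹) * (x⁻¹ * w * x) = w ^ τ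
  sgn : ∀ α : MulAut G, x⁻¹ * α x ∈ cen W ∨ x * α x ∈ cen W

/-- The plane `V` with the linear automorphism `X` of odd prime order `r ≠ p`, without nonzero
fixed vectors and such that `X + X⁻¹` is a scalar. -/
structure Plane (p r : ℕ) (V : Type) [AddCommGroup V] [Module (ZMod p) V]
    (X : V ≃ₗ[ZMod p] V) : Prop where
  p5 : 5 ≤ p
  rprime : r.Prime
  r2 : r ≠ 2
  rp : r ≠ p
  fr : Module.finrank (ZMod p) V = 2
  Xr : X ^ r = 1
  Xfix : ∀ v, X v = v → v = 0
  Xtau : ∃ τ : ZMod p, ∀ v, X v + X⁻¹ v = τ • v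

/-- `w` does not span an `X`-invariant line. -/
def NI {p : ℕ} {V : Type} [AddCommGroup V] [Module (ZMod p) V] (X : V ≃ₗ[ZMod p] V) (w : V) :
    Prop := ∀ c : ZMod p, X w ≠ c • w

/-- `Sit` together with the linear model `V` of `W`; `X` is the action of `x`. -/
structure Ctx {G : Type} [Group G] (p r : ℕ) (P W : Subgroup G) (x : G) (V : Type)
    [AddCommGroup V] [Module (ZMod p) V] (f : V → G) (ρ : MulAut G →* (V ≃ₗ[ZMod p] V))
    (X : V ≃ₗ[ZMod p] V) : Prop where
  sit : Sit p r P W x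
  mod : Mod p W V f ρ
  pl : Plane p r V X
  hX : X = ρ (MulAut.conj x)
  pos : ∀ α : MulAut G, x⁻¹ * α x ∈ cen W ↔ ρ α * X = X * ρ α
  neg : ∀ α : MulAut G, x * α x ∈ cen W ↔ ρ α * X = X⁻¹ * ρ α

end FPX
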