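import Pool.Agent.FPX.Basic

/-! Further definitions (sections 1 to 4). -/

namespace FPX

/-- The subgroup of the elements of order `1` or `p` of the centre of `P`. -/
def Om {G : Type} [Group G] (p : ℕ) (P : Subgroup G) : Subgroup G where
  carrier := {a | a ∈ P ∧ a ∈ cen P ∧ a ^ p = 1}
  mul_mem' := by
    rintro a b ⟨ha, ha', ha2⟩ ⟨hb, hb', hb2⟩
    refine ⟨P.mul_mem ha hb, (cen P).mul_mem ha' hb', ?_⟩
    have hc : Commute a b := by
      have := Subgroup.mem_centralizer_iff.mp hb' a ha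
      exact this
    rw [hc.mul_pow, ha2, hb2, one_mul]
  one_mem' := ⟨P.one_mem, (cen P).one_mem, one_pow p⟩
  inv_mem' := by
    rintro a ⟨ha, ha', ha2⟩
    exact ⟨P.inv_mem ha, (cen P).inv_mem ha', by rw [inv_pow, ha2, inv_one]⟩

theorem mem_Om {G : Type} [Group G] {p : ℕ} {P : Subgroup G} {a : G} :
    a ∈ Om p P ↔ a ∈ P ∧ a ∈ cen P ∧ a ^ p = 1 := Iff.rfl

/-- The conclusions of Proposition LA for the action `ρ` of `Aut(G)` on `V`. -/
structure LAout {G : Type} [Group G] (p : ℕ) (V : Type) [AddCommGroup V] [Module (ZMod p) V]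
    (ρ : MulAut G →* (V ≃ₗ[ZMod p] V)) : Prop where
  p5 : 5 ≤ p
  fr : Module.finrank (ZMod p) V = 2
  tau : ∀ g : G, ∃ τ : ZMod p, ∀ v, ρ (MulAut.conj g) v + (ρ (MulAut.conj g))⁻¹ v = τ • v
  fix : ∀ g : G, ρ (MulAut.conj g) ≠ 1 → ∀ v, ρ (MulAut.conj g) v = v → v = 0
  odd : ∀ g : G, ρ (MulAut.conj g) ^ 2 = 1 → ρ (MulAut.conj g) = 1
  sgn : ∀ α : MulAut G, (∀ g : G, ρ α * ρ (MulAut.conj g) = ρ (MulAut.conj g) * ρ α) ∨
    (∀ g : G, ρ α * ρ (MulAut.conj g) = (ρ (MulAut.conj g))⁻¹ * ρ α)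

/-- `Z/W` is the centre of `P/W` and `Z` is characteristic in `G`. -/
structure IsZ2 {G : Type} [Group G] (P W Z : Subgroup G) : Prop where
  mem : ∀ y : G, y ∈ Z ↔ y ∈ P ∧ ∀ g ∈ P, y * g * y⁻¹ * g⁻¹ ∈ W
  char : Z.Characteristic

/-- The situation of step (C): `Z/W` is modelled by `T`, `x` acts trivially on it, `Z` is elementary
abelian, and `vv g : T → V` is the commutator map with `g ∈ P`. -/
structure TCtx {G : Type} [Group G] (p r : ℕ) (P W : Subgroup G) (x : G) (V : Type)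
    [AddCommGroup V] [Module (ZMod p) V] (f : V → G) (ρ : MulAut G →* (V ≃ₗ[ZMod p] V))
    (X : V ≃ₗ[ZMod p] V) (Z : Subgroup G) (T : Type) [AddCommGroup T] [Module (ZMod p) T]
    (π : G → T) (σ : MulAut G →* (T ≃ₗ[ZMod p] T)) (vv : G → (T →ₗ[ZMod p] V)) : Prop where
  ctx : Ctx p r P W x V f ρ X
  cent : ∀ a ∈ P, a ∈ cen P → a ∈ W
  z2 : IsZ2 P W Z
  exp : ∀ y ∈ Z, y ^ p = 1
  xtriv : ∀ y ∈ Z, y⁻¹ * (x * y * x⁻¹) ∈ W
  comm : ∀ y ∈ Z, ∀ z ∈ Z, y * z = z * y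
  smod : SMod p Z W T π σ
  vv_spec : ∀ g ∈ P, ∀ q ∈ Z, q * g * q⁻¹ * g⁻¹ = f (vv g (π q))
  vv_add : ∀ g ∈ P, ∀ g' ∈ P, vv (g * g') = vv g + vv g'
  vv_act : ∀ α : MulAut G, ∀ g ∈ P, ∀ t, ρ α (vv g t) = vv (α g) (σ α t)

/-- Groups of type (ii): the normal Sylow `p`-subgroup is `W` of order `p^2`, the centraliser of `W`
has index the odd prime `r`, and `G/W` is an `r`-group. -/
structure Typ {G : Type} [Group G] (p r : ℕ) (W : Subgroup G) (x : G) : Prop where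
  sit : Sit p r W W x
  rgp : ∃ k : ℕ, W.index = r ^ k

/-- `G` has a nontrivial normal Sylow subgroup. -/
def EE (G : Type) [Group G] : Prop := ∃ (q : ℕ) (Q : Subgroup G), NSyl q Q ∧ Q ≠ ⊥

/-- If `G` is indecomposable then it is a `q`-group or of type (ii). -/
def II (G : Type) [Group G] : Prop :=
  Indec G → (∃ q : ℕ, q.Prime ∧ IsPGroup q G) ∨
    ∃ (p r : ℕ) (W : Subgroup G) (x : G), Typ p r W x

/-- Internal form of a block of type (ii): `G = (W : ⟨t⟩) × A`. -/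
structure Blk {G : Type} [Group G] (p r : ℕ) (W A : Subgroup G) (t : G) : Prop where
  pprime : p.Prime
  p5 : 5 ≤ p
  rprime : r.Prime
  r2 : r ≠ 2
  rp : r ≠ p
  Wn : W.Normal
  Wcomm : ∀ a ∈ W, ∀ b ∈ W, a * b = b * a
  Wexp : ∀ a ∈ W, a ^ p = 1
  Wcard : Nat.card W = p ^ 2
  tord : orderOf t = r
  tfix : ∀ w ∈ W, t * w = w * t → w = 1
  tau : ∃ τ : ℕ, ∀ w ∈ W, (t * w * t⁻¹) * (t⁻¹ * w * t) = w ^ τ
  ns : ∃ w ∈ W, ∀ i : ℕ, t * w * t⁻¹ ≠ w ^ i
  Acomm : ∀ a ∈ A, ∀ b ∈ A, a * b = b * a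
  AW : ∀ a ∈ A, ∀ w ∈ W, a * w = w * a
  At : ∀ a ∈ A, a * t = t * a
  Apg : IsPGroup r A
  top : ∀ g : G, ∃ w ∈ W, ∃ i : ℕ, ∃ a ∈ A, g = w * t ^ i * a
  inf : ∀ w ∈ W, ∀ i : ℕ, ∀ a ∈ A, w * t ^ i * a = 1 → w = 1 ∧ t ^ i = 1 ∧ a = 1

/-- Multiplication of a column vector by a matrix in `SL(2,p)`, multiplicative notation. -/
def slMul (p : ℕ) (M : Matrix.SpecialLinearGroup (Fin 2) (ZMod p))
    (v : Multiplicative (Fin 2 → ZMod p)) : Multiplicative (Fin 2 → ZMod p) :=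
  Multiplicative.ofAdd ((M : Matrix (Fin 2) (Fin 2) (ZMod p)).mulVec (Multiplicative.toAdd v))

theorem slMul_mul (p : ℕ) (M N : Matrix.SpecialLinearGroup (Fin 2) (ZMod p))
    (v : Multiplicative (Fin 2 → ZMod p)) : slMul p (M * N) v = slMul p M (slMul p N v) := by
  unfold slMul
  rw [toAdd_ofAdd, Matrix.mulVec_mulVec, Matrix.SpecialLinearGroup.coe_mul]

theorem slMul_one (p : ℕ) (v : Multiplicative (Fin 2 → ZMod p)) : slMul p 1 v = v := by
  unfold slMul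
  rw [Matrix.SpecialLinearGroup.coe_one, Matrix.one_mulVec, ofAdd_toAdd]

/-- The action of `SL(2,p)` on `F_p^2` (written multiplicatively). -/
def slAct (p : ℕ) :
    Matrix.SpecialLinearGroup (Fin 2) (ZMod p) →* MulAut (Multiplicative (Fin 2 → ZMod p)) where
  toFun M :=
    { toFun := slMul p M
      invFun := slMul p M⁻¹
      left_inv := fun v => by rw [← slMul_mul, inv_mul_cancel, slMul_one]
      right_inv := fun v => by rw [← slMul_mul, mul_inv_cancel, slMul_one]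
      map_mul' := fun u v => by
        unfold slMul
        rw [toAdd_mul, Matrix.mulVec_add, ofAdd_add] }
  map_one' := by
    ext1 v
    exact slMul_one p v
  map_mul' M N := by
    ext1 v
    exact slMul_mul p M N v

theorem slAct_apply (p : ℕ) (M : Matrix.SpecialLinearGroup (Fin 2) (ZMod p))
    (v : Multiplicative (Fin 2 → ZMod p)) :
    slAct p M v = Multiplicative.ofAdd
      ((M : Matrix (Fin 2) (Fin 2) (ZMod p)).mulVec (Multiplicative.toAdd v)) := rfl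

/-- The group `F_p^2 : ⟨M⟩` for `M` in `SL(2,p)`. -/
abbrev AffSL (p : ℕ) (M : Matrix.SpecialLinearGroup (Fin 2) (ZMod p)) : Type :=
  Multiplicative (Fin 2 → ZMod p)
    ⋊[(slAct p).comp (Subgroup.zpowers M).subtype] (Subgroup.zpowers M)

/-- The indecomposable pieces: `q`-groups with (F), and `(F_p^2 : ⟨M⟩) × A`. -/
def Block (B : Type) [Group B] : Prop :=
  (∃ q : ℕ, q.Prime ∧ IsPGroup q B ∧ PF B) ∨
  ∃ (p r : ℕ) (M : Matrix.SpecialLinearGroup (Fin 2) (ZMod p)) (A : Type) (_ : CommGroup A),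
    p.Prime ∧ 5 ≤ p ∧ r.Prime ∧ r ≠ 2 ∧ r ≠ p ∧ orderOf M = r ∧ Finite A ∧ IsPGroup r A ∧
      Nonempty (B ≃* AffSL p M × A)

end FPX
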