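import Pool.Agent.FPX.Defs2

/-! Definitions for the converse, the abelian groups and the final theorems. -/

namespace FPX

/-- Setting of the converse: `V` is a plane with `X` (not a scalar), `C` a cyclic group of order `r`
generated by `c₀`, acting on `V` by `χ` with `c₀` acting as `X`, `A` a finite commutative
`r`-group.  The group under study is `Multiplicative V ⋊[χ.comp (MonoidHom.fst C A)] (C × A)`. -/
structure RSet (p r : ℕ) (V : Type) [AddCommGroup V] [Module (ZMod p) V] (X : V ≃ₗ[ZMod p] V)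
    (C A : Type) [CommGroup C] [CommGroup A] (c₀ : C) (χ : C →* MulAut (Multiplicative V)) :
    Prop where
  pl : Plane p r V X
  ns : ¬ ∃ c : ZMod p, ∀ v, X v = c • v
  gen : ∀ c : C, ∃ i : ℕ, c = c₀ ^ i
  ord : orderOf c₀ = r
  act : ∀ v : V, χ c₀ (Multiplicative.ofAdd v) = Multiplicative.ofAdd (X v)
  Apg : IsPGroup r A
  Afin : Finite A

/-- The group `V : (C × A)`. -/
abbrev SD {V C A : Type} [AddCommGroup V] [CommGroup C] [CommGroup A]
    (χ : C →* MulAut (Multiplicative V)) : Type :=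
  Multiplicative V ⋊[χ.comp (MonoidHom.fst C A)] (C × A)

/-- `G` is a direct product of blocks of pairwise coprime orders. -/
def Dec (G : Type) [Group G] : Prop :=
  ∃ (ι : Type) (_ : Finite ι) (B : ι → Type) (_ : ∀ i, Group (B i)),
    (∀ i, Block (B i)) ∧
    (Pairwise fun i j => (Nat.card (B i)).Coprime (Nat.card (B j))) ∧
    Nonempty (G ≃* ∀ i, B i)

/-- Blocks with abelian Sylow subgroups: abelian `q`-groups for odd `q`; direct products of cyclic
2-groups in which no order occurs exactly once; and `(F_p^2 : ⟨M⟩) × A`. -/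
def BlockAb (B : Type) [Group B] : Prop :=
  ((∀ a b : B, a * b = b * a) ∧ ∃ q : ℕ, q.Prime ∧ q ≠ 2 ∧ IsPGroup q B) ∨
  (∃ (ι : Type) (_ : Fintype ι) (e : ι → ℕ), (∀ i, 1 ≤ e i) ∧
    (∀ k, Nat.card {i // e i = k} ≠ 1) ∧
    Nonempty (B ≃* ∀ i, Multiplicative (ZMod (2 ^ e i)))) ∨
  ∃ (p r : ℕ) (M : Matrix.SpecialLinearGroup (Fin 2) (ZMod p)) (A : Type) (_ : CommGroup A),
    p.Prime ∧ 5 ≤ p ∧ r.Prime ∧ r ≠ 2 ∧ r ≠ p ∧ orderOf M = r ∧ Finite A ∧ IsPGroup r A ∧
      Nonempty (B ≃* AffSL p M × A)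

/-- `G` is a direct product of blocks with abelian Sylow subgroups, of pairwise coprime orders. -/
def DecAb (G : Type) [Group G] : Prop :=
  ∃ (ι : Type) (_ : Finite ι) (B : ι → Type) (_ : ∀ i, Group (B i)),
    (∀ i, BlockAb (B i)) ∧
    (Pairwise fun i j => (Nat.card (B i)).Coprime (Nat.card (B j))) ∧
    Nonempty (G ≃* ∀ i, B i)

end FPX
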