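import Pool.Agent.FPX.Defs3

/-! `p`-groups with derived subgroup of order `p`. -/

namespace FPX

/-- The condition of the classification: `p` is odd, every element of `P` is the product of an
element of order dividing `p` and a central element, and, `p^(e+1)` being a multiple of the exponent
of the centre, every element of the derived subgroup is the `p^e`-th power of a central element. -/
def Cond (p : ℕ) (P : Type) [Group P] : Prop :=
  p ≠ 2 ∧ (∀ g : P, ∃ h : P, h ^ p = 1 ∧ ∃ ζ ∈ Subgroup.center P, g = h * ζ) ∧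
  ∃ e : ℕ, (∀ ζ ∈ Subgroup.center P, ζ ^ p ^ (e + 1) = 1) ∧
    ∀ c ∈ commutator P, ∃ ζ ∈ Subgroup.center P, ζ ^ p ^ e = c

/-- Commutators in a group `P` whose derived subgroup is generated by the central element `z` of
prime order `p`: `[x, y] = x y x⁻¹ y⁻¹ = z ^ κ x y`. -/
structure Com {P : Type} [Group P] (p : ℕ) (z : P) (κ : P → P → ZMod p) : Prop where
  zc : z ∈ Subgroup.center P
  zp : orderOf z = p
  zD : ∀ g : P, g ∈ commutator P ↔ ∃ i : ℕ, g = z ^ i
  com : ∀ x y : P, x * y * x⁻¹ * y⁻¹ = z ^ (κ x y).val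
  mul_left : ∀ x x' y : P, κ (x * x') y = κ x y + κ x' y
  mul_right : ∀ x y y' : P, κ x (y * y') = κ x y + κ x y'
  symm : ∀ x y : P, κ y x = - κ x y
  eq_zero : ∀ x y : P, κ x y = 0 ↔ x * y = y * x

/-- Linear section: `V` is a symplectic space over `F_p`, and `σ : V → P` satisfies
`σ u σ v = σ (u + v) z^(ω(u,v)/2)`; every element of `P` is `σ u * ζ` with `ζ` central. -/
structure Hei {P : Type} [Group P] (p : ℕ) (z : P) (V : Type) [AddCommGroup V]
    [Module (ZMod p) V] (ω : V →ₗ[ZMod p] V →ₗ[ZMod p] ZMod p) (σ : V → P) : Prop where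
  zc : z ∈ Subgroup.center P
  zp : orderOf z = p
  mul : ∀ u v : V, σ u * σ v = σ (u + v) * z ^ ((2 : ZMod p)⁻¹ * ω u v).val
  rep : ∀ g : P, ∃ u : V, ∃ ζ ∈ Subgroup.center P, g = σ u * ζ
  inj : ∀ u : V, σ u ∈ Subgroup.center P → u = 0
  alt : ∀ u : V, ω u u = 0
  nondeg : ∀ u : V, (∀ v, ω u v = 0) → u = 0

/-- Blocks with Sylow subgroups with derived subgroup of order at most `q`. -/
def BlockD (B : Type) [Group B] : Prop :=
  BlockAb B ∨ ∃ q : ℕ, q.Prime ∧ IsPGroup q B ∧ Nat.card (commutator B) = q ∧ Cond q B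

/-- `G` is a direct product of blocks `BlockD` of pairwise coprime orders. -/
def DecD (G : Type) [Group G] : Prop :=
  ∃ (ι : Type) (_ : Finite ι) (B : ι → Type) (_ : ∀ i, Group (B i)),
    (∀ i, BlockD (B i)) ∧
    (Pairwise fun i j => (Nat.card (B i)).Coprime (Nat.card (B j))) ∧
    Nonempty (G ≃* ∀ i, B i)

end FPX
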