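import Pool.Agent.FPX.Defs2

namespace FPX

variable {G : Type} [Group G] [Finite G] {p r : ℕ} {P W : Subgroup G} {x : G}

/-- `cen W` is normal. -/
theorem Sit.cen_normal (h : Sit p r P W x) : (cen W).Normal := by
  have h1 : W.Normal := by
    have := h.Wchar
    infer_instance
  infer_instance

/-- `G/cen W` has order `r`: `g ^ r ∈ cen W`, and `g` is a power of `x` modulo `cen W`. -/
theorem Sit.pow_mem (h : Sit p r P W x) (g : G) : g ^ r ∈ cen W := by
  have h1 := h.cen_normal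
  have h2 := (cen W).pow_index_mem g
  rwa [h.Didx] at h2

theorem Sit.exists_pow (h : Sit p r P W x) (g : G) : ∃ i : ℕ, ∃ d ∈ cen W, g = x ^ i * d := by
  have h1 := h.cen_normal
  have h2 : Fact r.Prime := ⟨h.rprime⟩
  have hcard : Nat.card (G ⧸ cen W) = r := h.Didx
  have hx : (x : G ⧸ cen W) ≠ 1 := by
    rw [Ne, QuotientGroup.eq_one_iff]
    exact h.xnot
  obtain ⟨i, hi⟩ := mem_powers_of_prime_card (p := r) hcard (g := (x : G ⧸ cen W))
    (g' := (g : G ⧸ cen W)) hx
  refine ⟨i, (x ^ i)⁻¹ * g, ?_, by group⟩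
  rw [← QuotientGroup.eq, QuotientGroup.mk_pow]
  exact hi

/-- `r` is odd. -/
theorem Sit.sq (h : Sit p r P W x) {g : G} (hg : g * g ∈ cen W) : g ∈ cen W := by
  by_contra hcon
  have h1 := h.cen_normal
  have h2 : Fact r.Prime := ⟨h.rprime⟩
  have hne : (g : G ⧸ cen W) ≠ 1 := by
    rw [Ne, QuotientGroup.eq_one_iff]
    exact hcon
  have hr : (g : G ⧸ cen W) ^ r = 1 := by
    rw [← QuotientGroup.mk_pow, QuotientGroup.eq_one_iff]
    exact h.pow_mem g
  have h3 := orderOf_eq_prime hr hne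
  have h4 : (g : G ⧸ cen W) ^ 2 = 1 := by
    rw [pow_two, ← QuotientGroup.mk_mul, QuotientGroup.eq_one_iff]
    exact hg
  have h5 := orderOf_dvd_of_pow_eq_one h4
  rw [h3] at h5
  exact h.r2 ((Nat.prime_dvd_prime_iff_eq h.rprime Nat.prime_two).1 h5)

/-- If `g ∉ cen W` and `g ^ k ∈ cen W` then `r ∣ k`. -/
theorem Sit.dvd (h : Sit p r P W x) {g : G} (hg : g ∉ cen W) {k : ℕ} (hk : g ^ k ∈ cen W) :
    r ∣ k := by
  have h1 := h.cen_normal
  have h2 : Fact r.Prime := ⟨h.rprime⟩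
  have hne : (g : G ⧸ cen W) ≠ 1 := by
    rw [Ne, QuotientGroup.eq_one_iff]
    exact hg
  have hr : (g : G ⧸ cen W) ^ r = 1 := by
    rw [← QuotientGroup.mk_pow, QuotientGroup.eq_one_iff]
    exact h.pow_mem g
  have h3 := orderOf_eq_prime hr hne
  have h4 : (g : G ⧸ cen W) ^ k = 1 := by
    rw [← QuotientGroup.mk_pow, QuotientGroup.eq_one_iff]
    exact hk
  have h5 := orderOf_dvd_of_pow_eq_one h4
  rwa [h3] at h5

/-- An automorphism acts on the cyclic group `G/cen W` trivially or by inversion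
(`sgn` for the generator `x`). -/
theorem Sit.sgn_all (h : Sit p r P W x) (α : MulAut G) :
    (∀ g : G, g⁻¹ * α g ∈ cen W) ∨ (∀ g : G, g * α g ∈ cen W) := by
  have h1 := h.cen_normal
  have hα : ∀ d ∈ cen W, α d ∈ cen W := by
    intro d hd
    rw [Subgroup.mem_centralizer_iff]
    intro w hw
    have hw' : α⁻¹ w ∈ W := char_mem h.Wchar α⁻¹ hw
    have h2 : α⁻¹ w * d = d * α⁻¹ w := Subgroup.mem_centralizer_iff.1 hd _ hw'
    have h3 := congrArg α h2
    rw [map_mul, map_mul, MulAut.apply_inv_self] at h3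
    exact h3
  have hq : ∀ d ∈ cen W, ((α d : G) : G ⧸ cen W) = 1 := fun d hd =>
    (QuotientGroup.eq_one_iff _).2 (hα d hd)
  have hq' : ∀ d ∈ cen W, (d : G ⧸ cen W) = 1 := fun d hd =>
    (QuotientGroup.eq_one_iff _).2 hd
  rcases h.sgn α with h2 | h2
  · left
    have h3 : ((α x : G) : G ⧸ cen W) = x := by
      have h4 := (QuotientGroup.eq_one_iff _).2 h2
      rw [QuotientGroup.mk_mul, QuotientGroup.mk_inv, inv_mul_eq_one] at h4
      exact h4.symm
    intro g
    obtain ⟨i, d, hd, rfl⟩ := h.exists_pow g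
    rw [← QuotientGroup.eq_one_iff, map_mul, map_pow, QuotientGroup.mk_mul, QuotientGroup.mk_inv,
      QuotientGroup.mk_mul, QuotientGroup.mk_mul, QuotientGroup.mk_pow, QuotientGroup.mk_pow,
      hq d hd, hq' d hd, h3, mul_one, inv_mul_cancel]
  · right
    have h3 : ((α x : G) : G ⧸ cen W) = (x : G ⧸ cen W)⁻¹ := by
      have h4 := (QuotientGroup.eq_one_iff _).2 h2
      rw [QuotientGroup.mk_mul] at h4
      exact eq_inv_of_mul_eq_one_right h4
    intro g
    obtain ⟨i, d, hd, rfl⟩ := h.exists_pow g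
    rw [← QuotientGroup.eq_one_iff, map_mul, map_pow, QuotientGroup.mk_mul,
      QuotientGroup.mk_mul, QuotientGroup.mk_mul, QuotientGroup.mk_pow, QuotientGroup.mk_pow,
      hq d hd, hq' d hd, h3, mul_one, mul_one, inv_pow, mul_inv_cancel]

/-- An automorphism which is the identity on `W` acts trivially on `G/cen W`: for `w ∈ W`,
`g w g⁻¹ ∈ W` is fixed, so `α(g) w α(g)⁻¹ = g w g⁻¹`. -/
theorem fixed_cen {G : Type} [Group G] {W : Subgroup G} (hW : W.Normal) (α : MulAut G)
    (hα : ∀ w ∈ W, α w = w) (g : G) : g⁻¹ * α g ∈ cen W := by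
  rw [Subgroup.mem_centralizer_iff]
  intro w hw
  have hw' : w ∈ W := hw
  have h1 := hα _ (hW.conj_mem w hw' g)
  rw [map_mul, map_mul, hα w hw', map_inv] at h1
  have h2 : α g * w = g * w * g⁻¹ * α g := by
    rw [← h1]
    group
  have h3 : g⁻¹ * α g * w = g⁻¹ * (α g * w) := by group
  rw [h3, h2]
  group

end FPX
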