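import Pool.Agent.FPX.A5

namespace FPX

theorem E1_mem {G : Type} [Group G] [Finite G] (N : Subgroup G) (hN : N.Normal)
    (hcop : (Nat.card N).Coprime N.index) {g : G} (hg : g ^ Nat.card N = 1) : g ∈ N := by
  rw [← QuotientGroup.eq_one_iff, ← orderOf_eq_one_iff]
  have h1 : orderOf (g : G ⧸ N) ∣ Nat.card N := by
    apply orderOf_dvd_of_pow_eq_one
    rw [← QuotientGroup.mk_pow, hg, QuotientGroup.mk_one]
  have h2 : orderOf (g : G ⧸ N) ∣ N.index := orderOf_dvd_natCard _
  have h3 := Nat.dvd_gcd h1 h2
  rw [hcop.gcd_eq_one] at h3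
  exact Nat.dvd_one.1 h3

/-- A normal Hall subgroup is characteristic (`{g : g ^ |N| = 1}`). -/
theorem hall_char {G : Type} [Group G] [Finite G] (N : Subgroup G) (hN : N.Normal)
    (hcop : (Nat.card N).Coprime N.index) : N.Characteristic := by
  apply char_of_forall
  intro α g hg
  apply E1_mem N hN hcop
  rw [← map_pow]
  have h1 : g ^ Nat.card N = 1 := by
    have h2 : (⟨g, hg⟩ : N) ^ Nat.card N = 1 := pow_card_eq_one'
    exact congrArg Subtype.val h2
  rw [h1, map_one]

/-- Facts on a direct decomposition into factors of coprime orders. -/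
theorem factor_facts {G : Type} [Group G] [Finite G] {A B : Subgroup G} (hA : A.Normal)
    (hB : B.Normal) (hAB : A ⊔ B = ⊤) (hcop : (Nat.card A).Coprime (Nat.card B)) :
    A ⊓ B = ⊥ ∧ A.index = Nat.card B ∧ B.index = Nat.card A ∧ A.Characteristic ∧
      B.Characteristic ∧ ∀ a ∈ A, ∀ b ∈ B, a * b = b * a := by
  have hdis : Disjoint A B := Subgroup.disjoint_of_coprime_natCard hcop
  have h1 : A ⊓ B = ⊥ := disjoint_iff.1 hdis
  have h2 : A.index = Nat.card B := by
    have hc : Subgroup.IsComplement' B A := by
      refine Subgroup.isComplement'_of_disjoint_and_mul_eq_univ hdis.symm ?_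
      rw [← Subgroup.normal_mul, sup_comm, hAB, Subgroup.coe_top]
    exact hc.index_eq_card
  have h3 : B.index = Nat.card A := by
    have hc : Subgroup.IsComplement' A B := by
      refine Subgroup.isComplement'_of_disjoint_and_mul_eq_univ hdis ?_
      rw [← Subgroup.normal_mul, hAB, Subgroup.coe_top]
    exact hc.index_eq_card
  refine ⟨h1, h2, h3, hall_char A hA ?_, hall_char B hB ?_, fun a ha b hb =>
    Subgroup.commute_of_normal_of_disjoint A B hA hB hdis a b ha hb⟩
  · rw [h2]
    exact hcop
  · rw [h3]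
    exact hcop.symm

/-- A normal Sylow subgroup of a characteristic subgroup `K` of index prime to `q` is one of `G`.
Proof: `Q` is characteristic in `K` (`nsyl_char`), so its image is characteristic in `G`
(`char_trans`); the index is `|K : Q| |G : K|`. -/
theorem nsyl_lift {G : Type} [Group G] [Finite G] {K : Subgroup G} (hK : K.Characteristic)
    {q : ℕ} {Q : Subgroup K} (hQ : NSyl q Q) (hq : ¬ q ∣ K.index) :
    NSyl q (Q.map K.subtype) := by
  have hchar : (Q.map K.subtype).Characteristic := char_trans hK (nsyl_char hQ)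
  refine ⟨hQ.prime, Subgroup.normal_of_characteristic _, hQ.pgroup.map _, ?_⟩
  rw [Subgroup.index_map_subtype, hQ.prime.dvd_mul]
  rintro (h | h)
  · exact hQ.index h
  · exact hq h

end FPX
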