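import Pool.Agent.FPX.Basic

namespace FPX

variable {p r : ℕ} [Fact p.Prime] {V : Type} [AddCommGroup V] [Module (ZMod p) V]
  {X : V ≃ₗ[ZMod p] V}

theorem L14_span {w : V} (hfr : Module.finrank (ZMod p) V = 2) (hw : NI X w) (v : V) :
    ∃ α β : ZMod p, v = α • w + β • X w := by
  have hfin : Module.Finite (ZMod p) V := Module.finite_of_finrank_pos (by omega)
  have hw0 : w ≠ 0 := by
    rintro rfl
    exact hw 0 (by rw [map_zero, smul_zero])
  have hli : LinearIndependent (ZMod p) ![w, X w] := by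
    rw [LinearIndependent.pair_iff]
    intro s t hst
    have ht : t = 0 := by
      by_contra ht
      apply hw (-(t⁻¹ * s))
      have h1 : X w = t⁻¹ • (t • X w) := by rw [smul_smul, inv_mul_cancel₀ ht, one_smul]
      have h2 : t • X w = -(s • w) := by
        rw [eq_neg_iff_add_eq_zero, add_comm]; exact hst
      rw [h1, h2, smul_neg, smul_smul, neg_smul]
    subst ht
    rw [zero_smul, add_zero] at hst
    exact ⟨(smul_eq_zero.1 hst).resolve_right hw0, rfl⟩
  have hspan := hli.span_eq_top_of_card_eq_finrank' (by rw [hfr]; rfl)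
  have hv : v ∈ Submodule.span (ZMod p) (Set.range ![w, X w]) := by
    rw [hspan]; exact Submodule.mem_top
  rw [Matrix.range_cons, Matrix.range_cons, Matrix.range_empty, Set.union_empty,
    Set.singleton_union, Submodule.mem_span_pair] at hv
  obtain ⟨α, β, h⟩ := hv
  exact ⟨α, β, h.symm⟩

/-- (P9) `X ^ k` has no nonzero fixed vector if `r ∤ k`: there is `j` with `j k ≡ 1` modulo `r`,
and `X = (X ^ k) ^ j`. -/
theorem Plane.powfix (h : Plane p r V X) {k : ℕ} (hk : ¬ r ∣ k) :
    ∀ v, (X ^ k) v = v → v = 0 := by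
  intro v hv
  have hcop : Nat.Coprime k r := ((Nat.Prime.coprime_iff_not_dvd h.rprime).2 hk).symm
  obtain ⟨m, hm⟩ := Nat.exists_mul_mod_eq_one_of_coprime hcop h.rprime.one_lt
  have h1 : ∀ n : ℕ, ((X ^ k) ^ n) v = v := by
    intro n
    induction n with
    | zero => rfl
    | succ n ih =>
      rw [pow_succ]
      show ((X ^ k) ^ n) ((X ^ k) v) = v
      rw [hv, ih]
  have h2 : (X ^ k) ^ m = X := by
    rw [← pow_mul]
    have h3 : k * m = r * (k * m / r) + 1 := by
      have := Nat.div_add_mod (k * m) r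
      rw [hm.2] at this
      exact this.symm
    rw [h3, pow_succ, pow_mul, h.Xr, one_pow, one_mul]
  have h3 := h1 m
  rw [h2] at h3
  exact h.Xfix v h3

/-- `X w = X⁻¹ w` only for `w = 0` (`X ^ 2` has no fixed vector, `r` odd). -/
theorem Plane.x_ne_inv (h : Plane p r V X) {w : V} (hw : X w = X⁻¹ w) : w = 0 := by
  apply h.powfix (k := 2)
  · intro hd
    have h1 := Nat.le_of_dvd (by norm_num) hd
    have h2 := h.rprime.two_le
    exact h.r2 (by omega)
  · show X (X w) = w
    rw [hw]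
    exact X.apply_symm_apply w

/-- `a X = X⁻¹ a` on vectors. -/
theorem L14_ax {a : V ≃ₗ[ZMod p] V} (ha : a * X = X⁻¹ * a) (v : V) : a (X v) = X⁻¹ (a v) :=
  DFunLike.congr_fun ha v

theorem L14_ax' {a : V ≃ₗ[ZMod p] V} (ha : a * X = X⁻¹ * a) (v : V) : a (X⁻¹ v) = X (a v) := by
  have h1 := L14_ax ha (X⁻¹ v)
  have h2 : X (X⁻¹ v) = v := X.apply_symm_apply v
  rw [h2] at h1
  rw [h1]
  exact (X.apply_symm_apply _).symm

/-- `X` is not a scalar: `X = c` gives `X + X⁻¹ = c + c⁻¹`, no information; but if `X = c` is a scalar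
then `c ^ r = 1`; this can happen a priori, and is excluded by the hypothesis that some `a`
satisfies `a X a⁻¹ = X⁻¹`: then `c = c⁻¹`, `X = X⁻¹`, contradiction with `x_ne_inv`. -/
theorem Plane.ns (h : Plane p r V X) (a : V ≃ₗ[ZMod p] V) (ha : a * X = X⁻¹ * a) :
    ¬ ∃ c : ZMod p, ∀ v, X v = c • v := by
  rintro ⟨c, hc⟩
  have h0 : ∀ v : V, v = 0 := by
    intro v
    have h1 : a v = 0 := by
      apply h.x_ne_inv
      rw [← L14_ax ha v, hc, hc, map_smul]
    exact (map_eq_zero_iff a a.injective).1 h1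
  have hs : Subsingleton V := ⟨fun a b => by rw [h0 a, h0 b]⟩
  have := h.fr
  rw [Module.finrank_zero_of_subsingleton] at this
  omega

/-- (P5) NL.  If `a X = X⁻¹ a` then no line is invariant under `X` and `a`: if `X w = c w`,
`a w = d w`, `w ≠ 0` then `d ≠ 0`, `a X w = c d w`, `X⁻¹ a w = d c⁻¹ w`, so `c ^ 2 = 1`,
and `c ^ r = 1` with `r` odd, so `c = 1`, contradiction with `Xfix`. -/
theorem Plane.NL (h : Plane p r V X) (a : V ≃ₗ[ZMod p] V) (ha : a * X = X⁻¹ * a)
    (U : Submodule (ZMod p) V) (hX : ∀ u ∈ U, X u ∈ U) (haU : ∀ u ∈ U, a u ∈ U) :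
    U = ⊥ ∨ U = ⊤ := by
  have hfin : Module.Finite (ZMod p) V := Module.finite_of_finrank_pos (by rw [h.fr]; norm_num)
  by_contra hcon
  push Not at hcon
  obtain ⟨hbot, htop⟩ := hcon
  have h1 : Module.finrank (ZMod p) U < 2 := by
    rw [← h.fr]
    exact Submodule.finrank_lt htop
  have h2 : Module.finrank (ZMod p) U ≠ 0 := fun h0 => hbot (Submodule.finrank_eq_zero.1 h0)
  have h3 : Module.finrank (ZMod p) U = 1 := by omega
  obtain ⟨w, hw0, hw⟩ := finrank_eq_one_iff'.1 h3
  obtain ⟨c, hc⟩ := hw ⟨X w, hX w w.2⟩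
  obtain ⟨d, hd⟩ := hw ⟨a w, haU w w.2⟩
  have hc' : X (w : V) = c • (w : V) := (congrArg Subtype.val hc).symm
  have hd' : a (w : V) = d • (w : V) := (congrArg Subtype.val hd).symm
  have hw1 : (w : V) ≠ 0 := fun h0 => hw0 (Subtype.ext h0)
  have hd0 : d ≠ 0 := by
    rintro rfl
    rw [zero_smul] at hd'
    exact hw1 ((map_eq_zero_iff a a.injective).1 hd')
  apply hw1
  apply h.x_ne_inv
  have h4 := L14_ax ha (w : V)
  rw [hc', map_smul, hd', map_smul, smul_comm] at h4
  rw [hc']
  exact smul_right_injective V hd0 h4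

/-- (P4) If `a X = X⁻¹ a` and `a w = w ≠ 0` then: `w` is not on an invariant line (otherwise the line
is `a`-invariant, contradiction to NL), `a ^ 2 = 1` (`a (X w) = X⁻¹ w`, `a (X⁻¹ w) = X w`, and
`w, X w` is a basis, `X⁻¹ w = τ w - X w`), the fixed space is the line of `w` and the
`(-1)`-eigenspace is the line of `X w - X⁻¹ w ≠ 0` (`p` is odd, `V` has dimension 2). -/
theorem Plane.refl (h : Plane p r V X) (a : V ≃ₗ[ZMod p] V) (ha : a * X = X⁻¹ * a) {w : V}
    (hw : w ≠ 0) (haw : a w = w) :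
    NI X w ∧ (∀ v, a (a v) = v) ∧ (∀ v, a v = v ↔ ∃ c : ZMod p, v = c • w) ∧
      (∀ v, a v = -v ↔ ∃ c : ZMod p, v = c • (X w - X⁻¹ w)) := by
  have e1 : a (X w) = X⁻¹ w := by rw [L14_ax ha, haw]
  have e2 : a (X⁻¹ w) = X w := by rw [L14_ax' ha, haw]
  have hni : NI X w := by
    intro c hc
    apply hw
    apply h.x_ne_inv
    rw [← e1, hc, map_smul, haw]
  have hne : X w - X⁻¹ w ≠ 0 := by
    intro h0
    exact hw (h.x_ne_inv (sub_eq_zero.1 h0))
  have h2 : (2 : ZMod p) ≠ 0 := by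
    intro h0
    have h3 : ((2 : ℕ) : ZMod p) = 0 := by exact_mod_cast h0
    rw [ZMod.natCast_eq_zero_iff] at h3
    have := Nat.le_of_dvd (by norm_num) h3
    have := h.p5
    omega
  refine ⟨hni, ?_, ?_, ?_⟩
  · intro v
    obtain ⟨α, β, rfl⟩ := L14_span h.fr hni v
    simp only [map_add, map_smul, haw, e1, e2]
  · intro v
    constructor
    · intro hv
      obtain ⟨α, β, rfl⟩ := L14_span h.fr hni v
      rw [map_add, map_smul, map_smul, haw, e1] at hv
      have h3 : β • (X w - X⁻¹ w) = 0 := by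
        rw [smul_sub, sub_eq_zero]
        exact (add_left_cancel hv).symm
      have h4 : β = 0 := (smul_eq_zero.1 h3).resolve_right hne
      exact ⟨α, by rw [h4, zero_smul, add_zero]⟩
    · rintro ⟨c, rfl⟩
      rw [map_smul, haw]
  · intro v
    constructor
    · intro hv
      obtain ⟨α, β, hαβ⟩ := L14_span h.fr hni v
      have h3 : a v = α • w + β • X⁻¹ w := by
        rw [hαβ, map_add, map_smul, map_smul, haw, e1]
      have h4 : (2 : ZMod p) • v = β • (X w - X⁻¹ w) := by
        have h5 : v - a v = (2 : ZMod p) • v := by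
          rw [hv, two_smul]
          abel
        rw [← h5, h3]
        conv_lhs => rw [hαβ]
        rw [smul_sub]
        abel
      refine ⟨2⁻¹ * β, ?_⟩
      rw [mul_smul, ← h4, smul_smul, inv_mul_cancel₀ h2, one_smul]
    · rintro ⟨c, rfl⟩
      rw [map_smul, map_sub, e1, e2, ← smul_neg, neg_sub]

/-- (P7) If `a` commutes with `X` and fixes `w` with `NI X w` then `a = 1`
(`w, X w` is a basis). -/
theorem Plane.comm_fix (h : Plane p r V X) (a : V ≃ₗ[ZMod p] V) (ha : a * X = X * a) {w : V}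
    (hw : NI X w) (haw : a w = w) : ∀ v, a v = v := by
  intro v
  obtain ⟨α, β, rfl⟩ := L14_span h.fr hw v
  have h1 : a (X w) = X (a w) := DFunLike.congr_fun ha w
  rw [map_add, map_smul, map_smul, h1, haw]

end FPX
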