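import Pool.Agent.FPX.Defs

namespace FPX

theorem L2_line {K V : Type} [Field K] [AddCommGroup V] [Module K V] (b : V →ₗ[K] V)
    (h : ∀ v : V, ∃ c : K, b v = c • v) : ∃ c : K, ∀ v, b v = c • v := by
  have h1 : ∀ v, ¬ LinearIndependent K ![v, b v] := by
    intro v hv
    obtain ⟨c, hc⟩ := h v
    have h2 := (LinearIndependent.pair_iff.1 hv) c (-1) (by rw [hc, neg_one_smul, add_neg_cancel])
    exact neg_ne_zero.2 one_ne_zero h2.2
  obtain ⟨a, ha⟩ := LinearMap.exists_eq_smul_id_of_forall_notLinearIndependent h1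
  refine ⟨a, fun v => ?_⟩
  rw [ha]
  rfl

/-- An endomorphism preserving the kernel of every linear functional is a scalar.

Proof.  For every `v`, `b v` is in the span of `v`: otherwise there is a functional `ψ` with
`ψ v = 0`, `ψ (b v) ≠ 0`.  So `b v = c_v v` for all `v`, and `c_v` does not depend on `v ≠ 0`
(compare `v`, `w`, `v + w` for independent `v, w`). -/
theorem scalar_of_ker {K V : Type} [Field K] [AddCommGroup V] [Module K V] (b : V →ₗ[K] V)
    (h : ∀ (ψ : Module.Dual K V) (v : V), ψ v = 0 → ψ (b v) = 0) :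
    ∃ c : K, ∀ v, b v = c • v := by
  apply L2_line
  intro v
  by_contra hcon
  have h1 : b v ∉ Submodule.span K {v} := by
    intro h2
    obtain ⟨c, hc⟩ := Submodule.mem_span_singleton.1 h2
    exact hcon ⟨c, hc.symm⟩
  obtain ⟨ψ, h2, h3⟩ := Submodule.exists_le_ker_of_notMem h1
  exact h2 (h ψ v (LinearMap.mem_ker.1 (h3 (Submodule.mem_span_singleton_self v))))

/-- An endomorphism preserving every line is a scalar. -/
theorem scalar_of_line {K V : Type} [Field K] [AddCommGroup V] [Module K V] (b : V →ₗ[K] V)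
    (h : ∀ v : V, ∃ c : K, b v = c • v) : ∃ c : K, ∀ v, b v = c • v := by
  exact L2_line b h

end FPX
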