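import Pool.Agent.FPX.Defs

namespace FPX

open Module in
/-- Cayley-Hamilton in dimension 2. -/
theorem ch2 {K V : Type} [Field K] [AddCommGroup V] [Module K V] (h2 : finrank K V = 2)
    (b : V →ₗ[K] V) (v : V) :
    b (b v) = (LinearMap.trace K V b) • b v - (LinearMap.det b) • v := by
  haveI : FiniteDimensional K V := FiniteDimensional.of_finrank_eq_succ h2
  have h1 := LinearMap.aeval_self_charpoly b
  have e := Module.finBasisOfFinrankEq K V h2
  rw [← LinearMap.charpoly_toMatrix b e, Matrix.charpoly_fin_two,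
    ← LinearMap.trace_eq_matrix_trace K e b, LinearMap.det_toMatrix] at h1
  have h3 := LinearMap.congr_fun h1 v
  simp only [map_add, map_sub, map_mul, map_pow, Polynomial.aeval_X, Polynomial.aeval_C,
    LinearMap.add_apply, LinearMap.sub_apply, LinearMap.zero_apply, Module.End.mul_apply,
    Module.algebraMap_end_apply, pow_two] at h3
  rw [sub_add_eq_add_sub, sub_eq_zero] at h3
  rw [← h3]
  abel

open Module in
/-- The centraliser of a nonscalar endomorphism `b` of a plane consists of the `x0 + x1 b`.
Proof: there is `v` with `v, b v` independent (otherwise `b` is a scalar), hence a basis; write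
`b' v = x0 v + x1 b v`; then `b' (b v) = b (b' v) = x0 b v + x1 b (b v)`, so the two endomorphisms
agree on the basis. -/
theorem centr2 {K V : Type} [Field K] [AddCommGroup V] [Module K V] (h2 : finrank K V = 2)
    (b b' : V →ₗ[K] V) (hns : ¬ ∃ c : K, ∀ v, b v = c • v) (hcomm : ∀ v, b (b' v) = b' (b v)) :
    ∃ x0 x1 : K, ∀ v, b' v = x0 • v + x1 • b v := by
  have hv : ∃ v, LinearIndependent K ![v, b v] := by
    by_contra hcon
    push Not at hcon
    obtain ⟨a, ha⟩ := LinearMap.exists_eq_smul_id_of_forall_notLinearIndependent hcon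
    exact hns ⟨a, fun v => by rw [ha]; rfl⟩
  obtain ⟨v, hv⟩ := hv
  let e := basisOfLinearIndependentOfCardEqFinrank hv (by rw [h2]; rfl)
  have he : ∀ w : V, ∃ y0 y1 : K, w = y0 • v + y1 • b v := by
    intro w
    refine ⟨e.repr w 0, e.repr w 1, ?_⟩
    have h3 := e.sum_repr w
    rw [Fin.sum_univ_two] at h3
    have e0 : e 0 = v := by simp [e]
    have e1 : e 1 = b v := by simp [e]
    rw [e0, e1] at h3
    exact h3.symm
  obtain ⟨x0, x1, hx⟩ := he (b' v)
  refine ⟨x0, x1, fun w => ?_⟩
  obtain ⟨y0, y1, hw⟩ := he w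
  rw [hw, map_add, map_smul, map_smul, ← hcomm v, hx]
  simp only [map_add, map_smul]
  module

end FPX
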