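import Pool.Agent.FPX.L14
import Pool.Agent.FPX.L2
import Pool.Agent.FPX.L6

namespace FPX

variable {p r : ℕ} [Fact p.Prime] {V : Type} [AddCommGroup V] [Module (ZMod p) V]
  {X : V ≃ₗ[ZMod p] V}

theorem L15_xi (X : V ≃ₗ[ZMod p] V) (v : V) : X (X⁻¹ v) = v := X.apply_symm_apply v

theorem L15_ix (X : V ≃ₗ[ZMod p] V) (v : V) : X⁻¹ (X v) = v := X.symm_apply_apply v

theorem L15_ne {w : V} (hw : NI X w) : w ≠ 0 := by
  intro h
  apply hw 0
  rw [h, map_zero, zero_smul]

/-- `w, X w` are independent -/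
theorem L15_ind {w : V} (hw : NI X w) {a b : ZMod p} (h : a • X w + b • w = 0) :
    a = 0 ∧ b = 0 := by
  have ha : a = 0 := by
    by_contra ha
    apply hw (-(a⁻¹ * b))
    have h1 : a⁻¹ • (a • X w + b • w) = 0 := by rw [h, smul_zero]
    rw [smul_add, smul_smul, smul_smul, inv_mul_cancel₀ ha, one_smul] at h1
    rw [neg_smul]
    exact eq_neg_of_add_eq_zero_left h1
  refine ⟨ha, ?_⟩
  rw [ha, zero_smul, zero_add] at h
  rcases smul_eq_zero.mp h with h1 | h1
  · exact h1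
  · exact absurd h1 (L15_ne hw)

/-- `w, X w` span the plane -/
theorem L15_span (h : Plane p r V X) {w : V} (hw : NI X w) (v : V) :
    ∃ a b : ZMod p, v = a • X w + b • w := by
  have hfd : FiniteDimensional (ZMod p) V := by
    apply FiniteDimensional.of_finrank_pos
    rw [h.fr]
    norm_num
  have hli : LinearIndependent (ZMod p) ![w, X w] := by
    rw [LinearIndependent.pair_iff' (L15_ne hw)]
    intro a ha
    exact hw a ha.symm
  have hsp := hli.span_eq_top_of_card_eq_finrank' (by rw [h.fr]; simp)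
  have hv : v ∈ Submodule.span (ZMod p) (Set.range ![w, X w]) := by
    rw [hsp]
    exact Submodule.mem_top
  rw [Matrix.range_cons, Matrix.range_cons, Matrix.range_empty, Set.union_empty] at hv
  have hv' : v ∈ Submodule.span (ZMod p) {w, X w} := hv
  rw [Submodule.mem_span_pair] at hv'
  obtain ⟨a, b, hab⟩ := hv'
  exact ⟨b, a, by rw [← hab, add_comm]⟩

theorem L15_nontriv (h : Plane p r V X) : ∃ v : V, v ≠ 0 := by
  have h1 : 0 < Module.finrank (ZMod p) V := by
    rw [h.fr]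
    norm_num
  have h2 := Module.nontrivial_of_finrank_pos h1
  exact exists_ne 0

open Polynomial in
theorem L15_avoid (f : (ZMod p)[X]) (hf : f ≠ 0) (hd : f.natDegree < p) :
    ∃ k : ZMod p, f.eval k ≠ 0 := by
  by_contra hcon
  push Not at hcon
  have h1 := Polynomial.card_le_degree_of_subset_roots (p := f) (Z := Finset.univ) (by
    intro k _
    exact (Polynomial.mem_roots hf).mpr (hcon k))
  rw [Finset.card_univ, ZMod.card] at h1
  omega

open Polynomial in
theorem L15_deg (τ a b : ZMod p) :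
    ((Polynomial.X ^ 2 + C τ * Polynomial.X + 1) * (C a * Polynomial.X + C b)).natDegree ≤ 3 := by
  refine le_trans natDegree_mul_le ?_
  have h1 : (Polynomial.X ^ 2 + C τ * Polynomial.X + 1 : (ZMod p)[X]).natDegree ≤ 2 := by
    compute_degree
  have h2 : (C a * Polynomial.X + C b : (ZMod p)[X]).natDegree ≤ 1 := by
    compute_degree
  omega

open Polynomial in
/-- a value where neither the quadratic polynomial nor the linear one vanishes -/
theorem L15_val (h5 : 5 ≤ p) (τ a b : ZMod p) (hab : a ≠ 0) :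
    ∃ k : ZMod p, k ^ 2 + τ * k + 1 ≠ 0 ∧ a * k + b ≠ 0 := by
  have hq : (Polynomial.X ^ 2 + C τ * Polynomial.X + 1 : (ZMod p)[X]) ≠ 0 := by
    intro h0
    have h1 := congrArg (fun q => q.coeff 2) h0
    simp [coeff_one] at h1
  have hl : (C a * Polynomial.X + C b : (ZMod p)[X]) ≠ 0 := by
    intro h0
    have h1 := congrArg (fun q => q.coeff 1) h0
    simp [coeff_C] at h1
    exact hab h1
  obtain ⟨k, hk⟩ := L15_avoid _ (mul_ne_zero hq hl) (lt_of_le_of_lt (L15_deg τ a b) (by omega))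
  rw [eval_mul] at hk
  have hk1 := left_ne_zero_of_mul hk
  have hk2 := right_ne_zero_of_mul hk
  simp only [eval_add, eval_pow, eval_X, eval_mul, eval_C, eval_one] at hk1 hk2
  exact ⟨k, hk1, hk2⟩

theorem L15_sq {τ : ZMod p} (hτ : ∀ v, X v + X⁻¹ v = τ • v) (v : V) :
    X (X v) = τ • X v - v := by
  have h1 := hτ (X v)
  rw [L15_ix] at h1
  exact eq_sub_of_add_eq h1

theorem L15_inv {τ : ZMod p} (hτ : ∀ v, X v + X⁻¹ v = τ • v) (v : V) :
    X⁻¹ v = τ • v - X v := by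
  have h1 := hτ v
  rw [add_comm] at h1
  exact eq_sub_of_add_eq h1

/-- `X w + k w` does not span an invariant line if `k² + τ k + 1 ≠ 0` -/
theorem L15_ni {τ : ZMod p} (hτ : ∀ v, X v + X⁻¹ v = τ • v) {w : V} (hw : NI X w) {k : ZMod p}
    (hk : k ^ 2 + τ * k + 1 ≠ 0) : NI X (X w + k • w) := by
  intro c hc
  rw [map_add, map_smul, L15_sq hτ] at hc
  have h1 : (τ + k - c) • X w + (-1 - c * k) • w = 0 := by
    have h2 : τ • X w - w + k • X w - c • (X w + k • w) = 0 := sub_eq_zero.mpr hc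
    rw [← h2]
    module
  obtain ⟨h2, h3⟩ := L15_ind hw h1
  apply hk
  linear_combination k * h2 - h3

/-- (P1) If `X` is not a scalar there is `w` with `NI X w` (otherwise `X` preserves every line,
`scalar_of_line`). -/
theorem Plane.exists_ni (h : Plane p r V X) (hns : ¬ ∃ c : ZMod p, ∀ v, X v = c • v) :
    ∃ w, NI X w := by
  by_contra hcon
  push Not at hcon
  apply hns
  obtain ⟨c, hc⟩ := scalar_of_line (X : V →ₗ[ZMod p] V) (by
    intro v
    have h1 := hcon v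
    unfold NI at h1
    push Not at h1
    exact h1)
  exact ⟨c, hc⟩

/-- (P2) Given `w₁` with `NI X w₁` there is `w` with `NI X w` such that `w₁` is neither on the
line of `w` nor on the line of `X w - X⁻¹ w`.

Proof.  Consider `w_k = X w₁ + k w₁` for `k ∈ ZMod p`, `p ≥ 5` values; they span distinct lines
different from the line of `w₁` (`w₁, X w₁` is a basis).  With `X ^ 2 w₁ = τ X w₁ - w₁`:
`X w_k = (τ + k) X w₁ - w₁ = c w_k` iff `c = τ + k` and `-1 = c k`, so `k^2 + τ k + 1 = 0`: at most two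
`k`.  `X w_k - X⁻¹ w_k = (2 X - τ)(X w₁ + k w₁) = 2 X^2 w₁ + (2 k - τ) X w₁ - τ k w₁
= (τ + 2 k) X w₁ - (2 + τ k) w₁` is a multiple of `w₁` iff `τ + 2 k = 0`: at most one `k` (`p` odd)
(if `w₁ = c (X w_k - X⁻¹ w_k)` then `c ≠ 0` and `τ + 2k = 0`).
So at most 3 values of `k` are excluded. -/
theorem Plane.exists_ni2 (h : Plane p r V X) {w₁ : V} (hw : NI X w₁) :
    ∃ w, NI X w ∧ (∀ c : ZMod p, w₁ ≠ c • w) ∧ (∀ c : ZMod p, w₁ ≠ c • (X w - X⁻¹ w)) := by
  obtain ⟨τ, hτ⟩ := h.Xtau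
  have h2 : (2 : ZMod p) ≠ 0 := by
    have h5 := h.p5
    intro h0
    have h1 : ((2 : ℕ) : ZMod p) = 0 := by exact_mod_cast h0
    rw [ZMod.natCast_eq_zero_iff] at h1
    have := Nat.le_of_dvd (by norm_num) h1
    omega
  obtain ⟨k, hk1, hk2⟩ := L15_val h.p5 τ 2 τ h2
  refine ⟨X w₁ + k • w₁, L15_ni hτ hw hk1, ?_, ?_⟩
  · intro c hc
    have h3 : c • X w₁ + (c * k - 1) • w₁ = 0 := by
      have h4 : c • (X w₁ + k • w₁) - w₁ = 0 := by
        rw [← hc, sub_self]
      rw [← h4]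
      module
    obtain ⟨h5, h6⟩ := L15_ind hw h3
    rw [h5, zero_mul, zero_sub] at h6
    exact (neg_ne_zero.mpr one_ne_zero) h6
  · intro c hc
    have h3 : (c * (2 * k + τ)) • X w₁ + (-(c * (2 + k * τ)) - 1) • w₁ = 0 := by
      have h4 : c • (X (X w₁ + k • w₁) - X⁻¹ (X w₁ + k • w₁)) - w₁ = 0 := by
        rw [← hc, sub_self]
      rw [L15_inv hτ, map_add, map_smul, L15_sq hτ] at h4
      rw [← h4]
      module
    obtain ⟨h5, h6⟩ := L15_ind hw h3
    rcases mul_eq_zero.mp h5 with h7 | h7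
    · rw [h7, zero_mul, neg_zero, zero_sub] at h6
      exact (neg_ne_zero.mpr one_ne_zero) h6
    · exact hk2 h7

/-- (P3) An endomorphism `φ` preserving the line of every `w` with `NI X w` is a scalar, if `X` is not
a scalar.

Proof.  Take `w₁` with `NI X w₁`, `φ w₁ = c₁ w₁`; subtract `c₁`: we may assume `φ w₁ = 0`.  In the
notation of (P2) there are at least `3` values of `k` with `NI X w_k`; `φ w_k = φ (X w₁)` is a
multiple of `w_k` for two different `k`, and `w_k`, `w_k'` are independent, so `φ (X w₁) = 0`. -/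
theorem Plane.scalar (h : Plane p r V X) (hns : ¬ ∃ c : ZMod p, ∀ v, X v = c • v)
    (φ : V →ₗ[ZMod p] V) (hφ : ∀ w, NI X w → ∃ c : ZMod p, φ w = c • w) :
    ∃ c : ZMod p, ∀ v, φ v = c • v := by
  obtain ⟨τ, hτ⟩ := h.Xtau
  obtain ⟨w, hw⟩ := h.exists_ni hns
  obtain ⟨c, hc⟩ := hφ w hw
  obtain ⟨k₁, hk₁, -⟩ := L15_val h.p5 τ 1 0 one_ne_zero
  obtain ⟨k₂, hk₂, hne⟩ := L15_val h.p5 τ 1 (-k₁) one_ne_zero
  obtain ⟨c₁, hc₁⟩ := hφ _ (L15_ni hτ hw hk₁)
  obtain ⟨c₂, hc₂⟩ := hφ _ (L15_ni hτ hw hk₂)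
  rw [map_add, map_smul, hc] at hc₁ hc₂
  have h1 : (c₁ - c₂) • X w + ((c₁ - c) * k₁ - (c₂ - c) * k₂) • w = 0 := by
    have h2 : (c₁ • (X w + k₁ • w) - k₁ • c • w) - (c₂ • (X w + k₂ • w) - k₂ • c • w) = 0 := by
      rw [← hc₁, ← hc₂]
      abel
    rw [← h2]
    module
  obtain ⟨h2, h3⟩ := L15_ind hw h1
  have h4 : c₁ = c₂ := sub_eq_zero.mp h2
  have h5 : (c₂ - c) * (1 * k₂ + -k₁) = 0 := by
    rw [h4] at h3
    linear_combination -h3
  have h6 : c₂ = c := by
    rcases mul_eq_zero.mp h5 with h7 | h7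
    · exact sub_eq_zero.mp h7
    · exact absurd h7 hne
  have h7 : φ (X w) = c • X w := by
    have h8 : φ (X w) = c₂ • (X w + k₂ • w) - k₂ • c • w := by
      rw [← hc₂]
      abel
    rw [h8, h6]
    module
  refine ⟨c, fun v => ?_⟩
  obtain ⟨a, b, rfl⟩ := L15_span h hw v
  rw [map_add, map_smul, map_smul, h7, hc]
  module

/-- (P6) If `a X = X⁻¹ a` then `a ^ 2` is a scalar `μ`, and `μ ≠ 1` if `a` has no nonzero fixed
vector.

Proof.  `a ^ 2` commutes with `X`, and `X` is not a scalar (`Plane.ns`), so `a ^ 2 = e0 + e1 X`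
(`centr2`).  Conjugation by `a`: `a ^ 2 = e0 + e1 X⁻¹`, so `e1 (X v - X⁻¹ v) = 0` for all `v`, and
`e1 = 0` by `x_ne_inv`.  If `μ = 1` and `a` has no fixed vector: for every `v`, `a v + v` is fixed by
`a`, so `a v = -v`, `a = -1` commutes with `X`, so `X = X⁻¹`, contradiction. -/
theorem Plane.sq (h : Plane p r V X) (a : V ≃ₗ[ZMod p] V) (ha : a * X = X⁻¹ * a) :
    ∃ μ : ZMod p, (∀ v, a (a v) = μ • v) ∧ ((∀ v, a v = v → v = 0) → μ ≠ 1) := by
  obtain ⟨v₀, hv₀⟩ := L15_nontriv h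
  have hns := h.ns a ha
  have h1 : ∀ v, a (X v) = X⁻¹ (a v) := fun v => LinearEquiv.congr_fun ha v
  have h2 : ∀ v, a (X⁻¹ v) = X (a v) := by
    intro v
    have h3 := h1 (X⁻¹ v)
    rw [L15_xi] at h3
    rw [h3, L15_xi]
  obtain ⟨x0, x1, hx⟩ := centr2 h.fr (X : V →ₗ[ZMod p] V)
    ((a : V →ₗ[ZMod p] V) ∘ₗ (a : V →ₗ[ZMod p] V)) hns (by
      intro v
      change X (a (a v)) = a (a (X v))
      rw [h1, h2])
  have hx' : ∀ v, a (a v) = x0 • v + x1 • X v := hx
  have h3 : ∀ v, x1 • (X (a v) - X⁻¹ (a v)) = 0 := by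
    intro v
    have h4 := hx' (a v)
    have h5 : a (a (a v)) = x0 • a v + x1 • X⁻¹ (a v) := by
      rw [hx' v, map_add, map_smul, map_smul, h1]
    rw [h5] at h4
    rw [smul_sub, sub_eq_zero]
    exact (add_left_cancel h4).symm
  have hx1 : x1 = 0 := by
    by_contra hne
    have h4 := h3 (a⁻¹ v₀)
    rw [L15_xi] at h4
    rcases smul_eq_zero.mp h4 with h5 | h5
    · exact hne h5
    · exact hv₀ (h.x_ne_inv (sub_eq_zero.mp h5))
  have hμ : ∀ v, a (a v) = x0 • v := by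
    intro v
    rw [hx' v, hx1, zero_smul, add_zero]
  refine ⟨x0, hμ, ?_⟩
  intro hfix h0
  have h4 : ∀ v, a v = -v := by
    intro v
    have h5 : a (a v + v) = a v + v := by
      rw [map_add, hμ, h0, one_smul, add_comm]
    exact eq_neg_of_add_eq_zero_left (hfix _ h5)
  apply hv₀
  apply h.x_ne_inv
  have h5 := h1 v₀
  rw [h4, h4, map_neg] at h5
  exact neg_injective h5

/-- (P8) `r` divides `p - 1` or `p + 1`.

Proof.  `X ^ p + (X⁻¹) ^ p = (X + X⁻¹) ^ p = τ ^ p = τ = X + X⁻¹` as endomorphisms (characteristic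
`p`, commuting operators, `add_pow_char_of_commute`; `τ ^ p = τ`).  Hence
`(X ^ (p+1) - 1)(X ^ (p-1) - 1) = X ^ (2p) - X ^ (p+1) - X ^ (p-1) + 1 = 0`.  If `r` divides neither
`p + 1` nor `p - 1` both factors are injective (`powfix`), contradiction. -/
theorem Plane.dvd (h : Plane p r V X) : r ∣ p - 1 ∨ r ∣ p + 1 := by
  obtain ⟨v₀, hv₀⟩ := L15_nontriv h
  obtain ⟨τ, hτ⟩ := h.Xtau
  by_contra hcon
  push Not at hcon
  obtain ⟨hc1, hc2⟩ := hcon
  have hp5 := h.p5
  -- in the endomorphism ring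
  have : Nontrivial V := ⟨v₀, 0, hv₀⟩
  have : CharP (Module.End (ZMod p) V) p :=
    charP_of_injective_algebraMap (algebraMap (ZMod p) (Module.End (ZMod p) V)).injective p
  let e := LinearEquiv.automorphismGroup.toLinearMapMonoidHom (R := ZMod p) (M := V)
  have he : ∀ (Y : V ≃ₗ[ZMod p] V) (v : V), e Y v = Y v := fun _ _ => rfl
  have hcomm : Commute (e X) (e X⁻¹) := by
    have h1 : Commute X X⁻¹ := (Commute.refl X).inv_right
    exact h1.map e
  have hsum : e X + e X⁻¹ = algebraMap (ZMod p) (Module.End (ZMod p) V) τ := by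
    apply LinearMap.ext
    intro v
    change e X v + e X⁻¹ v = τ • v
    exact hτ v
  have hpow : e (X ^ p) + e ((X⁻¹) ^ p) = e X + e X⁻¹ := by
    rw [map_pow, map_pow, ← add_pow_char_of_commute p hcomm, hsum, ← map_pow, ZMod.pow_card]
  have hpt : ∀ v : V, (X ^ p) v + ((X⁻¹) ^ p) v = X v + X⁻¹ v := by
    intro v
    have h1 := LinearMap.congr_fun hpow v
    exact h1
  have key : ∀ v : V, (X ^ (p + 1)) ((X ^ (p - 1)) v - v) = (X ^ (p - 1)) v - v := by
    intro v
    have h1 := congrArg (fun u => (X ^ p) u) (hpt v)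
    simp only [map_add] at h1
    have h2 : (X ^ p) (((X⁻¹) ^ p) v) = v := by
      rw [inv_pow]
      exact L15_xi (X ^ p) v
    have h3 : (X ^ p) ((X ^ p) v) = (X ^ (p + 1)) ((X ^ (p - 1)) v) := by
      have h4 : (X ^ p) * (X ^ p) = (X ^ (p + 1)) * (X ^ (p - 1)) := by
        rw [← pow_add, ← pow_add]
        congr 1
        omega
      exact LinearEquiv.congr_fun h4 v
    have h5 : (X ^ p) (X v) = (X ^ (p + 1)) v := by
      rw [pow_succ]
      rfl
    have h6 : (X ^ p) (X⁻¹ v) = (X ^ (p - 1)) v := by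
      have h7 : (X ^ p) * X⁻¹ = X ^ (p - 1) := by
        have h8 : X ^ (p - 1) * X = X ^ p := by
          rw [← pow_succ]
          congr 1
          omega
        rw [← h8, mul_assoc, mul_inv_cancel, mul_one]
      exact LinearEquiv.congr_fun h7 v
    rw [h2, h3, h5, h6] at h1
    rw [map_sub]
    have h8 : (X ^ (p + 1)) ((X ^ (p - 1)) v) = (X ^ (p + 1)) v + (X ^ (p - 1)) v - v :=
      eq_sub_of_add_eq h1
    rw [h8]
    abel
  have h1 := h.powfix hc2 _ (key v₀)
  exact hv₀ (h.powfix hc1 v₀ (sub_eq_zero.mp h1))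

end FPX
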