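import Pool.Agent.FPX.Defs2
import Pool.Agent.FPX.L14
import Pool.Agent.FPX.L15

namespace FPX

variable {G : Type} [Group G] [Finite G] {p r : ℕ} [Fact p.Prime] {P W : Subgroup G} {x : G}
  {V : Type} [AddCommGroup V] [Module (ZMod p) V] {f : V → G}
  {ρ : MulAut G →* (V ≃ₗ[ZMod p] V)} {X : V ≃ₗ[ZMod p] V}

/-- Every automorphism commutes with `X` or inverts it. -/
theorem Ctx.sgn (h : Ctx p r P W x V f ρ X) (α : MulAut G) :
    ρ α * X = X * ρ α ∨ ρ α * X = X⁻¹ * ρ α := by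
  rcases h.sit.sgn α with h1 | h1
  · exact Or.inl ((h.pos α).mp h1)
  · exact Or.inr ((h.neg α).mp h1)

theorem S6_Wcen (h : Ctx p r P W x V f ρ X) {w : G} (hw : w ∈ W) : w ∈ cen W := by
  rw [Subgroup.mem_centralizer_iff]
  intro a ha
  have h1 := ((h.sit.Wmem a).mp ha).1
  have h2 := ((h.sit.Wmem w).mp hw).2.1
  exact (Subgroup.mem_centralizer_iff.mp h2 a h1)

/-- The centraliser of `W` is characteristic. -/
theorem S6_cen_char (h : Ctx p r P W x V f ρ X) : (cen W).Characteristic := by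
  apply char_of_forall
  intro α g hg
  rw [Subgroup.mem_centralizer_iff]
  intro a ha
  have h1 : α⁻¹ a ∈ W := char_mem h.sit.Wchar α⁻¹ ha
  have h2 := Subgroup.mem_centralizer_iff.mp hg _ h1
  have h3 := congrArg α h2
  rw [map_mul, map_mul, MulAut.apply_inv_self] at h3
  exact h3

theorem S6_fixV (h : Ctx p r P W x V f ρ X) (α : MulAut G) (v : V) :
    α (f v) = f v ↔ ρ α v = v := by
  rw [h.mod.act]
  exact h.mod.inj.eq_iff

theorem S6_f0 (h : Ctx p r P W x V f ρ X) : f 0 = 1 := by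
  have h1 := h.mod.add 0 0
  rw [add_zero] at h1
  exact (mul_eq_left.mp h1.symm)

/-- The fixed point free automorphism inverts `X`.

Proof.  `α` from (F) for `H = ⊥`.  If `ρ α` commutes with `X` then `x⁻¹ α(x) ∈ cen W`, and `lang_fix` for
`N = cen W` gives `n ∈ cen W` with `α(x n) = x n`, so `x n = 1`, `x ∈ cen W`, contradiction. -/
theorem Ctx.exists_neg (h : Ctx p r P W x V f ρ X) (hF : PF G) :
    ∃ α : MulAut G, (∀ g, α g = g → g = 1) ∧ (∀ v, ρ α v = v → v = 0) ∧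
      ρ α * X = X⁻¹ * ρ α := by
  obtain ⟨α, hα⟩ := hF ⊥
  have h1 : ∀ g, α g = g → g = 1 := fun g hg => Subgroup.mem_bot.mp ((hα g).mp hg)
  refine ⟨α, h1, fun v hv => ?_, ?_⟩
  · have h2 := h1 (f v) ((S6_fixV h α v).mpr hv)
    apply h.mod.inj
    rw [h2, S6_f0 h]
  · rcases h.sgn α with h3 | h3
    · exfalso
      have h4 := (h.pos α).mpr h3
      obtain ⟨n, hn, h5⟩ := lang_fix α (cen W) (fun n hn => char_mem (S6_cen_char h) α hn)
        (fun n _ hn => h1 n hn) x h4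
      have h6 := h1 _ h5
      apply h.sit.xnot
      rw [eq_inv_of_mul_eq_one_left h6]
      exact (cen W).inv_mem hn
    · exact h3

/-- `X` is not a scalar (`Plane.ns`). -/
theorem Ctx.ns (h : Ctx p r P W x V f ρ X) (hF : PF G) :
    ¬ ∃ c : ZMod p, ∀ v, X v = c • v := by
  obtain ⟨α, _, _, h3⟩ := h.exists_neg hF
  exact h.pl.ns (ρ α) h3

/-- If `H ∩ W` is the line of `w` and this line is not `x`-invariant then the automorphism `α` with
fixed points `H` inverts `X`.  Proof: `ρ α w = w`; if `ρ α` commutes with `X` then `X w` is fixed by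
`ρ α`, so `f (X w) ∈ H`, so `X w` is a multiple of `w`. -/
theorem Ctx.line (h : Ctx p r P W x V f ρ X) (hF : PF G) (H : Subgroup G) (w : V)
    (hw : NI X w) (hH : ∀ v, f v ∈ H ↔ ∃ c : ZMod p, v = c • w) :
    ∃ α : MulAut G, (∀ g, α g = g ↔ g ∈ H) ∧ ρ α * X = X⁻¹ * ρ α ∧ ρ α w = w := by
  obtain ⟨α, hα⟩ := hF H
  have h1 : ρ α w = w := by
    rw [← S6_fixV h, hα, hH]
    exact ⟨1, (one_smul _ _).symm⟩
  refine ⟨α, hα, ?_, h1⟩
  rcases h.sgn α with h3 | h3
  · exfalso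
    have h4 : ρ α (X w) = X w := by
      have h5 := LinearEquiv.congr_fun h3 w
      rw [LinearEquiv.mul_apply, LinearEquiv.mul_apply, h1] at h5
      exact h5
    rw [← S6_fixV h, hα, hH] at h4
    obtain ⟨c, hc⟩ := h4
    exact hw c hc
  · exact h3

/-- If `H` contains `W` then the automorphism with fixed points `H` satisfies `x⁻¹ α(x) ∈ cen W`
(`ρ α = 1`). -/
theorem Ctx.contains (h : Ctx p r P W x V f ρ X) (α : MulAut G) (hα : ∀ v, ρ α v = v) :
    x⁻¹ * α x ∈ cen W := by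
  have h1 : ρ α = 1 := LinearEquiv.ext hα
  rw [h.pos, h1, one_mul, mul_one]

end FPX
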