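import Pool.Agent.FPX.S5
import Pool.Agent.FPX.S6
import Pool.Agent.FPX.L14

namespace FPX

/-- The power `a ^ (p ^ m)` for `a = y0 + y1 X`. -/
theorem E2_pow {p : ℕ} [Fact p.Prime] {V : Type} [AddCommGroup V] [Module (ZMod p) V]
    (A B : Module.End (ZMod p) V) (y0 y1 : ZMod p) (h : ∀ v, A v = y0 • v + y1 • B v) (m : ℕ)
    (v : V) : (A ^ (p ^ m)) v = y0 • v + y1 • (B ^ (p ^ m)) v := by
  have h1 : Polynomial.aeval B (Polynomial.C y0 + Polynomial.C y1 * Polynomial.X) = A := by
    ext w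
    rw [map_add, map_mul, Polynomial.aeval_C, Polynomial.aeval_C, Polynomial.aeval_X, h]
    rw [LinearMap.add_apply, Module.End.mul_apply, Module.algebraMap_end_apply,
      Module.algebraMap_end_apply]
  have h2 : (Polynomial.C y0 + Polynomial.C y1 * Polynomial.X) ^ (p ^ m) =
      Polynomial.C y0 + Polynomial.C y1 * Polynomial.X ^ (p ^ m) := by
    rw [add_pow_char_pow, mul_pow, ← Polynomial.C_pow, ← Polynomial.C_pow, ZMod.pow_card_pow,
      ZMod.pow_card_pow]
  have h3 : A ^ (p ^ m) =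
      Polynomial.aeval B (Polynomial.C y0 + Polynomial.C y1 * Polynomial.X ^ (p ^ m)) := by
    rw [← h2, map_pow, h1]
  rw [h3, map_add, map_mul, Polynomial.aeval_C, Polynomial.aeval_C, map_pow, Polynomial.aeval_X,
    LinearMap.add_apply, Module.End.mul_apply, Module.algebraMap_end_apply,
    Module.algebraMap_end_apply]

theorem E2_coe_pow {K V : Type} [Field K] [AddCommGroup V] [Module K V] (a : V ≃ₗ[K] V) (n : ℕ)
    (v : V) : ((a : Module.End K V) ^ n) v = (a ^ n) v := by
  induction n generalizing v with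
  | zero => rfl
  | succ n ih =>
    rw [pow_succ, pow_succ, Module.End.mul_apply, ih]
    rfl

theorem E2_scalar_pow {K V : Type} [Field K] [AddCommGroup V] [Module K V] (a : V ≃ₗ[K] V)
    (c : K) (h : ∀ v, a v = c • v) (n : ℕ) (v : V) : (a ^ n) v = c ^ n • v := by
  induction n generalizing v with
  | zero => rw [pow_zero, pow_zero, one_smul]; rfl
  | succ n ih =>
    have h1 : (a ^ (n + 1)) v = (a ^ n) (a v) := by rw [pow_succ]; rfl
    rw [h1, ih, h, smul_smul, pow_succ]

/-- A linear automorphism `a` of `p`-power order commuting with `X` (not a scalar) is trivial.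

Proof.  `a = y0 + y1 X` (`centr2`).  `N := a - 1` satisfies `N ^ (p ^ m) = a ^ (p ^ m) - 1 = 0`, so
`N` is nilpotent, in dimension 2 `N ^ 2 = 0`, and `N = z0 + y1 X` commutes with `X`.  If `y1 = 0` then
`N` is a nilpotent scalar, so `0`.  If `y1 ≠ 0` then `X = c + c' N` with `c' ≠ 0`, so
`X ^ r = c ^ r + r c ^ (r - 1) c' N = 1`; then `r c ^ (r-1) c' N` is a scalar with square zero, so it
is `0` and `N = 0` (`r`, `c`, `c'` are nonzero in `F_p`; `c ≠ 0` since `X` is invertible), so `X = c` is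
a scalar, contradiction. -/
theorem Plane.unip {p r : ℕ} [Fact p.Prime] {V : Type} [AddCommGroup V] [Module (ZMod p) V]
    {X : V ≃ₗ[ZMod p] V} (h : Plane p r V X) (hns : ¬ ∃ c : ZMod p, ∀ v, X v = c • v)
    (a : V ≃ₗ[ZMod p] V) (ha : a * X = X * a) {m : ℕ} (hm : a ^ (p ^ m) = 1) : a = 1 := by
  obtain ⟨y0, y1, hy⟩ := centr2 h.fr (X : V →ₗ[ZMod p] V) (a : V →ₗ[ZMod p] V) hns (by
    intro v
    have := congrArg (fun e : V ≃ₗ[ZMod p] V => e v) ha
    exact this.symm)
  have h1 : ∀ v, v = y0 • v + y1 • (X ^ (p ^ m)) v := by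
    intro v
    have h2 := E2_pow (a : Module.End (ZMod p) V) (X : Module.End (ZMod p) V) y0 y1 hy m v
    rw [E2_coe_pow, E2_coe_pow, hm] at h2
    exact h2
  by_cases hy1 : y1 = 0
  · apply LinearEquiv.ext
    intro v
    have h2 := h1 v
    have h3 := hy v
    rw [hy1, zero_smul, add_zero] at h2 h3
    exact h3.trans h2.symm
  · exfalso
    apply hns
    have h2 : ∀ v, (X ^ (p ^ m)) v = (y1⁻¹ * (1 - y0)) • v := by
      intro v
      have h3 : y1 • (X ^ (p ^ m)) v = (1 - y0) • v := by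
        rw [sub_smul, one_smul]
        exact eq_sub_of_add_eq' (h1 v).symm
      rw [mul_smul, ← h3, inv_smul_smul₀ hy1]
    have hcop : Nat.Coprime (p ^ m) r :=
      Nat.Coprime.pow_left m ((Nat.coprime_primes Fact.out h.rprime).mpr h.rp.symm)
    obtain ⟨k, hk⟩ := Nat.exists_mul_mod_eq_one_of_coprime hcop h.rprime.one_lt
    refine ⟨(y1⁻¹ * (1 - y0)) ^ k, fun v => ?_⟩
    rw [← E2_scalar_pow (X ^ (p ^ m)) _ h2 k v, ← pow_mul]
    have h4 : p ^ m * k = r * (p ^ m * k / r) + 1 := by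
      have := Nat.div_add_mod (p ^ m * k) r
      omega
    rw [h4, pow_succ, pow_mul, h.Xr, one_pow, one_mul]

theorem E2_res_pow {G : Type} [Group G] {K : Subgroup G} (s : G) (β : MulAut K)
    (hβ : ∀ k : K, ((β k : K) : G) = s * k * s⁻¹) (n : ℕ) (k : K) :
    (((β ^ n) k : K) : G) = s ^ n * k * (s ^ n)⁻¹ := by
  induction n generalizing k with
  | zero => simp
  | succ n ih =>
    have h1 : (β ^ (n + 1)) k = (β ^ n) (β k) := by rw [pow_succ]; rfl
    rw [h1, ih, hβ, pow_succ]
    group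

theorem E2_inv_pow {M : Type} [Group M] (a X : M) (h : a * X = X⁻¹ * a) (k : ℕ) :
    a ^ (2 * k + 1) * X = X⁻¹ * a ^ (2 * k + 1) := by
  have h0 : a * X⁻¹ = X * a := by
    have : X * (a * X) * X⁻¹ = X * (X⁻¹ * a) * X⁻¹ := by rw [h]
    rw [mul_inv_cancel_left] at this
    rw [← this]; group
  have h2 : Commute (a ^ 2) X := by
    show a ^ 2 * X = X * a ^ 2
    rw [pow_two, mul_assoc, h, ← mul_assoc, h0, mul_assoc]
  have h3 : Commute (a ^ (2 * k)) X⁻¹ := by
    rw [pow_mul]
    exact (h2.pow_left k).inv_right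
  rw [pow_succ, mul_assoc, h, ← mul_assoc, h3.eq, mul_assoc]

/-- Let `K` be characteristic in `G`, of type (ii) with the prime `p`.  Every element `s` of
`p`-power order of `G` commutes with the normal Sylow `p`-subgroup `W` of `K`.

Proof.  `K` has (F) (`pf_char`).  Let `β` be the restriction of `conj s` to `K` (`exists_res`); it has
`p`-power order.  `exists_ctx` for `K`; `a := ρ β`, `a ^ (p ^ m) = 1`.  By `Ctx.sgn` `a` commutes with
`X` or inverts it.  If it inverts `X`, then its odd power `a ^ (p ^ m) = 1` inverts `X`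
(`p` is odd), so `X = X⁻¹`, contradiction to `Plane.x_ne_inv` (`V ≠ 0`).  So it commutes and `a = 1` by
`Plane.unip` and `Ctx.ns`. -/
theorem E2 {G : Type} [Group G] [Finite G] (hF : PF G) {K : Subgroup G} (hK : K.Characteristic)
    {p r : ℕ} {W : Subgroup K} {x : K} (ht : Typ p r W x) (s : G) {m : ℕ}
    (hs : s ^ p ^ m = 1) : ∀ w ∈ W, s * (w : G) = (w : G) * s := by
  haveI : Fact p.Prime := ⟨ht.sit.syl.prime⟩
  have hFK : PF K := pf_char hK hF
  obtain ⟨β, hβ⟩ := exists_res hK (MulAut.conj s)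
  have hβ' : ∀ k : K, ((β k : K) : G) = s * k * s⁻¹ := hβ
  obtain ⟨V, i1, i2, i3, f, ρ, X, h⟩ := exists_ctx ht.sit
  have hβm : β ^ (p ^ m) = 1 := by
    apply MulEquiv.ext
    intro k
    apply Subtype.ext
    rw [E2_res_pow s β hβ', hs, one_mul, inv_one, mul_one]
    rfl
  have ham : (ρ β) ^ (p ^ m) = 1 := by rw [← map_pow, hβm, map_one]
  have ha1 : ρ β = 1 := by
    rcases h.sgn β with hc | hc
    · exact Plane.unip h.pl (h.ns hFK) (ρ β) hc ham
    · exfalso
      have hodd : Odd (p ^ m) := by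
        apply Odd.pow
        exact (ht.sit.syl.prime).odd_of_ne_two (by have := h.pl.p5; omega)
      obtain ⟨k, hk⟩ := hodd
      have h1 := E2_inv_pow (ρ β) X hc k
      rw [← hk, ham, one_mul, mul_one] at h1
      have hnt : Nontrivial V := Module.nontrivial_of_finrank_pos (R := ZMod p)
        (by rw [h.pl.fr]; norm_num)
      obtain ⟨v, hv⟩ := exists_ne (0 : V)
      apply hv
      apply Plane.x_ne_inv h.pl
      exact congrArg (fun e : V ≃ₗ[ZMod p] V => e v) h1
  intro w hw
  obtain ⟨v, hv⟩ := (h.mod.mem w).mp hw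
  have h2 := h.mod.act β v
  rw [ha1] at h2
  have h3 : β w = w := by
    rw [← hv]
    exact h2
  have h4 := hβ' w
  rw [h3] at h4
  calc s * (w : G) = (s * w * s⁻¹) * s := by group
    _ = (w : G) * s := by rw [← h4]

end FPX
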