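import Pool.Agent.FPX.E1
import Pool.Agent.FPX.E2
import Pool.Agent.FPX.L15

namespace FPX

variable {G : Type} [Group G] [Finite G]

theorem E3_cen_char {G : Type} [Group G] {W : Subgroup G} (hW : W.Characteristic) :
    (cen W).Characteristic := by
  apply char_of_forall
  intro α g hg
  rw [Subgroup.mem_centralizer_iff] at hg ⊢
  intro w hw
  have h1 : α⁻¹ w ∈ W := char_mem hW α⁻¹ hw
  have h2 := hg _ h1
  have h3 := congrArg α h2
  rw [map_mul, map_mul, MulAut.apply_inv_self] at h3
  exact h3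

theorem E3_split {M : Type} [Group M] [Finite M] {p r a l : ℕ} (hp : p.Prime) (hr : r.Prime)
    (hcard : Nat.card M ∣ p ^ a * r ^ l) {A B : Subgroup M} (hA : A.Normal) (hB : B.Normal)
    (hAB : A ⊔ B = ⊤) (hcop : (Nat.card A).Coprime (Nat.card B)) (hB1 : B ≠ ⊥)
    (hpA : p ∣ Nat.card A) : NSyl p A ∧ A ≠ ⊥ := by
  obtain ⟨_, hidx, _, _, _, _⟩ := factor_facts hA hB hAB hcop
  have hpB : ¬ p ∣ Nat.card B := by
    intro h
    have := Nat.dvd_gcd hpA h
    rw [hcop] at this
    exact hp.one_lt.ne' (Nat.dvd_one.1 this)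
  have hBd : Nat.card B ∣ p ^ a * r ^ l := (Subgroup.card_subgroup_dvd_card B).trans hcard
  have hAd : Nat.card A ∣ p ^ a * r ^ l := (Subgroup.card_subgroup_dvd_card A).trans hcard
  have hBr : Nat.card B ∣ r ^ l := by
    refine Nat.Coprime.dvd_of_dvd_mul_left ?_ hBd
    exact Nat.Coprime.pow_right a ((Nat.Prime.coprime_iff_not_dvd hp).2 hpB).symm
  obtain ⟨j, _, hj⟩ := (Nat.dvd_prime_pow hr).1 hBr
  have hj0 : j ≠ 0 := by
    rintro rfl
    rw [pow_zero] at hj
    exact hB1 (Subgroup.card_eq_one.1 hj)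
  have hrB : r ∣ Nat.card B := by
    rw [hj]
    exact dvd_pow_self r hj0
  have hrA : ¬ r ∣ Nat.card A := by
    intro h
    have := Nat.dvd_gcd h hrB
    rw [hcop] at this
    exact hr.one_lt.ne' (Nat.dvd_one.1 this)
  have hAp : Nat.card A ∣ p ^ a := by
    refine Nat.Coprime.dvd_of_dvd_mul_right ?_ hAd
    exact Nat.Coprime.pow_right l ((Nat.Prime.coprime_iff_not_dvd hr).2 hrA).symm
  obtain ⟨i, _, hi⟩ := (Nat.dvd_prime_pow hp).1 hAp
  refine ⟨⟨hp, hA, IsPGroup.of_card hi, by rw [hidx]; exact hpB⟩, ?_⟩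
  rintro rfl
  rw [Subgroup.card_bot] at hpA
  exact hp.one_lt.ne' (Nat.dvd_one.1 hpA)

/-- Existence of a normal Sylow subgroup, the case of a characteristic subgroup `K` of type (ii)
with prime `p`, of index a power of `p`.

Proof.  `W' = W.map K.subtype`, `M₁ = cen W'`.  `W` is characteristic in `K`, so `W'` and `M₁` are
characteristic in `G`.  `M₁ ≠ ⊤` because `x ∉ M₁`; `M₁ ≠ ⊥` because `W' ≤ M₁` (`W` is commutative) and
`|W| = p ^ 2`.  By `E2` all elements of `p`-power order are in `M₁`, so `p ∤ |G : M₁|` (a Sylow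
`p`-subgroup is contained in `M₁`).  By `nsyl_lift` it is enough to find `Q ≤ M₁` with `NSyl p Q`,
`Q ≠ ⊥`.  `|G| = p ^ a r ^ b` (`|G : K| = p ^ k`, `|K : W| = r ^ l`, `|W| = p ^ 2`), so only `p`
and `r` divide `|M₁|`, and `p` does.
If `M₁` is not indecomposable: `A`, `B` normal in `M₁`, `A ⊔ B = ⊤`, coprime orders, both nontrivial;
one of them has order divisible by `p`, say `A`; then `|B|` is a power of `r`, nontrivial, so
`|A|` is a power of `p`: `NSyl p A`.
If `M₁` is indecomposable use `II M₁`.  If `M₁` is a `q`-group then `q = p` and `Q = ⊤`.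
If `Typ p' r' W₂ x₂` in `M₁`: if `p' = p` take `Q = W₂`.  Otherwise `p' = r` and `p` divides
`|M₁| = p' ^ 2 r' ^ k`, so `r' = p`.  `exists_ctx` and `Plane.dvd` for `K` and for `M₁` give:
`r` divides `p - 1` or `p + 1`, and `r' = p` divides `p' - 1` or `p' + 1`, i.e. `r - 1` or `r + 1`.  So
`r ≤ p + 1` and `p ≤ r + 1`; `p ≠ r` are both odd, so they differ by at least `2`, contradiction. -/
theorem E3 (hF : PF G)
    (ih : ∀ K : Subgroup G, K.Characteristic → K ≠ ⊤ → K ≠ ⊥ → EE K ∧ II K)
    {K : Subgroup G} (hK : K.Characteristic) {p r k : ℕ} (hidx : K.index = p ^ k)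
    {W : Subgroup K} {x : K} (ht : Typ p r W x) : ∃ Q : Subgroup G, NSyl p Q ∧ Q ≠ ⊥ := by
  have hsit := ht.sit
  obtain ⟨l, hl⟩ := ht.rgp
  have hp : p.Prime := hsit.syl.prime
  have hr : r.Prime := hsit.rprime
  have hWcomm : ∀ a ∈ W, a ∈ cen W := fun a ha => ((hsit.Wmem a).1 ha).2.1
  have hW'c : (W.map K.subtype).Characteristic := char_trans hK hsit.Wchar
  obtain ⟨W', hW'⟩ : ∃ W' : Subgroup G, W' = W.map K.subtype := ⟨_, rfl⟩
  rw [← hW'] at hW'c
  have hmemW' : ∀ g : G, g ∈ W' ↔ ∃ w ∈ W, (w : G) = g := by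
    intro g
    rw [hW', Subgroup.mem_map]
    rfl
  have hMc : (cen W').Characteristic := E3_cen_char hW'c
  obtain ⟨M, hM⟩ : ∃ M : Subgroup G, M = cen W' := ⟨_, rfl⟩
  rw [← hM] at hMc
  have hmemM : ∀ g : G, g ∈ M ↔ ∀ w ∈ W, (w : G) * g = g * (w : G) := by
    intro g
    rw [hM, Subgroup.mem_centralizer_iff]
    constructor
    · intro h w hw
      exact h _ ((hmemW' _).2 ⟨w, hw, rfl⟩)
    · intro h y hy
      obtain ⟨w, hw, rfl⟩ := (hmemW' _).1 hy
      exact h w hw
  have hW'M : W' ≤ M := by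
    intro g hg
    obtain ⟨w, hw, rfl⟩ := (hmemW' _).1 hg
    rw [hmemM]
    intro v hv
    have := Subgroup.mem_centralizer_iff.1 (hWcomm w hw) v hv
    exact congrArg Subtype.val this
  have hWne : W ≠ ⊥ := by
    intro h
    have := hsit.Wcard
    rw [h, Subgroup.card_bot] at this
    exact (Nat.one_lt_pow two_ne_zero hp.one_lt).ne this
  have hcardW' : Nat.card W' = p ^ 2 := by
    rw [← hsit.Wcard, hW']
    exact Subgroup.card_map_of_injective K.subtype_injective
  have hMtop : M ≠ ⊤ := by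
    intro h
    apply hsit.xnot
    rw [Subgroup.mem_centralizer_iff]
    intro w hw
    have h1 : (x : G) ∈ M := by rw [h]; trivial
    exact Subtype.ext ((hmemM _).1 h1 w hw)
  have hpM : p ∣ Nat.card M := by
    refine dvd_trans ?_ (Subgroup.card_dvd_of_le hW'M)
    rw [hcardW']
    exact dvd_pow_self p two_ne_zero
  have hMbot : M ≠ ⊥ := by
    rintro rfl
    rw [Subgroup.card_bot] at hpM
    exact hp.one_lt.ne' (Nat.dvd_one.1 hpM)
  haveI : Fact p.Prime := ⟨hp⟩
  have hidxM : ¬ p ∣ M.index := by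
    obtain ⟨S⟩ : Nonempty (Sylow p G) := inferInstance
    have hSM : (S : Subgroup G) ≤ M := by
      intro s hs
      rw [hmemM]
      intro w hw
      obtain ⟨m, hm⟩ := S.isPGroup' ⟨s, hs⟩
      have hm' : s ^ p ^ m = 1 := congrArg Subtype.val hm
      exact (E2 hF hK ht s hm' w hw).symm
    intro h
    exact S.not_dvd_index (h.trans (Subgroup.index_dvd_of_le hSM))
  suffices hQ : ∃ Q : Subgroup M, NSyl p Q ∧ Q ≠ ⊥ by
    obtain ⟨Q, hQ1, hQ2⟩ := hQ
    refine ⟨Q.map M.subtype, nsyl_lift hMc hQ1 hidxM, ?_⟩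
    intro h
    rw [Subgroup.map_eq_bot_iff_of_injective _ M.subtype_injective] at h
    exact hQ2 h
  have hcardG : Nat.card G = p ^ (2 + k) * r ^ l := by
    rw [← K.card_mul_index, ← W.card_mul_index, hsit.Wcard, hl, hidx, pow_add]
    ring
  have hcardM : Nat.card M ∣ p ^ (2 + k) * r ^ l := by
    rw [← hcardG]
    exact Subgroup.card_subgroup_dvd_card M
  by_cases hind : Indec M
  · rcases (ih M hMc hMtop hMbot).2 hind with ⟨q, hq, hqM⟩ | ⟨p', r', W₂, x₂, ht₂⟩
    · haveI : Fact q.Prime := ⟨hq⟩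
      obtain ⟨i, hi⟩ := (IsPGroup.iff_card).1 hqM
      have hqp : p = q := by
        rw [hi] at hpM
        exact (Nat.prime_dvd_prime_iff_eq hp hq).1 (hp.dvd_of_dvd_pow hpM)
      subst hqp
      refine ⟨⊤, ⟨hp, inferInstance, ?_, ?_⟩, ?_⟩
      · refine IsPGroup.of_card (n := i) ?_
        rw [Subgroup.card_top]
        exact hi
      · rw [Subgroup.index_top]
        exact fun h => hp.one_lt.ne' (Nat.dvd_one.1 h)
      · intro h
        have h1 : Nat.card (⊤ : Subgroup M) = 1 := by rw [h, Subgroup.card_bot]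
        rw [Subgroup.card_top] at h1
        rw [h1] at hpM
        exact hp.one_lt.ne' (Nat.dvd_one.1 hpM)
    · have hsit₂ := ht₂.sit
      obtain ⟨l₂, hl₂⟩ := ht₂.rgp
      have hp' : p'.Prime := hsit₂.syl.prime
      have hr' : r'.Prime := hsit₂.rprime
      by_cases hpp : p' = p
      · subst hpp
        refine ⟨W₂, hsit₂.syl, ?_⟩
        intro h
        have := hsit₂.Wcard
        rw [h, Subgroup.card_bot] at this
        exact (Nat.one_lt_pow two_ne_zero hp.one_lt).ne this
      · exfalso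
        have hcM : Nat.card M = p' ^ 2 * r' ^ l₂ := by
          rw [← W₂.card_mul_index, hsit₂.Wcard, hl₂]
        have h1 : p' ∣ p ^ (2 + k) * r ^ l := by
          refine dvd_trans ?_ hcardM
          rw [hcM]
          exact (dvd_pow_self p' two_ne_zero).mul_right _
        have hp'r : p' = r := by
          rcases (Nat.Prime.dvd_mul hp').1 h1 with h2 | h2
          · exact absurd ((Nat.prime_dvd_prime_iff_eq hp' hp).1 (hp'.dvd_of_dvd_pow h2)) hpp
          · exact (Nat.prime_dvd_prime_iff_eq hp' hr).1 (hp'.dvd_of_dvd_pow h2)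
        have hr'p : r' = p := by
          rw [hcM] at hpM
          rcases (Nat.Prime.dvd_mul hp).1 hpM with h2 | h2
          · exact absurd ((Nat.prime_dvd_prime_iff_eq hp hp').1 (hp.dvd_of_dvd_pow h2)).symm hpp
          · exact ((Nat.prime_dvd_prime_iff_eq hp hr').1 (hp.dvd_of_dvd_pow h2)).symm
        subst hp'r
        subst hr'p
        haveI : Fact p'.Prime := ⟨hp'⟩
        obtain ⟨V, _, _, _, f, ρ, X, hctx⟩ := exists_ctx hsit
        obtain ⟨V₂, _, _, _, f₂, ρ₂, X₂, hctx₂⟩ := exists_ctx hsit₂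
        have d1 := hctx.pl.dvd
        have d2 := hctx₂.pl.dvd
        have e1 : 5 ≤ r' := hsit.p5
        have e2 : 5 ≤ p' := hsit₂.p5
        have o1 : r' % 2 = 1 := by
          rcases hr'.eq_two_or_odd with h | h
          · omega
          · exact h
        have o2 : p' % 2 = 1 := by
          rcases hp'.eq_two_or_odd with h | h
          · omega
          · exact h
        have b1 : p' ≤ r' + 1 := by
          rcases d1 with h | h
          · have := Nat.le_of_dvd (by omega) h
            omega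
          · exact Nat.le_of_dvd (by omega) h
        have b2 : r' ≤ p' + 1 := by
          rcases d2 with h | h
          · have := Nat.le_of_dvd (by omega) h
            omega
          · exact Nat.le_of_dvd (by omega) h
        omega
  · unfold Indec at hind
    push Not at hind
    obtain ⟨A, B, hA, hB, hAB, hcop, hA1, hB1⟩ := hind
    have hmul : Nat.card A * Nat.card B = Nat.card M := by
      rw [← (factor_facts hA hB hAB hcop).2.1, A.card_mul_index]
    rw [← hmul] at hpM
    rcases (Nat.Prime.dvd_mul hp).1 hpM with h | h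
    · obtain ⟨h1, h2⟩ := E3_split hp hr hcardM hA hB hAB hcop hB1 h
      exact ⟨A, h1, h2⟩
    · obtain ⟨h1, h2⟩ := E3_split hp hr hcardM hB hA (by rw [sup_comm]; exact hAB) hcop.symm hA1 h
      exact ⟨B, h1, h2⟩

end FPX
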