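import Pool.Agent.FPX.E1
import Pool.Agent.FPX.Defs2

namespace FPX

variable {G : Type} [Group G] [Finite G]

/-- One factor gives a normal Sylow subgroup for a prime dividing its order. -/
theorem E4_half (ih : ∀ K : Subgroup G, K.Characteristic → K ≠ ⊤ → K ≠ ⊥ → EE K)
    {K : Subgroup G} (hK : K.Characteristic) (A B : Subgroup K) (hchar : A.Characteristic)
    (hinf : A ⊓ B = ⊥) (hA1 : A ≠ ⊥) (hB1 : B ≠ ⊥) :
    ∃ (q : ℕ) (Q : Subgroup (A.map K.subtype)), NSyl q Q ∧ Q ≠ ⊥ ∧ q ∣ Nat.card A := by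
  have hcard : Nat.card (A.map K.subtype) = Nat.card A :=
    Subgroup.card_map_of_injective K.subtype_injective
  have h1 : (A.map K.subtype).Characteristic := char_trans hK hchar
  have h2 : A.map K.subtype ≠ ⊤ := by
    intro h
    apply hB1
    have h3 : A = ⊤ := by
      rw [eq_top_iff]
      intro a _
      have h4 : (a : G) ∈ A.map K.subtype := by
        rw [h]
        exact Subgroup.mem_top _
      obtain ⟨b, hb, hba⟩ := h4
      have h5 : b = a := Subtype.ext hba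
      rwa [← h5]
    rw [h3, top_inf_eq] at hinf
    exact hinf
  have h3 : A.map K.subtype ≠ ⊥ := by
    intro h
    apply hA1
    rwa [Subgroup.map_eq_bot_iff_of_injective _ K.subtype_injective] at h
  obtain ⟨q, Q, hQ, hQ1⟩ := ih _ h1 h2 h3
  refine ⟨q, Q, hQ, hQ1, ?_⟩
  rw [← hcard]
  haveI : Fact q.Prime := ⟨hQ.prime⟩
  obtain ⟨n, hn⟩ := IsPGroup.iff_card.mp hQ.pgroup
  have h4 : n ≠ 0 := by
    rintro rfl
    rw [pow_zero] at hn
    exact hQ1 (Subgroup.eq_bot_of_card_eq Q hn)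
  have h5 : q ∣ Nat.card Q := by
    rw [hn]
    exact dvd_pow_self q h4
  exact h5.trans Q.card_subgroup_dvd_card

/-- If the prime is not `r` then the normal Sylow subgroup of the factor is one of `G`. -/
theorem E4_lift {K : Subgroup G} (hK : K.Characteristic) {r k : ℕ} (hr : r.Prime)
    (hidx : K.index = r ^ k) (A B : Subgroup K) (hchar : A.Characteristic)
    (hAi : A.index = Nat.card B) (hcop : (Nat.card A).Coprime (Nat.card B)) {q : ℕ}
    {Q : Subgroup (A.map K.subtype)} (hQ : NSyl q Q) (hQ1 : Q ≠ ⊥) (hq : q ∣ Nat.card A)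
    (hqr : q ≠ r) : EE G := by
  refine ⟨q, Q.map (A.map K.subtype).subtype, nsyl_lift (char_trans hK hchar) hQ ?_, ?_⟩
  · rw [Subgroup.index_map_subtype, hAi, hidx, hQ.prime.dvd_mul]
    rintro (h | h)
    · exact hQ.prime.one_lt.ne' (Nat.dvd_one.mp (hcop.gcd_eq_one ▸ Nat.dvd_gcd hq h))
    · exact hqr ((Nat.prime_dvd_prime_iff_eq hQ.prime hr).mp (hQ.prime.dvd_of_dvd_pow h))
  · intro h
    apply hQ1
    rwa [Subgroup.map_eq_bot_iff_of_injective _ (Subgroup.subtype_injective _)] at h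

/-- The case of a decomposable characteristic subgroup `K` of index a power of `r`.

Proof.  `A' = A.map K.subtype`, `B' = B.map K.subtype` are characteristic in `G` (`factor_facts`,
`char_trans`), not `⊥`, not `⊤`.  `ih` gives `q`, `Q ≤ A'` with `NSyl q Q`, `Q ≠ ⊥` and `q'`,
`Q' ≤ B'` with `NSyl q' Q'`, `Q' ≠ ⊥`.  `q` divides `|A|` and `q'` divides `|B|`, so `q ≠ q'`, and one of
them is not `r`, say `q ≠ r`.  `|G : A'| = |B| r ^ k` is prime to `q`, so `nsyl_lift` applies. -/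
theorem E4 (ih : ∀ K : Subgroup G, K.Characteristic → K ≠ ⊤ → K ≠ ⊥ → EE K)
    {K : Subgroup G} (hK : K.Characteristic) {r k : ℕ} (hr : r.Prime) (hidx : K.index = r ^ k)
    (A B : Subgroup K) (hA : A.Normal) (hB : B.Normal) (hAB : A ⊔ B = ⊤)
    (hcop : (Nat.card A).Coprime (Nat.card B)) (hA1 : A ≠ ⊥) (hB1 : B ≠ ⊥) : EE G := by
  obtain ⟨hinf, hAi, hBi, hAc, hBc, -⟩ := factor_facts hA hB hAB hcop
  obtain ⟨q, Q, hQ, hQ1, hq⟩ := E4_half ih hK A B hAc hinf hA1 hB1
  obtain ⟨q', Q', hQ', hQ1', hq'⟩ := E4_half ih hK B A hBc (by rwa [inf_comm]) hB1 hA1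
  by_cases hqr : q = r
  · have hqq : q' ≠ r := by
      intro h
      rw [← hqr] at h
      rw [h] at hq'
      exact hQ.prime.one_lt.ne' (Nat.dvd_one.mp (hcop.gcd_eq_one ▸ Nat.dvd_gcd hq hq'))
    exact E4_lift hK hr hidx B A hBc hBi hcop.symm hQ' hQ1' hq' hqq
  · exact E4_lift hK hr hidx A B hAc hAi hcop hQ hQ1 hq hqr

end FPX
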