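import Pool.Agent.FPX.A8
import Pool.Agent.FPX.E3
import Pool.Agent.FPX.E4

namespace FPX

variable {G : Type} [Group G] [Finite G]

/-- THEOREM E, induction step.

Proof.  `exists_Or` gives `r`, `K` characteristic, `K ≠ ⊤`, `|G : K| = r ^ k`.  If `K = ⊥` then `G` is an
`r`-group: `Q = ⊤`.  Otherwise `II K`.  If `K` is not indecomposable: `E4`.  If `K` is a `q`-group with
`q ≠ r`: `NSyl q ⊤` in `K`, `nsyl_lift`.  If `K` is an `r`-group then so is `G`: `Q = ⊤`.  If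
`Typ p r₁ W x` with `p ≠ r`: `nsyl_lift` for `W` (`W ≠ ⊥` since `|W| = p ^ 2`).  If `p = r`: `E3`. -/
theorem E5_top {q : ℕ} (hq : q.Prime) (h : IsPGroup q G) : NSyl q (⊤ : Subgroup G) := by
  refine ⟨hq, inferInstance, h.to_subgroup ⊤, ?_⟩
  rw [Subgroup.index_top]
  exact fun h1 => hq.one_lt.ne' (Nat.dvd_one.mp h1)

theorem E5_EE [Nontrivial G] {q : ℕ} (hq : q.Prime) (h : IsPGroup q G) : EE G :=
  ⟨q, ⊤, E5_top hq h, top_ne_bot⟩

theorem E5_dvd {q r k : ℕ} (hq : q.Prime) (hr : r.Prime) (hne : q ≠ r) : ¬ q ∣ r ^ k := by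
  intro h
  exact hne ((Nat.prime_dvd_prime_iff_eq hq hr).mp (hq.dvd_of_dvd_pow h))

theorem stepE [Nontrivial G] [Group.IsSolvable G] (hF : PF G)
    (ih : ∀ K : Subgroup G, K.Characteristic → K ≠ ⊤ → K ≠ ⊥ → EE K ∧ II K) : EE G := by
  obtain ⟨r, hr, K, hKc, hKT, k, hk⟩ := exists_Or (G := G)
  by_cases hKB : K = ⊥
  · apply E5_EE hr
    rw [hKB, Subgroup.index_bot] at hk
    exact IsPGroup.of_card hk
  obtain ⟨-, hII⟩ := ih K hKc hKT hKB
  by_cases hI : Indec K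
  swap
  · unfold Indec at hI
    push Not at hI
    obtain ⟨A, B, hA, hB, hAB, hcop, hA1, hB1⟩ := hI
    exact E4 (fun K h1 h2 h3 => (ih K h1 h2 h3).1) hKc hr hk A B hA hB hAB hcop hA1 hB1
  rcases hII hI with ⟨q, hq, hqK⟩ | ⟨p, r₁, W, x, ht⟩
  · by_cases hqr : q = r
    · subst hqr
      apply E5_EE hr
      have : Fact q.Prime := ⟨hq⟩
      obtain ⟨a, ha⟩ := IsPGroup.iff_card.mp hqK
      apply IsPGroup.of_card (n := a + k)
      rw [← K.card_mul_index, ha, hk, pow_add]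
    · have h1 : NSyl q (⊤ : Subgroup K) := E5_top hq hqK
      refine ⟨q, _, nsyl_lift hKc h1 ?_, ?_⟩
      · rw [hk]
        exact E5_dvd hq hr hqr
      · rw [← MonoidHom.range_eq_map, Subgroup.range_subtype]
        exact hKB
  · have hp := ht.sit.syl.prime
    by_cases hpr : p = r
    · subst hpr
      obtain ⟨Q, hQ, hQ1⟩ := E3 hF ih hKc hk ht
      exact ⟨p, Q, hQ, hQ1⟩
    · refine ⟨p, _, nsyl_lift hKc ht.sit.syl ?_, ?_⟩
      · rw [hk]
        exact E5_dvd hp hr hpr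
      · intro h1
        have h2 := (Subgroup.map_eq_bot_iff_of_injective W K.subtype_injective).mp h1
        have h3 := ht.sit.Wcard
        rw [h2, Subgroup.card_bot] at h3
        have h4 := Nat.one_lt_pow (two_ne_zero) hp.one_lt
        omega

end FPX
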