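import Pool.Agent.FPX.E0

namespace FPX

variable {G : Type} [Group G] [Finite G]

/-- (3.2) The elements of order `r` of `C` are central in `C`.

Proof.  `c ∈ C`, `c ^ r = 1`; `u := t c` has `u ^ r = 1`, `u ∉ cen W`.  `α` with fixed points
`H = zpowers u`; `H ∩ C = 1` (`u ^ i ∈ C ≤ cen W` gives `r ∣ i` by `Sit.dvd`), so `α` has no fixed point
`≠ 1` on `C`.  For `d ∈ C`: `u d u⁻¹ = c d c⁻¹`, so `α(c d c⁻¹) = u α(d) u⁻¹ = c α(d) c⁻¹`
(`α(d) ∈ C`), i.e. `c⁻¹ α(c)` commutes with `α(d)`; so `c⁻¹ α(c) ∈ C ∩ cen C =: Z`.  `lang_fix` for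
`N = Z` gives `z ∈ Z` with `α(c z) = c z`, so `c z = 1` and `c ∈ Z`. -/
theorem q2 (hF : PF G) {p r : ℕ} {W : Subgroup G} {x : G} (h : Typ p r W x)
    {C : Subgroup G} (hC : C.Characteristic) (hCW : C ≤ cen W) {t : G} (ht : orderOf t = r)
    (htW : t ∉ cen W) (htC : ∀ c ∈ C, t * c = c * t) :
    ∀ c ∈ C, c ^ r = 1 → ∀ d ∈ C, c * d = d * c := by
  intro c hc hcr
  have htc : Commute t c := htC c hc
  obtain ⟨u, hu⟩ : ∃ u : G, u = t * c := ⟨_, rfl⟩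
  have hur : u ^ r = 1 := by
    rw [hu, htc.mul_pow, hcr, mul_one, ← ht, pow_orderOf_eq_one]
  have huW : u ∉ cen W := by
    intro h'
    apply htW
    have h2 : t = u * c⁻¹ := by rw [hu]; group
    rw [h2]
    exact (cen W).mul_mem h' ((cen W).inv_mem (hCW hc))
  obtain ⟨α, hα⟩ := hF (Subgroup.zpowers u)
  have hfixC : ∀ n ∈ C, α n = n → n = 1 := by
    intro n hn hαn
    have h1 := (hα n).1 hαn
    rw [← mem_powers_iff_mem_zpowers, Submonoid.mem_powers_iff] at h1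
    obtain ⟨k, hk⟩ := h1
    have h2 : u ^ k ∈ cen W := by rw [hk]; exact hCW hn
    obtain ⟨l, hl⟩ := h.sit.dvd huW h2
    rw [← hk, hl, pow_mul, hur, one_pow]
  have hαu : α u = u := (hα u).2 (Subgroup.mem_zpowers u)
  have hconj : ∀ d ∈ C, u * d * u⁻¹ = c * d * c⁻¹ := by
    intro d hd
    have h1 : c * d * c⁻¹ ∈ C := C.mul_mem (C.mul_mem hc hd) (C.inv_mem hc)
    have h2 := htC _ h1
    have h3 : u * d * u⁻¹ = t * (c * d * c⁻¹) * t⁻¹ := by rw [hu]; group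
    rw [h3, h2]
    group
  have hcomm : ∀ e ∈ C, e * (c⁻¹ * α c) = (c⁻¹ * α c) * e := by
    intro e he
    obtain ⟨d, hd⟩ : ∃ d, d = α⁻¹ e := ⟨_, rfl⟩
    have hdC : d ∈ C := by rw [hd]; exact char_mem hC α⁻¹ he
    have hαd : α d = e := by rw [hd]; exact MulAut.apply_inv_self G α e
    have h1 := congrArg α (hconj d hdC)
    rw [map_mul, map_mul, map_inv, map_mul, map_mul, map_inv, hαu, hαd, hconj e he] at h1
    have h2 : α c * e = c * e * c⁻¹ * α c := by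
      rw [h1]; group
    calc e * (c⁻¹ * α c) = c⁻¹ * (c * e * c⁻¹ * α c) := by group
      _ = c⁻¹ * (α c * e) := by rw [h2]
      _ = (c⁻¹ * α c) * e := by group
  have hZα : ∀ n ∈ C ⊓ cen C, α n ∈ C ⊓ cen C := by
    rintro n ⟨hn1, hn2⟩
    refine ⟨char_mem hC α hn1, Subgroup.mem_centralizer_iff.2 ?_⟩
    intro e he
    obtain ⟨d, hd⟩ : ∃ d, d = α⁻¹ e := ⟨_, rfl⟩
    have hdC : d ∈ C := by rw [hd]; exact char_mem hC α⁻¹ he
    have hαd : α d = e := by rw [hd]; exact MulAut.apply_inv_self G α e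
    rw [← hαd, ← map_mul, ← map_mul, Subgroup.mem_centralizer_iff.1 hn2 d hdC]
  have hg : c⁻¹ * α c ∈ C ⊓ cen C := by
    refine ⟨C.mul_mem (C.inv_mem hc) (char_mem hC α hc), Subgroup.mem_centralizer_iff.2 ?_⟩
    intro e he
    exact hcomm e he
  obtain ⟨n, hn, hfix⟩ := lang_fix α (C ⊓ cen C) hZα (fun n hn => hfixC n hn.1) c hg
  have h1 : c * n = 1 := hfixC _ (C.mul_mem hc hn.1) hfix
  have h2 : c = n⁻¹ := eq_inv_of_mul_eq_one_left h1
  have h3 : c ∈ cen C := by rw [h2]; exact (cen C).inv_mem hn.2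
  intro d hd
  exact (Subgroup.mem_centralizer_iff.1 h3 d hd).symm

end FPX
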