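import Pool.Agent.FPX.Defs

namespace FPX

theorem L18_smul {r : ℕ} [Fact r.Prime] {Ω : Type} [AddCommGroup Ω] [Module (ZMod r) Ω]
    (X : Submodule (ZMod r) Ω) (T : Ω → Ω)
    (h : ∀ w ∈ X, ∀ w' ∈ X, T (w + w') = T w + T w') (c : ZMod r) (w : Ω) (hw : w ∈ X) :
    T (c • w) = c • T w := by
  have h0 : T 0 = 0 := by
    have := h 0 X.zero_mem 0 X.zero_mem
    rw [add_zero] at this
    exact left_eq_add.1 this
  have hn : ∀ n : ℕ, T (n • w) = n • T w := by
    intro n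
    induction n with
    | zero => rw [zero_smul, zero_smul, h0]
    | succ n ih => rw [succ_nsmul, h _ (X.nsmul_mem hw n) _ hw, ih, succ_nsmul]
  have hc : ((c.val : ℕ) : ZMod r) = c := ZMod.natCast_zmod_val c
  rw [← hc, Nat.cast_smul_eq_nsmul, Nat.cast_smul_eq_nsmul]
  exact hn _

theorem L18_cancel {r : ℕ} [Fact r.Prime] {Ω : Type} [AddCommGroup Ω] [Module (ZMod r) Ω]
    {c : ZMod r} {v z : Ω} (h : c • v = z) {S : Submodule (ZMod r) Ω} (hz : z ∈ S) (hv : v ∉ S) :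
    c = 0 := by
  by_contra hc
  apply hv
  have : v = c⁻¹ • z := by rw [← h, smul_smul, inv_mul_cancel₀ hc, one_smul]
  rw [this]
  exact S.smul_mem _ hz

/-- if `γ` vanishes on `{u₀} × X` for a nonzero `u₀` then it is zero -/
theorem L18_A {r : ℕ} [Fact r.Prime] {Ω : Type} [AddCommGroup Ω] [Module (ZMod r) Ω]
    (U X : Submodule (ZMod r) Ω) (hUX : U ≤ X) (γ : Ω → Ω → Ω)
    (h1 : ∀ u ∈ U, ∀ u' ∈ U, ∀ w ∈ X, γ (u + u') w = γ u w + γ u' w)
    (h2 : ∀ u ∈ U, ∀ w ∈ X, ∀ w' ∈ X, γ u (w + w') = γ u w + γ u w')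
    (h3 : ∀ u ∈ U, ∀ w ∈ X, ∃ s t : ZMod r, γ u w = s • u + t • w)
    (h4 : ∀ u ∈ U, γ u u = 0) (u₀ : Ω) (hu₀ : u₀ ∈ U) (hne : u₀ ≠ 0) (h0 : ∀ w ∈ X, γ u₀ w = 0) :
    ∀ u ∈ U, ∀ w ∈ X, γ u w = 0 := by
  intro u hu w hw
  by_cases hu1 : u ∈ Submodule.span (ZMod r) {u₀}
  · obtain ⟨c, rfl⟩ := Submodule.mem_span_singleton.1 hu1
    rw [L18_smul U (fun v => γ v w) (fun v hv v' hv' => h1 v hv v' hv' w hw) c u₀ hu₀, h0 w hw,
      smul_zero]
  have hsw : γ u u₀ = 0 := by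
    have e1 := h4 (u + u₀) (U.add_mem hu hu₀)
    rw [h1 u hu u₀ hu₀ _ (hUX (U.add_mem hu hu₀)), h2 u hu u (hUX hu) u₀ (hUX hu₀),
      h0 _ (hUX (U.add_mem hu hu₀)), h4 u hu] at e1
    simpa using e1
  by_cases hw1 : w ∈ Submodule.span (ZMod r) {u₀, u}
  · obtain ⟨a, b, rfl⟩ := Submodule.mem_span_pair.1 hw1
    rw [h2 u hu _ (X.smul_mem _ (hUX hu₀)) _ (X.smul_mem _ (hUX hu)),
      L18_smul X (γ u) (h2 u hu) a u₀ (hUX hu₀), L18_smul X (γ u) (h2 u hu) b u (hUX hu), hsw,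
      h4 u hu, smul_zero, smul_zero, add_zero]
  have key : ∀ v ∈ X, v ∉ Submodule.span (ZMod r) {u₀, u} → ∃ t : ZMod r, γ u v = t • v := by
    intro v hv hv1
    obtain ⟨s, t, e⟩ := h3 u hu v hv
    obtain ⟨s', t', e'⟩ := h3 (u + u₀) (U.add_mem hu hu₀) v hv
    rw [h1 u hu u₀ hu₀ v hv, h0 v hv, add_zero, e] at e'
    have e1 : (t - t') • v = s' • u₀ + (s' - s) • u := by
      rw [sub_smul, sub_smul]
      rw [smul_add] at e'
      have : t • v = s' • u + s' • u₀ + t' • v - s • u := by rw [← e']; abel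
      rw [this]; abel
    have ht : t - t' = 0 := L18_cancel e1 (Submodule.mem_span_pair.2 ⟨s', s' - s, rfl⟩) hv1
    rw [ht, zero_smul] at e1
    have e2 : (s' - s) • u = (-s') • u₀ := by
      rw [neg_smul]
      exact (eq_neg_of_add_eq_zero_right e1.symm)
    have hs : s' - s = 0 := L18_cancel e2
      (Submodule.smul_mem _ _ (Submodule.mem_span_singleton_self u₀)) hu1
    rw [hs, zero_smul] at e2
    have hs' : s' = 0 := by
      rcases smul_eq_zero.1 e2.symm with h | h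
      · simpa using h
      · exact absurd h hne
    have hs0 : s = 0 := by
      rw [hs'] at hs
      simpa using hs
    exact ⟨t, by rw [e, hs0, zero_smul, zero_add]⟩
  obtain ⟨t, e⟩ := key w hw hw1
  have hw2 : w + u₀ ∉ Submodule.span (ZMod r) {u₀, u} := by
    intro h
    apply hw1
    have := Submodule.sub_mem _ h (Submodule.subset_span (by simp) : u₀ ∈ Submodule.span (ZMod r) {u₀, u})
    rwa [add_sub_cancel_right] at this
  obtain ⟨t', e'⟩ := key (w + u₀) (X.add_mem hw (hUX hu₀)) hw2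
  rw [h2 u hu w hw u₀ (hUX hu₀), hsw, add_zero, e] at e'
  have e1 : (t - t') • w = t' • u₀ := by
    rw [sub_smul, e', smul_add]; abel
  have ht : t - t' = 0 := L18_cancel e1
    (Submodule.smul_mem _ _ (Submodule.subset_span (by simp))) hw1
  rw [ht, zero_smul] at e1
  rcases smul_eq_zero.1 e1.symm with h | h
  · rw [h, sub_zero] at ht
    rw [e, ht, zero_smul]
  · exact absurd h hne

/-- an additive map which maps every `w` into `⟨u₀, w⟩` is scalar modulo `u₀` -/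
theorem L18_B {r : ℕ} [Fact r.Prime] {Ω : Type} [AddCommGroup Ω] [Module (ZMod r) Ω]
    (X : Submodule (ZMod r) Ω) (u₀ : Ω) (hu₀ : u₀ ∈ X) (T : Ω → Ω)
    (h2 : ∀ w ∈ X, ∀ w' ∈ X, T (w + w') = T w + T w')
    (h3 : ∀ w ∈ X, ∃ s t : ZMod r, T w = s • u₀ + t • w) (h4 : T u₀ = 0)
    (w₁ : Ω) (hw₁ : w₁ ∈ X) (hw₁' : w₁ ∉ Submodule.span (ZMod r) {u₀}) :
    ∃ l : ZMod r, ∀ w ∈ X, ∃ c : ZMod r, T w = l • w + c • u₀ := by
  obtain ⟨s₁, t₁, e₁⟩ := h3 w₁ hw₁
  refine ⟨t₁, fun w hw => ?_⟩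
  by_cases hw1 : w ∈ Submodule.span (ZMod r) {u₀, w₁}
  · obtain ⟨a, b, rfl⟩ := Submodule.mem_span_pair.1 hw1
    refine ⟨b * s₁ - t₁ * a, ?_⟩
    rw [h2 _ (X.smul_mem _ hu₀) _ (X.smul_mem _ hw₁), L18_smul X T h2 a u₀ hu₀,
      L18_smul X T h2 b w₁ hw₁, h4, e₁, smul_zero, zero_add, smul_add, smul_add, sub_smul,
      smul_smul, smul_smul, smul_smul, smul_smul, mul_comm b t₁]
    abel
  · obtain ⟨s, t, e⟩ := h3 w hw
    obtain ⟨s', t', e'⟩ := h3 (w + w₁) (X.add_mem hw hw₁)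
    rw [h2 w hw w₁ hw₁, e, e₁, smul_add] at e'
    have e1 : (t - t') • w = (s' - s - s₁) • u₀ + (t' - t₁) • w₁ := by
      rw [sub_smul, sub_smul, sub_smul, sub_smul]
      have : t • w = s' • u₀ + (t' • w + t' • w₁) - s • u₀ - (s₁ • u₀ + t₁ • w₁) := by
        rw [← e']; abel
      rw [this]; abel
    have ht : t - t' = 0 := L18_cancel e1 (Submodule.mem_span_pair.2 ⟨_, _, rfl⟩) hw1
    rw [ht, zero_smul] at e1
    have e2 : (t' - t₁) • w₁ = (-(s' - s - s₁)) • u₀ := by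
      rw [neg_smul]
      exact (eq_neg_of_add_eq_zero_right e1.symm)
    have ht' : t' - t₁ = 0 := L18_cancel e2
      (Submodule.smul_mem _ _ (Submodule.mem_span_singleton_self u₀)) hw₁'
    have : t = t₁ := by
      rw [sub_eq_zero] at ht ht'
      rw [ht, ht']
    exact ⟨s, by rw [e, this, add_comm]⟩

/-- The bilinear map lemma for `p`-central groups.

Proof.  Suppose `β ≠ 0` on `U × X`; so `U ≠ 0`.
If `X` has dimension `≤ 1` then for `u ∈ U`, `u ≠ 0`, `X = F_r u`, so `β u (c u) = c β u u = 0` (by `h2`,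
`β u` is additive on `X`, so it is `F_r`-linear; in the same way `β` is `F_r`-linear in the first
variable).  So `dim X ≥ 2`.
(1) For `0 ≠ u ∈ U` there are `l_u ∈ F_r` and a linear `f_u : X → F_r` with
`β u w = l_u w + f_u(w) u` for `w ∈ X`: modulo the line of `u` the linear map `β u` maps every `w` to a
multiple of `w` (h3), so it is a scalar `l_u` modulo `u` on `X/⟨u⟩ ≠ 0`.
`β u u = 0` gives `f_u(u) = -l_u`.
(2) `f_u` does not depend on `u`: for `k ≠ 0` compare `β (k u) w = k β u w`: for `w` not on the line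
of `u`, `l_(ku) = k l_u` and `f_(ku)(w) = f_u(w)`; then also `f_(ku)(u) = f_u(u)`.
For `u, u' ∈ U` independent compare `β (u + u') w = β u w + β u' w`: for `w ∉ ⟨u, u'⟩` the
coefficients give `f_(u+u')(w) = f_u(w) = f_u'(w)`.  On `⟨u, u'⟩`: `β u u' = -β u' u` (from
`β (u+u') (u+u') = 0`), so `f_u(u') = -l_u'` and `f_u'(u) = -l_u`, so `f_u` and `f_u'` agree on
`u` and `u'`.
(3) So `β u w = -f(u) w + f(w) u` for all `u ∈ U`, `w ∈ X`, with one linear `f : X → F_r`.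
By h5, `-f(u) a w + f(w) a u = -f(a u) a w + f(a w) a u`; for `w ∉ ⟨u⟩` this gives `f(a u) = f(u)` and
`f(a w) = f(w)`.  Fixing `0 ≠ u ∈ U` we get `f(a w) = f(w)` for all `w ∈ X` (`dim X ≥ 2`).
`a - 1` is injective on the finite `X`, so it is surjective on `X`, so `f = 0` and `β = 0`. -/
theorem beta_zero {r : ℕ} [Fact r.Prime] {Ω : Type} [AddCommGroup Ω] [Module (ZMod r) Ω]
    [Finite Ω] (U X : Submodule (ZMod r) Ω) (hUX : U ≤ X) (β : Ω → Ω → Ω)
    (h1 : ∀ u ∈ U, ∀ u' ∈ U, ∀ w ∈ X, β (u + u') w = β u w + β u' w)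
    (h2 : ∀ u ∈ U, ∀ w ∈ X, ∀ w' ∈ X, β u (w + w') = β u w + β u w')
    (h3 : ∀ u ∈ U, ∀ w ∈ X, ∃ s t : ZMod r, β u w = s • u + t • w)
    (h4 : ∀ u ∈ U, β u u = 0)
    (a : Ω ≃ₗ[ZMod r] Ω) (haU : ∀ u ∈ U, a u ∈ U) (haX : ∀ w ∈ X, a w ∈ X)
    (hafix : ∀ w ∈ X, a w = w → w = 0)
    (h5 : ∀ u ∈ U, ∀ w ∈ X, a (β u w) = β (a u) (a w)) :
    ∀ u ∈ U, ∀ w ∈ X, β u w = 0 := by
  by_cases hU : ∃ u₀ ∈ U, u₀ ≠ 0
  swap
  · push Not at hU
    intro u hu w hw
    rw [hU u hu]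
    have := h1 0 U.zero_mem 0 U.zero_mem w hw
    rw [add_zero] at this
    exact left_eq_add.1 this
  obtain ⟨u₀, hu₀, hne⟩ := hU
  by_cases hX : ∃ w₁ ∈ X, w₁ ∉ Submodule.span (ZMod r) {u₀}
  swap
  · push Not at hX
    apply L18_A U X hUX β h1 h2 h3 h4 u₀ hu₀ hne
    intro w hw
    obtain ⟨c, rfl⟩ := Submodule.mem_span_singleton.1 (hX w hw)
    rw [L18_smul X (β u₀) (h2 u₀ hu₀) c u₀ (hUX hu₀), h4 u₀ hu₀, smul_zero]
  obtain ⟨w₁, hw₁, hw₁'⟩ := hX
  obtain ⟨l, hl⟩ := L18_B X u₀ (hUX hu₀) (β u₀) (h2 u₀ hu₀) (h3 u₀ hu₀) (h4 u₀ hu₀) w₁ hw₁ hw₁'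
  choose! f hf using hl
  have hfadd : ∀ w ∈ X, ∀ w' ∈ X, f (w + w') = f w + f w' := by
    intro w hw w' hw'
    have e := h2 u₀ hu₀ w hw w' hw'
    rw [hf _ (X.add_mem hw hw'), hf w hw, hf w' hw', smul_add] at e
    have e1 : (f (w + w') - (f w + f w')) • u₀ = 0 := by
      rw [sub_smul, add_smul]
      have : f (w + w') • u₀ = l • w + f w • u₀ + (l • w' + f w' • u₀) - (l • w + l • w') := by
        rw [← e]; abel
      rw [this]; abel
    rcases smul_eq_zero.1 e1 with h | h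
    · exact sub_eq_zero.1 h
    · exact absurd h hne
  have hfu₀ : f u₀ = - l := by
    have e := hf u₀ (hUX hu₀)
    rw [h4 u₀ hu₀, ← add_smul] at e
    rcases smul_eq_zero.1 e.symm with h | h
    · exact eq_neg_of_add_eq_zero_right h
    · exact absurd h hne
  have hform : ∀ u ∈ U, ∀ w ∈ X, β u w + f u • w - f w • u = 0 := by
    apply L18_A U X hUX (fun u w => β u w + f u • w - f w • u)
    · intro u hu u' hu' w hw
      rw [h1 u hu u' hu' w hw, hfadd u (hUX hu) u' (hUX hu'), add_smul, smul_add]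
      abel
    · intro u hu w hw w' hw'
      rw [h2 u hu w hw w' hw', hfadd w hw w' hw', add_smul, smul_add]
      abel
    · intro u hu w hw
      obtain ⟨s, t, e⟩ := h3 u hu w hw
      refine ⟨s - f w, t + f u, ?_⟩
      rw [e, sub_smul, add_smul]
      abel
    · intro u hu
      rw [h4 u hu]
      abel
    · exact hu₀
    · exact hne
    · intro w hw
      rw [hf w hw, hfu₀, neg_smul]
      abel
  have hβ : ∀ u ∈ U, ∀ w ∈ X, β u w = f w • u - f u • w := by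
    intro u hu w hw
    have := hform u hu w hw
    rw [sub_eq_zero] at this
    rw [← this]; abel
  have hau₀ : a u₀ ≠ 0 := by
    intro h
    exact hne (a.map_eq_zero_iff.1 h)
  have hcomp : ∀ w ∈ X, w ∉ Submodule.span (ZMod r) {u₀} → f (a w) = f w ∧ f (a u₀) = f u₀ := by
    intro w hw hw'
    have e := h5 u₀ hu₀ w hw
    rw [hβ u₀ hu₀ w hw, hβ (a u₀) (haU u₀ hu₀) (a w) (haX w hw), map_sub, map_smul, map_smul] at e
    have e1 : (f (a u₀) - f u₀) • a w = (f (a w) - f w) • a u₀ := by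
      rw [sub_smul, sub_smul]
      have : f w • a u₀ = f (a w) • a u₀ - f (a u₀) • a w + f u₀ • a w := by rw [← e]; abel
      rw [this]; abel
    have hnot : a w ∉ Submodule.span (ZMod r) {a u₀} := by
      intro h
      obtain ⟨c, hc⟩ := Submodule.mem_span_singleton.1 h
      apply hw'
      rw [← map_smul] at hc
      exact Submodule.mem_span_singleton.2 ⟨c, a.injective hc⟩
    have e2 : f (a u₀) - f u₀ = 0 := L18_cancel e1
      (Submodule.smul_mem _ _ (Submodule.mem_span_singleton_self _)) hnot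
    rw [e2, zero_smul] at e1
    rcases smul_eq_zero.1 e1.symm with h | h
    · exact ⟨sub_eq_zero.1 h, sub_eq_zero.1 e2⟩
    · exact absurd h hau₀
  have hfa : ∀ w ∈ X, f (a w) = f w := by
    intro w hw
    by_cases hw' : w ∈ Submodule.span (ZMod r) {u₀}
    · have hn : w + w₁ ∉ Submodule.span (ZMod r) {u₀} := by
        intro h
        apply hw₁'
        have := Submodule.sub_mem _ h hw'
        rwa [add_sub_cancel_left] at this
      have e1 := (hcomp (w + w₁) (X.add_mem hw hw₁) hn).1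
      have e2 := (hcomp w₁ hw₁ hw₁').1
      rw [map_add, hfadd _ (haX w hw) _ (haX w₁ hw₁), hfadd w hw w₁ hw₁, e2] at e1
      exact add_right_cancel e1
    · exact (hcomp w hw hw').1
  have hf0 : ∀ w ∈ X, f w = 0 := by
    let g : X → X := fun w => ⟨a w - w, X.sub_mem (haX w w.2) w.2⟩
    have hg : Function.Injective g := by
      intro w w' h
      have h' : a (w : Ω) - w = a (w' : Ω) - w' := congrArg Subtype.val h
      have h'' : a ((w : Ω) - w') = (w : Ω) - w' := by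
        rw [map_sub]
        have : a (w : Ω) = a (w' : Ω) - w' + w := by rw [← h']; abel
        rw [this]; abel
      have := hafix _ (X.sub_mem w.2 w'.2) h''
      exact Subtype.ext (sub_eq_zero.1 this)
    have hsur : Function.Surjective g := Finite.surjective_of_injective hg
    intro w hw
    obtain ⟨v, hv⟩ := hsur ⟨w, hw⟩
    have hv' : a (v : Ω) - v = w := congrArg Subtype.val hv
    have e := hfadd w hw v v.2
    have e2 : w + (v : Ω) = a v := by rw [← hv']; abel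
    rw [e2, hfa v v.2] at e
    exact (right_eq_add.1 e)
  intro u hu w hw
  rw [hβ u hu w hw, hf0 w hw, hf0 u (hUX hu), zero_smul, zero_smul, sub_zero]

end FPX
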