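import Pool.Agent.FPX.Q8
import Pool.Agent.FPX.L18
import Pool.Agent.FPX.A4

namespace FPX

theorem Q9_zero {Q : Type} [Group Q] {r : ℕ} {Ω : Subgroup Q} {V : Type} [AddCommGroup V]
    [Module (ZMod r) V] {f : V → Q} {ρ : MulAut Q →* (V ≃ₗ[ZMod r] V)} (hm : Mod r Ω V f ρ) :
    f 0 = 1 := by
  have h := hm.add 0 0
  rw [add_zero] at h
  exact left_eq_mul.1 h

/-- PROPOSITION (3.3).  A finite `r`-group, `r` odd, with (F) in which all elements of order `r` are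
central is commutative.

Proof.  Suppose not.  `Ω = {x : x ^ r = 1}` is a characteristic central subgroup; `exists_mod` gives
`V, f, ρ`.  `pc_ij` gives `i ≥ j`; `pc_S` gives `U = S i`, `X = S j`, `U ≤ X` (an `r^i`-th power is an
`r^j`-th power); `pc_beta` gives `β`.  Let `α₀` have no fixed point `≠ 1` and `a = ρ α₀`.  Apply
`beta_zero`: h1, h2 by `pc_bilin`, h3 by `pc_span`; h4: for `u ∈ U`, `d ^ r ^ i = f u`,
`c := d ^ (r ^ (i - j))` has `c ^ r ^ j = f u` and commutes with `d`, so `β u u = 0`; `a U = U`,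
`a X = X`; h5: `α₀ [c, d] = [α₀ c, α₀ d]` and `(α₀ d) ^ r ^ i = f (a u)`.  So `β = 0` on `U × X`.  But
`pc_ij` gives `d, c` with `d ^ r ^ (i+1) = 1 = c ^ r ^ (j+1)`, `c d ≠ d c`; `d ^ r ^ i ∈ Ω` is
`f u`, `c ^ r ^ j = f w`, and `f (β u w) = [c, d] ≠ 1`, contradiction. -/
theorem pc_comm {Q : Type} [Group Q] [Finite Q] {r : ℕ} (hr : r.Prime) (h2 : r ≠ 2)
    (hQ : IsPGroup r Q) (hc : PCen r Q) (hF : PF Q) : ∀ a b : Q, a * b = b * a := by
  by_contra hcon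
  push Not at hcon
  have : Fact r.Prime := ⟨hr⟩
  obtain ⟨Ω, hΩ⟩ : ∃ Ω : Subgroup Q, ∀ x, x ∈ Ω ↔ x ^ r = 1 := by
    refine ⟨{ carrier := {x | x ^ r = 1}
              mul_mem' := fun {a b} ha hb => ?_
              one_mem' := one_pow r
              inv_mem' := fun {a} ha => ?_ }, fun x => Iff.rfl⟩
    · have ha' : a ^ r = 1 := ha
      have hb' : b ^ r = 1 := hb
      have h1 : Commute a b := hc a ha' b
      show (a * b) ^ r = 1
      rw [h1.mul_pow, ha', hb', one_mul]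
    · have ha' : a ^ r = 1 := ha
      show a⁻¹ ^ r = 1
      rw [inv_pow, ha', inv_one]
  have hΩc : Ω.Characteristic := by
    apply char_of_forall
    intro α g hg
    rw [hΩ] at hg ⊢
    rw [← map_pow, hg, map_one]
  obtain ⟨V, _, _, _, f, ρ, hm⟩ := exists_mod r Ω hΩc (fun a ha b _ => hc a ((hΩ a).1 ha) b)
    (fun a ha => (hΩ a).1 ha)
  have hf0 := Q9_zero hm
  obtain ⟨i, j, hji, h1, h3, d₁, c₁, hd₁, hc₁, hne⟩ := pc_ij hr hQ hcon
  obtain ⟨U, hU⟩ := pc_S h2 hQ hc hΩ hm i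
  obtain ⟨X, hX⟩ := pc_S h2 hQ hc hΩ hm j
  have hij : r ^ (i - j) * r ^ j = r ^ i := by
    rw [← pow_add, Nat.sub_add_cancel hji]
  have hpow : ∀ d : Q, (d ^ r ^ (i - j)) ^ r ^ j = d ^ r ^ i := by
    intro d
    rw [← pow_mul, hij]
  have hUX : U ≤ X := by
    intro v hv
    rw [hU] at hv
    obtain ⟨d, hd⟩ := hv
    rw [hX]
    exact ⟨d ^ r ^ (i - j), by rw [hpow, hd]⟩
  obtain ⟨β, hβ⟩ := pc_beta h2 hQ hc hΩ hm h1 h3
  obtain ⟨hb1, hb2⟩ := pc_bilin h2 hQ hc hΩ hm h1 hβ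
  obtain ⟨α₀, hα₀⟩ := hF ⊥
  have hact : ∀ (n : ℕ) (v : V) (d : Q), d ^ n = f v → (α₀ d) ^ n = f (ρ α₀ v) := by
    intro n v d hd
    rw [← map_pow, hd, hm.act]
  have key := beta_zero U X hUX β
    (fun u hu u' hu' w hw => hb1 u u' w ((hU u).1 hu) ((hU u').1 hu') ((hX w).1 hw))
    (fun u hu w hw w' hw' => hb2 u w w' ((hU u).1 hu) ((hX w).1 hw) ((hX w').1 hw'))
    (fun u hu w hw => pc_span hF hc hQ hΩ hm hβ u w ((hU u).1 hu) ((hX w).1 hw))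
    (by
      intro u hu
      obtain ⟨d, hd⟩ := (hU u).1 hu
      apply hm.inj
      rw [hf0, ← hβ d (d ^ r ^ (i - j)) u u hd (by rw [hpow, hd])]
      have h := (Commute.pow_self d (r ^ (i - j))).eq
      rw [h]
      group)
    (ρ α₀)
    (by
      intro u hu
      obtain ⟨d, hd⟩ := (hU u).1 hu
      exact (hU _).2 ⟨α₀ d, hact _ _ _ hd⟩)
    (by
      intro w hw
      obtain ⟨d, hd⟩ := (hX w).1 hw
      exact (hX _).2 ⟨α₀ d, hact _ _ _ hd⟩)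
    (by
      intro w _ hw
      have h := hm.act α₀ w
      rw [hw] at h
      have h' := (hα₀ _).1 h
      rw [Subgroup.mem_bot] at h'
      apply hm.inj
      rw [h', hf0])
    (by
      intro u hu w hw
      obtain ⟨d, hd⟩ := (hU u).1 hu
      obtain ⟨c, hcw⟩ := (hX w).1 hw
      apply hm.inj
      rw [← hm.act, ← hβ d c u w hd hcw, ← hβ (α₀ d) (α₀ c) _ _ (hact _ _ _ hd) (hact _ _ _ hcw)]
      rw [map_mul, map_mul, map_mul, map_inv, map_inv])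
  have hd₁Ω : d₁ ^ r ^ i ∈ Ω := by
    rw [hΩ, ← pow_mul, ← pow_succ]
    exact hd₁
  have hc₁Ω : c₁ ^ r ^ j ∈ Ω := by
    rw [hΩ, ← pow_mul, ← pow_succ]
    exact hc₁
  obtain ⟨u, hu⟩ := (hm.mem _).1 hd₁Ω
  obtain ⟨w, hw⟩ := (hm.mem _).1 hc₁Ω
  have hz := key u ((hU u).2 ⟨d₁, hu.symm⟩) w ((hX w).2 ⟨c₁, hw.symm⟩)
  have hfin := hβ d₁ c₁ u w hu.symm hw.symm
  rw [hz, hf0] at hfin
  apply hne
  calc c₁ * d₁ = (c₁ * d₁ * c₁⁻¹ * d₁⁻¹) * (d₁ * c₁) := by group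
    _ = d₁ * c₁ := by rw [hfin, one_mul]

end FPX
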