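import Pool.Agent.FPX.Q2
import Pool.Agent.FPX.Q3
import Pool.Agent.FPX.Q9

namespace FPX

variable {G : Type} [Group G] [Finite G]

/-- `⟨t⟩ cen W = G` -/
theorem Q10_gen {p r : ℕ} {P W : Subgroup G} {x t : G} (h : Sit p r P W x) (ht : t ∉ cen W)
    (g : G) : ∃ n : ℕ, ∃ d ∈ cen W, g = t ^ n * d := by
  have hN := h.cen_normal
  have h1 : Subgroup.zpowers t ⊔ cen W = ⊤ := by
    have h2 : (Subgroup.zpowers t ⊔ cen W).index ∣ (cen W).index :=
      Subgroup.index_dvd_of_le le_sup_right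
    rw [h.Didx] at h2
    rcases (Nat.dvd_prime h.rprime).1 h2 with h3 | h3
    · exact Subgroup.index_eq_one.1 h3
    · exfalso
      have h4 : cen W = Subgroup.zpowers t ⊔ cen W := by
        by_contra hne
        have h5 := Subgroup.index_strictAnti
          (lt_of_le_of_ne (le_sup_right : cen W ≤ Subgroup.zpowers t ⊔ cen W) hne)
        rw [h.Didx, h3] at h5
        exact lt_irrefl _ h5
      exact ht (by rw [h4]; exact Subgroup.mem_sup_left (Subgroup.mem_zpowers t))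
  have h2 : g ∈ Subgroup.zpowers t ⊔ cen W := by rw [h1]; trivial
  obtain ⟨y, hy, d, hd, hyd⟩ := Subgroup.mem_sup_of_normal_right.1 h2
  obtain ⟨n, hn⟩ := (isOfFinOrder_of_finite t).mem_powers_iff_mem_zpowers.2 hy
  refine ⟨n, d, hd, ?_⟩
  rw [← hyd, ← hn]

theorem Q10_lin {p : ℕ} {V : Type} [AddCommGroup V] [Module (ZMod p) V] (X : V ≃ₗ[ZMod p] V)
    {τ : ZMod p} (h : ∀ v, X v + X⁻¹ v = τ • v) (n : ℕ) :
    ∃ c : ZMod p, ∀ v, (X ^ n) v + ((X ^ n)⁻¹) v = c • v := by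
  have key : ∀ n : ℕ, (∃ c : ZMod p, ∀ v, (X ^ n) v + ((X ^ n)⁻¹) v = c • v) ∧
      (∃ c : ZMod p, ∀ v, (X ^ (n + 1)) v + ((X ^ (n + 1))⁻¹) v = c • v) := by
    intro n
    induction n with
    | zero =>
      refine ⟨⟨2, fun v => ?_⟩, ⟨τ, fun v => ?_⟩⟩
      · rw [pow_zero, inv_one, two_smul]
        rfl
      · rw [zero_add, pow_one]
        exact h v
    | succ n ih =>
      obtain ⟨⟨c, hc⟩, ⟨c', hc'⟩⟩ := ih
      refine ⟨⟨c', hc'⟩, ⟨c' * τ - c, fun v => ?_⟩⟩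
      have e1 := hc' (X v + X⁻¹ v)
      rw [h v] at e1
      have e2 : (X ^ (n + 1)) (X v + X⁻¹ v) = (X ^ (n + 1 + 1)) v + (X ^ n) v := by
        rw [map_add, ← LinearEquiv.mul_apply, ← LinearEquiv.mul_apply, ← pow_succ]
        congr 2
        rw [pow_succ, mul_inv_cancel_right]
      have e3 : ((X ^ (n + 1))⁻¹) (X v + X⁻¹ v) = ((X ^ n)⁻¹) v + ((X ^ (n + 1 + 1))⁻¹) v := by
        rw [map_add, ← LinearEquiv.mul_apply, ← LinearEquiv.mul_apply]
        congr 2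
        · rw [pow_succ', mul_inv_rev, inv_mul_cancel_right]
        · rw [pow_succ' X (n + 1), mul_inv_rev]
      rw [h v] at e2 e3
      rw [e2, e3, smul_smul] at e1
      rw [sub_smul, ← e1, ← hc v]
      abel
  exact (key n).1

theorem Q10_smul {p : ℕ} {W : Subgroup G} {V : Type} [AddCommGroup V] [Module (ZMod p) V]
    {f : V → G} {ρ : MulAut G →* (V ≃ₗ[ZMod p] V)} (hm : Mod p W V f ρ) (n : ℕ) (v : V) :
    f (n • v) = f v ^ n := by
  have h0 : f 0 = 1 := by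
    have h1 := hm.add 0 0
    rw [add_zero] at h1
    exact (mul_eq_left.1 h1.symm)
  induction n with
  | zero => rw [zero_smul, pow_zero, h0]
  | succ n ih => rw [add_smul, one_smul, hm.add, ih, pow_succ]

/-- (3.4) Groups of type (ii) with (F) are blocks `(W : ⟨t⟩) × A`.

Proof.  `C` from `q1a`, `t` from `q1`.  `C` has (F) (`pf_char`) and is commutative by `q2` and
`pc_comm`.  Take `A = C`.  `tfix`: `t ∉ cen W`, so a power of `t` acts on `W` as `x`
(`Sit.exists_pow`, `r` prime).  `tau`: `t` acts on `W` as `x ^ i`; `x + x⁻¹ = τ` implies that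
`x ^ i + x ^ (-i)` is a scalar (recursion `s_(i+1) = τ s_i - s_(i-1)`); it is convenient to use the
linear model (`exists_ctx`).  `ns`: by `Ctx.ns`, `Plane.exists_ni` there is `w` on no `x`-invariant
line, and `x` is a power of `t` modulo `cen W`.  `top`: `G = ⟨t⟩ cen W = W ⟨t⟩ C`.  `inf`:
`w t ^ i a = 1` gives `t ^ i ∈ cen W`, `r ∣ i` (`Sit.dvd`), `t ^ i = 1`, `w a = 1`,
`w = a = 1`. -/
theorem exists_blk (hF : PF G) {p r : ℕ} {W : Subgroup G} {x : G} (h : Typ p r W x) :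
    ∃ (A : Subgroup G) (t : G), Blk p r W A t := by
  obtain ⟨C, hC, hCr, hCW, hCW', hd⟩ := q1a h
  obtain ⟨t, ht, htW, htC⟩ := q1 hF h hC hCr hCW hCW' hd
  have hq2 := q2 hF h hC hCW ht htW htC
  have hs := h.sit
  have hWn : W.Normal := hs.syl.normal
  have hpp : p.Prime := hs.syl.prime
  haveI : Fact p.Prime := ⟨hpp⟩
  have hWc : W ≤ cen W := fun a ha => ((hs.Wmem a).1 ha).2.1
  have hcomm : ∀ d ∈ cen W, ∀ w ∈ W, d * w = w * d := fun d hd w hw =>
    (Subgroup.mem_centralizer_iff.1 hd w hw).symm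
  have hCcomm : ∀ a b : C, a * b = b * a := by
    apply pc_comm hs.rprime hs.r2 hCr _ (pf_char hC hF)
    intro a ha b
    apply Subtype.ext
    apply hq2 a a.2 _ b b.2
    have h1 := congrArg Subtype.val ha
    simpa using h1
  obtain ⟨n, d', hd', hxt⟩ := Q10_gen hs htW x
  obtain ⟨V, iA, iM, iF, f, ρ, X, hctx⟩ := exists_ctx hs
  refine ⟨C, t, ?_⟩
  refine
    { pprime := hpp
      p5 := hs.p5
      rprime := hs.rprime
      r2 := hs.r2
      rp := hs.rp
      Wn := hWn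
      Wcomm := fun a ha b hb => hcomm a (hWc ha) b hb
      Wexp := fun a ha => ((hs.Wmem a).1 ha).2.2
      Wcard := hs.Wcard
      tord := ht
      tfix := ?_
      tau := ?_
      ns := ?_
      Acomm := ?_
      AW := fun a ha w hw => hcomm a (hCW ha) w hw
      At := fun a ha => (htC a ha).symm
      Apg := hCr
      top := ?_
      inf := ?_ }
  · intro w hw htw
    apply hs.xfix w hw
    have h1 : t ^ n * w = w * t ^ n := (Commute.pow_left (show Commute t w from htw) n)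
    rw [hxt, mul_assoc, hcomm d' hd' w hw, ← mul_assoc, h1, mul_assoc]
  · obtain ⟨i, d, hd, hti⟩ := hs.exists_pow t
    obtain ⟨τ, hτ⟩ := hctx.pl.Xtau
    obtain ⟨c, hc⟩ := Q10_lin X hτ i
    refine ⟨c.val, fun w hw => ?_⟩
    obtain ⟨v, rfl⟩ := (hctx.mod.mem w).1 hw
    have e1 : t * f v * t⁻¹ = f ((X ^ i) v) := by
      have h1 := hctx.mod.act (MulAut.conj (x ^ i)) v
      rw [map_pow, map_pow, ← hctx.hX, ← map_pow, MulAut.conj_apply] at h1
      rw [← h1, hti]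
      calc x ^ i * d * f v * (x ^ i * d)⁻¹ = x ^ i * (d * f v) * d⁻¹ * (x ^ i)⁻¹ := by group
        _ = x ^ i * (f v * d) * d⁻¹ * (x ^ i)⁻¹ := by rw [hcomm d hd _ hw]
        _ = _ := by group
    have e2 : t⁻¹ * f v * t = f (((X ^ i)⁻¹) v) := by
      have h1 := hctx.mod.act (MulAut.conj (x ^ i)⁻¹) v
      rw [map_inv, map_inv, map_pow, map_pow, ← hctx.hX, ← map_pow, ← map_inv, MulAut.conj_apply,
        inv_inv] at h1
      have h2 : (x ^ i)⁻¹ * f v * x ^ i ∈ W := by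
        rw [h1]
        exact (hctx.mod.mem _).2 ⟨_, rfl⟩
      rw [← h1, hti]
      calc (x ^ i * d)⁻¹ * f v * (x ^ i * d) = d⁻¹ * (((x ^ i)⁻¹ * f v * x ^ i) * d) := by group
        _ = d⁻¹ * (d * ((x ^ i)⁻¹ * f v * x ^ i)) := by rw [hcomm d hd _ h2]
        _ = _ := by group
    rw [e1, e2, ← hctx.mod.add, hc, ← Q10_smul hctx.mod]
    congr 1
    rw [← Nat.cast_smul_eq_nsmul (ZMod p), ZMod.natCast_val, ZMod.cast_id]
  · obtain ⟨v, hv⟩ := hctx.pl.exists_ni (hctx.ns hF)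
    refine ⟨f v, (hctx.mod.mem _).2 ⟨v, rfl⟩, fun i hi => ?_⟩
    have hfv : f v ∈ W := (hctx.mod.mem _).2 ⟨v, rfl⟩
    have key : ∀ m : ℕ, t ^ m * f v * (t ^ m)⁻¹ = f v ^ (i ^ m) := by
      intro m
      induction m with
      | zero => simp
      | succ m ih =>
        calc t ^ (m + 1) * f v * (t ^ (m + 1))⁻¹ = t * (t ^ m * f v * (t ^ m)⁻¹) * t⁻¹ := by
              rw [pow_succ']; group
          _ = t * f v ^ (i ^ m) * t⁻¹ := by rw [ih]
          _ = (t * f v * t⁻¹) ^ (i ^ m) := conj_pow.symm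
          _ = f v ^ (i ^ (m + 1)) := by rw [hi, ← pow_mul, ← pow_succ']
    have h1 := hctx.mod.act (MulAut.conj x) v
    rw [← hctx.hX, MulAut.conj_apply] at h1
    have h2 : x * f v * x⁻¹ = f v ^ (i ^ n) := by
      rw [← key n, hxt]
      calc t ^ n * d' * f v * (t ^ n * d')⁻¹ = t ^ n * (d' * f v) * d'⁻¹ * (t ^ n)⁻¹ := by group
        _ = t ^ n * (f v * d') * d'⁻¹ * (t ^ n)⁻¹ := by rw [hcomm d' hd' _ hfv]
        _ = _ := by group
    rw [h1, ← Q10_smul hctx.mod] at h2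
    have h3 := hctx.mod.inj h2
    apply hv ((i ^ n : ℕ) : ZMod p)
    rw [h3, Nat.cast_smul_eq_nsmul]
  · intro a ha b hb
    exact congrArg Subtype.val (hCcomm ⟨a, ha⟩ ⟨b, hb⟩)
  · intro g
    obtain ⟨i, d, hdW, hg⟩ := Q10_gen hs htW g
    obtain ⟨w, hw, c, hc, hwc⟩ := hd d hdW
    refine ⟨t ^ i * w * (t ^ i)⁻¹, hWn.conj_mem w hw _, i, c, hc, ?_⟩
    rw [hg, hwc]
    group
  · intro w hw i a ha hwa
    have h1 : t ^ i = w⁻¹ * a⁻¹ := by
      calc t ^ i = w⁻¹ * (w * t ^ i * a) * a⁻¹ := by group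
        _ = _ := by rw [hwa, mul_one]
    have h2 : t ^ i ∈ cen W := by
      rw [h1]
      exact (cen W).mul_mem ((cen W).inv_mem (hWc hw)) ((cen W).inv_mem (hCW ha))
    have h3 : t ^ i = 1 := by
      rw [← orderOf_dvd_iff_pow_eq_one, ht]
      exact hs.dvd htW h2
    have h4 : a = w⁻¹ := by
      rw [h3, mul_one] at hwa
      exact eq_inv_of_mul_eq_one_right hwa
    have h5 : a ∈ C ⊓ W := ⟨ha, by rw [h4]; exact W.inv_mem hw⟩
    rw [hCW'] at h5
    have h6 : a = 1 := h5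
    refine ⟨?_, h3, h6⟩
    rw [h6] at h4
    exact inv_eq_one.1 h4.symm

end FPX
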