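import Pool.Agent.FPX.Q11

namespace FPX

variable {G : Type} [Group G] [Finite G]

/-- The isomorphism with the external form.

Proof.  With `M, e` from `blk_coord`: the map `((v, M ^ i), a) ↦ e v * t ^ i * a` from
`AffSL p M × A` to `G` is well defined (`orderOf M = orderOf t = r`), a homomorphism
(`t e(v) t⁻¹ = e (M v)`, `A` commutes with `W`, `t`, `A`), injective (`inf`) and surjective
(`top`). -/
theorem blk_iso {p r : ℕ} {W A : Subgroup G} {t : G} (h : Blk p r W A t) :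
    ∃ (M : Matrix.SpecialLinearGroup (Fin 2) (ZMod p)), orderOf M = r ∧
      Nonempty (G ≃* AffSL p M × A) := by
  obtain ⟨M, e, he, hmem, hconj, hM⟩ := blk_coord h
  refine ⟨M, hM, ?_⟩
  obtain ⟨gen, hgv⟩ : ∃ gen : Subgroup.zpowers M, (gen : Matrix.SpecialLinearGroup (Fin 2) (ZMod p)) = M :=
    ⟨⟨M, Subgroup.mem_zpowers M⟩, rfl⟩
  have hgen : ∀ x : Subgroup.zpowers M, x ∈ Subgroup.zpowers gen := by
    intro x
    obtain ⟨i, hi⟩ := Subgroup.mem_zpowers_iff.1 x.2
    refine Subgroup.mem_zpowers_iff.2 ⟨i, Subtype.ext ?_⟩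
    rw [Subgroup.coe_zpow, hgv, hi]
  have hordg : orderOf gen = r := by
    rw [← Subgroup.orderOf_coe, hgv, hM]
  have hord : orderOf t ∣ orderOf gen := by
    rw [hordg, h.tord]
  have hrpos : 0 < r := h.rprime.pos
  have hpow : ∀ x : Subgroup.zpowers M, ∃ n : ℕ, x = gen ^ n := by
    intro x
    have hf : IsOfFinOrder gen := by
      rw [← orderOf_pos_iff, hordg]
      exact hrpos
    obtain ⟨n, hn⟩ := (Submonoid.mem_powers_iff _ _).1 (hf.mem_powers_iff_mem_zpowers.2 (hgen x))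
    exact ⟨n, hn.symm⟩
  obtain ⟨ψ, hψ1⟩ : ∃ ψ : Subgroup.zpowers M →* G, ψ gen = t :=
    ⟨monoidHomOfForallMemZpowers hgen hord, monoidHomOfForallMemZpowers_apply_gen hgen hord⟩
  have hψ : ∀ n : ℕ, ψ (gen ^ n) = t ^ n := by
    intro n
    rw [map_pow, hψ1]
  have hconjn : ∀ (n : ℕ) v, t ^ n * e v * (t ^ n)⁻¹ = e (slAct p (M ^ n) v) := by
    intro n
    induction n with
    | zero =>
      intro v
      rw [pow_zero, pow_zero, map_one, one_mul, inv_one, mul_one]
      rfl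
    | succ n ih =>
      intro v
      have e1 : t ^ (n + 1) * e v * (t ^ (n + 1))⁻¹ = t * (t ^ n * e v * (t ^ n)⁻¹) * t⁻¹ := by
        rw [pow_succ']; group
      rw [e1, ih, hconj, pow_succ', map_mul]
      rfl
  let φ : Subgroup.zpowers M →* MulAut (Multiplicative (Fin 2 → ZMod p)) :=
    (slAct p).comp (Subgroup.zpowers M).subtype
  have hlift : ∀ g : Subgroup.zpowers M, e.comp (MulEquiv.toMonoidHom (φ g)) =
      (MulEquiv.toMonoidHom (MulAut.conj (ψ g))).comp e := by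
    intro g
    obtain ⟨n, rfl⟩ := hpow g
    refine MonoidHom.ext fun v => ?_
    have e1 : (e.comp (MulEquiv.toMonoidHom (φ (gen ^ n)))) v =
        e (slAct p (((gen ^ n : Subgroup.zpowers M) :
          Matrix.SpecialLinearGroup (Fin 2) (ZMod p))) v) := rfl
    have e2 : ((MulEquiv.toMonoidHom (MulAut.conj (ψ (gen ^ n)))).comp e) v =
        ψ (gen ^ n) * e v * (ψ (gen ^ n))⁻¹ := rfl
    rw [e1, e2, hψ, hconjn, Subgroup.coe_pow, hgv]
  let F : AffSL p M →* G := SemidirectProduct.lift e ψ hlift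
  have hF : ∀ x : AffSL p M, F x = e x.left * ψ x.right := fun x => rfl
  have hcomm : ∀ (x : AffSL p M) (a : A), Commute (F x) (A.subtype a) := by
    intro x a
    obtain ⟨n, hn⟩ := hpow x.right
    have h1 : Commute (a : G) (e x.left) := h.AW a a.2 _ ((hmem _).2 ⟨_, rfl⟩)
    have h2 : Commute (a : G) t := h.At a a.2
    have h3 : Commute (a : G) (F x) := by
      rw [hF, hn, hψ]
      exact h1.mul_right (h2.pow_right n)
    exact h3.symm
  let Φ : AffSL p M × A →* G := F.noncommCoprod A.subtype hcomm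
  have hΦ : ∀ y : AffSL p M × A, Φ y = e y.1.left * ψ y.1.right * (y.2 : G) := fun y => rfl
  have hinj : Function.Injective Φ := by
    rw [injective_iff_map_eq_one]
    rintro ⟨⟨v, g⟩, a⟩ hy
    rw [hΦ] at hy
    obtain ⟨n, hn⟩ := hpow g
    have hy' : e v * t ^ n * (a : G) = 1 := by
      have e1 : ψ g = t ^ n := by rw [hn, hψ]
      rw [← e1]
      exact hy
    obtain ⟨h1, h2, h3⟩ := h.inf (e v) ((hmem _).2 ⟨_, rfl⟩) n a a.2 hy'
    have hv : v = 1 := he (by rw [h1, map_one])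
    have hg : g = 1 := by
      have e1 : orderOf gen ∣ n := by
        rw [hordg, ← h.tord]
        exact orderOf_dvd_of_pow_eq_one h2
      rw [hn]
      exact orderOf_dvd_iff_pow_eq_one.1 e1
    have ha : a = 1 := Subtype.ext h3
    rw [hv, hg, ha]
    rfl
  have hsurj : Function.Surjective Φ := by
    intro g
    obtain ⟨w, hw, i, a, ha, rfl⟩ := h.top g
    obtain ⟨v, rfl⟩ := (hmem w).1 hw
    refine ⟨(⟨v, gen ^ i⟩, ⟨a, ha⟩), ?_⟩
    rw [hΦ]
    show e v * ψ (gen ^ i) * a = e v * t ^ i * a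
    rw [hψ]
  exact ⟨(MulEquiv.ofBijective Φ ⟨hinj, hsurj⟩).symm⟩

end FPX
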