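import Pool.Agent.FPX.I7
import Pool.Agent.FPX.Q10
import Pool.Agent.FPX.Q12
import Pool.Agent.FPX.Defs3

namespace FPX

/-- Indecomposable groups with (F) are blocks.

Proof.  `EI` gives `II G`.  A `q`-group is a block of the first kind.  `Typ p r W x`: `exists_blk`,
`blk_iso` (the subgroup `A` is a `CommGroup` by `Acomm`, and an `r`-group). -/
theorem pf_block {G : Type} [Group G] [Finite G] [Nontrivial G] [Group.IsSolvable G]
    (hF : PF G) (hI : Indec G) : Block G := by
  rcases (EI (Nat.card G) G le_rfl hF).2 hI with ⟨q, hq, hp⟩ | ⟨p, r, W, x, h⟩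
  · exact Or.inl ⟨q, hq, hp, hF⟩
  · right
    obtain ⟨A, t, hb⟩ := exists_blk hF h
    obtain ⟨M, hM, ⟨e⟩⟩ := blk_iso hb
    let iA : CommGroup A :=
      { (inferInstance : Group A) with
        mul_comm := fun a b => Subtype.ext (hb.Acomm a a.2 b b.2) }
    exact ⟨p, r, M, A, iA, hb.pprime, hb.p5, hb.rprime, hb.r2, hb.rp, hM, inferInstance, hb.Apg,
      ⟨e⟩⟩

end FPX
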