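import Pool.Agent.FPX.Defs3

namespace FPX

/-- the instance on the sum family -/
@[reducible] def F2_inst {ι₁ ι₂ : Type} {B₁ : ι₁ → Type} {B₂ : ι₂ → Type} (g₁ : ∀ i, Group (B₁ i))
    (g₂ : ∀ i, Group (B₂ i)) : ∀ k : ι₁ ⊕ ι₂, Group (Sum.elim B₁ B₂ k)
  | Sum.inl i => g₁ i
  | Sum.inr i => g₂ i

theorem F2_equiv {ι₁ ι₂ : Type} {B₁ : ι₁ → Type} {B₂ : ι₂ → Type} [g₁ : ∀ i, Group (B₁ i)]
    [g₂ : ∀ i, Group (B₂ i)] :
    letI := F2_inst g₁ g₂
    Nonempty (((∀ i, B₁ i) × (∀ j, B₂ j)) ≃* ∀ k, Sum.elim B₁ B₂ k) := by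
  letI := F2_inst g₁ g₂
  refine ⟨{ toFun := fun p k => match k with
              | Sum.inl i => p.1 i
              | Sum.inr i => p.2 i
            invFun := fun f => (fun i => f (Sum.inl i), fun j => f (Sum.inr j))
            left_inv := fun p => rfl
            right_inv := fun f => ?_
            map_mul' := fun p q => ?_ }⟩
  · funext k
    rcases k with i | i <;> rfl
  · funext k
    rcases k with i | i <;> rfl

theorem F2_dvd {ι : Type} [Finite ι] {B : ι → Type} [∀ i, Group (B i)] {A : Type} [Group A]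
    (e : A ≃* ∀ i, B i) (i : ι) : Nat.card (B i) ∣ Nat.card A := by
  classical
  haveI := Fintype.ofFinite ι
  rw [Nat.card_congr e.toEquiv, Nat.card_pi]
  exact Finset.dvd_prod_of_mem _ (Finset.mem_univ i)

/-- Products of decompositions.

Proof.  Index set `ι₁ ⊕ ι₂`, family `Sum.elim B₁ B₂` (groups by cases),
`G ≃* A × B ≃* (∀ i, B₁ i) × (∀ j, B₂ j) ≃* ∀ k, Sum.elim B₁ B₂ k`.  Coprimality between `B₁ i` and
`B₂ j`: their orders divide `|A|` and `|B|`. -/
theorem dec_prod {A B : Type} [Group A] [Group B] [Finite A] [Finite B]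
    (hcop : (Nat.card A).Coprime (Nat.card B)) (hA : Dec A) (hB : Dec B) {G : Type} [Group G]
    (e : G ≃* A × B) : Dec G := by
  obtain ⟨ι₁, f₁, B₁, g₁, hb₁, hp₁, ⟨e₁⟩⟩ := hA
  obtain ⟨ι₂, f₂, B₂, g₂, hb₂, hp₂, ⟨e₂⟩⟩ := hB
  obtain ⟨e₃⟩ := F2_equiv (B₁ := B₁) (B₂ := B₂)
  have hc : ∀ i j, (Nat.card (B₁ i)).Coprime (Nat.card (B₂ j)) := fun i j =>
    Nat.Coprime.coprime_dvd_left (F2_dvd e₁ i) (Nat.Coprime.coprime_dvd_right (F2_dvd e₂ j) hcop)
  refine ⟨ι₁ ⊕ ι₂, inferInstance, Sum.elim B₁ B₂, F2_inst g₁ g₂, ?_, ?_, ?_⟩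
  · rintro (i | i)
    · exact hb₁ i
    · exact hb₂ i
  · rintro (i | i) (j | j) hij
    · exact hp₁ (fun h => hij (by rw [h]))
    · exact hc i j
    · exact (hc j i).symm
    · exact hp₂ (fun h => hij (by rw [h]))
  · let _ := F2_inst g₁ g₂
    exact ⟨(e.trans (MulEquiv.prodCongr e₁ e₂)).trans e₃⟩

/-- A block is a decomposition with one factor; the trivial group has the empty decomposition. -/
theorem dec_block {G : Type} [Group G] (h : Block G) : Dec G := by
  refine ⟨Unit, inferInstance, fun _ => G, fun _ => inferInstance, fun _ => h, ?_, ?_⟩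
  · intro i j hij
    exact absurd (Subsingleton.elim i j) hij
  · exact ⟨{ toFun := fun g _ => g
             invFun := fun f => f ()
             left_inv := fun g => rfl
             right_inv := fun f => rfl
             map_mul' := fun a b => rfl }⟩

theorem dec_trivial {G : Type} [Group G] (h : Subsingleton G) : Dec G := by
  refine ⟨Empty, inferInstance, fun _ => G, fun _ => inferInstance, fun i => i.elim, ?_, ?_⟩
  · intro i
    exact i.elim
  · exact ⟨{ toFun := fun g _ => g
             invFun := fun _ => 1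
             left_inv := fun g => Subsingleton.elim _ _
             right_inv := fun f => by funext i; exact i.elim
             map_mul' := fun a b => rfl }⟩

end FPX
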