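import Pool.Agent.FPX.Defs3
import Pool.Agent.FPX.L6

namespace FPX

theorem R7_semis {p : ℕ} [Fact p.Prime] {V : Type} [AddCommGroup V] [Module (ZMod p) V]
    (c : V ≃ₗ[ZMod p] V) (n : ℕ) (hn : n.Coprime p) (hc : c ^ n = 1) (v : V)
    (h : c (c v - v) = c v - v) : c v = v := by
  have hn0 : (n : ZMod p) ≠ 0 := by
    intro h
    rw [ZMod.natCast_eq_zero_iff] at h
    have h1 : p ∣ Nat.gcd n p := Nat.dvd_gcd h (dvd_refl p)
    rw [hn] at h1
    exact (Fact.out : p.Prime).one_lt.ne' (Nat.dvd_one.1 h1)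
  have key : ∀ k : ℕ, (c ^ k) v = v + (k : ZMod p) • (c v - v) := by
    intro k
    induction k with
    | zero =>
      rw [pow_zero, Nat.cast_zero, zero_smul, add_zero]
      rfl
    | succ k ih =>
      have h1 : (c ^ (k + 1)) v = c ((c ^ k) v) := by
        rw [pow_succ']
        rfl
      rw [h1, ih, map_add, map_smul, h, Nat.cast_succ, add_smul, one_smul]
      abel
  have h2 := key n
  rw [hc] at h2
  have h3 : (n : ZMod p) • (c v - v) = 0 := by
    have h4 : v = v + (n : ZMod p) • (c v - v) := h2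
    exact left_eq_add.1 h4
  have h5 : c v - v = 0 := (smul_eq_zero.1 h3).resolve_left hn0
  exact sub_eq_zero.1 h5

/-- An element `M` of `SL(2,p)` of odd prime order `r ≠ p` defines a `Plane`, and is not a scalar.

Proof.  `X v = M v`.  `X ^ r = 1`.  `X + X⁻¹ = tr M` by Cayley-Hamilton (`det M = 1`).  `M` is not
scalar: `c ^ 2 = 1` gives `c = ±1`, so `M ^ 2 = 1`.  `Xfix`: if `M v = v`, `v ≠ 0`, then `1` is an
eigenvalue, `tr M = 2` (`v + M⁻¹ v = tr(M) v`, `M⁻¹ v = v`), so `M + M⁻¹ = 2`, `(M - 1)^2 = 0`,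
`M ^ k = 1 + k (M - 1)`, `M ^ r = 1` gives `r (M - 1) = 0`, `M = 1`, contradiction. -/
theorem sl_plane {p r : ℕ} [Fact p.Prime] (h5 : 5 ≤ p) (hr : r.Prime) (h2 : r ≠ 2) (hrp : r ≠ p)
    (M : Matrix.SpecialLinearGroup (Fin 2) (ZMod p)) (hM : orderOf M = r) :
    ∃ X : (Fin 2 → ZMod p) ≃ₗ[ZMod p] (Fin 2 → ZMod p),
      (∀ v, X v = (M : Matrix (Fin 2) (Fin 2) (ZMod p)).mulVec v) ∧
      Plane p r (Fin 2 → ZMod p) X ∧ ¬ ∃ c : ZMod p, ∀ v, X v = c • v := by
  have hp : p.Prime := Fact.out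
  set X : (Fin 2 → ZMod p) ≃ₗ[ZMod p] (Fin 2 → ZMod p) := Matrix.SpecialLinearGroup.toLin' M with hX
  have hXv : ∀ v, X v = (M : Matrix (Fin 2) (Fin 2) (ZMod p)).mulVec v := by
    intro v
    rw [hX, Matrix.SpecialLinearGroup.toLin'_apply, Matrix.toLin'_apply]
  have hXi : X⁻¹ = Matrix.SpecialLinearGroup.toLin' M⁻¹ := by rw [hX, map_inv]
  have hXiv : ∀ v, X⁻¹ v = (M⁻¹ : Matrix.SpecialLinearGroup (Fin 2) (ZMod p)).1.mulVec v := by
    intro v
    rw [hXi, Matrix.SpecialLinearGroup.toLin'_apply, Matrix.toLin'_apply]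
  have hdet := M.2
  rw [Matrix.det_fin_two] at hdet
  have hMr : M ^ r = 1 := by
    rw [← hM]
    exact pow_orderOf_eq_one M
  have hXr : X ^ r = 1 := by rw [hX, ← map_pow, hMr, map_one]
  have htau : ∀ v, X v + X⁻¹ v = (M.1 0 0 + M.1 1 1) • v := by
    intro v
    rw [hXv, hXiv, Matrix.SpecialLinearGroup.coe_inv, Matrix.adjugate_fin_two]
    ext i
    fin_cases i
    · simp [Matrix.mulVec, dotProduct, Fin.sum_univ_two]
      ring
    · simp [Matrix.mulVec, dotProduct, Fin.sum_univ_two]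
      ring
  have hinj : Function.Injective
      (Matrix.SpecialLinearGroup.toLin' : Matrix.SpecialLinearGroup (Fin 2) (ZMod p) →* _) :=
    Matrix.SpecialLinearGroup.toLin'_injective
  have hM1 : M ≠ 1 := by
    intro h
    rw [h, orderOf_one] at hM
    exact hr.one_lt.ne hM
  have hM2 : M ^ 2 ≠ 1 := by
    intro h
    have h1 := orderOf_dvd_of_pow_eq_one h
    rw [hM] at h1
    exact h2 ((Nat.prime_dvd_prime_iff_eq hr Nat.prime_two).1 h1)
  have hXX : ∀ v, X⁻¹ (X v) = v := by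
    intro v
    show (X⁻¹ * X) v = v
    rw [inv_mul_cancel]
    rfl
  have hXX' : ∀ v, X (X⁻¹ v) = v := by
    intro v
    show (X * X⁻¹) v = v
    rw [mul_inv_cancel]
    rfl
  refine ⟨X, hXv, ?_, ?_⟩
  · refine ⟨h5, hr, h2, hrp, Module.finrank_fin_fun _, hXr, ?_, ⟨_, htau⟩⟩
    intro v hv
    by_contra hv0
    have hiv : X⁻¹ v = v := by
      have := hXX v
      rw [hv] at this
      exact this
    have ht := htau v
    rw [hv, hiv] at ht
    have ht2 : (M.1 0 0 + M.1 1 1) = 2 := by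
      have h3 : ((M.1 0 0 + M.1 1 1) - 2) • v = 0 := by
        rw [sub_smul, ← ht, two_smul, sub_self]
      rcases smul_eq_zero.1 h3 with h4 | h4
      · exact sub_eq_zero.1 h4
      · exact absurd h4 hv0
    apply hM1
    apply hinj
    rw [map_one, ← hX]
    apply LinearEquiv.ext
    intro u
    show X u = u
    refine R7_semis X r ((Nat.coprime_primes hr hp).2 hrp) hXr u ?_
    have h5 := htau (X u)
    rw [hXX, ht2, two_smul] at h5
    rw [map_sub]
    have h6 : X (X u) = X u + X u - u := by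
      rw [← h5]
      abel
    rw [h6]
    abel
  · rintro ⟨c, hc⟩
    have h00 := congrFun (hc ![1, 0]) 0
    have h10 := congrFun (hc ![1, 0]) 1
    have h01 := congrFun (hc ![0, 1]) 0
    have h11 := congrFun (hc ![0, 1]) 1
    rw [hXv] at h00 h10 h01 h11
    simp [Matrix.mulVec, dotProduct, Fin.sum_univ_two] at h00 h10 h01 h11
    have hc2 : c * c = 1 := by
      have h3 : M.1 0 0 * M.1 1 1 - M.1 0 1 * M.1 1 0 = 1 := hdet
      have e00 : M.1 0 0 = c := h00
      have e10 : M.1 1 0 = 0 := h10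
      have e11 : M.1 1 1 = c := h11
      rw [e00, e11, e10, mul_zero, sub_zero] at h3
      exact h3
    apply hM2
    apply hinj
    rw [map_one, map_pow, ← hX]
    apply LinearEquiv.ext
    intro u
    show X (X u) = u
    rw [hc, hc, smul_smul, hc2, one_smul]

end FPX
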