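import Pool.Agent.FPX.R6
import Pool.Agent.FPX.R7

namespace FPX

/-- `(F_p^2 : ⟨M⟩) × A` has (F).

Proof.  `RSet p r (Fin 2 → ZMod p) X (zpowers M) A ⟨M, _⟩ χ` with `X` from `sl_plane` and
`χ = (slAct p).comp (Subgroup.zpowers M).subtype`.  The map
`((v, c), a) ↦ (v, (c, a))` is an isomorphism `AffSL p M × A ≃* SD χ`; `pf_iso`. -/
theorem pf_aff {p r : ℕ} (hp : p.Prime) (h5 : 5 ≤ p) (hr : r.Prime) (h2 : r ≠ 2) (hrp : r ≠ p)
    (M : Matrix.SpecialLinearGroup (Fin 2) (ZMod p)) (hM : orderOf M = r) (A : Type)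
    [CommGroup A] [Finite A] (hA : IsPGroup r A) : PF (AffSL p M × A) := by
  have : Fact p.Prime := ⟨hp⟩
  obtain ⟨X, hX, hpl, hns⟩ := sl_plane h5 hr h2 hrp M hM
  let _ : CommGroup (Subgroup.zpowers M) :=
    { (inferInstance : Group (Subgroup.zpowers M)) with
      mul_comm := by
        rintro ⟨a, i, rfl⟩ ⟨b, j, rfl⟩
        apply Subtype.ext
        exact ((Commute.refl M).zpow_zpow i j) }
  let χ : Subgroup.zpowers M →* MulAut (Multiplicative (Fin 2 → ZMod p)) :=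
    (slAct p).comp (Subgroup.zpowers M).subtype
  have hfin : IsOfFinOrder M := by
    rw [← orderOf_pos_iff, hM]
    exact hr.pos
  have hR : RSet p r (Fin 2 → ZMod p) X (Subgroup.zpowers M) A
      ⟨M, Subgroup.mem_zpowers M⟩ χ := by
    refine ⟨hpl, hns, ?_, ?_, ?_, hA, inferInstance⟩
    · rintro ⟨c, hc⟩
      obtain ⟨i, hi⟩ := (hfin.mem_powers_iff_mem_zpowers).2 hc
      exact ⟨i, Subtype.ext hi.symm⟩
    · rw [← hM]
      exact (Subgroup.orderOf_coe (⟨M, Subgroup.mem_zpowers M⟩ : Subgroup.zpowers M)).symm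
    · intro v
      show slAct p M (Multiplicative.ofAdd v) = _
      rw [slAct_apply, hX]
      rfl
  have hSD := pf_sdp hR
  let e : SD (A := A) χ ≃* AffSL p M × A :=
    { toFun := fun x => (⟨x.left, x.right.1⟩, x.right.2)
      invFun := fun x => ⟨x.1.left, (x.1.right, x.2)⟩
      left_inv := fun x => rfl
      right_inv := fun x => rfl
      map_mul' := fun x y => rfl }
  exact pf_iso e hSD

/-- Blocks have (F). -/
theorem block_pf (B : Type) [Group B] (h : Block B) : PF B := by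
  rcases h with ⟨q, -, -, h⟩ | ⟨p, r, M, A, _, hp, h5, hr, h2, hrp, hM, hA, hpA, ⟨e⟩⟩
  · exact h
  · exact pf_iso e.symm (pf_aff hp h5 hr h2 hrp M hM A hpA)

end FPX
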