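import Pool.Agent.FPX.F1
import Pool.Agent.FPX.F2
import Pool.Agent.FPX.R8
import Pool.Agent.FPX.A2
import Pool.Agent.FPX.E1

namespace FPX

/-- One direction of the main theorem, by induction on the order.

Proof.  `G` trivial: `dec_trivial`.  `G` indecomposable: `pf_block`, `dec_block`.  Otherwise there are
normal `A`, `B` with `A ⊔ B = ⊤`, coprime orders, both nontrivial; `factor_facts`: characteristic,
commuting, `A ⊓ B = ⊥`; both have (F) (`pf_char`) and smaller order; `G ≃* A × B`; `dec_prod`. -/
theorem decomp (n : ℕ) : ∀ (G : Type) [Group G] [Finite G] [Group.IsSolvable G],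
    Nat.card G ≤ n → PF G → Dec G := by
  induction n with
  | zero =>
    intro G _ _ _ h _
    have := Nat.card_pos (α := G)
    omega
  | succ n ih =>
    intro G _ _ _ hn hF
    rcases subsingleton_or_nontrivial G with h | h
    · exact dec_trivial h
    by_cases hI : Indec G
    · exact dec_block (pf_block hF hI)
    unfold Indec at hI
    push Not at hI
    obtain ⟨A, B, hA, hB, hAB, hcop, hA1, hB1⟩ := hI
    obtain ⟨hinf, hAi, hBi, hAc, hBc, hcomm⟩ := factor_facts hA hB hAB hcop
    have hcA : 1 < Nat.card A := (Subgroup.one_lt_card_iff_ne_bot A).2 hA1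
    have hcB : 1 < Nat.card B := (Subgroup.one_lt_card_iff_ne_bot B).2 hB1
    have hcG : Nat.card A * Nat.card B = Nat.card G := by
      rw [← hAi]
      exact A.card_mul_index
    have hltA : Nat.card A ≤ n := by nlinarith
    have hltB : Nat.card B ≤ n := by nlinarith
    have hDA := ih A hltA (pf_char hAc hF)
    have hDB := ih B hltB (pf_char hBc hF)
    obtain ⟨φ, hφ⟩ : ∃ φ : A × B →* G, ∀ x, φ x = (x.1 : G) * x.2 :=
      ⟨MonoidHom.noncommCoprod A.subtype B.subtype (fun a b => hcomm a a.2 b b.2), fun x => rfl⟩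
    have hinj : Function.Injective φ := by
      rw [injective_iff_map_eq_one]
      rintro ⟨a, b⟩ hab
      rw [hφ] at hab
      have h1 : (a : G) = (b : G)⁻¹ := eq_inv_of_mul_eq_one_left hab
      have h2 : (a : G) ∈ A ⊓ B := ⟨a.2, by rw [h1]; exact B.inv_mem b.2⟩
      rw [hinf, Subgroup.mem_bot] at h2
      rw [h2, one_mul] at hab
      exact Prod.ext (Subtype.ext h2) (Subtype.ext hab)
    have hbij : Function.Bijective φ := by
      rw [Nat.bijective_iff_injective_and_card]
      exact ⟨hinj, by rw [Nat.card_prod, hcG]⟩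
    exact dec_prod hcop hDA hDB (MulEquiv.ofBijective φ hbij).symm

/-- MAIN THEOREM.  For the converse: `block_pf`, `pf_pi` (every factor is finite since `G` is), and
`pf_iso`. -/
theorem main (G : Type) [Group G] [Finite G] [Group.IsSolvable G] : PF G ↔ Dec G := by
  classical
  refine ⟨fun h => decomp (Nat.card G) G le_rfl h, ?_⟩
  rintro ⟨ι, _, B, _, hB, hcop, ⟨e⟩⟩
  have hfin : Finite (∀ i, B i) := Finite.of_equiv G e.toEquiv
  have hfi : ∀ i, Finite (B i) := fun i =>
    Finite.of_surjective (fun f : ∀ i, B i => f i) fun b => ⟨Pi.mulSingle i b, Pi.mulSingle_eq_same i b⟩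
  exact pf_iso e.symm (pf_pi B hcop fun i => block_pf (B i) (hB i))

end FPX
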