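import Pool.Agent.FPX.F3
import Pool.Agent.FPX.B5
import Pool.Agent.FPX.B6
import Pool.Agent.FPX.B2

namespace FPX

/-- a commutative 2-group with (F) -/
theorem F4_two (B : Type) [Group B] [Finite B] (hc : ∀ a b : B, a * b = b * a)
    (h2 : IsPGroup 2 B) (hF : PF B) : BlockAb B := by
  right
  left
  let _ : CommGroup B := { ‹Group B› with mul_comm := hc }
  obtain ⟨ι, hι, n, hn, ⟨g⟩⟩ := CommGroup.equiv_prod_multiplicative_zmod_of_finite B
  have hpow : ∀ k, ∃ e, n k = 2 ^ e := by
    intro k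
    have : NeZero (n k) := ⟨by have := hn k; omega⟩
    have : Fact (Nat.Prime 2) := ⟨Nat.prime_two⟩
    let φ : B →* Multiplicative (ZMod (n k)) :=
      (Pi.evalMonoidHom (fun i => Multiplicative (ZMod (n i))) k).comp g.toMonoidHom
    have hφ : Function.Surjective φ := by
      intro z
      classical
      refine ⟨g.symm (Pi.mulSingle k z), ?_⟩
      show (g (g.symm (Pi.mulSingle k z))) k = z
      rw [MulEquiv.apply_symm_apply, Pi.mulSingle_eq_same]
    have h3 : IsPGroup 2 (Multiplicative (ZMod (n k))) := h2.of_surjective φ hφ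
    obtain ⟨e, he⟩ := IsPGroup.iff_card.1 h3
    refine ⟨e, ?_⟩
    rw [← he]
    exact (Nat.card_zmod (n k)).symm
  choose e he using hpow
  obtain rfl : n = fun k => 2 ^ e k := funext he
  refine ⟨ι, hι, e, ?_, ?_, ⟨g⟩⟩
  · intro i
    by_contra h0
    have h1 : e i = 0 := by omega
    have h3 := hn i
    simp only [h1] at h3
    norm_num at h3
  · intro k hk
    by_cases hk0 : 1 ≤ k
    · exact not_pf e k hk0 hk (pf_iso g hF)
    · have hk1 : k = 0 := by omega
      subst hk1
      obtain ⟨⟨i, hi⟩⟩ : Nonempty {i // e i = 0} := (Nat.card_eq_one_iff_unique.1 hk).2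
      have h3 := hn i
      simp only [hi] at h3
      norm_num at h3

theorem F4_odd (B : Type) [Group B] [Finite B] (hc : ∀ a b : B, a * b = b * a) {q : ℕ}
    (hq : q.Prime) (hq2 : q ≠ 2) (h : IsPGroup q B) : PF B := by
  let _ : CommGroup B := { ‹Group B› with mul_comm := hc }
  have : Fact q.Prime := ⟨hq⟩
  obtain ⟨n, hn⟩ := IsPGroup.iff_card.1 h
  have hodd : Odd (Nat.card B) := by
    rw [hn]
    exact (hq.odd_of_ne_two hq2).pow
  exact pf_odd B hodd

theorem F4_fin {G : Type} [Group G] [Finite G] {ι : Type} (B : ι → Type) [∀ i, Group (B i)]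
    (f : G ≃* ∀ i, B i) (i : ι) : ∃ j : B i →* G, Function.Injective j := by
  classical
  refine ⟨f.symm.toMonoidHom.comp (MonoidHom.mulSingle B i), ?_⟩
  exact f.symm.injective.comp (Pi.mulSingle_injective i)

/-- Groups with abelian Sylow subgroups.

Proof.  If `PF G`, take the blocks `B i` of `main`.  A block of the second kind is allowed.  Let `B i` be
a `q`-group with (F).  It is commutative: `B i` embeds in `G` as a `q`-subgroup, contained in a Sylow
`q`-subgroup.  If `q ≠ 2` it is allowed.  If `q = 2`, by the structure theorem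
(`CommGroup.equiv_prod_multiplicative_zmod_of_finite` or the additive version) it is
`∏ Multiplicative (ZMod (n i))` with `n i > 1`, and `n i` divides a power of 2, so `n i = 2 ^ e i`,
`e i ≥ 1`; by `not_pf` (and `pf_iso`) no `k ≥ 1` occurs exactly once, and `k = 0` does not occur.
Conversely each `BlockAb` has (F): `pf_odd` (a commutative `q`-group, `q` odd, has odd order; `B i` is
finite), `pf_two`, `pf_aff`; `pf_pi`, `pf_iso`. -/
theorem main_ab (G : Type) [Group G] [Finite G] [Group.IsSolvable G]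
    (hS : ∀ (q : ℕ) [Fact q.Prime] (P : Sylow q G), ∀ a ∈ P, ∀ b ∈ P, a * b = b * a) :
    PF G ↔ DecAb G := by
  constructor
  · intro hF
    obtain ⟨ι, hι, B, hB, hblk, hcop, ⟨f⟩⟩ := (main G).1 hF
    refine ⟨ι, hι, B, hB, fun i => ?_, hcop, ⟨f⟩⟩
    obtain ⟨j, hj⟩ := F4_fin B f i
    have hfin : Finite (B i) := Finite.of_injective j hj
    rcases hblk i with ⟨q, hq, hpq, hPF⟩ | h
    · have : Fact q.Prime := ⟨hq⟩
      have hc : ∀ a b : B i, a * b = b * a := by
        intro a b
        have hR : IsPGroup q j.range := hpq.of_surjective j.rangeRestrict j.rangeRestrict_surjective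
        obtain ⟨P, hP⟩ := hR.exists_le_sylow
        apply hj
        rw [map_mul, map_mul]
        exact hS q P _ (hP ⟨a, rfl⟩) _ (hP ⟨b, rfl⟩)
      by_cases hq2 : q = 2
      · subst hq2
        exact F4_two (B i) hc hpq hPF
      · exact Or.inl ⟨hc, q, hq, hq2, hpq⟩
    · exact Or.inr (Or.inr h)
  · rintro ⟨ι, hι, B, hB, hblk, hcop, ⟨f⟩⟩
    have hfin : ∀ i, Finite (B i) := by
      intro i
      obtain ⟨j, hj⟩ := F4_fin B f i
      exact Finite.of_injective j hj
    refine pf_iso f.symm (pf_pi B hcop fun i => ?_)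
    rcases hblk i with ⟨hc, q, hq, hq2, hpq⟩ | ⟨κ, hκ, e, he, hce, ⟨g⟩⟩ |
      ⟨p, r, M, A, hA, hp, h5, hr, h2, hrp, hM, hAf, hAp, ⟨g⟩⟩
    · exact F4_odd (B i) hc hq hq2 hpq
    · exact pf_iso g.symm (pf_two e he hce)
    · exact pf_iso g.symm (pf_aff hp h5 hr h2 hrp M hM A hAp)

end FPX
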