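import Pool.Agent.FPX.Defs4

namespace FPX

variable {P : Type} [Group P] [Finite P] {p : ℕ}

omit [Finite P] in
theorem H1_pow_eq [Fact p.Prime] {z : P} (hz : orderOf z = p) (i j : ℕ) :
    z ^ i = z ^ j ↔ (i : ZMod p) = (j : ZMod p) := by
  rw [pow_eq_pow_iff_modEq, hz, ZMod.natCast_eq_natCast_iff]

omit [Finite P] in
theorem H1_pow_val [Fact p.Prime] {z : P} (hz : orderOf z = p) (i : ℕ) :
    z ^ ((i : ZMod p)).val = z ^ i := by
  rw [H1_pow_eq hz, ZMod.natCast_val, ZMod.cast_id]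

theorem H1_fixed [Fact p.Prime] (hP : IsPGroup p P) (N : Subgroup P) [hN : N.Normal]
    (hD : p ∣ Nat.card N) : ∃ z ∈ N, z ≠ 1 ∧ z ∈ Subgroup.center P := by
  have hP' : IsPGroup p (ConjAct P) := hP.of_equiv ConjAct.toConjAct
  have h1 : (1 : N) ∈ MulAction.fixedPoints (ConjAct P) N := by
    rw [MulAction.mem_fixedPoints]
    intro g
    exact smul_one g
  obtain ⟨b, hb, hb1⟩ := hP'.exists_fixed_point_of_prime_dvd_card_of_fixed_point N hD h1
  refine ⟨b, b.2, ?_, ?_⟩
  · intro h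
    apply hb1
    exact (Subtype.ext h).symm
  · rw [Subgroup.mem_center_iff]
    intro g
    rw [MulAction.mem_fixedPoints] at hb
    have h2 := congrArg Subtype.val (hb (ConjAct.toConjAct g))
    rw [ConjAct.Subgroup.val_conj_smul, ConjAct.toConjAct_smul] at h2
    rw [mul_inv_eq_iff_eq_mul] at h2
    exact h2

/-- The commutator form of a `p`-group with derived subgroup of order `p`.

Proof.  `commutator P` is normal of order `p` in a `p`-group, so it is central, and cyclic: take a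
generator `z`.  All commutators `x y x⁻¹ y⁻¹` are in it; `κ x y` is the exponent.  They are
multiplicative in both variables because they are central. -/
theorem exists_com [Fact p.Prime] (hP : IsPGroup p P) (hD : Nat.card (commutator P) = p) :
    ∃ (z : P) (κ : P → P → ZMod p), Com p z κ := by
  have hp : p.Prime := Fact.out
  obtain ⟨z, hzD, hz1, hzc⟩ := H1_fixed hP (commutator P) (by rw [hD])
  have hzord : orderOf z = p := by
    have h1 : orderOf z ∣ p := by
      have := Subgroup.orderOf_dvd_natCard (commutator P) hzD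
      rwa [hD] at this
    rcases (Nat.dvd_prime hp).1 h1 with h2 | h2
    · exact absurd (orderOf_eq_one_iff.mp h2) hz1
    · exact h2
  have hle : Subgroup.zpowers z ≤ commutator P := by
    rw [Subgroup.zpowers_le]
    exact hzD
  have hcard : Nat.card (commutator P) ≤ Nat.card (Subgroup.zpowers z) := by
    rw [Nat.card_zpowers, hzord, hD]
  have heq : Subgroup.zpowers z = commutator P := Subgroup.eq_of_le_of_card_ge hle hcard
  have hzDi : ∀ g : P, g ∈ commutator P ↔ ∃ i : ℕ, g = z ^ i := by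
    intro g
    constructor
    · intro hg
      rw [← heq, ← mem_powers_iff_mem_zpowers] at hg
      obtain ⟨n, hn⟩ := hg
      exact ⟨n, hn.symm⟩
    · rintro ⟨i, rfl⟩
      exact Subgroup.pow_mem _ hzD i
  have hcc : ∀ x y : P, ∃ i : ℕ, x * y * x⁻¹ * y⁻¹ = z ^ i := by
    intro x y
    apply (hzDi _).1
    have := Subgroup.commutator_mem_commutator (Subgroup.mem_top x) (Subgroup.mem_top y)
    rw [commutatorElement_def] at this
    rw [commutator_def]
    exact this
  choose c hc using hcc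
  have hzc' : ∀ (g : P) (n : ℕ), g * z ^ n = z ^ n * g := by
    intro g n
    exact Subgroup.mem_center_iff.mp (Subgroup.pow_mem _ hzc n) g
  refine ⟨z, fun x y => (c x y : ZMod p), hzc, hzord, hzDi, ?_, ?_, ?_, ?_, ?_⟩
  · intro x y
    rw [H1_pow_val hzord, hc]
  · intro x x' y
    show (c (x * x') y : ZMod p) = (c x y : ZMod p) + (c x' y : ZMod p)
    rw [← Nat.cast_add, ← H1_pow_eq hzord, pow_add, ← hc, ← hc x y]
    have e := hc x' y
    have e2 : x' * y * x'⁻¹ = z ^ c x' y * y := by rw [← e]; group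
    calc x * x' * y * (x * x')⁻¹ * y⁻¹ = x * (x' * y * x'⁻¹) * x⁻¹ * y⁻¹ := by group
      _ = x * z ^ c x' y * y * x⁻¹ * y⁻¹ := by rw [e2]; group
      _ = z ^ c x' y * (x * y * x⁻¹ * y⁻¹) := by rw [hzc' x]; group
      _ = x * y * x⁻¹ * y⁻¹ * z ^ c x' y := by rw [hzc']
  · intro x y y'
    show (c x (y * y') : ZMod p) = (c x y : ZMod p) + (c x y' : ZMod p)
    rw [← Nat.cast_add, ← H1_pow_eq hzord, pow_add, ← hc, ← hc x y]
    have e := hc x y'
    have e2 : x * y' * x⁻¹ = z ^ c x y' * y' := by rw [← e]; group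
    calc x * (y * y') * x⁻¹ * (y * y')⁻¹ = x * y * x⁻¹ * (x * y' * x⁻¹) * y'⁻¹ * y⁻¹ := by group
      _ = x * y * x⁻¹ * (z ^ c x y' * y') * y'⁻¹ * y⁻¹ := by rw [e2]
      _ = x * y * x⁻¹ * (z ^ c x y' * y⁻¹) := by group
      _ = x * y * x⁻¹ * (y⁻¹ * z ^ c x y') := by rw [hzc' y⁻¹]
      _ = _ := by group
  · intro x y
    show (c y x : ZMod p) = - (c x y : ZMod p)
    rw [eq_neg_iff_add_eq_zero, ← Nat.cast_add]
    have e : z ^ (c y x + c x y) = z ^ 0 := by
      rw [pow_add, ← hc, ← hc, pow_zero]; group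
    rw [H1_pow_eq hzord] at e
    rw [e]; simp
  · intro x y
    show (c x y : ZMod p) = 0 ↔ _
    have e : (c x y : ZMod p) = 0 ↔ z ^ c x y = z ^ 0 := by
      rw [H1_pow_eq hzord, Nat.cast_zero]
    rw [e, pow_zero, ← hc]
    rw [mul_inv_eq_one, mul_inv_eq_iff_eq_mul]

omit [Finite P] in
theorem H1_kpow_left [Fact p.Prime] {z : P} {κ : P → P → ZMod p} (h : Com p z κ) (x y : P)
    (n : ℕ) : κ (x ^ n) y = n * κ x y := by
  induction n with
  | zero =>
    have h1 : κ (1 : P) y = 0 := (h.eq_zero 1 y).2 (by rw [mul_one, one_mul])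
    rw [pow_zero, h1]; simp
  | succ n ih =>
    rw [pow_succ, h.mul_left, ih]; push_cast; ring

omit [Finite P] in
theorem H1_hom [Fact p.Prime] {z : P} {κ : P → P → ZMod p} (h : Com p z κ) (x y : P) (n : ℕ) :
    ∃ t : ℕ, (x * y) ^ n = x ^ n * y ^ n * z ^ t ∧ (t : ZMod p) = κ y x * (n.choose 2 : ℕ) := by
  have hzc' : ∀ (g : P) (n : ℕ), g * z ^ n = z ^ n * g := by
    intro g n
    exact Subgroup.mem_center_iff.mp (Subgroup.pow_mem _ h.zc n) g
  induction n with
  | zero => exact ⟨0, by simp, by simp⟩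
  | succ n ih =>
    obtain ⟨t, ht, hte⟩ := ih
    refine ⟨(κ (y ^ n) x).val + t, ?_, ?_⟩
    · have e := h.com (y ^ n) x
      have e2 : y ^ n * x = z ^ (κ (y ^ n) x).val * (x * y ^ n) := by rw [← e]; group
      calc (x * y) ^ (n + 1) = x ^ n * y ^ n * (z ^ t * (x * y)) := by
            rw [pow_succ, ht]; group
        _ = x ^ n * y ^ n * ((x * y) * z ^ t) := by rw [hzc' (x * y)]
        _ = x ^ n * (y ^ n * x) * y * z ^ t := by group
        _ = x ^ n * (z ^ (κ (y ^ n) x).val * (x * y ^ n)) * y * z ^ t := by rw [e2]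
        _ = x ^ n * ((x * y ^ n) * z ^ (κ (y ^ n) x).val) * y * z ^ t := by
            rw [hzc' (x * y ^ n)]
        _ = x ^ n * x * y ^ n * (z ^ (κ (y ^ n) x).val * y) * z ^ t := by group
        _ = x ^ n * x * y ^ n * (y * z ^ (κ (y ^ n) x).val) * z ^ t := by rw [hzc' y]
        _ = x ^ (n + 1) * y ^ (n + 1) * z ^ ((κ (y ^ n) x).val + t) := by
            rw [pow_succ, pow_succ, pow_add]; group
    · rw [Nat.choose_succ_succ' n 1, Nat.choose_one_right]
      push_cast
      rw [hte, ZMod.natCast_val, ZMod.cast_id, H1_kpow_left h]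
      ring

/-- Powers: `x ^ p` is central, and `(x y) ^ p ^ a = x ^ p ^ a * y ^ p ^ a` for `p` odd and `a ≥ 1`.

Proof.  `κ (x ^ n) y = n κ x y`.  `(x y) ^ n = x ^ n y ^ n [y, x] ^ (n (n-1)/2)`, and `p` divides
`n (n - 1)/2` for `n = p ^ a`, `p` odd. -/
theorem com_pow [Fact p.Prime] {z : P} {κ : P → P → ZMod p} (h : Com p z κ) (x : P) :
    x ^ p ∈ Subgroup.center P := by
  rw [Subgroup.mem_center_iff]
  intro g
  have h1 : κ (x ^ p) g = 0 := by
    rw [H1_kpow_left h]; simp
  exact ((h.eq_zero _ _).1 h1).symm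

theorem com_hom [Fact p.Prime] {z : P} {κ : P → P → ZMod p} (h : Com p z κ) (h2 : p ≠ 2)
    (a : ℕ) (ha : 1 ≤ a) (x y : P) : (x * y) ^ p ^ a = x ^ p ^ a * y ^ p ^ a := by
  have hp : p.Prime := Fact.out
  obtain ⟨t, ht, hte⟩ := H1_hom h x y (p ^ a)
  have h3 : p ∣ (p ^ a).choose 2 := by
    apply hp.dvd_choose_pow (by norm_num)
    intro h4
    apply h2
    have h5 : p ∣ 2 := by
      rw [h4]
      exact dvd_pow_self p (by omega)
    exact (Nat.prime_dvd_prime_iff_eq hp Nat.prime_two).1 h5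
  have h4 : (((p ^ a).choose 2 : ℕ) : ZMod p) = 0 := (ZMod.natCast_eq_zero_iff _ _).2 h3
  rw [h4, mul_zero, ← Nat.cast_zero, ← H1_pow_eq h.zp, pow_zero] at hte
  rw [ht, hte, mul_one]

/-- An automorphism `α` acts on the derived subgroup: `α z = z ^ χ`, and
`κ (α x) (α y) = χ κ x y`. -/
theorem com_aut [Fact p.Prime] {z : P} {κ : P → P → ZMod p} (h : Com p z κ) (α : MulAut P) :
    ∃ χ : ZMod p, α z = z ^ χ.val ∧ ∀ x y, κ (α x) (α y) = χ * κ x y := by
  have h1 : α z ∈ commutator P := by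
    have hz : z ∈ commutator P := (h.zD z).2 ⟨1, (pow_one z).symm⟩
    have hchar : (commutator P).Characteristic := inferInstance
    have := hchar.fixed α.symm
    have h3 : z ∈ (commutator P).comap (α.symm : P ≃* P).symm.toMonoidHom := by
      have h4 := hchar.fixed (α.symm : P ≃* P).symm
      rw [h4]; exact hz
    exact h3
  obtain ⟨i, hi⟩ := (h.zD _).1 h1
  refine ⟨(i : ZMod p), by rw [H1_pow_val h.zp, hi], ?_⟩
  intro x y
  have h2 : z ^ (κ (α x) (α y)).val = z ^ (i * (κ x y).val) := by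
    rw [← h.com, pow_mul, ← hi, ← map_pow, ← h.com, map_mul, map_mul, map_mul, map_inv, map_inv]
  rw [H1_pow_eq h.zp] at h2
  rw [ZMod.natCast_val, ZMod.cast_id] at h2
  rw [h2]
  push_cast
  rw [ZMod.natCast_val, ZMod.cast_id]

end FPX
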