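import Pool.Agent.FPX.H9

namespace FPX

/-- The statement of `symp_fix` for spaces of dimension at most `n`. -/
def H10_IH (p : ℕ) [Fact p.Prime] (n : ℕ) : Prop :=
  ∀ (V : Type) [AddCommGroup V]
    [Module (ZMod p) V] [Finite V] (ω : V →ₗ[ZMod p] V →ₗ[ZMod p] ZMod p),
    Module.finrank (ZMod p) V ≤ n → (∀ u, ω u u = 0) → (∀ u, (∀ v, ω u v = 0) → u = 0) →
    ∀ (U : Submodule (ZMod p) V) (χ : ZMod p), χ ≠ 0 →
    (χ = 1 ∨ ∀ u ∈ U, ∀ v ∈ U, ω u v = 0) →
    ∃ A : V ≃ₗ[ZMod p] V, (∀ v w, ω (A v) (A w) = χ * ω v w) ∧ ∀ v, A v = v ↔ v ∈ U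

theorem H10_step {p : ℕ} [Fact p.Prime] (n : ℕ) (IH : H10_IH p n) (V : Type) [AddCommGroup V]
    [Module (ZMod p) V] [Finite V] (ω : V →ₗ[ZMod p] V →ₗ[ZMod p] ZMod p)
    (hn : Module.finrank (ZMod p) V ≤ n + 1) (halt : ∀ u, ω u u = 0)
    (hnd : ∀ u, (∀ v, ω u v = 0) → u = 0) (U : Submodule (ZMod p) V) (χ : ZMod p) (hχ : χ ≠ 0)
    (hU : χ = 1 ∨ ∀ u ∈ U, ∀ v ∈ U, ω u v = 0) (u u' : V) (huu : ω u u' = 1)
    (c₁₁ c₁₂ c₂₁ c₂₂ : ZMod p) (hdet : c₁₁ * c₂₂ - c₁₂ * c₂₁ = χ)
    (hc : ∀ (a b : ZMod p) (v : V), ω u v = 0 ∧ ω u' v = 0 → (a • u + b • u' + v ∈ U ↔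
      (a * c₁₁ + b * c₂₁ = a ∧ a * c₁₂ + b * c₂₂ = b) ∧ v ∈ U)) :
    ∃ A : V ≃ₗ[ZMod p] V, (∀ v w, ω (A v) (A w) = χ * ω v w) ∧ ∀ v, A v = v ↔ v ∈ U := by
  have hfd : FiniteDimensional (ZMod p) V := Module.Finite.of_finite
  obtain ⟨V₁, hV₁, hdec, huniq, hnd₁⟩ := plane_split ω halt hnd u u' huu
  let ω₁ : V₁ →ₗ[ZMod p] V₁ →ₗ[ZMod p] ZMod p := ω.compl₁₂ V₁.subtype V₁.subtype
  have hω₁ : ∀ v w : V₁, ω₁ v w = ω v w := fun v w => rfl
  have hlt : V₁ < ⊤ := by
    rw [lt_top_iff_ne_top]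
    intro htop
    have h1 : u ∈ V₁ := by rw [htop]; exact Submodule.mem_top
    have h2 := ((hV₁ u).1 h1).2
    rw [H9_anti ω halt u u', huu] at h2
    exact one_ne_zero (neg_eq_zero.mp h2)
  have hfr : Module.finrank (ZMod p) V₁ ≤ n := by
    have := Submodule.finrank_lt hlt.ne
    omega
  obtain ⟨g, hg, hgU⟩ := IH V₁ ω₁ hfr (fun v => by rw [hω₁, halt])
    (by
      intro v hv
      apply Subtype.ext
      apply hnd₁ v v.2
      intro w hw
      exact hv ⟨w, hw⟩)
    (U.comap V₁.subtype) χ hχ (by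
      rcases hU with h | h
      · exact Or.inl h
      · right
        intro v hv w hw
        rw [hω₁]
        exact h v hv w hw)
  obtain ⟨A, hA, hAu, hAu', hAV⟩ := plane_glue ω halt hnd u u' huu V₁ hV₁ χ hχ c₁₁ c₁₂ c₂₁ c₂₂ hdet
    g hg
  refine ⟨A, hA, ?_⟩
  intro v
  obtain ⟨a, b, v₁, hv₁, rfl⟩ := hdec v
  rw [hc a b v₁ ((hV₁ v₁).1 hv₁)]
  have e1 : A (a • u + b • u' + v₁) = (a * c₁₁ + b * c₂₁) • u + (a * c₁₂ + b * c₂₂) • u' +
      (g ⟨v₁, hv₁⟩ : V) := by
    have e2 : A v₁ = g ⟨v₁, hv₁⟩ := hAV ⟨v₁, hv₁⟩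
    rw [map_add, map_add, map_smul, map_smul, hAu, hAu', e2]
    module
  have e3 : v₁ ∈ U ↔ g ⟨v₁, hv₁⟩ = ⟨v₁, hv₁⟩ := (hgU ⟨v₁, hv₁⟩).symm
  rw [e3, e1]
  constructor
  · intro h
    have h2 : (a * c₁₁ + b * c₂₁ - a) • u + (a * c₁₂ + b * c₂₂ - b) • u' +
        ((g ⟨v₁, hv₁⟩ : V) - v₁) = 0 := by
      rw [← sub_eq_zero] at h
      rw [← h]
      module
    obtain ⟨h3, h4, h5⟩ := huniq _ _ _ (V₁.sub_mem (g ⟨v₁, hv₁⟩).2 hv₁) h2
    exact ⟨⟨sub_eq_zero.mp h3, sub_eq_zero.mp h4⟩, Subtype.ext (sub_eq_zero.mp h5)⟩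
  · rintro ⟨⟨h3, h4⟩, h5⟩
    rw [h3, h4, h5]

theorem H10_exists {p : ℕ} [Fact p.Prime] (V : Type) [AddCommGroup V]
    [Module (ZMod p) V] (ω : V →ₗ[ZMod p] V →ₗ[ZMod p] ZMod p)
    (u v : V) (h : ω u v ≠ 0) : ω u ((ω u v)⁻¹ • v) = 1 := by
  rw [map_smul, smul_eq_mul, inv_mul_cancel₀ h]

/-- Symplectic similitudes with prescribed fixed space.  `U` is a subspace of the symplectic space
`V` over `F_p`, `p` odd; `χ = 1`, or `χ ≠ 0, 1` and `U` is totally isotropic.

Proof.  Induction on the dimension of `V`.  `V = 0`: trivial.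
(1) `χ = 1` and `U` not totally isotropic: `u, u' ∈ U` with `ω u u' = 1`; `V₁` from `plane_split`;
`U = ⟨u, u'⟩ ⊕ (U ∩ V₁)`; induction gives `g` on `V₁` for `U ∩ V₁`; glue with the identity of
the plane.
(2) `U` totally isotropic, `U ≠ 0`: `0 ≠ u ∈ U`, `u'` with `ω u u' = 1`; `U = ⟨u⟩ ⊕ (U ∩ V₁)` (for
`v ∈ U`, `v = a u + b u' + v₁` with `b = ω u v = 0`); glue `g` (for `U ∩ V₁`) with
`u ↦ u`, `u' ↦ u + χ u'`; the fixed space on the plane is `⟨u⟩` (if `χ = 1`:
`u' ↦ u' + u`; if `χ ≠ 1` the fixed vectors `a u + b u'` satisfy `b χ = b`, `b = 0`).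
(3) `U = 0`, `V ≠ 0`: any `u, u'` with `ω u u' = 1`; on the plane `u ↦ u'`,
`u' ↦ -χ u + t u'` with `1 - t + χ ≠ 0` (`t = 0`, or `t = 1` if `χ = -1`): determinant `χ`, and a
fixed vector `a u + b u'` has `a = -χ b`, `b = a + t b`, so `b (1 - t + χ) = 0`; glue with `g` for
`U ∩ V₁ = 0`. -/
theorem symp_fix {p : ℕ} [Fact p.Prime] (h2 : p ≠ 2) (n : ℕ) : ∀ (V : Type) [AddCommGroup V]
    [Module (ZMod p) V] [Finite V] (ω : V →ₗ[ZMod p] V →ₗ[ZMod p] ZMod p),
    Module.finrank (ZMod p) V ≤ n → (∀ u, ω u u = 0) → (∀ u, (∀ v, ω u v = 0) → u = 0) →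
    ∀ (U : Submodule (ZMod p) V) (χ : ZMod p), χ ≠ 0 →
    (χ = 1 ∨ ∀ u ∈ U, ∀ v ∈ U, ω u v = 0) →
    ∃ A : V ≃ₗ[ZMod p] V, (∀ v w, ω (A v) (A w) = χ * ω v w) ∧ ∀ v, A v = v ↔ v ∈ U := by
  induction n with
  | zero =>
    intro V _ _ _ ω hn halt hnd U χ hχ hU
    have hfd : FiniteDimensional (ZMod p) V := Module.Finite.of_finite
    have hsub : Subsingleton V := by
      rw [← Module.finrank_zero_iff (R := ZMod p)]
      omega
    refine ⟨LinearEquiv.refl _ _, ?_, ?_⟩
    · intro v w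
      have : v = 0 := Subsingleton.elim _ _
      rw [this, map_zero, map_zero]
      simp
    · intro v
      have : v = 0 := Subsingleton.elim _ _
      rw [this, map_zero]
      simp
  | succ n IH =>
    intro V _ _ _ ω hn halt hnd U χ hχ hU
    have IH' : H10_IH p n := IH
    have hfd : FiniteDimensional (ZMod p) V := Module.Finite.of_finite
    by_cases hiso : ∀ u ∈ U, ∀ v ∈ U, ω u v = 0
    · by_cases hU0 : U = ⊥
      · by_cases hV0 : ∀ v : V, v = 0
        · refine ⟨LinearEquiv.refl _ _, ?_, ?_⟩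
          · intro v w
            rw [hV0 v, map_zero, map_zero]
            simp
          · intro v
            rw [hV0 v, map_zero]
            simp
        · -- case (3)
          rw [not_forall] at hV0
          obtain ⟨u, hu⟩ := hV0
          have hex : ∃ v, ω u v ≠ 0 := by
            by_contra hc
            apply hu
            apply hnd
            intro v
            by_contra h3
            exact hc ⟨v, h3⟩
          obtain ⟨v, hv⟩ := hex
          have hex2 : ∃ t : ZMod p, t - χ - 1 ≠ 0 := by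
            by_cases h3 : (0 : ZMod p) - χ - 1 = 0
            · refine ⟨1, ?_⟩
              intro h4
              have h5 : (1 : ZMod p) = 0 := by linear_combination h4 - h3
              exact one_ne_zero h5
            · exact ⟨0, h3⟩
          obtain ⟨t, ht⟩ := hex2
          have huu := H10_exists V ω u v hv
          refine H10_step n IH' V ω hn halt hnd U χ hχ hU u ((ω u v)⁻¹ • v) huu 0 1 (-χ) t
            (by ring) ?_
          intro a b x hx
          rw [hU0, Submodule.mem_bot, Submodule.mem_bot]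
          obtain ⟨V₁, hV₁, _, huniq, _⟩ := plane_split ω halt hnd u _ huu
          constructor
          · intro h3
            obtain ⟨ha, hb, hx0⟩ := huniq a b x ((hV₁ x).2 hx) h3
            rw [ha, hb, hx0]
            refine ⟨⟨by ring, by ring⟩, rfl⟩
          · rintro ⟨⟨h3, h4⟩, h5⟩
            have hb : b = 0 := by
              have h6 : b * (t - χ - 1) = 0 := by linear_combination h4 + h3
              exact (mul_eq_zero.mp h6).resolve_right ht
            have ha : a = 0 := by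
              rw [hb] at h3
              linear_combination -h3
            rw [ha, hb, h5]
            simp
      · -- case (2)
        obtain ⟨u, huU, hu⟩ := (Submodule.ne_bot_iff U).1 hU0
        have hex : ∃ v, ω u v ≠ 0 := by
          by_contra hc
          apply hu
          apply hnd
          intro v
          by_contra h3
          exact hc ⟨v, h3⟩
        obtain ⟨v, hv⟩ := hex
        have huu := H10_exists V ω u v hv
        refine H10_step n IH' V ω hn halt hnd U χ hχ hU u ((ω u v)⁻¹ • v) huu 1 0 1 χ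
          (by ring) ?_
        intro a b x hx
        constructor
        · intro h3
          have h4 : b = 0 := by
            have h5 := hiso u huU _ h3
            rw [map_add, map_add, (ω u).map_smul a u, (ω u).map_smul b, halt, hx.1, huu, smul_zero,
              zero_add, add_zero, smul_eq_mul, mul_one] at h5
            exact h5
          rw [h4] at h3 ⊢
          refine ⟨⟨by ring, by ring⟩, ?_⟩
          rw [zero_smul, add_zero] at h3
          have h5 := U.sub_mem h3 (U.smul_mem a huU)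
          rwa [add_sub_cancel_left] at h5
        · rintro ⟨⟨h3, _⟩, h5⟩
          have hb : b = 0 := by linear_combination h3
          rw [hb, zero_smul, add_zero]
          exact U.add_mem (U.smul_mem a huU) h5
    · -- case (1)
      have hχ1 : χ = 1 := by
        rcases hU with h | h
        · exact h
        · exact absurd h hiso
      have hex : ∃ u ∈ U, ∃ v ∈ U, ω u v ≠ 0 := by
        by_contra hc
        apply hiso
        intro u hu v hv
        by_contra h3
        exact hc ⟨u, hu, v, hv, h3⟩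
      obtain ⟨u, hu, v, hv, huv⟩ := hex
      have huu := H10_exists V ω u v huv
      have hu'U : (ω u v)⁻¹ • v ∈ U := U.smul_mem _ hv
      refine H10_step n IH' V ω hn halt hnd U χ hχ hU u ((ω u v)⁻¹ • v) huu 1 0 0 1
        (by rw [hχ1]; ring) ?_
      intro a b x hx
      have hab : a • u + b • (ω u v)⁻¹ • v ∈ U := U.add_mem (U.smul_mem a hu) (U.smul_mem b hu'U)
      constructor
      · intro h3
        refine ⟨⟨by ring, by ring⟩, ?_⟩
        have h5 := U.sub_mem h3 hab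
        rwa [add_sub_cancel_left] at h5
      · rintro ⟨_, h5⟩
        exact U.add_mem hab h5

end FPX
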