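import Pool.Agent.FPX.Defs4
import Pool.Agent.FPX.H1

namespace FPX

variable {P : Type} [Group P] [Finite P] {p : ℕ}

omit [Finite P] in
theorem H11_zero [Fact p.Prime] {z : P} {V : Type} [AddCommGroup V] [Module (ZMod p) V]
    {ω : V →ₗ[ZMod p] V →ₗ[ZMod p] ZMod p} {σ : V → P} (h : Hei p z V ω σ) : σ 0 = 1 := by
  have h1 := h.mul 0 0
  rw [h.alt, mul_zero, ZMod.val_zero, pow_zero, mul_one, add_zero] at h1
  exact mul_eq_left.mp h1

omit [Finite P] in
theorem H11_neg [Fact p.Prime] {z : P} {V : Type} [AddCommGroup V] [Module (ZMod p) V]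
    {ω : V →ₗ[ZMod p] V →ₗ[ZMod p] ZMod p} {σ : V → P} (h : Hei p z V ω σ) (v : V) :
    σ (-v) = (σ v)⁻¹ := by
  have h1 := h.mul (-v) v
  rw [map_neg, LinearMap.neg_apply, h.alt, neg_zero, mul_zero, ZMod.val_zero, pow_zero, mul_one,
    neg_add_cancel, H11_zero h] at h1
  exact eq_inv_of_mul_eq_one_left h1

omit [Finite P] in
theorem H11_unique [Fact p.Prime] {z : P} {V : Type} [AddCommGroup V] [Module (ZMod p) V]
    {ω : V →ₗ[ZMod p] V →ₗ[ZMod p] ZMod p} {σ : V → P} (h : Hei p z V ω σ) (u v : V)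
    (ζ ζ' : Subgroup.center P) (he : σ u * ζ = σ v * ζ') : u = v ∧ ζ = ζ' := by
  have h1 : u - v = 0 := by
    apply h.inj
    have e1 := h.mul (-v) u
    rw [H11_neg h, neg_add_eq_sub] at e1
    have e2 : σ (u - v) = (ζ' : P) * (ζ : P)⁻¹ *
        (z ^ ((2 : ZMod p)⁻¹ * ω (-v) u).val)⁻¹ := by
      have e3 : (σ v)⁻¹ * σ u = (ζ' : P) * (ζ : P)⁻¹ := by
        rw [inv_mul_eq_iff_eq_mul, ← mul_assoc, ← he, mul_inv_cancel_right]
      rw [← e3, e1, mul_inv_cancel_right]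
    rw [e2]
    exact Subgroup.mul_mem _ (Subgroup.mul_mem _ ζ'.2 (Subgroup.inv_mem _ ζ.2))
      (Subgroup.inv_mem _ (Subgroup.pow_mem _ h.zc _))
  have h2 : u = v := sub_eq_zero.mp h1
  refine ⟨h2, ?_⟩
  rw [h2] at he
  exact Subtype.ext (mul_left_cancel he)

/-- Automorphisms of `P` from linear data: `α (σ u * ζ) = σ (A u) * δ u * β ζ`.

Proof.  The representation `g = σ u * ζ` is unique: if `σ u ζ = σ v ζ'` then
`σ u (σ v)⁻¹` is central; `σ (u - v) = σ u (σ v)⁻¹` times a power of `z` (`mul`, and `σ 0` is central...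
`σ 0 σ 0 = σ 0`, so `σ 0 = 1`, and `(σ v)⁻¹ = σ (-v)` since `ω v (-v) = 0`), so `u = v` by `inj`.
Multiplicativity: `σ u ζ σ v ζ' = σ (u+v) z ^ (ω u v / 2) ζ ζ'` is mapped to
`σ (A u + A v) δ(u) δ(v) z ^ (χ ω u v / 2) β(ζ) β(ζ')`, which is the product of the images
(`σ (A u) σ (A v) = σ (A (u + v)) z ^ (χ ω u v / 2)`).  Bijective: injective (`A`, `β` are) on a finite
group. -/
theorem hei_aut [Fact p.Prime] {z : P} {V : Type} [AddCommGroup V] [Module (ZMod p) V]
    {ω : V →ₗ[ZMod p] V →ₗ[ZMod p] ZMod p} {σ : V → P} (h : Hei p z V ω σ) (χ : ZMod p)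
    (A : V ≃ₗ[ZMod p] V) (hA : ∀ v w, ω (A v) (A w) = χ * ω v w)
    (β : MulAut (Subgroup.center P)) (hβ : ((β ⟨z, h.zc⟩ : Subgroup.center P) : P) = z ^ χ.val)
    (δ : V → Subgroup.center P) (hδ : ∀ u v, δ (u + v) = δ u * δ v) :
    ∃ α : MulAut P, ∀ (u : V) (ζ : Subgroup.center P),
      α (σ u * ζ) = σ (A u) * ((δ u * β ζ : Subgroup.center P) : P) := by
  have hrep : ∀ g : P, ∃ (u : V) (ζ : Subgroup.center P), g = σ u * ζ := by
    intro g
    obtain ⟨u, ζ, hζ, e⟩ := h.rep g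
    exact ⟨u, ⟨ζ, hζ⟩, e⟩
  choose uu zz hz using hrep
  let F : P → P := fun g => σ (A (uu g)) * ((δ (uu g) * β (zz g) : Subgroup.center P) : P)
  have hF : ∀ (u : V) (ζ : Subgroup.center P),
      F (σ u * ζ) = σ (A u) * ((δ u * β ζ : Subgroup.center P) : P) := by
    intro u ζ
    obtain ⟨e1, e2⟩ := H11_unique h _ _ _ _ (hz (σ u * ζ))
    show σ (A (uu (σ u * ζ))) *
      ((δ (uu (σ u * ζ)) * β (zz (σ u * ζ)) : Subgroup.center P) : P) = _
    rw [← e1, ← e2]
  have hcen : ∀ (ζ : Subgroup.center P) (g : P), (ζ : P) * g = g * ζ := by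
    intro ζ g
    exact (Subgroup.mem_center_iff.mp ζ.2 g).symm
  have hmulrep : ∀ (u v : V) (ζ ζ' : Subgroup.center P),
      (σ u * ζ) * (σ v * ζ') = σ (u + v) *
        (((⟨z, h.zc⟩ : Subgroup.center P) ^ ((2 : ZMod p)⁻¹ * ω u v).val * (ζ * ζ') :
          Subgroup.center P) : P) := by
    intro u v ζ ζ'
    calc (σ u * ζ) * (σ v * ζ') = σ u * ((ζ : P) * σ v) * ζ' := by group
      _ = σ u * (σ v * ζ) * ζ' := by rw [hcen ζ (σ v)]
      _ = (σ u * σ v) * (ζ * ζ') := by group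
      _ = _ := by
        rw [h.mul, mul_assoc]
        rfl
  have hFmul : ∀ a b, F (a * b) = F a * F b := by
    intro a b
    have ea := hz a
    have eb := hz b
    obtain ⟨u, hu⟩ : ∃ u, u = uu a := ⟨_, rfl⟩
    obtain ⟨ζ, hζ⟩ : ∃ ζ, ζ = zz a := ⟨_, rfl⟩
    obtain ⟨v, hv⟩ : ∃ v, v = uu b := ⟨_, rfl⟩
    obtain ⟨ζ', hζ'⟩ : ∃ ζ', ζ' = zz b := ⟨_, rfl⟩
    rw [← hu, ← hζ] at ea
    rw [← hv, ← hζ'] at eb
    rw [ea, eb, hmulrep, hF, hF, hF, hmulrep, map_add, hδ]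
    congr 1
    have e1 : β ((⟨z, h.zc⟩ : Subgroup.center P) ^ ((2 : ZMod p)⁻¹ * ω u v).val) =
        (⟨z, h.zc⟩ : Subgroup.center P) ^ ((2 : ZMod p)⁻¹ * ω (A u) (A v)).val := by
      apply Subtype.ext
      rw [map_pow]
      rw [SubgroupClass.coe_pow, SubgroupClass.coe_pow, hβ, ← pow_mul]
      rw [H1_pow_eq h.zp, hA]
      push_cast
      rw [ZMod.natCast_val, ZMod.cast_id, ZMod.natCast_val, ZMod.cast_id, ZMod.natCast_val,
        ZMod.cast_id]
      ring
    congr 1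
    rw [map_mul, map_mul, e1]
    have e2 : ∀ a b c d e : Subgroup.center P, a * b * (c * (d * e)) = c * (a * d * (b * e)) := by
      intro a b c d e
      have cc : ∀ x y : Subgroup.center P, x * y = y * x := fun x y => Subtype.ext (hcen x y)
      calc a * b * (c * (d * e)) = c * (d * e) * (a * b) := cc _ _
        _ = c * (d * e * a * b) := by group
        _ = c * ((a * (d * e)) * b) := by rw [cc (d * e) a]
        _ = c * (a * d * (e * b)) := by group
        _ = _ := by rw [cc e b]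
    rw [e2]
  let F' : P →* P := MonoidHom.mk' F hFmul
  have hF' : ∀ g, F' g = F g := fun g => rfl
  have hδ0 : δ 0 = 1 := by
    have := hδ 0 0
    rw [add_zero] at this
    exact left_eq_mul.mp this
  have hinj : Function.Injective F' := by
    rw [injective_iff_map_eq_one]
    intro g hg
    rw [hF', hz g, hF] at hg
    have e0 : (1 : P) = σ 0 * ((1 : Subgroup.center P) : P) := by
      rw [H11_zero h]; simp
    rw [e0] at hg
    obtain ⟨e1, e2⟩ := H11_unique h _ _ _ _ hg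
    have e3 : uu g = 0 := by
      have : A (uu g) = A 0 := by rw [e1, map_zero]
      exact A.injective this
    rw [e3, hδ0, one_mul] at e2
    have e4 : zz g = 1 := by
      have : β (zz g) = β 1 := by rw [e2, map_one]
      exact β.injective this
    rw [hz g, e3, e4, ← e0]
  let α : MulAut P := MulEquiv.ofBijective F' ⟨hinj, Finite.surjective_of_injective hinj⟩
  exact ⟨α, fun u ζ => hF u ζ⟩

/-- Uniqueness of the representation. -/
theorem hei_unique [Fact p.Prime] {z : P} {V : Type} [AddCommGroup V] [Module (ZMod p) V]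
    {ω : V →ₗ[ZMod p] V →ₗ[ZMod p] ZMod p} {σ : V → P} (h : Hei p z V ω σ) (u v : V)
    (ζ ζ' : Subgroup.center P) (he : σ u * ζ = σ v * ζ') : u = v ∧ ζ = ζ' :=
  H11_unique h u v ζ ζ' he

end FPX
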