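import Pool.Agent.FPX.B2

namespace FPX

theorem H8_bez {Z : Type} [CommGroup Z] {p : ℕ} (hp : p.Prime) (M : Subgroup Z) (g : Z)
    (hg : g ^ p ∈ M) (j : ℤ) (hj : ¬ (p : ℤ) ∣ j) (hgj : g ^ j ∈ M) : g ∈ M := by
  have hcop : IsCoprime (p : ℤ) j :=
    (Prime.coprime_iff_not_dvd (Nat.prime_iff_prime_int.mp hp)).2 hj
  obtain ⟨v, u, huv⟩ := hcop
  have e : g = (g ^ p) ^ v * (g ^ j) ^ u := by
    rw [← zpow_natCast g p, ← zpow_mul, ← zpow_mul, ← zpow_add, mul_comm (p : ℤ) v, mul_comm j u,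
      huv, zpow_one]
  rw [e]
  exact M.mul_mem (M.zpow_mem hg v) (M.zpow_mem hgj u)

theorem H8_decomp {p : ℕ} (hp : p.Prime) {i : ℤ} (hi : i ≠ 0) :
    ∃ (a : ℕ) (j : ℤ), i = (p : ℤ) ^ a * j ∧ ¬ (p : ℤ) ∣ j := by
  have hfin : FiniteMultiplicity (p : ℤ) i := by
    rw [Int.finiteMultiplicity_iff]
    refine ⟨?_, hi⟩
    rw [Int.natAbs_natCast]
    exact hp.ne_one
  obtain ⟨j, hj, hj2⟩ := hfin.exists_eq_pow_mul_and_not_dvd
  exact ⟨_, j, hj, hj2⟩

/-- Splitting off the cyclic group generated by `y`. -/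
theorem H8_split {Z : Type} [CommGroup Z] [Finite Z] {p : ℕ} [Fact p.Prime]
    (e : ℕ) (hexp : ∀ g : Z, g ^ p ^ (e + 1) = 1) (y : Z)
    (H₀ : Subgroup Z) (hz : y ^ p ^ e ∉ H₀) :
    ∃ K : Subgroup Z, H₀ ≤ K ∧ (∀ i : ℤ, y ^ i ∈ K → y ^ i = 1) ∧
      ∀ g : Z, ∃ k ∈ K, ∃ i : ℤ, g = k * y ^ i := by
  have hp : p.Prime := Fact.out
  obtain ⟨K, hHK, hK⟩ := Finite.exists_le_maximal (p := fun K : Subgroup Z => y ^ p ^ e ∉ K) hz
  have hzK : y ^ p ^ e ∉ K := hK.1
  have hzp : (y ^ p ^ e) ^ p = 1 := by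
    rw [← pow_mul, ← pow_succ]; exact hexp y
  have hKmax : ∀ g, g ∉ K → ∃ k ∈ K, ∃ j : ℤ, y ^ p ^ e = k * g ^ j := by
    intro g hg
    have h1 : y ^ p ^ e ∈ K ⊔ Subgroup.zpowers g := by
      by_contra hc
      have h2 := hK.2 (y := K ⊔ Subgroup.zpowers g) hc le_sup_left
      exact hg (h2 (Subgroup.mem_sup_right (Subgroup.mem_zpowers g)))
    rw [Subgroup.mem_sup] at h1
    obtain ⟨k, hk, w, hw, e1⟩ := h1
    obtain ⟨j, hj⟩ := Subgroup.mem_zpowers_iff.mp hw
    exact ⟨k, hk, j, by rw [hj, e1]⟩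
  refine ⟨K, hHK, ?_, ?_⟩
  · intro i hi
    by_contra hne
    have hi0 : i ≠ 0 := by
      rintro rfl
      exact hne (zpow_zero y)
    obtain ⟨a, j, hij, hj⟩ := H8_decomp hp hi0
    have hae : a ≤ e := by
      by_contra hc
      apply hne
      obtain ⟨d, hd⟩ := Nat.exists_eq_add_of_lt (not_le.mp hc)
      have hd' : a = (e + 1) + d := by omega
      rw [hij, hd', pow_add, mul_assoc, zpow_mul]
      have : y ^ ((p : ℤ) ^ (e + 1)) = 1 := by
        rw [← Nat.cast_pow, zpow_natCast, hexp]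
      rw [this, one_zpow]
    apply hzK
    apply H8_bez hp K _ (by rw [hzp]; exact K.one_mem) j hj
    obtain ⟨d, hd⟩ := Nat.exists_eq_add_of_le hae
    have e1 : (y ^ p ^ e) ^ j = (y ^ i) ^ (p ^ d) := by
      rw [hij, hd, ← zpow_natCast (y ^ _), ← zpow_natCast y, ← zpow_mul, ← zpow_mul]
      congr 1
      push_cast
      ring
    rw [e1]
    exact K.pow_mem hi _
  · by_contra hcon
    rw [not_forall] at hcon
    obtain ⟨g, hg⟩ := hcon
    have hMmem : ∀ g, g ∈ K ⊔ Subgroup.zpowers y ↔ ∃ k ∈ K, ∃ i : ℤ, g = k * y ^ i := by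
      intro g
      rw [Subgroup.mem_sup]
      constructor
      · rintro ⟨k, hk, w, hw, e1⟩
        obtain ⟨j, hj⟩ := Subgroup.mem_zpowers_iff.mp hw
        exact ⟨k, hk, j, by rw [hj, e1]⟩
      · rintro ⟨k, hk, i, e1⟩
        exact ⟨k, hk, y ^ i, Subgroup.zpow_mem _ (Subgroup.mem_zpowers y) i, e1.symm⟩
    rw [← hMmem] at hg
    generalize hM : K ⊔ Subgroup.zpowers y = M at hg hMmem
    have hKM : K ≤ M := by rw [← hM]; exact le_sup_left
    have hyM : y ∈ M := by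
      rw [← hM]; exact Subgroup.mem_sup_right (Subgroup.mem_zpowers y)
    -- a minimal power
    have hex : ∃ m : ℕ, g ^ p ^ m ∈ M := ⟨e + 1, by rw [hexp]; exact M.one_mem⟩
    classical
    have hm := Nat.find_spec hex
    have hmin := fun (k : ℕ) => Nat.find_min hex (m := k)
    generalize Nat.find hex = m at hm hmin
    have hm0 : m ≠ 0 := by
      rintro rfl
      rw [pow_zero, pow_one] at hm
      exact hg hm
    obtain ⟨m', rfl⟩ := Nat.exists_eq_succ_of_ne_zero hm0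
    have hg1 : g ^ p ^ m' ∉ M := hmin m' (Nat.lt_succ_self m')
    have hg2 : (g ^ p ^ m') ^ p ∈ M := by
      rw [← pow_mul, ← pow_succ]; exact hm
    generalize g ^ p ^ m' = x at hg1 hg2
    obtain ⟨k, hk, i, e1⟩ := (hMmem _).1 hg2
    have hpi : (p : ℤ) ∣ i := by
      by_contra hc
      apply hzK
      apply H8_bez hp K _ (by rw [hzp]; exact K.one_mem) i hc
      have e2 : (x ^ p) ^ p ^ e = 1 := by
        rw [← pow_mul, ← pow_succ', hexp]
      rw [e1, mul_pow] at e2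
      have e3 : (y ^ p ^ e) ^ i = (y ^ i) ^ p ^ e := by
        rw [← zpow_natCast (y ^ i), ← zpow_natCast y, ← zpow_mul, ← zpow_mul, mul_comm]
      rw [e3]
      have e4 : (y ^ i) ^ p ^ e = (k ^ p ^ e)⁻¹ := eq_inv_of_mul_eq_one_right e2
      rw [e4]
      exact K.inv_mem (K.pow_mem hk _)
    obtain ⟨i', rfl⟩ := hpi
    have hx' : (x * (y ^ i')⁻¹) ^ p = k := by
      rw [mul_pow, e1, inv_pow, ← zpow_natCast (y ^ i'), ← zpow_mul, mul_comm i',
        mul_inv_cancel_right]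
    have hx'M : x * (y ^ i')⁻¹ ∉ M := by
      intro hc
      apply hg1
      have := M.mul_mem hc (M.zpow_mem hyM i')
      rwa [inv_mul_cancel_right] at this
    obtain ⟨k', hk', j, e2⟩ := hKmax _ (fun hc => hx'M (hKM hc))
    have hj : ¬ (p : ℤ) ∣ j := by
      rintro ⟨j', rfl⟩
      apply hzK
      rw [e2, zpow_mul, zpow_natCast, hx']
      exact K.mul_mem hk' (K.zpow_mem hk _)
    apply hx'M
    apply H8_bez hp M _ (by rw [hx']; exact hKM hk) j hj
    have e3 : (x * (y ^ i')⁻¹) ^ j = k'⁻¹ * y ^ p ^ e := by rw [e2]; group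
    rw [e3]
    exact M.mul_mem (M.inv_mem (hKM hk')) (M.pow_mem hyM _)

/-- Automorphisms of a commutative `p`-group `Z`, `p` odd, with prescribed fixed points, acting on a
given element `z` by a scalar.

Proof.  If `z ∈ H₀`: `pf_odd`.  Otherwise let `K` be a subgroup of `Z` maximal among the subgroups
containing `H₀` and not `z` (finite).  Every subgroup properly containing `K` contains `z`, so
every nontrivial subgroup of `Z/K` contains the image of `z`; `z = y ^ p ^ e`.  Claim: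
`K ⊓ zpowers y = ⊥` (a nontrivial subgroup of the cyclic `p`-group `zpowers y` contains `z`, `y` has
order `p ^ (e+1)`), and `K ⊔ zpowers y = ⊤`: if `g ∉ K ⊔ zpowers y`, we may assume
`g ^ p ∈ K ⊔ zpowers y` (take a power), `g ^ p = k y ^ i`; `p ∣ i`, because otherwise
`(g ^ p) ^ p ^ e = 1` gives `k ^ p ^ e = y ^ (-i p ^ e) = z ^ (-i)`, so `z ∈ K`; so with
`g' = g y ^ (-i/p)`, `g' ^ p ∈ K`, `g' ∉ K ⊔ zpowers y`; `K ⊔ zpowers g' ∋ z` by maximality, so
`z = k' g' ^ j`, and `p ∤ j` (else `z ∈ K`), so `g' ∈ K ⊔ zpowers z ≤ K ⊔ zpowers y`,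
contradiction.  So `Z = K × zpowers y`.  `γ` on `K` with fixed points `H₀` (`pf_odd`), and
`β (k y ^ i) = γ(k) y ^ (2 i)`: an automorphism (`p` odd) with fixed points `H₀` and `β z = z ^ 2`. -/
theorem exists_beta {Z : Type} [CommGroup Z] [Finite Z] {p : ℕ} [Fact p.Prime] (h2 : p ≠ 2)
    (e : ℕ) (hexp : ∀ g : Z, g ^ p ^ (e + 1) = 1) (y : Z) (hy : y ^ p ^ e ≠ 1)
    (H₀ : Subgroup Z) :
    ∃ β : MulAut Z, (∀ g, β g = g ↔ g ∈ H₀) ∧
      ((y ^ p ^ e ∈ H₀ ∧ β (y ^ p ^ e) = y ^ p ^ e) ∨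
        (y ^ p ^ e ∉ H₀ ∧ β (y ^ p ^ e) = (y ^ p ^ e) ^ 2)) := by
  have hp : p.Prime := Fact.out
  have hZp : IsPGroup p Z := fun g => ⟨e + 1, hexp g⟩
  have hodd : Odd (Nat.card Z) := by
    obtain ⟨n, hn⟩ := (IsPGroup.iff_card).1 hZp
    rw [hn]
    exact (hp.odd_of_ne_two h2).pow
  by_cases hz : y ^ p ^ e ∈ H₀
  · obtain ⟨β, hβ⟩ := pf_odd Z hodd H₀
    exact ⟨β, hβ, Or.inl ⟨hz, (hβ _).2 hz⟩⟩
  · obtain ⟨K, hHK, hKy, hdec⟩ := H8_split e hexp y H₀ hz
    have hKodd : Odd (Nat.card K) := hodd.of_dvd_nat (Subgroup.card_subgroup_dvd_card K)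
    have hyodd : Odd (Nat.card (Subgroup.zpowers y)) :=
      hodd.of_dvd_nat (Subgroup.card_subgroup_dvd_card _)
    obtain ⟨γ, hγ⟩ := pf_odd K hKodd (H₀.subgroupOf K)
    have hsqb : Function.Bijective (fun w : Subgroup.zpowers y => w ^ 2) :=
      (powCoprime (G := Subgroup.zpowers y) (n := 2)
        ((Nat.coprime_two_right).2 hyodd)).bijective
    let sq : MulAut (Subgroup.zpowers y) := MulEquiv.ofBijective (powMonoidHom 2) hsqb
    have hsq : ∀ w, sq w = w ^ 2 := fun w => rfl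
    let f : K × Subgroup.zpowers y →* Z := K.subtype.coprod (Subgroup.zpowers y).subtype
    have hf : ∀ k w, f (k, w) = (k : Z) * (w : Z) := fun k w => rfl
    have hinj : Function.Injective f := by
      rw [injective_iff_map_eq_one]
      rintro ⟨k, w⟩ hkw
      rw [hf] at hkw
      obtain ⟨i, hi⟩ := Subgroup.mem_zpowers_iff.mp w.2
      have h3 : y ^ i ∈ K := by
        have : (w : Z) = (k : Z)⁻¹ := eq_inv_of_mul_eq_one_right hkw
        rw [hi, this]
        exact K.inv_mem k.2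
      have h4 := hKy i h3
      have h5 : (w : Z) = 1 := by rw [← hi, h4]
      have h6 : (k : Z) = 1 := by rw [h5, mul_one] at hkw; exact hkw
      have h7 : k = 1 := Subtype.ext h6
      have h8 : w = 1 := Subtype.ext h5
      rw [h7, h8]; rfl
    have hsurj : Function.Surjective f := by
      intro g
      obtain ⟨k, hk, i, rfl⟩ := hdec g
      exact ⟨(⟨k, hk⟩, ⟨y ^ i, Subgroup.zpow_mem _ (Subgroup.mem_zpowers y) i⟩), rfl⟩
    let E : K × Subgroup.zpowers y ≃* Z := MulEquiv.ofBijective f ⟨hinj, hsurj⟩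
    have hE : ∀ k w, E (k, w) = (k : Z) * (w : Z) := fun k w => rfl
    let β : MulAut Z := E.symm.trans ((MulEquiv.prodCongr γ sq).trans E)
    have hβE : ∀ k w, β (E (k, w)) = E (γ k, w ^ 2) := by
      intro k w
      show E ((MulEquiv.prodCongr γ sq) (E.symm (E (k, w)))) = _
      rw [MulEquiv.symm_apply_apply]
      rfl
    refine ⟨β, ?_, Or.inr ⟨hz, ?_⟩⟩
    · intro g
      obtain ⟨⟨k, w⟩, rfl⟩ := E.surjective g
      rw [hβE]
      constructor
      · intro h3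
        have h4 := E.injective h3
        rw [Prod.mk.injEq] at h4
        obtain ⟨h5, h6⟩ := h4
        have h7 : w = 1 := by
          rw [pow_two] at h6
          exact mul_eq_left.mp h6
        have h8 := (hγ k).1 h5
        rw [Subgroup.mem_subgroupOf] at h8
        rw [hE, h7]
        simpa using h8
      · intro h3
        have h4 : E (k, w) = E (⟨E (k, w), hHK h3⟩, 1) := by
          rw [hE ⟨E (k, w), hHK h3⟩ 1]
          simp
        have h5 := E.injective h4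
        rw [Prod.mk.injEq] at h5
        obtain ⟨h6, h7⟩ := h5
        have h8 : γ k = k := by
          rw [hγ, Subgroup.mem_subgroupOf, h6]
          exact h3
        rw [h8, h7, one_pow]
    · have h3 : y ^ p ^ e = E (1, ⟨y ^ p ^ e, Subgroup.pow_mem _ (Subgroup.mem_zpowers y) _⟩) := by
        rw [hE]; simp
      have h4 : (y ^ p ^ e) ^ 2 =
          E (1, ⟨y ^ p ^ e, Subgroup.pow_mem _ (Subgroup.mem_zpowers y) _⟩ ^ 2) := by
        rw [hE]; simp
      rw [h4]
      conv_lhs => rw [h3]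
      rw [hβE, map_one]

end FPX
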