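import Pool.Agent.FPX.H7
import Pool.Agent.FPX.H8
import Pool.Agent.FPX.H10
import Pool.Agent.FPX.H11

namespace FPX

variable {P : Type} [Group P] [Finite P] {p : ℕ}

theorem H12_add {P : Type} [Group P] {p : ℕ} {z : P} (hz : orderOf z = p) [NeZero p]
    (a b : ZMod p) : z ^ (a + b).val = z ^ a.val * z ^ b.val := by
  have h := pow_mod_orderOf z (a.val + b.val)
  rw [hz] at h
  rw [ZMod.val_add, h, pow_add]

theorem H12_cmem {P : Type} [Group P] {p : ℕ} [Fact p.Prime] {z : P} (hz : orderOf z = p)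
    (H : Subgroup P) (c : ZMod p) (hc : c ≠ 0) (h : z ^ c.val ∈ H) : z ∈ H := by
  have h1 : (z ^ c.val) ^ (c⁻¹).val = z := by
    rw [← pow_mul]
    have h2 := pow_mod_orderOf z (c.val * (c⁻¹).val)
    rw [hz, ← ZMod.val_mul, mul_inv_cancel₀ hc, ZMod.val_one, pow_one] at h2
    exact h2.symm
  rw [← h1]
  exact H.pow_mem h _

theorem H12_zero {P : Type} [Group P] {p : ℕ} {z : P} {V : Type} [AddCommGroup V]
    [Module (ZMod p) V] {ω : V →ₗ[ZMod p] V →ₗ[ZMod p] ZMod p} {σ : V → P}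
    (h : Hei p z V ω σ) : σ 0 = 1 := by
  have h1 := h.mul 0 0
  simp only [add_zero, map_zero, mul_zero, ZMod.val_zero, pow_zero, mul_one] at h1
  exact mul_eq_left.mp h1

theorem H12_mul {P : Type} [Group P] {p : ℕ} {z : P} {V : Type} [AddCommGroup V]
    [Module (ZMod p) V] {ω : V →ₗ[ZMod p] V →ₗ[ZMod p] ZMod p} {σ : V → P}
    (h : Hei p z V ω σ) (u v : V) (ζ ζ' : Subgroup.center P) :
    σ u * ζ * (σ v * ζ') = σ (u + v) *
      (((⟨z, h.zc⟩ : Subgroup.center P) ^ ((2 : ZMod p)⁻¹ * ω u v).val * (ζ * ζ') :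
        Subgroup.center P) : P) := by
  have h1 : (ζ : P) * σ v = σ v * ζ := (Subgroup.mem_center_iff.mp ζ.2 (σ v)).symm
  have h2 : (((⟨z, h.zc⟩ : Subgroup.center P) ^ ((2 : ZMod p)⁻¹ * ω u v).val * (ζ * ζ') :
        Subgroup.center P) : P) = z ^ ((2 : ZMod p)⁻¹ * ω u v).val * (ζ * ζ') := by
    rw [Subgroup.coe_mul, Subgroup.coe_mul, Subgroup.coe_pow]
  rw [h2]
  calc σ u * ζ * (σ v * ζ') = σ u * (ζ * σ v) * ζ' := by simp only [mul_assoc]
    _ = σ u * (σ v * ζ) * ζ' := by rw [h1]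
    _ = (σ u * σ v) * (ζ * ζ') := by simp only [mul_assoc]
    _ = _ := by rw [h.mul]; simp only [mul_assoc]

theorem H12_skew {p : ℕ} {V : Type} [AddCommGroup V] [Module (ZMod p) V]
    {ω : V →ₗ[ZMod p] V →ₗ[ZMod p] ZMod p} (h : ∀ u, ω u u = 0) (u v : V) :
    ω v u = - ω u v := by
  have h1 := h (u + v)
  simp only [map_add, LinearMap.add_apply, h, zero_add, add_zero] at h1
  exact eq_neg_of_add_eq_zero_left h1

theorem H12_comm {P : Type} [Group P] {p : ℕ} [Fact p.Prime] {z : P} {V : Type} [AddCommGroup V]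
    [Module (ZMod p) V] {ω : V →ₗ[ZMod p] V →ₗ[ZMod p] ZMod p} {σ : V → P}
    (h : Hei p z V ω σ) (h2 : p ≠ 2) (u v : V) (ζ ζ' : Subgroup.center P) :
    σ u * ζ * (σ v * ζ') * (σ v * ζ' * (σ u * ζ))⁻¹ = z ^ (ω u v).val := by
  rw [H12_mul h, H12_mul h]
  have h7 : ω u v = (2 : ZMod p)⁻¹ * ω u v - (2 : ZMod p)⁻¹ * ω v u := by
    rw [H12_skew h.alt u v]
    have h8 : (2 : ZMod p) ≠ 0 := by
      intro h0
      have h3 : ((2 : ℕ) : ZMod p) = 0 := by exact_mod_cast h0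
      rw [ZMod.natCast_eq_zero_iff] at h3
      exact h2 ((Nat.prime_dvd_prime_iff_eq Fact.out Nat.prime_two).1 h3)
    field_simp
    ring
  have h9 : z ^ (ω u v).val * z ^ ((2 : ZMod p)⁻¹ * ω v u).val =
      z ^ ((2 : ZMod p)⁻¹ * ω u v).val := by
    rw [← H12_add h.zp]
    congr 2
    linear_combination h7
  have h11 : ζ' * ζ = ζ * ζ' := Subtype.ext (Subgroup.mem_center_iff.mp ζ.2 ζ')
  rw [add_comm v u, h11]
  simp only [Subgroup.coe_mul, Subgroup.coe_pow]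
  rw [← h9]
  simp only [mul_inv_rev, mul_assoc, mul_inv_cancel_left]
  have h10 := Subgroup.mem_center_iff.mp (Subgroup.pow_mem _ h.zc (ω u v).val)
    (σ (u + v))
  rw [← mul_assoc, h10]
  simp only [mul_assoc, mul_inv_cancel, mul_one]

theorem H12_beta {P : Type} [Group P] [Finite P] {p : ℕ} [Fact p.Prime] (h2 : p ≠ 2) (e : ℕ)
    (he : ∀ ζ ∈ Subgroup.center P, ζ ^ p ^ (e + 1) = 1) (z : P) (hz : z ∈ Subgroup.center P)
    (hz1 : z ≠ 1) (hy : ∃ ζ ∈ Subgroup.center P, ζ ^ p ^ e = z) (H : Subgroup P) :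
    ∃ β : MulAut (Subgroup.center P), (∀ g : Subgroup.center P, β g = g ↔ (g : P) ∈ H) ∧
      ((z ∈ H ∧ β ⟨z, hz⟩ = ⟨z, hz⟩) ∨ (z ∉ H ∧ β ⟨z, hz⟩ = ⟨z, hz⟩ ^ 2)) := by
  obtain ⟨y, hyZ, hy⟩ := hy
  have hyz : (⟨y, hyZ⟩ : Subgroup.center P) ^ p ^ e = ⟨z, hz⟩ := by
    apply Subtype.ext
    rw [Subgroup.coe_pow]
    exact hy
  obtain ⟨β, hβf, hβz⟩ := @exists_beta (Subgroup.center P)
    { (inferInstance : Group (Subgroup.center P)) with
      mul_comm := fun a b => Subtype.ext (Subgroup.mem_center_iff.mp b.2 a) } _ p _ h2 e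
    (fun g => Subtype.ext (he g g.2)) ⟨y, hyZ⟩
    (fun h0 => hz1 (congrArg Subtype.val (hyz.symm.trans h0)))
    (H.subgroupOf (Subgroup.center P))
  have hβz' : ((⟨y, hyZ⟩ : Subgroup.center P) ^ p ^ e ∈ H.subgroupOf (Subgroup.center P) ∧
      β (⟨y, hyZ⟩ ^ p ^ e) = ⟨y, hyZ⟩ ^ p ^ e) ∨
      ((⟨y, hyZ⟩ : Subgroup.center P) ^ p ^ e ∉ H.subgroupOf (Subgroup.center P) ∧
      β (⟨y, hyZ⟩ ^ p ^ e) = (⟨y, hyZ⟩ ^ p ^ e) ^ 2) := hβz
  rw [hyz] at hβz'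
  exact ⟨β, fun g => hβf g, hβz'⟩

/-- the space of those `u` for which some `σ u ζ` is in `H` -/
theorem H12_space {P : Type} [Group P] {p : ℕ} [Fact p.Prime] {z : P} {V : Type}
    [AddCommGroup V] [Module (ZMod p) V] {ω : V →ₗ[ZMod p] V →ₗ[ZMod p] ZMod p} {σ : V → P}
    (h : Hei p z V ω σ) (H : Subgroup P) :
    ∃ U : Submodule (ZMod p) V, ∀ u, u ∈ U ↔ ∃ ζ : Subgroup.center P, σ u * ζ ∈ H := by
  let S : AddSubgroup V :=
    { carrier := {u | ∃ ζ : Subgroup.center P, σ u * ζ ∈ H}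
      add_mem' := by
        rintro u v ⟨ζ, hζ⟩ ⟨ζ', hζ'⟩
        exact ⟨_, by rw [← H12_mul h]; exact H.mul_mem hζ hζ'⟩
      zero_mem' := by
        refine ⟨1, ?_⟩
        rw [H12_zero h, one_mul]
        exact H.one_mem
      neg_mem' := by
        rintro u ⟨ζ, hζ⟩
        refine ⟨ζ⁻¹, ?_⟩
        have h1 : (σ u * ζ) * (σ (-u) * (ζ⁻¹ : Subgroup.center P)) = 1 := by
          rw [H12_mul h, add_neg_cancel, H12_zero h, mul_inv_cancel, mul_one, map_neg, h.alt,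
            neg_zero, mul_zero, ZMod.val_zero, pow_zero, Subgroup.coe_one, mul_one]
        rw [← inv_eq_of_mul_eq_one_right h1]
        exact H.inv_mem hζ }
  exact ⟨AddSubgroup.toZModSubmodule p S, fun u => Iff.rfl⟩

/-- Sufficiency.

Proof.  `Com` from `exists_com`, `V, ω, σ` from `exists_hei` (`Cond`).  `Z = center P`; `z = y ^ p ^ e`
with `y ∈ Z` (third condition).  Let `H` be a subgroup.  `H₀ = {ζ ∈ Z : ζ ∈ H}`,
`U = {u : σ u ζ ∈ H for some ζ ∈ Z}`, a submodule.  `exists_beta` for `H₀`: `β`, and put `χ = 1`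
if `z ∈ H₀`, `χ = 2` if not.  If `χ = 2`, `U` is totally isotropic: for `g = σ u ζ`, `g' = σ v ζ'` in
`H`, `[g, g'] = z ^ (ω u v) ∈ H ∩ Z`, so `ω u v = 0`.  `symp_fix` gives `A` with multiplier `χ` and
fixed space `U`.  For `u ∈ U` choose `s(u) ∈ Z` with `σ u s(u) ∈ H`; `δ(u) := s(u) β(s(u))⁻¹`.  It does
not depend on the choice of `s(u)` (modulo `H₀`, on which `β` is trivial) and is multiplicative on `U`:
`s(u) s(v) z ^ (ω u v / 2)` is a choice of `s(u + v)`, and either `β z = z` or `ω u v = 0`.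
Extend `δ` to `V` (a complement of `U`, `δ = 1` there).  `hei_aut` gives `α`.
`α (σ u ζ) = σ u ζ` iff `A u = u` and `δ(u) β(ζ) = ζ` (`hei_unique`), iff `u ∈ U` and
`s(u) β(s(u))⁻¹ = ζ β(ζ)⁻¹`, iff `u ∈ U` and `s(u)⁻¹ ζ` is fixed by `β`, i.e. in `H₀`, iff
`σ u ζ ∈ H`. -/
theorem suff [Fact p.Prime] (hP : IsPGroup p P) (hD : Nat.card (commutator P) = p)
    (hc : Cond p P) : PF P := by
  obtain ⟨h2, hc1, e, he, hce⟩ := hc
  obtain ⟨z, κ, hC⟩ := exists_com hP hD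
  obtain ⟨V, _, _, _, ω, σ, hH⟩ := exists_hei hC h2 hc1
  have hzD : z ∈ commutator P := (hC.zD z).2 ⟨1, (pow_one z).symm⟩
  have hz1 : z ≠ 1 := by
    intro h0
    have h1 := hC.zp
    rw [h0, orderOf_one] at h1
    exact (Fact.out : p.Prime).one_lt.ne h1
  intro H
  obtain ⟨β, hβf, hβz⟩ := H12_beta h2 e he z hH.zc hz1 (hce z hzD) H
  obtain ⟨U, hU⟩ := H12_space hH H
  -- multiplier
  have hχ : ∃ χ : ZMod p, χ ≠ 0 ∧ (χ = 1 ∨ ∀ u ∈ U, ∀ v ∈ U, ω u v = 0) ∧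
      ((β ⟨z, hH.zc⟩ : Subgroup.center P) : P) = z ^ χ.val := by
    rcases hβz with ⟨hz, hb⟩ | ⟨hz, hb⟩
    · refine ⟨1, one_ne_zero, Or.inl rfl, ?_⟩
      rw [hb, ZMod.val_one, pow_one]
    · refine ⟨2, ?_, Or.inr ?_, ?_⟩
      · intro h0
        have h3 : ((2 : ℕ) : ZMod p) = 0 := by exact_mod_cast h0
        rw [ZMod.natCast_eq_zero_iff] at h3
        exact h2 ((Nat.prime_dvd_prime_iff_eq Fact.out Nat.prime_two).1 h3)
      · intro u hu v hv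
        obtain ⟨ζ, hζ⟩ := (hU u).1 hu
        obtain ⟨ζ', hζ'⟩ := (hU v).1 hv
        by_contra h0
        apply hz
        have h5 := H.mul_mem (H.mul_mem hζ hζ') (H.inv_mem (H.mul_mem hζ' hζ))
        rw [H12_comm hH h2] at h5
        exact H12_cmem hC.zp H _ h0 h5
      · rw [hb, Subgroup.coe_pow]
        have h3 := pow_mod_orderOf z 2
        rw [hC.zp] at h3
        have h4 : (2 : ZMod p).val = 2 % p := by
          have := ZMod.val_natCast p 2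
          exact_mod_cast this
        rw [h4, h3]
  obtain ⟨χ, hχ0, hχ1, hχz⟩ := hχ
  obtain ⟨A, hA, hAU⟩ := symp_fix h2 _ V ω le_rfl hH.alt hH.nondeg U χ hχ0 hχ1
  -- independence of the choice
  have hind : ∀ u, ∀ ζ ζ' : Subgroup.center P, σ u * ζ ∈ H → σ u * ζ' ∈ H →
      ζ * (β ζ)⁻¹ = ζ' * (β ζ')⁻¹ := by
    intro u ζ ζ' h3 h4
    have h5 : β (ζ⁻¹ * ζ') = ζ⁻¹ * ζ' := by
      rw [hβf]
      have h6 := H.mul_mem (H.inv_mem h3) h4
      rw [mul_inv_rev, mul_assoc, inv_mul_cancel_left] at h6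
      rw [Subgroup.coe_mul, Subgroup.coe_inv]
      exact h6
    rw [map_mul, map_inv] at h5
    have h6 : β ζ' = β ζ * (ζ⁻¹ * ζ') := by
      rw [← h5, mul_inv_cancel_left]
    rw [h6, mul_inv_rev, mul_inv_rev, inv_inv]
    simp only [mul_assoc]
    rw [mul_inv_cancel_left]
  choose s hs using fun u : U => (hU u).1 u.2
  have hδ₀ : ∀ u v : U, s (u + v) * (β (s (u + v)))⁻¹ =
      (s u * (β (s u))⁻¹) * (s v * (β (s v))⁻¹) := by
    intro u v
    have h3 := H.mul_mem (hs u) (hs v)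
    rw [H12_mul hH] at h3
    have h4 := hs (u + v)
    rw [Submodule.coe_add] at h4
    rw [hind _ _ _ h4 h3]
    have h5 : β ((⟨z, hH.zc⟩ : Subgroup.center P) ^ ((2 : ZMod p)⁻¹ * ω u v).val) =
        (⟨z, hH.zc⟩ : Subgroup.center P) ^ ((2 : ZMod p)⁻¹ * ω u v).val := by
      rw [map_pow]
      rcases hχ1 with h6 | h6
      · congr 1
        apply Subtype.ext
        rw [hχz, h6, ZMod.val_one, pow_one]
      · rw [h6 u u.2 v v.2, mul_zero, ZMod.val_zero, pow_zero, pow_zero]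
    rw [map_mul, map_mul, h5]
    simp only [mul_inv_rev]
    generalize (⟨z, hH.zc⟩ : Subgroup.center P) ^ ((2 : ZMod p)⁻¹ * ω u v).val = c
    generalize s u = a
    generalize s v = b
    have hcm : ∀ a b : Subgroup.center P, a * b = b * a := fun a b =>
      Subtype.ext (Subgroup.mem_center_iff.mp b.2 a)
    rw [hcm c (a * b)]
    simp only [mul_assoc]
    rw [hcm (β b)⁻¹ ((β a)⁻¹ * c⁻¹), hcm (β a)⁻¹ c⁻¹]
    simp only [mul_assoc]
    rw [mul_inv_cancel_left, ← mul_assoc b, hcm b (β a)⁻¹]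
    simp only [mul_assoc]
  obtain ⟨π, hπ⟩ := LinearMap.exists_leftInverse_of_injective U.subtype
    (LinearMap.ker_eq_bot.2 U.injective_subtype)
  have hπ' : ∀ u (hu : u ∈ U), π u = ⟨u, hu⟩ := by
    intro u hu
    exact congrArg (fun f => f ⟨u, hu⟩) hπ
  obtain ⟨α, hα⟩ := hei_aut hH χ A hA β hχz (fun u => s (π u) * (β (s (π u)))⁻¹) (fun u v => by
    rw [map_add]
    exact hδ₀ _ _)
  refine ⟨α, fun g => ?_⟩
  obtain ⟨u, ζ₀, hζ₀, rfl⟩ := hH.rep g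
  obtain ⟨ζ, rfl⟩ : ∃ ζ : Subgroup.center P, (ζ : P) = ζ₀ := ⟨⟨ζ₀, hζ₀⟩, rfl⟩
  rw [hα]
  constructor
  · intro h3
    obtain ⟨h4, h5⟩ := hei_unique hH _ _ _ _ h3
    have hu := (hAU u).1 h4
    rw [hπ' u hu] at h5
    have h6 : β ((s ⟨u, hu⟩)⁻¹ * ζ) = (s ⟨u, hu⟩)⁻¹ * ζ := by
      rw [map_mul, map_inv, eq_inv_mul_iff_mul_eq, ← mul_assoc]
      exact h5
    rw [hβf, Subgroup.coe_mul, Subgroup.coe_inv] at h6
    have h7 := H.mul_mem (hs ⟨u, hu⟩) h6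
    rw [mul_assoc, mul_inv_cancel_left] at h7
    exact h7
  · intro h3
    have hu : u ∈ U := (hU u).2 ⟨ζ, h3⟩
    rw [hπ' u hu, (hAU u).2 hu, hind u _ _ (hs ⟨u, hu⟩) h3, inv_mul_cancel_right]

end FPX
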