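import Pool.Agent.FPX.H1
import Pool.Agent.FPX.B6

namespace FPX

variable {P : Type} [Group P] [Finite P] {p : ℕ}

omit [Finite P] in
theorem H6_zpow_eq [Fact p.Prime] {z : P} (hz : orderOf z = p) (i j : ℤ) :
    z ^ i = z ^ j ↔ (i : ZMod p) = (j : ZMod p) := by
  rw [zpow_eq_zpow_iff_modEq, hz, ZMod.intCast_eq_intCast_iff]

/-- Necessity of the third condition.

Proof.  `Z`, the centre, is a nontrivial `p`-group; let `p ^ (e+1)` be its exponent (`e ≥ 0`), and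
`t ∈ Z` with `w = t ^ p ^ e ≠ 1`.  It is enough to show that `z` is a `p ^ e`-th power in `Z`.  Suppose
not.  `H = zpowers (z w⁻¹)`, `α` with fixed points `H`, `α z = z ^ χ` (`com_aut`).
`α (z w⁻¹) = z w⁻¹` gives `z ^ χ z⁻¹ = α(w) w⁻¹ = (α(t) t⁻¹) ^ p ^ e`, with `α(t) t⁻¹ ∈ Z`.  If
`χ ≠ 1` a power gives that `z` is a `p ^ e`-th power of an element of `Z`, contradiction.  So `χ = 1`,
`α z = z`, `z ∈ H`: `z = (z w⁻¹) ^ k`, `w ^ k = z ^ (k - 1)`.  `w ^ p = 1`.  If `p ∣ k - 1` then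
`w = w ^ k = 1`, contradiction.  Otherwise `z` is a power of `w = t ^ p ^ e`, contradiction. -/
theorem nec3 [Fact p.Prime] (hP : IsPGroup p P) {z : P} {κ : P → P → ZMod p} (h : Com p z κ)
    (hF : PF P) : ∃ e : ℕ, (∀ ζ ∈ Subgroup.center P, ζ ^ p ^ (e + 1) = 1) ∧
      ∀ c ∈ commutator P, ∃ ζ ∈ Subgroup.center P, ζ ^ p ^ e = c := by
  have hp : p.Prime := Fact.out
  have hz1 : z ≠ 1 := by
    intro h0
    have := h.zp
    rw [h0, orderOf_one] at this
    exact hp.ne_one this.symm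
  have hex : ∃ m : ℕ, ∀ ζ ∈ Subgroup.center P, ζ ^ p ^ m = 1 := by
    obtain ⟨n, hn⟩ := (IsPGroup.iff_card).1 hP
    refine ⟨n, fun ζ _ => ?_⟩
    rw [← hn, pow_card_eq_one']
  classical
  have hm := Nat.find_spec hex
  have hmin := fun (k : ℕ) => Nat.find_min hex (m := k)
  generalize Nat.find hex = m at hm hmin
  have hm0 : m ≠ 0 := by
    intro h0
    apply hz1
    have := hm z h.zc
    rwa [h0, pow_zero, pow_one] at this
  obtain ⟨e, rfl⟩ := Nat.exists_eq_succ_of_ne_zero hm0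
  have ht := hmin e (Nat.lt_succ_self e)
  rw [not_forall] at ht
  obtain ⟨t, ht⟩ := ht
  rw [Classical.not_imp] at ht
  obtain ⟨htc, hw1⟩ := ht
  refine ⟨e, hm, ?_⟩
  -- enough: z is a p^e-th power
  suffices hsuf : ∃ ζ ∈ Subgroup.center P, ζ ^ p ^ e = z by
    obtain ⟨ζ, hζ, hζe⟩ := hsuf
    intro c hc
    obtain ⟨i, rfl⟩ := (h.zD c).1 hc
    refine ⟨ζ ^ i, Subgroup.pow_mem _ hζ i, ?_⟩
    rw [← pow_mul, Nat.mul_comm, pow_mul, hζe]
  by_contra hcon
  have hno : ∀ ζ ∈ Subgroup.center P, ζ ^ p ^ e ≠ z := by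
    intro ζ hζ he
    exact hcon ⟨ζ, hζ, he⟩
  obtain ⟨w, hw⟩ : ∃ w, w = t ^ p ^ e := ⟨_, rfl⟩
  rw [← hw] at hw1
  have hwc : w ∈ Subgroup.center P := by rw [hw]; exact Subgroup.pow_mem _ htc _
  have hwp : w ^ p = 1 := by rw [hw, ← pow_mul, ← pow_succ]; exact hm t htc
  obtain ⟨α, hα⟩ := hF (Subgroup.zpowers (z * w⁻¹))
  obtain ⟨χ, hχ, _⟩ := com_aut h α
  have hαc : ∀ c ∈ Subgroup.center P, α c ∈ Subgroup.center P := by
    intro c hc
    exact char_mem inferInstance α hc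
  have hcomm : ∀ c ∈ Subgroup.center P, ∀ g : P, Commute c g := by
    intro c hc g
    exact (Subgroup.mem_center_iff.mp hc g).symm
  have h1 : α (z * w⁻¹) = z * w⁻¹ := (hα _).2 (Subgroup.mem_zpowers _)
  have h2 : z ^ ((χ.val : ℤ) - 1) = (t⁻¹ * α t) ^ p ^ e := by
    have e1 : (t⁻¹ * α t) ^ p ^ e = w⁻¹ * α w := by
      rw [((hcomm t htc (α t)).inv_left).mul_pow, inv_pow, ← map_pow, ← hw]
    rw [e1, zpow_sub, zpow_one, zpow_natCast, ← hχ]
    rw [map_mul, map_inv] at h1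
    have e2 : α z = z * w⁻¹ * α w := by rw [← h1]; group
    rw [e2]
    have e3 : z * w⁻¹ * α w = w⁻¹ * α w * z := by
      rw [mul_assoc]
      exact (hcomm z h.zc _).eq
    rw [e3]; group
  have hcc : t⁻¹ * α t ∈ Subgroup.center P :=
    Subgroup.mul_mem _ (Subgroup.inv_mem _ htc) (hαc t htc)
  by_cases hχ1 : χ = 1
  · -- α z = z
    have hαz : α z = z := by
      rw [hχ, hχ1, ZMod.val_one p, pow_one]
    have hzH := (hα z).1 hαz
    obtain ⟨k, hk⟩ := Subgroup.mem_zpowers_iff.mp hzH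
    have e1 : w ^ k = z ^ (k - 1) := by
      have e2 : (z * w⁻¹) ^ k = z ^ k * (w ^ k)⁻¹ := by
        rw [(hcomm z h.zc (w⁻¹)).mul_zpow, inv_zpow]
      rw [e2] at hk
      rw [zpow_sub, zpow_one]
      have e3 : z ^ k = z * w ^ k := by
        rw [← mul_inv_eq_iff_eq_mul]; exact hk
      rw [e3, (hcomm z h.zc (w ^ k)).eq]; group
    by_cases hd : (p : ℤ) ∣ k - 1
    · apply hw1
      obtain ⟨c, hc⟩ := hd
      have e2 : z ^ (k - 1) = 1 := by
        rw [hc, zpow_mul, zpow_natCast, ← h.zp, pow_orderOf_eq_one, one_zpow]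
      have e3 : w ^ k = w := by
        have e4 : k = (p : ℤ) * c + 1 := by omega
        rw [e4, zpow_add, zpow_mul, zpow_natCast, hwp, one_zpow, one_mul, zpow_one]
      rw [← e3, e1, e2]
    · have hcop : IsCoprime (p : ℤ) (k - 1) :=
        (Prime.coprime_iff_not_dvd (Nat.prime_iff_prime_int.mp hp)).2 hd
      obtain ⟨v, u, huv⟩ := hcop
      apply hno (t ^ (k * u)) (Subgroup.zpow_mem _ htc _)
      have e2 : (t ^ (k * u)) ^ p ^ e = (w ^ k) ^ u := by
        rw [hw, ← zpow_natCast (t ^ (k * u)), ← zpow_natCast t, ← zpow_mul, ← zpow_mul,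
          ← zpow_mul]
        congr 1
        ring
      rw [e2, e1, ← zpow_mul]
      have e3 : (k - 1) * u = 1 - v * p := by linear_combination huv
      rw [e3, zpow_sub, zpow_one, mul_comm v, zpow_mul, zpow_natCast, ← h.zp, pow_orderOf_eq_one,
        one_zpow, inv_one, mul_one]
  · have hχ2 : χ - 1 ≠ 0 := sub_ne_zero.mpr hχ1
    apply hno ((t⁻¹ * α t) ^ ((χ - 1)⁻¹).val) (Subgroup.pow_mem _ hcc _)
    rw [← pow_mul, Nat.mul_comm, pow_mul, ← h2, ← zpow_natCast, ← zpow_mul]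
    have e1 : z ^ (((χ.val : ℤ) - 1) * (((χ - 1)⁻¹).val : ℤ)) = z ^ (1 : ℤ) := by
      rw [H6_zpow_eq h.zp]
      push_cast
      rw [ZMod.natCast_val, ZMod.cast_id, ZMod.natCast_val, ZMod.cast_id, mul_inv_cancel₀ hχ2]
    rw [e1, zpow_one]

/-- `p ≠ 2`: the derived subgroup would be a characteristic subgroup of order 2 (`no_sec2` with
`K = ⊥`). -/
theorem nec1 (hD : Nat.card (commutator P) = p) (hF : PF P) : p ≠ 2 := by
  intro h2
  obtain ⟨α, hα⟩ := hF ⊥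
  refine no_sec2 (commutator P) ⊥ inferInstance inferInstance bot_le ?_ α ?_
  · rw [Subgroup.relIndex_bot_left, hD, h2]
  · intro g hg
    exact Subgroup.mem_bot.1 ((hα g).1 hg)

end FPX
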