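import Pool.Agent.FPX.H5
import Pool.Agent.FPX.H6
import Pool.Agent.FPX.H12

namespace FPX

variable {P : Type} [Group P] [Finite P] {p : ℕ}

/-- THEOREM C.  A finite `p`-group with derived subgroup of order `p` has (F) iff `p` is odd, it is
the product of its elements of order dividing `p` and its centre, and the derived subgroup
consists of `p ^ e`-th powers of central elements, `p ^ (e+1)` the exponent of the centre.
Assembly of `exists_com`, `nec1`, `nec2`, `nec3`, `suff`. -/
theorem thmC (hp : p.Prime) (hP : IsPGroup p P) (hD : Nat.card (commutator P) = p) :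
    PF P ↔ Cond p P := by
  have : Fact p.Prime := ⟨hp⟩
  refine ⟨fun hF => ?_, fun hc => suff hP hD hc⟩
  have h2 := nec1 hD hF
  obtain ⟨z, κ, h⟩ := exists_com hP hD
  exact ⟨h2, nec2 hP h h2 hF, nec3 hP h hF⟩

end FPX
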