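import Pool.Agent.FPX.F4
import Pool.Agent.FPX.H13

namespace FPX

open scoped commutatorElement

/-- the derived subgroup of a group embedded into a finite group `P` has order dividing that of the
derived subgroup of `P` -/
theorem H14_card {B G : Type} [Group B] [Group G] [Finite G] (j : B →* G)
    (hj : Function.Injective j) (P : Subgroup G) (hP : ∀ b, j b ∈ P) :
    Nat.card (commutator B) ∣ Nat.card (commutator P) := by
  let k : B →* P := j.codRestrict P hP
  have hk : Function.Injective k := by
    intro a b hab
    exact hj (congrArg Subtype.val hab)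
  have h1 : (commutator B).map k ≤ commutator P := by
    rw [commutator_def, commutator_def, Subgroup.map_commutator]
    exact Subgroup.commutator_mono le_top le_top
  rw [Nat.card_congr ((commutator B).equivMapOfInjective k hk).toEquiv]
  exact Subgroup.card_dvd_of_le h1

/-- Groups whose Sylow subgroups have derived subgroup of order at most `q`.

Proof.  As `main_ab`.  If `PF G`, take the blocks `B i` of `main`.  Let `B i` be a `q`-group with (F).  It
embeds in `G` as a `q`-subgroup, contained in a Sylow `q`-subgroup `Q`, so its derived subgroup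
embeds in the one of `Q` and has order dividing `q`: `1` or `q`.  If it is `1`, `B i` is commutative
and `main_ab` (applied to the group `B i`) or its proof gives `BlockAb (B i)`; otherwise `thmC`.
Conversely each `BlockD` has (F) (`thmC`; for `BlockAb` see the proof of `main_ab`); `pf_pi`, `pf_iso`. -/
theorem main_d (G : Type) [Group G] [Finite G] [Group.IsSolvable G]
    (hS : ∀ (q : ℕ) [Fact q.Prime] (Q : Sylow q G), Nat.card (commutator Q) ∣ q) :
    PF G ↔ DecD G := by
  constructor
  · intro hF
    obtain ⟨ι, hι, B, hB, hblk, hcop, ⟨f⟩⟩ := (main G).1 hF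
    refine ⟨ι, hι, B, hB, fun i => ?_, hcop, ⟨f⟩⟩
    obtain ⟨j, hj⟩ := F4_fin B f i
    have hfin : Finite (B i) := Finite.of_injective j hj
    rcases hblk i with ⟨q, hq, hpq, hPF⟩ | h
    · have : Fact q.Prime := ⟨hq⟩
      have hR : IsPGroup q j.range := hpq.of_surjective j.rangeRestrict j.rangeRestrict_surjective
      obtain ⟨P, hP⟩ := hR.exists_le_sylow
      have hdvd : Nat.card (commutator (B i)) ∣ q :=
        (H14_card j hj (P : Subgroup G) fun b => hP ⟨b, rfl⟩).trans (hS q P)
      rcases (Nat.dvd_prime hq).1 hdvd with h1 | h1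
      · left
        have hc : ∀ a b : B i, a * b = b * a := by
          have h3 : commutator (B i) = ⊥ := Subgroup.card_eq_one.1 h1
          intro a b
          have h4 : ⁅a, b⁆ ∈ commutator (B i) :=
            Subgroup.commutator_mem_commutator (Subgroup.mem_top a) (Subgroup.mem_top b)
          rw [h3, Subgroup.mem_bot, commutatorElement_eq_one_iff_mul_comm] at h4
          exact h4
        by_cases hq2 : q = 2
        · subst hq2
          exact F4_two (B i) hc hpq hPF
        · exact Or.inl ⟨hc, q, hq, hq2, hpq⟩
      · right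
        exact ⟨q, hq, hpq, h1, (thmC hq hpq h1).1 hPF⟩
    · exact Or.inl (Or.inr (Or.inr h))
  · rintro ⟨ι, hι, B, hB, hblk, hcop, ⟨f⟩⟩
    have hfin : ∀ i, Finite (B i) := by
      intro i
      obtain ⟨j, hj⟩ := F4_fin B f i
      exact Finite.of_injective j hj
    refine pf_iso f.symm (pf_pi B hcop fun i => ?_)
    rcases hblk i with (⟨hc, q, hq, hq2, hpq⟩ | ⟨κ, hκ, e, he, hce, ⟨g⟩⟩ |
      ⟨p, r, M, A, hA, hp, h5, hr, h2, hrp, hM, hAf, hAp, ⟨g⟩⟩) | ⟨q, hq, hpq, hD, hcond⟩
    · exact F4_odd (B i) hc hq hq2 hpq
    · exact pf_iso g.symm (pf_two e he hce)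
    · exact pf_iso g.symm (pf_aff hp h5 hr h2 hrp M hM A hAp)
    · exact (thmC hq hpq hD).2 hcond

end FPX
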