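import Pool.Agent.FPX.Defs4
import Pool.Agent.FPX.A3
import Pool.Agent.FPX.H1

namespace FPX

variable {P : Type} [Group P] [Finite P] {p : ℕ}

omit [Finite P] in
theorem H2_central [Fact p.Prime] {z : P} {κ : P → P → ZMod p} (h : Com p z κ) {c : P}
    (hc : c ∈ Subgroup.center P) (x : P) : κ c x = 0 := by
  rw [h.eq_zero]
  exact (Subgroup.mem_center_iff.mp hc x).symm

/-- Double orthogonal.  If `S` is a subgroup containing the centre and `g ∉ S` then there is `y`
commuting with `S` but not with `g`.

Proof.  `P/Z(P)` is a finite dimensional vector space over `F_p` (all `x ^ p` and all commutators are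
central) with the nondegenerate alternating form `κ`, and `S/Z(P)` is a subspace, equal to its double
orthogonal.  Elementary version: the set `S^⊥ = {y : κ s y = 0 for all s ∈ S}` is a subgroup
with `|P : S^⊥| ≤ |S : Z|` (the map `y ↦ κ · y` to the homomorphisms from `S/Z` to `F_p`, an
elementary abelian group with as many homomorphisms to `F_p` as elements); if `S^⊥ = S₁^⊥` for
`S₁ = ⟨S, g⟩` then, as `S₁^⊥⊥ ≥ S₁`, and by the inequality applied to `S^⊥` and to `S`:
`|S₁ : Z| ≤ |S₁^⊥⊥ : Z| = |S^⊥⊥ : Z|`, `|P : S^⊥⊥| ≤ |S^⊥ : Z|`, and equality holds in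
`|P : S^⊥| = |S : Z|` because the form on `P/Z` is nondegenerate.  (It may be simplest to build the
`ZMod p`-module `Additive (P ⧸ center P)` and use `LinearMap.BilinForm` facts, or
`Module.Dual` separation: the functionals `κ · y` are all functionals on `P/Z`, so there is one
vanishing on `S` and not at `g`.) -/
theorem com_perp [Fact p.Prime] {z : P} {κ : P → P → ZMod p} (h : Com p z κ) (S : Subgroup P)
    (hS : Subgroup.center P ≤ S) (g : P) (hg : g ∉ S) :
    ∃ y : P, (∀ s ∈ S, s * y = y * s) ∧ g * y ≠ y * g := by
  have hzc : Subgroup.center P ≤ ⊤ := le_top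
  have hcomm : ∀ a ∈ (⊤ : Subgroup P), ∀ b ∈ (⊤ : Subgroup P),
      a * b * a⁻¹ * b⁻¹ ∈ Subgroup.center P := by
    intro a _ b _
    rw [h.com]
    exact Subgroup.pow_mem _ h.zc _
  obtain ⟨T, I1, I2, I3, π, _, hM⟩ := exists_smod p (⊤ : Subgroup P) (Subgroup.center P)
    inferInstance inferInstance hzc hcomm (fun a _ => com_pow h a)
  have hmul : ∀ a b, π (a * b) = π a + π b :=
    fun a b => hM.mul a (Subgroup.mem_top a) b (Subgroup.mem_top b)
  have hker : ∀ a, π a = 0 ↔ a ∈ Subgroup.center P := fun a => hM.ker a (Subgroup.mem_top a)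
  have hs : ∀ t : T, ∃ n : P, π n = t := by
    intro t
    obtain ⟨n, _, hn⟩ := hM.surj t
    exact ⟨n, hn⟩
  choose s hs using hs
  have hone : π 1 = 0 := (hker 1).2 (Subgroup.one_mem _)
  have hinv : ∀ a, π a⁻¹ = - π a := by
    intro a
    rw [eq_neg_iff_add_eq_zero, ← hmul, inv_mul_cancel, hone]
  -- κ only depends on classes
  have hdep : ∀ x x' y : P, π x = π x' → κ x y = κ x' y := by
    intro x x' y hxx
    have h1 : x'⁻¹ * x ∈ Subgroup.center P := by
      rw [← hker, hmul, hinv, hxx]; simp
    have h2 : x = x' * (x'⁻¹ * x) := by group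
    rw [h2, h.mul_left, H2_central h h1, add_zero]
  have hdep2 : ∀ x y y' : P, π y = π y' → κ x y = κ x y' := by
    intro x y y' hyy
    rw [h.symm y x, h.symm y' x, hdep y y' x hyy]
  let f1 : T → (T →ₗ[ZMod p] ZMod p) := fun t => AddMonoidHom.toZModLinearMap p
    { toFun := fun u => κ (s u) (s t)
      map_zero' := by
        show κ (s 0) (s t) = 0
        apply H2_central h
        rw [← hker, hs]
      map_add' := by
        intro u v
        show κ (s (u + v)) (s t) = κ (s u) (s t) + κ (s v) (s t)
        rw [← h.mul_left]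
        apply hdep
        rw [hs, hmul, hs, hs] }
  have hf1 : ∀ t u, f1 t u = κ (s u) (s t) := fun t u => rfl
  let Φ : T →ₗ[ZMod p] (Module.Dual (ZMod p) T) := AddMonoidHom.toZModLinearMap p
    { toFun := f1
      map_zero' := by
        apply LinearMap.ext
        intro u
        rw [hf1, LinearMap.zero_apply, h.eq_zero]
        have : s 0 ∈ Subgroup.center P := by rw [← hker, hs]
        exact Subgroup.mem_center_iff.mp this _
      map_add' := by
        intro t t'
        apply LinearMap.ext
        intro u
        rw [LinearMap.add_apply, hf1, hf1, hf1, ← h.mul_right]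
        apply hdep2
        rw [hs, hmul, hs, hs] }
  have hΦ : ∀ t u, Φ t u = κ (s u) (s t) := fun t u => rfl
  have hfd : FiniteDimensional (ZMod p) T := Module.Finite.of_finite
  have hinj : Function.Injective Φ := by
    rw [injective_iff_map_eq_zero]
    intro t ht
    have h1 : s t ∈ Subgroup.center P := by
      rw [Subgroup.mem_center_iff]
      intro x
      rw [← h.eq_zero]
      have h2 : Φ t (π x) = 0 := by rw [ht]; rfl
      rw [hΦ] at h2
      rw [← h2]
      apply hdep
      rw [hs]
    rw [← hker, hs] at h1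
    exact h1
  have hsurj : Function.Surjective Φ :=
    (LinearMap.injective_iff_surjective_of_finrank_eq_finrank
      (Subspace.dual_finrank_eq (K := ZMod p) (V := T)).symm).1 hinj
  -- the subspace of S
  let U0 : AddSubgroup T :=
    { carrier := {t | s t ∈ S}
      zero_mem' := by
        show s 0 ∈ S
        apply hS
        rw [← hker, hs]
      add_mem' := by
        intro a b ha hb
        have ha' : s a ∈ S := ha
        have hb' : s b ∈ S := hb
        show s (a + b) ∈ S
        have h1 : (s a * s b)⁻¹ * s (a + b) ∈ S := by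
          apply hS
          rw [← hker, hmul, hinv, hmul, hs, hs, hs]; simp
        have h2 := S.mul_mem (S.mul_mem ha' hb') h1
        rwa [mul_inv_cancel_left] at h2
      neg_mem' := by
        intro a ha
        have ha' : s a ∈ S := ha
        show s (-a) ∈ S
        have h1 : (s a) * s (-a) ∈ S := by
          apply hS
          rw [← hker, hmul, hs, hs]; simp
        have h2 := S.mul_mem (S.inv_mem ha') h1
        rwa [inv_mul_cancel_left] at h2 }
  let U : Submodule (ZMod p) T := AddSubgroup.toZModSubmodule p U0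
  have hU : ∀ x : P, π x ∈ U ↔ x ∈ S := by
    intro x
    have h0 : π x ∈ U ↔ s (π x) ∈ S := Iff.rfl
    rw [h0]
    have h1 : x⁻¹ * s (π x) ∈ S := by
      apply hS
      rw [← hker, hmul, hinv, hs]; simp
    constructor
    · intro h2
      have h3 := S.mul_mem h2 (S.inv_mem h1)
      rw [mul_inv_rev, inv_inv, mul_inv_cancel_left] at h3
      exact h3
    · intro h2
      have h3 := S.mul_mem h2 h1
      rwa [mul_inv_cancel_left] at h3
  have hgU : π g ∉ U := by rw [hU]; exact hg
  obtain ⟨f, hf, hfU⟩ := Submodule.exists_le_ker_of_notMem hgU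
  obtain ⟨t, ht⟩ := hsurj f
  have hΦx : ∀ x : P, f (π x) = κ x (s t) := by
    intro x
    rw [← ht, hΦ]
    apply hdep
    rw [hs]
  refine ⟨s t, ?_, ?_⟩
  · intro x hx
    rw [← h.eq_zero, ← hΦx]
    exact hfU ((hU x).2 hx)
  · intro hc
    apply hf
    rw [hΦx, h.eq_zero]
    exact hc

end FPX
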