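import Pool.Agent.FPX.Basic
import Pool.Agent.FPX.H1
import Pool.Agent.FPX.H2

namespace FPX

variable {P : Type} [Group P] [Finite P] {p : ℕ}

/-- Fact (α).  If `P` has a fixed point free automorphism and `g ^ p ^ a ∈ ⟨z⟩`, `a ≥ 1`, then
`g = w ζ` with `w ^ p ^ a = 1` and `ζ` central.

Proof.  `Ω = {w : w ^ p ^ a = 1}` is a subgroup (`com_hom`), and `Ω Z` too (`Z` the centre).  If
`g ^ p ^ a = 1` take `ζ = 1`.  Let `g ^ p ^ a = z ^ i ≠ 1` and suppose `g ∉ Ω Z`.  Let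
`Y = {h : h ^ p ^ a ∈ commutator P}`, a characteristic subgroup containing `Ω`; `Y/Ω` has order `p`
(`h ↦ h ^ p ^ a` maps it injectively to `⟨z⟩`), so `Y = Ω ⟨g⟩`.  `N = {n : n commutes with Ω}` and
`K = {n : n commutes with Y}` are characteristic, `K ≤ N`.  `com_perp` gives `y ∈ N` not commuting
with `g`, so `K ≠ N`.  Let `α` be the automorphism without fixed points, `α z = z ^ χ` (`com_aut`).
`(α g) ^ p ^ a = (z ^ i) ^ χ = (g ^ χ) ^ p ^ a`, so `α g ∈ g ^ χ Ω`; for `n ∈ N`: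
`χ κ g n = κ (α g) (α n) = χ κ g (α n)` (`α n ∈ N` commutes with `Ω`), `χ ≠ 0`, so
`κ g (n⁻¹ α n) = 0` and `n⁻¹ α n ∈ K`.  By `lang_inv` for `N` all elements of `N` are in `K`,
contradiction. -/
theorem com_alpha [Fact p.Prime] {z : P} {κ : P → P → ZMod p} (h : Com p z κ) (h2 : p ≠ 2)
    (hF : PF P) (a : ℕ) (ha : 1 ≤ a) (g : P) (hg : g ^ p ^ a ∈ commutator P) :
    ∃ w : P, w ^ p ^ a = 1 ∧ ∃ ζ ∈ Subgroup.center P, g = w * ζ := by
  by_contra hcon
  have hp : p.Prime := Fact.out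
  have hom := com_hom h h2 a ha
  let S : Subgroup P :=
    { carrier := {g | ∃ w : P, w ^ p ^ a = 1 ∧ ∃ ζ ∈ Subgroup.center P, g = w * ζ}
      one_mem' := ⟨1, one_pow _, 1, Subgroup.one_mem _, by rw [mul_one]⟩
      mul_mem' := by
        rintro a b ⟨w, hw, ζ, hζ, rfl⟩ ⟨w', hw', ζ', hζ', rfl⟩
        refine ⟨w * w', by rw [hom, hw, hw', mul_one], ζ * ζ', Subgroup.mul_mem _ hζ hζ', ?_⟩
        have e : w' * ζ = ζ * w' := Subgroup.mem_center_iff.mp hζ w'
        calc w * ζ * (w' * ζ') = w * (ζ * w') * ζ' := by group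
          _ = w * (w' * ζ) * ζ' := by rw [e]
          _ = _ := by group
      inv_mem' := by
        rintro a ⟨w, hw, ζ, hζ, rfl⟩
        refine ⟨w⁻¹, by rw [inv_pow, hw, inv_one], ζ⁻¹, Subgroup.inv_mem _ hζ, ?_⟩
        have e : w⁻¹ * ζ⁻¹ = ζ⁻¹ * w⁻¹ :=
          Subgroup.mem_center_iff.mp (Subgroup.inv_mem _ hζ) w⁻¹
        rw [mul_inv_rev, e] }
  have hSmem : ∀ g, g ∈ S ↔ ∃ w : P, w ^ p ^ a = 1 ∧ ∃ ζ ∈ Subgroup.center P, g = w * ζ :=
    fun g => Iff.rfl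
  have hSZ : Subgroup.center P ≤ S := by
    intro ζ hζ
    exact (hSmem ζ).2 ⟨1, one_pow _, ζ, hζ, by rw [one_mul]⟩
  have hgS : g ∉ S := fun hh => hcon ((hSmem g).1 hh)
  obtain ⟨y, hy, hgy⟩ := com_perp h S hSZ g hgS
  obtain ⟨α, hα⟩ := hF ⊥
  have hα1 : ∀ g, α g = g → g = 1 := by
    intro x hx
    have := (hα x).1 hx
    exact (Subgroup.mem_bot).1 this
  obtain ⟨χ, hχ, hκα⟩ := com_aut h α
  have hz1 : z ≠ 1 := by
    intro h0
    have := h.zp
    rw [h0, orderOf_one] at this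
    exact hp.ne_one this.symm
  have hχ0 : χ ≠ 0 := by
    intro h0
    apply hz1
    rw [h0, ZMod.val_zero, pow_zero] at hχ
    exact (map_eq_one_iff α α.injective).1 hχ
  let N : Subgroup P :=
    { carrier := {n | ∀ w : P, w ^ p ^ a = 1 → w * n = n * w}
      one_mem' := by
        intro w _
        rw [mul_one, one_mul]
      mul_mem' := by
        intro m n hm hn w hw
        have e1 : w * m = m * w := hm w hw
        have e2 : w * n = n * w := hn w hw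
        rw [← mul_assoc, e1, mul_assoc, e2, mul_assoc]
      inv_mem' := by
        intro m hm w hw
        have e1 : Commute w m := hm w hw
        exact e1.inv_right.eq }
  have hNmem : ∀ n, n ∈ N ↔ ∀ w : P, w ^ p ^ a = 1 → w * n = n * w := fun n => Iff.rfl
  have hNα : ∀ n ∈ N, α n ∈ N := by
    intro n hn
    rw [hNmem] at hn ⊢
    intro w hw
    have e1 : (α⁻¹ w) ^ p ^ a = 1 := by rw [← map_pow, hw, map_one]
    have e2 := congrArg α (hn _ e1)
    rw [map_mul, map_mul, MulAut.apply_inv_self] at e2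
    exact e2
  have hyN : y ∈ N := by
    rw [hNmem]
    intro w hw
    exact hy w ((hSmem w).2 ⟨w, hw, 1, Subgroup.one_mem _, by rw [mul_one]⟩)
  obtain ⟨n, hn, hny⟩ := lang_inv α N hNα (fun n _ hh => hα1 n hh) y hyN
  obtain ⟨i, hi⟩ := (h.zD _).1 hg
  -- w0 = g ^ (-χ) * α g
  have hw0 : ((g ^ χ.val)⁻¹ * α g) ^ p ^ a = 1 := by
    rw [hom, inv_pow, ← map_pow, hi, map_pow, hχ, ← pow_mul, Nat.mul_comm χ.val (p ^ a), pow_mul,
      hi, ← pow_mul, ← pow_mul, Nat.mul_comm i χ.val, inv_mul_cancel]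
  have hκ1 : κ ((g ^ χ.val)⁻¹ * α g) (α n) = 0 := by
    rw [h.eq_zero]
    exact (hNmem _).1 (hNα n hn) _ hw0
  have e1 : α g = g ^ χ.val * ((g ^ χ.val)⁻¹ * α g) := by group
  have e2 : κ (α g) (α n) = χ * κ g (α n) := by
    rw [e1, h.mul_left, hκ1, add_zero, H1_kpow_left h, ZMod.natCast_val, ZMod.cast_id]
  have e3 : κ g (α n) = κ g n := by
    have e4 := hκα g n
    rw [e2] at e4
    exact mul_left_cancel₀ hχ0 e4
  apply hgy
  rw [← h.eq_zero, ← hny]
  have e5 : κ g (n⁻¹ * α n) + κ g n = 0 + κ g n := by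
    rw [add_comm, ← h.mul_right, mul_inv_cancel_left, e3, zero_add]
  exact add_right_cancel e5

end FPX
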