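import Pool.Agent.FPX.H3

namespace FPX

variable {P : Type} [Group P] [Finite P] {p : ℕ}

omit [Finite P] in
theorem H4_bezout (hp : p.Prime) {i : ℤ} (hi : ¬ (p : ℤ) ∣ i) : ∃ u v : ℤ, u * i + v * p = 1 := by
  have h1 : IsCoprime (p : ℤ) i :=
    (Prime.coprime_iff_not_dvd (Nat.prime_iff_prime_int.mp hp)).2 hi
  obtain ⟨u, v, h⟩ := h1
  exact ⟨v, u, by rw [add_comm]; exact h⟩

omit [Finite P] in
/-- `g` has the form `w ζ` with `w ^ p ^ a = 1`, `ζ` central. -/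
def H4_good (p : ℕ) (a : ℕ) (g : P) : Prop :=
  ∃ w : P, w ^ p ^ a = 1 ∧ ∃ ζ ∈ Subgroup.center P, g = w * ζ

theorem H4_root [Fact p.Prime] {z : P} {κ : P → P → ZMod p} (h : Com p z κ)
    (a : ℕ) (g : P) (i : ℤ) (hi : ¬ (p : ℤ) ∣ i) (hg : H4_good p a (g ^ i)) : H4_good p a g := by
  obtain ⟨w, hw, ζ, hζ, e⟩ := hg
  obtain ⟨u, v, huv⟩ := H4_bezout (Fact.out : p.Prime) hi
  have hgp : g ^ p ∈ Subgroup.center P := com_pow h g
  have hcw : Commute w ζ := Subgroup.mem_center_iff.mp hζ w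
  refine ⟨w ^ u, ?_, ζ ^ u * (g ^ p) ^ v, ?_, ?_⟩
  · rw [← zpow_natCast, ← zpow_mul, mul_comm, zpow_mul, zpow_natCast, hw, one_zpow]
  · exact Subgroup.mul_mem _ (Subgroup.zpow_mem _ hζ _) (Subgroup.zpow_mem _ hgp _)
  · have h4 : g = (g ^ i) ^ u * (g ^ p) ^ v := by
      rw [← zpow_natCast g p, ← zpow_mul, ← zpow_mul, ← zpow_add, mul_comm i u, mul_comm (p : ℤ) v,
        huv, zpow_one]
    rw [← mul_assoc, ← hcw.mul_zpow, ← e]
    exact h4

theorem H4_comm [Fact p.Prime] {z : P} {κ : P → P → ZMod p} (h : Com p z κ) (x y : P) (i : ℤ)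
    (hi : ¬ (p : ℤ) ∣ i) (hc : x ^ i * y = y * x ^ i) : x * y = y * x := by
  obtain ⟨u, v, huv⟩ := H4_bezout (Fact.out : p.Prime) hi
  have hgp : x ^ p ∈ Subgroup.center P := com_pow h x
  have h1 : Commute (x ^ i) y := hc
  have h2 : Commute (x ^ p) y := (Subgroup.mem_center_iff.mp hgp y).symm
  have h4 : x = (x ^ i) ^ u * (x ^ p) ^ v := by
    rw [← zpow_natCast x p, ← zpow_mul, ← zpow_mul, ← zpow_add, mul_comm i u, mul_comm (p : ℤ) v,
      huv, zpow_one]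
  have h5 : Commute ((x ^ i) ^ u * (x ^ p) ^ v) y :=
    (h1.zpow_left u).mul_left (h2.zpow_left v)
  rw [← h4] at h5
  exact h5

omit [Finite P] in
theorem H4_decomp (hp : p.Prime) {i : ℤ} (hi : i ≠ 0) :
    ∃ (a : ℕ) (j : ℤ), i = (p : ℤ) ^ a * j ∧ ¬ (p : ℤ) ∣ j := by
  have hfin : FiniteMultiplicity (p : ℤ) i := by
    rw [Int.finiteMultiplicity_iff]
    refine ⟨?_, hi⟩
    rw [Int.natAbs_natCast]
    exact hp.ne_one
  obtain ⟨j, hj, hj2⟩ := hfin.exists_eq_pow_mul_and_not_dvd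
  exact ⟨_, j, hj, hj2⟩

/-- The arithmetic part of the necessity of the second condition.

Let `k ≥ 2`, `x ^ p ^ k = 1`, `z = [x, y] = x y x⁻¹ y⁻¹`; `Z` is the centre.  Assume: (h1) every `w` with
`w ^ p ^ a = 1`, `a < k`, is `w' ζ` with `w' ^ p = 1`, `ζ ∈ Z`; (h2) `y` commutes with all `w` with
`w ^ p = 1`; (h3) if `y = w ζ`, `ζ ∈ Z`, `w ^ p ^ a = 1` then `y ^ p ^ a = 1` (minimality).  Then
`z` is not in `⟨y, x ^ p⟩`. -/
theorem com_arith [Fact p.Prime] {z : P} {κ : P → P → ZMod p} (h : Com p z κ) (h2 : p ≠ 2)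
    (hF : PF P) {k : ℕ} (hk : 2 ≤ k) {x y : P} (hx : x ^ p ^ k = 1)
    (hxy : x * y * x⁻¹ * y⁻¹ = z)
    (h1 : ∀ a, a < k → ∀ w : P, w ^ p ^ a = 1 →
      ∃ w' : P, w' ^ p = 1 ∧ ∃ ζ ∈ Subgroup.center P, w = w' * ζ)
    (hy : ∀ w : P, w ^ p = 1 → w * y = y * w)
    (h3 : ∀ (a : ℕ) (w : P), w ^ p ^ a = 1 → (∃ ζ ∈ Subgroup.center P, y = w * ζ) →
      y ^ p ^ a = 1) :
    z ∉ Subgroup.closure {y, x ^ p} := by
  have hp : p.Prime := Fact.out
  have hz1 : z ≠ 1 := by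
    intro h0
    have := h.zp
    rw [h0, orderOf_one] at this
    exact hp.ne_one this.symm
  have hnc : ¬ x * y = y * x := by
    intro h0
    apply hz1
    rw [← hxy, h0]; group
  have hzD : z ∈ commutator P := (h.zD z).2 ⟨1, (pow_one z).symm⟩
  have F1 : ∀ (a : ℕ) (g : P), 1 ≤ a → g ^ p ^ a = z → H4_good p a g := by
    intro a g ha hg
    exact com_alpha h h2 hF a ha g (by rw [hg]; exact hzD)
  have F2 : ∀ g : P, (∃ w' : P, w' ^ p = 1 ∧ ∃ ζ ∈ Subgroup.center P, g = w' * ζ) →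
      g * y = y * g := by
    rintro g ⟨w, hw, ζ, hζ, e⟩
    have e1 := hy w hw
    have e2 : y * ζ = ζ * y := Subgroup.mem_center_iff.mp hζ y
    rw [e, mul_assoc, ← e2, ← mul_assoc, e1, mul_assoc]
  have F3 : ∀ (a : ℕ) (g : P), a < k → H4_good p a g → g * y = y * g := by
    rintro a g ha ⟨w, hw, ζ, hζ, e⟩
    obtain ⟨w', hw', ζ', hζ', e'⟩ := h1 a ha w hw
    exact F2 g ⟨w', hw', ζ' * ζ, Subgroup.mul_mem _ hζ' hζ, by rw [e, e', mul_assoc]⟩
  have F4 : ∀ (a : ℕ) (i : ℤ), ¬ (p : ℤ) ∣ i → H4_good p a (y ^ i) → y ^ p ^ a = 1 := by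
    intro a i hi hg
    obtain ⟨w, hw, hζ⟩ := H4_root h a y i hi hg
    exact h3 a w hw hζ
  have hxc : x ^ p ∈ Subgroup.center P := com_pow h x
  have caseA : ∀ (c : ℕ) (j : ℤ), 1 ≤ c → ¬ (p : ℤ) ∣ j → (x ^ j) ^ p ^ c = z → False := by
    intro c j hc hj e
    have hck : c < k := by
      by_contra hck
      rw [not_lt] at hck
      apply hz1
      obtain ⟨d, hd⟩ := Nat.exists_eq_add_of_le hck
      rw [← e, hd, pow_add, pow_mul, ← zpow_natCast (x ^ j), ← zpow_mul, mul_comm, zpow_mul,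
        zpow_natCast, hx, one_zpow, one_pow]
    have e1 := F3 c (x ^ j) hck (F1 c _ hc e)
    exact hnc (H4_comm h x y j hj e1)
  have caseB : ∀ (a : ℕ) (i : ℤ), 1 ≤ a → ¬ (p : ℤ) ∣ i → (y ^ i) ^ p ^ a = z → False := by
    intro a i ha hi e
    have e1 := F4 a i hi (F1 a _ ha e)
    apply hz1
    rw [← e, ← zpow_natCast (y ^ i), ← zpow_mul, mul_comm, zpow_mul, zpow_natCast, e1, one_zpow]
  have caseC : ∀ (a c : ℕ) (i j : ℤ), 1 ≤ a → 1 ≤ c → ¬ (p : ℤ) ∣ i → ¬ (p : ℤ) ∣ j →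
      (y ^ i) ^ p ^ a * (x ^ j) ^ p ^ c = z → False := by
    intro a c i j ha hc hi hj e
    rcases lt_or_ge a c with hac | hac
    · -- a < c
      obtain ⟨d, hd⟩ := Nat.exists_eq_add_of_lt hac
      have hd' : c = a + (d + 1) := by omega
      have hcen : (x ^ j) ^ p ^ (d + 1) ∈ Subgroup.center P := by
        rw [pow_succ' p d, pow_mul, ← zpow_natCast (x ^ j), ← zpow_mul, mul_comm, zpow_mul,
          zpow_natCast]
        exact Subgroup.pow_mem _ (Subgroup.zpow_mem _ hxc _) _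
      have e1 : (y ^ i * (x ^ j) ^ p ^ (d + 1)) ^ p ^ a = z := by
        rw [com_hom h h2 a ha, ← pow_mul, ← pow_add, Nat.add_comm (d + 1) a, ← hd', e]
      obtain ⟨w, hw, ζ, hζ, ew⟩ := F1 a _ ha e1
      have e2 : H4_good p a (y ^ i) := by
        refine ⟨w, hw, ζ * ((x ^ j) ^ p ^ (d + 1))⁻¹,
          Subgroup.mul_mem _ hζ (Subgroup.inv_mem _ hcen), ?_⟩
        rw [← mul_assoc, ← ew]; group
      have e3 := F4 a i hi e2
      have e4 : (y ^ i) ^ p ^ a = 1 := by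
        rw [← zpow_natCast (y ^ i), ← zpow_mul, mul_comm, zpow_mul, zpow_natCast, e3, one_zpow]
      rw [e4, one_mul] at e
      exact caseA c j hc hj e
    · obtain ⟨d, hd⟩ := Nat.exists_eq_add_of_le hac
      rcases lt_or_ge c k with hck | hck
      · have e1 : ((y ^ i) ^ p ^ d * x ^ j) ^ p ^ c = z := by
          rw [com_hom h h2 c hc, ← pow_mul, ← pow_add, Nat.add_comm d c, ← hd, e]
        have e2 := F3 c _ hck (F1 c _ hc e1)
        have e3 : Commute ((y ^ i) ^ p ^ d * x ^ j) y := e2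
        have e4 : Commute ((y ^ i) ^ p ^ d) y := ((Commute.refl y).zpow_left i).pow_left _
        have e5 : Commute (((y ^ i) ^ p ^ d)⁻¹ * ((y ^ i) ^ p ^ d * x ^ j)) y :=
          (e4.inv_left).mul_left e3
        rw [inv_mul_cancel_left] at e5
        exact hnc (H4_comm h x y j hj e5)
      · have e1 : (x ^ j) ^ p ^ c = 1 := by
          obtain ⟨d', hd'⟩ := Nat.exists_eq_add_of_le hck
          rw [hd', pow_add, pow_mul, ← zpow_natCast (x ^ j), ← zpow_mul, mul_comm, zpow_mul,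
            zpow_natCast, hx, one_zpow, one_pow]
        rw [e1, mul_one] at e
        exact caseB a i ha hi e
  intro hmem
  have hform : ∃ i j : ℤ, z = y ^ i * (x ^ p) ^ j := by
    have hcx : ∀ g : P, Commute (x ^ p) g := fun g => (Subgroup.mem_center_iff.mp hxc g).symm
    refine Subgroup.closure_induction (p := fun g _ => ∃ i j : ℤ, g = y ^ i * (x ^ p) ^ j)
      ?_ ?_ ?_ ?_ hmem
    · intro g hg
      rcases hg with hg | hg
      · exact ⟨1, 0, by rw [hg]; simp⟩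
      · have hg' : g = x ^ p := hg
        exact ⟨0, 1, by rw [hg']; simp⟩
    · exact ⟨0, 0, by simp⟩
    · rintro a b _ _ ⟨i, j, ha⟩ ⟨i', j', hb⟩
      refine ⟨i + i', j + j', ?_⟩
      have e1 : (x ^ p) ^ j * y ^ i' = y ^ i' * (x ^ p) ^ j := ((hcx y).zpow_zpow j i').eq
      rw [ha, hb, zpow_add, zpow_add]
      calc y ^ i * (x ^ p) ^ j * (y ^ i' * (x ^ p) ^ j')
          = y ^ i * ((x ^ p) ^ j * y ^ i') * (x ^ p) ^ j' := by group
        _ = y ^ i * (y ^ i' * (x ^ p) ^ j) * (x ^ p) ^ j' := by rw [e1]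
        _ = _ := by group
    · rintro a _ ⟨i, j, ha⟩
      refine ⟨-i, -j, ?_⟩
      have e1 : (x ^ p) ^ (-j) * y ^ (-i) = y ^ (-i) * (x ^ p) ^ (-j) :=
        ((hcx y).zpow_zpow (-j) (-i)).eq
      rw [ha, mul_inv_rev, ← zpow_neg, ← zpow_neg, e1]
  obtain ⟨i, j, e⟩ := hform
  have exj : (x ^ p) ^ j = x ^ ((p : ℤ) * j) := by
    rw [zpow_mul, zpow_natCast]
  -- p divides i
  have hpi : (p : ℤ) ∣ i := by
    by_contra hpi
    have e1 : y ^ i * x = x * y ^ i := by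
      have e2 : y ^ i = z * ((x ^ p) ^ j)⁻¹ := by rw [e]; group
      have e3 : z * ((x ^ p) ^ j)⁻¹ ∈ Subgroup.center P :=
        Subgroup.mul_mem _ h.zc (Subgroup.inv_mem _ (Subgroup.zpow_mem _ hxc _))
      rw [e2]
      exact (Subgroup.mem_center_iff.mp e3 x).symm
    exact hnc (H4_comm h y x i hpi e1).symm
  by_cases hi0 : i = 0
  · by_cases hj0 : j = 0
    · apply hz1
      rw [e, hi0, hj0]; simp
    · obtain ⟨c, j₁, hj, hj₁⟩ := H4_decomp hp hj0
      refine caseA (c + 1) j₁ (by omega) hj₁ ?_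
      rw [e, hi0, zpow_zero, one_mul, exj, hj, ← zpow_natCast (x ^ j₁), ← zpow_mul]
      congr 1
      push_cast
      ring
  · obtain ⟨a, i₁, hi, hi₁⟩ := H4_decomp hp hi0
    have ha : 1 ≤ a := by
      by_contra ha
      have : a = 0 := by omega
      rw [this, pow_zero, one_mul] at hi
      exact hi₁ (hi ▸ hpi)
    have ey : (y ^ i₁) ^ p ^ a = y ^ i := by
      rw [hi, ← zpow_natCast (y ^ i₁), ← zpow_mul]
      congr 1
      push_cast
      ring
    by_cases hj0 : j = 0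
    · refine caseB a i₁ ha hi₁ ?_
      rw [ey, e, hj0, zpow_zero, mul_one]
    · obtain ⟨c, j₁, hj, hj₁⟩ := H4_decomp hp hj0
      refine caseC a (c + 1) i₁ j₁ ha (by omega) hi₁ hj₁ ?_
      rw [ey]
      have ex : (x ^ j₁) ^ p ^ (c + 1) = (x ^ p) ^ j := by
        rw [exj, hj, ← zpow_natCast (x ^ j₁), ← zpow_mul]
        congr 1
        push_cast
        ring
      rw [ex, ← e]

end FPX
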