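import Pool.Agent.FPX.H4

namespace FPX

variable {P : Type} [Group P] [Finite P] {p : ℕ}

omit [Finite P] in
theorem H5_kpow [Fact p.Prime] {z : P} {κ : P → P → ZMod p} (h : Com p z κ) (x y : P) (n : ℕ) :
    κ x (y ^ n) = n * κ x y := by
  induction n with
  | zero =>
    have h1 : κ x (1 : P) = 0 := (h.eq_zero x 1).2 (by rw [mul_one, one_mul])
    rw [pow_zero, h1]; simp
  | succ n ih =>
    rw [pow_succ, h.mul_right, ih]; push_cast; ring

/-- Necessity of the second condition.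

Proof.  Suppose not every element is `h ζ` with `h ^ p = 1`, `ζ ∈ Z` (centre).  Every element has
`p`-power order; let `k` be minimal such that some `x` with `x ^ p ^ k = 1` is not of this form; `k ≥ 2`.
(h1) of `com_arith` holds.  `S = Ω Z`, `Ω = {w : w ^ p = 1}`, is a subgroup containing `Z`, `x ∉ S`;
`com_perp` gives `y` commuting with `S` and not with `x`; replacing `y` by a power `[x, y] = z`.  Among
all `y` commuting with `Ω` with `x y x⁻¹ y⁻¹ = z` choose one of minimal order; then (h3) holds: if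
`y = w ζ`, `w ^ p ^ a = 1`, then `w` also commutes with `Ω` and `[x, w] = z`, so the order of `y` is at
most the order of `w`; orders are powers of `p`, so `y ^ p ^ a = 1`.
`H = closure {y, x ^ p}`, `α` with fixed points `H`.  `v := x⁻¹ α x` satisfies
`v ^ p = (x ^ p)⁻¹ α (x ^ p) = 1` (`com_hom`), so `v` commutes with `y`, and
`α z = α [x, y] = [x v, y] = [x, y] = z`, so `z ∈ H`, contradiction to `com_arith`. -/
theorem nec2 [Fact p.Prime] (hP : IsPGroup p P) {z : P} {κ : P → P → ZMod p} (h : Com p z κ)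
    (h2 : p ≠ 2) (hF : PF P) :
    ∀ g : P, ∃ w : P, w ^ p = 1 ∧ ∃ ζ ∈ Subgroup.center P, g = w * ζ := by
  have hp : p.Prime := Fact.out
  by_contra hcon
  rw [not_forall] at hcon
  have hom1 : ∀ a b : P, (a * b) ^ p = a ^ p * b ^ p := by
    intro a b
    have := com_hom h h2 1 le_rfl a b
    rwa [pow_one] at this
  obtain ⟨g, hg⟩ := hcon
  -- minimal k
  have hex : ∃ k : ℕ, ∃ x : P, x ^ p ^ k = 1 ∧
      ¬ ∃ w : P, w ^ p = 1 ∧ ∃ ζ ∈ Subgroup.center P, x = w * ζ := by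
    obtain ⟨k, hk⟩ := hP g
    exact ⟨k, g, hk, hg⟩
  classical
  obtain ⟨x, hx, hxn⟩ := Nat.find_spec hex
  have hmin := fun (m : ℕ) => Nat.find_min hex (m := m)
  generalize Nat.find hex = k at hx hmin
  have hk : 2 ≤ k := by
    by_contra hk
    have : k = 0 ∨ k = 1 := by omega
    rcases this with rfl | rfl
    · rw [pow_zero, pow_one] at hx
      exact hxn ⟨1, one_pow _, 1, Subgroup.one_mem _, by rw [hx, one_mul]⟩
    · rw [pow_one] at hx
      exact hxn ⟨x, hx, 1, Subgroup.one_mem _, by rw [mul_one]⟩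
  have h1 : ∀ a, a < k → ∀ w : P, w ^ p ^ a = 1 →
      ∃ w' : P, w' ^ p = 1 ∧ ∃ ζ ∈ Subgroup.center P, w = w' * ζ := by
    intro a ha w hw
    by_contra hc
    exact hmin a ha ⟨w, hw, hc⟩
  -- the subgroup S
  let S : Subgroup P :=
    { carrier := {g | ∃ w : P, w ^ p = 1 ∧ ∃ ζ ∈ Subgroup.center P, g = w * ζ}
      one_mem' := ⟨1, one_pow _, 1, Subgroup.one_mem _, by rw [mul_one]⟩
      mul_mem' := by
        rintro a b ⟨w, hw, ζ, hζ, rfl⟩ ⟨w', hw', ζ', hζ', rfl⟩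
        refine ⟨w * w', by rw [hom1, hw, hw', mul_one], ζ * ζ', Subgroup.mul_mem _ hζ hζ', ?_⟩
        have e : w' * ζ = ζ * w' := Subgroup.mem_center_iff.mp hζ w'
        calc w * ζ * (w' * ζ') = w * (ζ * w') * ζ' := by group
          _ = w * (w' * ζ) * ζ' := by rw [e]
          _ = _ := by group
      inv_mem' := by
        rintro a ⟨w, hw, ζ, hζ, rfl⟩
        refine ⟨w⁻¹, by rw [inv_pow, hw, inv_one], ζ⁻¹, Subgroup.inv_mem _ hζ, ?_⟩
        have e : w⁻¹ * ζ⁻¹ = ζ⁻¹ * w⁻¹ :=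
          Subgroup.mem_center_iff.mp (Subgroup.inv_mem _ hζ) w⁻¹
        rw [mul_inv_rev, e] }
  have hSmem : ∀ g, g ∈ S ↔ ∃ w : P, w ^ p = 1 ∧ ∃ ζ ∈ Subgroup.center P, g = w * ζ :=
    fun g => Iff.rfl
  have hSZ : Subgroup.center P ≤ S := by
    intro ζ hζ
    exact (hSmem ζ).2 ⟨1, one_pow _, ζ, hζ, by rw [one_mul]⟩
  have hxS : x ∉ S := fun hh => hxn ((hSmem x).1 hh)
  obtain ⟨y0, hy0, hxy0⟩ := com_perp h S hSZ x hxS
  have hκ : κ x y0 ≠ 0 := fun hh => hxy0 ((h.eq_zero x y0).1 hh)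
  -- candidates
  have hcand : ∃ n : ℕ, ∃ y : P, (∀ w : P, w ^ p = 1 → w * y = y * w) ∧
      x * y * x⁻¹ * y⁻¹ = z ∧ orderOf y = n := by
    refine ⟨_, y0 ^ ((κ x y0)⁻¹).val, ?_, ?_, rfl⟩
    · intro w hw
      have e : Commute w y0 := hy0 w ((hSmem w).2 ⟨w, hw, 1, Subgroup.one_mem _, by rw [mul_one]⟩)
      exact (e.pow_right _).eq
    · rw [h.com, H5_kpow h, ZMod.natCast_val, ZMod.cast_id, inv_mul_cancel₀ hκ]
      have : ((1 : ZMod p)).val = 1 := ZMod.val_one p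
      rw [this, pow_one]
  obtain ⟨y, hyc, hxy, hyo⟩ := Nat.find_spec hcand
  have hymin : ∀ y' : P, (∀ w : P, w ^ p = 1 → w * y' = y' * w) →
      x * y' * x⁻¹ * y'⁻¹ = z → orderOf y ≤ orderOf y' := by
    intro y' a b
    rw [hyo]
    exact Nat.find_min' hcand ⟨y', a, b, rfl⟩
  have h3 : ∀ (a : ℕ) (w : P), w ^ p ^ a = 1 → (∃ ζ ∈ Subgroup.center P, y = w * ζ) →
      y ^ p ^ a = 1 := by
    rintro a w hw ⟨ζ, hζ, e⟩
    have hζc : ∀ g, g * ζ = ζ * g := Subgroup.mem_center_iff.mp hζ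
    have hζi : ∀ g, g * ζ⁻¹ = ζ⁻¹ * g := Subgroup.mem_center_iff.mp (Subgroup.inv_mem _ hζ)
    have ew : w = y * ζ⁻¹ := by rw [e]; group
    have c1 : ∀ w' : P, w' ^ p = 1 → w' * w = w * w' := by
      intro w' hw'
      have e1 := hyc w' hw'
      rw [ew, ← mul_assoc, e1, mul_assoc, hζi w', mul_assoc]
    have c2 : x * w * x⁻¹ * w⁻¹ = z := by
      rw [ew, ← hxy]
      have e1 : x⁻¹ * (y * ζ⁻¹)⁻¹ = ζ * (x⁻¹ * y⁻¹) := by
        rw [mul_inv_rev, inv_inv, ← mul_assoc, hζc x⁻¹, mul_assoc]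
      calc x * (y * ζ⁻¹) * x⁻¹ * (y * ζ⁻¹)⁻¹ = x * (y * ζ⁻¹) * (x⁻¹ * (y * ζ⁻¹)⁻¹) := by group
        _ = x * (y * ζ⁻¹) * (ζ * (x⁻¹ * y⁻¹)) := by rw [e1]
        _ = _ := by group
    have c3 := hymin w c1 c2
    obtain ⟨c, hc⟩ := (IsPGroup.iff_orderOf.mp hP) y
    obtain ⟨b, hb⟩ := (IsPGroup.iff_orderOf.mp hP) w
    have hba : b ≤ a := by
      have := orderOf_dvd_of_pow_eq_one hw
      rw [hb] at this
      exact (Nat.pow_dvd_pow_iff_le_right hp.one_lt).1 this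
    rw [hc, hb] at c3
    have hcb : c ≤ b := (Nat.pow_le_pow_iff_right hp.one_lt).1 c3
    apply orderOf_dvd_iff_pow_eq_one.mp
    rw [hc]
    exact pow_dvd_pow p (hcb.trans hba)
  have hnot := com_arith h h2 hF hk hx hxy h1 hyc h3
  obtain ⟨α, hα⟩ := hF (Subgroup.closure {y, x ^ p})
  have hαy : α y = y := (hα y).2 (Subgroup.subset_closure (by simp))
  have hαx : α (x ^ p) = x ^ p := (hα _).2 (Subgroup.subset_closure (by simp))
  have hv : (x⁻¹ * α x) ^ p = 1 := by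
    rw [hom1, inv_pow, ← map_pow, hαx, inv_mul_cancel]
  have hvy := hyc _ hv
  apply hnot
  rw [← hα z]
  have e1 : α x = x * (x⁻¹ * α x) := by group
  calc α z = α (x * y * x⁻¹ * y⁻¹) := by rw [hxy]
    _ = α x * y * (α x)⁻¹ * y⁻¹ := by
        rw [map_mul, map_mul, map_mul, map_inv, map_inv, hαy]
    _ = (x * (x⁻¹ * α x)) * y * (x * (x⁻¹ * α x))⁻¹ * y⁻¹ := by rw [← e1]
    _ = x * ((x⁻¹ * α x) * y) * (x⁻¹ * α x)⁻¹ * x⁻¹ * y⁻¹ := by group
    _ = x * (y * (x⁻¹ * α x)) * (x⁻¹ * α x)⁻¹ * x⁻¹ * y⁻¹ := by rw [hvy]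
    _ = x * y * x⁻¹ * y⁻¹ := by group
    _ = z := hxy

end FPX
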