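import Pool.Agent.FPX.H1

namespace FPX

variable {P : Type} [Group P] [Finite P] {p : ℕ}

omit [Finite P] in
theorem H7_zadd [Fact p.Prime] {z : P} (hz : orderOf z = p) (a b : ZMod p) :
    z ^ (a + b).val = z ^ a.val * z ^ b.val := by
  rw [← pow_add, H1_pow_eq hz]
  push_cast
  simp only [ZMod.natCast_val, ZMod.cast_id]

omit [Finite P] in
theorem H7_zc [Fact p.Prime] {z : P} {κ : P → P → ZMod p} (h : Com p z κ) (c : ZMod p) (g : P) :
    g * z ^ c.val = z ^ c.val * g :=
  Subgroup.mem_center_iff.mp (Subgroup.pow_mem _ h.zc _) g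

omit [Finite P] in
theorem H7_cen_left [Fact p.Prime] {z : P} {κ : P → P → ZMod p} (h : Com p z κ) {c : P}
    (hc : c ∈ Subgroup.center P) (x : P) : κ c x = 0 := by
  rw [h.eq_zero]
  exact (Subgroup.mem_center_iff.mp hc x).symm

omit [Finite P] in
theorem H7_cen_right [Fact p.Prime] {z : P} {κ : P → P → ZMod p} (h : Com p z κ) {c : P}
    (hc : c ∈ Subgroup.center P) (x : P) : κ x c = 0 := by
  rw [h.eq_zero]
  exact Subgroup.mem_center_iff.mp hc x

omit [Finite P] in
theorem H7_self [Fact p.Prime] {z : P} {κ : P → P → ZMod p} (h : Com p z κ) (x : P) :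
    κ x x = 0 := by
  rw [h.eq_zero]

/-- The sum `x y z ^ (- κ x y / 2)`. -/
def H7_add {p : ℕ} (z : P) (κ : P → P → ZMod p) (x y : P) : P :=
  x * y * z ^ (-((2 : ZMod p)⁻¹ * κ x y)).val

omit [Finite P] in
theorem H7_kadd_left [Fact p.Prime] {z : P} {κ : P → P → ZMod p} (h : Com p z κ) (x y w : P) :
    κ (H7_add z κ x y) w = κ x w + κ y w := by
  unfold H7_add
  rw [h.mul_left, h.mul_left, H7_cen_left h (Subgroup.pow_mem _ h.zc _), add_zero]

omit [Finite P] in
theorem H7_kadd_right [Fact p.Prime] {z : P} {κ : P → P → ZMod p} (h : Com p z κ) (x y w : P) :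
    κ w (H7_add z κ x y) = κ w x + κ w y := by
  unfold H7_add
  rw [h.mul_right, h.mul_right, H7_cen_right h (Subgroup.pow_mem _ h.zc _), add_zero]

omit [Finite P] in
theorem H7_assoc [Fact p.Prime] {z : P} {κ : P → P → ZMod p} (h : Com p z κ) (x y w : P) :
    H7_add z κ (H7_add z κ x y) w = H7_add z κ x (H7_add z κ y w) := by
  have e1 : ∀ a b : P, H7_add z κ a b = a * b * z ^ (-((2 : ZMod p)⁻¹ * κ a b)).val :=
    fun a b => rfl
  rw [e1 (H7_add z κ x y) w, e1 x (H7_add z κ y w), H7_kadd_left h, H7_kadd_right h, e1 x y,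
    e1 y w]
  calc x * y * z ^ (-((2 : ZMod p)⁻¹ * κ x y)).val * w *
        z ^ (-((2 : ZMod p)⁻¹ * (κ x w + κ y w))).val
      = x * y * (z ^ (-((2 : ZMod p)⁻¹ * κ x y)).val * w) *
        z ^ (-((2 : ZMod p)⁻¹ * (κ x w + κ y w))).val := by group
    _ = x * y * (w * z ^ (-((2 : ZMod p)⁻¹ * κ x y)).val) *
        z ^ (-((2 : ZMod p)⁻¹ * (κ x w + κ y w))).val := by rw [H7_zc h _ w]
    _ = x * y * w * (z ^ (-((2 : ZMod p)⁻¹ * κ x y)).val *
        z ^ (-((2 : ZMod p)⁻¹ * (κ x w + κ y w))).val) := by group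
    _ = x * y * w * (z ^ (-((2 : ZMod p)⁻¹ * κ y w)).val *
        z ^ (-((2 : ZMod p)⁻¹ * (κ x y + κ x w))).val) := by
        rw [← H7_zadd h.zp, ← H7_zadd h.zp]
        congr 3
        ring
    _ = _ := by group

omit [Finite P] in
theorem H7_comm [Fact p.Prime] {z : P} {κ : P → P → ZMod p} (h : Com p z κ) (h2 : p ≠ 2)
    (x y : P) : H7_add z κ x y = H7_add z κ y x := by
  unfold H7_add
  have e0 : (2 : ZMod p) ≠ 0 := by
    have hp : p.Prime := Fact.out
    intro h3
    have h4 : ((2 : ℕ) : ZMod p) = 0 := by exact_mod_cast h3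
    rw [ZMod.natCast_eq_zero_iff] at h4
    exact h2 ((Nat.prime_dvd_prime_iff_eq hp Nat.prime_two).1 h4)
  have e1 : x * y = z ^ (κ x y).val * (y * x) := by
    rw [← h.com]; group
  have e2 : -((2 : ZMod p)⁻¹ * κ y x) = κ x y + -((2 : ZMod p)⁻¹ * κ x y) := by
    rw [h.symm x y]
    have e3 : κ x y = (2 : ZMod p)⁻¹ * κ x y + (2 : ZMod p)⁻¹ * κ x y := by
      rw [← two_mul, mul_inv_cancel_left₀ e0]
    linear_combination -e3
  rw [e2, H7_zadd h.zp, e1, ← H7_zc h (κ x y) (y * x), mul_assoc]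

/-- The elements of order dividing `p`. -/
def H7_T (P : Type) [Group P] (p : ℕ) : Type := {w : P // w ^ p = 1}

theorem H7_addp [Fact p.Prime] {z : P} {κ : P → P → ZMod p} (h : Com p z κ) (h2 : p ≠ 2)
    (x y : P) (hx : x ^ p = 1) (hy : y ^ p = 1) : H7_add z κ x y ^ p = 1 := by
  have hom1 : ∀ a b : P, (a * b) ^ p = a ^ p * b ^ p := by
    intro a b
    have := com_hom h h2 1 le_rfl a b
    rwa [pow_one] at this
  have hzp : z ^ p = 1 := by
    have := pow_orderOf_eq_one z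
    rwa [h.zp] at this
  unfold H7_add
  rw [hom1, hom1, hx, hy, one_mul, one_mul, ← pow_mul, mul_comm, pow_mul, hzp, one_pow]

/-- The additive group of the elements of order dividing `p`. -/
@[reducible] def H7_inst [Fact p.Prime] {z : P} {κ : P → P → ZMod p} (h : Com p z κ) (h2 : p ≠ 2) :
    AddCommGroup (H7_T P p) :=
  letI J1 : Add (H7_T P p) := ⟨fun x y => ⟨H7_add z κ x.1 y.1, H7_addp h h2 x.1 y.1 x.2 y.2⟩⟩
  letI J2 : Zero (H7_T P p) := ⟨⟨1, one_pow p⟩⟩
  letI J3 : Neg (H7_T P p) := ⟨fun x => ⟨x.1⁻¹, by rw [inv_pow, x.2, inv_one]⟩⟩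
  { AddGroup.ofLeftAxioms (G := H7_T P p)
      (fun x y w => Subtype.ext (H7_assoc h x.1 y.1 w.1))
      (fun x => Subtype.ext (by
        show 1 * x.1 * z ^ (-((2 : ZMod p)⁻¹ * κ 1 x.1)).val = x.1
        rw [H7_cen_left h (Subgroup.one_mem _), mul_zero, neg_zero, ZMod.val_zero, pow_zero,
          one_mul, mul_one]))
      (fun x => Subtype.ext (by
        show x.1⁻¹ * x.1 * z ^ (-((2 : ZMod p)⁻¹ * κ x.1⁻¹ x.1)).val = 1
        have : κ x.1⁻¹ x.1 = 0 := by
          rw [h.eq_zero, inv_mul_cancel, mul_inv_cancel]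
        rw [this, mul_zero, neg_zero, ZMod.val_zero, pow_zero, inv_mul_cancel, mul_one])) with
    add_comm := fun x y => Subtype.ext (H7_comm h h2 x.1 y.1) }

/-- The construction of the linear section from the vector space of the elements of order
dividing `p`. -/
theorem H7_core [Fact p.Prime] {z : P} {κ : P → P → ZMod p} (h : Com p z κ)
    (hc : ∀ g : P, ∃ w : P, w ^ p = 1 ∧ ∃ ζ ∈ Subgroup.center P, g = w * ζ)
    (T : Type) [AddCommGroup T] [Module (ZMod p) T] [Finite T] (τ : T → P)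
    (hadd : ∀ x y, τ (x + y) = H7_add z κ (τ x) (τ y)) (hτ : Function.Injective τ)
    (hsurj : ∀ w : P, w ^ p = 1 → ∃ x, τ x = w) (hzero : τ 0 = 1) (hneg : ∀ x, τ (-x) = (τ x)⁻¹) :
    ∃ (V : Type) (_ : AddCommGroup V) (_ : Module (ZMod p) V) (_ : Finite V)
      (ω : V →ₗ[ZMod p] V →ₗ[ZMod p] ZMod p) (σ : V → P), Hei p z V ω σ := by
  let T0 : AddSubgroup T :=
    { carrier := {x | τ x ∈ Subgroup.center P}
      zero_mem' := by
        show τ 0 ∈ Subgroup.center P
        rw [hzero]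
        exact Subgroup.one_mem _
      add_mem' := by
        intro a b ha hb
        show τ (a + b) ∈ Subgroup.center P
        rw [hadd]
        exact Subgroup.mul_mem _ (Subgroup.mul_mem _ ha hb) (Subgroup.pow_mem _ h.zc _)
      neg_mem' := by
        intro a ha
        show τ (-a) ∈ Subgroup.center P
        rw [hneg]
        exact Subgroup.inv_mem _ ha }
  let T₀ : Submodule (ZMod p) T := AddSubgroup.toZModSubmodule p T0
  have hT₀ : ∀ x : T, x ∈ T₀ ↔ τ x ∈ Subgroup.center P := fun x => Iff.rfl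
  obtain ⟨V, hV⟩ := Submodule.exists_isCompl T₀
  -- the form
  let f1 : V → (V →ₗ[ZMod p] ZMod p) := fun u => AddMonoidHom.toZModLinearMap p
    { toFun := fun v => κ (τ u) (τ v)
      map_zero' := by
        show κ (τ u) (τ 0) = 0
        rw [hzero]
        exact H7_cen_right h (Subgroup.one_mem _) _
      map_add' := by
        intro v w
        show κ (τ u) (τ (v + w)) = _
        rw [hadd, H7_kadd_right h] }
  have hf1 : ∀ u v, f1 u v = κ (τ u) (τ v) := fun u v => rfl
  let ω : V →ₗ[ZMod p] V →ₗ[ZMod p] ZMod p := AddMonoidHom.toZModLinearMap p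
    { toFun := f1
      map_zero' := by
        apply LinearMap.ext
        intro u
        rw [hf1, LinearMap.zero_apply]
        show κ (τ 0) (τ u) = 0
        rw [hzero]
        exact H7_cen_left h (Subgroup.one_mem _) _
      map_add' := by
        intro v w
        apply LinearMap.ext
        intro u
        rw [LinearMap.add_apply, hf1, hf1, hf1]
        show κ (τ (v + w)) (τ u) = _
        rw [hadd, H7_kadd_left h] }
  have hω : ∀ u v, ω u v = κ (τ u) (τ v) := fun u v => rfl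
  let σ : V → P := fun v => τ v
  have hσ : ∀ v : V, σ v = τ v := fun v => rfl
  have hmul : ∀ u v : V, σ u * σ v = σ (u + v) * z ^ ((2 : ZMod p)⁻¹ * ω u v).val := by
    intro u v
    have e1 : σ (u + v) = σ u * σ v * z ^ (-((2 : ZMod p)⁻¹ * κ (τ u) (τ v))).val := by
      show τ ((u : T) + v) = _
      rw [hadd]; rfl
    rw [e1, hω, mul_assoc (σ u * σ v), ← H7_zadd h.zp, neg_add_cancel, ZMod.val_zero, pow_zero,
      mul_one]
  have hrep : ∀ g : P, ∃ u : V, ∃ ζ ∈ Subgroup.center P, g = σ u * ζ := by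
    intro g
    obtain ⟨w, hw, ζ, hζ, rfl⟩ := hc g
    obtain ⟨x, rfl⟩ := hsurj w hw
    have h3 : x ∈ T₀ ⊔ V := by
      rw [hV.sup_eq_top]; exact Submodule.mem_top
    obtain ⟨t, ht, v, hv, e1⟩ := Submodule.mem_sup.mp h3
    refine ⟨⟨v, hv⟩, τ t * ζ, Subgroup.mul_mem _ ((hT₀ t).1 ht) hζ, ?_⟩
    have e2 : τ x = τ t * τ v * z ^ (-((2 : ZMod p)⁻¹ * κ (τ t) (τ v))).val := by
      rw [← e1, hadd]; rfl
    rw [H7_cen_left h ((hT₀ t).1 ht), mul_zero, neg_zero, ZMod.val_zero, pow_zero, mul_one] at e2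
    rw [e2, hσ]
    have e3 : τ v * τ t = τ t * τ v := Subgroup.mem_center_iff.mp ((hT₀ t).1 ht) (τ v)
    rw [← mul_assoc, e3]
  have hinj : ∀ u : V, σ u ∈ Subgroup.center P → u = 0 := by
    intro u hu
    have h3 : u.1 ∈ T₀ ⊓ V := ⟨(hT₀ u.1).2 hu, u.2⟩
    rw [hV.inf_eq_bot, Submodule.mem_bot] at h3
    exact Subtype.ext h3
  refine ⟨V, inferInstance, inferInstance, inferInstance, ω, σ, h.zc, h.zp, hmul, hrep, hinj, ?_,
    ?_⟩
  · intro u
    rw [hω, H7_self h]
  · intro u hu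
    apply hinj
    rw [Subgroup.mem_center_iff]
    intro g
    obtain ⟨v, ζ, hζ, rfl⟩ := hrep g
    have e1 : σ u * σ v = σ v * σ u := by
      have := hu v
      rw [hω, h.eq_zero] at this
      exact this
    have e2 : σ u * ζ = ζ * σ u := Subgroup.mem_center_iff.mp hζ (σ u)
    rw [mul_assoc, ← e2, ← mul_assoc, ← e1, mul_assoc]

/-- Linear section (Baer correspondence).

Proof.  `Ω = {w : w ^ p = 1}` with the addition `x ⊕ y = x y z ^ (-κ x y / 2)` is a commutative group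
(`κ` is bilinear, alternating and trivial on `z`), of exponent `p` (the `n`-fold sum of `x` is
`x ^ n`), so it is an `F_p`-vector space `T`; `Ω ∩ Z(P)` is a subspace `T₀`.  Let `V` be a
complement of `T₀` in `T` and `σ : V → P` the inclusion; `ω = κ` on `V`.  Then
`σ u σ v = σ (u + v) z ^ (κ u v / 2)`.  `rep`: `g = h ζ` with `h ∈ Ω`, `h = σ u ⊕ t₀ = σ u t₀` with
`t₀ ∈ Ω ∩ Z`.  `inj`: `σ u ∈ Z` gives `u ∈ V ∩ T₀ = 0`.  `nondeg`: if `ω u v = 0` for all `v` then
`σ u` commutes with all `σ v` and with `Z`, hence with `P`. -/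
theorem exists_hei [Fact p.Prime] {z : P} {κ : P → P → ZMod p} (h : Com p z κ) (h2 : p ≠ 2)
    (hc : ∀ g : P, ∃ w : P, w ^ p = 1 ∧ ∃ ζ ∈ Subgroup.center P, g = w * ζ) :
    ∃ (V : Type) (_ : AddCommGroup V) (_ : Module (ZMod p) V) (_ : Finite V)
      (ω : V →ₗ[ZMod p] V →ₗ[ZMod p] ZMod p) (σ : V → P), Hei p z V ω σ := by
  let I1 : AddCommGroup (H7_T P p) := H7_inst h h2
  have hadd : ∀ x y : H7_T P p, (x + y).1 = H7_add z κ x.1 y.1 := fun x y => rfl
  have hzero : (0 : H7_T P p).1 = 1 := rfl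
  have hneg : ∀ x : H7_T P p, (-x).1 = x.1⁻¹ := fun x => rfl
  have hns : ∀ (n : ℕ) (x : H7_T P p), (n • x).1 = x.1 ^ n := by
    intro n x
    induction n with
    | zero => rw [zero_nsmul, pow_zero, hzero]
    | succ n ih =>
      rw [succ_nsmul, hadd, ih, pow_succ]
      unfold H7_add
      rw [H1_kpow_left h, H7_self h]
      simp
  have hp0 : ∀ x : H7_T P p, p • x = 0 := by
    intro x
    apply Subtype.ext
    rw [hns, hzero]
    exact x.2
  let I2 : Module (ZMod p) (H7_T P p) := AddCommGroup.zmodModule hp0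
  have I3 : Finite (H7_T P p) := inferInstanceAs (Finite {w : P // w ^ p = 1})
  exact H7_core h hc (H7_T P p) (fun x => x.1) hadd Subtype.val_injective
    (fun w hw => ⟨⟨w, hw⟩, rfl⟩) hzero hneg

end FPX
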