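import Pool.Agent.FPX.Defs

namespace FPX

theorem H9_anti {K V : Type} [Field K] [AddCommGroup V] [Module K V]
    (ω : V →ₗ[K] V →ₗ[K] K) (halt : ∀ u, ω u u = 0) (u v : V) : ω v u = - ω u v := by
  have h := halt (u + v)
  rw [map_add ω, LinearMap.add_apply, map_add, map_add, halt, halt, zero_add, add_zero] at h
  exact eq_neg_of_add_eq_zero_right h

theorem H9_form {K V : Type} [Field K] [AddCommGroup V] [Module K V]
    (ω : V →ₗ[K] V →ₗ[K] K) (halt : ∀ u, ω u u = 0) (u u' : V) (huu : ω u u' = 1)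
    (a b a' b' : K) (v w : V) (hv : ω u v = 0 ∧ ω u' v = 0) (hw : ω u w = 0 ∧ ω u' w = 0) :
    ω (a • u + b • u' + v) (a' • u + b' • u' + w) = a * b' - b * a' + ω v w := by
  have e1 : ω u' u = -1 := by rw [H9_anti ω halt u u', huu]
  have e2 : ω v u = 0 := by rw [H9_anti ω halt u v, hv.1, neg_zero]
  have e3 : ω v u' = 0 := by rw [H9_anti ω halt u' v, hv.2, neg_zero]
  simp only [map_add, map_smul, LinearMap.add_apply, LinearMap.smul_apply, smul_eq_mul, halt,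
    huu, e1, e2, e3, hw.1, hw.2]
  ring

/-- Splitting off a hyperbolic plane.  `ω` alternating and nondegenerate on the finite dimensional
`V`, `ω u u' = 1`.  Then `V = ⟨u, u'⟩ ⊕ V₁`, `V₁ = {v : ω u v = 0 and ω u' v = 0}`, and `ω` is
nondegenerate on `V₁`.

Proof.  `v = (ω u v) u' - (ω u' v) u + v₁` with `v₁ ∈ V₁`. -/
theorem plane_split {K V : Type} [Field K] [AddCommGroup V] [Module K V]
    (ω : V →ₗ[K] V →ₗ[K] K) (halt : ∀ u, ω u u = 0) (hnd : ∀ u, (∀ v, ω u v = 0) → u = 0)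
    (u u' : V) (huu : ω u u' = 1) :
    ∃ V₁ : Submodule K V, (∀ v, v ∈ V₁ ↔ ω u v = 0 ∧ ω u' v = 0) ∧
      (∀ v, ∃ a b : K, ∃ v₁ ∈ V₁, v = a • u + b • u' + v₁) ∧
      (∀ a b : K, ∀ v₁ ∈ V₁, a • u + b • u' + v₁ = 0 → a = 0 ∧ b = 0 ∧ v₁ = 0) ∧
      (∀ v ∈ V₁, (∀ w ∈ V₁, ω v w = 0) → v = 0) := by
  have hmem : ∀ v, v ∈ LinearMap.ker (ω u) ⊓ LinearMap.ker (ω u') ↔ ω u v = 0 ∧ ω u' v = 0 := by
    intro v
    rw [Submodule.mem_inf, LinearMap.mem_ker, LinearMap.mem_ker]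
  have e1 : ω u' u = -1 := by rw [H9_anti ω halt u u', huu]
  have hdec : ∀ v, ∃ a b : K, ∃ v₁ ∈ LinearMap.ker (ω u) ⊓ LinearMap.ker (ω u'),
      v = a • u + b • u' + v₁ := by
    intro v
    refine ⟨- ω u' v, ω u v, v - (- ω u' v) • u - (ω u v) • u', ?_, by abel⟩
    rw [hmem]
    constructor
    · rw [map_sub, map_sub, map_smul, map_smul, halt, huu, smul_zero, sub_zero, smul_eq_mul,
        mul_one, sub_self]
    · rw [map_sub, map_sub, map_smul, map_smul, halt, e1, smul_zero, sub_zero, smul_eq_mul]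
      ring
  refine ⟨LinearMap.ker (ω u) ⊓ LinearMap.ker (ω u'), hmem, hdec, ?_, ?_⟩
  · intro a b v₁ hv₁ h0
    rw [hmem] at hv₁
    have e2 : b = 0 := by
      have := congrArg (ω u) h0
      rw [map_add, map_add, map_smul, map_smul, halt, huu, hv₁.1, map_zero, smul_eq_mul,
        smul_eq_mul, mul_zero, mul_one, zero_add, add_zero] at this
      exact this
    have e3 : a = 0 := by
      have := congrArg (ω u') h0
      rw [map_add, map_add, map_smul, map_smul, halt, e1, hv₁.2, map_zero, smul_eq_mul,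
        smul_eq_mul, mul_zero, add_zero, add_zero, mul_neg, mul_one, neg_eq_zero] at this
      exact this
    refine ⟨e3, e2, ?_⟩
    rw [e2, e3, zero_smul, zero_smul, zero_add, zero_add] at h0
    exact h0
  · intro v hv hvw
    apply hnd
    intro w
    obtain ⟨a, b, w₁, hw₁, rfl⟩ := hdec w
    rw [hmem] at hv
    rw [map_add, map_add, map_smul, map_smul, hvw w₁ hw₁, H9_anti ω halt u v, hv.1,
      H9_anti ω halt u' v, hv.2]
    simp

/-- Gluing: a linear map of the plane `⟨u, u'⟩` with multiplier `χ` and one of `V₁` give one of `V`.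

The map is `a u + b u' + v₁ ↦ a (c₁₁ u + c₁₂ u') + b (c₂₁ u + c₂₂ u') + g v₁`; its multiplier on the
plane is the determinant `c₁₁ c₂₂ - c₁₂ c₂₁ = χ`; it is injective, hence bijective. -/
theorem plane_glue {K V : Type} [Field K] [AddCommGroup V] [Module K V] [Finite V]
    (ω : V →ₗ[K] V →ₗ[K] K) (halt : ∀ u, ω u u = 0) (hnd : ∀ u, (∀ v, ω u v = 0) → u = 0)
    (u u' : V) (huu : ω u u' = 1) (V₁ : Submodule K V)
    (hV₁ : ∀ v, v ∈ V₁ ↔ ω u v = 0 ∧ ω u' v = 0) (χ : K) (hχ : χ ≠ 0)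
    (c₁₁ c₁₂ c₂₁ c₂₂ : K) (hdet : c₁₁ * c₂₂ - c₁₂ * c₂₁ = χ) (g : V₁ ≃ₗ[K] V₁)
    (hg : ∀ v w : V₁, ω (g v) (g w) = χ * ω v w) :
    ∃ A : V ≃ₗ[K] V, (∀ v w, ω (A v) (A w) = χ * ω v w) ∧
      A u = c₁₁ • u + c₁₂ • u' ∧ A u' = c₂₁ • u + c₂₂ • u' ∧ ∀ v : V₁, A v = g v := by
  have e1 : ω u' u = -1 := by rw [H9_anti ω halt u u', huu]
  let q : V →ₗ[K] V := LinearMap.id + (ω u').smulRight u - (ω u).smulRight u'
  have hq : ∀ v, q v = v + (ω u' v) • u - (ω u v) • u' := fun v => rfl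
  have hqV : ∀ v, q v ∈ V₁ := by
    intro v
    rw [hV₁, hq]
    constructor
    · rw [map_sub, map_add, map_smul, map_smul, halt, huu, smul_zero, add_zero, smul_eq_mul,
        mul_one, sub_self]
    · rw [map_sub, map_add, map_smul, map_smul, halt, e1, smul_zero, sub_zero, smul_eq_mul]
      ring
  let q₁ : V →ₗ[K] V₁ := q.codRestrict V₁ hqV
  have hq₁ : ∀ v, (q₁ v : V) = v + (ω u' v) • u - (ω u v) • u' := fun v => rfl
  let A0 : V →ₗ[K] V := (-(ω u')).smulRight (c₁₁ • u + c₁₂ • u') +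
    (ω u).smulRight (c₂₁ • u + c₂₂ • u') + (V₁.subtype ∘ₗ (g : V₁ →ₗ[K] V₁) ∘ₗ q₁)
  have hA0 : ∀ v, A0 v = (- ω u' v) • (c₁₁ • u + c₁₂ • u') + (ω u v) • (c₂₁ • u + c₂₂ • u') +
      (g (q₁ v) : V) := fun v => rfl
  have hdec : ∀ v, v = (- ω u' v) • u + (ω u v) • u' + (q₁ v : V) := by
    intro v
    rw [hq₁, neg_smul]
    abel
  have hA0' : ∀ v, A0 v = ((- ω u' v) * c₁₁ + (ω u v) * c₂₁) • u +
      ((- ω u' v) * c₁₂ + (ω u v) * c₂₂) • u' + (g (q₁ v) : V) := by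
    intro v
    rw [hA0]
    module
  have hmult : ∀ v w, ω (A0 v) (A0 w) = χ * ω v w := by
    intro v w
    have hgv := (hV₁ _).1 (g (q₁ v)).2
    have hgw := (hV₁ _).1 (g (q₁ w)).2
    have hqv := (hV₁ _).1 (q₁ v).2
    have hqw := (hV₁ _).1 (q₁ w).2
    rw [hA0', hA0', H9_form ω halt u u' huu _ _ _ _ _ _ hgv hgw, hg]
    have e2 : ω v w = (- ω u' v) * (ω u w) - (ω u v) * (- ω u' w) +
        ω (q₁ v : V) (q₁ w : V) := by
      rw [← H9_form ω halt u u' huu _ _ _ _ _ _ hqv hqw, ← hdec, ← hdec]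
    rw [e2, ← hdet]
    ring
  have hinj : Function.Injective A0 := by
    rw [injective_iff_map_eq_zero]
    intro v hv
    apply hnd
    intro w
    have := hmult v w
    rw [hv, map_zero, LinearMap.zero_apply] at this
    exact (mul_eq_zero.mp this.symm).resolve_left hχ
  let A : V ≃ₗ[K] V := LinearEquiv.ofBijective A0 ⟨hinj, Finite.surjective_of_injective hinj⟩
  have hA : ∀ v, A v = A0 v := fun v => rfl
  refine ⟨A, ?_, ?_, ?_, ?_⟩
  · intro v w
    rw [hA, hA, hmult]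
  · have e2 : q₁ u = 0 := by
      apply Subtype.ext
      rw [hq₁, halt, e1]
      simp
    rw [hA, hA0', e2, map_zero, halt, e1]
    simp
  · have e2 : q₁ u' = 0 := by
      apply Subtype.ext
      rw [hq₁, halt, huu]
      simp
    rw [hA, hA0', e2, map_zero, halt, huu]
    simp
  · intro v
    have hv := (hV₁ _).1 v.2
    have e2 : q₁ v = v := by
      apply Subtype.ext
      rw [hq₁, hv.1, hv.2]
      simp
    rw [hA, hA0', e2, hv.1, hv.2]
    simp

end FPX
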