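import Pool.Agent.FPX.Basic

namespace FPX

/-- Let `W ≤ B` be normal subgroups of `G`, `W` central in `B` and of order prime to `m := |B : W|`.
Then `C := {b ∈ B : b ^ m = 1}` is a normal subgroup and `B = W × C`.

Proof.  Schur-Zassenhaus in `B` gives a complement `C₀` of `W`, `|C₀| = m`.  For `b = w c`:
`b ^ m = w ^ m c ^ m = w ^ m`, which is `1` iff `w = 1`.  So `C = C₀`. -/
theorem central_hall {G : Type} [Group G] [Finite G] (W B : Subgroup G) (hW : W.Normal)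
    (hB : B.Normal) (hWB : W ≤ B) (hcen : B ≤ cen W)
    (hcop : (Nat.card W).Coprime (W.relIndex B)) :
    ∃ C : Subgroup G, C.Normal ∧ (∀ b, b ∈ C ↔ b ∈ B ∧ b ^ (W.relIndex B) = 1) ∧
      C ⊓ W = ⊥ ∧ (∀ b ∈ B, ∃ w ∈ W, ∃ c ∈ C, b = w * c) ∧ Nat.card C = W.relIndex B := by
  have hN : (W.subgroupOf B).Normal := hW.subgroupOf B
  have hcardN : Nat.card (W.subgroupOf B) = Nat.card W :=
    Nat.card_congr (Subgroup.subgroupOfEquivOfLe hWB).toEquiv
  have hidx : (W.subgroupOf B).index = W.relIndex B := rfl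
  obtain ⟨H, hH⟩ := Subgroup.exists_right_complement'_of_coprime (N := W.subgroupOf B)
    (by rw [hcardN, hidx]; exact hcop)
  have hHcard : Nat.card H = W.relIndex B := by
    rw [← hidx]
    exact (hH.symm.index_eq_card).symm
  obtain ⟨m, hm⟩ : ∃ m, m = W.relIndex B := ⟨_, rfl⟩
  rw [← hm] at hHcard hcop ⊢
  have hWm : ∀ w ∈ W, w ^ m = 1 → w = 1 := by
    intro w hw h1
    rw [← orderOf_eq_one_iff]
    exact Nat.eq_one_of_dvd_coprimes hcop (Subgroup.orderOf_dvd_natCard W hw)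
      (orderOf_dvd_of_pow_eq_one h1)
  have hHm : ∀ c ∈ H.map B.subtype, c ∈ B ∧ c ^ m = 1 := by
    rintro _ ⟨c, hc, rfl⟩
    refine ⟨c.2, ?_⟩
    have h1 : c ^ m = 1 := by
      rw [← hHcard]
      have := pow_card_eq_one' (x := (⟨c, hc⟩ : H))
      exact congrArg Subtype.val this
    exact congrArg Subtype.val h1
  have hdec : ∀ b ∈ B, ∃ w ∈ W, ∃ c ∈ H.map B.subtype, b = w * c := by
    intro b hb
    obtain ⟨⟨n, k⟩, hnk⟩ := hH.2 ⟨b, hb⟩
    refine ⟨((n : B) : G), Subgroup.mem_subgroupOf.1 n.2, ((k : B) : G),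
      Subgroup.mem_map_of_mem B.subtype k.2, ?_⟩
    exact (congrArg Subtype.val hnk).symm
  have hiff : ∀ b, b ∈ H.map B.subtype ↔ b ∈ B ∧ b ^ m = 1 := by
    intro b
    refine ⟨hHm b, ?_⟩
    rintro ⟨hb, hbm⟩
    obtain ⟨w, hw, c, hc, rfl⟩ := hdec b hb
    obtain ⟨hcB, hcm⟩ := hHm c hc
    have hcomm : Commute w c := by
      have := Subgroup.mem_centralizer_iff.mp (hcen hcB) w hw
      exact this
    rw [hcomm.mul_pow, hcm, mul_one] at hbm
    rw [hWm w hw hbm, one_mul]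
    exact hc
  refine ⟨H.map B.subtype, ⟨?_⟩, hiff, ?_, hdec, ?_⟩
  · intro c hc g
    rw [hiff] at hc ⊢
    refine ⟨hB.conj_mem c hc.1 g, ?_⟩
    rw [conj_pow, hc.2, mul_one, mul_inv_cancel]
  · rw [eq_bot_iff]
    rintro c ⟨hc, hcW⟩
    rw [Subgroup.mem_bot]
    exact hWm c hcW (hHm c hc).2
  · rw [← hHcard]
    exact (Nat.card_congr (H.equivMapOfInjective B.subtype B.subtype_injective).toEquiv).symm

end FPX
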