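import Pool.Agent.FPX.I0
import Pool.Agent.FPX.E0
import Pool.Agent.FPX.E1

namespace FPX

variable {G : Type} [Group G] [Finite G]

theorem I1_rel {W : Subgroup G} [W.Normal] (B : Subgroup (G ⧸ W)) :
    W.relIndex (B.comap (QuotientGroup.mk' W)) = Nat.card B := by
  have h1 := Subgroup.relIndex_ker (B.comap (QuotientGroup.mk' W)) (QuotientGroup.mk' W)
  rw [QuotientGroup.ker_mk', Subgroup.map_comap_eq_self_of_surjective
    (QuotientGroup.mk'_surjective W)] at h1
  exact h1

theorem I1_le {W : Subgroup G} [W.Normal] (B : Subgroup (G ⧸ W)) :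
    W ≤ B.comap (QuotientGroup.mk' W) := by
  intro w hw
  rw [Subgroup.mem_comap, QuotientGroup.mk'_apply, (QuotientGroup.eq_one_iff w).mpr hw]
  exact B.one_mem

theorem I1_card {W : Subgroup G} [W.Normal] (B : Subgroup (G ⧸ W)) :
    Nat.card (B.comap (QuotientGroup.mk' W)) = Nat.card W * Nat.card B := by
  have h1 := Subgroup.relIndex_mul_relIndex ⊥ W (B.comap (QuotientGroup.mk' W)) bot_le
    (I1_le B)
  rw [Subgroup.relIndex_bot_left, Subgroup.relIndex_bot_left, I1_rel] at h1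
  exact h1.symm

/-- an element with two coprime powers in a subgroup is in the subgroup -/
theorem I1_cop (K : Subgroup G) (g : G) (m n : ℕ) (hmn : m.Coprime n) (hm : g ^ m ∈ K)
    (hn : g ^ n ∈ K) : g ∈ K := by
  have h1 : IsCoprime (m : ℤ) (n : ℤ) := Nat.isCoprime_iff_coprime.mpr hmn
  obtain ⟨a, b, hab⟩ := h1
  have h2 : g = (g ^ m) ^ a * (g ^ n) ^ b := by
    rw [← zpow_natCast, ← zpow_natCast, ← zpow_mul, ← zpow_mul, ← zpow_add, mul_comm (m : ℤ),
      mul_comm (n : ℤ), hab, zpow_one]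
  rw [h2]
  exact K.mul_mem (K.zpow_mem hm a) (K.zpow_mem hn b)

theorem I1_pow {W : Subgroup G} [W.Normal] (B : Subgroup (G ⧸ W)) (b : G)
    (hb : b ∈ B.comap (QuotientGroup.mk' W)) : b ^ Nat.card B ∈ W := by
  rw [← QuotientGroup.eq_one_iff, QuotientGroup.mk_pow]
  exact congrArg Subtype.val (pow_card_eq_one' (x := (⟨(QuotientGroup.mk' W) b, hb⟩ : B)))

theorem I1_aux (hG : Indec G) {p r : ℕ} {W : Subgroup G} [W.Normal] {x : G}
    (h : Sit p r W W x) (A B : Subgroup (G ⧸ W)) (hA : A.Normal) (hB : B.Normal)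
    (hAB : A ⊔ B = ⊤) (hcop : (Nat.card A).Coprime (Nat.card B))
    (hBr : (Nat.card B).Coprime r) : B = ⊥ := by
  have hp := h.syl.prime
  have hWcen : W ≤ cen W := fun w hw => ((h.Wmem w).mp hw).2.1
  have hA'n : (A.comap (QuotientGroup.mk' W)).Normal := hA.comap _
  have hB'n : (B.comap (QuotientGroup.mk' W)).Normal := hB.comap _
  have hcen : B.comap (QuotientGroup.mk' W) ≤ cen W := by
    intro b hb
    exact I1_cop _ b _ _ hBr (hWcen (I1_pow B b hb)) (h.pow_mem b)
  have hpB : p.Coprime (Nat.card B) := by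
    rw [hp.coprime_iff_not_dvd]
    intro h1
    apply h.syl.index
    rw [Subgroup.index_eq_card]
    exact h1.trans (Subgroup.card_subgroup_dvd_card B)
  have hWB : (Nat.card W).Coprime (Nat.card B) := by
    rw [h.Wcard]
    exact hpB.pow_left 2
  obtain ⟨C, hCn, -, -, hC3, hC4⟩ := central_hall W _ inferInstance hB'n (I1_le B) hcen (by
    rw [I1_rel]
    exact hWB)
  rw [I1_rel] at hC4
  have hsup : A.comap (QuotientGroup.mk' W) ⊔ C = ⊤ := by
    rw [eq_top_iff]
    have h1 : A.comap (QuotientGroup.mk' W) ⊔ B.comap (QuotientGroup.mk' W) = ⊤ := by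
      rw [Subgroup.comap_sup_eq _ _ _ (QuotientGroup.mk'_surjective W), hAB, Subgroup.comap_top]
    rw [← h1]
    apply sup_le le_sup_left
    intro b hb
    obtain ⟨w, hw, c, hc, rfl⟩ := hC3 b hb
    exact Subgroup.mul_mem _ (Subgroup.mem_sup_left (I1_le A hw)) (Subgroup.mem_sup_right hc)
  rcases hG _ C hA'n hCn hsup (by
    rw [I1_card, hC4]
    exact Nat.Coprime.mul_left hWB hcop) with h1 | h1
  · exfalso
    have h2 := I1_le A
    rw [h1, le_bot_iff] at h2
    have h3 := h.Wcard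
    rw [h2, Subgroup.card_bot] at h3
    have h4 := Nat.one_lt_pow (two_ne_zero) hp.one_lt
    omega
  · rw [h1, Subgroup.card_bot] at hC4
    exact Subgroup.eq_bot_of_card_eq B hC4.symm

/-- If `G` is indecomposable and `Sit p r W W x` then `G/W` is indecomposable.

Proof.  Let `A`, `B` be normal in `G/W` with `A ⊔ B = ⊤`, coprime orders.  One of the orders, say `|B|`,
is prime to `r`.  Let `A'`, `B'` be the preimages in `G`.  `B' ≤ cen W`: for `b ∈ B'`,
`b ^ |B| ∈ W ≤ cen W` and `b ^ r ∈ cen W` (`Sit.pow_mem`).  `|W| = p ^ 2` is prime to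
`|B' : W| = |B|` (`p ∤ |G : W|`).  `central_hall` gives `C` normal in `G`, `B' = W C`, `|C| = |B|`.
`A' ⊔ C` contains `W`, hence `B'`, so it is `⊤`; `|A'| = p ^ 2 |A|` is prime to `|C| = |B|`.  `Indec G`:
`A' = ⊥` is impossible (`W ≤ A'`), so `C = ⊥`, `|B| = 1`, `B = ⊥`. -/
theorem quot_indec (hG : Indec G) {p r : ℕ} {W : Subgroup G} [W.Normal] {x : G}
    (h : Sit p r W W x) : Indec (G ⧸ W) := by
  intro A B hA hB hAB hcop
  by_cases hr : r ∣ Nat.card B
  · left
    apply I1_aux hG h B A hB hA (by rw [sup_comm]; exact hAB) hcop.symm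
    rw [Nat.coprime_comm, h.rprime.coprime_iff_not_dvd]
    intro h1
    exact Nat.not_coprime_of_dvd_of_dvd h.rprime.one_lt h1 hr hcop
  · right
    apply I1_aux hG h A B hA hB hAB hcop
    rw [Nat.coprime_comm, h.rprime.coprime_iff_not_dvd]
    exact hr

end FPX
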