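import Pool.Agent.FPX.E0

namespace FPX

variable {G : Type} [Group G] [Finite G]

theorem I2_rel {W : Subgroup G} [W.Normal] (B : Subgroup (G ⧸ W)) :
    W.relIndex (B.comap (QuotientGroup.mk' W)) = Nat.card B := by
  have h1 := Subgroup.relIndex_ker (B.comap (QuotientGroup.mk' W)) (QuotientGroup.mk' W)
  rw [QuotientGroup.ker_mk', Subgroup.map_comap_eq_self_of_surjective
    (QuotientGroup.mk'_surjective W)] at h1
  exact h1

theorem I2_le {W : Subgroup G} [W.Normal] (B : Subgroup (G ⧸ W)) :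
    W ≤ B.comap (QuotientGroup.mk' W) := by
  intro w hw
  rw [Subgroup.mem_comap, QuotientGroup.mk'_apply, (QuotientGroup.eq_one_iff w).mpr hw]
  exact B.one_mem

theorem I2_card {W : Subgroup G} [W.Normal] (B : Subgroup (G ⧸ W)) :
    Nat.card (B.comap (QuotientGroup.mk' W)) = Nat.card W * Nat.card B := by
  have h1 := Subgroup.relIndex_mul_relIndex ⊥ W (B.comap (QuotientGroup.mk' W)) bot_le
    (I2_le B)
  rw [Subgroup.relIndex_bot_left, Subgroup.relIndex_bot_left, I2_rel] at h1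
  exact h1.symm

/-- an element with two coprime powers in a subgroup is in the subgroup -/
theorem I2_cop (K : Subgroup G) (g : G) (m n : ℕ) (hmn : m.Coprime n) (hm : g ^ m ∈ K)
    (hn : g ^ n ∈ K) : g ∈ K := by
  have h1 : IsCoprime (m : ℤ) (n : ℤ) := Nat.isCoprime_iff_coprime.mpr hmn
  obtain ⟨a, b, hab⟩ := h1
  have h2 : g = (g ^ m) ^ a * (g ^ n) ^ b := by
    rw [← zpow_natCast, ← zpow_natCast, ← zpow_mul, ← zpow_mul, ← zpow_add, mul_comm (m : ℤ),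
      mul_comm (n : ℤ), hab, zpow_one]
  rw [h2]
  exact K.mul_mem (K.zpow_mem hm a) (K.zpow_mem hn b)

theorem I2_pow {W : Subgroup G} [W.Normal] (B : Subgroup (G ⧸ W)) (b : G)
    (hb : b ∈ B.comap (QuotientGroup.mk' W)) : b ^ Nat.card B ∈ W := by
  rw [← QuotientGroup.eq_one_iff, QuotientGroup.mk_pow]
  exact congrArg Subtype.val (pow_card_eq_one' (x := (⟨(QuotientGroup.mk' W) b, hb⟩ : B)))

/-- The primes.  `G` is as in `Sit p r W W x` and `G/W` is of type (ii) with primes `p₁, r₁`.  Then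
`r = r₁` and `p₁ ≠ p`.

Proof.  `p ∤ |G/W|` and `p₁` divides it, so `p₁ ≠ p`.  `r = |G : cen W|` divides
`|G/W| = p₁ ^ 2 r₁ ^ k`, so `r = p₁` or `r = r₁`.  Suppose `r = p₁`.  Let `E = (cen W)/W`, normal of index
`r` in `T = G/W`.  `x₁` has order `r₁ ≠ p₁ = r`, so `x₁ ∈ E`.  For `w ∈ W₁`,
`x₁ w x₁⁻¹ w⁻¹ ∈ E` (`E` normal), and it is in `W₁`; the map `w ↦ x₁ w x₁⁻¹ w⁻¹` from `W₁` to
`W₁` is injective (`W₁` is commutative and `xfix`), so it is onto and `W₁ ≤ E`.  So `|T : E| = r = p₁`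
divides `|T : W₁| = r₁ ^ k`, so `p₁ = r₁`, contradiction. -/
theorem primes {p r p₁ r₁ : ℕ} {W : Subgroup G} [W.Normal] {x : G} (h : Sit p r W W x)
    {W₁ : Subgroup (G ⧸ W)} {x₁ : G ⧸ W} (h₁ : Typ p₁ r₁ W₁ x₁) : r = r₁ ∧ p₁ ≠ p := by
  have hp := h.syl.prime
  have hp₁ := h₁.sit.syl.prime
  have hr₁ := h₁.sit.rprime
  have hWcen : W ≤ cen W := fun w hw => ((h.Wmem w).mp hw).2.1
  obtain ⟨k, hk⟩ := h₁.rgp
  have hcardT : W.index = p₁ ^ 2 * r₁ ^ k := by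
    rw [Subgroup.index_eq_card, ← W₁.card_mul_index, h₁.sit.Wcard, hk]
  have hne : p₁ ≠ p := by
    intro h1
    apply h.syl.index
    rw [hcardT, ← h1, pow_two]
    exact (Dvd.intro _ rfl : p₁ ∣ p₁ * (p₁ * r₁ ^ k)).trans (by rw [mul_assoc])
  refine ⟨?_, hne⟩
  have hrd : r ∣ p₁ ^ 2 * r₁ ^ k := by
    rw [← hcardT, ← h.Didx]
    exact Subgroup.index_dvd_of_le hWcen
  rcases (h.rprime.dvd_mul).mp hrd with h2 | h2
  swap
  · exact (Nat.prime_dvd_prime_iff_eq h.rprime hr₁).mp (h.rprime.dvd_of_dvd_pow h2)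
  exfalso
  have hrp : r = p₁ := (Nat.prime_dvd_prime_iff_eq h.rprime hp₁).mp (h.rprime.dvd_of_dvd_pow h2)
  have hDn : (cen W).Normal := h.cen_normal
  have hsurj := QuotientGroup.mk'_surjective W
  have hEn : ((cen W).map (QuotientGroup.mk' W)).Normal := hDn.map _ hsurj
  have hEidx : ((cen W).map (QuotientGroup.mk' W)).index = r := by
    rw [Subgroup.index_map_eq _ hsurj (by rw [QuotientGroup.ker_mk']; exact hWcen), h.Didx]
  have hx₁E : x₁ ∈ (cen W).map (QuotientGroup.mk' W) := by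
    obtain ⟨y, rfl⟩ := hsurj x₁
    refine ⟨y, ?_, rfl⟩
    have h3 : y ^ r₁ ∈ W := by
      rw [← QuotientGroup.eq_one_iff, QuotientGroup.mk_pow, ← h₁.sit.xord]
      exact pow_orderOf_eq_one _
    apply I2_cop _ y r₁ r _ (hWcen h3) (h.pow_mem y)
    rw [Nat.coprime_primes hr₁ h.rprime, hrp]
    exact h₁.sit.rp
  have hW₁c : ∀ a ∈ W₁, ∀ b ∈ W₁, a * b = b * a := fun a ha b hb =>
    Subgroup.mem_centralizer_iff.mp ((h₁.sit.Wmem b).mp hb).2.1 a ha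
  have hW₁n : W₁.Normal := h₁.sit.syl.normal
  have hinj : Function.Injective (fun w : W₁ =>
      (⟨x₁ * w * x₁⁻¹ * (w : G ⧸ W)⁻¹, W₁.mul_mem (hW₁n.conj_mem _ w.2 x₁) (W₁.inv_mem w.2)⟩ :
        W₁)) := by
    intro a b hab
    have h3 : x₁ * a * x₁⁻¹ * (a : G ⧸ W)⁻¹ = x₁ * b * x₁⁻¹ * (b : G ⧸ W)⁻¹ :=
      congrArg Subtype.val hab
    have ha' : x₁ * a * x₁⁻¹ ∈ W₁ := hW₁n.conj_mem _ a.2 x₁
    have h4 : x₁ * (a * (b : G ⧸ W)⁻¹) * x₁⁻¹ = a * (b : G ⧸ W)⁻¹ := by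
      have h5 : x₁ * a * x₁⁻¹ = x₁ * b * x₁⁻¹ * (b : G ⧸ W)⁻¹ * a := by
        rw [← h3, inv_mul_cancel_right]
      have h6 : x₁ * (a * (b : G ⧸ W)⁻¹) * x₁⁻¹ = x₁ * a * x₁⁻¹ * (x₁ * b * x₁⁻¹)⁻¹ := by group
      have hb' : x₁ * b * x₁⁻¹ ∈ W₁ := hW₁n.conj_mem _ b.2 x₁
      rw [h6, h5, mul_assoc (x₁ * b * x₁⁻¹),
        hW₁c _ hb' _ (W₁.mul_mem (W₁.inv_mem b.2) a.2), mul_inv_cancel_right,
        hW₁c _ (W₁.inv_mem b.2) _ a.2]
    have h7 := h₁.sit.xfix _ (W₁.mul_mem a.2 (W₁.inv_mem b.2)) (mul_inv_eq_iff_eq_mul.mp h4)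
    exact Subtype.ext (mul_inv_eq_one.mp h7)
  have hW₁E : W₁ ≤ (cen W).map (QuotientGroup.mk' W) := by
    intro w hw
    obtain ⟨v, hv⟩ := Finite.surjective_of_injective hinj ⟨w, hw⟩
    have h8 : x₁ * v * x₁⁻¹ * (v : G ⧸ W)⁻¹ = w := congrArg Subtype.val hv
    rw [← h8, mul_assoc x₁, mul_assoc x₁]
    apply Subgroup.mul_mem _ hx₁E
    exact hEn.conj_mem _ (Subgroup.inv_mem _ hx₁E) _
  have h9 := Subgroup.index_dvd_of_le hW₁E
  rw [hEidx, hk] at h9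
  have h10 := (Nat.prime_dvd_prime_iff_eq h.rprime hr₁).mp (h.rprime.dvd_of_dvd_pow h9)
  exact h₁.sit.rp (h10.symm.trans hrp)

end FPX
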