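import Pool.Agent.FPX.L1

namespace FPX

open Polynomial in
theorem L17_ind {p : ℕ} [Fact p.Prime] {T : Type} [AddCommGroup T] [Module (ZMod p) T]
    (Z : Module.End (ZMod p) T) (N : Submodule (ZMod p) T) (hN : ∀ n ∈ N, Z n ∈ N)
    (l : Multiset (ZMod p)) : ∀ v ∈ N, v ≠ 0 →
      (aeval Z (l.map (fun c => (X - C c : (ZMod p)[X]))).prod) v = 0 →
      ∃ n ∈ N, n ≠ 0 ∧ ∃ c : ZMod p, Z n = c • n := by
  induction l using Multiset.induction_on with
  | empty =>
    intro v _ hv h
    exfalso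
    apply hv
    simpa using h
  | cons a l ih =>
    intro v hvN hv h
    rw [Multiset.map_cons, Multiset.prod_cons, mul_comm, map_mul, Module.End.mul_apply] at h
    have e : (aeval Z (X - C a : (ZMod p)[X])) v = Z v - a • v := by
      simp [Algebra.algebraMap_eq_smul_one]
    rw [e] at h
    by_cases hw : Z v - a • v = 0
    · exact ⟨v, hvN, hv, a, sub_eq_zero.mp hw⟩
    · exact ih _ (N.sub_mem (hN v hvN) (N.smul_mem a hvN)) hw h

open Polynomial in
theorem L17_prod {p : ℕ} [Fact p.Prime] :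
    ((Finset.univ : Finset (ZMod p)).val.map (fun c => (X - C c : (ZMod p)[X]))).prod
      = X ^ p - X := by
  have hp : p.Prime := Fact.out
  have hr : (X ^ p - X : (ZMod p)[X]).roots = (Finset.univ : Finset (ZMod p)).val := by
    have h := FiniteField.roots_X_pow_card_sub_X (ZMod p)
    rwa [ZMod.card] at h
  have hm : (X ^ p - X : (ZMod p)[X]).Monic := by
    apply monic_X_pow_sub
    rw [degree_X]
    exact_mod_cast hp.one_lt
  have hd : (X ^ p - X : (ZMod p)[X]).natDegree = p :=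
    FiniteField.X_pow_card_sub_X_natDegree_eq (ZMod p) hp.one_lt
  have h := prod_multiset_X_sub_C_of_monic_of_roots_card_eq hm (by
    rw [hr, hd]
    change (Finset.univ : Finset (ZMod p)).card = p
    rw [Finset.card_univ, ZMod.card])
  rw [hr] at h
  exact h

/-- Eigenvector lemma.

Proof.  `r` is prime to `p` (it divides `p - 1` or `p + 1`).  `N := range (X - 1) ≠ 0` is
`X`-invariant, and `n ∈ N`, `X n = n` gives `n = 0` (`semis1`).  Let `Z = X + X⁻¹` as an endomorphism
of `T`.  `Z ^ p = X ^ p + (X⁻¹) ^ p` (characteristic `p`, commuting), and `X ^ p = X` or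
`X ^ p = X⁻¹` according to `r ∣ p - 1`, `r ∣ p + 1`; so `Z ^ p = Z`, i.e. the product over
`c ∈ F_p` of the `Z - c` is `0` (`∏ (t - c) = t ^ p - t`, `FiniteField.X_pow_card_sub_X...` or
`ZMod.pow_card`).  Take `0 ≠ v ∈ N`; some partial product applied to `v` is a nonzero `n ∈ N` with
`(Z - c) n = 0`. -/
theorem eig {p r : ℕ} [Fact p.Prime] (hr : r ∣ p - 1 ∨ r ∣ p + 1) (hrp : r.Prime) {T : Type}
    [AddCommGroup T] [Module (ZMod p) T] [Finite T] (X : T ≃ₗ[ZMod p] T) (hX : X ^ r = 1)
    (hne : X ≠ 1) : ∃ (n : T) (c : ZMod p), X n + X⁻¹ n = c • n ∧ X n ≠ n := by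
  have hp : p.Prime := Fact.out
  -- coprimality
  have hcop : r.Coprime p := by
    rw [Nat.coprime_primes hrp hp]
    rintro rfl
    rcases hr with h | h
    · have := Nat.le_of_dvd (by have := hp.two_le; omega) h
      have := hp.two_le
      omega
    · have h1 : r ∣ 1 := (Nat.dvd_add_right (dvd_refl r)).mp h
      exact hp.one_lt.ne' (Nat.dvd_one.mp h1)
  obtain ⟨v0, hv0⟩ : ∃ v, X v ≠ v := by
    by_contra hcon
    push Not at hcon
    exact hne (LinearEquiv.ext hcon)
  have hXi : ∀ t, X (X⁻¹ t) = t := fun t => X.apply_symm_apply t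
  have hiX : ∀ t, X⁻¹ (X t) = t := fun t => X.symm_apply_apply t
  let Y : Module.End (ZMod p) T := X.toLinearMap
  let Y' : Module.End (ZMod p) T := (X⁻¹).toLinearMap
  have hY : ∀ t, Y t = X t := fun t => rfl
  have hY' : ∀ t, Y' t = X⁻¹ t := fun t => rfl
  have hYY' : Y * Y' = 1 := by
    ext t
    simp [hY, hY']
  have hY'Y : Y' * Y = 1 := by
    ext t
    simp [hY, hY', hiX]
  have hcomm : Commute Y Y' := by
    show Y * Y' = Y' * Y
    rw [hYY', hY'Y]
  have hYpow : ∀ n : ℕ, ∀ t, (Y ^ n) t = (X ^ n) t := by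
    intro n
    induction n with
    | zero => intro t; rfl
    | succ n ih => intro t; rw [pow_succ, pow_succ, Module.End.mul_apply, ih]; rfl
  have hY1 : Y ^ r = 1 := by
    ext t
    rw [hYpow, hX]; rfl
  have hY'1 : Y' ^ r = 1 := by
    have h1 : (Y * Y') ^ r = Y ^ r * Y' ^ r := hcomm.mul_pow r
    rw [hYY', one_pow, hY1, one_mul] at h1
    exact h1.symm
  have : Nontrivial T := ⟨⟨X v0, v0, hv0⟩⟩
  have : CharP (Module.End (ZMod p) T) p :=
    charP_of_injective_algebraMap (FaithfulSMul.algebraMap_injective (ZMod p) _) p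
  have hZp : (Y + Y') ^ p = Y + Y' := by
    rw [add_pow_char_of_commute p hcomm]
    rcases hr with ⟨k, hk⟩ | ⟨k, hk⟩
    · have hpk : p = r * k + 1 := by have := hp.two_le; omega
      have e1 : ∀ W : Module.End (ZMod p) T, W ^ r = 1 → W ^ p = W := by
        intro W hW
        calc W ^ p = W ^ (r * k + 1) := by rw [← hpk]
          _ = W := by rw [pow_succ, pow_mul, hW, one_pow, one_mul]
      rw [e1 Y hY1, e1 Y' hY'1]
    · have e1 : ∀ W W' : Module.End (ZMod p) T, W ^ r = 1 → W * W' = 1 → W ^ p = W' := by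
        intro W W' hW hWW
        have : W ^ (p + 1) = 1 := by rw [hk, pow_mul, hW, one_pow]
        calc W ^ p = W ^ p * (W * W') := by rw [hWW, mul_one]
          _ = W ^ (p + 1) * W' := by rw [pow_succ, mul_assoc]
          _ = W' := by rw [this, one_mul]
      rw [e1 Y Y' hY1 hYY', e1 Y' Y hY'1 hY'Y, add_comm]
  let N : Submodule (ZMod p) T := LinearMap.range (Y - 1)
  have hN : ∀ n ∈ N, (Y + Y') n ∈ N := by
    rintro n ⟨m, rfl⟩
    refine ⟨(Y + Y') m, ?_⟩
    have : Commute (Y - 1) (Y + Y') := by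
      have c1 : Commute (Y - 1) Y := (Commute.refl Y).sub_left (Commute.one_left Y)
      have c2 : Commute (Y - 1) Y' := hcomm.sub_left (Commute.one_left Y')
      exact c1.add_right c2
    have h2 := congrArg (fun f : Module.End (ZMod p) T => f m) this.eq
    exact h2
  have hpoly : (Polynomial.aeval (Y + Y') ((Finset.univ : Finset (ZMod p)).val.map
      (fun c => (Polynomial.X - Polynomial.C c : Polynomial (ZMod p)))).prod) (X v0 - v0) = 0 := by
    rw [L17_prod]
    simp [hZp]
  obtain ⟨n, hnN, hn0, c, hc⟩ := L17_ind (Y + Y') N hN _ (X v0 - v0) ⟨v0, rfl⟩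
    (sub_ne_zero.mpr hv0) hpoly
  refine ⟨n, c, hc, ?_⟩
  intro hfix
  apply hn0
  obtain ⟨m, hm⟩ := hnN
  have hm' : X m - m = n := hm
  have h1 : X m = m := semis1 X r hcop hX m (by rw [hm', hfix])
  rw [← hm', h1, sub_self]

end FPX
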