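import Pool.Agent.FPX.S9
import Pool.Agent.FPX.A3
import Pool.Agent.FPX.L17
import Pool.Agent.FPX.L15

namespace FPX

variable {G : Type} [Group G] [Finite G] {p r : ℕ} [Fact p.Prime] {P W : Subgroup G} {x : G}
  {V : Type} [AddCommGroup V] [Module (ZMod p) V] {f : V → G}
  {ρ : MulAut G →* (V ≃ₗ[ZMod p] V)} {X : V ≃ₗ[ZMod p] V}

/-- Step (A): `x` acts trivially on `K/W`, `K = {y ∈ Z : y ^ p = 1}`.

Proof.  `K` is a characteristic subgroup of `G` containing `W` (`Z2_facts`: `y ↦ y ^ p` is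
multiplicative on `Z`).  `exists_smod` for `K`, `W` (commutators are in `W`) gives `T, π, σ`.  Let
`X' = σ (conj x)`, `X' ^ r = 1`.  If `X' = 1` we are done.  Otherwise `eig` (with `Plane.dvd`) gives
`n`, `c` with `X' n + X'⁻¹ n = c n`, `X' n ≠ n`, so `X' ^ 2 n = c X' n - n`.  Choose `y ∈ K` with
`π y = n`, `m = c.val`: the hypothesis of `stepA2` holds (apply `π`), and its conclusion gives
`X' n = n`, contradiction. -/
theorem stepA (h : Ctx p r P W x V f ρ X) (hF : PF G) (hc : ∀ a ∈ P, a ∈ cen P → a ∈ W)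
    {Z : Subgroup G} (hZ : IsZ2 P W Z) :
    ∀ y ∈ Z, y ^ p = 1 → y⁻¹ * (x * y * x⁻¹) ∈ W := by
  obtain ⟨hWZ, -, -, -, hpm, -⟩ := Z2_facts h.sit hc hZ
  have hZP : ∀ y ∈ Z, y ∈ P := fun y hy => ((hZ.mem y).1 hy).1
  have hZW : ∀ y ∈ Z, ∀ g ∈ P, y * g * y⁻¹ * g⁻¹ ∈ W := fun y hy => ((hZ.mem y).1 hy).2
  let K : Subgroup G :=
    { carrier := {y | y ∈ Z ∧ y ^ p = 1}
      mul_mem' := by
        rintro a b ⟨ha, ha2⟩ ⟨hb, hb2⟩
        refine ⟨Z.mul_mem ha hb, ?_⟩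
        rw [hpm a ha b hb, ha2, hb2, one_mul]
      one_mem' := ⟨Z.one_mem, one_pow p⟩
      inv_mem' := by
        rintro a ⟨ha, ha2⟩
        exact ⟨Z.inv_mem ha, by rw [inv_pow, ha2, inv_one]⟩ }
  have hKmem : ∀ y, y ∈ K ↔ y ∈ Z ∧ y ^ p = 1 := fun y => Iff.rfl
  have hKc : K.Characteristic := by
    apply char_of_forall
    rintro α y ⟨hy, hy2⟩
    exact ⟨char_mem hZ.char α hy, by rw [← map_pow, hy2, map_one]⟩
  have hWK : W ≤ K := fun w hw => ⟨hWZ hw, ((h.sit.Wmem w).1 hw).2.2⟩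
  obtain ⟨T, iT1, iT2, iT3, π, σ, hS⟩ := exists_smod p K W hKc h.sit.Wchar hWK
    (fun a ha b hb => hZW a ha.1 b (hZP b hb.1))
    (fun a ha => by rw [ha.2]; exact W.one_mem)
  have hπ1 : π 1 = 0 := (hS.ker 1 K.one_mem).2 W.one_mem
  have hπinv : ∀ a ∈ K, π a⁻¹ = - π a := by
    intro a ha
    have h1 := hS.mul a⁻¹ (K.inv_mem ha) a ha
    rw [inv_mul_cancel, hπ1] at h1
    exact (neg_eq_of_add_eq_zero_left h1.symm).symm
  have hπpow : ∀ a ∈ K, ∀ n : ℕ, π (a ^ n) = n • π a := by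
    intro a ha n
    induction n with
    | zero => rw [pow_zero, hπ1, zero_smul]
    | succ n ih => rw [pow_succ, hS.mul _ (K.pow_mem ha n) _ ha, ih, succ_nsmul]
  have hconj : ∀ g : G, ∀ a ∈ K, g * a * g⁻¹ ∈ K ∧ π (g * a * g⁻¹) = σ (MulAut.conj g) (π a) := by
    intro g a ha
    have h1 := char_mem hKc (MulAut.conj g) ha
    have h2 := hS.act (MulAut.conj g) a ha
    rw [MulAut.conj_apply] at h1 h2
    exact ⟨h1, h2⟩
  set X' : T ≃ₗ[ZMod p] T := σ (MulAut.conj x) with hX'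
  have hXr : X' ^ r = 1 := by
    rw [hX', ← map_pow, ← map_pow, ← h.sit.xord, pow_orderOf_eq_one, map_one, map_one]
  have hker : ∀ y ∈ K, X' (π y) = π y → y⁻¹ * (x * y * x⁻¹) ∈ W := by
    intro y hy h1
    obtain ⟨h2, h3⟩ := hconj x y hy
    rw [← hS.ker _ (K.mul_mem (K.inv_mem hy) h2), hS.mul _ (K.inv_mem hy) _ h2, hπinv y hy, h3, ← hX',
      h1, neg_add_cancel]
  intro y hy hyp
  have hyK : y ∈ K := ⟨hy, hyp⟩
  by_cases hX1 : X' = 1
  · exact hker y hyK (by rw [hX1]; rfl)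
  · exfalso
    obtain ⟨n, c, h1, h2⟩ := eig h.pl.dvd h.sit.rprime X' hXr hX1
    obtain ⟨z, hzK, hzn⟩ := hS.surj n
    have h3 : X' (X' n) + n = c • X' n := by
      have h4 := congrArg X' h1
      rw [map_add, map_smul] at h4
      have h5 : X' (X'⁻¹ n) = n := by
        have : (X' * X'⁻¹) n = n := by rw [mul_inv_cancel]; rfl
        exact this
      rw [h5] at h4
      exact h4
    apply h2
    obtain ⟨h6, h7⟩ := hconj x z hzK
    obtain ⟨h8, h9⟩ := hconj (x ^ 2) z hzK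
    have h10 : σ (MulAut.conj (x ^ 2)) (π z) = X' (X' n) := by
      rw [map_pow, map_pow, ← hX', pow_two, hzn]
      rfl
    have h11 : (c.val : ℕ) • X' n = c • X' n := by
      rw [← Nat.cast_smul_eq_nsmul (ZMod p), ZMod.natCast_zmod_val]
    have h12 := stepA2 h hF hc hZ z hzK.1 hzK.2 c.val (by
      have e1 : (x * z * x⁻¹) ^ c.val * z⁻¹ ∈ K := K.mul_mem (K.pow_mem h6 _) (K.inv_mem hzK)
      rw [← hS.ker _ (K.mul_mem (K.inv_mem e1) h8), hS.mul _ (K.inv_mem e1) _ h8, hπinv _ e1,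
        hS.mul _ (K.pow_mem h6 _) _ (K.inv_mem hzK), hπinv z hzK, hπpow _ h6, h7, h9, h10, ← hX', hzn,
        h11, ← h3]
      abel)
    have e2 := (hS.ker _ (K.mul_mem (K.inv_mem hzK) h6)).2 h12
    rw [hS.mul _ (K.inv_mem hzK) _ h6, hπinv z hzK, h7, ← hX', hzn] at e2
    exact (neg_add_eq_zero.1 e2).symm

end FPX
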