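import Pool.Agent.FPX.S8

namespace FPX

variable {G : Type} [Group G] [Finite G] {p r : ℕ} [Fact p.Prime] {P W : Subgroup G} {x : G}
  {V : Type} [AddCommGroup V] [Module (ZMod p) V] {f : V → G}
  {ρ : MulAut G →* (V ≃ₗ[ZMod p] V)} {X : V ≃ₗ[ZMod p] V}

theorem S12_fW (h : Ctx p r P W x V f ρ X) (v : V) : f v ∈ W :=
  (h.mod.mem _).mpr ⟨v, rfl⟩

/-- independence of the choice of the root -/
theorem S12_indep (h : Ctx p r P W x V f ρ X) (hc : ∀ a ∈ P, a ∈ cen P → a ∈ W)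
    {Z : Subgroup G} (hZ : IsZ2 P W Z) {J : Subgroup G}
    (hJZ : J ≤ Z) (hJ1 : ∀ y ∈ J, y ^ p = 1 → y ∈ W) (g : G) (hg : g ∈ P)
    (y : G) (hy : y ∈ J) (z : G) (hz : z ∈ J) (hyz : y ^ p = z ^ p) :
    y * g * y⁻¹ * g⁻¹ = z * g * z⁻¹ * g⁻¹ := by
  obtain ⟨h1, h2, h3, h4, h5, h6⟩ := Z2_facts h.sit hc hZ
  have h7 : (y * z⁻¹) ^ p = 1 := by
    rw [h5 y (hJZ hy) z⁻¹ (hJZ (J.inv_mem hz)), hyz, inv_pow, mul_inv_cancel]
  have h8 := hJ1 _ (J.mul_mem hy (J.inv_mem hz)) h7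
  have h9 := h3 (y * z⁻¹) (h1 h8) z (hJZ hz) g hg
  have h10 : y * z⁻¹ * g * (y * z⁻¹)⁻¹ * g⁻¹ = 1 := by
    have h11 := ((h.sit.Wmem _).mp h8).2.1
    have h12 : g * (y * z⁻¹) = (y * z⁻¹) * g := Subgroup.mem_centralizer_iff.mp h11 g hg
    rw [← h12]
    group
  rw [h10, one_mul, inv_mul_cancel_right] at h9
  exact h9

theorem S12_ex (h : Ctx p r P W x V f ρ X) (hc : ∀ a ∈ P, a ∈ cen P → a ∈ W)
    {Z : Subgroup G} (hZ : IsZ2 P W Z) {J : Subgroup G}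
    (hJZ : J ≤ Z) (hJ1 : ∀ y ∈ J, y ^ p = 1 → y ∈ W) (hJ2 : ∀ w ∈ W, ∃ y ∈ J, y ^ p = w) (g : G) :
    ∃ φ : V →ₗ[ZMod p] V, g ∈ P → ∀ y ∈ J, ∀ v, y ^ p = f v → y * g * y⁻¹ * g⁻¹ = f (φ v) := by
  by_cases hg : g ∈ P
  swap
  · exact ⟨0, fun h => absurd h hg⟩
  have hY : ∀ v : V, ∃ y ∈ J, y ^ p = f v := fun v => hJ2 _ (S12_fW h v)
  choose Y hYJ hYp using hY
  have hU : ∀ v : V, ∃ u : V, f u = Y v * g * (Y v)⁻¹ * g⁻¹ := by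
    intro v
    exact (h.mod.mem _).mp (((hZ.mem _).mp (hJZ (hYJ v))).2 g hg)
  choose U hUf using hU
  have key : ∀ y ∈ J, ∀ v, y ^ p = f v → y * g * y⁻¹ * g⁻¹ = f (U v) := by
    intro y hy v hyv
    rw [hUf]
    exact S12_indep h hc hZ hJZ hJ1 g hg y hy (Y v) (hYJ v) (by rw [hyv, hYp])
  have hadd : ∀ u v : V, U (u + v) = U u + U v := by
    intro u v
    apply h.mod.inj
    obtain ⟨h1, h2, h3, h4, h5, h6⟩ := Z2_facts h.sit hc hZ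
    rw [h.mod.add, hUf u, hUf v, ← h3 _ (hJZ (hYJ u)) _ (hJZ (hYJ v)) g hg]
    symm
    apply key _ (J.mul_mem (hYJ u) (hYJ v))
    rw [h5 _ (hJZ (hYJ u)) _ (hJZ (hYJ v)), hYp, hYp, h.mod.add]
  let F : V →+ V := AddMonoidHom.mk' U hadd
  exact ⟨AddMonoidHom.toZModLinearMap p F, fun _ => key⟩

/-- Step (B2).  The commutator maps `φ g : V → V`, `g ∈ P`: `f (φ g v) = [y, g]` where `y ∈ J`,
`y ^ p = f v`.

Proof.  For `v` choose `y_v ∈ J` with `y_v ^ p = f v`; another choice differs by an element of `W`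
(`(y y_v⁻¹) ^ p = 1`), which commutes with `g ∈ P`; so `[y, g]` is well defined, it is in `W`, and by
`Z2_facts` it is multiplicative in `v` and in `g`; additive maps are `ZMod p`-linear
(`AddMonoidHom.toZModLinearMap`).  For `g ∉ P` put `φ g = 0`.  Equivariance:
`α [y, g] = [α y, α g]` and `(α y) ^ p = f (ρ α v)`, `α y ∈ J`. -/
theorem stepB2 (h : Ctx p r P W x V f ρ X) (hc : ∀ a ∈ P, a ∈ cen P → a ∈ W)
    {Z : Subgroup G} (hZ : IsZ2 P W Z) {J : Subgroup G} (hJ : J.Characteristic) (hWJ : W ≤ J)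
    (hJZ : J ≤ Z) (hJ1 : ∀ y ∈ J, y ^ p = 1 → y ∈ W) (hJ2 : ∀ w ∈ W, ∃ y ∈ J, y ^ p = w) :
    ∃ φ : G → (V →ₗ[ZMod p] V),
      (∀ g ∈ P, ∀ y ∈ J, ∀ v, y ^ p = f v → y * g * y⁻¹ * g⁻¹ = f (φ g v)) ∧
      (∀ g ∈ P, ∀ g' ∈ P, φ (g * g') = φ g + φ g') ∧
      (∀ α : MulAut G, ∀ g ∈ P, ∀ v, ρ α (φ g v) = φ (α g) (ρ α v)) := by
  choose φ hφ using S12_ex h hc hZ hJZ hJ1 hJ2
  refine ⟨φ, hφ, ?_, ?_⟩
  · intro g hg g' hg'
    apply LinearMap.ext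
    intro v
    obtain ⟨y, hy, hyv⟩ := hJ2 _ (S12_fW h v)
    obtain ⟨h1, h2, h3, h4, h5, h6⟩ := Z2_facts h.sit hc hZ
    apply h.mod.inj
    rw [LinearMap.add_apply, h.mod.add, ← hφ g hg y hy v hyv, ← hφ g' hg' y hy v hyv,
      ← hφ (g * g') (P.mul_mem hg hg') y hy v hyv]
    exact h4 y (hJZ hy) g hg g' hg'
  · intro α g hg v
    obtain ⟨y, hy, hyv⟩ := hJ2 _ (S12_fW h v)
    have hαg : α g ∈ P := char_mem h.sit.Pchar α hg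
    have hαy : α y ∈ J := char_mem hJ α hy
    have hαv : (α y) ^ p = f (ρ α v) := by
      rw [← map_pow, hyv, h.mod.act]
    apply h.mod.inj
    rw [← hφ (α g) hαg (α y) hαy (ρ α v) hαv, ← h.mod.act, ← hφ g hg y hy v hyv]
    simp only [map_mul, map_inv]

end FPX
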