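import Pool.Agent.FPX.Basic

namespace FPX

/-- A permutation of `l`-power order of a finite set whose cardinality is a power of the prime
`p ≠ l` (more generally prime to `l`) has a fixed point; coset version.

`θ : G → G` is a bijection of the left coset `g D` of the `p`-group `D` to itself whose
`l ^ a`-th iterate is the identity there.  Proof: `MulAction.card_modEq_card_fixedPoints` for the
cyclic group generated by the permutation of `{y : g⁻¹ y ∈ D}` (an `l`-group), or
`Equiv.Perm.card_fixedPoints_modEq`. -/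
theorem perm_fix {G : Type} [Group G] [Finite G] {p l a : ℕ} (hp : p.Prime) (hl : l.Prime)
    (hlp : l ≠ p) (D : Subgroup G) (hD : IsPGroup p D) (g : G) (θ : G → G)
    (h1 : ∀ y, g⁻¹ * y ∈ D → g⁻¹ * θ y ∈ D)
    (h2 : ∀ y, g⁻¹ * y ∈ D → θ^[l ^ a] y = y) : ∃ y, g⁻¹ * y ∈ D ∧ θ y = y := by
  classical
  have := Fintype.ofFinite G
  have : Fact p.Prime := ⟨hp⟩
  have : Fact l.Prime := ⟨hl⟩
  by_contra hno
  push Not at hno
  let S := {y : G // g⁻¹ * y ∈ D}
  let F : Function.End S := fun y => ⟨θ y.1, h1 y.1 y.2⟩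
  have hit : ∀ (n : ℕ) (y : S), (((F ^ n : Function.End S) y : S) : G) = θ^[n] y.1 := by
    intro n
    induction n with
    | zero => intro y; rfl
    | succ n ih =>
      intro y
      rw [pow_succ, Function.iterate_succ_apply]
      exact ih (F y)
  have hF : F ^ l ^ a = 1 := by
    funext y
    apply Subtype.ext
    rw [hit]
    exact h2 y.1 y.2
  have hc := Equiv.Perm.card_fixedPoints_modEq hF
  have h0 : Fintype.card (Function.fixedPoints F) = 0 := by
    rw [Fintype.card_eq_zero_iff]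
    refine ⟨fun y => ?_⟩
    obtain ⟨y, hy⟩ := y
    exact hno y.1 y.2 (congrArg Subtype.val hy)
  have e : D ≃ S :=
    { toFun := fun d => ⟨g * d, by rw [inv_mul_cancel_left]; exact d.2⟩
      invFun := fun y => ⟨g⁻¹ * y.1, y.2⟩
      left_inv := fun d => by
        apply Subtype.ext
        exact inv_mul_cancel_left g (d : G)
      right_inv := fun y => by
        apply Subtype.ext
        exact mul_inv_cancel_left g y.1 }
  have hcard : Fintype.card S = Nat.card D := by
    rw [Nat.card_congr e, Nat.card_eq_fintype_card]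
  obtain ⟨k, hk⟩ := IsPGroup.iff_card.mp hD
  rw [h0, hcard, hk] at hc
  have h3 : l ∣ p ^ k := (Nat.modEq_zero_iff_dvd).mp hc
  have h4 := hl.dvd_of_dvd_pow h3
  exact hlp ((Nat.prime_dvd_prime_iff_eq hl hp).mp h4)

/-- Extraction of an `l`-part.  `α` is an automorphism and `κ ≠ 1` an element of `F_p` with
`κ ≠ 0`.  Then there are a prime `l ≠ p` and `m, a` with `(α ^ m) ^ (l ^ a) = 1` and `κ ^ m ≠ 1`.

Proof.  Let `l` be a prime divisor of the order of `κ` in `(ZMod p)ˣ`; `l` divides `p - 1`, so `l ≠ p`.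
Let `n = orderOf α = l ^ a m`, `l ∤ m`.  Then `(α ^ m) ^ (l ^ a) = 1` and `κ ^ m ≠ 1` because `l`
divides the order of `κ` and not `m`. -/
theorem exists_l {G : Type} [Group G] [Finite G] {p : ℕ} [Fact p.Prime] (α : MulAut G)
    (κ : ZMod p) (h0 : κ ≠ 0) (h1 : κ ≠ 1) :
    ∃ (l a m : ℕ), l.Prime ∧ l ≠ p ∧ (α ^ m) ^ (l ^ a) = 1 ∧ κ ^ m ≠ 1 := by
  have hp : p.Prime := Fact.out
  have : Finite (MulAut G) := Finite.of_injective (fun β : MulAut G => (β : G → G))
    (fun a b hab => MulEquiv.ext (fun x => congrFun hab x))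
  have hne : orderOf κ ≠ 1 := by
    intro h
    exact h1 (orderOf_eq_one_iff.mp h)
  have hl := Nat.minFac_prime hne
  have hld : Nat.minFac (orderOf κ) ∣ orderOf κ := Nat.minFac_dvd _
  have hk : κ ^ (p - 1) = 1 := ZMod.pow_card_sub_one_eq_one h0
  have hdp : orderOf κ ∣ p - 1 := orderOf_dvd_of_pow_eq_one hk
  have hpos : 0 < orderOf α := orderOf_pos α
  obtain ⟨a, m, hm, hn⟩ := Nat.exists_eq_pow_mul_and_not_dvd hpos.ne' _ hl.ne_one
  refine ⟨Nat.minFac (orderOf κ), a, m, hl, ?_, ?_, ?_⟩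
  · intro h
    have h2 := hld.trans hdp
    rw [h] at h2
    have h3 := Nat.le_of_dvd (Nat.sub_pos_of_lt hp.one_lt) h2
    have := hp.one_lt
    omega
  · rw [← pow_mul, mul_comm, ← hn]
    exact pow_orderOf_eq_one α
  · intro h
    exact hm (hld.trans (orderOf_dvd_of_pow_eq_one h))

end FPX
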