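import Pool.Agent.FPX.S6
import Pool.Agent.FPX.S12
import Pool.Agent.FPX.S13

namespace FPX

variable {G : Type} [Group G] [Finite G] {p r : ℕ} [Fact p.Prime] {P W : Subgroup G} {x : G}
  {V : Type} [AddCommGroup V] [Module (ZMod p) V] {f : V → G}
  {ρ : MulAut G →* (V ≃ₗ[ZMod p] V)} {X : V ≃ₗ[ZMod p] V}

theorem S14_fz (h : Ctx p r P W x V f ρ X) (i : ℤ) (v : V) :
    f ((i : ZMod p) • v) = (f v) ^ i := by
  rw [Int.cast_smul_eq_zsmul]
  exact map_zpow (MonoidHom.mk' (fun u : Multiplicative V => f (Multiplicative.toAdd u))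
    (fun a b => h.mod.add _ _)) (Multiplicative.ofAdd v) i

/-- the subgroup generated by two commuting elements -/
def S14_H {G : Type} [Group G] (a b : G) (hab : Commute a b) : Subgroup G where
  carrier := {y | ∃ i j : ℤ, y = a ^ i * b ^ j}
  mul_mem' := by
    rintro y z ⟨i, j, rfl⟩ ⟨k, l, rfl⟩
    refine ⟨i + k, j + l, ?_⟩
    rw [zpow_add, zpow_add, mul_assoc, mul_assoc, ← mul_assoc (b ^ j),
      ((hab.symm.zpow_zpow j k).eq), mul_assoc]
  one_mem' := ⟨0, 0, by rw [zpow_zero, zpow_zero, one_mul]⟩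
  inv_mem' := by
    rintro y ⟨i, j, rfl⟩
    refine ⟨-i, -j, ?_⟩
    rw [mul_inv_rev, zpow_neg, zpow_neg, ← zpow_neg, ← zpow_neg,
      (hab.symm.zpow_zpow (-j) (-i)).eq]

theorem S14_iter (s : MulAut G) (n : ℕ) (y : G) : (fun g => s g)^[n] y = (s ^ n) y := by
  induction n generalizing y with
  | zero => rfl
  | succ n ih => rw [Function.iterate_succ_apply, ih, pow_succ, MulAut.mul_apply]

/-- the kernel of `φ` -/
def S14_D (P : Subgroup G) (φ : G → (V →ₗ[ZMod p] V))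
    (hadd : ∀ g ∈ P, ∀ g' ∈ P, φ (g * g') = φ g + φ g') (h1 : φ 1 = 0) : Subgroup G where
  carrier := {d | d ∈ P ∧ φ d = 0}
  mul_mem' := by
    rintro y z ⟨hy, hy2⟩ ⟨hz, hz2⟩
    exact ⟨P.mul_mem hy hz, by rw [hadd y hy z hz, hy2, hz2, add_zero]⟩
  one_mem' := ⟨P.one_mem, h1⟩
  inv_mem' := by
    rintro y ⟨hy, hy2⟩
    refine ⟨P.inv_mem hy, ?_⟩
    have h3 := hadd y hy y⁻¹ (P.inv_mem hy)
    rw [mul_inv_cancel, h1, hy2, zero_add] at h3
    exact h3.symm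

/-- Step (B3), first half.  Every `φ g`, `g ∈ P`, is a scalar.

Proof.  Let `α₀` be as in `Ctx.exists_neg`; `(ρ α₀) ^ 2 = μ`, a scalar `≠ 1` (`Plane.sq`), `μ ≠ 0`.  By
`exists_l` for `α₀ ^ 2` and `κ = μ` there are `l ≠ p` and `s = (α₀ ^ 2) ^ m` with `s ^ (l ^ a) = 1` and
`ρ s = μ' := μ ^ m ≠ 1` (scalar).  For `g ∈ P`, by equivariance `φ (s g) = φ g` (`ρ s` is a scalar).  Let
`D = {d ∈ P : φ d = 0}`, a subgroup (`p`-group), `s(D) = D`.  For `g ∈ P`: `g⁻¹ s(g) ∈ D` (additivity),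
so `s` maps `g D` to itself; `perm_fix` gives `g' ∈ g D` with `s g' = g'`; `φ g' = φ g`.
`zpowers g' ∩ W = 1`: `f v` in it is fixed by `s`, so `μ' v = v`, `v = 0`.
Let `w` with `NI X w` and `H = zpowers g' ⊔ zpowers (f w)` (`f w` commutes with `g'`); `H ∩ W` is the
line of `w`: if `g'^i (f w)^j ∈ W` then `g'^i ∈ W`, so `g'^i = 1`.  `Ctx.line` gives `α` with fixed
points `H`: `ρ α w = w`, `α g' = g'`, so `ρ α (φ g' w) = φ g' w`, so `f (φ g' w)` is fixed by `α`, so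
it is in `H ∩ W`: `φ g w = φ g' w` is a multiple of `w`.  By `Plane.scalar`, `φ g` is a scalar. -/
theorem stepB3 (h : Ctx p r P W x V f ρ X) (hF : PF G) [Finite V] (φ : G → (V →ₗ[ZMod p] V))
    (hadd : ∀ g ∈ P, ∀ g' ∈ P, φ (g * g') = φ g + φ g')
    (hact : ∀ α : MulAut G, ∀ g ∈ P, ∀ v, ρ α (φ g v) = φ (α g) (ρ α v)) :
    ∀ g ∈ P, ∃ c : ZMod p, ∀ v, φ g v = c • v := by
  intro g hg
  have hns := h.ns hF
  obtain ⟨w₀, hw₀⟩ := h.pl.exists_ni hns
  have hw₀0 : w₀ ≠ 0 := by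
    intro h0
    apply hw₀ 0
    rw [h0, map_zero, smul_zero]
  obtain ⟨α₀, hα1, hα2, hα3⟩ := h.exists_neg hF
  obtain ⟨μ, hμ, hμ1⟩ := h.pl.sq (ρ α₀) hα3
  have hμ1' := hμ1 hα2
  have hμ0 : μ ≠ 0 := by
    intro h0
    have h1 := hμ w₀
    rw [h0, zero_smul] at h1
    exact hw₀0 ((ρ α₀).map_eq_zero_iff.mp ((ρ α₀).map_eq_zero_iff.mp h1))
  obtain ⟨l, a, m, hl, hlp, hs, hκ⟩ := exists_l (α₀ ^ 2) μ hμ0 hμ1'
  have hρs : ∀ n : ℕ, ∀ v, ρ ((α₀ ^ 2) ^ n) v = μ ^ n • v := by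
    intro n
    induction n with
    | zero => intro v; rw [pow_zero, pow_zero, map_one, one_smul]; rfl
    | succ n ih =>
      intro v
      rw [pow_succ, map_mul, LinearEquiv.mul_apply, ih, map_pow, pow_two, LinearEquiv.mul_apply, hμ,
        smul_smul, ← pow_succ]
  have hρs' := hρs m
  set s := (α₀ ^ 2) ^ m with hsdef
  set κ := μ ^ m with hκdef
  have hκ0 : κ ≠ 0 := pow_ne_zero m hμ0
  have hPs : ∀ y ∈ P, s y ∈ P := fun y hy => char_mem h.sit.Pchar s hy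
  have hφs : ∀ y ∈ P, φ (s y) = φ y := by
    intro y hy
    apply LinearMap.ext
    intro v
    have h1 := hact s y hy v
    rw [hρs', hρs', map_smul] at h1
    exact (smul_right_injective V hκ0 h1).symm
  have hφ1 : φ 1 = 0 := by
    have h1 := hadd 1 P.one_mem 1 P.one_mem
    rw [mul_one] at h1
    exact (left_eq_add.mp h1)
  have hφinv : ∀ y ∈ P, φ y⁻¹ + φ y = 0 := by
    intro y hy
    rw [← hadd _ (P.inv_mem hy) _ hy, inv_mul_cancel, hφ1]
  have hDp : IsPGroup p (S14_D P φ hadd hφ1) :=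
    h.sit.syl.pgroup.to_le (fun y hy => hy.1)
  have hgs : g⁻¹ * s g ∈ S14_D P φ hadd hφ1 := by
    refine ⟨P.mul_mem (P.inv_mem hg) (hPs g hg), ?_⟩
    rw [hadd _ (P.inv_mem hg) _ (hPs g hg), hφs g hg, hφinv g hg]
  have hsD : ∀ y ∈ S14_D P φ hadd hφ1, s y ∈ S14_D P φ hadd hφ1 := by
    rintro y ⟨hy, hy2⟩
    exact ⟨hPs y hy, by rw [hφs y hy, hy2]⟩
  obtain ⟨g', hg'1, hg'2⟩ := perm_fix (p := p) (l := l) (a := a) Fact.out hl hlp _ hDp g
    (fun y => s y)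
    (fun y hy => by
      have h1 := (S14_D P φ hadd hφ1).mul_mem hgs (hsD _ hy)
      rw [map_mul, map_inv, mul_assoc, mul_inv_cancel_left] at h1
      exact h1)
    (fun y _ => by
      rw [S14_iter, hs]
      rfl)
  have hg'P : g' ∈ P := by
    have h1 := P.mul_mem hg hg'1.1
    rwa [mul_inv_cancel_left] at h1
  have hφg' : φ g' = φ g := by
    have h1 := hadd g hg _ hg'1.1
    rw [mul_inv_cancel_left, hg'1.2, add_zero] at h1
    exact h1
  have hzW : ∀ v, ∀ i : ℤ, f v = g' ^ i → v = 0 := by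
    intro v i hv
    have h1 : s (f v) = f v := by
      rw [hv, map_zpow]
      exact congrArg (· ^ i) hg'2
    rw [h.mod.act, hρs'] at h1
    have h2 := h.mod.inj h1
    have h3 : (κ - 1) • v = 0 := by rw [sub_smul, h2, one_smul, sub_self]
    rcases smul_eq_zero.mp h3 with h4 | h4
    · exact absurd (sub_eq_zero.mp h4) hκ
    · exact h4
  apply h.pl.scalar hns
  intro w hw
  have hcom : Commute g' (f w) := by
    have h1 := ((h.sit.Wmem _).mp ((h.mod.mem _).mpr ⟨w, rfl⟩)).2.1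
    exact Subgroup.mem_centralizer_iff.mp h1 g' hg'P
  have hHW : ∀ v, f v ∈ S14_H g' (f w) hcom ↔ ∃ c : ZMod p, v = c • w := by
    intro v
    constructor
    · rintro ⟨i, j, hij⟩
      refine ⟨(j : ZMod p), ?_⟩
      have h1 : f (v + (((-j : ℤ) : ZMod p)) • w) = g' ^ i := by
        rw [h.mod.add, S14_fz h, hij, zpow_neg, mul_inv_cancel_right]
      have h2 := hzW _ i h1
      rw [Int.cast_neg, neg_smul] at h2
      exact add_neg_eq_zero.mp h2
    · rintro ⟨c, rfl⟩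
      refine ⟨0, (c.val : ℤ), ?_⟩
      rw [← S14_fz h, zpow_zero, one_mul, Int.cast_natCast, ZMod.natCast_zmod_val]
  obtain ⟨α, hαH, -, hαw⟩ := h.line hF (S14_H g' (f w) hcom) w hw hHW
  have hαg' : α g' = g' := (hαH g').mpr ⟨1, 0, by rw [zpow_one, zpow_zero, mul_one]⟩
  have h1 := hact α g' hg'P w
  rw [hαg', hαw, ← S6_fixV h, hαH, hHW, hφg'] at h1
  exact h1

end FPX
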