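import Pool.Agent.FPX.S11
import Pool.Agent.FPX.S12
import Pool.Agent.FPX.S14

namespace FPX

variable {G : Type} [Group G] [Finite G] {p r : ℕ} [Fact p.Prime] {P W : Subgroup G} {x : G}
  {V : Type} [AddCommGroup V] [Module (ZMod p) V] {f : V → G}
  {ρ : MulAut G →* (V ≃ₗ[ZMod p] V)} {X : V ≃ₗ[ZMod p] V}

/-- Step (B): `y ^ p = 1` for all `y ∈ Z`.

Proof.  Otherwise take `J` from `stepB1`, `φ` from `stepB2`.  `stepB3`: every `φ g` is a scalar, so by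
equivariance `φ (α₀ g) = φ g` (`α₀` of `Ctx.exists_neg`), for all `g ∈ P`.  By `lang_inv` for `α₀` and
`N = P` every `d ∈ P` is `g⁻¹ α₀(g)` with `g ∈ P`, so `φ d = φ (α₀ g) - φ g = 0`.  So `[y, g] = 1` for all
`y ∈ J` and `g ∈ P` (every `y ∈ J` has `y ^ p ∈ W`, i.e. `y ^ p = f v`), so `y ∈ P ∩ cen P ≤ W`, and
`y ^ p = 1`.  So `J ≤ W` and the only `p`-th power is `1`; but every `w ∈ W` is one, so `W = 1`,
contradiction with `|W| = p ^ 2`. -/
theorem stepB (h : Ctx p r P W x V f ρ X) (hF : PF G) [Finite V]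
    (hc : ∀ a ∈ P, a ∈ cen P → a ∈ W) {Z : Subgroup G} (hZ : IsZ2 P W Z) :
    ∀ y ∈ Z, y ^ p = 1 := by
  by_contra hcon
  push Not at hcon
  obtain ⟨J, hJ, hWJ, hJZ, hJ1, hJ2⟩ := stepB1 h hF hc hZ hcon
  obtain ⟨φ, hφ1, hφ2, hφ3⟩ := stepB2 h hc hZ hJ hWJ hJZ hJ1 hJ2
  have hsc := stepB3 h hF φ hφ2 hφ3
  obtain ⟨α₀, hα1, -, -⟩ := h.exists_neg hF
  have hPc := h.sit.Pchar
  have heq : ∀ g ∈ P, ∀ v, φ (α₀ g) v = φ g v := by
    intro g hg v
    obtain ⟨c, hcv⟩ := hsc g hg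
    have h1 : ρ α₀ ((ρ α₀)⁻¹ v) = v := by
      rw [← LinearEquiv.mul_apply, mul_inv_cancel]
      rfl
    have h2 := hφ3 α₀ g hg ((ρ α₀)⁻¹ v)
    rw [h1, hcv, map_smul, h1] at h2
    rw [← h2, hcv]
  have hone : φ 1 = 0 := by
    have h1 := hφ2 1 P.one_mem 1 P.one_mem
    rw [one_mul] at h1
    exact left_eq_add.1 h1
  have hzero : ∀ d ∈ P, ∀ v, φ d v = 0 := by
    intro d hd v
    obtain ⟨g, hg, hgd⟩ := lang_inv α₀ P (fun n hn => char_mem hPc α₀ hn)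
      (fun n _ hn => hα1 n hn) d hd
    have h1 := hφ2 g⁻¹ (P.inv_mem hg) (α₀ g) (char_mem hPc α₀ hg)
    rw [hgd] at h1
    have h2 := hφ2 g⁻¹ (P.inv_mem hg) g hg
    rw [inv_mul_cancel, hone] at h2
    rw [h1, LinearMap.add_apply, heq g hg, ← LinearMap.add_apply, ← h2, LinearMap.zero_apply]
  have hf0 : f 0 = 1 := by
    have h1 := h.mod.add 0 0
    rw [add_zero] at h1
    exact left_eq_mul.1 h1
  have hfacts := Z2_facts h.sit hc hZ
  have hJW : ∀ y ∈ J, y ∈ W := by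
    intro y hy
    have hyZ := hJZ hy
    apply hc y ((hZ.mem y).1 hyZ).1
    rw [Subgroup.mem_centralizer_iff]
    intro g hg
    have hg' : g ∈ P := hg
    obtain ⟨v, hv⟩ := (h.mod.mem _).1 (hfacts.2.1 y hyZ)
    have h1 := hφ1 g hg' y hy v hv.symm
    rw [hzero g hg' v, hf0] at h1
    have h2 : y * g = g * y := by
      have h3 : y * g * y⁻¹ * g⁻¹ * (g * y) = y * g := by group
      rw [h1, one_mul] at h3
      exact h3.symm
    exact h2.symm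
  have hWone : ∀ w ∈ W, w = 1 := by
    intro w hw
    obtain ⟨y, hy, rfl⟩ := hJ2 w hw
    exact ((h.sit.Wmem y).1 (hJW y hy)).2.2
  have hbot : W = ⊥ := by
    rw [Subgroup.eq_bot_iff_forall]
    exact hWone
  have hcard := h.sit.Wcard
  rw [hbot, Subgroup.card_bot] at hcard
  have h5 := h.sit.p5
  nlinarith

end FPX
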