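import Pool.Agent.FPX.S8
import Pool.Agent.FPX.A3

namespace FPX

variable {G : Type} [Group G] [Finite G] {p r : ℕ} [Fact p.Prime] {P W : Subgroup G} {x : G}
  {V : Type} [AddCommGroup V] [Module (ZMod p) V] {f : V → G}
  {ρ : MulAut G →* (V ≃ₗ[ZMod p] V)} {X : V ≃ₗ[ZMod p] V}

omit [Finite G] [Fact p.Prime] in
theorem S16_wc (h : Sit p r P W x) {w g : G} (hw : w ∈ W) (hg : g ∈ P) : w * g = g * w := by
  have h1 := ((h.Wmem w).1 hw).2.1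
  exact (Subgroup.mem_centralizer_iff.1 h1 g hg).symm

omit [Finite G] [Fact p.Prime] in
theorem S16_wP (h : Sit p r P W x) {w : G} (hw : w ∈ W) : w ∈ P := ((h.Wmem w).1 hw).1

/-- `[q w, g] = [q, g]` if `w` commutes with `g`. -/
theorem S16_mulw {G : Type} [Group G] (q w g : G) (h : w * g = g * w) :
    (q * w) * g * (q * w)⁻¹ * g⁻¹ = q * g * q⁻¹ * g⁻¹ := by
  have h1 : w * g * w⁻¹ = g := by rw [h, mul_inv_cancel_right]
  calc (q * w) * g * (q * w)⁻¹ * g⁻¹ = q * (w * g * w⁻¹) * q⁻¹ * g⁻¹ := by group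
    _ = _ := by rw [h1]

/-- `[q, g w] = [q, g]` if `w` commutes with `q`. -/
theorem S16_mulw2 {G : Type} [Group G] (q w g : G) (h : w * q = q * w) :
    q * (g * w) * q⁻¹ * (g * w)⁻¹ = q * g * q⁻¹ * g⁻¹ := by
  have h1 : w * q⁻¹ * w⁻¹ = q⁻¹ := by
    have h2 : w * q⁻¹ = q⁻¹ * w := by
      rw [eq_inv_mul_iff_mul_eq, ← mul_assoc, ← h, mul_inv_cancel_right]
    rw [h2, mul_inv_cancel_right]
  calc q * (g * w) * q⁻¹ * (g * w)⁻¹ = q * g * (w * q⁻¹ * w⁻¹) * g⁻¹ := by group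
    _ = _ := by rw [h1]

omit [Finite G] [Fact p.Prime] in
theorem S16_comm (h : Sit p r P W x) {Z : Subgroup G} (hZ : IsZ2 P W Z)
    (hx : ∀ y ∈ Z, y⁻¹ * (x * y * x⁻¹) ∈ W) : ∀ y ∈ Z, ∀ z ∈ Z, y * z = z * y := by
  intro y hy z hz
  have hyP := ((hZ.mem y).1 hy).1
  have hzP := ((hZ.mem z).1 hz).1
  have hc : y * z * y⁻¹ * z⁻¹ ∈ W := ((hZ.mem y).1 hy).2 z hzP
  have hw := hx y hy
  have hw' := hx z hz
  generalize hwd : y⁻¹ * (x * y * x⁻¹) = w at hw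
  generalize hwd' : z⁻¹ * (x * z * x⁻¹) = w' at hw'
  have h1 : x * y * x⁻¹ = y * w := by rw [← hwd]; group
  have h2 : x * z * x⁻¹ = z * w' := by rw [← hwd']; group
  have h3 : x * (y * z * y⁻¹ * z⁻¹) * x⁻¹ = y * z * y⁻¹ * z⁻¹ := by
    calc x * (y * z * y⁻¹ * z⁻¹) * x⁻¹
        = (x * y * x⁻¹) * (x * z * x⁻¹) * (x * y * x⁻¹)⁻¹ * (x * z * x⁻¹)⁻¹ := by group
      _ = (y * w) * (z * w') * (y * w)⁻¹ * (z * w')⁻¹ := by rw [h1, h2]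
      _ = y * (z * w') * y⁻¹ * (z * w')⁻¹ := by
          apply S16_mulw
          exact S16_wc h hw (P.mul_mem hzP (S16_wP h hw'))
      _ = y * z * y⁻¹ * z⁻¹ := S16_mulw2 _ _ _ (S16_wc h hw' hyP)
  have h4 : y * z * y⁻¹ * z⁻¹ = 1 := by
    apply h.xfix _ hc
    rwa [mul_inv_eq_iff_eq_mul] at h3
  rw [mul_inv_eq_one, mul_inv_eq_iff_eq_mul] at h4
  exact h4

/-- The situation of step (C).

Proof.  `comm`: for `y, z ∈ Z`, `[y, z] ∈ W` and `x [y, z] x⁻¹ = [x y x⁻¹, x z x⁻¹] = [y w, z w'] =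
[y, z]` (`w, w' ∈ W` commute with `P`), so `[y, z] = 1` by `xfix`.  `smod`: `exists_smod` for `Z, W`.
`vv g` for `g ∈ P`: `t = π q ↦ v` with `f v = [q, g] = q g q⁻¹ g⁻¹ ∈ W`; it depends only on `q W`
(`W` commutes with `g`), it is additive in `t` and in `g` by `Z2_facts`; `vv g = 0` for `g ∉ P`.
`vv_act`: `α [q, g] = [α q, α g]`. -/
theorem exists_tctx (h : Ctx p r P W x V f ρ X) (hc : ∀ a ∈ P, a ∈ cen P → a ∈ W)
    {Z : Subgroup G} (hZ : IsZ2 P W Z) (hexp : ∀ y ∈ Z, y ^ p = 1)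
    (hx : ∀ y ∈ Z, y⁻¹ * (x * y * x⁻¹) ∈ W) :
    ∃ (T : Type) (_ : AddCommGroup T) (_ : Module (ZMod p) T) (_ : Finite T) (π : G → T)
      (σ : MulAut G →* (T ≃ₗ[ZMod p] T)) (vv : G → (T →ₗ[ZMod p] V)),
      TCtx p r P W x V f ρ X Z T π σ vv := by
  classical
  have hs := h.sit
  obtain ⟨hWZ, hyp, hmul1, hmul2, -, -⟩ := Z2_facts hs hc hZ
  obtain ⟨T, iT1, iT2, iT3, π, σ, hS⟩ := exists_smod p Z W hZ.char hs.Wchar hWZ
    (fun a ha b hb => ((hZ.mem a).1 ha).2 b ((hZ.mem b).1 hb).1) hyp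
  refine ⟨T, iT1, iT2, iT3, π, σ, ?_⟩
  have hcm : ∀ q ∈ Z, ∀ g ∈ P, q * g * q⁻¹ * g⁻¹ ∈ W := fun q hq g hg => ((hZ.mem q).1 hq).2 g hg
  have hwell : ∀ q ∈ Z, ∀ q' ∈ Z, π q = π q' → ∀ g ∈ P,
      q' * g * q'⁻¹ * g⁻¹ = q * g * q⁻¹ * g⁻¹ := by
    intro q hq q' hq' hπ g hg
    have hwZ : q⁻¹ * q' ∈ Z := Z.mul_mem (Z.inv_mem hq) hq'
    have h1 : q' = q * (q⁻¹ * q') := (mul_inv_cancel_left q q').symm
    have h2 := hS.mul q hq _ hwZ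
    rw [← h1, hπ] at h2
    have h3 : π (q⁻¹ * q') = 0 := left_eq_add.1 h2
    have h4 := (hS.ker _ hwZ).1 h3
    rw [h1]
    exact S16_mulw _ _ _ (S16_wc hs h4 hg)
  choose qq hqZ hqπ using hS.surj
  have hfi : ∀ w : G, w ∈ W → f (Function.invFun f w) = w := by
    intro w hw
    obtain ⟨v, hv⟩ := (h.mod.mem w).1 hw
    exact Function.invFun_eq ⟨v, hv⟩
  let vv0 : ∀ g : G, g ∈ P → (T →+ V) := fun g hg =>
    AddMonoidHom.mk' (fun t => Function.invFun f (qq t * g * (qq t)⁻¹ * g⁻¹)) (by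
      intro t t'
      apply h.mod.inj
      rw [h.mod.add, hfi _ (hcm _ (hqZ _) g hg), hfi _ (hcm _ (hqZ _) g hg),
        hfi _ (hcm _ (hqZ _) g hg), ← hmul1 _ (hqZ t) _ (hqZ t') g hg]
      apply hwell _ (Z.mul_mem (hqZ t) (hqZ t')) _ (hqZ _) _ g hg
      rw [hS.mul _ (hqZ t) _ (hqZ t'), hqπ, hqπ, hqπ])
  let vv : G → (T →ₗ[ZMod p] V) := fun g =>
    if hg : g ∈ P then (vv0 g hg).toZModLinearMap p else 0
  have hvv : ∀ g ∈ P, ∀ t, f (vv g t) = qq t * g * (qq t)⁻¹ * g⁻¹ := by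
    intro g hg t
    have h1 : vv g = (vv0 g hg).toZModLinearMap p := dif_pos hg
    rw [h1]
    exact hfi _ (hcm _ (hqZ t) g hg)
  have hspec : ∀ g ∈ P, ∀ q ∈ Z, q * g * q⁻¹ * g⁻¹ = f (vv g (π q)) := by
    intro g hg q hq
    rw [hvv g hg]
    apply hwell _ (hqZ _) _ hq _ g hg
    rw [hqπ]
  refine ⟨vv, ⟨h, hc, hZ, hexp, hx, S16_comm hs hZ hx, hS, hspec, ?_, ?_⟩⟩
  · intro g hg g' hg'
    apply LinearMap.ext
    intro t
    apply h.mod.inj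
    rw [LinearMap.add_apply, h.mod.add, hvv _ (P.mul_mem hg hg'), hvv g hg, hvv g' hg']
    exact hmul2 _ (hqZ t) g hg g' hg'
  · intro α g hg t
    apply h.mod.inj
    have hag : α g ∈ P := char_mem hs.Pchar α hg
    have haq : α (qq t) ∈ Z := char_mem hZ.char α (hqZ t)
    rw [← h.mod.act, hvv g hg, ← hqπ t, ← hS.act α _ (hqZ t), ← hspec _ hag _ haq, hqπ]
    simp only [map_mul, map_inv]

end FPX
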