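import Pool.Agent.FPX.S17
import Pool.Agent.FPX.S6
import Pool.Agent.FPX.L14

namespace FPX

variable {G : Type} [Group G] [Finite G] {p r : ℕ} [Fact p.Prime] {P W : Subgroup G} {x : G}
  {V : Type} [AddCommGroup V] [Module (ZMod p) V] {f : V → G}
  {ρ : MulAut G →* (V ≃ₗ[ZMod p] V)} {X : V ≃ₗ[ZMod p] V}
variable {Z : Subgroup G} {T : Type} [AddCommGroup T] [Module (ZMod p) T] {π : G → T}
  {σ : MulAut G →* (T ≃ₗ[ZMod p] T)} {vv : G → (T →ₗ[ZMod p] V)}

/-- Step (C4).  For every functional `ψ` on `T` and every `w₁` with `NI X w₁` there is `g₁ ∈ P` with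
`vv g₁ t = ψ(t) w₁` for all `t`.

Proof.  `Q = {q ∈ Z : x q x⁻¹ = q}` is a subgroup with `Q ∩ W = 1` (`xfix`) and `π(Q) = T`
(`TCtx.lift`).  `H = Q ⊔ zpowers (f w₁)` (`Z` is commutative, `W ≤ Z`): `H ∩ W` is the line of `w₁`.
`Ctx.line` gives `γ` with fixed points `H`, `ρ γ X = X⁻¹ ρ γ`, `ρ γ w₁ = w₁`; `σ γ = 1`.
`Plane.refl`: `(ρ γ) ^ 2 = 1`, its fixed space is the line of `w₁`, its `(-1)`-eigenspace `L` is the
line of `X w₁ - X⁻¹ w₁`.  For `g ∈ P`, `vv (g γ(g)) t = vv g t + ρ γ (vv g t)` (`vv_act`, `σ γ = 1`) is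
fixed by `ρ γ`, so it is `F_g(t) w₁` with a functional `F_g`.  `S = {F_g : g ∈ P}` is a subspace
of the dual of `T` (additive in `g`: `g γ(g) g' γ(g')` and `g g' γ(g g')` have the same `vv`).
If `F_g(t) = 0` for all `g ∈ P`, then `vv g t ∈ L` for all `g ∈ P`; `{vv g t : g ∈ P}` is a subspace of
`L`, `X`-invariant (`X (vv g t) = vv (x g x⁻¹) t` since `σ (conj x) = 1`); `L` is a line which
is invariant under `ρ γ`, so by `Plane.NL` it is not `X`-invariant and the subspace is `0`.  So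
`[q, g] = 1` for all `g ∈ P` (`t = π q`), `q ∈ P ∩ cen P ≤ W`, `t = 0`.  So `S` separates the
points of the finite dimensional `T`, hence it is the whole dual.  Take `F_g = ψ`, `g₁ = g γ(g)`. -/
theorem TCtx.C4 (h : TCtx p r P W x V f ρ X Z T π σ vv) [Finite V] [Finite T] (hF : PF G)
    (ψ : Module.Dual (ZMod p) T) (w₁ : V) (hw : NI X w₁) :
    ∃ g₁ ∈ P, ∀ t, vv g₁ t = ψ t • w₁ := by
  classical
  have hmod := h.ctx.mod
  have hsit := h.ctx.sit
  have hp5 : 5 ≤ p := hsit.p5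
  have hf0 : f 0 = 1 := by
    have h1 := hmod.add 0 0
    rw [add_zero] at h1
    exact left_eq_mul.1 h1
  have hfn : ∀ v, f (-v) = (f v)⁻¹ := by
    intro v
    have h1 := hmod.add (-v) v
    rw [neg_add_cancel, hf0] at h1
    exact eq_inv_of_mul_eq_one_left h1.symm
  have hfW : ∀ v, f v ∈ W := fun v => (hmod.mem _).2 ⟨v, rfl⟩
  have hWZ : W ≤ Z := by
    intro y hy
    obtain ⟨h1, h2, -⟩ := (hsit.Wmem y).1 hy
    refine (h.z2.mem y).2 ⟨h1, fun g hg => ?_⟩
    have h3 : g * y = y * g := Subgroup.mem_centralizer_iff.1 h2 g hg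
    have h4 : y * g * y⁻¹ * g⁻¹ = 1 := by
      rw [← h3]
      group
    rw [h4]
    exact W.one_mem
  have hfZ : ∀ v, f v ∈ Z := fun v => hWZ (hfW v)
  have hw0 : w₁ ≠ 0 := by
    rintro rfl
    exact hw 0 (by rw [map_zero, smul_zero])
  -- the subgroup
  let H : Subgroup G :=
    { carrier := {g | ∃ q ∈ Z, x * q = q * x ∧ ∃ c : ZMod p, g = q * f (c • w₁)}
      mul_mem' := by
        rintro a b ⟨q, hq, hqx, c, rfl⟩ ⟨q', hq', hqx', c', rfl⟩
        refine ⟨q * q', Z.mul_mem hq hq', ?_, c + c', ?_⟩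
        · rw [← mul_assoc, hqx, mul_assoc, hqx', mul_assoc]
        · rw [add_smul, hmod.add]
          have h1 := h.comm q' hq' (f (c • w₁)) (hfZ _)
          calc q * f (c • w₁) * (q' * f (c' • w₁)) = q * (f (c • w₁) * q') * f (c' • w₁) := by
                group
            _ = q * (q' * f (c • w₁)) * f (c' • w₁) := by rw [h1]
            _ = _ := by group
      one_mem' := ⟨1, Z.one_mem, by rw [mul_one, one_mul], 0, by rw [zero_smul, hf0, one_mul]⟩
      inv_mem' := by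
        rintro a ⟨q, hq, hqx, c, rfl⟩
        refine ⟨q⁻¹, Z.inv_mem hq, ?_, -c, ?_⟩
        · have h1 : q * x = x * q := hqx.symm
          have h2 : x * q⁻¹ = q⁻¹ * (q * x) * q⁻¹ := by group
          rw [h2, h1]
          group
        · rw [neg_smul, hfn, mul_inv_rev]
          exact h.comm _ (Z.inv_mem (hfZ _)) _ (Z.inv_mem hq) }
  have hHf : ∀ v, f v ∈ H ↔ ∃ c : ZMod p, v = c • w₁ := by
    intro v
    constructor
    · rintro ⟨q, hq, hqx, c, hv⟩
      have h1 : q = f (v + -(c • w₁)) := by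
        rw [hmod.add, hfn, hv]
        group
      have h2 : q = 1 := hsit.xfix q (by rw [h1]; exact hfW _) hqx
      refine ⟨c, hmod.inj ?_⟩
      rw [hv, h2, one_mul]
    · rintro ⟨c, rfl⟩
      exact ⟨1, Z.one_mem, by rw [mul_one, one_mul], c, (one_mul _).symm⟩
  obtain ⟨γ, hγ1, hγ2, hγ3⟩ := h.ctx.line hF H w₁ hw hHf
  have hσγ : ∀ t, σ γ t = t := by
    intro t
    obtain ⟨q, hq, rfl, hqx⟩ := h.lift t
    rw [← h.smod.act γ q hq]
    congr 1
    rw [hγ1]
    refine ⟨q, hq, ?_, 0, by rw [zero_smul, hf0, mul_one]⟩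
    calc x * q = x * q * x⁻¹ * x := by group
      _ = q * x := by rw [hqx]
  obtain ⟨-, hr2, hr3, -⟩ := h.ctx.pl.refl (ρ γ) hγ2 hw0 hγ3
  have hPc := hsit.Pchar
  have hvone : vv 1 = 0 := by
    have h1 := h.vv_add 1 P.one_mem 1 P.one_mem
    rw [one_mul] at h1
    exact left_eq_add.1 h1
  have hvpow : ∀ g ∈ P, ∀ n : ℕ, vv (g ^ n) = n • vv g := by
    intro g hg n
    induction n with
    | zero => rw [pow_zero, hvone, zero_smul]
    | succ n ih => rw [pow_succ, h.vv_add _ (P.pow_mem hg n) _ hg, ih, succ_nsmul]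
  have hvsmul : ∀ g ∈ P, ∀ c : ZMod p, ∃ g' ∈ P, vv g' = c • vv g := by
    intro g hg c
    refine ⟨g ^ c.val, P.pow_mem hg _, ?_⟩
    rw [hvpow g hg, ← Nat.cast_smul_eq_nsmul (ZMod p), ZMod.natCast_zmod_val]
  -- the subspace of the dual
  let S : Submodule (ZMod p) (Module.Dual (ZMod p) T) :=
    { carrier := {F | ∃ g₁ ∈ P, ∀ t, vv g₁ t = F t • w₁}
      add_mem' := by
        rintro F F' ⟨g, hg, hgF⟩ ⟨g', hg', hgF'⟩
        refine ⟨g * g', P.mul_mem hg hg', fun t => ?_⟩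
        rw [h.vv_add g hg g' hg', LinearMap.add_apply, hgF, hgF', LinearMap.add_apply, add_smul]
      zero_mem' := ⟨1, P.one_mem, fun t => by
        rw [hvone, LinearMap.zero_apply, LinearMap.zero_apply, zero_smul]⟩
      smul_mem' := by
        rintro c F ⟨g, hg, hgF⟩
        obtain ⟨g', hg', hg''⟩ := hvsmul g hg c
        refine ⟨g', hg', fun t => ?_⟩
        rw [hg'', LinearMap.smul_apply, hgF, LinearMap.smul_apply, smul_assoc] }
  obtain ⟨θ, hθ⟩ : ∃ θ : Module.Dual (ZMod p) V, θ w₁ = 1 := by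
    obtain ⟨θ₀, hθ₀, -⟩ := Submodule.exists_le_ker_of_notMem (K := ZMod p)
      (p := (⊥ : Submodule (ZMod p) V)) (v := w₁) (by
        rw [Submodule.mem_bot]
        exact hw0)
    refine ⟨(θ₀ w₁)⁻¹ • θ₀, ?_⟩
    rw [LinearMap.smul_apply, smul_eq_mul, inv_mul_cancel₀ hθ₀]
  have hFg : ∀ g ∈ P, ∃ F ∈ S, ∀ t, vv g t + ρ γ (vv g t) = F t • w₁ := by
    intro g hg
    have h1 : ∀ t, ∃ c : ZMod p, vv g t + ρ γ (vv g t) = c • w₁ := by
      intro t
      rw [← hr3, map_add, hr2, add_comm]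
    have h2 : ∀ t, vv g t + ρ γ (vv g t) =
        (θ.comp (vv g + (ρ γ : V →ₗ[ZMod p] V).comp (vv g))) t • w₁ := by
      intro t
      obtain ⟨c, hc⟩ := h1 t
      have h3 : (θ.comp (vv g + (ρ γ : V →ₗ[ZMod p] V).comp (vv g))) t = c := by
        show θ (vv g t + ρ γ (vv g t)) = c
        rw [hc, map_smul, hθ, smul_eq_mul, mul_one]
      rw [h3, hc]
    refine ⟨_, ⟨g * γ g, P.mul_mem hg (char_mem hPc γ hg), fun t => ?_⟩, h2⟩
    rw [h.vv_add g hg _ (char_mem hPc γ hg), LinearMap.add_apply, ← h2]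
    congr 1
    have h3 := h.vv_act γ g hg t
    rw [hσγ] at h3
    exact h3.symm
  have hsep : ∀ t : T, t ≠ 0 → ∃ F ∈ (S : Set (Module.Dual (ZMod p) T)), F t ≠ 0 := by
    intro t ht
    by_contra hcon
    push Not at hcon
    have hneg : ∀ g ∈ P, ρ γ (vv g t) = -vv g t := by
      intro g hg
      obtain ⟨F, hFS, hF1⟩ := hFg g hg
      have h1 := hF1 t
      rw [hcon F hFS, zero_smul] at h1
      exact (neg_eq_of_add_eq_zero_right h1).symm
    let U : Submodule (ZMod p) V :=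
      { carrier := {v | ∃ g ∈ P, vv g t = v}
        add_mem' := by
          rintro a b ⟨g, hg, rfl⟩ ⟨g', hg', rfl⟩
          exact ⟨g * g', P.mul_mem hg hg', by rw [h.vv_add g hg g' hg']; rfl⟩
        zero_mem' := ⟨1, P.one_mem, by rw [hvone]; rfl⟩
        smul_mem' := by
          rintro c a ⟨g, hg, rfl⟩
          obtain ⟨g', hg', hg''⟩ := hvsmul g hg c
          exact ⟨g', hg', by rw [hg'']; rfl⟩ }
    have hσx : σ (MulAut.conj x) t = t := by
      obtain ⟨q, hq, rfl⟩ := h.smod.surj t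
      have h1 := h.smod.act (MulAut.conj x) q hq
      rw [← h1, MulAut.conj_apply]
      have h2 : x * q * x⁻¹ = q * (q⁻¹ * (x * q * x⁻¹)) := by group
      rw [h2, h.smod.mul q hq _ (hWZ (h.xtriv q hq)),
        (h.smod.ker _ (hWZ (h.xtriv q hq))).2 (h.xtriv q hq), add_zero]
    have hUX : ∀ u ∈ U, X u ∈ U := by
      rintro u ⟨g, hg, rfl⟩
      have h1 := h.vv_act (MulAut.conj x) g hg t
      rw [hσx, ← h.ctx.hX] at h1
      exact ⟨MulAut.conj x g, char_mem hPc _ hg, h1.symm⟩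
    have hUγ : ∀ u ∈ U, ρ γ u ∈ U := by
      rintro u ⟨g, hg, rfl⟩
      rw [hneg g hg]
      exact U.neg_mem ⟨g, hg, rfl⟩
    have hUbot : U = ⊥ := by
      rcases h.ctx.pl.NL (ρ γ) hγ2 U hUX hUγ with h1 | h1
      · exact h1
      · exfalso
        have h2 : w₁ ∈ U := by
          rw [h1]
          exact Submodule.mem_top
        obtain ⟨g, hg, hgw⟩ := h2
        have h3 := hneg g hg
        rw [hgw, hγ3] at h3
        have h4 : (2 : ZMod p) • w₁ = 0 := by
          rw [two_smul]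
          nth_rewrite 2 [h3]
          exact add_neg_cancel w₁
        rcases smul_eq_zero.1 h4 with h5 | h5
        · have h6 : ((2 : ℕ) : ZMod p) = 0 := by exact_mod_cast h5
          rw [ZMod.natCast_eq_zero_iff] at h6
          have := Nat.le_of_dvd two_pos h6
          omega
        · exact hw0 h5
    apply ht
    obtain ⟨q, hq, rfl⟩ := h.smod.surj t
    rw [h.smod.ker q hq]
    apply h.cent q ((h.z2.mem q).1 hq).1
    rw [Subgroup.mem_centralizer_iff]
    intro g hg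
    have hg' : g ∈ P := hg
    have h1 : vv g (π q) ∈ U := ⟨g, hg', rfl⟩
    rw [hUbot, Submodule.mem_bot] at h1
    have h2 := h.vv_spec g hg' q hq
    rw [h1, hf0] at h2
    have h3 : q * g * q⁻¹ * g⁻¹ * (g * q) = q * g := by group
    rw [h2, one_mul] at h3
    exact h3
  have htop : Submodule.span (ZMod p) (S : Set (Module.Dual (ZMod p) T)) = ⊤ :=
    Submodule.span_eq_top_of_ne_zero hsep
  rw [Submodule.span_eq] at htop
  have hψ : ψ ∈ S := by
    rw [htop]
    exact Submodule.mem_top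
  exact hψ

end FPX
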