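import Pool.Agent.FPX.S17
import Pool.Agent.FPX.S13

namespace FPX

variable {G : Type} [Group G] [Finite G] {p r : ℕ} [Fact p.Prime] {P W : Subgroup G} {x : G}
  {V : Type} [AddCommGroup V] [Module (ZMod p) V] {f : V → G}
  {ρ : MulAut G →* (V ≃ₗ[ZMod p] V)} {X : V ≃ₗ[ZMod p] V}
variable {Z : Subgroup G} {T : Type} [AddCommGroup T] [Module (ZMod p) T] {π : G → T}
  {σ : MulAut G →* (T ≃ₗ[ZMod p] T)} {vv : G → (T →ₗ[ZMod p] V)}

theorem S20_modEq {p l a n : ℕ} [Fact p.Prime] (κ : ZMod p) (hκ : κ ^ (l ^ a) = 1) :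
    (κ.val ^ p ^ n) ^ (l ^ a) ≡ 1 [MOD p ^ n] := by
  have hp : p.Prime := Fact.out
  have h1 : ((κ.val ^ (l ^ a) : ℕ) : ZMod p) = ((1 : ℕ) : ZMod p) := by
    rw [Nat.cast_pow, ZMod.natCast_zmod_val, hκ, Nat.cast_one]
  have h2 : κ.val ^ (l ^ a) ≡ 1 [MOD p] := (ZMod.natCast_eq_natCast_iff _ _ _).mp h1
  have h3 : (p : ℤ) ∣ (κ.val : ℤ) ^ (l ^ a) - 1 := by
    have := (Int.natCast_modEq_iff.mpr h2).symm.dvd
    push_cast at this
    exact this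
  have h4 := dvd_sub_pow_of_dvd_sub h3 n
  rw [one_pow] at h4
  have h5 : ((p ^ n : ℕ) : ℤ) ∣ (((κ.val ^ p ^ n) ^ (l ^ a) : ℕ) : ℤ) - ((1 : ℕ) : ℤ) := by
    refine dvd_trans ?_ (dvd_trans h4 (dvd_of_eq ?_))
    · push_cast
      exact pow_dvd_pow _ (Nat.le_succ n)
    · push_cast
      rw [← pow_mul, ← pow_mul, mul_comm]
  exact (Int.natCast_modEq_iff.mp (Int.modEq_of_dvd h5)).symm

theorem S20_pow_eq {G : Type} [Group G] {y : G} {N i j : ℕ} (hy : y ^ N = 1)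
    (h : i ≡ j [MOD N]) : y ^ i = y ^ j :=
  pow_eq_pow_iff_modEq.mpr (h.of_dvd (orderOf_dvd_of_pow_eq_one hy))

theorem TCtx.S20_one (h : TCtx p r P W x V f ρ X Z T π σ vv) : vv 1 = 0 := by
  have h1 := h.vv_add 1 P.one_mem 1 P.one_mem
  rw [one_mul] at h1
  exact left_eq_add.mp h1

theorem TCtx.S20_inv (h : TCtx p r P W x V f ρ X Z T π σ vv) {g : G} (hg : g ∈ P) :
    vv g⁻¹ = - vv g := by
  have h1 := h.vv_add g hg g⁻¹ (P.inv_mem hg)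
  rw [mul_inv_cancel, h.S20_one] at h1
  exact (neg_eq_of_add_eq_zero_right h1.symm).symm

theorem TCtx.S20_pow (h : TCtx p r P W x V f ρ X Z T π σ vv) {g : G} (hg : g ∈ P) (k : ℕ) :
    vv (g ^ k) = (k : ZMod p) • vv g := by
  induction k with
  | zero => rw [pow_zero, h.S20_one, Nat.cast_zero, zero_smul]
  | succ k ih =>
    rw [pow_succ, h.vv_add _ (P.pow_mem hg k) g hg, ih, Nat.cast_succ, add_smul, one_smul]

/-- Step (C5).

Proof.  `vv (s g₁) (σ s t) = ρ s (vv g₁ t) = ψ(t) w₁` and `ψ (σ s t) = κ ψ(t)`, `κ ≠ 0`, so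
`vv (s g₁) = κ⁻¹ vv g₁`.  `D = {d ∈ P : vv d = 0}` is a subgroup, `s(D) = D`.  Let `|P| = p ^ n`.
Choose `m₀ : ℕ` with `m₀ = κ⁻¹` in `ZMod p` and put `m = m₀ ^ p ^ n`; then `m = κ⁻¹` modulo `p`, and
`m ^ (l ^ a) ≡ 1` modulo `p ^ n`: `m₀ ^ (l ^ a) ≡ κ^(-l^a) ≡ 1` modulo `p` (`s ^ (l ^ a) = 1` and
`ψ ≠ 0` give `κ ^ (l ^ a) = 1`), and `b ≡ 1` modulo `p` gives `b ^ p ^ n ≡ 1` modulo `p ^ n`.  Let
`m'` be the inverse of `m` modulo `p ^ n`; then `m' ^ (l ^ a) ≡ 1` too.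
`s g₁ ∈ g₁ ^ m D`.  Put `θ y = (s y) ^ m'`; it maps `g₁ D` to itself (`vv` of `(s (g₁ d)) ^ m'` is
`m' κ⁻¹ vv g₁ = vv g₁`) and `θ^[l^a] y = (s ^ (l ^ a) y) ^ (m' ^ (l ^ a)) = y` for `y ∈ P`.  By
`perm_fix` there is `g' ∈ g₁ D` with `(s g') ^ m' = g'`, so `s g' = g' ^ m`.
If `g' ^ i ∈ W` then `s` fixes it (`ρ s = 1`), so `g' ^ (i m) = g' ^ i`, `(g' ^ i) ^ (m - 1) = 1`, and
`m - 1` is prime to `p` (`κ ≠ 1`), so `g' ^ i = 1`. -/
theorem TCtx.C5 (h : TCtx p r P W x V f ρ X Z T π σ vv) [Finite V] [Finite T] {l a : ℕ}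
    {s : MulAut G} {ψ : Module.Dual (ZMod p) T} {κ : ZMod p} (hl : l.Prime) (hlp : l ≠ p)
    (hs : s ^ (l ^ a) = 1) (hρ : ∀ v, ρ s v = v) (hψ : ψ ≠ 0) (hκ : κ ≠ 1)
    (hσ : ∀ t, ψ (σ s t) = κ * ψ t) {g₁ : G} (hg₁ : g₁ ∈ P) {w₁ : V}
    (hv : ∀ t, vv g₁ t = ψ t • w₁) :
    ∃ g' ∈ P, (∀ t, vv g' t = ψ t • w₁) ∧ ∀ i : ℤ, g' ^ i ∈ W → g' ^ i = 1 := by
  classical
  have hp : p.Prime := Fact.out
  have hPc : P.Characteristic := h.ctx.sit.Pchar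
  have hsP : ∀ {y : G}, y ∈ P → s y ∈ P := fun hy => char_mem hPc s hy
  -- the action of `s` on the functionals
  have hsurj : ∀ t : T, ∃ t', σ s t' = t := fun t => ⟨(σ s).symm t, (σ s).apply_symm_apply t⟩
  have hact : ∀ g ∈ P, ∀ t, vv (s g) (σ s t) = vv g t := by
    intro g hg t
    rw [← h.vv_act s g hg t, hρ]
  obtain ⟨t0, ht0⟩ : ∃ t, ψ t ≠ 0 := by
    by_contra hcon
    push Not at hcon
    exact hψ (LinearMap.ext hcon)
  have hκ0 : κ ≠ 0 := by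
    rintro rfl
    obtain ⟨t1, rfl⟩ := hsurj t0
    apply ht0
    rw [hσ, zero_mul]
  have hκl : κ ^ (l ^ a) = 1 := by
    have hpow : ∀ k : ℕ, ∀ t, ψ (σ (s ^ k) t) = κ ^ k * ψ t := by
      intro k
      induction k with
      | zero =>
        intro t
        rw [pow_zero, pow_zero, map_one, one_mul]
        rfl
      | succ k ih =>
        intro t
        have e : σ (s ^ (k + 1)) t = σ (s ^ k) (σ s t) := by
          rw [pow_succ, map_mul]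
          rfl
        rw [e, ih, hσ, pow_succ, mul_assoc]
    have h1 := hpow (l ^ a) t0
    rw [hs, map_one] at h1
    have h2 : (1 : ZMod p) * ψ t0 = κ ^ (l ^ a) * ψ t0 := by
      rw [one_mul]; exact h1
    exact (mul_right_cancel₀ ht0 h2).symm
  have hsg₁ : vv (s g₁) = κ⁻¹ • vv g₁ := by
    ext t
    obtain ⟨t', rfl⟩ := hsurj t
    rw [hact g₁ hg₁, LinearMap.smul_apply, hv, hv, hσ, smul_smul, ← mul_assoc,
      inv_mul_cancel₀ hκ0, one_mul]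
  -- the subgroup `D`
  let D : Subgroup G :=
    { carrier := {d | d ∈ P ∧ vv d = 0}
      mul_mem' := by
        rintro b c ⟨hb, hb'⟩ ⟨hc, hc'⟩
        exact ⟨P.mul_mem hb hc, by rw [h.vv_add b hb c hc, hb', hc', add_zero]⟩
      one_mem' := ⟨P.one_mem, h.S20_one⟩
      inv_mem' := by
        rintro b ⟨hb, hb'⟩
        exact ⟨P.inv_mem hb, by rw [h.S20_inv hb, hb', neg_zero]⟩ }
  have hDle : D ≤ P := fun d hd => hd.1
  have hDp : IsPGroup p D := h.ctx.sit.syl.pgroup.to_le hDle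
  have hsD : ∀ d ∈ D, vv (s d) = 0 := by
    rintro d ⟨hd, hd'⟩
    ext t
    obtain ⟨t', rfl⟩ := hsurj t
    rw [hact d hd, hd']
    rfl
  obtain ⟨n, hn⟩ := IsPGroup.iff_card.mp h.ctx.sit.syl.pgroup
  have hPn : ∀ y ∈ P, y ^ (p ^ n) = 1 := by
    intro y hy
    have h1 : (⟨y, hy⟩ : P) ^ Nat.card P = 1 := pow_card_eq_one'
    rw [hn] at h1
    have h2 := congrArg (Subtype.val : P → G) h1
    exact h2
  obtain ⟨m', hm'def⟩ : ∃ m' : ℕ, m' = κ.val ^ p ^ n := ⟨_, rfl⟩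
  have hm'1 : m' ^ (l ^ a) ≡ 1 [MOD p ^ n] := by
    rw [hm'def]
    exact S20_modEq κ hκl
  have hm'κ : (m' : ZMod p) = κ := by
    rw [hm'def, Nat.cast_pow, ZMod.natCast_zmod_val, ZMod.pow_card_pow]
  have hla : 0 < l ^ a := pow_pos hl.pos a
  obtain ⟨m, hmdef⟩ : ∃ m : ℕ, m = m' ^ (l ^ a - 1) := ⟨_, rfl⟩
  have hmm' : m' * m ≡ 1 [MOD p ^ n] := by
    have : m' * m = m' ^ (l ^ a) := by
      rw [hmdef, ← pow_succ', Nat.sub_add_cancel hla]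
    rw [this]
    exact hm'1
  have hmκ : κ * (m : ZMod p) = 1 := by
    rw [hmdef, Nat.cast_pow, hm'κ, ← pow_succ', Nat.sub_add_cancel hla, hκl]
  -- the map `θ`
  have hcoset : ∀ y, g₁⁻¹ * y ∈ D → y ∈ P ∧ vv y = vv g₁ := by
    rintro y ⟨hy, hy'⟩
    have hyP : y ∈ P := by
      have := P.mul_mem hg₁ hy
      rwa [mul_inv_cancel_left] at this
    refine ⟨hyP, ?_⟩
    rw [h.vv_add _ (P.inv_mem hg₁) _ hyP, h.S20_inv hg₁] at hy'
    exact (neg_add_eq_zero.mp hy').symm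
  have hθ1 : ∀ y, g₁⁻¹ * y ∈ D → g₁⁻¹ * (s y) ^ m' ∈ D := by
    intro y hy
    obtain ⟨hyP, hyv⟩ := hcoset y hy
    have hq : vv (s y) = κ⁻¹ • vv g₁ := by
      have e1 : s y = s g₁ * s (g₁⁻¹ * y) := by rw [← map_mul, mul_inv_cancel_left]
      rw [e1, h.vv_add _ (hsP hg₁) _ (hsP (hDle hy)), hsD _ hy, add_zero, hsg₁]
    refine ⟨P.mul_mem (P.inv_mem hg₁) (P.pow_mem (hsP hyP) m'), ?_⟩
    rw [h.vv_add _ (P.inv_mem hg₁) _ (P.pow_mem (hsP hyP) m'), h.S20_inv hg₁,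
      h.S20_pow (hsP hyP), hm'κ, hq, smul_smul, mul_inv_cancel₀ hκ0, one_smul, neg_add_cancel]
  have hiter : ∀ k : ℕ, ∀ y, (fun y => (s y) ^ m')^[k] y = ((s ^ k) y) ^ (m' ^ k) := by
    intro k
    induction k with
    | zero => intro y; rw [pow_zero, pow_zero, pow_one]; rfl
    | succ k ih =>
      intro y
      rw [Function.iterate_succ_apply, ih]
      have e : (s ^ (k + 1)) y = (s ^ k) (s y) := by rw [pow_succ]; rfl
      rw [e, map_pow, ← pow_mul, pow_succ']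
  have hθ2 : ∀ y, g₁⁻¹ * y ∈ D → (fun y => (s y) ^ m')^[l ^ a] y = y := by
    intro y hy
    obtain ⟨hyP, -⟩ := hcoset y hy
    rw [hiter, hs]
    have e : (1 : MulAut G) y = y := rfl
    rw [e, S20_pow_eq (hPn y hyP) hm'1, pow_one]
  obtain ⟨g', hg'D, hg'⟩ := perm_fix hp hl hlp D hDp g₁ (fun y => (s y) ^ m') hθ1 hθ2
  obtain ⟨hg'P, hg'v⟩ := hcoset g' hg'D
  have hsg' : s g' = g' ^ m := by
    have h1 : ((s g') ^ m') ^ m = g' ^ m := congrArg (fun z => z ^ m) hg'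
    rw [← pow_mul, S20_pow_eq (hPn _ (hsP hg'P)) hmm', pow_one] at h1
    exact h1
  refine ⟨g', hg'P, fun t => by rw [hg'v, hv], fun i hi => ?_⟩
  obtain ⟨v, hfv⟩ := (h.ctx.mod.mem _).mp hi
  have hfix : s (g' ^ i) = g' ^ i := by
    rw [← hfv, h.ctx.mod.act, hρ]
  have hup : (g' ^ i) ^ p = 1 := ((h.ctx.sit.Wmem _).mp hi).2.2
  have hum : (g' ^ i) ^ m = (g' ^ i) ^ 1 := by
    have e : (g' ^ i) ^ m = s (g' ^ i) := by
      rw [map_zpow, hsg', ← zpow_natCast, ← zpow_natCast, ← zpow_mul, ← zpow_mul, mul_comm]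
    rw [e, hfix, pow_one]
  rcases (Nat.dvd_prime hp).mp (orderOf_dvd_of_pow_eq_one hup) with h1 | h1
  · exact orderOf_eq_one_iff.mp h1
  · exfalso
    have h2 := pow_eq_pow_iff_modEq.mp hum
    rw [h1] at h2
    have h3 : (m : ZMod p) = 1 := by
      have := (ZMod.natCast_eq_natCast_iff _ _ _).mpr h2
      rwa [Nat.cast_one] at this
    rw [h3, mul_one] at hmκ
    exact hκ hmκ

end FPX
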