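import Pool.Agent.FPX.S18
import Pool.Agent.FPX.S19
import Pool.Agent.FPX.S20
import Pool.Agent.FPX.L15

namespace FPX

variable {G : Type} [Group G] [Finite G] {p r : ℕ} [Fact p.Prime] {P W : Subgroup G} {x : G}
  {V : Type} [AddCommGroup V] [Module (ZMod p) V] {f : V → G}
  {ρ : MulAut G →* (V ≃ₗ[ZMod p] V)} {X : V ≃ₗ[ZMod p] V}
variable {Z : Subgroup G} {T : Type} [AddCommGroup T] [Module (ZMod p) T] {π : G → T}
  {σ : MulAut G →* (T ≃ₗ[ZMod p] T)} {vv : G → (T →ₗ[ZMod p] V)}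

/-- Step (C6): contradiction.

Proof.  `w₁` with `NI X w₁` (`Plane.exists_ni`, `Ctx.ns`); `C3` gives `l, a, s, ψ, κ`; `C4` gives `g₁`;
`C5` gives `g'`.  `Plane.exists_ni2` gives `w` with `NI X w`, `w₁` not on the line of `w` nor on the
line of `X w - X⁻¹ w`.  `H = zpowers g' ⊔ zpowers (f w)` (`f w` commutes with `g' ∈ P`): if
`g'^i (f w)^j ∈ W` then `g'^i ∈ W`, so `g'^i = 1`; so `H ∩ W` is the line of `w`.  `Ctx.line` gives
`α` with fixed points `H`, inverting `X`, `ρ α w = w`, `α g' = g'`.  By `vv_act`,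
`ρ α (ψ(t) w₁) = vv g' (σ α t) = ψ(σ α t) w₁`; with `ψ t ≠ 0`: `ρ α w₁ = c w₁`.  By `Plane.refl`
`(ρ α)^2 = 1`, so `c = 1` or `c = -1`, and `w₁` is on the line of `w` or of `X w - X⁻¹ w`,
contradiction. -/
theorem TCtx.false (h : TCtx p r P W x V f ρ X Z T π σ vv) [Finite V] [Finite T] [Nontrivial T]
    (hF : PF G) : False := by
  classical
  obtain ⟨w₁, hw₁⟩ := h.ctx.pl.exists_ni (h.ctx.ns hF)
  obtain ⟨l, a, s, ψ, κ, hl, hlp, hs, hρ, hψ, hκ, hσ⟩ := h.C3 hF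
  obtain ⟨g₁, hg₁, hv₁⟩ := h.C4 hF ψ w₁ hw₁
  obtain ⟨g', hg', hv', hW⟩ := h.C5 hl hlp hs hρ hψ hκ hσ hg₁ hv₁
  obtain ⟨w, hw, hn1, hn2⟩ := h.ctx.pl.exists_ni2 hw₁
  have hNI0 : ∀ u : V, NI X u → u ≠ 0 := by
    rintro u hu rfl
    exact hu 0 (by rw [map_zero, smul_zero])
  -- `f` is a homomorphism
  have hfz : ∀ (j : ℤ) (v : V), f (j • v) = (f v) ^ j := by
    intro j v
    let F : Multiplicative V →* G := MonoidHom.mk' (fun v => f (Multiplicative.toAdd v))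
      (fun a b => h.ctx.mod.add _ _)
    have h1 : F (Multiplicative.ofAdd v ^ j) = F (Multiplicative.ofAdd v) ^ j := map_zpow F _ _
    exact h1
  have hfW : ∀ v, f v ∈ W := fun v => (h.ctx.mod.mem _).mpr ⟨v, rfl⟩
  have hcomm : Commute g' (f w) := by
    have h1 := ((h.ctx.sit.Wmem (f w)).mp (hfW w)).2.1
    exact Subgroup.mem_centralizer_iff.mp h1 g' hg'
  let H : Subgroup G :=
    { carrier := {y | ∃ i j : ℤ, y = g' ^ i * (f w) ^ j}
      mul_mem' := by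
        rintro y z ⟨i, j, rfl⟩ ⟨i', j', rfl⟩
        refine ⟨i + i', j + j', ?_⟩
        have h1 : Commute (g' ^ i') ((f w) ^ j) := hcomm.zpow_zpow i' j
        rw [zpow_add, zpow_add]
        calc g' ^ i * (f w) ^ j * (g' ^ i' * (f w) ^ j')
            = g' ^ i * ((f w) ^ j * g' ^ i') * (f w) ^ j' := by simp only [mul_assoc]
          _ = g' ^ i * (g' ^ i' * (f w) ^ j) * (f w) ^ j' := by rw [h1.eq]
          _ = _ := by simp only [mul_assoc]
      one_mem' := ⟨0, 0, by rw [zpow_zero, zpow_zero, mul_one]⟩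
      inv_mem' := by
        rintro y ⟨i, j, rfl⟩
        refine ⟨-i, -j, ?_⟩
        have h1 : Commute (g' ^ i) ((f w) ^ j) := hcomm.zpow_zpow i j
        rw [h1.eq, mul_inv_rev, zpow_neg, zpow_neg] }
  have hH : ∀ v, f v ∈ H ↔ ∃ c : ZMod p, v = c • w := by
    intro v
    constructor
    · rintro ⟨i, j, hij⟩
      have h1 : g' ^ i ∈ W := by
        have e : g' ^ i = f v * ((f w) ^ j)⁻¹ := by rw [hij, mul_inv_cancel_right]
        rw [e]
        exact W.mul_mem (hfW v) (W.inv_mem (W.zpow_mem (hfW w) j))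
      rw [hW i h1, one_mul, ← hfz] at hij
      exact ⟨(j : ZMod p), by rw [h.ctx.mod.inj hij, Int.cast_smul_eq_zsmul]⟩
    · rintro ⟨c, rfl⟩
      refine ⟨0, (c.val : ℤ), ?_⟩
      rw [zpow_zero, one_mul, ← hfz, ← Int.cast_smul_eq_zsmul (ZMod p), Int.cast_natCast,
        ZMod.natCast_zmod_val]
  obtain ⟨α, hα, hαX, hαw⟩ := h.ctx.line hF H w hw hH
  have hαg : α g' = g' := (hα g').mpr ⟨1, 0, by rw [zpow_one, zpow_zero, mul_one]⟩
  obtain ⟨-, hsq, hfix, hneg⟩ := h.ctx.pl.refl (ρ α) hαX (hNI0 w hw) hαw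
  obtain ⟨t, ht⟩ : ∃ t, ψ t ≠ 0 := by
    by_contra hcon
    push Not at hcon
    exact hψ (LinearMap.ext hcon)
  have h1 := h.vv_act α g' hg' t
  rw [hαg, hv', hv', map_smul] at h1
  obtain ⟨c, hc⟩ : ∃ c : ZMod p, ρ α w₁ = c • w₁ := by
    refine ⟨(ψ t)⁻¹ * ψ (σ α t), ?_⟩
    rw [mul_smul, ← h1, smul_smul, inv_mul_cancel₀ ht, one_smul]
  have h2 : (c * c) • w₁ = (1 : ZMod p) • w₁ := by
    have := hsq w₁
    rw [hc, map_smul, hc, smul_smul] at this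
    rw [this, one_smul]
  have h3 : c * c = 1 := by
    by_contra hcon
    have h4 : (c * c - 1) • w₁ = 0 := by rw [sub_smul, h2, sub_self]
    rcases smul_eq_zero.mp h4 with h5 | h5
    · exact hcon (sub_eq_zero.mp h5)
    · exact hNI0 w₁ hw₁ h5
  rcases mul_self_eq_one_iff.mp h3 with rfl | rfl
  · rw [one_smul] at hc
    obtain ⟨d, hd⟩ := (hfix w₁).mp hc
    exact hn1 d hd
  · rw [neg_smul, one_smul] at hc
    obtain ⟨d, hd⟩ := (hneg w₁).mp hc
    exact hn2 d hd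

end FPX
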