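import Pool.Agent.FPX.Defs2
import Pool.Agent.FPX.A4

namespace FPX

theorem S5_conj {G : Type} [Group G] (α : MulAut G) (x : G) :
    MulAut.conj (α x) = α * MulAut.conj x * α⁻¹ := by
  apply MulEquiv.ext
  intro g
  rw [MulAut.mul_apply, MulAut.mul_apply, MulAut.conj_apply, MulAut.conj_apply, map_mul, map_mul,
    map_inv, MulAut.apply_inv_self]

theorem S5_f0 {G : Type} [Group G] {p : ℕ} {W : Subgroup G} {V : Type} [AddCommGroup V]
    [Module (ZMod p) V] {f : V → G} {ρ : MulAut G →* (V ≃ₗ[ZMod p] V)} (hm : Mod p W V f ρ) :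
    f 0 = 1 := by
  have h1 := hm.add 0 0
  rw [add_zero] at h1
  exact (mul_eq_left.mp h1.symm)

theorem S5_fpow {G : Type} [Group G] {p : ℕ} {W : Subgroup G} {V : Type} [AddCommGroup V]
    [Module (ZMod p) V] {f : V → G} {ρ : MulAut G →* (V ≃ₗ[ZMod p] V)} (hm : Mod p W V f ρ)
    (n : ℕ) (v : V) : f ((n : ZMod p) • v) = (f v) ^ n := by
  induction n with
  | zero => rw [Nat.cast_zero, zero_smul, pow_zero, S5_f0 hm]
  | succ n ih => rw [Nat.cast_succ, add_smul, one_smul, hm.add, ih, pow_succ]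

theorem S5_cen {G : Type} [Group G] {p : ℕ} {W : Subgroup G} {V : Type} [AddCommGroup V]
    [Module (ZMod p) V] {f : V → G} {ρ : MulAut G →* (V ≃ₗ[ZMod p] V)} (hm : Mod p W V f ρ)
    (g : G) : g ∈ cen W ↔ ρ (MulAut.conj g) = 1 := by
  rw [Subgroup.mem_centralizer_iff]
  constructor
  · intro h
    apply LinearEquiv.ext
    intro v
    apply hm.inj
    rw [← hm.act, MulAut.conj_apply, ← h (f v) ((hm.mem _).mpr ⟨v, rfl⟩), mul_inv_cancel_right]
    rfl
  · intro h w hw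
    obtain ⟨v, rfl⟩ := (hm.mem w).mp hw
    have h1 := hm.act (MulAut.conj g) v
    rw [h, MulAut.conj_apply] at h1
    have h2 : g * f v * g⁻¹ = f v := h1
    exact (mul_inv_eq_iff_eq_mul.mp h2).symm

/-- The linear model of `Sit`.

Proof.  `W` is characteristic, commutative (its elements are in `P ∩ cen P`) and of exponent `p`:
`exists_mod` gives `V, f, ρ`; `X := ρ (conj x)`.  `|V| = |W| = p ^ 2` gives `finrank = 2`.
`X ^ r = 1` as `x ^ r = 1`.  `Xfix` from `xfix`, `Xtau` from `tau` (cast `τ` to `ZMod p`).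
`pos`: `x⁻¹ α(x) ∈ cen W` iff `ρ (conj (x⁻¹ α x)) = 1` iff `ρ (conj (α x)) = X`, and
`ρ (conj (α x)) = ρ α * X * (ρ α)⁻¹`.  `neg`: `x α(x) ∈ cen W` iff `ρ (conj (α x)) = X⁻¹`. -/
theorem exists_ctx {G : Type} [Group G] [Finite G] {p r : ℕ} [Fact p.Prime] {P W : Subgroup G}
    {x : G} (h : Sit p r P W x) :
    ∃ (V : Type) (_ : AddCommGroup V) (_ : Module (ZMod p) V) (_ : Finite V) (f : V → G)
      (ρ : MulAut G →* (V ≃ₗ[ZMod p] V)) (X : V ≃ₗ[ZMod p] V), Ctx p r P W x V f ρ X := by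
  obtain ⟨V, i1, i2, i3, f, ρ, hm⟩ := exists_mod p W h.Wchar
    (fun a ha b hb => Subgroup.mem_centralizer_iff.mp ((h.Wmem b).mp hb).2.1 a ((h.Wmem a).mp ha).1)
    (fun a ha => ((h.Wmem a).mp ha).2.2)
  refine ⟨V, i1, i2, i3, f, ρ, ρ (MulAut.conj x), ?_⟩
  have hXact : ∀ v, f (ρ (MulAut.conj x) v) = x * f v * x⁻¹ := by
    intro v
    rw [← hm.act, MulAut.conj_apply]
  have hXinv : ∀ v, f ((ρ (MulAut.conj x))⁻¹ v) = x⁻¹ * f v * x := by
    intro v
    rw [← map_inv, ← map_inv, ← hm.act, MulAut.conj_apply, inv_inv]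
  have hcard : Nat.card V = p ^ 2 := by
    rw [← h.Wcard]
    refine Nat.card_congr (Equiv.ofBijective
      (fun v => (⟨f v, (hm.mem _).mpr ⟨v, rfl⟩⟩ : W)) ⟨?_, ?_⟩)
    · intro a b hab
      exact hm.inj (congrArg Subtype.val hab)
    · rintro ⟨w, hw⟩
      obtain ⟨v, hv⟩ := (hm.mem w).mp hw
      exact ⟨v, Subtype.ext hv⟩
  have hfr : Module.finrank (ZMod p) V = 2 := by
    have h1 := Module.natCard_eq_pow_finrank (K := ZMod p) (V := V)
    rw [hcard, Nat.card_zmod] at h1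
    exact (Nat.pow_right_injective (Fact.out : p.Prime).two_le h1).symm
  refine ⟨h, hm, ⟨h.p5, h.rprime, h.r2, h.rp, hfr, ?_, ?_, ?_⟩, rfl, ?_, ?_⟩
  · rw [← map_pow, ← map_pow, ← h.xord, pow_orderOf_eq_one, map_one, map_one]
  · intro v hv
    apply hm.inj
    rw [S5_f0 hm]
    apply h.xfix (f v) ((hm.mem _).mpr ⟨v, rfl⟩)
    have h1 := hXact v
    rw [hv] at h1
    exact (mul_inv_eq_iff_eq_mul.mp h1.symm)
  · obtain ⟨τ, hτ⟩ := h.tau
    refine ⟨(τ : ZMod p), fun v => ?_⟩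
    apply hm.inj
    rw [hm.add, hXact, hXinv, S5_fpow hm]
    exact hτ (f v) ((hm.mem _).mpr ⟨v, rfl⟩)
  · intro α
    rw [S5_cen hm, map_mul, map_mul, map_inv, map_inv, S5_conj, map_mul, map_mul, map_inv,
      inv_mul_eq_one]
    constructor
    · intro h1
      nth_rewrite 2 [h1]
      rw [inv_mul_cancel_right]
    · intro h1
      rw [h1, mul_inv_cancel_right]
  · intro α
    rw [S5_cen hm, map_mul, map_mul, S5_conj, map_mul, map_mul, map_inv]
    constructor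
    · intro h1
      have h2 := eq_inv_of_mul_eq_one_right h1
      rw [← h2, inv_mul_cancel_right]
    · intro h1
      rw [h1, mul_inv_cancel_right, mul_inv_cancel]

end FPX
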