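import Pool.Agent.FPX.S6

namespace FPX

variable {G : Type} [Group G] [Finite G] {p r : ℕ} [Fact p.Prime] {P W : Subgroup G} {x : G}
  {V : Type} [AddCommGroup V] [Module (ZMod p) V] {f : V → G}
  {ρ : MulAut G →* (V ≃ₗ[ZMod p] V)} {X : V ≃ₗ[ZMod p] V}

theorem S7_fz (h : Ctx p r P W x V f ρ X) (i : ℤ) (v : V) :
    f ((i : ZMod p) • v) = (f v) ^ i := by
  rw [Int.cast_smul_eq_zsmul]
  exact map_zpow (MonoidHom.mk' (fun u : Multiplicative V => f (Multiplicative.toAdd u))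
    (fun a b => h.mod.add _ _)) (Multiplicative.ofAdd v) i

theorem S7_fval (h : Ctx p r P W x V f ρ X) (c : ZMod p) (v : V) :
    f (c • v) = (f v) ^ c.val := by
  have h1 := S7_fz h (c.val : ℤ) v
  rw [Int.cast_natCast, ZMod.natCast_zmod_val, zpow_natCast] at h1
  exact h1

theorem S7_char_cen (h : Ctx p r P W x V f ρ X) (α : MulAut G) {a : G} (ha : a ∈ cen P) :
    α a ∈ cen P := by
  rw [Subgroup.mem_centralizer_iff]
  intro b hb
  have h1 : α⁻¹ b ∈ P := char_mem h.sit.Pchar α⁻¹ hb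
  have h2 := Subgroup.mem_centralizer_iff.mp ha _ h1
  have h3 := congrArg α h2
  rw [map_mul, map_mul, MulAut.apply_inv_self] at h3
  exact h3

/-- the subspace of the `p`-th powers of the elements of the centre of `P` -/
def S7_U (h : Ctx p r P W x V f ρ X) : Submodule (ZMod p) V where
  carrier := {v | ∃ a ∈ P, a ∈ cen P ∧ f v = a ^ p}
  add_mem' := by
    rintro u v ⟨a, ha, ha2, ha3⟩ ⟨b, hb, hb2, hb3⟩
    refine ⟨a * b, P.mul_mem ha hb, (cen P).mul_mem ha2 hb2, ?_⟩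
    have hc : Commute a b := Subgroup.mem_centralizer_iff.mp hb2 a ha
    rw [h.mod.add, ha3, hb3, hc.mul_pow]
  zero_mem' := ⟨1, P.one_mem, (cen P).one_mem, by rw [one_pow, S6_f0 h]⟩
  smul_mem' := by
    rintro c v ⟨a, ha, ha2, ha3⟩
    refine ⟨a ^ c.val, P.pow_mem ha _, (cen P).pow_mem ha2 _, ?_⟩
    rw [S7_fval h, ha3, ← pow_mul, ← pow_mul, mul_comm]

theorem S7_U_inv (h : Ctx p r P W x V f ρ X) (α : MulAut G) :
    ∀ u ∈ S7_U h, ρ α u ∈ S7_U h := by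
  rintro u ⟨a, ha, ha2, ha3⟩
  refine ⟨α a, char_mem h.sit.Pchar α ha, S7_char_cen h α ha2, ?_⟩
  rw [← h.mod.act, ha3, map_pow]

/-- (1.7) `Z(P) = W`.

Proof.  Otherwise some `b ∈ P ∩ cen P` has `b ^ p ≠ 1`, and a power `a` of `b` has `a ^ p ≠ 1`,
`a ^ p ^ 2 = 1`.  Let `A = {a ∈ P ∩ cen P : a ^ p ^ 2 = 1}`, a commutative characteristic subgroup;
`U = {v : f v = a ^ p for some a ∈ A}` is a submodule `≠ ⊥` of `V` invariant under `X` and all `ρ α`; by
`Plane.NL` (with `α` of `Ctx.exists_neg`) `U = ⊤`.  Choose `w` with `NI X w` (`Plane.exists_ni`),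
`a ∈ A` with `a ^ p = f w`, `H = zpowers a ⊔ W`, `α` with fixed points `H`.  `W ≤ H`, so `ρ α = 1`
and `x⁻¹ α(x) ∈ cen W` (`Ctx.contains`); `cen W = P C_G(P)` (`Dcen`) commutes with `a`; so
`α (x a x⁻¹) = x a x⁻¹` (write `α x = x u`), so `x a x⁻¹ ∈ H`, `x a x⁻¹ = a ^ i w'` with `w' ∈ W`
(`a` commutes with `W`), and taking `p`-th powers `X w = i w`, contradiction. -/
theorem center_eq (h : Ctx p r P W x V f ρ X) (hF : PF G) : ∀ a ∈ P, a ∈ cen P → a ∈ W := by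
  intro b hb hb2
  by_contra hbW
  have hp : p.Prime := Fact.out
  have hbp : b ^ p ≠ 1 := fun h1 => hbW ((h.sit.Wmem b).mpr ⟨hb, hb2, h1⟩)
  -- a power `a` of `b` with `a ^ p ≠ 1`, `a ^ p ^ 2 = 1`
  obtain ⟨k, hk⟩ := h.sit.syl.pgroup ⟨b, hb⟩
  have hk' : b ^ p ^ k = 1 := congrArg Subtype.val hk
  have hex : ∃ k, b ^ p ^ k = 1 := ⟨k, hk'⟩
  classical
  have hn1 := Nat.find_spec hex
  have hn2 := fun m (hm : m < Nat.find hex) => Nat.find_min hex hm
  set n := Nat.find hex with hn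
  have hn0 : n ≠ 0 := by
    intro h0
    rw [h0, pow_zero, pow_one] at hn1
    rw [hn1, one_pow] at hbp
    exact hbp rfl
  have hn3 : n ≠ 1 := by
    intro h0
    rw [h0, pow_one] at hn1
    exact hbp hn1
  obtain ⟨m, hm⟩ : ∃ m, n = m + 2 := ⟨n - 2, by omega⟩
  have ha1 : (b ^ p ^ m) ^ p ≠ 1 := by
    rw [← pow_mul, ← pow_succ]
    exact hn2 (m + 1) (by omega)
  have ha2 : ((b ^ p ^ m) ^ p) ^ p = 1 := by
    rw [← pow_mul, ← pow_mul, ← pow_two, ← pow_add, ← hm]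
    exact hn1
  have haW : (b ^ p ^ m) ^ p ∈ W := (h.sit.Wmem _).mpr
    ⟨P.pow_mem (P.pow_mem hb _) _, (cen P).pow_mem ((cen P).pow_mem hb2 _) _, ha2⟩
  obtain ⟨v, hv⟩ := (h.mod.mem _).mp haW
  have hvU : v ∈ S7_U h := ⟨b ^ p ^ m, P.pow_mem hb _, (cen P).pow_mem hb2 _, hv⟩
  have hUtop : S7_U h = ⊤ := by
    obtain ⟨α, -, -, h3⟩ := h.exists_neg hF
    have hX : ∀ u ∈ S7_U h, X u ∈ S7_U h := by
      intro u hu
      have h5 := S7_U_inv h (MulAut.conj x) u hu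
      have h6 : X u = ρ (MulAut.conj x) u := LinearEquiv.congr_fun h.hX u
      rwa [h6]
    rcases h.pl.NL (ρ α) h3 (S7_U h) hX (S7_U_inv h α) with h4 | h4
    · exfalso
      rw [h4, Submodule.mem_bot] at hvU
      rw [hvU, S6_f0 h] at hv
      exact ha1 hv.symm
    · exact h4
  obtain ⟨w, hw⟩ := h.pl.exists_ni (h.ns hF)
  have hwU : w ∈ S7_U h := by
    rw [hUtop]
    exact Submodule.mem_top
  obtain ⟨a, haP, hac, haw⟩ := hwU
  obtain ⟨α, hα⟩ := hF (Subgroup.zpowers a ⊔ W)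
  have hu := h.contains α (fun v => by
    rw [← S6_fixV h, hα]
    exact Subgroup.mem_sup_right ((h.mod.mem _).mpr ⟨v, rfl⟩))
  obtain ⟨c, hc, d, hd, hu2⟩ := (h.sit.Dcen _).mp hu
  have hua : (x⁻¹ * α x) * a = a * (x⁻¹ * α x) := by
    have h5 : c * a = a * c := Subgroup.mem_centralizer_iff.mp hac c hc
    have h6 : a * d = d * a := Subgroup.mem_centralizer_iff.mp hd a haP
    rw [hu2, mul_assoc, ← h6, ← mul_assoc, h5, mul_assoc]
  have hαa : α a = a := (hα a).mpr (Subgroup.mem_sup_left (Subgroup.mem_zpowers a))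
  have hfix : α (x * a * x⁻¹) = x * a * x⁻¹ := by
    rw [map_mul, map_mul, map_inv, hαa]
    have h7 : α x = x * (x⁻¹ * α x) := by group
    rw [h7, mul_assoc x, hua, mul_inv_rev]
    group
  have hmem := (hα _).mp hfix
  have hWn : W.Normal := by
    have := h.sit.Wchar
    infer_instance
  rw [Subgroup.mem_sup_of_normal_right] at hmem
  obtain ⟨y, hy, w', hw', hyw⟩ := hmem
  obtain ⟨i, rfl⟩ := Subgroup.mem_zpowers_iff.mp hy
  have hcom : Commute (a ^ i) w' :=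
    Subgroup.mem_centralizer_iff.mp ((h.sit.Wmem _).mp hw').2.1 _ (P.zpow_mem haP i)
  have h8 : f (X w) = f ((i : ZMod p) • w) := by
    rw [S7_fz h, haw, h.hX, ← h.mod.act, MulAut.conj_apply, haw, ← conj_pow, ← hyw,
      hcom.mul_pow, ((h.sit.Wmem _).mp hw').2.2, mul_one, ← zpow_natCast, ← zpow_natCast,
      ← zpow_mul, ← zpow_mul, mul_comm]
  exact hw _ (h.mod.inj h8)

end FPX
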