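import Pool.Agent.FPX.S4
import Pool.Agent.FPX.S5
import Pool.Agent.FPX.S7
import Pool.Agent.FPX.S10
import Pool.Agent.FPX.S15
import Pool.Agent.FPX.S16
import Pool.Agent.FPX.S21

namespace FPX

/-- THEOREM N.  `P` a normal Sylow `p`-subgroup of the solvable group `G` with (F).  Then
`G = P C_G(P)` or `P` itself is the `W` of `Sit` (elementary abelian of order `p ^ 2`).

Proof.  If `P ⊔ cen P ≠ ⊤`, `exists_Sit` gives `Sit p r P W x` with `W = Om p P`, `exists_ctx` the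
linear model, `center_eq`: `Z(P) = W`.  If `P ≠ W`, take `Z` from `exists_Z2`; `Z2_ne`: `Z ≠ W`;
`stepB`, `stepA` give the hypotheses of `exists_tctx`, `T` is nontrivial (`Z ≠ W`), and
`TCtx.false` is a contradiction.  So `P = W`. -/
theorem thmN {G : Type} [Group G] [Finite G] [Group.IsSolvable G] {p : ℕ} {P : Subgroup G}
    (hP : NSyl p P) (hF : PF G) : P ⊔ cen P = ⊤ ∨ ∃ (r : ℕ) (x : G), Sit p r P P x := by
  by_cases hne : P ⊔ cen P = ⊤
  · exact Or.inl hne
  right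
  have : Fact p.Prime := ⟨hP.prime⟩
  obtain ⟨r, x, hS⟩ := exists_Sit hP hF hne
  obtain ⟨V, _, _, _, f, ρ, X, hC⟩ := exists_ctx hS
  have hc := center_eq hC hF
  by_cases hPW : ∃ a ∈ P, a ∉ Om p P
  · exfalso
    obtain ⟨Z, hZ⟩ := exists_Z2 hS
    have hexp := stepB hC hF hc hZ
    have hx : ∀ y ∈ Z, y⁻¹ * (x * y * x⁻¹) ∈ Om p P := fun y hy =>
      stepA hC hF hc hZ y hy (hexp y hy)
    obtain ⟨T, _, _, _, π, σ, vv, hT⟩ := exists_tctx hC hc hZ hexp hx
    obtain ⟨y, hy, hyW⟩ := Z2_ne hS hZ hPW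
    have : Nontrivial T := by
      refine ⟨⟨π y, 0, fun h0 => hyW ?_⟩⟩
      exact (hT.smod.ker y hy).1 h0
    exact hT.false hF
  · push Not at hPW
    have h2 : Om p P = P := le_antisymm (fun a ha => ha.1) (fun a ha => hPW a ha)
    rw [h2] at hS
    exact ⟨r, x, hS⟩

end FPX
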