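import Pool.Agent.FPX.I0
import Pool.Agent.FPX.I2
import Pool.Agent.FPX.S22
import Pool.Agent.FPX.E1

namespace FPX

variable {G : Type} [Group G] [Finite G]

/-- The second normal Sylow subgroup.

Proof.  By `primes`, `r = r₁`, `p₁ ≠ p`.  Let `B` be the preimage of `W₁` in `G`.  `B ≤ cen W`: for `b ∈ B`,
`b ^ (p₁ ^ 2) ∈ W` and `b ^ r ∈ cen W`, `r = r₁ ≠ p₁`.  `central_hall` for `W ≤ B`
(`|B : W| = p₁ ^ 2`) gives `W₂` normal, `B = W W₂`, `|W₂| = p₁ ^ 2`, `W ∩ W₂ = 1`.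
`|G : B| = |T : W₁| = r ^ k`, so `|G : W₂| = p ^ 2 r ^ k` and `NSyl p₁ W₂`.  `thmN` for `W₂`:
`W₂ ⊔ cen W₂ = ⊤` is impossible: `W₂` is commutative (`W₂` is isomorphic to `W₁`), so `cen W₂ = ⊤`,
`W₂` is central in `G` and then its image `W₁` is central in `G/W`, contradiction to `xfix`
(`|W₁| = p₁ ^ 2 ≠ 1`).  So there are `r₂, x₂` with `Sit p₁ r₂ W₂ W₂ x₂`.  `W` and `W₂` are in
`cen W₂` (`W` and `W₂` are normal with trivial intersection), so `r₂ = |G : cen W₂|` divides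
`|G : B| = r ^ k`, so `r₂ = r`.  `W ⊔ W₂ = B`. -/
theorem second_sit [Group.IsSolvable G] (hF : PF G) {p r p₁ r₁ : ℕ} {W : Subgroup G} [W.Normal]
    {x : G} (h : Sit p r W W x) {W₁ : Subgroup (G ⧸ W)} {x₁ : G ⧸ W} (h₁ : Typ p₁ r₁ W₁ x₁) :
    ∃ (W₂ : Subgroup G) (x₂ : G), Sit p₁ r W₂ W₂ x₂ ∧ ∃ k : ℕ, (W ⊔ W₂).index = r ^ k := by
  obtain ⟨hrr, hpp⟩ := primes h h₁
  have hp := h.syl.prime
  have hp₁ := h₁.sit.syl.prime
  have hr := h.rprime
  have hr₁p₁ : r ≠ p₁ := by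
    rw [hrr]
    exact h₁.sit.rp
  obtain ⟨k, hk⟩ := h₁.rgp
  rw [← hrr] at hk
  have hWcen : W ≤ cen W := fun w hw => ((h.Wmem w).mp hw).2.1
  have hW₁n : W₁.Normal := h₁.sit.syl.normal
  have hsurj := QuotientGroup.mk'_surjective W
  have hBn : (W₁.comap (QuotientGroup.mk' W)).Normal := hW₁n.comap _
  have hBcen : W₁.comap (QuotientGroup.mk' W) ≤ cen W := by
    intro b hb
    apply I2_cop _ b (Nat.card W₁) r _ (hWcen (I2_pow W₁ b hb)) (h.pow_mem b)
    rw [h₁.sit.Wcard]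
    exact Nat.Coprime.pow_left 2 ((Nat.coprime_primes hp₁ hr).mpr hr₁p₁.symm)
  have hWW₁ : (Nat.card W).Coprime (Nat.card W₁) := by
    rw [h.Wcard, h₁.sit.Wcard]
    exact Nat.Coprime.pow 2 2 ((Nat.coprime_primes hp hp₁).mpr hpp.symm)
  obtain ⟨C, hCn, hC1, hC2, hC3, hC4⟩ := central_hall W _ inferInstance hBn (I2_le W₁) hBcen (by
    rw [I2_rel]
    exact hWW₁)
  rw [I2_rel, h₁.sit.Wcard] at hC4
  have hBidx : (W₁.comap (QuotientGroup.mk' W)).index = r ^ k := by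
    rw [Subgroup.index_comap_of_surjective _ hsurj, hk]
  have hCB : C ≤ W₁.comap (QuotientGroup.mk' W) := fun b hb => ((hC1 b).mp hb).1
  have hsup : W ⊔ C = W₁.comap (QuotientGroup.mk' W) := by
    apply le_antisymm (sup_le (I2_le W₁) hCB)
    intro b hb
    obtain ⟨w, hw, c, hc, rfl⟩ := hC3 b hb
    exact Subgroup.mul_mem _ (Subgroup.mem_sup_left hw) (Subgroup.mem_sup_right hc)
  have hCidx : C.index = p ^ 2 * r ^ k := by
    have e1 := C.card_mul_index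
    have e2 := (W₁.comap (QuotientGroup.mk' W)).card_mul_index
    rw [I2_card, h.Wcard, h₁.sit.Wcard, hBidx] at e2
    rw [hC4, ← e2] at e1
    have e3 : 0 < p₁ ^ 2 := pow_pos hp₁.pos 2
    apply Nat.eq_of_mul_eq_mul_left e3
    rw [e1]
    ring
  have hsyl : NSyl p₁ C := by
    refine ⟨hp₁, hCn, IsPGroup.of_card hC4, ?_⟩
    rw [hCidx]
    intro h1
    rcases (hp₁.dvd_mul).mp h1 with h2 | h2
    · exact hpp ((Nat.prime_dvd_prime_iff_eq hp₁ hp).mp (hp₁.dvd_of_dvd_pow h2))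
    · exact hr₁p₁.symm ((Nat.prime_dvd_prime_iff_eq hp₁ hr).mp (hp₁.dvd_of_dvd_pow h2))
  have hW₁c : ∀ a ∈ W₁, ∀ b ∈ W₁, a * b = b * a := fun a ha b hb =>
    Subgroup.mem_centralizer_iff.mp ((h₁.sit.Wmem b).mp hb).2.1 a ha
  have hCcomm : ∀ a ∈ C, ∀ b ∈ C, a * b = b * a := by
    intro a ha b hb
    have e1 := hW₁c _ (hCB ha) _ (hCB hb)
    rw [QuotientGroup.mk'_apply, QuotientGroup.mk'_apply, ← QuotientGroup.mk_mul,
      ← QuotientGroup.mk_mul] at e1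
    have e2 : (a * b)⁻¹ * (b * a) ∈ W := QuotientGroup.eq.mp e1
    have e3 : (a * b)⁻¹ * (b * a) ∈ C :=
      C.mul_mem (C.inv_mem (C.mul_mem ha hb)) (C.mul_mem hb ha)
    have e4 : (a * b)⁻¹ * (b * a) ∈ C ⊓ W := ⟨e3, e2⟩
    rw [hC2, Subgroup.mem_bot] at e4
    exact (inv_mul_eq_one.mp e4)
  rcases thmN hsyl hF with h1 | ⟨r₂, x₂, h2⟩
  · exfalso
    have hCcen : C ≤ cen C := by
      intro a ha
      rw [Subgroup.mem_centralizer_iff]
      intro b hb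
      exact hCcomm b hb a ha
    rw [sup_eq_right.mpr hCcen] at h1
    have hW₁ : Nat.card W₁ ≠ 1 := by
      rw [h₁.sit.Wcard]
      have h4 := Nat.one_lt_pow (two_ne_zero) hp₁.one_lt
      omega
    apply hW₁
    rw [Subgroup.card_eq_one, Subgroup.eq_bot_iff_forall]
    intro w hw
    apply h₁.sit.xfix w hw
    obtain ⟨y, rfl⟩ := hsurj x₁
    obtain ⟨b, rfl⟩ := hsurj w
    obtain ⟨a, ha, c, hc, rfl⟩ := hC3 b hw
    have e1 : (QuotientGroup.mk' W) (a * c) = (QuotientGroup.mk' W) c := by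
      have e0 : (QuotientGroup.mk' W) a = 1 := (QuotientGroup.eq_one_iff a).mpr ha
      rw [map_mul, e0, one_mul]
    have e2 : y ∈ cen C := by
      rw [h1]
      exact Subgroup.mem_top y
    have e3 : c * y = y * c := Subgroup.mem_centralizer_iff.mp e2 c hc
    rw [e1, ← map_mul, ← map_mul, e3]
  · have hWC : ∀ a ∈ W, ∀ c ∈ C, a * c = c * a := by
      intro a ha c hc
      exact Subgroup.mem_centralizer_iff.mp (hBcen (hCB hc)) a ha
    have hle : W ⊔ C ≤ cen C := by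
      apply sup_le
      · intro a ha
        rw [Subgroup.mem_centralizer_iff]
        intro c hc
        exact (hWC a ha c hc).symm
      · intro a ha
        rw [Subgroup.mem_centralizer_iff]
        intro b hb
        exact hCcomm b hb a ha
    have hidx : (W ⊔ C).index = r ^ k := by rw [hsup, hBidx]
    have h3 := Subgroup.index_dvd_of_le hle
    rw [h2.Didx, hidx] at h3
    have h4 := (Nat.prime_dvd_prime_iff_eq h2.rprime hr).mp (h2.rprime.dvd_of_dvd_pow h3)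
    subst h4
    exact ⟨C, x₂, h2, k, hidx⟩

end FPX
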