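import Pool.Agent.FPX.S5
import Pool.Agent.FPX.S6
import Pool.Agent.FPX.E0

namespace FPX

variable {G : Type} [Group G] [Finite G]

theorem I4_fz {p r : ℕ} [Fact p.Prime] {P W : Subgroup G} {x : G}
    {V : Type} [AddCommGroup V] [Module (ZMod p) V] {f : V → G}
    {ρ : MulAut G →* (V ≃ₗ[ZMod p] V)} {X : V ≃ₗ[ZMod p] V} (h : Ctx p r P W x V f ρ X) (i : ℤ)
    (v : V) : f ((i : ZMod p) • v) = (f v) ^ i := by
  rw [Int.cast_smul_eq_zsmul]
  exact map_zpow (MonoidHom.mk' (fun u : Multiplicative V => f (Multiplicative.toAdd u))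
    (fun a b => h.mod.add _ _)) (Multiplicative.ofAdd v) i

/-- the intersection with `W` of the subgroup generated by `f w` and a normal subgroup `C` with
`C ∩ W = 1` -/
theorem I4_line {p r : ℕ} [Fact p.Prime] {P W : Subgroup G} {x : G}
    {V : Type} [AddCommGroup V] [Module (ZMod p) V] {f : V → G}
    {ρ : MulAut G →* (V ≃ₗ[ZMod p] V)} {X : V ≃ₗ[ZMod p] V} (h : Ctx p r P W x V f ρ X)
    (C : Subgroup G) (hC : C.Normal) (hCW : C ⊓ W = ⊥) (w v : V) :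
    f v ∈ Subgroup.zpowers (f w) ⊔ C ↔ ∃ c : ZMod p, v = c • w := by
  have hfW : ∀ u, f u ∈ W := fun u => (h.mod.mem _).mpr ⟨u, rfl⟩
  rw [Subgroup.mem_sup_of_normal_right]
  constructor
  · rintro ⟨y, hy, z, hz, hyz⟩
    obtain ⟨i, rfl⟩ := Subgroup.mem_zpowers_iff.mp hy
    refine ⟨(i : ZMod p), ?_⟩
    have h1 : z ∈ W := by
      have h2 : z = ((f w) ^ i)⁻¹ * f v := by rw [← hyz, inv_mul_cancel_left]
      rw [h2]
      exact W.mul_mem (W.inv_mem (W.zpow_mem (hfW w) i)) (hfW v)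
    have h3 : z ∈ C ⊓ W := ⟨hz, h1⟩
    rw [hCW, Subgroup.mem_bot] at h3
    apply h.mod.inj
    rw [I4_fz h, ← hyz, h3, mul_one]
  · rintro ⟨c, rfl⟩
    refine ⟨f w ^ (c.val : ℤ), Subgroup.zpow_mem _ (Subgroup.mem_zpowers _) _, 1, C.one_mem, ?_⟩
    rw [mul_one, ← I4_fz h, Int.cast_natCast, ZMod.natCast_zmod_val]

/-- Two normal Sylow subgroups with the same centraliser: impossible.

Proof.  `exists_ctx` for `W`: `V, f, ρ, X`; `w` with `NI X w` (`Plane.exists_ni`, `Ctx.ns`).  `W` and `W₂`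
commute elementwise and intersect trivially (normal subgroups of coprime orders).
`H = zpowers (f w) ⊔ W₂`; `H ∩ W` is the line of `w`.  `Ctx.line` gives `α` with fixed points `H` and
`x * α x ∈ cen W` (`Ctx.neg`).  `α` is the identity on `W₂`, so `x⁻¹ * α x ∈ cen W₂ = cen W`
(`fixed_cen`).  So `x * x ∈ cen W`, and `x ∈ cen W` (`Sit.sq`), contradiction. -/
theorem two_prime_eq (hF : PF G) {p p₁ r : ℕ} {W W₂ : Subgroup G} {x x₂ : G}
    (h : Sit p r W W x) (h₂ : Sit p₁ r W₂ W₂ x₂) (hne : p ≠ p₁) (heq : cen W = cen W₂) :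
    False := by
  have hp := h.syl.prime
  have hp₁ := h₂.syl.prime
  have : Fact p.Prime := ⟨hp⟩
  have hW₂n : W₂.Normal := h₂.syl.normal
  have hdis : W₂ ⊓ W = ⊥ := by
    apply Subgroup.inf_eq_bot_of_coprime
    rw [h₂.Wcard, h.Wcard]
    exact Nat.Coprime.pow 2 2 ((Nat.coprime_primes hp₁ hp).mpr hne.symm)
  obtain ⟨V, i1, i2, i3, f, ρ, X, hc⟩ := exists_ctx h
  obtain ⟨w, hw⟩ := hc.pl.exists_ni (hc.ns hF)
  obtain ⟨α, hα, hα2, -⟩ := hc.line hF _ w hw (I4_line hc W₂ hW₂n hdis w)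
  have h1 := (hc.neg α).mpr hα2
  have h3 := fixed_cen hW₂n α (fun b hb => (hα b).mpr (Subgroup.mem_sup_right hb)) x
  rw [← heq] at h3
  apply h.xnot
  apply h.sq
  have h4 : x * x = (x * α x) * (x⁻¹ * α x)⁻¹ := by group
  rw [h4]
  exact (cen W).mul_mem h1 ((cen W).inv_mem h3)

end FPX
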