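import Pool.Agent.FPX.A7
import Pool.Agent.FPX.I0
import Pool.Agent.FPX.E0

namespace FPX

variable {G : Type} [Group G] [Finite G]

/-- equal index and inclusion -/
theorem I5_eq {H K : Subgroup G} (hle : H ≤ K) (h : H.index ≤ K.index) : H = K := by
  by_contra hne
  have := Subgroup.index_strictAnti (lt_of_le_of_ne hle hne)
  omega

theorem I5_card {p p₁ : ℕ} {W W₂ : Subgroup G} (hn : W.Normal) (hc : Nat.card W = p ^ 2)
    (hc₂ : Nat.card W₂ = p₁ ^ 2) : Nat.card (W ⊔ W₂ : Subgroup G) ∣ p ^ 2 * p₁ ^ 2 := by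
  have h1 : Nat.card W * W.relIndex (W ⊔ W₂) = Nat.card (W ⊔ W₂ : Subgroup G) := by
    rw [Subgroup.relIndex]
    have h2 := (W.subgroupOf (W ⊔ W₂)).card_mul_index
    rwa [Nat.card_congr (Subgroup.subgroupOfEquivOfLe (le_sup_left : W ≤ W ⊔ W₂)).toEquiv] at h2
  rw [← h1, Subgroup.relIndex_sup_left, hc]
  apply Nat.mul_dvd_mul_left
  rw [← hc₂]
  exact Subgroup.relIndex_dvd_card _ _

/-- Two normal Sylow subgroups with different centralisers: impossible.

Proof.  `B = W ⊔ W₂` (`W`, `W₂` commute elementwise, `|B| = p ^ 2 p₁ ^ 2`), `D = cen W ⊓ cen W₂`, normal;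
`B ≤ D` and `D ≤ cen B`.  `|B|` is prime to `r ^ k`.  `central_hall` for `B ≤ D` gives `C` with
`D = B C`, `C ∩ B = 1`, `C` invariant under automorphisms (`B`, `D` are characteristic).
Let `α` have fixed points `B`.  It has no fixed point `≠ 1` on `C`, and `g⁻¹ α(g) ∈ D = B ⊔ C` for
all `g` (`fixed_cen` for `W` and `W₂`).  `exists_compl` gives `Y` with `Y ⊓ D = ⊥`, `Y ⊔ D = ⊤`.
There is `g` outside `cen W` and `cen W₂` (both have index `r` and they are different: take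
`a ∈ cen W`, `a ∉ cen W₂` and `b ∈ cen W₂`, `b ∉ cen W`, `g = a b`).  `g = y d`, `y ∈ Y`, `d ∈ D`;
`y` is outside both too, and `y ^ r ∈ D` (`Sit.pow_mem`), so `y ^ r = 1`: `y` has order `r`.
Let `β` have fixed points `zpowers y`.  By `Sit.sgn_all` for `W`: `g⁻¹ β(g) ∈ cen W` for all `g`,
because otherwise `y β(y) = y ^ 2 ∈ cen W` and `y ∈ cen W`.  The same for `W₂`.  So
`g⁻¹ β(g) ∈ D` for all `g`, and by `count` `|G : D| ≤ r`.  But `D < cen W` and `|G : cen W| = r`,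
contradiction. -/
theorem two_prime_ne (hF : PF G) {p p₁ r k : ℕ} {W W₂ : Subgroup G} {x x₂ : G}
    (h : Sit p r W W x) (h₂ : Sit p₁ r W₂ W₂ x₂) (hne : p ≠ p₁)
    (hk : (W ⊔ W₂).index = r ^ k) (hn : cen W ≠ cen W₂) : False := by
  have hWn : W.Normal := h.syl.normal
  have hWn₂ : W₂.Normal := h₂.syl.normal
  have hpp : p.Prime := h.syl.prime
  have hpp₁ : p₁.Prime := h₂.syl.prime
  have hr : r.Prime := h.rprime
  have hDn := h.cen_normal
  have hDn₂ := h₂.cen_normal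
  have hWc : W ≤ cen W := fun a ha => ((h.Wmem a).1 ha).2.1
  have hWc₂ : W₂ ≤ cen W₂ := fun a ha => ((h₂.Wmem a).1 ha).2.1
  have hinf : W ⊓ W₂ = ⊥ := by
    rw [eq_bot_iff]
    rintro a ⟨ha, ha₂⟩
    have h1 := ((h.Wmem a).1 ha).2.2
    have h2 := ((h₂.Wmem a).1 ha₂).2.2
    have h3 : orderOf a ∣ Nat.gcd p p₁ := Nat.dvd_gcd (orderOf_dvd_of_pow_eq_one h1) (orderOf_dvd_of_pow_eq_one h2)
    rw [(Nat.coprime_primes hpp hpp₁).2 hne, Nat.dvd_one, orderOf_eq_one_iff] at h3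
    exact h3
  have hcomm : ∀ a ∈ W, ∀ b ∈ W₂, a * b = b * a := fun a ha b hb =>
    Subgroup.commute_of_normal_of_disjoint W W₂ hWn hWn₂ (disjoint_iff.2 hinf) a b ha hb
  have hW₂ : W₂ ≤ cen W := by
    intro b hb
    rw [Subgroup.mem_centralizer_iff]
    intro a ha
    exact hcomm a ha b hb
  have hW₁ : W ≤ cen W₂ := by
    intro a ha
    rw [Subgroup.mem_centralizer_iff]
    intro b hb
    exact (hcomm a ha b hb).symm
  set B := W ⊔ W₂ with hBdef
  have hBn : B.Normal := Subgroup.sup_normal W W₂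
  have hBcop : (Nat.card B).Coprime r := by
    have h1 : Nat.card B ∣ p ^ 2 * p₁ ^ 2 := I5_card hWn h.Wcard h₂.Wcard
    apply Nat.Coprime.coprime_dvd_left h1
    apply Nat.Coprime.mul_left
    · exact Nat.Coprime.pow_left 2 ((Nat.coprime_primes hpp hr).2 h.rp.symm)
    · exact Nat.Coprime.pow_left 2 ((Nat.coprime_primes hpp₁ hr).2 h₂.rp.symm)
  set D := cen W ⊓ cen W₂ with hDdef
  have hDN : D.Normal := Subgroup.normal_inf_normal _ _
  have hBD : B ≤ D := le_inf (sup_le hWc hW₂) (sup_le hW₁ hWc₂)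
  have hDB : D ≤ cen B := by
    rw [Subgroup.le_centralizer_iff]
    apply sup_le
    · rw [Subgroup.le_centralizer_iff]
      exact inf_le_left
    · rw [Subgroup.le_centralizer_iff]
      exact inf_le_right
  have hcop1 : (Nat.card B).Coprime (B.relIndex D) := by
    apply Nat.Coprime.coprime_dvd_right (Subgroup.relIndex_dvd_index_of_normal B D)
    rw [hk]
    exact Nat.Coprime.pow_right k hBcop
  obtain ⟨C, hCn, hCmem, hCB, hCD, -⟩ := central_hall B D hBn hDN hBD hDB hcop1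
  have hCle : C ≤ D := fun c hc => ((hCmem c).1 hc).1
  have hsup : B ⊔ C = D := by
    apply le_antisymm (sup_le hBD hCle)
    intro d hd
    obtain ⟨w, hw, c, hc, rfl⟩ := hCD d hd
    exact Subgroup.mul_mem_sup hw hc
  obtain ⟨α, hα⟩ := hF B
  haveI hWch := h.Wchar
  haveI hWch₂ := h₂.Wchar
  have hc1 : (cen W).Characteristic := Subgroup.characteristic_centralizer
  have hc2 : (cen W₂).Characteristic := Subgroup.characteristic_centralizer
  have hαC : ∀ c ∈ C, α c ∈ C := by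
    intro c hc
    obtain ⟨h1, h2⟩ := (hCmem c).1 hc
    refine (hCmem _).2 ⟨⟨char_mem hc1 α h1.1, char_mem hc2 α h1.2⟩, ?_⟩
    rw [← map_pow, h2, map_one]
  have hαB : ∀ b ∈ B, α b = b := fun b hb => (hα b).2 hb
  have hfix : ∀ c ∈ C, α c = c → c = 1 := by
    intro c hc h1
    have h2 : c ∈ C ⊓ B := ⟨hc, (hα c).1 h1⟩
    rw [hCB] at h2
    exact h2
  have hg : ∀ g : G, g⁻¹ * α g ∈ B ⊔ C := by
    intro g
    rw [hsup]
    exact ⟨fixed_cen hWn α (fun w hw => hαB w (Subgroup.mem_sup_left hw)) g,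
      fixed_cen hWn₂ α (fun w hw => hαB w (Subgroup.mem_sup_right hw)) g⟩
  have hcop2 : (Nat.card B).Coprime (B ⊔ C).index := by
    apply Nat.Coprime.coprime_dvd_right (Subgroup.index_dvd_of_le (le_sup_left : B ≤ B ⊔ C))
    rw [hk]
    exact Nat.Coprime.pow_right k hBcop
  obtain ⟨Y, hY1, hY2⟩ := exists_compl α B C hBn hCn (by rw [inf_comm]; exact hCB) hαB hαC hfix hg hcop2
  rw [hsup] at hY1 hY2
  have hi1 := h.Didx
  have hi2 := h₂.Didx
  have ha : ∃ a ∈ cen W, a ∉ cen W₂ := by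
    by_contra hcon
    push Not at hcon
    exact hn (I5_eq (fun a ha => hcon a ha) (by rw [hi1, hi2]))
  have hb : ∃ b ∈ cen W₂, b ∉ cen W := by
    by_contra hcon
    push Not at hcon
    exact hn (I5_eq (fun a ha => hcon a ha) (by rw [hi1, hi2])).symm
  obtain ⟨a, ha1, ha2⟩ := ha
  obtain ⟨b, hb1, hb2⟩ := hb
  have hg1 : a * b ∉ cen W := by
    intro h1
    exact hb2 (((cen W).mul_mem_cancel_left ha1).1 h1)
  have hg2 : a * b ∉ cen W₂ := by
    intro h1
    exact ha2 (((cen W₂).mul_mem_cancel_right hb1).1 h1)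
  have hmem : a * b ∈ Y ⊔ D := by rw [hY2]; trivial
  obtain ⟨y, hy, d, hd, hyd⟩ := Subgroup.mem_sup_of_normal_right.1 hmem
  have hy1 : y ∉ cen W := by
    intro h1
    apply hg1
    rw [← hyd]
    exact (cen W).mul_mem h1 hd.1
  have hy2 : y ∉ cen W₂ := by
    intro h1
    apply hg2
    rw [← hyd]
    exact (cen W₂).mul_mem h1 hd.2
  have hyr : y ^ r = 1 := by
    have h1 : y ^ r ∈ Y ⊓ D := ⟨Y.pow_mem hy r, h.pow_mem y, h₂.pow_mem y⟩
    rw [hY1] at h1
    exact h1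
  have hyne : y ≠ 1 := by
    rintro rfl
    exact hy1 (cen W).one_mem
  haveI : Fact r.Prime := ⟨hr⟩
  have hord : orderOf y = r := orderOf_eq_prime hyr hyne
  obtain ⟨β, hβ⟩ := hF (Subgroup.zpowers y)
  have hβy : β y = y := (hβ y).2 (Subgroup.mem_zpowers y)
  have hs1 : ∀ g : G, g⁻¹ * β g ∈ cen W := by
    rcases h.sgn_all β with h1 | h1
    · exact h1
    · exfalso
      have h3 := h1 y
      rw [hβy] at h3
      exact hy1 (h.sq h3)
  have hs2 : ∀ g : G, g⁻¹ * β g ∈ cen W₂ := by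
    rcases h₂.sgn_all β with h1 | h1
    · exact h1
    · exfalso
      have h3 := h1 y
      rw [hβy] at h3
      exact hy2 (h₂.sq h3)
  have hcount := count β (Subgroup.zpowers y) D hβ (fun g => ⟨hs1 g, hs2 g⟩)
  rw [Nat.card_zpowers, hord] at hcount
  have h5 : D = cen W := I5_eq inf_le_left (by rw [hi1]; exact hcount)
  exact ha2 (by rw [← h5] at ha1; exact ha1.2)

end FPX
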