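import Pool.Agent.FPX.A1
import Pool.Agent.FPX.S22
import Pool.Agent.FPX.I1
import Pool.Agent.FPX.I3
import Pool.Agent.FPX.I4
import Pool.Agent.FPX.I5
import Pool.Agent.FPX.A6

namespace FPX

variable {G : Type} [Group G] [Finite G]

/-- THEOREM I, induction step.

Proof.  Let `G` be indecomposable, `NSyl q Q`, `Q ≠ ⊥` (`EE G`).  If `Q = ⊤`, `G` is a `q`-group.  Otherwise
`thmN`.  If `Q ⊔ cen Q = ⊤`, let `C` be as in `exists_C`: `Q ⊔ C = ⊤`, coprime orders, so `C = ⊥` and
`Q = ⊤`, contradiction.  So `Sit q r Q Q x`; write `W = Q`, `T = G ⧸ W`: it is nontrivial, solvable, of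
smaller order (`W ≠ ⊥`), has (F) (`pf_quot`, `nsyl_coprime`) and is indecomposable (`quot_indec`).
`ih` gives `II T`.  If `T` is a `q'`-group then `r = |G : cen W|`, which divides `|T|`, is `q'`, so
`|G : W|` is a power of `r` and `Typ q r W x`.  Otherwise `Typ p₁ r₁ W₁ x₁` in `T`: `second_sit`,
and `two_prime_eq` or `two_prime_ne` (with `primes`) give a contradiction. -/
theorem stepI [Nontrivial G] [Group.IsSolvable G] (hF : PF G) (hE : EE G)
    (ih : ∀ (H : Type) [Group H] [Finite H] [Nontrivial H] [Group.IsSolvable H],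
      Nat.card H < Nat.card G → PF H → II H) : II G := by
  intro hG
  obtain ⟨q, Q, hQ, hne⟩ := hE
  have : Fact q.Prime := ⟨hQ.prime⟩
  have hQn : Q.Normal := hQ.normal
  obtain ⟨n, hn⟩ := IsPGroup.iff_card.1 hQ.pgroup
  have hcop : (Nat.card Q).Coprime Q.index := by
    rw [hn]
    exact Nat.Coprime.pow_left n ((Nat.Prime.coprime_iff_not_dvd hQ.prime).2 hQ.index)
  by_cases hT : Q = ⊤
  · left
    refine ⟨q, hQ.prime, fun g => ?_⟩
    have hg : g ∈ Q := by rw [hT]; trivial
    obtain ⟨k, hk⟩ := hQ.pgroup ⟨g, hg⟩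
    exact ⟨k, congrArg Subtype.val hk⟩
  rcases thmN hQ hF with h | ⟨r, x, h⟩
  · exfalso
    obtain ⟨C, hC, hCQ, hCcen, hCc, hdec⟩ := exists_C hQ
    have hCn : C.Normal := Subgroup.normal_of_characteristic C
    have htop : Q ⊔ C = ⊤ := by
      rw [eq_top_iff, ← h, sup_le_iff]
      refine ⟨le_sup_left, fun m hm => ?_⟩
      obtain ⟨z, hz, -, c, hc, rfl⟩ := hdec m hm
      exact mul_mem (Subgroup.mem_sup_left hz) (Subgroup.mem_sup_right hc)
    have hco : (Nat.card Q).Coprime (Nat.card C) := by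
      rw [hn]
      exact Nat.Coprime.pow_left n hCc.symm
    rcases hG Q C hQn hCn htop hco with h1 | h1
    · exact hne h1
    · apply hT
      rw [h1, sup_bot_eq] at htop
      exact htop
  · have hnt : Nontrivial (G ⧸ Q) := QuotientGroup.nontrivial_iff.2 hT
    have hcard : Nat.card (G ⧸ Q) < Nat.card G := by
      have h1 := Q.card_mul_index
      have h2 : Q.index = Nat.card (G ⧸ Q) := rfl
      have h3 : 1 < Nat.card Q := by
        rw [Subgroup.one_lt_card_iff_ne_bot]
        exact hne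
      have h4 : 0 < Nat.card (G ⧸ Q) := Nat.card_pos
      rw [h2] at h1
      nlinarith
    have hPF : PF (G ⧸ Q) := pf_quot Q hcop hF
    rcases ih (G ⧸ Q) hcard hPF (quot_indec hG h) with ⟨q', hq', hp'⟩ | ⟨p₁, r₁, W₁, x₁, h₁⟩
    · right
      have : Fact q'.Prime := ⟨hq'⟩
      obtain ⟨k, hk⟩ := IsPGroup.iff_card.1 hp'
      have hk' : Q.index = q' ^ k := hk
      have hle : Q ≤ cen Q := fun a ha => ((h.Wmem a).1 ha).2.1
      have hdvd : r ∣ q' ^ k := by
        rw [← hk', ← h.Didx]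
        exact Subgroup.index_dvd_of_le hle
      have hr : r = q' := (Nat.prime_dvd_prime_iff_eq h.rprime hq').1 (h.rprime.dvd_of_dvd_pow hdvd)
      refine ⟨q, r, Q, x, ⟨h, k, ?_⟩⟩
      rw [hk', hr]
    · exfalso
      obtain ⟨W₂, x₂, hs, k, hk⟩ := second_sit hF h h₁
      have hpr := primes h h₁
      have hne' : q ≠ p₁ := fun e => hpr.2 e.symm
      by_cases heq : cen Q = cen W₂
      · exact two_prime_eq hF h hs hne' heq
      · exact two_prime_ne hF h hs hne' hk heq

end FPX
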