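import Pool.Agent.FPX.E5
import Pool.Agent.FPX.I6

namespace FPX

/-- Theorems E and I, by induction on the order (characteristic subgroups have (F) by `pf_char`). -/
theorem EI (n : ℕ) : ∀ (G : Type) [Group G] [Finite G] [Nontrivial G] [Group.IsSolvable G],
    Nat.card G ≤ n → PF G → EE G ∧ II G := by
  induction n with
  | zero =>
    intro G _ _ _ _ hn _
    have := Nat.card_pos (α := G)
    omega
  | succ n ih =>
    intro G _ _ _ _ hn hF
    have hE : EE G := by
      apply stepE hF
      intro K hK hKT hKB
      have : Nontrivial K := (Subgroup.nontrivial_iff_ne_bot K).mpr hKB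
      have hlt : Nat.card K < Nat.card G := by
        rcases lt_or_eq_of_le (Subgroup.card_le_card_group K) with h1 | h1
        · exact h1
        · exact absurd (Subgroup.eq_top_of_card_eq K h1) hKT
      exact ih K (by omega) (pf_char hK hF)
    refine ⟨hE, stepI hF hE ?_⟩
    intro H _ _ _ _ hlt hH
    exact (ih H (by omega) hH).2

end FPX
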