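import Pool.Agent.FPX.Defs

namespace FPX

variable {p : ℕ} [Fact p.Prime] {V : Type} [AddCommGroup V] [Module (ZMod p) V]

theorem L1_ne (n : ℕ) (hn : n.Coprime p) : (n : ZMod p) ≠ 0 := by
  intro h
  rw [ZMod.natCast_eq_zero_iff] at h
  have h1 : p ∣ Nat.gcd n p := Nat.dvd_gcd h (dvd_refl p)
  rw [hn] at h1
  exact (Fact.out : p.Prime).one_lt.ne' (Nat.dvd_one.1 h1)

/-- Averaging.  `c` has order prime to `p`; then on every `c`-invariant submodule `M`, every vector is
the sum of a fixed vector and a vector `c w - w`; and `ker (c - 1)^2 = ker (c - 1)`.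

Proof.  (1) put `u = c v - v`, `c u = u`; by induction `c^k v = v + k u`; `c^n v = v` gives
`n u = 0`, and `n` is invertible modulo `p`, so `u = 0`.
(2) `u := n⁻¹ ∑_{i<n} c^i v` is fixed and in `M`; `v - u = n⁻¹ ∑_{i<n} (v - c^i v)` and
`c^i v - v = c w_i - w_i` with `w_i = ∑_{j<i} c^j v ∈ M`. -/
theorem semis1 (c : V ≃ₗ[ZMod p] V) (n : ℕ) (hn : n.Coprime p) (hc : c ^ n = 1) (v : V)
    (h : c (c v - v) = c v - v) : c v = v := by
  have hn0 := L1_ne n hn
  have key : ∀ k : ℕ, (c ^ k) v = v + (k : ZMod p) • (c v - v) := by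
    intro k
    induction k with
    | zero =>
      rw [pow_zero, Nat.cast_zero, zero_smul, add_zero]
      rfl
    | succ k ih =>
      have h1 : (c ^ (k + 1)) v = c ((c ^ k) v) := by
        rw [pow_succ']
        rfl
      rw [h1, ih, map_add, map_smul, h, Nat.cast_succ, add_smul, one_smul]
      abel
  have h2 := key n
  rw [hc] at h2
  have h3 : (n : ZMod p) • (c v - v) = 0 := by
    have h4 : v = v + (n : ZMod p) • (c v - v) := h2
    exact left_eq_add.1 h4
  have h5 : c v - v = 0 := (smul_eq_zero.1 h3).resolve_left hn0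
  exact sub_eq_zero.1 h5

theorem semis2 (c : V ≃ₗ[ZMod p] V) (n : ℕ) (hn : n.Coprime p) (hc : c ^ n = 1)
    (M : Submodule (ZMod p) V) (hM : ∀ m ∈ M, c m ∈ M) :
    ∀ v ∈ M, ∃ u ∈ M, ∃ w ∈ M, c u = u ∧ v = u + (c w - w) := by
  intro v hv
  have hn0 := L1_ne n hn
  have hpow : ∀ (k : ℕ) (x : V), (c ^ (k + 1)) x = c ((c ^ k) x) := by
    intro k x
    rw [pow_succ']
    rfl
  have hmem : ∀ k : ℕ, (c ^ k) v ∈ M := by
    intro k
    induction k with
    | zero => exact hv
    | succ k ih =>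
      rw [hpow]
      exact hM _ ih
  have htel : ∀ i : ℕ, c (∑ j ∈ Finset.range i, (c ^ j) v) - ∑ j ∈ Finset.range i, (c ^ j) v =
      (c ^ i) v - v := by
    intro i
    induction i with
    | zero =>
      rw [Finset.range_zero, Finset.sum_empty, map_zero, sub_zero, pow_zero]
      show (0 : V) = v - v
      rw [sub_self]
    | succ i ih =>
      rw [Finset.sum_range_succ, map_add, ← hpow]
      have h1 : c (∑ j ∈ Finset.range i, (c ^ j) v) =
          (c ^ i) v - v + ∑ j ∈ Finset.range i, (c ^ j) v := by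
        rw [← ih]
        abel
      rw [h1]
      abel
  set S : V := ∑ j ∈ Finset.range n, (c ^ j) v with hS
  set T : V := ∑ i ∈ Finset.range n, ∑ j ∈ Finset.range i, (c ^ j) v with hT
  have hSM : S ∈ M := Submodule.sum_mem _ fun j _ => hmem j
  have hTM : T ∈ M := Submodule.sum_mem _ fun i _ => Submodule.sum_mem _ fun j _ => hmem j
  have hcS : c S = S := by
    have h1 := htel n
    rw [hc] at h1
    have h2 : (1 : V ≃ₗ[ZMod p] V) v - v = 0 := sub_self v
    rw [h2] at h1
    exact sub_eq_zero.1 h1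
  have hcT : c T - T = S - (n : ZMod p) • v := by
    rw [hT, map_sum, ← Finset.sum_sub_distrib]
    rw [Finset.sum_congr rfl fun i _ => htel i, Finset.sum_sub_distrib, Finset.sum_const,
      Finset.card_range, Nat.cast_smul_eq_nsmul]
  refine ⟨(n : ZMod p)⁻¹ • S, M.smul_mem _ hSM, -((n : ZMod p)⁻¹ • T),
    M.neg_mem (M.smul_mem _ hTM), ?_, ?_⟩
  · rw [map_smul, hcS]
  · rw [map_neg, map_smul]
    have h1 : -((n : ZMod p)⁻¹ • c T) - -((n : ZMod p)⁻¹ • T) =
        -((n : ZMod p)⁻¹ • (c T - T)) := by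
      rw [smul_sub]
      abel
    rw [h1, hcT, smul_sub, smul_smul, inv_mul_cancel₀ hn0, one_smul]
    abel

end FPX
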