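import Pool.Agent.FPX.L6

namespace FPX

variable {p : ℕ} [Fact p.Prime] {V : Type} [AddCommGroup V] [Module (ZMod p) V]

variable [Finite V] {A Γ : Subgroup (V ≃ₗ[ZMod p] V)} {a0 : V ≃ₗ[ZMod p] V}

/-- Step (T5).

Proof.  `b` is not a scalar (a scalar commutes with `a0`; `a0Γ`).  Let `t = tr b`.  For `g ∈ Γ`
there are `y0, y1` with `g = y0 + y1 b` (`centr2`), so (1) `Γ` is commutative.  `a0` does not commute
with `b`, so `a0 b a0⁻¹ = t - b`, so `a0 g a0⁻¹ = y0 + y1 (t - b) = tr(g) - g` (`tr g = 2 y0 + y1 t`).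
It is in `Γ`, and `g (tr(g) - g) = det g` is a scalar (`ch2`) and an element of `Γ`; a scalar commutes
with `a0`, so it is `1`.  So `a0 g a0⁻¹ = g⁻¹ = tr(g) - g`; this gives (2) with `τ = tr g`, and (4).
(3) Let `a ∈ A`.  If `a b a⁻¹ = b` then `a` commutes with `y0 + y1 b` for all `y0, y1`, so with `Γ`.
Otherwise `a b a⁻¹ = t - b` and `a g a⁻¹ = y0 + y1 (t - b) = g⁻¹` for all `g ∈ Γ`. -/
theorem T5 (h : LAH p V A Γ a0) (h2 : Module.finrank (ZMod p) V = 2)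
    (b : V ≃ₗ[ZMod p] V) (hb : b ∈ Γ) (hb1 : b ≠ 1)
    (hA : ∀ a ∈ A, a * b = b * a ∨
      ∀ v, a (b v) = (LinearMap.trace (ZMod p) V (b : V →ₗ[ZMod p] V)) • a v - b (a v))
    (hΓ : ∀ g ∈ Γ, g * b = b * g) :
    (∀ g ∈ Γ, ∀ g' ∈ Γ, g * g' = g' * g) ∧
    (∀ g ∈ Γ, ∃ τ : ZMod p, ∀ v, g v + g⁻¹ v = τ • v) ∧
    (∀ a ∈ A, (∀ g ∈ Γ, a * g = g * a) ∨ (∀ g ∈ Γ, a * g = g⁻¹ * a)) ∧
    (∀ g ∈ Γ, a0 * g = g⁻¹ * a0) := by
  set t := LinearMap.trace (ZMod p) V (b : V →ₗ[ZMod p] V) with ht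
  have hscal : ∀ g ∈ Γ, (∃ c : ZMod p, ∀ v, g v = c • v) → g = 1 := by
    rintro g hg ⟨c, hc⟩
    apply h.a0Γ g hg
    ext v
    rw [LinearEquiv.mul_apply, LinearEquiv.mul_apply, hc, hc, map_smul]
  have hns : ¬ ∃ c : ZMod p, ∀ v, (b : V →ₗ[ZMod p] V) v = c • v := by
    intro hc
    exact hb1 (hscal b hb hc)
  have ha0 : ∀ v, a0 (b v) = t • a0 v - b (a0 v) := by
    rcases hA a0 h.a0A with h1 | h1
    · exact absurd (h.a0Γ b hb h1) hb1
    · exact h1
  have hcb : ∀ g ∈ Γ, ∀ v, g (b v) = b (g v) := by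
    intro g hg v
    exact LinearEquiv.congr_fun (hΓ g hg) v
  have key : ∀ g ∈ Γ, ∃ y0 y1 : ZMod p, (∀ v, g v = y0 • v + y1 • b v) ∧
      ∀ v, g⁻¹ v = (2 * y0 + y1 * t) • v - g v := by
    intro g hg
    obtain ⟨y0, y1, hy⟩ := centr2 h2 (b : V →ₗ[ZMod p] V) (g : V →ₗ[ZMod p] V) hns
      (fun v => (hcb g hg v).symm)
    have hy' : ∀ v, g v = y0 • v + y1 • b v := hy
    refine ⟨y0, y1, hy', ?_⟩
    have htr : LinearMap.trace (ZMod p) V (g : V →ₗ[ZMod p] V) = 2 * y0 + y1 * t := by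
      have h3 : (g : V →ₗ[ZMod p] V) = y0 • LinearMap.id + y1 • (b : V →ₗ[ZMod p] V) := by
        ext v
        exact hy v
      rw [h3, map_add, map_smul, map_smul, LinearMap.trace_id, h2, ← ht, smul_eq_mul, smul_eq_mul]
      push_cast
      ring
    have ha0g : ∀ v, a0 (g v) = (2 * y0 + y1 * t) • a0 v - g (a0 v) := by
      intro v
      rw [hy' v, hy' (a0 v), map_add, map_smul, map_smul, ha0]
      module
    have hconj : ∀ w, (a0 * g * a0⁻¹) w = (2 * y0 + y1 * t) • w - g w := by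
      intro w
      rw [LinearEquiv.mul_apply, LinearEquiv.mul_apply, ha0g]
      have h4 : a0 (a0⁻¹ w) = w := by
        rw [← LinearEquiv.mul_apply, mul_inv_cancel]
        rfl
      rw [h4]
    have hmem : g * (a0 * g * a0⁻¹) ∈ Γ := Γ.mul_mem hg (h.norm a0 h.a0A g hg)
    have h5 : g * (a0 * g * a0⁻¹) = 1 := by
      apply hscal _ hmem
      refine ⟨LinearMap.det (g : V →ₗ[ZMod p] V), fun v => ?_⟩
      rw [LinearEquiv.mul_apply, hconj, map_sub, map_smul, ← htr]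
      have h6 := ch2 h2 (g : V →ₗ[ZMod p] V) v
      have h7 : g (g v) = LinearMap.trace (ZMod p) V (g : V →ₗ[ZMod p] V) • g v -
          LinearMap.det (g : V →ₗ[ZMod p] V) • v := h6
      rw [h7]
      abel
    have h8 : g⁻¹ = a0 * g * a0⁻¹ := inv_eq_of_mul_eq_one_right h5
    intro v
    rw [h8, hconj]
  refine ⟨?_, ?_, ?_, ?_⟩
  · intro g hg g' hg'
    obtain ⟨y0, y1, hy, -⟩ := key g hg
    ext v
    rw [LinearEquiv.mul_apply, LinearEquiv.mul_apply, hy, hy, map_add, map_smul, map_smul,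
      hcb g' hg']
  · intro g hg
    obtain ⟨y0, y1, hy, hy'⟩ := key g hg
    refine ⟨2 * y0 + y1 * t, fun v => ?_⟩
    rw [hy']
    abel
  · intro a ha
    rcases hA a ha with h3 | h3
    · left
      intro g hg
      obtain ⟨y0, y1, hy, -⟩ := key g hg
      ext v
      have h4 : a (b v) = b (a v) := LinearEquiv.congr_fun h3 v
      rw [LinearEquiv.mul_apply, LinearEquiv.mul_apply, hy, hy, map_add, map_smul, map_smul, h4]
    · right
      intro g hg
      obtain ⟨y0, y1, hy, hy'⟩ := key g hg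
      ext v
      rw [LinearEquiv.mul_apply, LinearEquiv.mul_apply, hy', hy, hy, map_add, map_smul, map_smul,
        h3]
      module
  · intro g hg
    obtain ⟨y0, y1, hy, hy'⟩ := key g hg
    ext v
    rw [LinearEquiv.mul_apply, LinearEquiv.mul_apply, hy', hy, hy, map_add, map_smul, map_smul,
      ha0]
    module

end FPX
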