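import Pool.Agent.FPX.L1

namespace FPX

theorem L11_z3 : ∀ t : ZMod 3, t = 0 ∨ t = 1 ∨ t = 2 := by decide

variable {p : ℕ} [Fact p.Prime] {V : Type} [AddCommGroup V] [Module (ZMod p) V]

theorem L11_inv (g : V ≃ₗ[ZMod p] V) (w : V) : g⁻¹ (g w) = w := by
  change (g⁻¹ * g) w = w
  rw [inv_mul_cancel]
  rfl

theorem L11_two (g : V ≃ₗ[ZMod p] V) (n : ℕ) (hn : n.Coprime p) (hg : g ^ n = 1)
    (h : ∀ w, g w + g⁻¹ w = w + w) : g = 1 := by
  apply LinearEquiv.ext
  intro w
  change g w = w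
  apply semis1 g n hn hg w
  have h1 := h (g w)
  rw [L11_inv] at h1
  rw [map_sub]
  have h2 : g (g w) = g w + g w - w := by rw [← h1]; abel
  rw [h2]; abel

variable [Finite V] {A Γ : Subgroup (V ≃ₗ[ZMod p] V)} {a0 : V ≃ₗ[ZMod p] V}

/-- Step (T6).

Proof.  (1) If `g ^ 2 = 1` then `a0 g = g⁻¹ a0 = g a0`, so `g = 1` by `a0Γ`.
(2) Let `g ∈ Γ`, `g ≠ 1`, `g v = v`, `v ≠ 0`.  Then `τ v = g v + g⁻¹ v = 2 v`, so `τ = 2` and
`g + g⁻¹ = 2`, `(g - 1)^2 = 0` on `V` (apply `g`), so by `semis1` (`g` has order prime to `p`)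
`g v = v` for all `v`, contradiction.
(3) `p ≠ 3`: let `g ∈ Γ`, `g ≠ 1` (exists), `p = 3`, `g + g⁻¹ = τ`.  If `τ = 2 = -1`: then
`(g - 1)^2 = g^2 - 2 g + 1 = 0`, so `g = 1` by `semis1`.  If `τ = 0`: `g^2 = -1`, `g^4 = 1`,
`g^2 ∈ Γ` has square `1`, so `g^2 = 1` and `g = 1` by (1).  If `τ = 1`: `g^2 = g - 1 = g + 2`, so
`g^3 = g^2 - g = -1`, `g^6 = 1`; `g^3 ∈ Γ` has square `1`, so `g^3 = 1` by (1), and the order of `g`
is prime to `3`, so `g = 1`. -/
theorem T6 (h : LAH p V A Γ a0) (hne : Γ ≠ ⊥) (hp2 : p ≠ 2)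
    (htau : ∀ g ∈ Γ, ∃ τ : ZMod p, ∀ v, g v + g⁻¹ v = τ • v)
    (ha0 : ∀ g ∈ Γ, a0 * g = g⁻¹ * a0) :
    5 ≤ p ∧ (∀ g ∈ Γ, g ≠ 1 → ∀ v, g v = v → v = 0) ∧ (∀ g ∈ Γ, g ^ 2 = 1 → g = 1) := by
  have hpow : ∀ g ∈ Γ, g ^ (Nat.card Γ) = 1 := by
    intro g hg
    have h1 : (⟨g, hg⟩ : Γ) ^ (Nat.card Γ) = 1 := pow_card_eq_one'
    exact congrArg Subtype.val h1
  have h3 : ∀ g ∈ Γ, g ^ 2 = 1 → g = 1 := by
    intro g hg h2
    apply h.a0Γ g hg
    have h4 : g⁻¹ = g := by
      rw [pow_two] at h2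
      exact inv_eq_of_mul_eq_one_left h2
    have h5 := ha0 g hg
    rw [h4] at h5
    exact h5
  refine ⟨?_, ?_, h3⟩
  · have hp := (Fact.out : p.Prime)
    have hp3 : p ≠ 3 := by
      intro hp3
      subst hp3
      obtain ⟨g, hg, hg1⟩ : ∃ g ∈ Γ, g ≠ 1 := by
        by_contra hcon
        push Not at hcon
        apply hne
        rw [Subgroup.eq_bot_iff_forall]
        exact hcon
      obtain ⟨τ, hτ⟩ := htau g hg
      have hτ3 : τ = 0 ∨ τ = 1 ∨ τ = 2 := by
        exact L11_z3 τ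
      have hgg : ∀ w, g (g w) + w = τ • g w := by
        intro w
        have h6 := hτ (g w)
        rwa [L11_inv] at h6
      rcases hτ3 with rfl | rfl | rfl
      · -- `g ^ 2 = -1`
        have h7 : ∀ w, g (g w) = -w := by
          intro w
          have h8 := hgg w
          rw [zero_smul] at h8
          exact eq_neg_of_add_eq_zero_left h8
        apply hg1
        apply h3 g hg
        apply h3 (g ^ 2) (Γ.pow_mem hg 2)
        apply LinearEquiv.ext
        intro w
        rw [pow_two, pow_two]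
        change g (g (g (g w))) = w
        rw [h7, h7, neg_neg]
      · have h7 : ∀ w, g (g w) = g w - w := by
          intro w
          have h8 := hgg w
          rw [one_smul] at h8
          exact eq_sub_of_add_eq h8
        have h9 : ∀ w, g (g (g w)) = -w := by
          intro w
          rw [h7 (g w), h7 w]
          abel
        have h10 : g ^ 3 = 1 := by
          apply h3 (g ^ 3) (Γ.pow_mem hg 3)
          apply LinearEquiv.ext
          intro w
          rw [pow_two, pow_three]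
          change g (g (g (g (g (g w))))) = w
          rw [h9, h9, neg_neg]
        apply hg1
        have h11 := orderOf_dvd_of_pow_eq_one h10
        have h12 := orderOf_dvd_of_pow_eq_one (hpow g hg)
        have h13 : orderOf g ∣ 1 := by
          rw [← h.cop]
          exact Nat.dvd_gcd h12 h11
        exact orderOf_eq_one_iff.1 (Nat.dvd_one.1 h13)
      · apply hg1
        apply L11_two g (Nat.card Γ) h.cop (hpow g hg)
        intro w
        rw [hτ w]
        exact two_smul (ZMod 3) w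
    have h2p := hp.two_le
    have hp4 : p ≠ 4 := by
      intro h4
      rw [h4] at hp
      exact absurd hp (by norm_num)
    omega
  · intro g hg hg1 v hv
    by_contra hv0
    obtain ⟨τ, hτ⟩ := htau g hg
    have h1 := hτ v
    have h2 : g⁻¹ v = v := by
      conv_lhs => rw [← hv]
      exact L11_inv g v
    rw [hv, h2, ← two_smul (ZMod p) v] at h1
    have h4 : ((2 : ZMod p) - τ) • v = 0 := by
      rw [sub_smul, h1, sub_self]
    have h5 : (2 : ZMod p) - τ = 0 := (smul_eq_zero.1 h4).resolve_right hv0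
    apply hg1
    apply L11_two g (Nat.card Γ) h.cop (hpow g hg)
    intro w
    rw [hτ w, ← sub_eq_zero.1 h5]
    exact two_smul (ZMod p) w

end FPX
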