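import Pool.Agent.FPX.Basic

open scoped commutatorElement

namespace FPX

variable {p : ℕ} [Fact p.Prime] {V : Type} [AddCommGroup V] [Module (ZMod p) V]

variable [Finite V] {A Γ : Subgroup (V ≃ₗ[ZMod p] V)} {a0 : V ≃ₗ[ZMod p] V}

/-- The conjugation by `a`, restricted to `Γ`. -/
theorem L12_conj {G : Type} [Group G] (Γ : Subgroup G) (a : G)
    (h1 : ∀ g ∈ Γ, a * g * a⁻¹ ∈ Γ) (h2 : ∀ g ∈ Γ, a⁻¹ * g * a ∈ Γ) :
    ∃ φ : MulAut Γ, ∀ g : Γ, ((φ g : Γ) : G) = a * g * a⁻¹ := by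
  refine ⟨{ toFun := fun g => ⟨a * g * a⁻¹, h1 g g.2⟩
            invFun := fun g => ⟨a⁻¹ * g * a, h2 g g.2⟩
            left_inv := fun g => ?_
            right_inv := fun g => ?_
            map_mul' := fun g g' => ?_ }, fun g => rfl⟩
  · apply Subtype.ext
    show a⁻¹ * (a * g * a⁻¹) * a = g
    group
  · apply Subtype.ext
    show a * (a⁻¹ * g * a) * a⁻¹ = g
    group
  · apply Subtype.ext
    show a * (g * g') * a⁻¹ = a * g * a⁻¹ * (a * g' * a⁻¹)
    group

/-- The last nontrivial term `B` of the derived series of `Γ`: a nontrivial commutative subgroup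
of `Γ`, normalised by `A`.

Proof.  Let `n` be maximal with `derivedSeries Γ n ≠ ⊥` (`Γ` is solvable and `≠ ⊥`) and
`B := (derivedSeries Γ n).map Γ.subtype`.  It is commutative because
`derivedSeries Γ (n + 1) = ⁅derivedSeries Γ n, derivedSeries Γ n⁆ = ⊥`.  For `a ∈ A`, conjugation
by `a` restricts to an automorphism of the group `Γ` (`norm` for `a` and `a⁻¹`), and
`derivedSeries Γ n` is characteristic in `Γ`, so `B` is normalised by `a`.  The other fields of
`LAH` are inherited (`|B|` divides `|Γ|`). -/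
theorem exists_abelian (h : LAH p V A Γ a0) (hs : Group.IsSolvable Γ) (hne : Γ ≠ ⊥) :
    ∃ B : Subgroup (V ≃ₗ[ZMod p] V), B ≤ Γ ∧ B ≠ ⊥ ∧
      (∀ b ∈ B, ∀ c ∈ B, b * c = c * b) ∧ LAH p V A B a0 := by
  classical
  have hsol : ∃ n, derivedSeries Γ n = ⊥ := hs.solvable
  obtain ⟨n, hn1, hn2⟩ : ∃ n, derivedSeries Γ n ≠ ⊥ ∧ derivedSeries Γ (n + 1) = ⊥ := by
    obtain ⟨m, hm⟩ : ∃ m, m = Nat.find hsol := ⟨_, rfl⟩
    have h1 : derivedSeries Γ m = ⊥ := by rw [hm]; exact Nat.find_spec hsol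
    rcases m with _ | n
    · exfalso
      rw [derivedSeries_zero] at h1
      apply hne
      rw [Subgroup.eq_bot_iff_forall]
      intro x hx
      have h2 : (⟨x, hx⟩ : Γ) ∈ (⊤ : Subgroup Γ) := Subgroup.mem_top _
      rw [h1, Subgroup.mem_bot] at h2
      exact congrArg Subtype.val h2
    · refine ⟨n, ?_, h1⟩
      exact Nat.find_min hsol (by omega)
  have hchar : (derivedSeries Γ n).Characteristic := inferInstance
  have hBle : (derivedSeries Γ n).map Γ.subtype ≤ Γ := by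
    rintro x ⟨y, -, rfl⟩
    exact y.2
  refine ⟨(derivedSeries Γ n).map Γ.subtype, hBle, ?_, ?_, ?_⟩
  · intro hbot
    apply hn1
    rw [Subgroup.eq_bot_iff_forall]
    intro x hx
    have h1 : (x : V ≃ₗ[ZMod p] V) ∈ (derivedSeries Γ n).map Γ.subtype := ⟨x, hx, rfl⟩
    rw [hbot, Subgroup.mem_bot] at h1
    exact Subtype.ext h1
  · rintro _ ⟨b, hb, rfl⟩ _ ⟨c, hc, rfl⟩
    have h1 : ⁅b, c⁆ ∈ derivedSeries Γ (n + 1) := by
      rw [derivedSeries_succ]
      exact Subgroup.commutator_mem_commutator hb hc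
    rw [hn2, Subgroup.mem_bot, commutatorElement_eq_one_iff_mul_comm] at h1
    exact congrArg Subtype.val h1
  · refine ⟨hBle.trans h.sub, ?_, ?_, h.hU, h.a0A, h.a0V, fun g hg => h.a0Γ g (hBle hg)⟩
    · rintro a ha _ ⟨g, hg, rfl⟩
      obtain ⟨φ, hφ⟩ := L12_conj Γ a (fun g hg => h.norm a ha g hg) (fun g hg => by
        have := h.norm a⁻¹ (A.inv_mem ha) g hg
        rwa [inv_inv] at this)
      exact ⟨φ g, char_mem hchar φ hg, hφ g⟩
    · exact Nat.Coprime.coprime_dvd_left (Subgroup.card_dvd_of_le hBle) h.cop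

end FPX
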