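import Pool.Agent.FPX.L1

namespace FPX

variable {p : ℕ} [Fact p.Prime] {V : Type} [AddCommGroup V] [Module (ZMod p) V]

/-- the fixed space -/
def L3_F (c : V ≃ₗ[ZMod p] V) : Submodule (ZMod p) V :=
  LinearMap.ker (c.toLinearMap - LinearMap.id)

/-- the moved space -/
def L3_M (c : V ≃ₗ[ZMod p] V) : Submodule (ZMod p) V :=
  LinearMap.range (c.toLinearMap - LinearMap.id)

theorem L3_mem_F (c : V ≃ₗ[ZMod p] V) (v : V) : v ∈ L3_F c ↔ c v = v := by
  unfold L3_F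
  rw [LinearMap.mem_ker, LinearMap.sub_apply, LinearMap.id_apply, sub_eq_zero]
  exact Iff.rfl

theorem L3_mem_M (c : V ≃ₗ[ZMod p] V) (v : V) : v ∈ L3_M c ↔ ∃ w, c w - w = v := by
  unfold L3_M
  rw [LinearMap.mem_range]
  exact Iff.rfl

theorem L3_hyp (S S' : Submodule (ZMod p) V) (φ : Module.Dual (ZMod p) V)
    (h1 : ∀ v ∈ S, φ v = 0 → v ∈ S') (h2 : ¬ S ≤ S') (v : V) (hv : v ∈ S) :
    v ∈ S' ↔ φ v = 0 := by
  refine ⟨fun h => ?_, h1 v hv⟩
  by_contra hne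
  apply h2
  intro f hf
  have h3 : f - (φ f * (φ v)⁻¹) • v ∈ S' := by
    apply h1
    · exact S.sub_mem hf (S.smul_mem _ hv)
    · rw [map_sub, map_smul, smul_eq_mul, mul_assoc, inv_mul_cancel₀ hne, mul_one, sub_self]
  have h4 := S'.add_mem h3 (S'.smul_mem (φ f * (φ v)⁻¹) h)
  rwa [sub_add_cancel] at h4

theorem L3_eq [Finite V] (a : V ≃ₗ[ZMod p] V) (S : Submodule (ZMod p) V)
    (h : S ≤ S.map a.toLinearMap ∨ S.map a.toLinearMap ≤ S) : S.map a.toLinearMap = S := by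
  have hfr : Module.finrank (ZMod p) (S.map a.toLinearMap) = Module.finrank (ZMod p) S :=
    LinearEquiv.finrank_map_eq a S
  rcases h with h | h
  · exact (Submodule.eq_of_le_of_finrank_eq h hfr.symm).symm
  · exact Submodule.eq_of_le_of_finrank_eq h hfr

variable [Finite V] {A B : Subgroup (V ≃ₗ[ZMod p] V)} {a0 : V ≃ₗ[ZMod p] V}

/-- Step (H2) of Proposition LA.  `B` is commutative, `c ∈ B`; write `F = ker (c - 1)` and
`M = range (c - 1)`.  Let `φ` be a functional which vanishes neither on `F` nor on `M`, and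
`U = ker φ`.  Then there is `c' ∈ B` with `F ∩ F' = F ∩ U`, `M ∩ M' = M ∩ U` and `M ∩ F' ≠ 0`.

Proof.  Let `a ∈ A` have fixed space `U`.  Choose `e` with `φ e = 1`; then
`a v = v + φ(v) u` with `u = a e - e ≠ 0` (`v - φ(v) e ∈ U` is fixed).  `c' := a c a⁻¹ ∈ B`;
`F' = ker (c' - 1) = a F`, `M' = range (c' - 1) = a M`.  `c` and `c'` commute, so `F`, `M` are
`c'`-invariant and `F'`, `M'` are `c`-invariant.  By `L1` (`c`, `c'` have order prime to `p` because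
`|B|` is), `V = F ⊕ M = F' ⊕ M'`.
`F' ≠ F`: if `F' = F`, take `v ∈ F` with `φ v ≠ 0`: `a v = v + φ(v) u ∈ F' = F`, so `u ∈ F`.
`M' = (c' - 1)(F + M) = (c' - 1) M ≤ M`, and `dim M' = dim M`, so `M' = M`; take `m ∈ M` with
`φ m ≠ 0`: `a m = m + φ(m) u ∈ M' = M`, so `u ∈ M`.  So `u ∈ F ∩ M = 0`, contradiction.
`M' ≠ M`: if `M' = M` then for `f' ∈ F'`, `(c - 1) f' ∈ F' ∩ M = F' ∩ M' = 0`, so `F' ≤ F`, and
`F' = F` by dimensions, contradiction.
`F ∩ U ≤ F ∩ F'` (for `v ∈ F ∩ U`, `v = a v ∈ F'`), `F ∩ F' < F`, and `F ∩ U` is a hyperplane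
of `F`, so `F ∩ F' = F ∩ U`.  In the same way `M ∩ M' = M ∩ U`.
Finally `M` is `c'`-invariant, so (L1, `semis2` for `c'` on `M`) every `m ∈ M` is `m = m₁ + m₂` with
`m₁ ∈ M ∩ F'` and `m₂ ∈ M ∩ M'`; if `M ∩ F' = 0` then `M = M ∩ M' = M ∩ U ≤ U`, contradiction. -/
theorem H2 (h : LAH p V A B a0) (hcomm : ∀ b ∈ B, ∀ c ∈ B, b * c = c * b)
    (c : V ≃ₗ[ZMod p] V) (hc : c ∈ B) (φ : Module.Dual (ZMod p) V)
    (hF : ∃ v, c v = v ∧ φ v ≠ 0) (hM : ∃ v, φ (c v - v) ≠ 0) :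
    ∃ c' ∈ B, (∀ v, c v = v → (c' v = v ↔ φ v = 0)) ∧
      (∀ v, (∃ w, c' w - w = c v - v) ↔ φ (c v - v) = 0) ∧
      (∃ v, c v ≠ v ∧ c' (c v - v) = c v - v) := by
  obtain ⟨a, haA, ha⟩ := h.hU (LinearMap.ker φ)
  have ha' : ∀ v, a v = v ↔ φ v = 0 := fun v => by rw [ha v, LinearMap.mem_ker]
  obtain ⟨v0, hv0, hφ0⟩ := hF
  obtain ⟨v1, hφ1⟩ := hM
  -- the vector `u`
  obtain ⟨u, hu0, hu⟩ : ∃ u : V, u ≠ 0 ∧ ∀ v, a v = v + φ v • u := by
    refine ⟨a ((φ v0)⁻¹ • v0) - (φ v0)⁻¹ • v0, ?_, ?_⟩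
    · intro h0
      have h1 := (ha' _).1 (sub_eq_zero.1 h0)
      rw [map_smul, smul_eq_mul, inv_mul_cancel₀ hφ0] at h1
      exact one_ne_zero h1
    · intro v
      have h1 : a (v - φ v • ((φ v0)⁻¹ • v0)) = v - φ v • ((φ v0)⁻¹ • v0) := by
        rw [ha', map_sub, map_smul, map_smul, smul_eq_mul, smul_eq_mul, inv_mul_cancel₀ hφ0,
          mul_one, sub_self]
      rw [map_sub, map_smul a (φ v)] at h1
      rw [smul_sub]
      have h2 := sub_eq_iff_eq_add.1 h1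
      rw [h2]
      abel
  have hc'B : a * c * a⁻¹ ∈ B := h.norm a haA c hc
  have hca : ∀ v, (a * c * a⁻¹) (a v) = a (c v) := by
    intro v
    show a (c (a.symm (a v))) = a (c v)
    rw [LinearEquiv.symm_apply_apply]
  have hcom : ∀ v, (a * c * a⁻¹) (c v) = c ((a * c * a⁻¹) v) := by
    intro v
    exact congrArg (fun g : V ≃ₗ[ZMod p] V => g v) (hcomm _ hc'B c hc)
  generalize a * c * a⁻¹ = c' at hc'B hca hcom
  have hpow : ∀ b ∈ B, b ^ Nat.card B = 1 := by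
    intro b hb
    have h1 : (⟨b, hb⟩ : B) ^ Nat.card B = 1 := pow_card_eq_one'
    have h2 : ((⟨b, hb⟩ : B) ^ Nat.card B).1 = (1 : B).1 := congrArg Subtype.val h1
    exact h2
  have hsem : ∀ b ∈ B, ∀ w, b (b w - w) = b w - w → b w = w := fun b hb w hw =>
    semis1 b (Nat.card B) h.cop (hpow b hb) w hw
  have hF' : L3_F c' = (L3_F c).map a.toLinearMap := by
    ext v
    rw [Submodule.mem_map, L3_mem_F]
    constructor
    · intro hv
      refine ⟨a.symm v, ?_, a.apply_symm_apply v⟩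
      rw [L3_mem_F]
      apply a.injective
      rw [← hca, a.apply_symm_apply]
      exact hv
    · rintro ⟨x, hx, rfl⟩
      rw [L3_mem_F] at hx
      show c' (a x) = a x
      rw [hca, hx]
  have hM' : L3_M c' = (L3_M c).map a.toLinearMap := by
    ext v
    rw [Submodule.mem_map, L3_mem_M]
    constructor
    · rintro ⟨w, rfl⟩
      refine ⟨c (a.symm w) - a.symm w, (L3_mem_M _ _).2 ⟨_, rfl⟩, ?_⟩
      show a (c (a.symm w) - a.symm w) = c' w - w
      rw [map_sub, ← hca, a.apply_symm_apply]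
    · rintro ⟨x, hx, rfl⟩
      rw [L3_mem_M] at hx
      obtain ⟨w, rfl⟩ := hx
      refine ⟨a w, ?_⟩
      show c' (a w) - a w = a (c w - w)
      rw [hca, map_sub]
  have hFU : ∀ v ∈ L3_F c, φ v = 0 → v ∈ L3_F c' := by
    intro v hv h0
    rw [hF']
    exact ⟨v, hv, (ha' v).2 h0⟩
  have hMU : ∀ v ∈ L3_M c, φ v = 0 → v ∈ L3_M c' := by
    intro v hv h0
    rw [hM']
    exact ⟨v, hv, (ha' v).2 h0⟩
  have hMinv : ∀ m ∈ L3_M c, c' m ∈ L3_M c := by
    intro m hm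
    rw [L3_mem_M] at hm ⊢
    obtain ⟨w, rfl⟩ := hm
    exact ⟨c' w, by rw [map_sub, hcom]⟩
  have hFne : L3_F c' ≠ L3_F c := by
    intro he
    -- `u` is fixed
    have hu1 : u ∈ L3_F c := by
      have h1 : a v0 ∈ L3_F c := by
        rw [← he, hF']
        exact ⟨v0, (L3_mem_F _ _).2 hv0, rfl⟩
      rw [hu v0] at h1
      have h2 := (L3_F c).sub_mem h1 ((L3_mem_F _ _).2 hv0)
      rw [add_sub_cancel_left] at h2
      exact ((L3_F c).smul_mem_iff hφ0).1 h2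
    have hMle : L3_M c' ≤ L3_M c := by
      intro m hm
      rw [L3_mem_M] at hm
      obtain ⟨w, rfl⟩ := hm
      obtain ⟨x, -, y, -, hx, hxy⟩ := semis2 c (Nat.card B) h.cop (hpow c hc) ⊤
        (fun _ _ => Submodule.mem_top) w Submodule.mem_top
      have hx' : c' x = x := by
        rw [← L3_mem_F, he, L3_mem_F]
        exact hx
      have h3 : c' w - w = c' (c y - y) - (c y - y) := by
        rw [hxy, map_add, hx']
        abel
      rw [h3]
      have h4 : c y - y ∈ L3_M c := (L3_mem_M _ _).2 ⟨y, rfl⟩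
      exact (L3_M c).sub_mem (hMinv _ h4) h4
    have hMeq : L3_M c' = L3_M c := by
      rw [hM'] at hMle ⊢
      exact L3_eq a (L3_M c) (Or.inr hMle)
    have hm1 : c v1 - v1 ∈ L3_M c := (L3_mem_M _ _).2 ⟨v1, rfl⟩
    have hu2 : u ∈ L3_M c := by
      have h1 : a (c v1 - v1) ∈ L3_M c := by
        rw [← hMeq, hM']
        exact ⟨_, hm1, rfl⟩
      rw [hu] at h1
      have h2 := (L3_M c).sub_mem h1 hm1
      rw [add_sub_cancel_left] at h2
      exact ((L3_M c).smul_mem_iff hφ1).1 h2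
    rw [L3_mem_F] at hu1
    rw [L3_mem_M] at hu2
    obtain ⟨w, rfl⟩ := hu2
    exact hu0 (sub_eq_zero.2 (hsem c hc w hu1))
  have hMne : L3_M c' ≠ L3_M c := by
    intro he
    apply hFne
    have hle : L3_F c' ≤ L3_F c := by
      intro f hf
      rw [L3_mem_F] at hf ⊢
      have h1 : c f - f ∈ L3_M c' := by
        rw [he]
        exact (L3_mem_M _ _).2 ⟨f, rfl⟩
      have h2 : c' (c f - f) = c f - f := by
        rw [map_sub, hcom, hf]
      rw [L3_mem_M] at h1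
      obtain ⟨w, hw⟩ := h1
      rw [← hw] at h2
      have h3 := hsem c' hc'B w h2
      rw [h3, sub_self] at hw
      exact sub_eq_zero.1 hw.symm
    rw [hF'] at hle ⊢
    exact L3_eq a (L3_F c) (Or.inr hle)
  have hFn : ¬ L3_F c ≤ L3_F c' := by
    intro hle
    apply hFne
    rw [hF'] at hle ⊢
    exact L3_eq a (L3_F c) (Or.inl hle)
  have hMn : ¬ L3_M c ≤ L3_M c' := by
    intro hle
    apply hMne
    rw [hM'] at hle ⊢
    exact L3_eq a (L3_M c) (Or.inl hle)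
  refine ⟨c', hc'B, ?_, ?_, ?_⟩
  · intro v hv
    have h1 := L3_hyp _ _ φ hFU hFn v ((L3_mem_F _ _).2 hv)
    rwa [L3_mem_F] at h1
  · intro v
    have h1 := L3_hyp _ _ φ hMU hMn (c v - v) ((L3_mem_M _ _).2 ⟨v, rfl⟩)
    rwa [L3_mem_M] at h1
  · by_contra hcon
    push Not at hcon
    apply hMn
    intro m hm
    obtain ⟨x, hx, y, -, hx', hxy⟩ := semis2 c' (Nat.card B) h.cop (hpow c' hc'B) (L3_M c) hMinv
      m hm
    rw [L3_mem_M] at hx
    obtain ⟨w, rfl⟩ := hx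
    have h0 : c w - w = 0 := by
      by_contra hne
      exact hcon w (fun h1 => hne (sub_eq_zero.2 h1)) hx'
    rw [h0, zero_add] at hxy
    rw [L3_mem_M]
    exact ⟨y, hxy.symm⟩

end FPX
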