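import Pool.Agent.FPX.L2
import Pool.Agent.FPX.L3

namespace FPX

variable {p : ℕ} [Fact p.Prime] {V : Type} [AddCommGroup V] [Module (ZMod p) V]

variable [Finite V] {A B : Subgroup (V ≃ₗ[ZMod p] V)} {a0 : V ≃ₗ[ZMod p] V}

/-- Step (H3b): if `c ∈ B`, `c ≠ 1`, then `F = ker (c - 1)` has dimension at most `1`.

Proof.  Suppose `dim F ≥ 2`.  `V = F ⊕ M`, `M = range (c - 1) ≠ 0` (L1).  Let `η` be any nonzero
functional on `F`, `ψ` a nonzero functional on `M` and `φ := η ∘ pr_F + ψ ∘ pr_M`.  By `H2` there is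
`c' ∈ B` with `F ∩ F' = F ∩ ker φ = ker η`, `F' = ker (c' - 1)`.  `F` and `F'` are `B`-invariant, so
`ker η` is `B`-invariant.  This holds for every `η`, so every element of `B` is a scalar on `F` (L2).
Fix `η`; `c'` is a scalar on `F` and `c' = 1` on `ker η ≠ 0` (`dim F ≥ 2`), so `c' = 1` on `F`, so
`φ = 0` on `F` by the first part of `H2`, so `η = 0`, contradiction. -/
theorem H3b (h : LAH p V A B a0) (hcomm : ∀ b ∈ B, ∀ c ∈ B, b * c = c * b)
    (c : V ≃ₗ[ZMod p] V) (hc : c ∈ B) (hc1 : c ≠ 1) :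
    Module.finrank (ZMod p) (LinearMap.ker ((c : V →ₗ[ZMod p] V) - LinearMap.id)) ≤ 1 := by
  by_contra hlt
  have : Module.Finite (ZMod p) V := Module.Finite.of_finite
  set F : Submodule (ZMod p) V := LinearMap.ker ((c : V →ₗ[ZMod p] V) - LinearMap.id) with hFdef
  have hF : ∀ v, v ∈ F ↔ c v = v := by
    intro v
    rw [hFdef, LinearMap.mem_ker, LinearMap.sub_apply, sub_eq_zero]
    rfl
  have hF2 : 2 ≤ Module.finrank (ZMod p) F := by omega
  -- a moved vector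
  obtain ⟨w0, hw0⟩ : ∃ w0, c w0 ≠ w0 := by
    by_contra hcon
    push Not at hcon
    exact hc1 (LinearEquiv.ext hcon)
  have hcn : c ^ Nat.card B = 1 := by
    have h1 : (⟨c, hc⟩ : B) ^ Nat.card B = 1 := pow_card_eq_one'
    exact congrArg Subtype.val h1
  have hm0 : (c w0 - w0) ∉ F := by
    rw [hF]
    intro h1
    exact hw0 (semis1 c (Nat.card B) h.cop hcn w0 h1)
  -- functionals
  have key : ∀ χ : Module.Dual (ZMod p) V, (∃ v ∈ F, χ v ≠ 0) →
      ∃ c' ∈ B, ∀ v, c v = v → (c' v = v ↔ χ v = 0) := by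
    rintro χ ⟨v, hvF, hv⟩
    have hφ : ∃ φ : Module.Dual (ZMod p) V, (∀ u ∈ F, φ u = χ u) ∧ φ (c w0 - w0) ≠ 0 := by
      by_cases h1 : χ (c w0 - w0) = 0
      · obtain ⟨θ, hθ1, hθ2⟩ := Submodule.exists_le_ker_of_notMem hm0
        refine ⟨χ + θ, fun u hu => ?_, ?_⟩
        · have h2 : θ u = 0 := hθ2 hu
          rw [LinearMap.add_apply, h2, add_zero]
        · rw [LinearMap.add_apply, h1, zero_add]
          exact hθ1
      · exact ⟨χ, fun u _ => rfl, h1⟩
    obtain ⟨φ, h1, h2⟩ := hφ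
    obtain ⟨c', hc', h3, -, -⟩ := H2 h hcomm c hc φ ⟨v, (hF v).1 hvF, by rwa [h1 v hvF]⟩ ⟨w0, h2⟩
    refine ⟨c', hc', fun u hu => ?_⟩
    rw [h3 u hu, h1 u ((hF u).2 hu)]
  -- every element of B maps F to itself
  have hmap : ∀ b ∈ B, ∀ v ∈ F, b v ∈ F := by
    intro b hb v hv
    rw [hF] at hv ⊢
    have h1 : (c * b) v = (b * c) v := by rw [hcomm b hb c hc]
    have h2 : c (b v) = b (c v) := h1
    rw [h2, hv]
  have hscal : ∀ b ∈ B, ∃ μ : ZMod p, ∀ v ∈ F, b v = μ • v := by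
    intro b hb
    obtain ⟨μ, hμ⟩ := scalar_of_ker ((b : V →ₗ[ZMod p] V).restrict (p := F) (q := F) (hmap b hb)) (by
      intro ψ v hv
      obtain ⟨χ, hχ⟩ := LinearMap.exists_extend ψ
      have hχ' : ∀ u : F, χ u = ψ u := fun u => LinearMap.congr_fun hχ u
      by_cases hz : ∃ u ∈ F, χ u ≠ 0
      · obtain ⟨c', hc', h1⟩ := key χ hz
        have h2 : c' v = v := (h1 v ((hF _).1 v.2)).2 (by rw [hχ']; exact hv)
        have h3 : c' (b v) = b v := by
          have h4 : (c' * b) v = (b * c') v := by rw [hcomm b hb c' hc']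
          have h5 : c' (b v) = b (c' v) := h4
          rw [h5, h2]
        have h6 := (h1 (b v) ((hF _).1 (hmap b hb v v.2))).1 h3
        have h7 := hχ' (⟨b v, hmap b hb v v.2⟩ : F)
        have h8 : ((b : V →ₗ[ZMod p] V).restrict (p := F) (q := F) (hmap b hb)) v =
            (⟨b v, hmap b hb v v.2⟩ : F) := rfl
        rw [h8, ← h7]
        exact h6
      · push Not at hz
        rw [← hχ']
        exact hz _ (Subtype.property _))
    refine ⟨μ, fun v hv => ?_⟩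
    have h1 := hμ (⟨v, hv⟩ : F)
    exact congrArg Subtype.val h1
  -- a functional which is not zero on F
  have hFne : F ≠ ⊥ := by
    intro h1
    rw [h1, finrank_bot] at hF2
    omega
  obtain ⟨v0, hv0F, hv0⟩ := Submodule.exists_mem_ne_zero_of_ne_bot hFne
  obtain ⟨χ, hχ⟩ : ∃ χ : Module.Dual (ZMod p) V, χ v0 ≠ 0 := by
    by_contra hcon
    push Not at hcon
    exact hv0 ((Module.forall_dual_apply_eq_zero_iff (ZMod p) v0).1 hcon)
  obtain ⟨c', hc', h1⟩ := key χ ⟨v0, hv0F, hχ⟩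
  obtain ⟨μ, hμ⟩ := hscal c' hc'
  have hker : LinearMap.ker (χ ∘ₗ F.subtype) ≠ ⊥ := by
    apply LinearMap.ker_ne_bot_of_finrank_lt
    rw [Module.finrank_self]
    omega
  obtain ⟨v1, hv1, hv10⟩ := Submodule.exists_mem_ne_zero_of_ne_bot hker
  have hv1' : χ v1 = 0 := hv1
  have h2 : c' v1 = v1 := (h1 v1 ((hF _).1 v1.2)).2 hv1'
  rw [hμ v1 v1.2] at h2
  have h3 : μ = 1 := by
    have h4 : (μ - 1) • (v1 : V) = 0 := by rw [sub_smul, one_smul, h2, sub_self]
    rcases smul_eq_zero.1 h4 with h5 | h5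
    · exact sub_eq_zero.1 h5
    · exact absurd (Subtype.ext h5) hv10
  have h4 : c' v0 = v0 := by rw [hμ v0 hv0F, h3, one_smul]
  exact hχ ((h1 v0 ((hF _).1 hv0F)).1 h4)

end FPX
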