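import Pool.Agent.FPX.L2

namespace FPX

variable {p : ℕ} [Fact p.Prime] {V : Type} [AddCommGroup V] [Module (ZMod p) V]

variable [Finite V] {A B : Subgroup (V ≃ₗ[ZMod p] V)} {a0 : V ≃ₗ[ZMod p] V}

/-- `dim V ≥ 2`.  Proof: if `dim V ≤ 1` every automorphism of `V` is a scalar, so it commutes
with `a0`; so `B = 1` by `a0Γ`. -/
theorem H0 (h : LAH p V A B a0) (hB : B ≠ ⊥) : 2 ≤ Module.finrank (ZMod p) V := by
  by_contra hlt
  have h1 : Module.finrank (ZMod p) V ≤ 1 := by omega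
  have : Module.Finite (ZMod p) V := Module.Finite.of_finite
  obtain ⟨v, hv⟩ := finrank_le_one_iff.1 h1
  apply hB
  rw [Subgroup.eq_bot_iff_forall]
  intro b hb
  obtain ⟨c0, hc0⟩ := hv (b v)
  have hs : ∀ w, b w = c0 • w := by
    intro w
    obtain ⟨c, rfl⟩ := hv w
    rw [map_smul, ← hc0, smul_comm]
  refine h.a0Γ b hb ?_
  ext w
  show a0 (b w) = b (a0 w)
  rw [hs, hs, map_smul]

/-- Step (H1): if `dim V ≥ 3` there is `c ∈ B`, `c ≠ 1`, with a nonzero fixed vector.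

Proof.  Some functional `ψ` and some `b ∈ B` satisfy `ker ψ` not `b`-invariant: otherwise every
element of `B` is a scalar (L2), commutes with `a0`, so `B = 1`.  Let `U = ker ψ` and `a ∈ A` with
fixed space `U`.  `c := a b a⁻¹ b⁻¹`; it is in `B` (`a b a⁻¹ ∈ B`).  `c ≠ 1`: otherwise `a b = b a`
and then `b` preserves the fixed space `U` of `a`.  If `v ∈ U` and `b⁻¹ v ∈ U` then
`c v = a b a⁻¹ b⁻¹ v = a b b⁻¹ v = a v = v` (`a⁻¹` fixes `b⁻¹ v`).  `U ∩ b U` has codimension at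
most `2`, so it is not `0`. -/
theorem H1 (h : LAH p V A B a0) (hB : B ≠ ⊥) (h3 : 3 ≤ Module.finrank (ZMod p) V) :
    ∃ c ∈ B, c ≠ 1 ∧ ∃ v, v ≠ 0 ∧ c v = v := by
  have : Module.Finite (ZMod p) V := Module.Finite.of_finite
  have h1 : ∃ b ∈ B, ∃ (ψ : Module.Dual (ZMod p) V) (v : V), ψ v = 0 ∧ ψ (b v) ≠ 0 := by
    by_contra hcon
    push Not at hcon
    apply hB
    rw [Subgroup.eq_bot_iff_forall]
    intro b hb
    obtain ⟨c0, hc0⟩ := scalar_of_ker (b : V →ₗ[ZMod p] V) (fun ψ v hv => hcon b hb ψ v hv)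
    have hs : ∀ w, b w = c0 • w := hc0
    refine h.a0Γ b hb ?_
    ext w
    show a0 (b w) = b (a0 w)
    rw [hs, hs, map_smul]
  obtain ⟨b, hb, ψ, v, hv0, hv1⟩ := h1
  obtain ⟨a, haA, ha⟩ := h.hU (LinearMap.ker ψ)
  have ha' : ∀ w, a w = w ↔ ψ w = 0 := fun w => by rw [ha, LinearMap.mem_ker]
  have hker : LinearMap.ker (ψ.prod (ψ ∘ₗ ((b⁻¹ : V ≃ₗ[ZMod p] V) : V →ₗ[ZMod p] V))) ≠ ⊥ := by
    apply LinearMap.ker_ne_bot_of_finrank_lt
    rw [Module.finrank_prod, Module.finrank_self]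
    omega
  obtain ⟨w, hw, hw0⟩ := Submodule.exists_mem_ne_zero_of_ne_bot hker
  rw [LinearMap.mem_ker, LinearMap.prod_apply] at hw
  have hw1 : ψ w = 0 := congrArg Prod.fst hw
  have hw2 : ψ (b⁻¹ w) = 0 := congrArg Prod.snd hw
  refine ⟨a * b * a⁻¹ * b⁻¹, B.mul_mem (h.norm a haA b hb) (B.inv_mem hb), ?_, w, hw0, ?_⟩
  · intro h1
    have h2 : a * b = b * a := by
      have h3 : a * b = (a * b * a⁻¹ * b⁻¹) * (b * a) := by group
      rw [h1, one_mul] at h3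
      exact h3
    have h3 : a (b v) = b (a v) := by
      have h4 : (a * b) v = (b * a) v := by rw [h2]
      exact h4
    rw [(ha' v).2 hv0] at h3
    exact hv1 ((ha' _).1 h3)
  · show a (b (a⁻¹ (b⁻¹ w))) = w
    have h1 : a (b⁻¹ w) = b⁻¹ w := (ha' _).2 hw2
    have h2 : a⁻¹ (b⁻¹ w) = b⁻¹ w := by
      have h4 : a⁻¹ (a (b⁻¹ w)) = b⁻¹ w := a.symm_apply_apply _
      rwa [h1] at h4
    have h3 : b (b⁻¹ w) = w := b.apply_symm_apply w
    rw [h2, h3]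
    exact (ha' w).2 hw1

end FPX
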