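import Pool.Agent.FPX.Defs

namespace FPX

theorem L7_two {V : Type} [AddCommGroup V] [Module (ZMod 2) V] (v : V) : v + v = 0 := by
  rw [← two_smul (ZMod 2) v]
  have : (2 : ZMod 2) = 0 := rfl
  rw [this, zero_smul]

theorem L7_pair {V : Type} [AddCommGroup V] [Module (ZMod 2) V] (h2 : Module.finrank (ZMod 2) V = 2)
    {v u : V} (hv : v ≠ 0) (hu : u ≠ 0) (huv : v ≠ u) (w : V) :
    w = 0 ∨ w = v ∨ w = u ∨ w = v + u := by
  have hz : ∀ x : ZMod 2, x = 0 ∨ x = 1 := by decide
  have hli : LinearIndependent (ZMod 2) ![v, u] := by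
    rw [LinearIndependent.pair_iff]
    intro s t hst
    rcases hz s with rfl | rfl <;> rcases hz t with rfl | rfl
    · exact ⟨rfl, rfl⟩
    · rw [zero_smul, zero_add, one_smul] at hst
      exact absurd hst hu
    · rw [zero_smul, add_zero, one_smul] at hst
      exact absurd hst hv
    · rw [one_smul, one_smul] at hst
      exfalso
      apply huv
      have h1 := L7_two u
      calc v = v + (u + u) := by rw [h1, add_zero]
        _ = (v + u) + u := by abel
        _ = u := by rw [hst, zero_add]
  let e := basisOfLinearIndependentOfCardEqFinrank hli (by rw [h2]; rfl)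
  have h3 := e.sum_repr w
  rw [Fin.sum_univ_two] at h3
  have e0 : e 0 = v := by simp [e]
  have e1 : e 1 = u := by simp [e]
  rw [e0, e1] at h3
  rcases hz (e.repr w 0) with h4 | h4 <;> rcases hz (e.repr w 1) with h5 | h5 <;>
    rw [h4, h5] at h3 <;> simp only [zero_smul, one_smul, zero_add, add_zero] at h3
  · exact Or.inl h3.symm
  · exact Or.inr (Or.inr (Or.inl h3.symm))
  · exact Or.inr (Or.inl h3.symm)
  · exact Or.inr (Or.inr (Or.inr h3.symm))

theorem L7_sq {V : Type} [AddCommGroup V] [Module (ZMod 2) V] (h2 : Module.finrank (ZMod 2) V = 2)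
    {c : V ≃ₗ[ZMod 2] V} (hc : ∀ v, c v = v → v = 0) {v : V} (hv : v ≠ 0) : c (c v) = v + c v := by
  have hcv : c v ≠ 0 := fun h => hv ((map_eq_zero_iff c c.injective).1 h)
  have hne : v ≠ c v := fun h => hv (hc v h.symm)
  rcases L7_pair h2 hv hcv hne (c (c v)) with h | h | h | h
  · exact absurd ((map_eq_zero_iff c c.injective).1 h) hcv
  · have h1 : c (v + c v) = v + c v := by rw [map_add, h]; abel
    have h3 := hc _ h1
    exfalso
    apply hne
    calc v = v + (c v + c v) := by rw [L7_two, add_zero]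
      _ = (v + c v) + c v := by abel
      _ = c v := by rw [h3, zero_add]
  · exact absurd (hc _ h) hcv
  · exact h

/-- `p = 2` is impossible in dimension 2.

Proof.  `V` has three nonzero vectors.  `a0` permutes them without fixed point, so it is a 3-cycle on
them.  Let `g ∈ Γ`, `g ≠ 1`; its order is odd (`|Γ|` is odd), so on the three nonzero vectors it is
also a 3-cycle.  So `g = a0` or `g = a0⁻¹`, `g` commutes with `a0`, and `g = 1` by `a0Γ`,
contradiction.  (One may choose a basis and decide a statement on 2 x 2 matrices over `ZMod 2`.) -/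
theorem p_ne_two {V : Type} [AddCommGroup V] [Module (ZMod 2) V] [Finite V]
    {A Γ : Subgroup (V ≃ₗ[ZMod 2] V)} {a0 : V ≃ₗ[ZMod 2] V} (h : LAH 2 V A Γ a0)
    (h2 : Module.finrank (ZMod 2) V = 2) (hne : Γ ≠ ⊥) : False := by
  obtain ⟨g, hg, hg1⟩ : ∃ g ∈ Γ, g ≠ 1 := by
    by_contra hcon
    push Not at hcon
    exact hne ((Subgroup.eq_bot_iff_forall Γ).2 hcon)
  have : Nontrivial V := Module.nontrivial_of_finrank_pos (R := ZMod 2) (by omega)
  obtain ⟨v, hv⟩ := exists_ne (0 : V)
  have hinj : ∀ (c : V ≃ₗ[ZMod 2] V) {x : V}, x ≠ 0 → c x ≠ 0 := fun c x hx h =>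
    hx ((map_eq_zero_iff c c.injective).1 h)
  have hgn : g ^ Nat.card Γ = 1 := by
    have h1 : (⟨g, hg⟩ : Γ) ^ Nat.card Γ = 1 := pow_card_eq_one'
    exact congrArg Subtype.val h1
  -- g has no fixed vector
  have hgf : ∀ x, g x = x → x = 0 := by
    intro x hx
    by_contra hx0
    have hy0 := hinj a0 hx0
    have hxy : x ≠ a0 x := fun h1 => hx0 (h.a0V x h1.symm)
    have hdec := L7_pair h2 hx0 hy0 hxy
    rcases hdec (g (a0 x)) with h1 | h1 | h1 | h1
    · exact hinj g hy0 h1
    · exact hxy (g.injective (hx.trans h1.symm))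
    · apply hg1
      ext w
      rcases hdec w with rfl | rfl | rfl | rfl
      · simp
      · exact hx
      · exact h1
      · show g (x + a0 x) = x + a0 x
        rw [map_add, hx, h1]
    · have hsq : g ^ 2 = 1 := by
        have h3 : g (g (a0 x)) = a0 x := by
          rw [h1, map_add, hx, h1]
          calc x + (x + a0 x) = (x + x) + a0 x := by abel
            _ = a0 x := by rw [L7_two, zero_add]
        ext w
        rw [pow_two]
        show g (g w) = w
        rcases hdec w with rfl | rfl | rfl | rfl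
        · simp
        · rw [hx, hx]
        · exact h3
        · rw [map_add, map_add, hx, hx, h3]
      have h3 := orderOf_dvd_of_pow_eq_one hsq
      have h4 := orderOf_dvd_of_pow_eq_one hgn
      have h5 := Nat.dvd_gcd h4 h3
      rw [h.cop.gcd_eq_one, Nat.dvd_one, orderOf_eq_one_iff] at h5
      exact hg1 h5
  -- a0 and g commute
  have hu0 := hinj a0 hv
  have hvu : v ≠ a0 v := fun h1 => hv (h.a0V v h1.symm)
  have hdec := L7_pair h2 hv hu0 hvu
  have ha2 := L7_sq h2 h.a0V hv
  have hg2 := L7_sq h2 hgf hv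
  apply hg1
  refine h.a0Γ g hg ?_
  have key : a0 (g v) = g (a0 v) ∧ a0 (g (a0 v)) = g (a0 (a0 v)) := by
    rcases hdec (g v) with h1 | h1 | h1 | h1
    · exact absurd h1 (hinj g hv)
    · exact absurd (hgf v h1) hv
    · rw [h1] at hg2
      refine ⟨by rw [h1, ha2, hg2], ?_⟩
      rw [hg2, ha2, map_add, map_add, ha2, h1, hg2]
    · have h3 : g (a0 v) = v := by
        have h4 : g (g v) = g v + g (a0 v) := by
          conv_lhs => rw [h1]
          rw [map_add]
        have h5 : g v + g (a0 v) = g v + v := by rw [← h4, hg2]; abel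
        exact add_left_cancel h5
      have h4 : a0 (g v) = v := by
        rw [h1, map_add, ha2]
        calc a0 v + (v + a0 v) = v + (a0 v + a0 v) := by abel
          _ = v := by rw [L7_two, add_zero]
      refine ⟨by rw [h4, h3], ?_⟩
      rw [h3, ha2, map_add, h3, h1]
      calc a0 v = a0 v + (v + v) := by rw [L7_two, add_zero]
        _ = v + a0 v + v := by abel
  ext w
  show a0 (g w) = g (a0 w)
  rcases hdec w with rfl | rfl | rfl | rfl
  · simp
  · exact key.1
  · exact key.2
  · rw [map_add, map_add, map_add, map_add, key.1, key.2]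

end FPX
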