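import Pool.Agent.FPX.L1
import Pool.Agent.FPX.L6

namespace FPX

variable {p : ℕ} [Fact p.Prime] {V : Type} [AddCommGroup V] [Module (ZMod p) V]

variable [Finite V] {A Γ : Subgroup (V ≃ₗ[ZMod p] V)} {a0 : V ≃ₗ[ZMod p] V}

omit [Finite V] in
theorem L8_two (hp : p ≠ 2) : (2 : ZMod p) ≠ 0 := by
  intro h0
  have h1 : ((2 : ℕ) : ZMod p) = 0 := by exact_mod_cast h0
  rw [ZMod.natCast_eq_zero_iff] at h1
  have h3 := (Nat.prime_dvd_prime_iff_eq (Fact.out : p.Prime) Nat.prime_two).1 h1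
  exact hp h3

omit [Finite V] in
theorem L8_scal (b : V ≃ₗ[ZMod p] V) (n : ℕ) (hn : n.Coprime p) (hbn : b ^ n = 1) {t d : ZMod p}
    (h2 : (2 : ZMod p) ≠ 0) (h0 : t ^ 2 - 4 * d = 0) (hch : ∀ v, b (b v) = t • b v - d • v) :
    ∃ c : ZMod p, ∀ v, b v = c • v := by
  have hp := (Fact.out : p.Prime)
  by_cases hV : Subsingleton V
  · exact ⟨0, fun v => Subsingleton.elim _ _⟩
  rw [not_subsingleton_iff_nontrivial] at hV
  obtain ⟨v0, hv0⟩ := exists_ne (0 : V)
  -- l = t / 2 is not zero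
  have h4 : (4 : ZMod p) ≠ 0 := by
    have : (4 : ZMod p) = 2 * 2 := by norm_num
    rw [this]
    exact mul_ne_zero h2 h2
  set l : ZMod p := t / 2 with hl
  have hlt : t = 2 * l := by rw [hl]; field_simp
  have hld : d = l ^ 2 := by
    have h5 : 4 * (d - l ^ 2) = 0 := by rw [hlt] at h0; linear_combination -h0
    rcases mul_eq_zero.1 h5 with h6 | h6
    · exact absurd h6 h4
    · exact sub_eq_zero.1 h6
  have hl0 : l ≠ 0 := by
    intro hl0
    have h5 := hch v0
    rw [hld, hlt, hl0] at h5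
    have h6 : b (b v0) = 0 := by rw [h5]; simp
    have h7 := (map_eq_zero_iff b b.injective).1 h6
    exact hv0 ((map_eq_zero_iff b b.injective).1 h7)
  let u : (ZMod p)ˣ := (Units.mk0 l hl0)⁻¹
  have hu : (u : ZMod p) = l⁻¹ := by simp [u]
  let s : V ≃ₗ[ZMod p] V := LinearEquiv.smulOfUnit u
  have hs : ∀ v, s v = l⁻¹ • v := by
    intro v
    show u • v = l⁻¹ • v
    rw [Units.smul_def, hu]
  have hspow : ∀ k v, (s ^ k) v = (l⁻¹) ^ k • v := by
    intro k
    induction k with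
    | zero => intro v; simp
    | succ k ih =>
      intro v
      rw [pow_succ]
      show (s ^ k) (s v) = _
      rw [ih, hs, smul_smul, pow_succ]
  have hs1 : s ^ (p - 1) = 1 := by
    ext v
    rw [hspow]
    have h5 : (l⁻¹) ^ (p - 1) = 1 := ZMod.pow_card_sub_one_eq_one (inv_ne_zero hl0)
    rw [h5, one_smul]
    rfl
  have hcommute : Commute s b := by
    ext v
    show s (b v) = b (s v)
    rw [hs, hs, map_smul]
  have hcn : (s * b) ^ (n * (p - 1)) = 1 := by
    rw [hcommute.mul_pow, pow_mul, pow_mul b, hbn, one_pow, mul_one, ← pow_mul, mul_comm, pow_mul,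
      hs1, one_pow]
  have hcop : (n * (p - 1)).Coprime p := by
    refine Nat.Coprime.mul_left hn ?_
    have h5 : p.Coprime (p - 1) := by
      rw [hp.coprime_iff_not_dvd]
      intro h6
      have h7 := Nat.le_of_dvd (by have := hp.two_le; omega) h6
      have := hp.two_le
      omega
    exact h5.symm
  have hli : l * l⁻¹ = 1 := mul_inv_cancel₀ hl0
  refine ⟨l, fun v => ?_⟩
  have h5 : (s * b) v = v := by
    refine semis1 (s * b) (n * (p - 1)) hcop hcn v ?_
    have e1 : ∀ w, (s * b) w = l⁻¹ • b w := fun w => hs (b w)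
    rw [e1, e1, map_sub, map_smul, hch, hld, hlt]
    have h6 : l⁻¹ • (l⁻¹ • ((2 * l) • b v - l ^ 2 • v) - b v) - (l⁻¹ • b v - v) =
        ((l * l⁻¹) * 2 * l⁻¹ - l⁻¹ - l⁻¹) • b v + (1 - (l * l⁻¹) ^ 2) • v := by module
    rw [hli] at h6
    have h7 : ((1 : ZMod p) * 2 * l⁻¹ - l⁻¹ - l⁻¹) = 0 := by ring
    have h8 : (1 - (1 : ZMod p) ^ 2) = 0 := by ring
    rw [h7, h8, zero_smul, zero_smul, add_zero] at h6
    exact sub_eq_zero.1 h6
  have h6 : l⁻¹ • b v = v := by
    rw [← hs]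
    exact h5
  calc b v = (l * l⁻¹) • b v := by rw [hli, one_smul]
    _ = l • (l⁻¹ • b v) := by rw [smul_smul]
    _ = l • v := by rw [h6]

/-- Step (T3).  In dimension 2, `p` odd, `B` commutative: for `b ∈ B`, `b ≠ 1` and `a ∈ A`, the
conjugate `a b a⁻¹` is `b` or `tr(b) - b`.

Proof.  `b` is not a scalar: a scalar commutes with `a0`, so it would be `1` by `a0Γ`.
`b' := a b a⁻¹ ∈ B` commutes with `b`, so `b' = x0 + x1 b` by `centr2`.  Put `t = tr b`, `d = det b`
(`LinearMap.trace`, `LinearMap.det`).  `tr b' = t` and `det b' = d` (conjugate), that is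
`2 x0 + x1 t = t` and `x0^2 + x0 x1 t + x1^2 d = d`.  From these
`(t^2 - 4 d)(1 - x1^2) = 0`.
`t^2 - 4 d ≠ 0`: otherwise, by `ch2`, `N := b - t/2` satisfies `N^2 = b^2 - t b + t^2/4 = 0`.  Let
`n` be the order of `b`, prime to `p` (`Γ` has order prime to `p`).  With `λ = t/2 ≠ 0`
(`λ^2 = d ≠ 0`), `b^n = λ^n + n λ^(n-1) N = 1`, so `n λ^(n-1) N` is a scalar `1 - λ^n` with square
zero (`N^2 = 0`), so it is `0`, and `N = 0`, `b` is a scalar, contradiction.
So `x1 = 1` (then `2 x0 = 0`, `x0 = 0`, `b' = b`) or `x1 = -1` (then `x0 = t`, `b' = t - b`). -/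
theorem T3 {B : Subgroup (V ≃ₗ[ZMod p] V)} (h : LAH p V A B a0)
    (hcomm : ∀ b ∈ B, ∀ c ∈ B, b * c = c * b) (h2 : Module.finrank (ZMod p) V = 2) (hp : p ≠ 2)
    (b : V ≃ₗ[ZMod p] V) (hb : b ∈ B) (hb1 : b ≠ 1) (a : V ≃ₗ[ZMod p] V) (ha : a ∈ A) :
    a * b = b * a ∨
      ∀ v, a (b v) = (LinearMap.trace (ZMod p) V (b : V →ₗ[ZMod p] V)) • a v - b (a v) := by
  have h2ne : (2 : ZMod p) ≠ 0 := L8_two hp
  set t := LinearMap.trace (ZMod p) V (b : V →ₗ[ZMod p] V) with ht
  set d := LinearMap.det (b : V →ₗ[ZMod p] V) with hd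
  have hch : ∀ v, b (b v) = t • b v - d • v := fun v => ch2 h2 (b : V →ₗ[ZMod p] V) v
  have hns : ¬ ∃ c : ZMod p, ∀ v, b v = c • v := by
    rintro ⟨c, hc⟩
    apply hb1
    refine h.a0Γ b hb ?_
    ext w
    show a0 (b w) = b (a0 w)
    rw [hc, hc, map_smul]
  have hlin : ∀ α β : ZMod p, (∀ v, α • v + β • b v = 0) → α = 0 ∧ β = 0 := by
    intro α β hab
    have hβ : β = 0 := by
      by_contra hβ
      apply hns
      refine ⟨-(β⁻¹ * α), fun v => ?_⟩
      have h1 : β⁻¹ • (α • v + β • b v) = 0 := by rw [hab v, smul_zero]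
      rw [smul_add, smul_smul, smul_smul, inv_mul_cancel₀ hβ, one_smul] at h1
      rw [neg_smul]
      exact eq_neg_of_add_eq_zero_right h1
    refine ⟨?_, hβ⟩
    have : Nontrivial V := Module.nontrivial_of_finrank_pos (R := ZMod p) (by omega)
    obtain ⟨v, hv⟩ := exists_ne (0 : V)
    have h1 := hab v
    rw [hβ, zero_smul, add_zero] at h1
    rcases smul_eq_zero.1 h1 with h3 | h3
    · exact h3
    · exact absurd h3 hv
  -- the conjugate
  have hb' : a * b * a⁻¹ ∈ B := h.norm a ha b hb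
  have hcm : ∀ v, b ((a * b * a⁻¹) v) = (a * b * a⁻¹) (b v) := by
    intro v
    have h1 : b * (a * b * a⁻¹) = (a * b * a⁻¹) * b := hcomm b hb _ hb'
    have h3 : (b * (a * b * a⁻¹)) v = ((a * b * a⁻¹) * b) v := by rw [h1]
    exact h3
  obtain ⟨x0, x1, hx⟩ := centr2 h2 (b : V →ₗ[ZMod p] V) ((a * b * a⁻¹ : V ≃ₗ[ZMod p] V) : V →ₗ[ZMod p] V)
    hns hcm
  have hx' : ∀ v, (a * b * a⁻¹) v = x0 • v + x1 • b v := hx
  have hconj : ∀ v, a (b v) = x0 • a v + x1 • b (a v) := by
    intro v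
    have h1 := hx' (a v)
    have h3 : (a * b * a⁻¹) (a v) = a (b v) := by
      show a (b (a⁻¹ (a v))) = a (b v)
      have h4 : a⁻¹ (a v) = v := a.symm_apply_apply v
      rw [h4]
    rw [h3] at h1
    exact h1
  have hrel : ∀ v, (x0 ^ 2 - x1 ^ 2 * d - t * x0 + d) • v + (2 * x0 * x1 + x1 ^ 2 * t - t * x1) • b v = 0 := by
    intro v
    obtain ⟨w, rfl⟩ := a.surjective v
    have h1 : a (b (b w)) = t • a (b w) - d • a w := by rw [hch, map_sub, map_smul, map_smul]
    rw [hconj (b w), hconj w, map_add, map_smul, map_smul, hch] at h1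
    have h3 : (x0 ^ 2 - x1 ^ 2 * d - t * x0 + d) • a w +
        (2 * x0 * x1 + x1 ^ 2 * t - t * x1) • b (a w) =
        (x0 • (x0 • a w + x1 • b (a w)) + x1 • (x0 • b (a w) + x1 • (t • b (a w) - d • a w))) -
        (t • (x0 • a w + x1 • b (a w)) - d • a w) := by module
    rw [h3, h1, sub_self]
  obtain ⟨r1, r2⟩ := hlin _ _ hrel
  have hx1 : x1 ≠ 0 := by
    intro h0
    apply hns
    refine ⟨x0, fun v => ?_⟩
    have h1 := hconj v
    rw [h0, zero_smul, add_zero, ← map_smul] at h1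
    exact a.injective h1
  have r3 : 2 * x0 + x1 * t - t = 0 := by
    have h1 : x1 * (2 * x0 + x1 * t - t) = 0 := by linear_combination r2
    rcases mul_eq_zero.1 h1 with h3 | h3
    · exact absurd h3 hx1
    · exact h3
  have r4 : (t ^ 2 - 4 * d) * (1 - x1 ^ 2) = 0 := by
    have h1 : 2 * x0 = t - x1 * t := by linear_combination r3
    linear_combination (-4) * r1 + (2 * x0 + (t - x1 * t) - 2 * t) * h1
  have hdisc : t ^ 2 - 4 * d ≠ 0 := by
    intro h0
    exact hns (L8_scal b (Nat.card B) h.cop (by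
      have h1 : (⟨b, hb⟩ : B) ^ Nat.card B = 1 := pow_card_eq_one'
      exact congrArg Subtype.val h1) h2ne h0 hch)
  have r5 : (1 - x1) * (1 + x1) = 0 := by
    rcases mul_eq_zero.1 r4 with h3 | h3
    · exact absurd h3 hdisc
    · linear_combination h3
  rcases mul_eq_zero.1 r5 with h3 | h3
  · left
    have hx1' : x1 = 1 := by linear_combination -h3
    have hx0 : x0 = 0 := by
      have h4 : 2 * x0 = 0 := by rw [hx1'] at r3; linear_combination r3
      rcases mul_eq_zero.1 h4 with h5 | h5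
      · exact absurd h5 h2ne
      · exact h5
    ext v
    show a (b v) = b (a v)
    rw [hconj, hx0, hx1', zero_smul, zero_add, one_smul]
  · right
    have hx1' : x1 = -1 := by linear_combination h3
    have hx0 : x0 = t := by
      have h4 : 2 * (x0 - t) = 0 := by rw [hx1'] at r3; linear_combination r3
      rcases mul_eq_zero.1 h4 with h5 | h5
      · exact absurd h5 h2ne
      · exact sub_eq_zero.1 h5
    intro v
    rw [hconj, hx0, hx1', neg_one_smul, sub_eq_add_neg]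

end FPX
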