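import Pool.Agent.FPX.L6

namespace FPX

variable {p : ℕ} [Fact p.Prime] {V : Type} [AddCommGroup V] [Module (ZMod p) V]

variable [Finite V] {A Γ : Subgroup (V ≃ₗ[ZMod p] V)} {a0 : V ≃ₗ[ZMod p] V}

theorem L9_mul {a c : V ≃ₗ[ZMod p] V} {b : V ≃ₗ[ZMod p] V} {t : ZMod p} {x y : Bool}
    (ha : ∀ v, a (b v) = if x then t • a v - b (a v) else b (a v))
    (hc : ∀ v, c (b v) = if y then t • c v - b (c v) else b (c v)) (v : V) :
    (a * c) (b v) = if xor x y then t • (a * c) v - b ((a * c) v) else b ((a * c) v) := by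
  have e1 : ∀ w, (a * c) w = a (c w) := fun w => rfl
  rw [e1, e1, hc]
  cases x <;> cases y
  · simpa using ha (c v)
  · have := ha (c v)
    simp only [Bool.false_eq_true, if_false] at this
    simp [this, map_sub, map_smul]
  · simpa using ha (c v)
  · have := ha (c v)
    simp only [if_true] at this
    simp [this, map_sub, map_smul]

theorem L9_inv {a : V ≃ₗ[ZMod p] V} {b : V ≃ₗ[ZMod p] V} {t : ZMod p} {x : Bool}
    (ha : ∀ v, a (b v) = if x then t • a v - b (a v) else b (a v)) (v : V) :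
    a⁻¹ (b v) = if x then t • a⁻¹ v - b (a⁻¹ v) else b (a⁻¹ v) := by
  have e1 : ∀ w, a (a⁻¹ w) = w := fun w => a.apply_symm_apply w
  have h1 := ha (a⁻¹ v)
  rw [e1] at h1
  apply a.injective
  rw [e1]
  cases x
  · simp only [Bool.false_eq_true, if_false] at h1 ⊢
    exact h1.symm
  · simp only [if_true] at h1 ⊢
    rw [map_sub, map_smul, e1, h1]
    abel

/-- Step (T4).  If `b ∈ Γ`, `b ≠ 1` and every `a ∈ A` satisfies `a b a⁻¹ = b` or
`a b a⁻¹ = t - b` (`t : ZMod p` fixed), then `Γ` commutes with `b`.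

Proof.  `a0` does not commute with `b` (`a0Γ`), so `a0 b a0⁻¹ = t - b`.  The map
`g ↦ g⁻¹ a0 g a0⁻¹` maps `Γ` to `Γ` (norm) and is injective: if
`g⁻¹ a0 g a0⁻¹ = k⁻¹ a0 k a0⁻¹` then `k g⁻¹` commutes with `a0`, so it is `1`.  `Γ` is finite, so
it is surjective.  It remains to see that `y = g⁻¹ a0 g a0⁻¹` commutes with `b`.  Call an element
`a` of `A` even if `a b a⁻¹ = b` and odd if `a b a⁻¹ = t - b`; if `a` is odd then
`a (t - b) a⁻¹ = t - (t - b) = b`.  So the product of two elements of the same kind is even, and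
of different kinds odd; the inverse is of the same kind.  So `y` is even. -/
theorem T4 (h : LAH p V A Γ a0) (b : V ≃ₗ[ZMod p] V) (hb : b ∈ Γ) (hb1 : b ≠ 1) (t : ZMod p)
    (hA : ∀ a ∈ A, a * b = b * a ∨ ∀ v, a (b v) = t • a v - b (a v)) :
    ∀ g ∈ Γ, g * b = b * g := by
  haveI : Finite (V ≃ₗ[ZMod p] V) :=
    Finite.of_injective (fun e : V ≃ₗ[ZMod p] V => (e : V → V)) DFunLike.coe_injective
  have kind : ∀ a ∈ A, ∃ x : Bool, ∀ v, a (b v) = if x then t • a v - b (a v) else b (a v) := by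
    intro a ha
    rcases hA a ha with h1 | h1
    · refine ⟨false, fun v => ?_⟩
      have h2 : (a * b) v = (b * a) v := by rw [h1]
      simpa using h2
    · refine ⟨true, fun v => ?_⟩
      simpa using h1 v
  have hinj : Function.Injective (fun g : Γ => (⟨(g : V ≃ₗ[ZMod p] V)⁻¹ * (a0 * g * a0⁻¹),
      Γ.mul_mem (Γ.inv_mem g.2) (h.norm a0 h.a0A g g.2)⟩ : Γ)) := by
    intro g k hgk
    have h1 : (g : V ≃ₗ[ZMod p] V)⁻¹ * (a0 * g * a0⁻¹) = (k : V ≃ₗ[ZMod p] V)⁻¹ * (a0 * k * a0⁻¹) :=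
      congrArg Subtype.val hgk
    have h2 : a0 * ((k : V ≃ₗ[ZMod p] V) * (g : V ≃ₗ[ZMod p] V)⁻¹) =
        ((k : V ≃ₗ[ZMod p] V) * (g : V ≃ₗ[ZMod p] V)⁻¹) * a0 := by
      have h3 : (k : V ≃ₗ[ZMod p] V) * ((g : V ≃ₗ[ZMod p] V)⁻¹ * (a0 * g * a0⁻¹)) * a0 *
          (g : V ≃ₗ[ZMod p] V)⁻¹ = (k : V ≃ₗ[ZMod p] V) * ((k : V ≃ₗ[ZMod p] V)⁻¹ * (a0 * k * a0⁻¹)) *
          a0 * (g : V ≃ₗ[ZMod p] V)⁻¹ := by rw [h1]
      have h4 : (k : V ≃ₗ[ZMod p] V) * ((g : V ≃ₗ[ZMod p] V)⁻¹ * (a0 * g * a0⁻¹)) * a0 *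
          (g : V ≃ₗ[ZMod p] V)⁻¹ = ((k : V ≃ₗ[ZMod p] V) * (g : V ≃ₗ[ZMod p] V)⁻¹) * a0 := by group
      have h5 : (k : V ≃ₗ[ZMod p] V) * ((k : V ≃ₗ[ZMod p] V)⁻¹ * (a0 * k * a0⁻¹)) *
          a0 * (g : V ≃ₗ[ZMod p] V)⁻¹ = a0 * ((k : V ≃ₗ[ZMod p] V) * (g : V ≃ₗ[ZMod p] V)⁻¹) := by group
      rw [← h5, ← h3, h4]
    have h3 := h.a0Γ _ (Γ.mul_mem k.2 (Γ.inv_mem g.2)) h2
    exact Subtype.ext (mul_inv_eq_one.1 h3).symm
  have hsurj := Finite.surjective_of_injective hinj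
  intro y hy
  obtain ⟨g, hg⟩ := hsurj ⟨y, hy⟩
  have hg' : (g : V ≃ₗ[ZMod p] V)⁻¹ * (a0 * g * a0⁻¹) = y := congrArg Subtype.val hg
  obtain ⟨x, hx⟩ := kind a0 h.a0A
  obtain ⟨z, hz⟩ := kind g (h.sub g.2)
  have h1 := L9_mul (L9_inv hz) (L9_mul (L9_mul hx hz) (L9_inv hx))
  rw [hg'] at h1
  have h2 : xor z (xor (xor x z) x) = false := by cases x <;> cases z <;> rfl
  rw [h2] at h1
  ext v
  simpa using h1 v

end FPX
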