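import Pool.Agent.FPX.L4a
import Pool.Agent.FPX.L4b
import Pool.Agent.FPX.L5
import Pool.Agent.FPX.L7
import Pool.Agent.FPX.L8
import Pool.Agent.FPX.L9
import Pool.Agent.FPX.L10
import Pool.Agent.FPX.L11
import Pool.Agent.FPX.L12

namespace FPX

variable {p : ℕ} [Fact p.Prime] {V : Type} [AddCommGroup V] [Module (ZMod p) V]

variable [Finite V] {A Γ : Subgroup (V ≃ₗ[ZMod p] V)} {a0 : V ≃ₗ[ZMod p] V}

/-- PROPOSITION LA.

Proof.  Take `B` from `exists_abelian`.  `2 ≤ dim V` by `H0`.  If `dim V ≥ 3`, take `c` from `H1`;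
by `H3a`, `H3b` and rank-nullity `dim V ≤ 2`, contradiction.  So `dim V = 2`; `p ≠ 2` by `p_ne_two`
(for `B`).  Take `b ∈ B`, `b ≠ 1`; `T3` gives the hypothesis of `T4` and `T5` (with
`t = tr b`, `LAH p V A Γ a0`).  Then `T4`, `T5`, `T6` give everything. -/
theorem LA (h : LAH p V A Γ a0) (hs : Group.IsSolvable Γ) (hne : Γ ≠ ⊥) :
    5 ≤ p ∧ Module.finrank (ZMod p) V = 2 ∧
    (∀ g ∈ Γ, ∀ g' ∈ Γ, g * g' = g' * g) ∧
    (∀ g ∈ Γ, ∃ τ : ZMod p, ∀ v, g v + g⁻¹ v = τ • v) ∧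
    (∀ g ∈ Γ, g ≠ 1 → ∀ v, g v = v → v = 0) ∧
    (∀ g ∈ Γ, g ^ 2 = 1 → g = 1) ∧
    (∀ a ∈ A, (∀ g ∈ Γ, a * g = g * a) ∨ (∀ g ∈ Γ, a * g = g⁻¹ * a)) := by
  obtain ⟨B, hBΓ, hB, hcomm, hBA⟩ := exists_abelian h hs hne
  have hge : 2 ≤ Module.finrank (ZMod p) V := H0 hBA hB
  have hdim : Module.finrank (ZMod p) V = 2 := by
    by_contra hne2
    obtain ⟨c, hc, hc1, hfix⟩ := H1 hBA hB (by omega)
    have h1 := H3a hBA hcomm c hc hfix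
    have h2 := H3b hBA hcomm c hc hc1
    have h3 := LinearMap.finrank_range_add_finrank_ker
      ((c : V →ₗ[ZMod p] V) - LinearMap.id)
    omega
  have hp2 : p ≠ 2 := by
    rintro rfl
    exact p_ne_two hBA hdim hB
  obtain ⟨b, hb, hb1⟩ : ∃ b ∈ B, b ≠ 1 := by
    by_contra hcon
    apply hB
    rw [Subgroup.eq_bot_iff_forall]
    intro x hx
    by_contra hx1
    exact hcon ⟨x, hx, hx1⟩
  have hA := fun a ha => T3 hBA hcomm hdim hp2 b hb hb1 a ha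
  have hΓ := T4 h b (hBΓ hb) hb1 _ hA
  obtain ⟨g1, g2, g3, g4⟩ := T5 h hdim b (hBΓ hb) hb1 hA hΓ
  obtain ⟨g5, g6, g7⟩ := T6 h hne hp2 g2 g4
  exact ⟨g5, hdim, g1, g2, g6, g7, g3⟩

end FPX
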