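import Pool.Agent.FPX.Defs

namespace FPX

/-- the transvection `v ↦ v + φ v • t` is in `A` -/
def L16_In {p : ℕ} {T : Type} [AddCommGroup T] [Module (ZMod p) T]
    (A : Subgroup (T ≃ₗ[ZMod p] T)) (φ : Module.Dual (ZMod p) T) (t : T) : Prop :=
  ∃ a ∈ A, ∀ v, a v = v + φ v • t

section

variable {p : ℕ} [Fact p.Prime] {T : Type} [AddCommGroup T] [Module (ZMod p) T]
  {A : Subgroup (T ≃ₗ[ZMod p] T)}

theorem L16_ex {φ : Module.Dual (ZMod p) T} (hφ : φ ≠ 0)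
    (h : ∃ a ∈ A, ∀ v, a v = v ↔ φ v = 0) : ∃ t, t ≠ 0 ∧ L16_In A φ t := by
  obtain ⟨a, ha, hav⟩ := h
  obtain ⟨e, he⟩ : ∃ e, φ e ≠ 0 := by
    by_contra hcon
    push Not at hcon
    exact hφ (LinearMap.ext hcon)
  refine ⟨(φ e)⁻¹ • (a e - e), ?_, a, ha, ?_⟩
  · intro h0
    rcases smul_eq_zero.1 h0 with h1 | h1
    · exact inv_ne_zero he h1
    · exact he ((hav e).1 (sub_eq_zero.1 h1))
  · intro v
    have h1 : φ (v - (φ v * (φ e)⁻¹) • e) = 0 := by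
      rw [map_sub, map_smul, smul_eq_mul, mul_assoc, inv_mul_cancel₀ he, mul_one, sub_self]
    have h2 := (hav _).2 h1
    rw [map_sub, map_smul] at h2
    rw [smul_smul, smul_sub]
    have h3 : a v = v - (φ v * (φ e)⁻¹) • e + (φ v * (φ e)⁻¹) • a e := by
      rw [← h2]
      abel
    rw [h3]
    abel

theorem L16_zero (φ : Module.Dual (ZMod p) T) : L16_In A φ 0 :=
  ⟨1, A.one_mem, fun v => by
    rw [smul_zero, add_zero]
    rfl⟩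

theorem L16_add {φ : Module.Dual (ZMod p) T} {s t : T} (hs0 : φ s = 0)
    (ht : L16_In A φ t) (hs : L16_In A φ s) : L16_In A φ (t + s) := by
  obtain ⟨a, ha, hav⟩ := ht
  obtain ⟨b, hb, hbv⟩ := hs
  refine ⟨a * b, A.mul_mem ha hb, fun v => ?_⟩
  rw [LinearEquiv.mul_apply, hbv, hav, map_add, map_smul, hs0, smul_zero, add_zero, smul_add]
  abel

theorem L16_nsmul {φ : Module.Dual (ZMod p) T} {t : T} (ht0 : φ t = 0)
    (ht : L16_In A φ t) (n : ℕ) : L16_In A φ (n • t) := by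
  induction n with
  | zero =>
    rw [zero_smul]
    exact L16_zero φ
  | succ n ih =>
    rw [succ_nsmul]
    exact L16_add ht0 ih ht

theorem L16_smul {φ : Module.Dual (ZMod p) T} {t : T} (ht0 : φ t = 0)
    (ht : L16_In A φ t) (k : ZMod p) : L16_In A φ (k • t) := by
  have h1 := L16_nsmul ht0 ht k.val
  have h2 : k.val • t = k • t := by
    rw [← Nat.cast_smul_eq_nsmul (ZMod p), ZMod.natCast_zmod_val]
  rwa [h2] at h1

end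

/-- LEMMA L.  `p` odd, `A` a group of automorphisms of `T ≠ 0` such that the kernel of every nonzero
functional is the fixed space of an element of `A`.  Then some element of `A` has an eigenvalue
`c ≠ 1` in `F_p`.

Proof.  An `a` with fixed space `ker φ` has the form `a v = v + φ(v) t`, `t ≠ 0`.  If `φ(t) ≠ 0` then
`a t = (1 + φ(t)) t` and we are done.  So suppose that `φ(t) = 0` whenever `v ↦ v + φ(v) t` is in `A`
with `φ ≠ 0`, `t ≠ 0`.  For `φ ≠ 0` let `X φ = {t : (v ↦ v + φ(v) t) ∈ A}`: it is an additive subgroup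
(so a subspace) of `ker φ`, and it is not `0`.  Choose `φ₁ ≠ 0` with `|X φ₁|` minimal,
`t₁ ∈ X φ₁`, `t₁ ≠ 0` and a functional `φ₂` with `a := φ₂(t₁) ≠ 0`.
Case 1: there is `t₂ ∈ X φ₂` with `b := φ₁(t₂) ≠ 0`.  Put `k = -4/(a b)`, so `k t₂ ∈ X φ₂`.  The
element `g = (1 + φ₁ ⊗ t₁)(1 + φ₂ ⊗ k t₂)` of `A` satisfies `g t₁ = (1 + k a b) t₁ + k a t₂
= -3 t₁ + k a t₂` and `g t₂ = t₂ + b t₁` (`φ₁(t₁) = 0`, `φ₂(t₂) = 0`), so
`g (b t₁ + 2 t₂) = -b t₁ + (k a b + 2) t₂ = -(b t₁ + 2 t₂)`, and `b t₁ + 2 t₂ ≠ 0` because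
`φ₂(b t₁ + 2 t₂) = a b ≠ 0`.  The eigenvalue `-1` is not `1`.
Case 2: `φ₁(t₂) = 0` for all `t₂ ∈ X φ₂`.  Put `N₁ v = φ₁(v) t₁`, `N₂ v = φ₂(v) t₂`; then
`N₁ N₂ = 0`, `N₁ ^ 2 = N₂ ^ 2 = 0`, `N₂ N₁ v = a φ₁(v) t₂`, and
`1 + N₁ + N₂ = (1 - N₂ N₁)(1 + N₁ + N₂ + N₂ N₁)`, that is
`(1 + N₁)(1 + N₂) = (1 - N₂ N₁)(1 + N₂)(1 + N₁)`.  So `1 - N₂ N₁ ∈ A`, `-a t₂ ∈ X φ₁`, `t₂ ∈ X φ₁`.
So `X φ₂ ≤ X φ₁`, and by minimality they are equal; `t₁ ∈ X φ₂ ≤ ker φ₂`, contradiction. -/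
theorem lemL {p : ℕ} [Fact p.Prime] (hp : p ≠ 2) {T : Type} [AddCommGroup T]
    [Module (ZMod p) T] [Finite T] [Nontrivial T] (A : Subgroup (T ≃ₗ[ZMod p] T))
    (h : ∀ φ : Module.Dual (ZMod p) T, φ ≠ 0 → ∃ a ∈ A, ∀ v, a v = v ↔ φ v = 0) :
    ∃ a ∈ A, ∃ c : ZMod p, c ≠ 1 ∧ ∃ v, v ≠ 0 ∧ a v = c • v := by
  classical
  by_contra hcon
  push Not at hcon
  have hno : ∀ a ∈ A, ∀ c : ZMod p, ∀ v, v ≠ 0 → a v = c • v → c = 1 := by
    intro a ha c v hv hav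
    by_contra hc
    exact hcon a ha c hc v hv hav
  have hself : ∀ (φ : Module.Dual (ZMod p) T) (t : T), L16_In A φ t → φ t = 0 := by
    rintro φ t ⟨a, ha, hav⟩
    by_cases ht : t = 0
    · rw [ht, map_zero]
    · have h1 := hno a ha (1 + φ t) t ht (by rw [hav, add_smul, one_smul])
      linear_combination h1
  have hdual : ∀ t : T, t ≠ 0 → ∃ φ : Module.Dual (ZMod p) T, φ t ≠ 0 := by
    intro t ht
    obtain ⟨φ, hφ, -⟩ := Submodule.exists_le_ker_of_notMem (K := ZMod p)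
      (p := (⊥ : Submodule (ZMod p) T)) (v := t) (by
        rw [Submodule.mem_bot]
        exact ht)
    exact ⟨φ, hφ⟩
  have hmin : ∃ φ₁ : Module.Dual (ZMod p) T, φ₁ ≠ 0 ∧ ∀ φ : Module.Dual (ZMod p) T, φ ≠ 0 →
      {t | L16_In A φ₁ t}.ncard ≤ {t | L16_In A φ t}.ncard := by
    have hex : ∃ n : ℕ, ∃ φ : Module.Dual (ZMod p) T, φ ≠ 0 ∧ {t | L16_In A φ t}.ncard = n := by
      obtain ⟨t, ht⟩ := exists_ne (0 : T)
      obtain ⟨φ, hφ⟩ := hdual t ht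
      exact ⟨_, φ, fun h0 => hφ (by rw [h0]; rfl), rfl⟩
    obtain ⟨φ₁, h1, h2⟩ := Nat.find_spec hex
    refine ⟨φ₁, h1, fun φ hφ => ?_⟩
    rw [h2]
    exact Nat.find_min' hex ⟨φ, hφ, rfl⟩
  obtain ⟨φ₁, hφ₁, hmin⟩ := hmin
  obtain ⟨t₁, ht₁, hI₁⟩ := L16_ex hφ₁ (h φ₁ hφ₁)
  obtain ⟨φ₂, ha⟩ := hdual t₁ ht₁
  have hφ₂ : φ₂ ≠ 0 := by
    rintro rfl
    exact ha rfl
  have h11 : φ₁ t₁ = 0 := hself φ₁ t₁ hI₁
  by_cases hcase : ∃ t₂, L16_In A φ₂ t₂ ∧ φ₁ t₂ ≠ 0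
  · obtain ⟨t₂, hI₂, hb⟩ := hcase
    have h22 : φ₂ t₂ = 0 := hself φ₂ t₂ hI₂
    obtain ⟨g₁, hg₁, hg₁v⟩ := hI₁
    obtain ⟨g₂, hg₂, hg₂v⟩ := L16_smul h22 hI₂ (-4 / (φ₂ t₁ * φ₁ t₂))
    have hv0 : φ₁ t₂ • t₁ + (2 : ZMod p) • t₂ ≠ 0 := by
      intro h0
      have h3 := congrArg φ₂ h0
      rw [map_add, map_smul, map_smul, h22, smul_zero, add_zero, map_zero, smul_eq_mul] at h3
      exact mul_ne_zero hb ha h3
    have hk : (-4 / (φ₂ t₁ * φ₁ t₂)) * (φ₂ t₁ * φ₁ t₂) = -4 :=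
      div_mul_cancel₀ _ (mul_ne_zero ha hb)
    have h3 := hno (g₁ * g₂) (A.mul_mem hg₁ hg₂) (-1) (φ₁ t₂ • t₁ + (2 : ZMod p) • t₂) hv0 (by
      rw [LinearEquiv.mul_apply, hg₂v, hg₁v]
      simp only [map_add, map_smul, h11, h22, smul_eq_mul, mul_zero, zero_add, add_zero]
      generalize (-4 / (φ₂ t₁ * φ₁ t₂)) = k at hk
      have e1 : (φ₁ t₂ * φ₂ t₁ * (k * φ₁ t₂)) = -4 * φ₁ t₂ := by
        linear_combination φ₁ t₂ * hk
      have e2 : φ₁ t₂ * φ₂ t₁ * k = -4 := by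
        linear_combination hk
      rw [smul_smul, e2]
      have e3 : 2 * φ₁ t₂ + φ₁ t₂ * φ₂ t₁ * (k * φ₁ t₂) = -2 * φ₁ t₂ := by
        rw [e1]
        ring
      rw [e3]
      module)
    have h4 : (2 : ZMod p) = 0 := by linear_combination -h3
    have h5 : ((2 : ℕ) : ZMod p) = 0 := by exact_mod_cast h4
    rw [ZMod.natCast_eq_zero_iff] at h5
    have h6 := (Fact.out : p.Prime).two_le
    exact hp (le_antisymm (Nat.le_of_dvd two_pos h5) h6)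
  · push Not at hcase
    have hsub : {t | L16_In A φ₂ t} ⊆ {t | L16_In A φ₁ t} := by
      intro t₂ hI₂
      have hI₂' : L16_In A φ₂ t₂ := hI₂
      have h12 : φ₁ t₂ = 0 := hcase t₂ hI₂'
      obtain ⟨g₁, hg₁, hg₁v⟩ := hI₁
      obtain ⟨g₂, hg₂, hg₂v⟩ := hI₂'
      have h3 : L16_In A φ₁ (φ₂ t₁ • t₂) := by
        refine ⟨g₂ * g₁ * (g₁ * g₂)⁻¹,
          A.mul_mem (A.mul_mem hg₂ hg₁) (A.inv_mem (A.mul_mem hg₁ hg₂)), fun v => ?_⟩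
        obtain ⟨w, rfl⟩ : ∃ w, (g₁ * g₂) w = v := ⟨(g₁ * g₂)⁻¹ v, by
          rw [← LinearEquiv.mul_apply, mul_inv_cancel]
          rfl⟩
        have h4 : (g₁ * g₂)⁻¹ ((g₁ * g₂) w) = w := by
          rw [← LinearEquiv.mul_apply, inv_mul_cancel]
          rfl
        rw [LinearEquiv.mul_apply, h4, LinearEquiv.mul_apply, LinearEquiv.mul_apply, hg₁v, hg₂v,
          hg₂v, hg₁v]
        simp only [map_add, map_smul, h11, h12, smul_eq_mul, mul_zero, add_zero]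
        module
      have h5 := L16_smul (hself _ _ h3) h3 (φ₂ t₁)⁻¹
      rw [smul_smul, inv_mul_cancel₀ ha, one_smul] at h5
      exact h5
    have heq := Set.eq_of_subset_of_ncard_le hsub (hmin φ₂ hφ₂) (Set.toFinite _)
    have h3 : t₁ ∈ {t | L16_In A φ₁ t} := hI₁
    rw [← heq] at h3
    exact ha (hself φ₂ t₁ h3)

end FPX
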