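import Pool.Agent.FPX.L2
import Pool.Agent.FPX.L3

namespace FPX

variable {p : ℕ} [Fact p.Prime] {V : Type} [AddCommGroup V] [Module (ZMod p) V]

variable [Finite V] {A B : Subgroup (V ≃ₗ[ZMod p] V)} {a0 : V ≃ₗ[ZMod p] V}

omit [Finite V] in
theorem L4a_mem (c : V ≃ₗ[ZMod p] V) (m : V) :
    m ∈ LinearMap.range ((c : V →ₗ[ZMod p] V) - LinearMap.id) ↔ ∃ v, c v - v = m := by
  rw [LinearMap.mem_range]
  rfl

omit [Finite V] in
theorem L4a_phi (c : V ≃ₗ[ZMod p] V) (n : ℕ) (hn : n.Coprime p) (hc : c ^ n = 1)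
    (hfix : ∃ v, v ≠ 0 ∧ c v = v)
    (ψ : Module.Dual (ZMod p) (LinearMap.range ((c : V →ₗ[ZMod p] V) - LinearMap.id)))
    (hψ : ψ ≠ 0) : ∃ φ : Module.Dual (ZMod p) V,
      (∀ m : LinearMap.range ((c : V →ₗ[ZMod p] V) - LinearMap.id), φ (m : V) = ψ m) ∧
      (∃ v, c v = v ∧ φ v ≠ 0) ∧ ∃ v, φ (c v - v) ≠ 0 := by
  obtain ⟨ψ', hψ'⟩ := LinearMap.exists_extend ψ
  have h1 : ∀ m : LinearMap.range ((c : V →ₗ[ZMod p] V) - LinearMap.id), ψ' (m : V) = ψ m :=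
    fun m => LinearMap.congr_fun hψ' m
  have h2 : ∀ φ : Module.Dual (ZMod p) V,
      (∀ m : LinearMap.range ((c : V →ₗ[ZMod p] V) - LinearMap.id), φ (m : V) = ψ m) →
      ∃ v, φ (c v - v) ≠ 0 := by
    intro φ hφ
    by_contra hcon
    push Not at hcon
    apply hψ
    ext m
    obtain ⟨v, hv⟩ := (L4a_mem c m).1 m.2
    rw [← hφ m, ← hv, hcon]
    rfl
  obtain ⟨v0, hv0, hcv0⟩ := hfix
  by_cases h3 : ψ' v0 = 0
  · have h4 : v0 ∉ LinearMap.range ((c : V →ₗ[ZMod p] V) - LinearMap.id) := by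
      intro h5
      obtain ⟨w, hw⟩ := (L4a_mem c v0).1 h5
      have h6 := semis1 c n hn hc w (by rw [hw, hcv0])
      apply hv0
      rw [← hw, h6, sub_self]
    obtain ⟨θ, hθ, hθ'⟩ := Submodule.exists_le_ker_of_notMem h4
    refine ⟨ψ' + θ, ?_, ⟨v0, hcv0, ?_⟩, ?_⟩
    · intro m
      have h5 : θ (m : V) = 0 := hθ' m.2
      rw [LinearMap.add_apply, h5, add_zero, h1]
    · rw [LinearMap.add_apply, h3, zero_add]
      exact hθ
    · apply h2
      intro m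
      have h5 : θ (m : V) = 0 := hθ' m.2
      rw [LinearMap.add_apply, h5, add_zero, h1]
  · exact ⟨ψ', h1, ⟨v0, hcv0, h3⟩, h2 ψ' h1⟩

omit [Finite V] in
theorem L4a_card {c : V ≃ₗ[ZMod p] V} (hc : c ∈ B) :
    c ^ (Nat.card B) = 1 := by
  have h1 : (⟨c, hc⟩ : B) ^ (Nat.card B) = 1 := pow_card_eq_one'
  exact congrArg Subtype.val h1

/-- Step (H3a): if `c ∈ B`, `c ≠ 1` has a nonzero fixed vector then `M = range (c - 1)` has dimension
at most `1`.

Proof.  Suppose `dim M ≥ 2`.  `V = F ⊕ M` (`F = ker (c - 1) ≠ 0`; L1).  Let `ψ` be any nonzero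
functional on `M`, `η` a nonzero functional on `F` and `φ := η ∘ pr_F + ψ ∘ pr_M`.  By `H2` there
is `c' ∈ B` with `M ∩ M' = M ∩ ker φ = ker ψ`, where `M' = range (c' - 1)`.  `M` and `M'` are
`B`-invariant (`B` is commutative), so `ker ψ` is `B`-invariant.  This holds for every `ψ`, so by L2
every element of `B` is a scalar on `M`.  Now fix one `ψ ≠ 0` and the corresponding `c'`:
there is a nonzero vector of `M` fixed by `c'` (last part of `H2`), so the scalar of `c'` is `1`: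
`c' = 1` on `M`.  But `M ∩ M' = ker ψ ≠ 0` (`dim M ≥ 2`), and a vector `m ∈ M ∩ M'`, `m ≠ 0`,
`m = c' w - w`, `c' m = m` contradicts `semis1` (it gives `c' w = w`, `m = 0`). -/
theorem H3a (h : LAH p V A B a0) (hcomm : ∀ b ∈ B, ∀ c ∈ B, b * c = c * b)
    (c : V ≃ₗ[ZMod p] V) (hc : c ∈ B) (hfix : ∃ v, v ≠ 0 ∧ c v = v) :
    Module.finrank (ZMod p) (LinearMap.range ((c : V →ₗ[ZMod p] V) - LinearMap.id)) ≤ 1 := by
  by_contra hcon
  rw [not_le] at hcon
  have hpow : ∀ b ∈ B, b ^ (Nat.card B) = 1 := fun b hb => L4a_card hb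
  have hinv : ∀ c₁ ∈ B, ∀ b ∈ B, ∀ m, (∃ v, c₁ v - v = m) → ∃ v, c₁ v - v = b m := by
    rintro c₁ hc₁ b hb m ⟨v, rfl⟩
    refine ⟨b v, ?_⟩
    have h1 : c₁ (b v) = b (c₁ v) := by
      have h2 := hcomm c₁ hc₁ b hb
      exact LinearEquiv.congr_fun h2 v
    rw [h1, map_sub]
  set M := LinearMap.range ((c : V →ₗ[ZMod p] V) - LinearMap.id) with hM
  have hbM : ∀ b ∈ B, ∀ m ∈ M, b m ∈ M := by
    intro b hb m hm
    exact (L4a_mem c _).2 (hinv c hc b hb m ((L4a_mem c m).1 hm))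
  have hscal : ∀ b ∈ B, ∃ s : ZMod p, ∀ m ∈ M, b m = s • m := by
    intro b hb
    obtain ⟨s, hs⟩ := scalar_of_ker
      ((b : V →ₗ[ZMod p] V).restrict (p := M) (q := M) (fun m hm => hbM b hb m hm)) (by
      intro ψ m hm
      by_cases hψ : ψ = 0
      · rw [hψ]
        rfl
      obtain ⟨φ, h1, h2, h3⟩ := L4a_phi c _ h.cop (hpow c hc) hfix ψ hψ
      obtain ⟨c', hc', h4, h5, h6⟩ := H2 h hcomm c hc φ h2 h3
      obtain ⟨v, hv⟩ := (L4a_mem c m).1 m.2
      have h7 : ∃ w, c' w - w = (m : V) := by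
        rw [← hv, h5, hv, h1]
        exact hm
      obtain ⟨w, hw⟩ := hinv c' hc' b hb m h7
      obtain ⟨v', hv'⟩ := (L4a_mem c (b m)).1 (hbM b hb m m.2)
      have h8 := (h5 v').1 ⟨w, by rw [hw, hv']⟩
      rw [hv'] at h8
      have h9 := h1 ⟨b m, hbM b hb m m.2⟩
      rw [h8] at h9
      exact h9.symm)
    refine ⟨s, fun m hm => ?_⟩
    exact congrArg Subtype.val (hs ⟨m, hm⟩)
  have hfin : Module.Finite (ZMod p) M := inferInstance
  have hne : ∃ ψ : Module.Dual (ZMod p) M, ψ ≠ 0 := by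
    have h1 : Nontrivial M := Module.nontrivial_of_finrank_pos (R := ZMod p) (by omega)
    obtain ⟨m, hm⟩ := exists_ne (0 : M)
    obtain ⟨ψ, hψ, -⟩ := Submodule.exists_le_ker_of_notMem (K := ZMod p)
      (p := (⊥ : Submodule (ZMod p) M)) (v := m) (by
        rw [Submodule.mem_bot]
        exact hm)
    exact ⟨ψ, fun h => hψ (by rw [h]; rfl)⟩
  obtain ⟨ψ, hψ⟩ := hne
  obtain ⟨φ, h1, h2, h3⟩ := L4a_phi c _ h.cop (hpow c hc) hfix ψ hψ
  obtain ⟨c', hc', h4, h5, v, hv, hv'⟩ := H2 h hcomm c hc φ h2 h3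
  obtain ⟨s, hs⟩ := hscal c' hc'
  have hs1 : s = 1 := by
    have h6 := hs (c v - v) ((L4a_mem c _).2 ⟨v, rfl⟩)
    rw [hv'] at h6
    have h7 : (s - 1) • (c v - v) = 0 := by
      rw [sub_smul, one_smul, ← h6, sub_self]
    rcases smul_eq_zero.1 h7 with h8 | h8
    · exact sub_eq_zero.1 h8
    · exact absurd (sub_eq_zero.1 h8) hv
  obtain ⟨m, hm0, hmψ⟩ : ∃ m : M, m ≠ 0 ∧ ψ m = 0 := by
    by_contra hno
    push Not at hno
    have hinj : Function.Injective ψ := by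
      rw [injective_iff_map_eq_zero]
      intro m hm
      by_contra hm0
      exact hno m hm0 hm
    have h6 := LinearMap.finrank_le_finrank_of_injective (f := ψ) hinj
    rw [Module.finrank_self] at h6
    omega
  obtain ⟨u, hu⟩ := (L4a_mem c m).1 m.2
  have h6 : ∃ w, c' w - w = (m : V) := by
    rw [← hu, h5, hu, h1]
    exact hmψ
  obtain ⟨w, hw⟩ := h6
  have h7 : c' (m : V) = m := by
    rw [hs m m.2, hs1, one_smul]
  have h8 := semis1 c' _ h.cop (hpow c' hc') w (by rw [hw, h7])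
  apply hm0
  apply Subtype.ext
  rw [← hw, h8, sub_self]
  rfl

end FPX
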