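import Pool.Agent.FPX.A6
import Pool.Agent.FPX.E0
import Pool.Agent.FPX.S5
import Pool.Agent.FPX.S6

namespace FPX

variable {G : Type} [Group G] [Finite G]

theorem Q1_fz {p r : ℕ} [Fact p.Prime] {P W : Subgroup G} {x : G}
    {V : Type} [AddCommGroup V] [Module (ZMod p) V] {f : V → G}
    {ρ : MulAut G →* (V ≃ₗ[ZMod p] V)} {X : V ≃ₗ[ZMod p] V} (h : Ctx p r P W x V f ρ X) (i : ℤ)
    (v : V) : f ((i : ZMod p) • v) = (f v) ^ i := by
  rw [Int.cast_smul_eq_zsmul]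
  exact map_zpow (MonoidHom.mk' (fun u : Multiplicative V => f (Multiplicative.toAdd u))
    (fun a b => h.mod.add _ _)) (Multiplicative.ofAdd v) i

/-- the intersection with `W` of the subgroup generated by `f w` and a normal subgroup `C` with
`C ∩ W = 1` -/
theorem Q1_line {p r : ℕ} [Fact p.Prime] {P W : Subgroup G} {x : G}
    {V : Type} [AddCommGroup V] [Module (ZMod p) V] {f : V → G}
    {ρ : MulAut G →* (V ≃ₗ[ZMod p] V)} {X : V ≃ₗ[ZMod p] V} (h : Ctx p r P W x V f ρ X)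
    (C : Subgroup G) (hC : C.Normal) (hCW : C ⊓ W = ⊥) (w v : V) :
    f v ∈ Subgroup.zpowers (f w) ⊔ C ↔ ∃ c : ZMod p, v = c • w := by
  have hfW : ∀ u, f u ∈ W := fun u => (h.mod.mem _).mpr ⟨u, rfl⟩
  rw [Subgroup.mem_sup_of_normal_right]
  constructor
  · rintro ⟨y, hy, z, hz, hyz⟩
    obtain ⟨i, rfl⟩ := Subgroup.mem_zpowers_iff.mp hy
    refine ⟨(i : ZMod p), ?_⟩
    have h1 : z ∈ W := by
      have h2 : z = ((f w) ^ i)⁻¹ * f v := by rw [← hyz, inv_mul_cancel_left]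
      rw [h2]
      exact W.mul_mem (W.inv_mem (W.zpow_mem (hfW w) i)) (hfW v)
    have h3 : z ∈ C ⊓ W := ⟨hz, h1⟩
    rw [hCW, Subgroup.mem_bot] at h3
    apply h.mod.inj
    rw [Q1_fz h, ← hyz, h3, mul_one]
  · rintro ⟨c, rfl⟩
    refine ⟨f w ^ (c.val : ℤ), Subgroup.zpow_mem _ (Subgroup.mem_zpowers _) _, 1, C.one_mem, ?_⟩
    rw [mul_one, ← Q1_fz h, Int.cast_natCast, ZMod.natCast_zmod_val]

/-- (3.1), first part.  `C` is the normal `p`-complement of `cen W`; it is an `r`-group.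
Proof: `exists_C` for `P = W`; `|C|` divides `|G| = p ^ 2 r ^ k` and is prime to `p`. -/
theorem q1a {p r : ℕ} {W : Subgroup G} {x : G} (h : Typ p r W x) :
    ∃ C : Subgroup G, C.Characteristic ∧ IsPGroup r C ∧ C ≤ cen W ∧ C ⊓ W = ⊥ ∧
      ∀ d ∈ cen W, ∃ w ∈ W, ∃ c ∈ C, d = w * c := by
  obtain ⟨C, hC, h1, h2, h3, h4⟩ := exists_C h.sit.syl
  refine ⟨C, hC, ?_, h2, h1, ?_⟩
  · obtain ⟨k, hk⟩ := h.rgp
    have h5 : Nat.card C ∣ p ^ 2 * r ^ k := by
      rw [← h.sit.Wcard, ← hk, W.card_mul_index]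
      exact Subgroup.card_subgroup_dvd_card C
    have h6 : Nat.card C ∣ r ^ k := (Nat.Coprime.pow_right 2 h3).dvd_of_dvd_mul_left h5
    obtain ⟨j, -, hj⟩ := (Nat.dvd_prime_pow h.sit.rprime).mp h6
    exact IsPGroup.of_card hj
  · intro d hd
    obtain ⟨z, hz, -, c, hc, e⟩ := h4 d hd
    exact ⟨z, hz, c, hc, e⟩

/-- (3.1), second part.

Proof.  `exists_ctx`, `w` with `NI X w`, `H = zpowers (f w) ⊔ C`: `H ∩ W` is the line of `w`
(an element `w' c ∈ W` has `c ∈ W ∩ C = 1`).  `Ctx.line` gives `α` with fixed points `H`, so the identity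
on `C`, and `x * α x ∈ cen W`, so `g * α g ∈ cen W` for all `g` (`Sit.sgn_all`; the two cases exclude
each other by `Sit.sq`).  `g⁻¹ * α g ∈ cen C` (`fixed_cen` for `C`, normal).  `N = C ⊔ cen C` is
normal (or just a subgroup, `C` normal) and contains `W` (`C ≤ cen W`) and `cen W = W C`.  So
`g ^ 2 = (g * α g) * (g⁻¹ * α g)⁻¹` is in `cen W * cen C ≤ N`, up to order of the factors
(`cen W` and `cen C` are normal subgroups contained in `N`).  `g ^ r ∈ cen W ≤ N` and `r` is odd, so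
`g ∈ N`. -/
theorem q1b (hF : PF G) {p r : ℕ} {W : Subgroup G} {x : G} (h : Typ p r W x)
    {C : Subgroup G} (hC : C.Characteristic) (hCW : C ≤ cen W) (hCW' : C ⊓ W = ⊥)
    (hd : ∀ d ∈ cen W, ∃ w ∈ W, ∃ c ∈ C, d = w * c) :
    ∃ α : MulAut G, (∀ c ∈ C, α c = c) ∧ (∀ g : G, g * α g ∈ cen W) ∧
      ∀ g : G, ∃ c ∈ C, ∃ y ∈ cen C, g = c * y := by
  have hs := h.sit
  have : Fact p.Prime := ⟨hs.syl.prime⟩
  have hCn : C.Normal := inferInstance
  obtain ⟨V, i1, i2, i3, f, ρ, X, hc⟩ := exists_ctx hs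
  obtain ⟨w, hw⟩ := hc.pl.exists_ni (hc.ns hF)
  obtain ⟨α, hα, hα2, -⟩ := hc.line hF _ w hw (Q1_line hc C hCn hCW' w)
  have hαC : ∀ c ∈ C, α c = c := fun c hcC => (hα c).mpr (Subgroup.mem_sup_right hcC)
  have h1 := (hc.neg α).mpr hα2
  have hall : ∀ g : G, g * α g ∈ cen W := by
    rcases hs.sgn_all α with h2 | h2
    · exfalso
      apply hs.xnot
      apply hs.sq
      have h4 : x * x = (x * α x) * (x⁻¹ * α x)⁻¹ := by group
      rw [h4]
      exact (cen W).mul_mem h1 ((cen W).inv_mem (h2 x))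
    · exact h2
  refine ⟨α, hαC, hall, fun g => ?_⟩
  have hWN : W ≤ C ⊔ cen C := by
    intro a ha
    apply Subgroup.mem_sup_right
    rw [Subgroup.mem_centralizer_iff]
    intro c hcC
    exact (Subgroup.mem_centralizer_iff.mp (hCW hcC) a ha).symm
  have hDN : cen W ≤ C ⊔ cen C := by
    intro d hdW
    obtain ⟨a, ha, c, hcC, rfl⟩ := hd d hdW
    exact Subgroup.mul_mem _ (hWN ha) (Subgroup.mem_sup_left hcC)
  have h5 : g⁻¹ * α g ∈ C ⊔ cen C := Subgroup.mem_sup_right (fixed_cen hCn α hαC g)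
  have h6 : g ^ 2 ∈ C ⊔ cen C := by
    have h4 : g ^ 2 = (g * α g) * (g⁻¹ * α g)⁻¹ := by rw [pow_two]; group
    rw [h4]
    exact Subgroup.mul_mem _ (hDN (hall g)) (Subgroup.inv_mem _ h5)
  have h7 : g ^ r ∈ C ⊔ cen C := hDN (hs.pow_mem g)
  obtain ⟨q, hq⟩ := hs.rprime.odd_of_ne_two hs.r2
  have h8 : g ∈ C ⊔ cen C := by
    have h9 : g = g ^ r * ((g ^ 2) ^ q)⁻¹ := by
      rw [hq, pow_succ, pow_mul, mul_assoc]
      rw [← (Commute.refl g).pow_left 2 |>.pow_left q |>.inv_left |>.eq]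
      rw [mul_inv_cancel_left]
    rw [h9]
    exact Subgroup.mul_mem _ h7 (Subgroup.inv_mem _ (Subgroup.pow_mem _ h6 q))
  rw [Subgroup.mem_sup_of_normal_left] at h8
  obtain ⟨c, hcC, y, hy, e⟩ := h8
  exact ⟨c, hcC, y, hy, e.symm⟩

end FPX
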