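import Pool.Agent.FPX.Defs2
import Pool.Agent.FPX.L6

namespace FPX

variable {G : Type} [Group G] [Finite G]

theorem q11_add {H : Type} [Group H] {p : ℕ} [Fact p.Prime] {w : H} (hw : w ^ p = 1) (a b : ZMod p) :
    w ^ (a + b).val = w ^ a.val * w ^ b.val := by
  rw [ZMod.val_add, ← pow_eq_pow_mod _ hw, pow_add]

theorem q11_mul {H : Type} [Group H] {p : ℕ} [Fact p.Prime] {w : H} (hw : w ^ p = 1) (a b : ZMod p) :
    w ^ (a * b).val = (w ^ a.val) ^ b.val := by
  rw [ZMod.val_mul, ← pow_eq_pow_mod _ hw, pow_mul]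

theorem q11_neg {H : Type} [Group H] {p : ℕ} [Fact p.Prime] {w : H} (hw : w ^ p = 1) (a : ZMod p) :
    w ^ (-a).val = (w ^ a.val)⁻¹ := by
  rw [eq_inv_iff_mul_eq_one, ← q11_add hw, neg_add_cancel, ZMod.val_zero, pow_zero]

theorem q11_one {H : Type} [Group H] {p : ℕ} [Fact p.Prime] {w : H} (a : ZMod p) (ha : a = 1) :
    w ^ a.val = w := by
  rw [ha, ZMod.val_one, pow_one]

/-- Coordinates on `W`.

Proof.  `W` is an elementary abelian group of order `p ^ 2`, so `Additive W` is a vector space of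
dimension 2 over `ZMod p`; choose a basis; conjugation by `t` is linear with matrix `M`, `M ^ r = 1`,
`M ≠ 1`.  `det M = 1`: `M + M⁻¹ = τ` (tau) and by Cayley-Hamilton `M + det(M) M⁻¹ = tr(M)`, so
`(1 - det M) M⁻¹` is a scalar; `M` is not a scalar (ns), so `det M = 1`. -/
theorem blk_coord {p r : ℕ} {W A : Subgroup G} {t : G} (h : Blk p r W A t) :
    ∃ (M : Matrix.SpecialLinearGroup (Fin 2) (ZMod p))
      (e : Multiplicative (Fin 2 → ZMod p) →* G), Function.Injective e ∧
      (∀ g, g ∈ W ↔ ∃ v, e v = g) ∧ (∀ v, t * e v * t⁻¹ = e (slAct p M v)) ∧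
      orderOf M = r := by
  obtain ⟨τ, hτ⟩ := h.tau
  obtain ⟨w, hw, hns⟩ := h.ns
  have : Fact p.Prime := ⟨h.pprime⟩
  have hconj : ∀ a ∈ W, t * a * t⁻¹ ∈ W := fun a ha => h.Wn.conj_mem a ha t
  obtain ⟨w', hw'd⟩ : ∃ w' : G, w' = t * w * t⁻¹ := ⟨_, rfl⟩
  have hw' : w' ∈ W := by rw [hw'd]; exact hconj w hw
  rw [← hw'd] at hns
  have hwp := h.Wexp w hw
  have hwp' := h.Wexp w' hw'
  have hcomm : ∀ m n : ℕ, w ^ m * w' ^ n = w' ^ n * w ^ m := fun m n =>
    h.Wcomm _ (W.pow_mem hw m) _ (W.pow_mem hw' n)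
  have hwt : t⁻¹ * w' * t = w := by rw [hw'd]; group
  have htw' : t * w' * t⁻¹ = w' ^ τ * w⁻¹ := by
    have h1 := hτ w' hw'
    rw [hwt] at h1
    rw [← h1, mul_inv_cancel_right]
  -- the homomorphism
  let e : Multiplicative (Fin 2 → ZMod p) →* G :=
    { toFun := fun v => w ^ ((Multiplicative.toAdd v) 0).val * w' ^ ((Multiplicative.toAdd v) 1).val
      map_one' := by
        simp [ZMod.val_zero]
      map_mul' := fun u v => by
        simp only [toAdd_mul, Pi.add_apply]
        rw [q11_add hwp, q11_add hwp']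
        have h1 := hcomm ((Multiplicative.toAdd v) 0).val ((Multiplicative.toAdd u) 1).val
        calc w ^ ((Multiplicative.toAdd u) 0).val * w ^ ((Multiplicative.toAdd v) 0).val *
              (w' ^ ((Multiplicative.toAdd u) 1).val * w' ^ ((Multiplicative.toAdd v) 1).val)
            = w ^ ((Multiplicative.toAdd u) 0).val * (w ^ ((Multiplicative.toAdd v) 0).val *
              w' ^ ((Multiplicative.toAdd u) 1).val) * w' ^ ((Multiplicative.toAdd v) 1).val := by group
          _ = w ^ ((Multiplicative.toAdd u) 0).val * (w' ^ ((Multiplicative.toAdd u) 1).val *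
              w ^ ((Multiplicative.toAdd v) 0).val) * w' ^ ((Multiplicative.toAdd v) 1).val := by rw [h1]
          _ = w ^ ((Multiplicative.toAdd u) 0).val * w' ^ ((Multiplicative.toAdd u) 1).val *
              (w ^ ((Multiplicative.toAdd v) 0).val * w' ^ ((Multiplicative.toAdd v) 1).val) := by group }
  have heval : ∀ v : Multiplicative (Fin 2 → ZMod p),
      e v = w ^ ((Multiplicative.toAdd v) 0).val * w' ^ ((Multiplicative.toAdd v) 1).val := fun v => rfl
  have hinj : Function.Injective e := by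
    rw [injective_iff_map_eq_one]
    intro v hv
    rw [heval] at hv
    have hb : (Multiplicative.toAdd v) 1 = 0 := by
      by_contra hb
      have h1 : w' ^ ((Multiplicative.toAdd v) 1).val = w ^ (-(Multiplicative.toAdd v) 0).val := by
        rw [q11_neg hwp]
        exact eq_inv_of_mul_eq_one_right hv
      have h2 : w' = w ^ ((-(Multiplicative.toAdd v) 0).val * (((Multiplicative.toAdd v) 1)⁻¹ : ZMod p).val) := by
        have h3 := q11_mul hwp' ((Multiplicative.toAdd v) 1) (((Multiplicative.toAdd v) 1)⁻¹)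
        rw [q11_one _ (mul_inv_cancel₀ hb), h1, ← pow_mul] at h3
        exact h3
      exact hns _ h2
    have ha : (Multiplicative.toAdd v) 0 = 0 := by
      by_contra ha
      rw [hb, ZMod.val_zero, pow_zero, mul_one] at hv
      have h3 := q11_mul hwp ((Multiplicative.toAdd v) 0) (((Multiplicative.toAdd v) 0)⁻¹)
      rw [q11_one _ (mul_inv_cancel₀ ha), hv, one_pow] at h3
      apply hns 0
      rw [hw'd, h3]
      simp
    apply Multiplicative.toAdd.injective
    funext i
    rw [toAdd_one, Pi.zero_apply]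
    fin_cases i
    · exact ha
    · exact hb
  have hmem : ∀ v, e v ∈ W := fun v => by
    rw [heval]
    exact W.mul_mem (W.pow_mem hw _) (W.pow_mem hw' _)
  have hsurj : ∀ g, g ∈ W ↔ ∃ v, e v = g := by
    have hb : Function.Bijective (fun v => (⟨e v, hmem v⟩ : W)) := by
      rw [Nat.bijective_iff_injective_and_card]
      refine ⟨fun u v huv => hinj (congrArg Subtype.val huv), ?_⟩
      rw [h.Wcard]
      have : Nat.card (Multiplicative (Fin 2 → ZMod p)) = Nat.card (Fin 2 → ZMod p) := rfl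
      rw [this, Nat.card_fun, Nat.card_zmod, Nat.card_eq_fintype_card, Fintype.card_fin]
    intro g
    constructor
    · intro hg
      obtain ⟨v, hv⟩ := hb.2 ⟨g, hg⟩
      exact ⟨v, congrArg Subtype.val hv⟩
    · rintro ⟨v, rfl⟩
      exact hmem v
  let M : Matrix.SpecialLinearGroup (Fin 2) (ZMod p) := ⟨!![0, -1; 1, (τ : ZMod p)], by
    rw [Matrix.det_fin_two_of]
    ring⟩
  have hMv : ∀ v, t * e v * t⁻¹ = e (slAct p M v) := by
    intro v
    have h0 : (Multiplicative.toAdd (slAct p M v)) 0 = -((Multiplicative.toAdd v) 1) := by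
      rw [slAct_apply, toAdd_ofAdd]
      simp [M, Matrix.mulVec, dotProduct, Fin.sum_univ_two]
    have h1 : (Multiplicative.toAdd (slAct p M v)) 1 = (Multiplicative.toAdd v) 0 +
        (τ : ZMod p) * (Multiplicative.toAdd v) 1 := by
      rw [slAct_apply, toAdd_ofAdd]
      simp [M, Matrix.mulVec, dotProduct, Fin.sum_univ_two]
    have h2 : w' ^ ((τ : ZMod p) * (Multiplicative.toAdd v) 1).val = (w' ^ τ) ^ ((Multiplicative.toAdd v) 1).val := by
      rw [q11_mul hwp', ZMod.val_natCast, ← pow_eq_pow_mod _ hwp']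
    have h3 : t * w ^ ((Multiplicative.toAdd v) 0).val * t⁻¹ = w' ^ ((Multiplicative.toAdd v) 0).val := by
      rw [← conj_pow, ← hw'd]
    have h4 : t * w' ^ ((Multiplicative.toAdd v) 1).val * t⁻¹ =
        (w' ^ τ) ^ ((Multiplicative.toAdd v) 1).val * (w ^ ((Multiplicative.toAdd v) 1).val)⁻¹ := by
      rw [← conj_pow, htw']
      have hc : Commute (w' ^ τ) w⁻¹ := by
        have := hcomm 1 τ
        rw [pow_one] at this
        exact (show Commute w (w' ^ τ) from this).symm.inv_right
      rw [hc.mul_pow, inv_pow]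
    rw [heval, heval, h0, h1, q11_neg hwp, q11_add hwp', h2]
    have h5 : t * (w ^ ((Multiplicative.toAdd v) 0).val * w' ^ ((Multiplicative.toAdd v) 1).val) * t⁻¹ =
        (t * w ^ ((Multiplicative.toAdd v) 0).val * t⁻¹) * (t * w' ^ ((Multiplicative.toAdd v) 1).val * t⁻¹) := by group
    rw [h5, h3, h4]
    have hx : w' ^ ((Multiplicative.toAdd v) 0).val * (w' ^ τ) ^ ((Multiplicative.toAdd v) 1).val ∈ W :=
      W.mul_mem (W.pow_mem hw' _) (W.pow_mem (W.pow_mem hw' _) _)
    have hy : (w ^ ((Multiplicative.toAdd v) 1).val)⁻¹ ∈ W := W.inv_mem (W.pow_mem hw _)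
    rw [← mul_assoc, h.Wcomm _ hx _ hy]
  have hpow : ∀ (k : ℕ) v, t ^ k * e v * (t ^ k)⁻¹ = e (slAct p (M ^ k) v) := by
    intro k
    induction k with
    | zero =>
      intro v
      simp
    | succ k ih =>
      intro v
      have e1 : t ^ (k + 1) * e v * (t ^ (k + 1))⁻¹ = t ^ k * (t * e v * t⁻¹) * (t ^ k)⁻¹ := by
        rw [pow_succ]
        group
      rw [e1, hMv, ih, pow_succ, map_mul]
      rfl
  have hMr : M ^ r = 1 := by
    have h1 : ∀ v, slAct p (M ^ r) v = v := by
      intro v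
      apply hinj
      rw [← hpow, ← h.tord, pow_orderOf_eq_one]
      simp
    apply Subtype.ext
    rw [Matrix.SpecialLinearGroup.coe_one]
    apply Matrix.mulVec_injective
    funext v
    have h2 := h1 (Multiplicative.ofAdd v)
    rw [slAct_apply, toAdd_ofAdd] at h2
    rw [Matrix.one_mulVec]
    exact Multiplicative.ofAdd.injective h2
  have hM1 : M ≠ 1 := by
    intro h1
    have h2 := congrArg (fun N : Matrix.SpecialLinearGroup (Fin 2) (ZMod p) => (N : Matrix (Fin 2) (Fin 2) (ZMod p)) 1 0) h1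
    simp [M] at h2
  have : Fact r.Prime := ⟨h.rprime⟩
  exact ⟨M, e, hinj, hsurj, hMv, orderOf_eq_prime hMr hM1⟩

end FPX
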