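import Pool.Agent.FPX.Q1

namespace FPX

variable {G : Type} [Group G] [Finite G]

theorem Q2_pow (y w : G) (W : Subgroup G) (hW : W.Normal) (hw : w ∈ W) (n : ℕ) :
    y ^ n * (y⁻¹ * w) ^ n ∈ W := by
  induction n with
  | zero => simp
  | succ n ih =>
    have e : y ^ (n + 1) * (y⁻¹ * w) ^ (n + 1) = (y * (y ^ n * (y⁻¹ * w) ^ n) * y⁻¹) * w := by
      rw [pow_succ' y, pow_succ (y⁻¹ * w)]
      group
    rw [e]
    exact W.mul_mem (hW.conj_mem _ ih y) hw

theorem Q2_sqrt {r : ℕ} (hr : Odd r) (g : G) (j : ℕ) (hg : g ^ r ^ j = 1) :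
    ∃ n : ℕ, (g ^ n) ^ 2 = g := by
  obtain ⟨q, hq⟩ := hr.pow (n := j)
  refine ⟨q + 1, ?_⟩
  rw [← pow_mul, show (q + 1) * 2 = r ^ j + 1 by omega, pow_succ, hg, one_mul]

theorem Q2_two {r : ℕ} (hr : Odd r) (g : G) (j : ℕ) (hg : g ^ r ^ j = 1) (h2 : g ^ 2 = 1) :
    g = 1 := by
  obtain ⟨q, hq⟩ := hr.pow (n := j)
  rw [hq, pow_succ, pow_mul, h2, one_pow, one_mul] at hg
  exact hg

theorem Q2_cop (K : Subgroup G) (g : G) (m n : ℕ) (hmn : m.Coprime n) (hm : g ^ m ∈ K)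
    (hn : g ^ n ∈ K) : g ∈ K := by
  have h1 : IsCoprime (m : ℤ) (n : ℤ) := Nat.isCoprime_iff_coprime.mpr hmn
  obtain ⟨a, b, hab⟩ := h1
  have h2 : g = (g ^ m) ^ a * (g ^ n) ^ b := by
    rw [← zpow_natCast, ← zpow_natCast, ← zpow_mul, ← zpow_mul, ← zpow_add, mul_comm (m : ℤ),
      mul_comm (n : ℤ), hab, zpow_one]
  rw [h2]
  exact K.mul_mem (K.zpow_mem hm a) (K.zpow_mem hn b)

/-- an element of `W` commuting with an element outside `cen W` is trivial -/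
theorem Q2_fix {p r : ℕ} {W : Subgroup G} {x : G} (h : Sit p r W W x) (y : G) (hy : y ∉ cen W)
    (w : G) (hw : w ∈ W) (hyw : y * w = w * y) : w = 1 := by
  apply h.xfix w hw
  obtain ⟨i, d, hd, rfl⟩ := h.exists_pow y
  have h1 : w * d = d * w := Subgroup.mem_centralizer_iff.mp hd w hw
  have h2 : x ^ i * w = w * x ^ i := by
    apply mul_right_cancel (b := d)
    rw [mul_assoc, h1, ← mul_assoc, hyw, mul_assoc]
  have hri : ¬ r ∣ i := by
    rintro ⟨j, rfl⟩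
    apply hy
    rw [pow_mul, ← h.xord, pow_orderOf_eq_one, one_pow, one_mul]
    exact hd
  have h3 : x ∈ Subgroup.centralizer ({w} : Set G) := by
    apply Q2_cop _ x i r
    · rw [Nat.coprime_comm, h.rprime.coprime_iff_not_dvd]
      exact hri
    · rw [Subgroup.mem_centralizer_iff]
      intro a ha
      rw [Set.mem_singleton_iff] at ha
      rw [ha]
      exact h2.symm
    · rw [← h.xord, pow_orderOf_eq_one]
      exact Subgroup.one_mem _
  exact (Subgroup.mem_centralizer_iff.mp h3 w (Set.mem_singleton w)).symm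

/-- (3.1), third part: an element `t` of order `r` outside `cen W` which commutes with `C`.

Proof.  `α` from `q1b`; `x = c y`, `y ∈ cen C`, `y ∉ cen W` (`c ∈ C ≤ cen W`).  `|G| = p ^ 2 r ^ k`.
Replacing `y` by a power `y ^ N`, `N ≡ 1` modulo `r ^ k`, `N ≡ 0` modulo `p ^ 2` we may assume that `y`
has `r`-power order; still `y ∈ cen C` and `y ∉ cen W` (if `k = 0` there is no element outside;
`N ≡ 1` modulo `r` and `Sit.dvd`).  `y ^ r ∈ cen W = W C` (`Sit.pow_mem`) has `r`-power order and `W`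
is the normal Sylow `p`-subgroup, `cen W = W × C`, so `y ^ r ∈ C`; it commutes with `C`.
`y * α y ∈ cen W`, and `α y ∈ cen C` (`C` is characteristic), so `y * α y ∈ cen W ∩ cen C = W (C ∩ cen C)`:
`α y = y⁻¹ w z` with `w ∈ W`, `z ∈ C ∩ cen C`.
`α (y ^ r) = y ^ r` (`y ^ r ∈ C`).  `z` commutes with `y` and `w`, so
`y ^ r = (y⁻¹ w z) ^ r = (y⁻¹ w) ^ r z ^ r`, and
`(y⁻¹ w) ^ r = y ^ (-r) w'` where `w' = ∏_{i = r-1..0} y ^ i w y ^ (-i)` is in `W`; in fact
`w' = y ^ r (y⁻¹ w) ^ r` commutes with `y⁻¹ w`, (it commutes with `y⁻¹ w` because `y ^ r` commutes with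
`y` and with `W`), and with `w` (`W` commutative), so with `y`.  `y ∉ cen W`, so `y ≡ x ^ i` modulo
`cen W` with `r ∤ i`, so some power of `y` acts on `W` as `x` and `w' = 1` by `xfix`.
So `y ^ (2 r) = z ^ r`.  In the commutative `r`-group `C ∩ cen C` (`r` odd) there is `v` with
`z = v ^ 2`, so `(y ^ r) ^ 2 = (v ^ r) ^ 2` and `y ^ r = v ^ r`.  `t := y v⁻¹`: `t ^ r = 1`,
`t ∉ cen W`, `t` commutes with `C`. -/
theorem q1 (hF : PF G) {p r : ℕ} {W : Subgroup G} {x : G} (h : Typ p r W x)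
    {C : Subgroup G} (hC : C.Characteristic) (hCr : IsPGroup r C) (hCW : C ≤ cen W)
    (hCW' : C ⊓ W = ⊥) (hd : ∀ d ∈ cen W, ∃ w ∈ W, ∃ c ∈ C, d = w * c) :
    ∃ t : G, orderOf t = r ∧ t ∉ cen W ∧ ∀ c ∈ C, t * c = c * t := by
  obtain ⟨α, hαC, hall, hN⟩ := q1b hF h hC hCW hCW' hd
  obtain ⟨k, hk⟩ := h.rgp
  have hs := h.sit
  have hp := hs.syl.prime
  have hr := hs.rprime
  have hrodd : Odd r := hr.odd_of_ne_two hs.r2
  have hWn : W.Normal := hs.syl.normal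
  have hWc : ∀ a ∈ W, ∀ b ∈ W, a * b = b * a := fun a ha b hb =>
    Subgroup.mem_centralizer_iff.mp ((hs.Wmem b).mp hb).2.1 a ha
  have hWC : ∀ c ∈ C, ∀ a ∈ W, a * c = c * a := fun c hc a ha =>
    Subgroup.mem_centralizer_iff.mp (hCW hc) a ha
  obtain ⟨c₀, hc₀, y₀, hy₀, hx⟩ := hN x
  have hy₀W : y₀ ∉ cen W := by
    intro h1
    apply hs.xnot
    rw [hx]
    exact (cen W).mul_mem (hCW hc₀) h1
  -- an element of `r`-power order
  obtain ⟨y, hyC, hyW, hyk⟩ : ∃ y : G, y ∈ cen C ∧ y ∉ cen W ∧ y ^ r ^ k = 1 := by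
    refine ⟨y₀ ^ (p ^ 2), (cen C).pow_mem hy₀ _, ?_, ?_⟩
    · intro h1
      have h2 := hs.dvd hy₀W h1
      exact hs.rp ((Nat.prime_dvd_prime_iff_eq hr hp).mp (hr.dvd_of_dvd_pow h2))
    · rw [← pow_mul, ← hs.Wcard, ← hk, W.card_mul_index]
      exact pow_card_eq_one'
  have hyc : ∀ c ∈ C, c * y = y * c := fun c hc => Subgroup.mem_centralizer_iff.mp hyC c hc
  -- `y ^ r ∈ C`
  have hyrC : y ^ r ∈ C := by
    obtain ⟨w, hw, c, hc, e⟩ := hd _ (hs.pow_mem y)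
    have hcom : Commute w c := hWC c hc w hw
    have h1 : w ^ r ^ k * c ^ r ^ k = 1 := by
      rw [← hcom.mul_pow, ← e, ← pow_mul, mul_comm, pow_mul, hyk, one_pow]
    have h2 : w ^ r ^ k ∈ C ⊓ W := by
      refine ⟨?_, W.pow_mem hw _⟩
      rw [eq_inv_of_mul_eq_one_left h1]
      exact C.inv_mem (C.pow_mem hc _)
    rw [hCW'] at h2
    have h3 : w ^ p = 1 := ((hs.Wmem w).mp hw).2.2
    have h4 : w ∈ (⊥ : Subgroup G) := by
      apply Q2_cop ⊥ w (r ^ k) p _ h2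
      · rw [h3]
        exact Subgroup.one_mem _
      · exact Nat.Coprime.pow_left k ((Nat.coprime_primes hr hp).mpr hs.rp)
    rw [Subgroup.mem_bot] at h4
    rw [e, h4, one_mul]
    exact hc
  have hαy : α y ∈ cen C := by
    rw [Subgroup.mem_centralizer_iff]
    intro c hc
    have h1 := congrArg α (hyc c hc)
    rwa [map_mul, map_mul, hαC c hc] at h1
  obtain ⟨w, hw, z, hz, e⟩ := hd _ (hall y)
  have hwC : w ∈ cen C := by
    rw [Subgroup.mem_centralizer_iff]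
    intro c hc
    exact (hWC c hc w hw).symm
  have hzC : z ∈ cen C := by
    have h1 : z = w⁻¹ * (y * α y) := by rw [e, inv_mul_cancel_left]
    rw [h1]
    exact (cen C).mul_mem ((cen C).inv_mem hwC) ((cen C).mul_mem hyC hαy)
  have hαy' : α y = y⁻¹ * w * z := by
    rw [mul_assoc, ← e, inv_mul_cancel_left]
  have hcomz : Commute (y⁻¹ * w) z := by
    have h1 : Commute y z := (hyc z hz).symm
    have h2 : Commute w z := hWC z hz w hw
    exact h1.inv_left.mul_left h2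
  have hpow : y ^ r = (y⁻¹ * w) ^ r * z ^ r := by
    rw [← hcomz.mul_pow, ← hαy', ← map_pow, hαC _ hyrC]
  have hw' : y ^ r * (y⁻¹ * w) ^ r = 1 := by
    apply Q2_fix hs y hyW _ (Q2_pow y w W hWn hw r)
    have h1 : Commute (y ^ r) y := (Commute.refl y).pow_left r
    have h2 : Commute (y ^ r) w := (hWC _ hyrC w hw).symm
    have h3 : Commute (y ^ r * (y⁻¹ * w) ^ r) (y⁻¹ * w) :=
      (h1.inv_right.mul_right h2).mul_left ((Commute.refl _).pow_left r)
    have h4 : Commute (y ^ r * (y⁻¹ * w) ^ r) w :=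
      hWc _ (Q2_pow y w W hWn hw r) w hw
    have h5 := h3.mul_right h4.inv_right
    rw [mul_inv_cancel_right] at h5
    have h6 := h5.inv_right
    rw [inv_inv] at h6
    exact h6.symm
  have hy2 : (y ^ r) ^ 2 = z ^ r := by
    rw [pow_two]
    nth_rewrite 2 [hpow]
    rw [← mul_assoc, hw', one_mul]
  obtain ⟨j, hj⟩ := hCr ⟨z, hz⟩
  have hj' : z ^ r ^ j = 1 := congrArg Subtype.val hj
  obtain ⟨n, hn⟩ := Q2_sqrt hrodd z j hj'
  have hvC : z ^ n ∈ C := C.pow_mem hz n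
  have hvcC : z ^ n ∈ cen C := (cen C).pow_mem hzC n
  set v := z ^ n with hv
  have hyv : Commute y v := (hyc v hvC).symm
  have htr : (y * v⁻¹) ^ r = y ^ r * (v ^ r)⁻¹ := by
    rw [hyv.inv_right.mul_pow, inv_pow]
  have h7 : (y * v⁻¹) ^ r ∈ C := by
    rw [htr]
    exact C.mul_mem hyrC (C.inv_mem (C.pow_mem hvC r))
  have h8 : ((y * v⁻¹) ^ r) ^ 2 = 1 := by
    have h9 : Commute (y ^ r) (v ^ r)⁻¹ := (hyv.pow_pow r r).inv_right
    rw [htr, h9.mul_pow, hy2, inv_pow, ← pow_mul v, mul_comm r 2, pow_mul v, hn, mul_inv_cancel]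
  obtain ⟨l, hl⟩ := hCr ⟨_, h7⟩
  have hl' : ((y * v⁻¹) ^ r) ^ r ^ l = 1 := congrArg Subtype.val hl
  have h10 := Q2_two hrodd _ l hl' h8
  have h11 : y * v⁻¹ ∉ cen W := by
    intro h12
    apply hyW
    have h13 : y = y * v⁻¹ * v := by rw [inv_mul_cancel_right]
    rw [h13]
    exact (cen W).mul_mem h12 (hCW hvC)
  refine ⟨y * v⁻¹, ?_, h11, ?_⟩
  · have : Fact r.Prime := ⟨hr⟩
    apply orderOf_eq_prime h10
    intro h12
    apply h11
    rw [h12]
    exact (cen W).one_mem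
  · intro c hc
    exact (Subgroup.mem_centralizer_iff.mp ((cen C).mul_mem hyC ((cen C).inv_mem hvcC)) c hc).symm

end FPX
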