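import Pool.Agent.FPX.Basic

namespace FPX

/-- All elements of order `r` are central. -/
def PCen (r : ℕ) (Q : Type) [Group Q] : Prop := ∀ x : Q, x ^ r = 1 → ∀ y : Q, x * y = y * x

theorem Q4_comm_pow {Q : Type} [Group Q] {a b c : Q} (h : b * a = a * b * c) (hb : c * b = b * c)
    (n : ℕ) : b ^ n * a = a * b ^ n * c ^ n := by
  induction n with
  | zero => rw [pow_zero, pow_zero, one_mul, mul_one, mul_one]
  | succ n ih =>
    have hcb : Commute (c ^ n) b := (show Commute c b from hb).pow_left n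
    calc b ^ (n + 1) * a = b ^ n * (b * a) := by rw [pow_succ, mul_assoc]
      _ = (b ^ n * a) * (b * c) := by rw [h]; group
      _ = a * b ^ n * (c ^ n * b) * c := by rw [ih]; group
      _ = a * b ^ n * (b * c ^ n) * c := by rw [hcb.eq]
      _ = a * b ^ (n + 1) * c ^ (n + 1) := by rw [pow_succ, pow_succ]; group

/-- powers of a product in class 2 -/
theorem Q4_mul_pow {Q : Type} [Group Q] {a b c : Q} (h : b * a = a * b * c) (hb : c * b = b * c)
    (ha : c * a = a * c) (n : ℕ) : (a * b) ^ n = a ^ n * b ^ n * c ^ (n * (n - 1) / 2) := by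
  induction n with
  | zero => simp
  | succ n ih =>
    have e : (n + 1) * (n + 1 - 1) / 2 = n + n * (n - 1) / 2 := by
      rw [Nat.add_sub_cancel]
      rcases n with _ | n
      · rfl
      · have h1 : (n + 1 + 1) * (n + 1) = (n + 1) * (n + 1 - 1) + 2 * (n + 1) := by
          rw [Nat.add_sub_cancel]; ring
        rw [h1, Nat.add_mul_div_left _ _ (by norm_num)]
        ring
    have hcb : Commute (c ^ (n * (n - 1) / 2)) b := (show Commute c b from hb).pow_left _
    have hca : Commute (c ^ (n * (n - 1) / 2)) a := (show Commute c a from ha).pow_left _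
    have hcb' : Commute (c ^ n) b := (show Commute c b from hb).pow_left _
    rw [e, pow_add c n (n * (n - 1) / 2)]
    calc (a * b) ^ (n + 1) = (a ^ n * b ^ n * c ^ (n * (n - 1) / 2)) * (a * b) := by rw [pow_succ, ih]
      _ = a ^ n * b ^ n * (c ^ (n * (n - 1) / 2) * a) * b := by group
      _ = a ^ n * (b ^ n * a) * (c ^ (n * (n - 1) / 2) * b) := by rw [hca.eq]; group
      _ = a ^ n * (a * b ^ n * c ^ n) * (b * c ^ (n * (n - 1) / 2)) := by
          rw [Q4_comm_pow h hb, hcb.eq]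
      _ = a ^ (n + 1) * b ^ n * (c ^ n * b) * c ^ (n * (n - 1) / 2) := by rw [pow_succ]; group
      _ = a ^ (n + 1) * b ^ n * (b * c ^ n) * c ^ (n * (n - 1) / 2) := by rw [hcb'.eq]
      _ = a ^ (n + 1) * b ^ (n + 1) * (c ^ n * c ^ (n * (n - 1) / 2)) := by
          rw [pow_succ b n]; group

theorem Q4_tri {r : ℕ} (hr : r.Prime) (h2 : r ≠ 2) {Q : Type} [Group Q] {c : Q} (hc : c ^ r = 1) :
    c ^ (r * (r - 1) / 2) = 1 := by
  have hodd : r % 2 = 1 := by
    rcases hr.eq_two_or_odd with h | h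
    · exact absurd h h2
    · exact h
  have h1 : r * (r - 1) / 2 = r * ((r - 1) / 2) := by
    apply Nat.mul_div_assoc
    omega
  rw [h1, pow_mul, hc, one_pow]

/-- the `r`-th power of a product when the commutator is central of order dividing `r` -/
theorem Q4_mul_pow_r {r : ℕ} (hr : r.Prime) (h2 : r ≠ 2) {Q : Type} [Group Q] {a b c : Q}
    (h : b * a = a * b * c) (hb : c * b = b * c) (ha : c * a = a * c) (hc : c ^ r = 1) :
    (a * b) ^ r = a ^ r * b ^ r := by
  rw [Q4_mul_pow h hb ha, Q4_tri hr h2 hc, mul_one]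

theorem Q4_main {Q : Type} [Group Q] [Finite Q] {r : ℕ} (hr : r.Prime) (h2 : r ≠ 2)
    (hQ : IsPGroup r Q) (hc : PCen r Q) (n : ℕ) : ∀ x y : Q,
      Nat.card (Subgroup.closure ({x, y} : Set Q)) ≤ n → x ^ r = y ^ r → (x⁻¹ * y) ^ r = 1 := by
  have : Fact r.Prime := ⟨hr⟩
  induction n with
  | zero =>
    intro x y h
    have h1 : 0 < Nat.card (Subgroup.closure ({x, y} : Set Q)) := Nat.card_pos
    omega
  | succ n ih =>
    intro x y hn h
    by_cases hcomm : x * y = y * x
    · have h1 : Commute x⁻¹ y := (show Commute x y from hcomm).inv_left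
      rw [h1.mul_pow, inv_pow, h, inv_mul_cancel]
    · -- the subgroup generated by `x` and `y`
      obtain ⟨S, hS⟩ : ∃ S, S = Subgroup.closure ({x, y} : Set Q) := ⟨_, rfl⟩
      have hxS : x ∈ S := by rw [hS]; exact Subgroup.subset_closure (by simp)
      have hyS : y ∈ S := by rw [hS]; exact Subgroup.subset_closure (by simp)
      have hzne : Subgroup.zpowers (⟨x, hxS⟩ : S) ≠ ⊤ := by
        intro htop
        have h1 : (⟨y, hyS⟩ : S) ∈ Subgroup.zpowers (⟨x, hxS⟩ : S) := by
          rw [htop]; exact Subgroup.mem_top _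
        obtain ⟨k, hk⟩ := Subgroup.mem_zpowers_iff.1 h1
        have hk' : x ^ k = y := congrArg Subtype.val hk
        apply hcomm
        rw [← hk']
        exact ((Commute.refl x).zpow_right k).eq
      obtain ⟨M, hM, hxM⟩ := (eq_top_or_exists_le_coatom (Subgroup.zpowers (⟨x, hxS⟩ : S))).resolve_left hzne
      have hpS : IsPGroup r S := hQ.to_subgroup S
      have hnil : Group.IsNilpotent S := hpS.isNilpotent
      have hMn : M.Normal := Subgroup.NormalizerCondition.normal_of_coatom M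
        Group.normalizerCondition_of_isNilpotent hM
      have hxM' : (⟨x, hxS⟩ : S) ∈ M := hxM (Subgroup.mem_zpowers _)
      -- the subgroup of `Q`
      have hcard : Nat.card (M.map S.subtype) < Nat.card S := by
        rw [Nat.card_congr (M.equivMapOfInjective S.subtype S.subtype_injective).toEquiv.symm]
        have h1 : Nat.card M ≤ Nat.card S := Subgroup.card_le_card_group M
        refine lt_of_le_of_ne h1 fun h3 => hM.1 ?_
        exact Subgroup.eq_top_of_card_eq M h3
      have hx1 : x ∈ M.map S.subtype := ⟨⟨x, hxS⟩, hxM', rfl⟩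
      have hx2 : y⁻¹ * x * y ∈ M.map S.subtype := by
        refine ⟨(⟨y, hyS⟩ : S)⁻¹ * ⟨x, hxS⟩ * ⟨y, hyS⟩, ?_, rfl⟩
        have := hMn.conj_mem _ hxM' (⟨y, hyS⟩ : S)⁻¹
        rwa [inv_inv] at this
      have hle : Subgroup.closure ({x, y⁻¹ * x * y} : Set Q) ≤ M.map S.subtype := by
        rw [Subgroup.closure_le]
        rintro z (rfl | hz)
        · exact hx1
        · rw [Set.mem_singleton_iff] at hz
          rw [hz]
          exact hx2
      have hcard2 : Nat.card (Subgroup.closure ({x, y⁻¹ * x * y} : Set Q)) ≤ n := by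
        have h1 : Nat.card (Subgroup.closure ({x, y⁻¹ * x * y} : Set Q)) ≤ Nat.card (M.map S.subtype) :=
          Subgroup.card_le_of_le hle
        rw [← hS] at hn
        omega
      have hpow : (y⁻¹ * x * y) ^ r = x ^ r := by
        have e : y⁻¹ * x * y = y⁻¹ * x * (y⁻¹)⁻¹ := by rw [inv_inv]
        rw [e, conj_pow, h, inv_inv]
        have h1 : Commute y (y ^ r) := Commute.self_pow y r
        rw [mul_assoc, ← h1.eq, inv_mul_cancel_left]
      have hk := ih x (y⁻¹ * x * y) hcard2 hpow.symm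
      have hcen := hc _ hk
      obtain ⟨k, hkdef⟩ : ∃ k, k = x⁻¹ * (y⁻¹ * x * y) := ⟨_, rfl⟩
      rw [← hkdef] at hk hcen
      have hxy : x * y = y * x * k := by rw [hkdef]; group
      have hba : y * x⁻¹ = x⁻¹ * y * k := by
        have h3 : y * x * k * x⁻¹ = y * k := by
          rw [mul_assoc (y * x), hcen x⁻¹, ← mul_assoc, mul_assoc y, mul_inv_cancel, mul_one]
        calc y * x⁻¹ = x⁻¹ * (x * y) * x⁻¹ := by group
          _ = x⁻¹ * (y * x * k * x⁻¹) := by rw [hxy]; group
          _ = x⁻¹ * y * k := by rw [h3]; group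
      rw [Q4_mul_pow_r hr h2 hba (hcen y) (hcen x⁻¹) hk, inv_pow, h, inv_mul_cancel]

/-- (3.3)(a).

Proof.  Strong induction on the order of `S = closure {x, y}` (for all `x, y` with `x ^ r = y ^ r`).
If `x` and `y` commute: `(x⁻¹ y) ^ r = x ^ (-r) y ^ r = 1`.  Otherwise `zpowers x ≠ S`, so `x` is in a
maximal subgroup `M` of `S`, which is normal in `S` (`S` is nilpotent:
`NormalizerCondition.normal_of_coatom`).  `x' := y⁻¹ x y ∈ M`, `x' ^ r = y⁻¹ x ^ r y = y⁻¹ y ^ r y = x ^ r`.
`closure {x, x'} ≤ M < S`, so by induction `k := x⁻¹ x'` satisfies `k ^ r = 1`, so `k` is central.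
`k = x⁻¹ y⁻¹ x y`.  So `x y = y x k` with `k` central, and
`(x⁻¹ y) ^ r = x ^ (-r) y ^ r k ^ (± r (r-1)/2) = 1` (`r` odd, so `r ∣ r (r-1)/2`). -/
theorem pc_a {Q : Type} [Group Q] [Finite Q] {r : ℕ} (hr : r.Prime) (h2 : r ≠ 2)
    (hQ : IsPGroup r Q) (hc : PCen r Q) (x y : Q) (h : x ^ r = y ^ r) :
    (x⁻¹ * y) ^ r = 1 :=
  Q4_main hr h2 hQ hc _ x y le_rfl h

/-- If `x ^ r` is central then all commutators `[x, g]` have order dividing `r`, and are central. -/
theorem pc_comm1 {Q : Type} [Group Q] [Finite Q] {r : ℕ} (hr : r.Prime) (h2 : r ≠ 2)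
    (hQ : IsPGroup r Q) (hc : PCen r Q) (x g : Q) (h : ∀ y, x ^ r * y = y * x ^ r) :
    (x * g * x⁻¹ * g⁻¹) ^ r = 1 := by
  have h1 : (x⁻¹) ^ r = (g * x⁻¹ * g⁻¹) ^ r := by
    rw [conj_pow, inv_pow]
    have h3 : Commute (x ^ r) g := h g
    have h4 : Commute (x ^ r)⁻¹ g := h3.inv_left
    rw [← h4.eq, mul_inv_cancel_right]
  have h3 := pc_a hr h2 hQ hc x⁻¹ (g * x⁻¹ * g⁻¹) h1
  rw [inv_inv] at h3
  have e : x * g * x⁻¹ * g⁻¹ = x * (g * x⁻¹ * g⁻¹) := by group
  rw [e]
  exact h3

end FPX
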