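import Pool.Agent.FPX.Q4

namespace FPX

/-- The central subgroup of the elements of order dividing `r`. -/
def Q5_Om {Q : Type} [Group Q] {r : ℕ} (hc : PCen r Q) : Subgroup Q where
  carrier := {x | x ^ r = 1}
  one_mem' := one_pow r
  mul_mem' := by
    intro a b ha hb
    have h1 : Commute a b := hc a ha b
    show (a * b) ^ r = 1
    rw [h1.mul_pow]
    have ha' : a ^ r = 1 := ha
    have hb' : b ^ r = 1 := hb
    rw [ha', hb', one_mul]
  inv_mem' := by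
    intro a ha
    have ha' : a ^ r = 1 := ha
    show a⁻¹ ^ r = 1
    rw [inv_pow, ha', inv_one]

theorem Q5_mem {Q : Type} [Group Q] {r : ℕ} (hc : PCen r Q) {x : Q} : x ∈ Q5_Om hc ↔ x ^ r = 1 :=
  Iff.rfl

theorem Q5_normal {Q : Type} [Group Q] {r : ℕ} (hc : PCen r Q) : (Q5_Om hc).Normal := by
  refine ⟨fun n hn g => ?_⟩
  have h1 : n * g⁻¹ = g⁻¹ * n := hc n hn g⁻¹
  rw [mul_assoc, h1, mul_inv_cancel_left]
  exact hn

/-- (3.3)(c).

Proof.  By induction on `k`, for all groups `Q` with the hypotheses.  `k = 0` is trivial.  `k + 1`: let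
`Ω = {x : x ^ r = 1}`, a central subgroup (PCen).  `Q/Ω` satisfies the hypotheses: if `x ^ r ∈ Ω` then
`x ^ r` is central, so `[x, g] ∈ Ω` for all `g` by `pc_comm1`.  `x ^ r ^ (k+2) = 1` gives
`x̄ ^ r ^ (k+1) = 1` in `Q/Ω`, so by induction `(x y) ^ r ^ k = a b z` with `a = x ^ r ^ k`,
`b = y ^ r ^ k`, `z ∈ Ω`.  Hence `(x y) ^ r ^ (k+1) = (a b) ^ r` (`z` is central, `z ^ r = 1`).
`a ^ r ^ 2 = 1`, so `a ^ r ∈ Ω` is central and `c := [b, a]`-type commutators of `a` and `b` are central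
of order dividing `r`; so `(a b) ^ r = a ^ r b ^ r c ^ (± r (r-1)/2) = a ^ r b ^ r`. -/
theorem pc_b {r : ℕ} (hr : r.Prime) (h2 : r ≠ 2) (k : ℕ) :
    ∀ (Q : Type) [Group Q] [Finite Q], IsPGroup r Q → PCen r Q → ∀ x y : Q,
      x ^ r ^ (k + 1) = 1 → y ^ r ^ (k + 1) = 1 →
      (x * y) ^ r ^ k = x ^ r ^ k * y ^ r ^ k := by
  induction k with
  | zero =>
    intro Q _ _ _ _ x y _ _
    rw [pow_zero, pow_one, pow_one, pow_one]
  | succ k ih =>
    intro Q _ _ hQ hc x y hx hy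
    have hn := Q5_normal hc
    -- the quotient
    have hQ' : IsPGroup r (Q ⧸ Q5_Om hc) := hQ.to_quotient _
    have hc' : PCen r (Q ⧸ Q5_Om hc) := by
      intro X hX Y
      obtain ⟨x, rfl⟩ := QuotientGroup.mk_surjective X
      obtain ⟨y, rfl⟩ := QuotientGroup.mk_surjective Y
      rw [← QuotientGroup.mk_pow, QuotientGroup.eq_one_iff] at hX
      have h1 := hc _ hX
      have h3 : x * y * x⁻¹ * y⁻¹ ∈ Q5_Om hc := pc_comm1 hr h2 hQ hc x y h1
      rw [← QuotientGroup.mk_mul, ← QuotientGroup.mk_mul, QuotientGroup.eq]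
      have h4 : (x * y)⁻¹ * (y * x) = (y⁻¹ * x⁻¹) * (x * y * x⁻¹ * y⁻¹)⁻¹ * (y⁻¹ * x⁻¹)⁻¹ := by
        group
      rw [h4]
      exact hn.conj_mem _ ((Q5_Om hc).inv_mem h3) _
    have hpow : ∀ z : Q, z ^ r ^ (k + 1 + 1) = 1 →
        ((z : Q) : Q ⧸ Q5_Om hc) ^ r ^ (k + 1) = 1 := by
      intro z hz
      rw [← QuotientGroup.mk_pow, QuotientGroup.eq_one_iff, Q5_mem, ← pow_mul, ← pow_succ]
      exact hz
    have h3 := ih (Q ⧸ Q5_Om hc) hQ' hc' (x : Q ⧸ Q5_Om hc) (y : Q ⧸ Q5_Om hc) (hpow x hx) (hpow y hy)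
    obtain ⟨a, ha⟩ : ∃ a, a = x ^ r ^ k := ⟨_, rfl⟩
    obtain ⟨b, hb⟩ : ∃ b, b = y ^ r ^ k := ⟨_, rfl⟩
    rw [← QuotientGroup.mk_mul, ← QuotientGroup.mk_pow, ← QuotientGroup.mk_pow,
      ← QuotientGroup.mk_pow, ← QuotientGroup.mk_mul, ← ha, ← hb, eq_comm, QuotientGroup.eq,
      Q5_mem] at h3
    obtain ⟨z, hz⟩ : ∃ z, z = (a * b)⁻¹ * (x * y) ^ r ^ k := ⟨_, rfl⟩
    rw [← hz] at h3
    have hxy : (x * y) ^ r ^ k = a * b * z := by rw [hz]; group
    have hzc : Commute (a * b) z := (hc z h3 (a * b)).symm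
    have har : (a ^ r) ^ r = 1 := by
      rw [ha, ← pow_mul, ← pow_mul]
      have e : r ^ k * (r * r) = r ^ (k + 1 + 1) := by ring
      rw [e]
      exact hx
    have hbr : (b ^ r) ^ r = 1 := by
      rw [hb, ← pow_mul, ← pow_mul]
      have e : r ^ k * (r * r) = r ^ (k + 1 + 1) := by ring
      rw [e]
      exact hy
    obtain ⟨c, hcd⟩ : ∃ c, c = b⁻¹ * a⁻¹ * b * a := ⟨_, rfl⟩
    have hcr : c ^ r = 1 := by
      have h5 : ∀ y, b⁻¹ ^ r * y = y * b⁻¹ ^ r := by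
        intro y
        have h6 : Commute (b ^ r) y := hc _ hbr y
        rw [inv_pow]
        exact h6.inv_left.eq
      have h7 := pc_comm1 hr h2 hQ hc b⁻¹ a⁻¹ h5
      rw [inv_inv, inv_inv] at h7
      rw [hcd]
      exact h7
    have hcc := hc c hcr
    have hba : b * a = a * b * c := by rw [hcd]; group
    have hab := Q4_mul_pow_r hr h2 hba (hcc b) (hcc a) hcr
    rw [pow_succ, pow_mul, pow_mul, pow_mul, hxy, hzc.mul_pow, h3, mul_one, hab, ha, hb]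

end FPX
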