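import Pool.Agent.FPX.Q5

namespace FPX

theorem Q6_pow_le {Q : Type} [Group Q] {r : ℕ} {x : Q} {m n : ℕ} (hmn : m ≤ n) (h : x ^ r ^ m = 1) :
    x ^ r ^ n = 1 := by
  obtain ⟨k, rfl⟩ := Nat.exists_eq_add_of_le hmn
  rw [pow_add, pow_mul, h, one_pow]

/-- (3.3)(d), choice of `i` and `j`.

Proof.  Every element has `r`-power order, so there are `c, d` with `c d ≠ d c` and `c ^ r ^ (m+1) = 1`
for some `m`.  Let `j` be minimal such that some `c` with `c ^ r ^ (j+1) = 1` is not central; so every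
`c` with `c ^ r ^ j = 1` is central (`j = 0`: `c = 1`).  Let `i` be minimal such that some `d` with
`d ^ r ^ (i+1) = 1` does not commute with some `c` with `c ^ r ^ (j+1) = 1`.  If `i < j` then
`d ^ r ^ j = 1`, so `d` is central, contradiction. -/
theorem pc_ij {Q : Type} [Group Q] [Finite Q] {r : ℕ} (hr : r.Prime)
    (hQ : IsPGroup r Q) (hn : ∃ c d : Q, c * d ≠ d * c) :
    ∃ i j : ℕ, j ≤ i ∧ (∀ c : Q, c ^ r ^ j = 1 → ∀ d, c * d = d * c) ∧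
      (∀ d : Q, d ^ r ^ i = 1 → ∀ c : Q, c ^ r ^ (j + 1) = 1 → c * d = d * c) ∧
      ∃ d c : Q, d ^ r ^ (i + 1) = 1 ∧ c ^ r ^ (j + 1) = 1 ∧ c * d ≠ d * c := by
  classical
  obtain ⟨c0, d0, h0⟩ := hn
  have hex : ∃ j, ∃ c : Q, c ^ r ^ (j + 1) = 1 ∧ ∃ d, c * d ≠ d * c := by
    obtain ⟨k, hk⟩ := hQ c0
    exact ⟨k, c0, Q6_pow_le (Nat.le_succ k) hk, d0, h0⟩
  obtain ⟨j, hj, hjmin⟩ : ∃ j, (∃ c : Q, c ^ r ^ (j + 1) = 1 ∧ ∃ d, c * d ≠ d * c) ∧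
      ∀ m < j, ¬ ∃ c : Q, c ^ r ^ (m + 1) = 1 ∧ ∃ d, c * d ≠ d * c :=
    ⟨Nat.find hex, Nat.find_spec hex, fun m hm => Nat.find_min hex hm⟩
  have hcen : ∀ c : Q, c ^ r ^ j = 1 → ∀ d, c * d = d * c := by
    intro c hc d
    rcases j with _ | j
    · rw [pow_zero, pow_one] at hc
      rw [hc, one_mul, mul_one]
    · by_contra hne
      exact hjmin j (Nat.lt_succ_self j) ⟨c, hc, d, hne⟩
  obtain ⟨c1, hc1, d1, hcd1⟩ := hj
  have hex2 : ∃ i, ∃ d c : Q, d ^ r ^ (i + 1) = 1 ∧ c ^ r ^ (j + 1) = 1 ∧ c * d ≠ d * c := by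
    obtain ⟨k, hk⟩ := hQ d1
    exact ⟨k, d1, c1, Q6_pow_le (Nat.le_succ k) hk, hc1, hcd1⟩
  obtain ⟨i, hi, himin⟩ : ∃ i, (∃ d c : Q, d ^ r ^ (i + 1) = 1 ∧ c ^ r ^ (j + 1) = 1 ∧
      c * d ≠ d * c) ∧ ∀ m < i, ¬ ∃ d c : Q, d ^ r ^ (m + 1) = 1 ∧ c ^ r ^ (j + 1) = 1 ∧
        c * d ≠ d * c :=
    ⟨Nat.find hex2, Nat.find_spec hex2, fun m hm => Nat.find_min hex2 hm⟩
  refine ⟨i, j, ?_, hcen, ?_, hi⟩
  · by_contra hlt
    obtain ⟨d, c, hd, hc, hne⟩ := hi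
    exact hne (hcen d (Q6_pow_le (by omega) hd) c).symm
  · intro d hd c hc
    rcases i with _ | i
    · rw [pow_zero, pow_one] at hd
      rw [hd, one_mul, mul_one]
    · by_contra hne
      exact himin i (Nat.lt_succ_self i) ⟨d, c, hd, hc, hne⟩

/-- The subspace `S i = {v : f v is an r^i-th power}` of the model `V` of `Ω = {x : x ^ r = 1}`.
Proof: if `d ^ r ^ i = f u`, `d' ^ r ^ i = f u'` then `d ^ r ^ (i+1) = 1` (`(f u) ^ r = 1`) and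
`(d d') ^ r ^ i = f u f u' = f (u + u')` by `pc_b`; multiples: `(d ^ m) ^ r ^ i = f (m u)`. -/
theorem pc_S {Q : Type} [Group Q] [Finite Q] {r : ℕ} [Fact r.Prime] (h2 : r ≠ 2)
    (hQ : IsPGroup r Q) (hc : PCen r Q) {Ω : Subgroup Q} (hΩ : ∀ x, x ∈ Ω ↔ x ^ r = 1)
    {V : Type} [AddCommGroup V] [Module (ZMod r) V] {f : V → Q}
    {ρ : MulAut Q →* (V ≃ₗ[ZMod r] V)} (hm : Mod r Ω V f ρ) (i : ℕ) :
    ∃ S : Submodule (ZMod r) V, ∀ v, v ∈ S ↔ ∃ d : Q, d ^ r ^ i = f v := by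
  have hr : r.Prime := Fact.out
  have hpow : ∀ (v : V) (d : Q), d ^ r ^ i = f v → d ^ r ^ (i + 1) = 1 := by
    intro v d hd
    have h1 : (f v) ^ r = 1 := (hΩ _).1 ((hm.mem _).2 ⟨v, rfl⟩)
    rw [pow_succ, pow_mul, hd, h1]
  have hf0 : f 0 = 1 := by
    have h1 := hm.add 0 0
    rw [add_zero] at h1
    exact (mul_eq_left.1 h1.symm)
  have hfn : ∀ (n : ℕ) (v : V), f (n • v) = f v ^ n := by
    intro n v
    induction n with
    | zero => rw [zero_smul, pow_zero, hf0]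
    | succ n ih => rw [succ_nsmul, hm.add, ih, pow_succ]
  refine ⟨{ carrier := {v | ∃ d : Q, d ^ r ^ i = f v}
            add_mem' := ?_
            zero_mem' := ⟨1, by rw [one_pow, hf0]⟩
            smul_mem' := ?_ }, fun v => Iff.rfl⟩
  · rintro u v ⟨d, hd⟩ ⟨d', hd'⟩
    refine ⟨d * d', ?_⟩
    rw [pc_b hr h2 i Q hQ hc d d' (hpow u d hd) (hpow v d' hd'), hd, hd', hm.add]
  · rintro c v ⟨d, hd⟩
    refine ⟨d ^ c.val, ?_⟩
    have e : c • v = c.val • v := by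
      conv_lhs => rw [← ZMod.natCast_zmod_val c]
      rw [Nat.cast_smul_eq_nsmul]
    rw [e, hfn, ← pow_mul, mul_comm, pow_mul, hd]

end FPX
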