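import Pool.Agent.FPX.Q6

namespace FPX

variable {Q : Type} [Group Q] [Finite Q] {r : ℕ} [Fact r.Prime] {Ω : Subgroup Q}
  {V : Type} [AddCommGroup V] [Module (ZMod r) V] {f : V → Q}
  {ρ : MulAut Q →* (V ≃ₗ[ZMod r] V)}

/-- the facts about `c ^ r ^ j = f w` -/
theorem Q7_pow (hΩ : ∀ x, x ∈ Ω ↔ x ^ r = 1) (hm : Mod r Ω V f ρ) {j : ℕ} {c : Q} {w : V}
    (h : c ^ r ^ j = f w) : c ^ r ^ (j + 1) = 1 := by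
  have h1 : f w ∈ Ω := (hm.mem _).2 ⟨w, rfl⟩
  rw [pow_succ, pow_mul, h]
  exact (hΩ _).1 h1

theorem Q7_comm (h2 : r ≠ 2) (hQ : IsPGroup r Q) (hc : PCen r Q)
    (hΩ : ∀ x, x ∈ Ω ↔ x ^ r = 1) (hm : Mod r Ω V f ρ) {j : ℕ}
    (h1 : ∀ c : Q, c ^ r ^ j = 1 → ∀ d, c * d = d * c) {c : Q} {w : V}
    (h : c ^ r ^ j = f w) (d : Q) : (c * d * c⁻¹ * d⁻¹) ^ r = 1 := by
  have h3 := Q7_pow hΩ hm h
  have h4 : (c ^ r) ^ r ^ j = 1 := by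
    rw [← pow_mul, ← pow_succ', h3]
  exact pc_comm1 (Fact.out : r.Prime) h2 hQ hc c d (h1 _ h4)

theorem Q7_div (h2 : r ≠ 2) (hQ : IsPGroup r Q) (hc : PCen r Q)
    (hΩ : ∀ x, x ∈ Ω ↔ x ^ r = 1) (hm : Mod r Ω V f ρ) {j : ℕ} {c c' : Q} {w : V}
    (h : c ^ r ^ j = f w) (h' : c' ^ r ^ j = f w) : (c⁻¹ * c') ^ r ^ j = 1 := by
  have h3 := Q7_pow hΩ hm h
  have h4 := Q7_pow hΩ hm h'
  have h5 : (c⁻¹) ^ r ^ (j + 1) = 1 := by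
    rw [inv_pow, h3, inv_one]
  rw [pc_b (Fact.out : r.Prime) h2 j Q hQ hc _ _ h5 h4, inv_pow, h, h', inv_mul_cancel]

theorem Q7_indep (h2 : r ≠ 2) (hQ : IsPGroup r Q) (hc : PCen r Q)
    (hΩ : ∀ x, x ∈ Ω ↔ x ^ r = 1) (hm : Mod r Ω V f ρ) {i j : ℕ}
    (h1 : ∀ c : Q, c ^ r ^ j = 1 → ∀ d, c * d = d * c)
    (h3 : ∀ d : Q, d ^ r ^ i = 1 → ∀ c : Q, c ^ r ^ (j + 1) = 1 → c * d = d * c)
    {d d' c c' : Q} {u w : V} (hd : d ^ r ^ i = f u) (hd' : d' ^ r ^ i = f u)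
    (hcw : c ^ r ^ j = f w) (hcw' : c' ^ r ^ j = f w) :
    c * d * c⁻¹ * d⁻¹ = c' * d' * c'⁻¹ * d'⁻¹ := by
  have e1 : c * d * c⁻¹ * d⁻¹ = c * d' * c⁻¹ * d'⁻¹ := by
    have h4 := h3 _ (Q7_div h2 hQ hc hΩ hm hd hd') c (Q7_pow hΩ hm hcw)
    set e := d⁻¹ * d' with he
    have h5 : d' = d * e := by rw [he]; group
    have h6 : c⁻¹ * e = e * c⁻¹ := by
      calc c⁻¹ * e = c⁻¹ * (e * c) * c⁻¹ := by group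
        _ = c⁻¹ * (c * e) * c⁻¹ := by rw [h4]
        _ = e * c⁻¹ := by group
    rw [h5]
    calc c * d * c⁻¹ * d⁻¹ = c * d * (c⁻¹ * e) * e⁻¹ * d⁻¹ := by group
      _ = c * d * (e * c⁻¹) * e⁻¹ * d⁻¹ := by rw [h6]
      _ = c * (d * e) * c⁻¹ * (d * e)⁻¹ := by group
  rw [e1]
  have h4 := h1 _ (Q7_div h2 hQ hc hΩ hm hcw hcw') d'
  set e := c⁻¹ * c' with he
  have h5 : c' = c * e := by rw [he]; group
  rw [h5]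
  calc c * d' * c⁻¹ * d'⁻¹ = c * (d' * e) * e⁻¹ * c⁻¹ * d'⁻¹ := by group
    _ = c * (e * d') * e⁻¹ * c⁻¹ * d'⁻¹ := by rw [h4]
    _ = c * e * d' * (c * e)⁻¹ * d'⁻¹ := by group

/-- (3.3)(d), the map `β`.

Proof.  Let `d ^ r ^ i = f u`, `c ^ r ^ j = f w`, so `d ^ r ^ (i+1) = 1`, `c ^ r ^ (j+1) = 1`.
`c ^ r` satisfies `(c ^ r) ^ r ^ j = 1`, so it is central, and `[c, g] ∈ Ω` for all `g` by `pc_comm1`.
`[c, d] = c d c⁻¹ d⁻¹` does not depend on the choice of `d`: if `d' ^ r ^ i = f u` too then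
`e := d⁻¹ d'` satisfies `e ^ r ^ i = 1` (by `pc_b` for `d⁻¹`, `d'`), so `e` commutes with `c` (second
hypothesis); nor on `c`: `c' = c e`, `e ^ r ^ j = 1`, `e` central.  So define `β u w` by
`f (β u w) = [c, d]` for some choice (and `0` if there is none). -/
theorem pc_beta (h2 : r ≠ 2) (hQ : IsPGroup r Q) (hc : PCen r Q)
    (hΩ : ∀ x, x ∈ Ω ↔ x ^ r = 1) (hm : Mod r Ω V f ρ) {i j : ℕ}
    (h1 : ∀ c : Q, c ^ r ^ j = 1 → ∀ d, c * d = d * c)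
    (h3 : ∀ d : Q, d ^ r ^ i = 1 → ∀ c : Q, c ^ r ^ (j + 1) = 1 → c * d = d * c) :
    ∃ β : V → V → V, ∀ (d c : Q) (u w : V), d ^ r ^ i = f u → c ^ r ^ j = f w →
      c * d * c⁻¹ * d⁻¹ = f (β u w) := by
  classical
  have key : ∀ u w : V, ∃ b : V, ∀ (d c : Q), d ^ r ^ i = f u → c ^ r ^ j = f w →
      c * d * c⁻¹ * d⁻¹ = f b := by
    intro u w
    by_cases h : ∃ d c : Q, d ^ r ^ i = f u ∧ c ^ r ^ j = f w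
    · obtain ⟨d₀, c₀, hd₀, hc₀⟩ := h
      have h4 : c₀ * d₀ * c₀⁻¹ * d₀⁻¹ ∈ Ω := (hΩ _).2 (Q7_comm h2 hQ hc hΩ hm h1 hc₀ d₀)
      obtain ⟨b, hb⟩ := (hm.mem _).1 h4
      refine ⟨b, fun d c hd hc' => ?_⟩
      rw [hb]
      exact Q7_indep h2 hQ hc hΩ hm h1 h3 hd hd₀ hc' hc₀
    · exact ⟨0, fun d c hd hc' => absurd ⟨d, c, hd, hc'⟩ h⟩
  choose β hβ using key
  exact ⟨β, fun d c u w hd hc' => hβ u w d c hd hc'⟩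

/-- (3.3)(d), bilinearity: `[c, d d'] = [c, d] [c, d']` and `[c c', d] = [c, d] [c', d]` because the
commutators are central, and `(d d') ^ r ^ i = f (u + u')` by `pc_b`. -/
theorem pc_bilin (h2 : r ≠ 2) (hQ : IsPGroup r Q) (hc : PCen r Q)
    (hΩ : ∀ x, x ∈ Ω ↔ x ^ r = 1) (hm : Mod r Ω V f ρ) {i j : ℕ}
    (h1 : ∀ c : Q, c ^ r ^ j = 1 → ∀ d, c * d = d * c)
    {β : V → V → V} (hβ : ∀ (d c : Q) (u w : V), d ^ r ^ i = f u → c ^ r ^ j = f w →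
      c * d * c⁻¹ * d⁻¹ = f (β u w)) :
    (∀ u u' w : V, (∃ d : Q, d ^ r ^ i = f u) → (∃ d : Q, d ^ r ^ i = f u') →
      (∃ c : Q, c ^ r ^ j = f w) → β (u + u') w = β u w + β u' w) ∧
    (∀ u w w' : V, (∃ d : Q, d ^ r ^ i = f u) → (∃ c : Q, c ^ r ^ j = f w) →
      (∃ c : Q, c ^ r ^ j = f w') → β u (w + w') = β u w + β u w') := by
  have hpr : r.Prime := Fact.out
  refine ⟨?_, ?_⟩
  · rintro u u' w ⟨d, hd⟩ ⟨d', hd'⟩ ⟨c, hcw⟩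
    apply hm.inj
    have h3 : (d * d') ^ r ^ i = f (u + u') := by
      rw [pc_b hpr h2 i Q hQ hc _ _ (Q7_pow hΩ hm hd) (Q7_pow hΩ hm hd'), hd, hd', hm.add]
    rw [hm.add, ← hβ _ _ _ _ h3 hcw, ← hβ _ _ _ _ hd hcw, ← hβ _ _ _ _ hd' hcw]
    have h4 := hc _ (Q7_comm h2 hQ hc hΩ hm h1 hcw d') d⁻¹
    calc c * (d * d') * c⁻¹ * (d * d')⁻¹ = c * d * c⁻¹ * (c * d' * c⁻¹ * d'⁻¹ * d⁻¹) := by group
      _ = c * d * c⁻¹ * (d⁻¹ * (c * d' * c⁻¹ * d'⁻¹)) := by rw [h4]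
      _ = _ := by group
  · rintro u w w' ⟨d, hd⟩ ⟨c, hcw⟩ ⟨c', hcw'⟩
    apply hm.inj
    have h3 : (c * c') ^ r ^ j = f (w + w') := by
      rw [pc_b hpr h2 j Q hQ hc _ _ (Q7_pow hΩ hm hcw) (Q7_pow hΩ hm hcw'), hcw, hcw', hm.add]
    rw [hm.add, ← hβ _ _ _ _ hd h3, ← hβ _ _ _ _ hd hcw, ← hβ _ _ _ _ hd hcw']
    have h4 := hc _ (Q7_comm h2 hQ hc hΩ hm h1 hcw' d) (d * c⁻¹ * d⁻¹)
    calc c * c' * d * (c * c')⁻¹ * d⁻¹ = c * ((c' * d * c'⁻¹ * d⁻¹) * (d * c⁻¹ * d⁻¹)) := by group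
      _ = c * ((d * c⁻¹ * d⁻¹) * (c' * d * c'⁻¹ * d⁻¹)) := by rw [h4]
      _ = _ := by group

end FPX
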