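import Pool.Agent.FPX.Q7

namespace FPX

variable {Q : Type} [Group Q] [Finite Q] {r : ℕ} [Fact r.Prime] {Ω : Subgroup Q}
  {V : Type} [AddCommGroup V] [Module (ZMod r) V] {f : V → Q}
  {ρ : MulAut Q →* (V ≃ₗ[ZMod r] V)}

theorem Q8_zero (hm : Mod r Ω V f ρ) : f 0 = 1 := by
  have h := hm.add 0 0
  rw [add_zero] at h
  exact (left_eq_mul.1 h)

theorem Q8_zpow (hm : Mod r Ω V f ρ) (v : V) (k : ℤ) : f (k • v) = f v ^ k := by
  have h := map_zpow ({ toFun := fun v => f (Multiplicative.toAdd v)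
                        map_one' := Q8_zero hm
                        map_mul' := fun a b => hm.add _ _ } : Multiplicative V →* Q) (Multiplicative.ofAdd v) k
  exact h

/-- (3.3)(d): `β u w` is in the span of `u` and `w`.

Proof.  Let `d ^ r ^ i = f u`, `c ^ r ^ j = f w`.  If `u = 0` then `d` can be taken `1` (well: `1 ^ r ^ i = f 0`),
so `β u w = 0`.  Let `u ≠ 0`; `H = zpowers d ⊔ zpowers (f w)` (`f w ∈ Ω` is central).  If
`d ^ k (f w) ^ l ∈ Ω` then `(d ^ k) ^ r = 1`; `d` has order `r ^ (i+1)` (`u ≠ 0`), so `r ^ i ∣ k` and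
`d ^ k` is a power of `f u`: so `f v ∈ H` iff `v` is in the span of `u, w`.  Let `α` have
fixed points `H`.  `α d = d`, and `(α c) ^ r ^ j = α (f w) = f w`, so by `hβ` for the pairs `(d, c)` and
`(d, α c)`, `[α c, d] = f (β u w) = [c, d]`; and `[α c, d] = α [c, d]`.  So `[c, d] = f (β u w)` is fixed
by `α`, so it is in `H`. -/
theorem pc_span (hF : PF Q) (hc : PCen r Q) (hQ : IsPGroup r Q)
    (hΩ : ∀ x, x ∈ Ω ↔ x ^ r = 1) (hm : Mod r Ω V f ρ) {i j : ℕ}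
    {β : V → V → V} (hβ : ∀ (d c : Q) (u w : V), d ^ r ^ i = f u → c ^ r ^ j = f w →
      c * d * c⁻¹ * d⁻¹ = f (β u w)) (u w : V) (hu : ∃ d : Q, d ^ r ^ i = f u)
    (hw : ∃ c : Q, c ^ r ^ j = f w) : ∃ s t : ZMod r, β u w = s • u + t • w := by
  have hr : r.Prime := Fact.out
  have hf0 := Q8_zero hm
  obtain ⟨c, hcw⟩ := hw
  by_cases hu0 : u = 0
  · refine ⟨0, 0, ?_⟩
    rw [zero_smul, zero_smul, add_zero]
    apply hm.inj
    rw [hf0, ← hβ 1 c u w (by rw [one_pow, hu0, hf0]) hcw]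
    group
  obtain ⟨d, hdu⟩ := hu
  have hwΩ : f w ^ r = 1 := (hΩ _).1 ((hm.mem _).2 ⟨w, rfl⟩)
  have huΩ : f u ^ r = 1 := (hΩ _).1 ((hm.mem _).2 ⟨u, rfl⟩)
  have hwc : ∀ y : Q, f w * y = y * f w := hc _ hwΩ
  have hnorm : (Subgroup.zpowers (f w)).Normal := by
    refine ⟨fun n hn g => ?_⟩
    obtain ⟨k, hk⟩ := Subgroup.mem_zpowers_iff.1 hn
    have h1 : Commute g (f w ^ k) := (Commute.zpow_right (show Commute g (f w) from (hwc g).symm) k)
    have h2 : g * n * g⁻¹ = n := by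
      rw [← hk, h1.eq]
      group
    rw [h2]
    exact hn
  obtain ⟨α, hα⟩ := hF (Subgroup.zpowers d ⊔ Subgroup.zpowers (f w))
  have hαd : α d = d := (hα d).2 (Subgroup.mem_sup_left (Subgroup.mem_zpowers d))
  have hαw : α (f w) = f w := (hα _).2 (Subgroup.mem_sup_right (Subgroup.mem_zpowers _))
  have h1 := hβ d c u w hdu hcw
  have h2 := hβ d (α c) u w hdu (by rw [← map_pow, hcw, hαw])
  have h3 : α (f (β u w)) = f (β u w) := by
    conv_lhs => rw [← h1]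
    rw [map_mul, map_mul, map_mul, map_inv, map_inv, hαd, h2]
  have h4 := (hα _).1 h3
  rw [Subgroup.mem_sup_of_normal_right] at h4
  obtain ⟨y, hy, z, hz, hyz⟩ := h4
  obtain ⟨k, hk⟩ := Subgroup.mem_zpowers_iff.1 hy
  obtain ⟨l, hl⟩ := Subgroup.mem_zpowers_iff.1 hz
  have hβΩ : f (β u w) ^ r = 1 := (hΩ _).1 ((hm.mem _).2 ⟨_, rfl⟩)
  have hcom : Commute (d ^ k) (f w ^ l) :=
    Commute.zpow_right (show Commute (d ^ k) (f w) from (hwc _).symm) l
  have hwl : (f w ^ l) ^ r = 1 := by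
    rw [← zpow_natCast, ← zpow_mul, _root_.mul_comm, zpow_mul, zpow_natCast, hwΩ, one_zpow]
  have hdk : d ^ (k * r) = 1 := by
    rw [← hyz, ← hk, ← hl, hcom.mul_pow, hwl, mul_one, ← zpow_natCast, ← zpow_mul] at hβΩ
    exact hβΩ
  have hfu : f u ≠ 1 := by
    intro h
    apply hu0
    apply hm.inj
    rw [h, hf0]
  have hord : orderOf d = r ^ (i + 1) := by
    apply orderOf_eq_prime_pow
    · rw [hdu]; exact hfu
    · rw [pow_succ, pow_mul, hdu, huΩ]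
  have hdvd : ((r ^ (i + 1) : ℕ) : ℤ) ∣ k * r := by
    rw [← hord]
    exact orderOf_dvd_iff_zpow_eq_one.2 hdk
  have hr0 : (r : ℤ) ≠ 0 := by exact_mod_cast hr.ne_zero
  have hdvd2 : ((r ^ i : ℕ) : ℤ) ∣ k := by
    rw [pow_succ, Nat.cast_mul] at hdvd
    exact Int.dvd_of_mul_dvd_mul_right hr0 hdvd
  obtain ⟨k', hk'⟩ := hdvd2
  have hdk' : d ^ k = f (k' • u) := by
    rw [hk', zpow_mul, zpow_natCast, hdu, Q8_zpow hm]
  refine ⟨(k' : ZMod r), (l : ZMod r), ?_⟩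
  rw [Int.cast_smul_eq_zsmul, Int.cast_smul_eq_zsmul]
  apply hm.inj
  rw [hm.add, ← hdk', Q8_zpow hm, ← hyz, ← hk, ← hl]

end FPX
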