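import Pool.Agent.FPX.Defs3

namespace FPX

/-- Automorphisms of a semidirect product: `(v, x) ↦ (φ v * w0 * (θ (ψ x) w0)⁻¹, ψ x)`.

Proof.  It is the composition of `(v, x) ↦ (φ v, ψ x)` (an automorphism by the compatibility `h`;
inverse `(φ⁻¹, ψ⁻¹)`) and conjugation by `w0`: `(w0, 1)(v, x)(w0⁻¹, 1) = (w0 v (θ x w0)⁻¹, x)`.  `(v, x)`
is fixed iff `ψ x = x` and `φ v * w0 * (θ x w0)⁻¹ = v`. -/
theorem sdp_aut {N R : Type} [CommGroup N] [Group R] (θ : R →* MulAut N) (φ : MulAut N)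
    (ψ : MulAut R) (h : ∀ x v, φ (θ x v) = θ (ψ x) (φ v)) (w0 : N) :
    ∃ α : MulAut (N ⋊[θ] R), ∀ k : N ⋊[θ] R, α k = k ↔
      ψ k.right = k.right ∧ φ k.left * (k.left)⁻¹ = θ k.right w0 * w0⁻¹ := by
  have hc : ∀ g, (θ g).trans φ = φ.trans (θ (ψ g)) := by
    intro g
    ext v
    exact h g v
  refine ⟨(SemidirectProduct.congr φ ψ hc).trans (MulAut.conj (SemidirectProduct.inl w0)), ?_⟩
  intro k
  have hval : ((SemidirectProduct.congr φ ψ hc).trans
      (MulAut.conj (SemidirectProduct.inl w0 : N ⋊[θ] R))) k =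
      ⟨w0 * φ k.left * (θ (ψ k.right) w0)⁻¹, ψ k.right⟩ := by
    show MulAut.conj (SemidirectProduct.inl w0 : N ⋊[θ] R)
      (⟨φ k.left, ψ k.right⟩ : N ⋊[θ] R) = _
    rw [MulAut.conj_apply]
    ext <;> simp
  rw [hval]
  constructor
  · intro hk
    have h1 : w0 * φ k.left * (θ (ψ k.right) w0)⁻¹ = k.left := congrArg SemidirectProduct.left hk
    have h2 : ψ k.right = k.right := congrArg SemidirectProduct.right hk
    refine ⟨h2, ?_⟩
    rw [h2] at h1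
    rw [mul_inv_eq_iff_eq_mul] at h1
    rw [mul_inv_eq_iff_eq_mul, mul_right_comm, eq_mul_inv_iff_mul_eq, mul_comm, h1, mul_comm]
  · rintro ⟨h2, h1⟩
    rw [h2]
    have h3 : w0 * φ k.left * (θ k.right w0)⁻¹ = k.left := by
      rw [mul_inv_eq_iff_eq_mul] at h1
      rw [h1, mul_inv_eq_iff_eq_mul]
      rw [mul_comm (θ k.right w0) w0⁻¹, mul_assoc, mul_inv_cancel_left, mul_comm]
    ext
    · exact h3
    · rfl

end FPX
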