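import Pool.Agent.FPX.Defs3
import Pool.Agent.FPX.L14
import Pool.Agent.FPX.L15
import Pool.Agent.FPX.L1

namespace FPX

variable {p r : ℕ} [Fact p.Prime] {V : Type} [AddCommGroup V] [Module (ZMod p) V] [Finite V]
  {X : V ≃ₗ[ZMod p] V}

omit [Finite V] in
theorem R2_two (h : Plane p r V X) : (2 : ZMod p) ≠ 0 := by
  intro h1
  have h2 : ((2 : ℕ) : ZMod p) = 0 := by exact_mod_cast h1
  rw [ZMod.natCast_eq_zero_iff] at h2
  have h3 := Nat.le_of_dvd two_pos h2
  have h4 := h.p5
  omega

omit [Finite V] in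
theorem R2_three (h : Plane p r V X) : (3 : ZMod p) ≠ 0 := by
  intro h1
  have h2 : ((3 : ℕ) : ZMod p) = 0 := by exact_mod_cast h1
  rw [ZMod.natCast_eq_zero_iff] at h2
  have h3 := Nat.le_of_dvd (by norm_num) h2
  have h4 := h.p5
  omega

omit [Finite V] in
theorem R2_r (h : Plane p r V X) : (r : ZMod p) ≠ 0 := by
  intro h1
  rw [ZMod.natCast_eq_zero_iff] at h1
  exact h.rp ((Nat.prime_dvd_prime_iff_eq (Fact.out : p.Prime) h.rprime).1 h1).symm

omit [Finite V] in
/-- a projection onto `U` commuting with `X` -/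
theorem R2_proj (h : Plane p r V X) (U : Submodule (ZMod p) V) (hU : ∀ u ∈ U, X u ∈ U) :
    ∃ E : V →ₗ[ZMod p] V, (∀ v, E v ∈ U) ∧ (∀ u ∈ U, E u = u) ∧ ∀ v, X (E v) = E (X v) := by
  obtain ⟨g, hg⟩ := U.subtype.exists_leftInverse_of_injective U.ker_subtype
  have hg' : ∀ u : U, g (u : V) = u := fun u => LinearMap.congr_fun hg u
  have hpow : ∀ i : ℕ, ∀ u ∈ U, (X ^ i) u ∈ U := by
    intro i
    induction i with
    | zero =>
      intro u hu
      exact hu
    | succ i ih =>
      intro u hu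
      rw [pow_succ, LinearEquiv.mul_apply]
      exact ih _ (hU u hu)
  have hrpos : 1 ≤ r := h.rprime.one_lt.le
  have hXinv : X⁻¹ = X ^ (r - 1) := by
    rw [inv_eq_iff_mul_eq_one, ← pow_succ', Nat.sub_add_cancel hrpos, h.Xr]
  have hpow' : ∀ i : ℕ, ∀ u ∈ U, (X ^ i)⁻¹ u ∈ U := by
    intro i u hu
    rw [← inv_pow, hXinv, ← pow_mul]
    exact hpow _ u hu
  have hcancel : ∀ i : ℕ, ∀ v, (X ^ i) ((X ^ i)⁻¹ v) = v := by
    intro i v
    rw [← LinearEquiv.mul_apply, mul_inv_cancel]
    rfl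
  let F : ℕ → (V →ₗ[ZMod p] V) := fun i =>
    ((X ^ i : V ≃ₗ[ZMod p] V) : V →ₗ[ZMod p] V).comp
      ((U.subtype.comp g).comp (((X ^ i)⁻¹ : V ≃ₗ[ZMod p] V) : V →ₗ[ZMod p] V))
  have hF : ∀ i v, F i v = (X ^ i) (g ((X ^ i)⁻¹ v) : V) := fun i v => rfl
  have hFU : ∀ i v, F i v ∈ U := fun i v => by
    rw [hF]
    exact hpow i _ (g _).2
  have hFu : ∀ i, ∀ u ∈ U, F i u = u := by
    intro i u hu
    rw [hF]
    have h1 := hg' ⟨(X ^ i)⁻¹ u, hpow' i u hu⟩
    have h2 : (g ((X ^ i)⁻¹ u) : V) = (X ^ i)⁻¹ u := congrArg Subtype.val h1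
    rw [h2, hcancel]
  have hFX : ∀ i v, X (F i v) = F (i + 1) (X v) := by
    intro i v
    rw [hF, hF]
    have h1 : (X ^ (i + 1))⁻¹ (X v) = (X ^ i)⁻¹ v := by
      rw [← LinearEquiv.mul_apply, pow_succ', mul_inv_rev, mul_assoc, inv_mul_cancel, mul_one]
    rw [h1, pow_succ', LinearEquiv.mul_apply]
  have hFr : ∀ v, F r v = F 0 v := by
    intro v
    rw [hF, hF, h.Xr, pow_zero]
  refine ⟨(r : ZMod p)⁻¹ • ∑ i ∈ Finset.range r, F i, ?_, ?_, ?_⟩
  · intro v
    rw [LinearMap.smul_apply, LinearMap.sum_apply]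
    exact U.smul_mem _ (U.sum_mem fun i _ => hFU i v)
  · intro u hu
    rw [LinearMap.smul_apply, LinearMap.sum_apply, Finset.sum_congr rfl (fun i _ => hFu i u hu),
      Finset.sum_const, Finset.card_range, ← Nat.cast_smul_eq_nsmul (ZMod p), smul_smul,
      inv_mul_cancel₀ (R2_r h), one_smul]
  · intro v
    rw [LinearMap.smul_apply, LinearMap.sum_apply, LinearMap.smul_apply, LinearMap.sum_apply,
      map_smul, map_sum, Finset.sum_congr rfl (fun i _ => hFX i v)]
    congr 1
    have h1 := Finset.sum_range_succ (fun i => F i (X v)) r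
    have h2 := Finset.sum_range_succ' (fun i => F i (X v)) r
    rw [h1, hFr] at h2
    exact (add_right_cancel h2).symm

/-- For an `X`-invariant `U` there is `φ` commuting with `X` with fixed space `U`, and such that the
range of `φ - 1` meets `U` trivially.

Proof.  `U` has an `X`-invariant complement `U'` (average a projection onto `U` over the powers of
`X`, whose order `r` is prime to `p`; or, `U = ⊥, ⊤` being trivial, `U` is a line on which `X = c`;
if `X` has another eigenvalue take its eigenline, and if `X` is the scalar `c` any complement).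
`φ = 1` on `U` and `φ = 2` on `U'` (`2 ≠ 0, 1` in `F_p`). -/
theorem Plane.inv (h : Plane p r V X) (U : Submodule (ZMod p) V) (hU : ∀ u ∈ U, X u ∈ U) :
    ∃ φ : V ≃ₗ[ZMod p] V, φ * X = X * φ ∧ (∀ v, φ v = v ↔ v ∈ U) ∧
      (∀ v, φ v - v ∈ U → φ v = v) := by
  obtain ⟨E, hE1, hE2, hE3⟩ := R2_proj h U hU
  have hEE : ∀ v, E (E v) = E v := fun v => hE2 _ (hE1 v)
  have h2 := R2_two h
  let f : V →ₗ[ZMod p] V := (2 : ZMod p) • LinearMap.id - E
  have hf : ∀ v, f v = (2 : ZMod p) • v - E v := fun v => rfl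
  have hinj : Function.Injective f := by
    rw [injective_iff_map_eq_zero]
    intro v hv
    rw [hf] at hv
    have h3 := congrArg E hv
    rw [map_sub, map_smul, hEE, map_zero] at h3
    have h4 : E v = 0 := by
      have h5 : (2 : ZMod p) • E v - E v = E v := by
        rw [two_smul]
        abel
      rw [← h5]
      exact h3
    rw [h4, sub_zero] at hv
    exact (smul_eq_zero.1 hv).resolve_left h2
  let φ : V ≃ₗ[ZMod p] V := LinearEquiv.ofBijective f ⟨hinj, Finite.surjective_of_injective hinj⟩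
  have hφ : ∀ v, φ v = (2 : ZMod p) • v - E v := fun v => rfl
  have hsub : ∀ v, φ v - v = v - E v := by
    intro v
    rw [hφ, two_smul]
    abel
  refine ⟨φ, ?_, ?_, ?_⟩
  · ext v
    rw [LinearEquiv.mul_apply, LinearEquiv.mul_apply, hφ, hφ, map_sub, map_smul, hE3]
  · intro v
    rw [← sub_eq_zero, hsub, sub_eq_zero]
    constructor
    · intro h3
      rw [h3]
      exact hE1 v
    · intro h3
      exact (hE2 v h3).symm
  · intro v hv
    rw [hsub] at hv
    have h3 := hE2 _ hv
    rw [map_sub, hEE, sub_self] at h3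
    rw [← sub_eq_zero, hsub]
    exact h3.symm

omit [Finite V] in
/-- the reflection attached to `w` -/
theorem R2_refl (h : Plane p r V X) {w : V} (hw : NI X w) :
    ∃ f : V →ₗ[ZMod p] V, (∀ v, f (X v) = X⁻¹ (f v)) ∧ (∀ v, f (f v) = v) ∧
      (∀ v, f v = v ↔ ∃ c : ZMod p, v = c • w) ∧
      ∀ v, ∃ a c : ZMod p, v = a • w + c • X w := by
  have hw0 : w ≠ 0 := by
    rintro rfl
    exact hw 0 (by rw [map_zero, smul_zero])
  have hli : LinearIndependent (ZMod p) ![w, X w] := by
    rw [LinearIndependent.pair_iff]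
    intro s t hst
    have ht : t = 0 := by
      by_contra ht
      apply hw (-s / t)
      have h1 : t • X w = (-s) • w := by
        rw [neg_smul]
        exact eq_neg_of_add_eq_zero_right hst
      rw [div_eq_inv_mul, mul_smul, ← h1, smul_smul, inv_mul_cancel₀ ht, one_smul]
    rw [ht, zero_smul, add_zero] at hst
    exact ⟨(smul_eq_zero.1 hst).resolve_right hw0, ht⟩
  let b : Module.Basis (Fin 2) (ZMod p) V := basisOfLinearIndependentOfCardEqFinrank hli (by
    rw [Fintype.card_fin, h.fr])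
  have hb0 : b 0 = w := by
    simp [b]
  have hb1 : b 1 = X w := by
    simp [b]
  have hspan : ∀ v, ∃ a c : ZMod p, v = a • w + c • X w := by
    intro v
    refine ⟨b.repr v 0, b.repr v 1, ?_⟩
    have h1 := b.sum_repr v
    rw [Fin.sum_univ_two, hb0, hb1] at h1
    exact h1.symm
  obtain ⟨τ, hτ⟩ := h.Xtau
  have hX1 : ∀ v, X (X⁻¹ v) = v := by
    intro v
    rw [← LinearEquiv.mul_apply, mul_inv_cancel]
    rfl
  have hX2 : ∀ v, X⁻¹ (X v) = v := by
    intro v
    rw [← LinearEquiv.mul_apply, inv_mul_cancel]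
    rfl
  have hXX : X (X w) = τ • X w - w := by
    have h1 := hτ (X w)
    rw [hX2] at h1
    exact eq_sub_of_add_eq h1
  have hYY : X⁻¹ (X⁻¹ w) = τ • X⁻¹ w - w := by
    have h1 := hτ (X⁻¹ w)
    rw [hX1] at h1
    rw [← h1]
    abel
  have hY : X⁻¹ w = τ • w - X w := by
    rw [← hτ w]
    abel
  let f : V →ₗ[ZMod p] V := b.constr (ZMod p) ![w, X⁻¹ w]
  have hf0 : f w = w := by
    conv_lhs => rw [← hb0]
    exact b.constr_basis (ZMod p) _ 0
  have hf1 : f (X w) = X⁻¹ w := by
    rw [← hb1]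
    exact b.constr_basis (ZMod p) _ 1
  have hf2 : f (X⁻¹ w) = X w := by
    rw [hY, map_sub, map_smul, hf0, hf1, hY]
    abel
  refine ⟨f, ?_, ?_, ?_, hspan⟩
  · intro v
    obtain ⟨a, c, rfl⟩ := hspan v
    rw [map_add, map_smul, map_smul, hXX, map_add, map_smul, map_smul, map_sub, map_smul, hf0,
      hf1, map_add, map_smul, map_smul, hf0, hf1, map_add, map_smul, map_smul, hYY]
  · intro v
    obtain ⟨a, c, rfl⟩ := hspan v
    rw [map_add, map_smul, map_smul, hf0, hf1, map_add, map_smul, map_smul, hf0, hf2]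
  · intro v
    constructor
    · intro hv
      obtain ⟨a, c, rfl⟩ := hspan v
      rw [map_add, map_smul, map_smul, hf0, hf1] at hv
      have h1 : c • (X w - X⁻¹ w) = 0 := by
        rw [smul_sub, sub_eq_zero]
        exact (add_left_cancel hv).symm
      rcases smul_eq_zero.1 h1 with h2 | h2
      · exact ⟨a, by rw [h2, zero_smul, add_zero]⟩
      · exact absurd (h.x_ne_inv (sub_eq_zero.1 h2)) hw0
    · rintro ⟨c, rfl⟩
      rw [map_smul, hf0]

/-- For `U = 0` or `U` not `X`-invariant there is `φ` inverting `X` with fixed space `U`.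

Proof.  For `w` with `NI X w`, `w, X w` is a basis; let `φ_w w = w`, `φ_w (X w) = X⁻¹ w`
(`X⁻¹ w = τ w - X w`).  `φ_w X = X⁻¹ φ_w`: on `w` clear; on `X w`: `X (X w) = τ X w - w`,
`φ_w (X X w) = τ X⁻¹ w - w = X⁻¹ X⁻¹ w = X⁻¹ φ_w (X w)`.  `φ_w ^ 2 = 1`, `φ_w ≠ 1`
(`Plane.x_ne_inv`), the fixed space is the line of `w` and the other eigenvalue is `-1`.
If `U` is not `X`-invariant it is a line, spanned by `w` with `NI X w`: take `φ_w`.  If `U = 0` take
`2 φ_w` (with any `w`, `Plane.exists_ni`): its eigenvalues are `2` and `-2`, different from `1` as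
`p ≥ 5`. -/
theorem Plane.refl_exists (h : Plane p r V X) (hns : ¬ ∃ c : ZMod p, ∀ v, X v = c • v)
    (U : Submodule (ZMod p) V) (hU : U = ⊥ ∨ ∃ u ∈ U, X u ∉ U) :
    ∃ φ : V ≃ₗ[ZMod p] V, φ * X = X⁻¹ * φ ∧ (∀ v, φ v = v ↔ v ∈ U) := by
  rcases hU with rfl | ⟨u, hu, hXu⟩
  · obtain ⟨w, hw⟩ := h.exists_ni hns
    obtain ⟨f, hf1, hf2, hf3, hf4⟩ := R2_refl h hw
    have hfix : ∀ v, (2 : ZMod p) • f v = v → v = 0 := by
      intro v hv
      have h1 := congrArg f hv
      rw [map_smul, hf2] at h1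
      rw [← h1, smul_smul] at hv
      have h2 : (3 : ZMod p) • v = 0 := by
        have h3 : (3 : ZMod p) • v = (2 * 2 : ZMod p) • v - v := by
          module
        rw [h3, hv, sub_self]
      exact (smul_eq_zero.1 h2).resolve_left (R2_three h)
    have hinj : Function.Injective ((2 : ZMod p) • f) := by
      rw [injective_iff_map_eq_zero]
      intro v hv
      have h1 : (2 : ZMod p) • f v = 0 := hv
      have h2 := (smul_eq_zero.1 h1).resolve_left (R2_two h)
      rw [← hf2 v, h2, map_zero]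
    let φ : V ≃ₗ[ZMod p] V :=
      LinearEquiv.ofBijective ((2 : ZMod p) • f) ⟨hinj, Finite.surjective_of_injective hinj⟩
    have hφ : ∀ v, φ v = (2 : ZMod p) • f v := fun v => rfl
    refine ⟨φ, ?_, ?_⟩
    · ext v
      rw [LinearEquiv.mul_apply, LinearEquiv.mul_apply, hφ, hφ, hf1, map_smul]
    · intro v
      rw [hφ, Submodule.mem_bot]
      constructor
      · exact hfix v
      · rintro rfl
        rw [map_zero, smul_zero]
  · have hw : NI X u := by
      intro c hc
      apply hXu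
      rw [hc]
      exact U.smul_mem c hu
    obtain ⟨f, hf1, hf2, hf3, hf4⟩ := R2_refl h hw
    have hinj : Function.Injective f := Function.LeftInverse.injective hf2
    let φ : V ≃ₗ[ZMod p] V :=
      LinearEquiv.ofBijective f ⟨hinj, Finite.surjective_of_injective hinj⟩
    have hφ : ∀ v, φ v = f v := fun v => rfl
    refine ⟨φ, ?_, ?_⟩
    · ext v
      rw [LinearEquiv.mul_apply, LinearEquiv.mul_apply, hφ, hφ, hf1]
    · intro v
      rw [hφ, hf3]
      constructor
      · rintro ⟨c, rfl⟩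
        exact U.smul_mem c hu
      · intro hv
        obtain ⟨a, c, rfl⟩ := hf4 v
        have h1 : c • X u ∈ U := by
          have h2 := U.sub_mem hv (U.smul_mem a hu)
          rwa [add_sub_cancel_left] at h2
        by_cases hc : c = 0
        · exact ⟨a, by rw [hc, zero_smul, add_zero]⟩
        · exfalso
          apply hXu
          have h2 := U.smul_mem c⁻¹ h1
          rwa [smul_smul, inv_mul_cancel₀ hc, one_smul] at h2

end FPX
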