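import Pool.Agent.FPX.Defs3
import Pool.Agent.FPX.B2

namespace FPX

variable {r : ℕ} {C A : Type} [CommGroup C] [CommGroup A] [Finite A] {c₀ : C}

omit [Finite A] in
theorem R3_odd (hr : r.Prime) (h2 : r ≠ 2) [Finite A] (hA : IsPGroup r A) : Odd (Nat.card A) := by
  have : Fact r.Prime := ⟨hr⟩
  obtain ⟨n, hn⟩ := IsPGroup.iff_card.mp hA
  rw [hn]
  exact (hr.odd_of_ne_two h2).pow

/-- The fixed points of an automorphism of `A` can be prescribed. -/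
theorem R3_gamma (hr : r.Prime) (h2 : r ≠ 2) (hA : IsPGroup r A) (S : Subgroup (C × A)) :
    ∃ γ : MulAut A, ∀ a, γ a = a ↔ ((1 : C), a) ∈ S := by
  obtain ⟨γ, hγ⟩ := pf_odd A (R3_odd hr h2 hA) (S.comap (MonoidHom.inr C A))
  exact ⟨γ, fun a => hγ a⟩

/-- Automorphisms of `C × A`, `C` cyclic of order the odd prime `r` generated by `c₀`, `A` an
`r`-group, `S` a subgroup.  (1) `S` not contained in `A`.

Proof.  `S` contains some `(c₀, a₁)` (`S` has an element with first component `≠ 1`; take a power).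
`S_A = {a : (1, a) ∈ S}`; `pf_odd` gives `γ` on `A` with fixed points `S_A`.  `a₂ := a₁ γ(a₁)⁻¹`
satisfies `a₂ ^ r = 1` (`(c₀, a₁) ^ r = (1, a₁ ^ r)` is in `S`, so `γ` fixes `a₁ ^ r`).  Let
`η : C →* A` with `η c₀ = a₂` and `ψ (c, a) = (c, η c * γ a)`, an automorphism.
`ψ (c₀, a₁) = (c₀, a₁)`.  Every element is `(c₀, a₁) ^ i (1, a)`, and `ψ` fixes it iff `γ a = a` iff
`a ∈ S_A` iff the element is in `S`. -/
theorem psi1 (hr : r.Prime) (h2 : r ≠ 2) (hgen : ∀ c : C, ∃ i : ℕ, c = c₀ ^ i)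
    (hord : orderOf c₀ = r) (hA : IsPGroup r A) (S : Subgroup (C × A))
    (hS : ∃ s ∈ S, s.1 ≠ 1) :
    ∃ ψ : MulAut (C × A), (∀ x, (ψ x).1 = x.1) ∧ ∀ x, ψ x = x ↔ x ∈ S := by
  obtain ⟨γ, hγ⟩ := R3_gamma (C := C) hr h2 hA S
  obtain ⟨s, hsS, hs1⟩ := hS
  obtain ⟨i, hi⟩ := hgen s.1
  have hri : ¬ r ∣ i := by
    rintro ⟨k, rfl⟩
    apply hs1
    rw [hi, pow_mul, ← hord, pow_orderOf_eq_one, one_pow]
  have hcop : Nat.Coprime i r := ((Nat.Prime.coprime_iff_not_dvd hr).mpr hri).symm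
  obtain ⟨k, hk⟩ := Nat.exists_mul_mod_eq_one_of_coprime hcop hr.one_lt
  have hk' : i * k = r * (i * k / r) + 1 := by
    have := Nat.div_add_mod (i * k) r
    omega
  obtain ⟨a₁, ha₁⟩ : ∃ a₁ : A, (c₀, a₁) ∈ S := by
    refine ⟨s.2 ^ k, ?_⟩
    have h1 := S.pow_mem hsS k
    have h3 : s ^ k = (c₀, s.2 ^ k) := by
      apply Prod.ext
      · rw [Prod.pow_fst, hi, ← pow_mul, hk', pow_succ, pow_mul, ← hord, pow_orderOf_eq_one,
          one_pow, one_mul]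
      · rw [Prod.pow_snd]
    rwa [h3] at h1
  have har : γ (a₁ ^ r) = a₁ ^ r := by
    rw [hγ]
    have h1 := S.pow_mem ha₁ r
    have h3 : ((c₀, a₁) : C × A) ^ r = (1, a₁ ^ r) := by
      apply Prod.ext
      · rw [Prod.pow_fst, ← hord, pow_orderOf_eq_one]
      · rw [Prod.pow_snd]
    rwa [h3] at h1
  have ha₂ : (a₁ * (γ a₁)⁻¹) ^ r = 1 := by
    rw [mul_pow, inv_pow, ← map_pow, har, mul_inv_cancel]
  have hg : ∀ x : C, x ∈ Subgroup.zpowers c₀ := by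
    intro x
    obtain ⟨i, hi⟩ := hgen x
    rw [hi]
    exact Subgroup.npow_mem_zpowers c₀ i
  have hdvd : orderOf (a₁ * (γ a₁)⁻¹) ∣ orderOf c₀ := by
    rw [hord]
    exact orderOf_dvd_of_pow_eq_one ha₂
  obtain ⟨η, hη⟩ : ∃ η : C →* A, η c₀ = a₁ * (γ a₁)⁻¹ :=
    ⟨monoidHomOfForallMemZpowers hg hdvd, monoidHomOfForallMemZpowers_apply_gen hg hdvd⟩
  let ψ : MulAut (C × A) :=
    { toFun := fun x => (x.1, η x.1 * γ x.2)
      invFun := fun x => (x.1, γ⁻¹ ((η x.1)⁻¹ * x.2))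
      left_inv := by
        rintro ⟨c, a⟩
        show (c, γ⁻¹ ((η c)⁻¹ * (η c * γ a))) = (c, a)
        rw [inv_mul_cancel_left, MulAut.inv_apply_self]
      right_inv := by
        rintro ⟨c, a⟩
        show (c, η c * γ (γ⁻¹ ((η c)⁻¹ * a))) = (c, a)
        rw [MulAut.apply_inv_self, mul_inv_cancel_left]
      map_mul' := by
        rintro ⟨c, a⟩ ⟨c', a'⟩
        show (c * c', η (c * c') * γ (a * a')) = (c * c', (η c * γ a) * (η c' * γ a'))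
        rw [map_mul, map_mul, mul_mul_mul_comm] }
  have hψ : ∀ c a, ψ (c, a) = (c, η c * γ a) := fun c a => rfl
  refine ⟨ψ, fun x => rfl, ?_⟩
  rintro ⟨c, a⟩
  obtain ⟨i, hi⟩ := hgen c
  have h0 : ψ (c₀, a₁) = (c₀, a₁) := by
    rw [hψ, hη, inv_mul_cancel_right]
  have hx : ((c, a) : C × A) = (c₀, a₁) ^ i * (1, (a₁ ^ i)⁻¹ * a) := by
    apply Prod.ext
    · show c = (((c₀, a₁) : C × A) ^ i).1 * 1
      rw [Prod.pow_fst, mul_one, hi]
    · show a = (((c₀, a₁) : C × A) ^ i).2 * ((a₁ ^ i)⁻¹ * a)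
      rw [Prod.pow_snd, mul_inv_cancel_left]
  rw [hx, map_mul, map_pow, h0, hψ, map_one, one_mul, mul_right_inj,
    Subgroup.mul_mem_cancel_left S (S.pow_mem ha₁ i), ← hγ]
  constructor
  · intro h
    exact congrArg Prod.snd h
  · intro h
    rw [h]

/-- (2) `S ≤ A`: `ψ = id × γ`, fixed points `C × S`. -/
theorem psi2 (hr : r.Prime) (h2 : r ≠ 2) (hA : IsPGroup r A) (S : Subgroup (C × A))
    (hS : ∀ s ∈ S, s.1 = 1) :
    ∃ ψ : MulAut (C × A), (∀ x, (ψ x).1 = x.1) ∧ ∀ x, ψ x = x ↔ ((1 : C), x.2) ∈ S := by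
  obtain ⟨γ, hγ⟩ := R3_gamma (C := C) hr h2 hA S
  refine ⟨MulEquiv.prodCongr (MulEquiv.refl C) γ, fun x => rfl, ?_⟩
  rintro ⟨c, a⟩
  rw [← hγ]
  constructor
  · intro h
    exact congrArg Prod.snd h
  · intro h
    exact Prod.ext rfl h

/-- (3) `S ≤ A`: `ψ = inversion × γ`, fixed points `S` (`C` has odd order `r`). -/
theorem psi3 (hr : r.Prime) (h2 : r ≠ 2) (hgen : ∀ c : C, ∃ i : ℕ, c = c₀ ^ i)
    (hord : orderOf c₀ = r) (hA : IsPGroup r A) (S : Subgroup (C × A))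
    (hS : ∀ s ∈ S, s.1 = 1) :
    ∃ ψ : MulAut (C × A), (∀ x, (ψ x).1 = (x.1)⁻¹) ∧ ∀ x, ψ x = x ↔ x ∈ S := by
  obtain ⟨γ, hγ⟩ := R3_gamma (C := C) hr h2 hA S
  refine ⟨MulEquiv.prodCongr (MulEquiv.inv C) γ, fun x => rfl, ?_⟩
  rintro ⟨c, a⟩
  constructor
  · intro h
    have h1 : c⁻¹ = c := congrArg Prod.fst h
    have h3 : γ a = a := congrArg Prod.snd h
    obtain ⟨i, hi⟩ := hgen c
    have hc2 : c ^ 2 = 1 := by
      rw [pow_two]
      nth_rewrite 1 [← h1]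
      rw [inv_mul_cancel]
    have hcr : c ^ r = 1 := by
      rw [hi, ← pow_mul, mul_comm, pow_mul, ← hord, pow_orderOf_eq_one, one_pow]
    have h4 : orderOf c ∣ 2 := orderOf_dvd_of_pow_eq_one hc2
    have h5 : orderOf c ∣ r := orderOf_dvd_of_pow_eq_one hcr
    have hc : Nat.Coprime 2 r := (Nat.coprime_primes Nat.prime_two hr).mpr (Ne.symm h2)
    have h6 : c = 1 := orderOf_eq_one_iff.mp (Nat.dvd_one.mp (hc ▸ Nat.dvd_gcd h4 h5))
    rw [h6]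
    exact (hγ a).mp h3
  · intro h
    have h1 : c = 1 := hS _ h
    subst h1
    exact Prod.ext inv_one ((hγ a).mpr h)

end FPX
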