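import Pool.Agent.FPX.R1
import Pool.Agent.FPX.R2
import Pool.Agent.FPX.R3

namespace FPX

variable {p r : ℕ} [Fact p.Prime] {V : Type} [AddCommGroup V] [Module (ZMod p) V] [Finite V]
  {X : V ≃ₗ[ZMod p] V} {C A : Type} [CommGroup C] [CommGroup A] {c₀ : C}
  {χ : C →* MulAut (Multiplicative V)}

/-- The action of a power of the generator. -/
theorem R4_act (h : RSet p r V X C A c₀ χ) (i : ℕ) (v : V) :
    χ (c₀ ^ i) (Multiplicative.ofAdd v) = Multiplicative.ofAdd ((X ^ i) v) := by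
  induction i generalizing v with
  | zero =>
    rw [pow_zero, pow_zero, map_one]
    rfl
  | succ n ih =>
    rw [pow_succ, map_mul, MulAut.mul_apply, h.act, ih, pow_succ]
    rfl

/-- A linear automorphism as an automorphism of the multiplicative group. -/
theorem R4_mul (φ : V ≃ₗ[ZMod p] V) : ∃ Φ : MulAut (Multiplicative V),
    ∀ v, Φ (Multiplicative.ofAdd v) = Multiplicative.ofAdd (φ v) :=
  ⟨AddEquiv.toMultiplicative φ.toAddEquiv, fun _ => rfl⟩

/-- The common part of the three cases. -/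
theorem R4_core (h : RSet p r V X C A c₀ χ) (φ : V ≃ₗ[ZMod p] V) (ψ : MulAut (C × A))
    (hc : ∀ (x : C × A) (v : V), Multiplicative.ofAdd (φ (Multiplicative.toAdd
      (χ x.1 (Multiplicative.ofAdd v)))) = χ (ψ x).1 (Multiplicative.ofAdd (φ v))) (u : V) :
    ∃ α : MulAut (SD (A := A) χ), ∀ k : SD (A := A) χ, α k = k ↔
      ψ k.right = k.right ∧ φ (Multiplicative.toAdd k.left) - Multiplicative.toAdd k.left =
        Multiplicative.toAdd (χ k.right.1 (Multiplicative.ofAdd u)) - u := by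
  obtain ⟨Φ, hΦ⟩ := R4_mul φ
  obtain ⟨α, hα⟩ := sdp_aut (χ.comp (MonoidHom.fst C A)) Φ ψ (by
    intro x v
    have h1 := hc x (Multiplicative.toAdd v)
    rw [← hΦ, ← hΦ] at h1
    exact h1) (Multiplicative.ofAdd u)
  refine ⟨α, fun k => ?_⟩
  rw [hα k]
  refine and_congr_right fun _ => ?_
  have h2 : Φ k.left = Multiplicative.ofAdd (φ (Multiplicative.toAdd k.left)) :=
    hΦ (Multiplicative.toAdd k.left)
  rw [h2]
  constructor
  · intro h3
    have h4 := congrArg Multiplicative.toAdd h3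
    rw [sub_eq_add_neg, sub_eq_add_neg]
    exact h4
  · intro h3
    rw [sub_eq_add_neg, sub_eq_add_neg] at h3
    exact congrArg Multiplicative.ofAdd h3

/-- Subgroups of the form `U S` are groups of fixed points.

Proof.  `χ (c₀ ^ i) (ofAdd v) = ofAdd (X ^ i v)`.  Linear automorphisms `φ` of `V` give automorphisms of
`Multiplicative V` (`AddEquiv.toMultiplicative`).  Use `sdp_aut` with `θ = χ.comp (MonoidHom.fst C A)`.
Case 1: some `s ∈ S` has `s.1 ≠ 1`.  Then `U` is `X`-invariant (`c₀` is a power of `s.1`).  `φ` from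
`Plane.inv`, `ψ` from `psi1`, `w0 = 1`: the compatibility holds (`φ` commutes with `X`, `ψ` does not
change the first component), and the fixed points are `φ v = v`, `x ∈ S`.
Case 2: all `s.1 = 1`, `U ≠ ⊥` and `U` is `X`-invariant.  `φ` from `Plane.inv`, `ψ` from `psi2`,
`w0 = ofAdd u` with `0 ≠ u ∈ U`.  `(v, x)` is fixed iff `(1, x.2) ∈ S` and
`φ v - v = X ^ i u - u` where `x.1 = c₀ ^ i`; the right side is in `U`, so `φ v - v ∈ U`, so
`φ v = v` (`Plane.inv`) and `X ^ i u = u`, so `r ∣ i` (`Plane.powfix`) and `x.1 = 1`.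
Case 3: all `s.1 = 1` and `U = ⊥` or `U` is not `X`-invariant.  `φ` from `Plane.refl_exists`, `ψ` from
`psi3`, `w0 = 1`. -/
theorem std_real (h : RSet p r V X C A c₀ χ) (U : Submodule (ZMod p) V) (S : Subgroup (C × A))
    (hUS : ∀ s ∈ S, ∀ u ∈ U,
      Multiplicative.toAdd (χ s.1 (Multiplicative.ofAdd u)) ∈ U) :
    ∃ α : MulAut (SD (A := A) χ), ∀ k : SD (A := A) χ, α k = k ↔
      Multiplicative.toAdd k.left ∈ U ∧ k.right ∈ S := by
  haveI := h.Afin
  have hcomm : ∀ φ : V ≃ₗ[ZMod p] V, φ * X = X * φ → ∀ (i : ℕ) (v : V),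
      φ ((X ^ i) v) = (X ^ i) (φ v) := by
    intro φ hφ i v
    have h1 : φ * X ^ i = X ^ i * φ := (show Commute φ X from hφ).pow_right i
    exact congrArg (fun f : V ≃ₗ[ZMod p] V => f v) h1
  have hanti : ∀ φ : V ≃ₗ[ZMod p] V, φ * X = X⁻¹ * φ → ∀ (i : ℕ) (v : V),
      (X ^ i) (φ ((X ^ i) v)) = φ v := by
    intro φ hφ i v
    have h1 : φ * X ^ i = X⁻¹ ^ i * φ := (show SemiconjBy φ X X⁻¹ from hφ).pow_right i
    have h2 : X ^ i * (φ * X ^ i) = φ := by
      rw [h1, inv_pow, mul_inv_cancel_left]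
    exact congrArg (fun f : V ≃ₗ[ZMod p] V => f v) h2
  by_cases hS : ∃ s ∈ S, s.1 ≠ 1
  · -- case 1
    have hU : ∀ u ∈ U, X u ∈ U := by
      intro u hu
      obtain ⟨s, hs, hs1⟩ := hS
      obtain ⟨i, hi⟩ := h.gen s.1
      have hri : ¬ r ∣ i := by
        intro hd
        apply hs1
        rw [hi]
        exact orderOf_dvd_iff_pow_eq_one.mp (by rw [h.ord]; exact hd)
      have hcop : Nat.Coprime i r := ((Nat.Prime.coprime_iff_not_dvd h.pl.rprime).mpr hri).symm
      obtain ⟨j, hj⟩ := Nat.exists_mul_mod_eq_one_of_coprime hcop h.pl.rprime.one_lt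
      have h1 : (s ^ j).1 = c₀ := by
        rw [Prod.pow_fst, hi, ← pow_mul]
        have h2 : c₀ ^ (i * j) = c₀ ^ 1 := by
          rw [pow_eq_pow_iff_modEq, h.ord]
          unfold Nat.ModEq
          rw [hj.2, Nat.mod_eq_of_lt h.pl.rprime.one_lt]
        rw [h2, pow_one]
      have h3 := hUS (s ^ j) (S.pow_mem hs j) u hu
      rw [h1, h.act] at h3
      exact h3
    obtain ⟨φ, hφ, hφ1, -⟩ := h.pl.inv U hU
    obtain ⟨ψ, hψ, hψ1⟩ := psi1 h.pl.rprime h.pl.r2 h.gen h.ord h.Apg S hS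
    obtain ⟨α, hα⟩ := R4_core h φ ψ (by
      intro x v
      obtain ⟨i, hi⟩ := h.gen x.1
      rw [hψ x, hi, R4_act h, R4_act h, toAdd_ofAdd, hcomm φ hφ]) 0
    refine ⟨α, fun k => ?_⟩
    rw [hα k, hψ1, and_comm]
    refine and_congr_left fun _ => ?_
    obtain ⟨i, hi⟩ := h.gen k.right.1
    rw [hi, R4_act h, toAdd_ofAdd, map_zero, sub_zero, sub_eq_zero, hφ1]
  · have hS1 : ∀ s ∈ S, s.1 = 1 := by
      intro s hs
      by_contra h1
      exact hS ⟨s, hs, h1⟩
    by_cases hU : U ≠ ⊥ ∧ ∀ u ∈ U, X u ∈ U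
    · -- case 2
      obtain ⟨φ, hφ, hφ1, hφ2⟩ := h.pl.inv U hU.2
      obtain ⟨ψ, hψ, hψ1⟩ := psi2 (C := C) h.pl.rprime h.pl.r2 h.Apg S hS1
      obtain ⟨u, hu, hu0⟩ := (Submodule.ne_bot_iff U).mp hU.1
      have hpow : ∀ i : ℕ, (X ^ i) u ∈ U := by
        intro i
        induction i with
        | zero =>
          rw [pow_zero]
          exact hu
        | succ n ih =>
          rw [pow_succ']
          exact hU.2 _ ih
      obtain ⟨α, hα⟩ := R4_core h φ ψ (by
        intro x v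
        obtain ⟨i, hi⟩ := h.gen x.1
        rw [hψ x, hi, R4_act h, R4_act h, toAdd_ofAdd, hcomm φ hφ]) u
      refine ⟨α, fun k => ?_⟩
      rw [hα k, hψ1]
      constructor
      · rintro ⟨h1, h2⟩
        obtain ⟨i, hi⟩ := h.gen k.right.1
        rw [hi, R4_act h, toAdd_ofAdd] at h2
        have h3 : φ (Multiplicative.toAdd k.left) = Multiplicative.toAdd k.left := by
          apply hφ2
          rw [h2]
          exact U.sub_mem (hpow i) hu
        refine ⟨(hφ1 _).mp h3, ?_⟩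
        rw [h3, sub_self] at h2
        have h4 : (X ^ i) u = u := sub_eq_zero.mp h2.symm
        have h5 : r ∣ i := by
          by_contra h6
          exact hu0 (h.pl.powfix h6 u h4)
        have h6 : k.right.1 = 1 := by
          rw [hi]
          exact orderOf_dvd_iff_pow_eq_one.mp (by rw [h.ord]; exact h5)
        have h7 : k.right = ((1 : C), k.right.2) := Prod.ext h6 rfl
        rw [h7]
        exact h1
      · rintro ⟨h1, h2⟩
        have h6 : k.right.1 = 1 := hS1 _ h2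
        refine ⟨?_, ?_⟩
        · have h7 : k.right = ((1 : C), k.right.2) := Prod.ext h6 rfl
          rw [← h7]
          exact h2
        · rw [(hφ1 _).mpr h1, h6, map_one, sub_self]
          change (0 : V) = u - u
          rw [sub_self]
    · -- case 3
      have hU3 : U = ⊥ ∨ ∃ u ∈ U, X u ∉ U := by
        by_contra h1
        push Not at h1
        exact hU ⟨h1.1, h1.2⟩
      obtain ⟨φ, hφ, hφ1⟩ := h.pl.refl_exists h.ns U hU3
      obtain ⟨ψ, hψ, hψ1⟩ := psi3 h.pl.rprime h.pl.r2 h.gen h.ord h.Apg S hS1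
      obtain ⟨α, hα⟩ := R4_core h φ ψ (by
        intro x v
        obtain ⟨i, hi⟩ := h.gen x.1
        rw [hψ x, map_inv]
        apply (χ x.1).injective
        rw [← MulAut.mul_apply, mul_inv_cancel, MulAut.one_apply, hi, R4_act h, R4_act h,
          toAdd_ofAdd, hanti φ hφ]) 0
      refine ⟨α, fun k => ?_⟩
      rw [hα k, hψ1, and_comm]
      refine and_congr_left fun _ => ?_
      obtain ⟨i, hi⟩ := h.gen k.right.1
      rw [hi, R4_act h, toAdd_ofAdd, map_zero, sub_zero, sub_eq_zero, hφ1]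

end FPX
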