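import Pool.Agent.FPX.Defs3

namespace FPX

variable {p r : ℕ} [Fact p.Prime] {V : Type} [AddCommGroup V] [Module (ZMod p) V] [Finite V]
  {X : V ≃ₗ[ZMod p] V} {C A : Type} [CommGroup C] [CommGroup A] {c₀ : C}
  {χ : C →* MulAut (Multiplicative V)}

/-- Abstract form: `π : G → Q` with a section `ι`, `Q` a commutative `r`-group, the kernel of order
prime to `r`. -/
theorem R5_core {G Q : Type} [Group G] [Finite G] [CommGroup Q] {r : ℕ} (hr : r.Prime)
    (π : G →* Q) (ι : Q →* G) (hπι : ∀ x, π (ι x) = x) (hQ : IsPGroup r Q)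
    (hR : ¬ r ∣ ι.range.index) (H : Subgroup G) :
    ∃ g : G, ∀ k : G, g * k * g⁻¹ ∈ H → g * ι (π k) * g⁻¹ ∈ H := by
  have := Fact.mk hr
  have hRp : IsPGroup r ι.range := by
    have h1 := IsPGroup.map (H := (⊤ : Subgroup Q)) (hQ.to_subgroup ⊤) ι
    rwa [← MonoidHom.range_eq_map] at h1
  let RS : Sylow r G := hRp.toSylow hR
  have hRS : (RS : Subgroup G) = ι.range := rfl
  obtain ⟨L⟩ : Nonempty (Sylow r H) := inferInstance
  have hLp : IsPGroup r ((L : Subgroup H).map H.subtype) := IsPGroup.map L.isPGroup' H.subtype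
  obtain ⟨Q', hQ'⟩ := hLp.exists_le_sylow
  obtain ⟨g, hg⟩ := MulAction.exists_smul_eq G RS Q'
  refine ⟨g, fun k hk => ?_⟩
  -- the image of `L` under `π` is the image of `H`
  let φ : H →* Q := π.comp H.subtype
  have hsur : Function.Surjective φ.rangeRestrict := φ.rangeRestrict_surjective
  have hdvd := Subgroup.index_map_dvd (L : Subgroup H) hsur
  have hrg : IsPGroup r φ.range := hQ.to_subgroup φ.range
  have : Finite φ.range := Finite.of_surjective _ hsur
  obtain ⟨n, hn⟩ := hrg.index ((L : Subgroup H).map φ.rangeRestrict)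
  have hn0 : n = 0 := by
    by_contra hn0
    apply Sylow.not_dvd_index L
    refine dvd_trans ?_ hdvd
    rw [hn]
    exact dvd_pow_self r hn0
  rw [hn0, pow_zero, Subgroup.index_eq_one] at hn
  have h1 : φ.rangeRestrict ⟨g * k * g⁻¹, hk⟩ ∈ (L : Subgroup H).map φ.rangeRestrict := by
    rw [hn]
    exact Subgroup.mem_top _
  obtain ⟨l, hl, hlk⟩ := h1
  have h2 : π (l : G) = π (g * k * g⁻¹) := congrArg Subtype.val hlk
  have h3 : (l : G) ∈ (Q' : Subgroup G) := hQ' ⟨l, hl, rfl⟩
  rw [← hg, Sylow.coe_subgroup_smul, Subgroup.mem_smul_pointwise_iff_exists] at h3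
  obtain ⟨s, hs, hsl⟩ := h3
  rw [hRS] at hs
  obtain ⟨x, rfl⟩ := hs
  have h4 : g * ι x * g⁻¹ = l := hsl
  have h5 : π k = x := by
    rw [← h4, map_mul, map_mul, map_mul, map_mul, map_inv, hπι, mul_inv_cancel_comm,
      mul_inv_cancel_comm] at h2
    exact h2.symm
  rw [h5, h4]
  exact l.2

/-- Every subgroup is conjugate to one of the form `U S`.

Proof.  Let `N` be the normal subgroup of the `(v, 1)`, `|N| = p ^ 2`, and `R` the subgroup of the
`(1, x)`, an `r`-group, `r ≠ p` (`|C| = r`, `A` an `r`-group).  `H ∩ N` is normal in `H` of order a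
power of `p`, and `|H : H ∩ N|` divides `|G : N| = |R|`, a power of `r`; Schur-Zassenhaus gives a
complement `L` of `H ∩ N` in `H`, an `r`-group.  `R` is a Sylow `r`-subgroup, so `L ≤ g R g⁻¹` for
some `g` (`IsPGroup.exists_le_sylow`, `MulAction.exists_smul_eq` for Sylow subgroups).  Put
`H' = g⁻¹ H g = (H' ∩ N) L'`, `L' = g⁻¹ L g ≤ R`; `U = {v : (v, 1) ∈ H'}` (an additive subgroup of
`V` is a submodule), `S = {x : (1, x) ∈ L'} = {x : (1, x) ∈ H'}`. -/
theorem std_form (h : RSet p r V X C A c₀ χ) (H : Subgroup (SD (A := A) χ)) :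
    ∃ (g : SD (A := A) χ) (U : Submodule (ZMod p) V) (S : Subgroup (C × A)),
      (∀ k, g * k * g⁻¹ ∈ H ↔ Multiplicative.toAdd k.left ∈ U ∧ k.right ∈ S) ∧
      ∀ s ∈ S, ∀ u ∈ U, Multiplicative.toAdd (χ s.1 (Multiplicative.ofAdd u)) ∈ U := by
  have hAf := h.Afin
  have hr := h.pl.rprime
  have hc0 : c₀ ^ r = 1 := by
    rw [← h.ord]
    exact pow_orderOf_eq_one c₀
  have hCf : Finite C := by
    have : NeZero r := ⟨hr.ne_zero⟩
    apply Finite.of_surjective (fun i : Fin r => c₀ ^ (i : ℕ))
    intro c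
    obtain ⟨i, rfl⟩ := h.gen c
    refine ⟨⟨i % r, Nat.mod_lt _ hr.pos⟩, ?_⟩
    change c₀ ^ (i % r) = c₀ ^ i
    rw [← h.ord]
    exact pow_mod_orderOf c₀ i
  have hVf : Finite (Multiplicative V) := inferInstanceAs (Finite V)
  have hGf : Finite (SD (A := A) χ) := Finite.of_equiv _ SemidirectProduct.equivProd.symm
  have hQ : IsPGroup r (C × A) := by
    rintro ⟨c, a⟩
    obtain ⟨k, hk⟩ := h.Apg a
    refine ⟨k + 1, ?_⟩
    have hc : c ^ r = 1 := by
      obtain ⟨i, rfl⟩ := h.gen c
      rw [← pow_mul, mul_comm, pow_mul, hc0, one_pow]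
    rw [Prod.pow_mk, Prod.mk_eq_one]
    constructor
    · rw [pow_succ', pow_mul, hc, one_pow]
    · rw [pow_succ, pow_mul, hk, one_pow]
  let ι : (C × A) →* SD (A := A) χ := SemidirectProduct.inr
  let π : SD (A := A) χ →* (C × A) := SemidirectProduct.rightHom
  have hπι : ∀ x : C × A, π (ι x) = x := fun x => rfl
  have hR : ¬ r ∣ ι.range.index := by
    have h1 := ι.range.card_mul_index
    have h2 : Nat.card ι.range = Nat.card (C × A) := by
      apply Nat.card_congr
      exact (Equiv.ofInjective ι SemidirectProduct.inr_injective).symm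
    have h3 : Nat.card (SD (A := A) χ) = Nat.card (Multiplicative V) * Nat.card (C × A) :=
      SemidirectProduct.card
    rw [h2, h3, mul_comm (Nat.card (Multiplicative V))] at h1
    have h4 : ι.range.index = Nat.card (Multiplicative V) :=
      Nat.eq_of_mul_eq_mul_left Nat.card_pos h1
    have h5 : Nat.card (Multiplicative V) = p ^ Module.finrank (ZMod p) V := by
      have h6 : Nat.card (Multiplicative V) = Nat.card V := Nat.card_congr Multiplicative.toAdd
      have := Fintype.ofFinite V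
      have hp := (Fact.out : p.Prime)
      have : NeZero p := ⟨hp.ne_zero⟩
      rw [h6, Nat.card_eq_fintype_card, Module.card_eq_pow_finrank (K := ZMod p), ZMod.card]
    rw [h4, h5]
    intro h7
    have h8 := hr.dvd_of_dvd_pow h7
    exact h.pl.rp ((Nat.prime_dvd_prime_iff_eq hr (Fact.out : p.Prime)).1 h8)
  obtain ⟨g, hg⟩ := R5_core hr π ι hπι hQ hR H
  let U0 : AddSubgroup V :=
    { carrier := {v | g * SemidirectProduct.inl (Multiplicative.ofAdd v) * g⁻¹ ∈ H}
      zero_mem' := by
        change g * SemidirectProduct.inl (Multiplicative.ofAdd (0 : V)) * g⁻¹ ∈ H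
        rw [ofAdd_zero, map_one, mul_one, mul_inv_cancel]
        exact H.one_mem
      add_mem' := by
        intro v w hv hw
        change g * SemidirectProduct.inl (Multiplicative.ofAdd (v + w)) * g⁻¹ ∈ H
        have h1 := H.mul_mem hv hw
        rw [ofAdd_add, map_mul]
        have h2 : g * (SemidirectProduct.inl (Multiplicative.ofAdd v) *
            SemidirectProduct.inl (Multiplicative.ofAdd w)) * g⁻¹ =
          (g * SemidirectProduct.inl (Multiplicative.ofAdd v) * g⁻¹) *
            (g * SemidirectProduct.inl (Multiplicative.ofAdd w) * g⁻¹) := by group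
        rw [h2]
        exact h1
      neg_mem' := by
        intro v hv
        change g * SemidirectProduct.inl (Multiplicative.ofAdd (-v)) * g⁻¹ ∈ H
        have h1 := H.inv_mem hv
        rw [ofAdd_neg, map_inv]
        have h2 : g * (SemidirectProduct.inl (Multiplicative.ofAdd v))⁻¹ * g⁻¹ =
          (g * SemidirectProduct.inl (Multiplicative.ofAdd v) * g⁻¹)⁻¹ := by group
        rw [h2]
        exact h1 }
  let S : Subgroup (C × A) := H.comap ((MulAut.conj g).toMonoidHom.comp ι)
  have hU : ∀ v : V, v ∈ AddSubgroup.toZModSubmodule p U0 ↔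
      g * SemidirectProduct.inl (Multiplicative.ofAdd v) * g⁻¹ ∈ H := fun v => Iff.rfl
  have hS : ∀ x : C × A, x ∈ S ↔ g * SemidirectProduct.inr x * g⁻¹ ∈ H := fun x => Iff.rfl
  refine ⟨g, AddSubgroup.toZModSubmodule p U0, S, ?_, ?_⟩
  · intro k
    have hk : g * k * g⁻¹ = (g * SemidirectProduct.inl k.left * g⁻¹) *
        (g * SemidirectProduct.inr k.right * g⁻¹) := by
      conv_lhs => rw [← SemidirectProduct.inl_left_mul_inr_right k]
      group
    rw [hU, hS, ofAdd_toAdd]
    constructor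
    · intro h1
      have h2 : g * SemidirectProduct.inr k.right * g⁻¹ ∈ H := hg k h1
      refine ⟨?_, h2⟩
      have h3 := H.mul_mem h1 (H.inv_mem h2)
      rwa [hk, mul_inv_cancel_right] at h3
    · rintro ⟨h1, h2⟩
      rw [hk]
      exact H.mul_mem h1 h2
  · intro s hs u hu
    rw [hU] at hu ⊢
    rw [hS] at hs
    rw [ofAdd_toAdd]
    have h1 : (SemidirectProduct.inl (χ s.1 (Multiplicative.ofAdd u)) : SD (A := A) χ) =
        SemidirectProduct.inr s * SemidirectProduct.inl (Multiplicative.ofAdd u) *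
          SemidirectProduct.inr s⁻¹ := SemidirectProduct.inl_aut s (Multiplicative.ofAdd u)
    have h2 := H.mul_mem (H.mul_mem hs hu) (H.inv_mem hs)
    rw [h1, map_inv]
    have h3 : g * (SemidirectProduct.inr s * SemidirectProduct.inl (Multiplicative.ofAdd u) *
          (SemidirectProduct.inr s)⁻¹) * g⁻¹ =
        (g * SemidirectProduct.inr s * g⁻¹) *
          (g * SemidirectProduct.inl (Multiplicative.ofAdd u) * g⁻¹) *
          (g * SemidirectProduct.inr s * g⁻¹)⁻¹ := by group
    rw [h3]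
    exact h2

end FPX
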