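import Pool.Agent.FPX.R4
import Pool.Agent.FPX.R5

namespace FPX

variable {p r : ℕ} [Fact p.Prime] {V : Type} [AddCommGroup V] [Module (ZMod p) V] [Finite V]
  {X : V ≃ₗ[ZMod p] V} {C A : Type} [CommGroup C] [CommGroup A] {c₀ : C}
  {χ : C →* MulAut (Multiplicative V)}

/-- `V : (C × A)` has (F): conjugate the automorphism of `std_real` by the element of
`std_form`. -/
theorem pf_sdp (h : RSet p r V X C A c₀ χ) : PF (SD (A := A) χ) := by
  intro H
  obtain ⟨g, U, S, hg, hUS⟩ := std_form h H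
  obtain ⟨α, hα⟩ := std_real h U S hUS
  refine ⟨MulAut.conj g * α * (MulAut.conj g)⁻¹, ?_⟩
  intro k
  have h1 : (MulAut.conj g * α * (MulAut.conj g)⁻¹) k = k ↔ α (g⁻¹ * k * g) = g⁻¹ * k * g := by
    rw [MulAut.mul_apply, MulAut.mul_apply, MulAut.conj_inv_apply, MulAut.conj_apply]
    constructor
    · intro h2
      have h3 : g⁻¹ * (g * α (g⁻¹ * k * g) * g⁻¹) * g = g⁻¹ * k * g := by rw [h2]
      rw [mul_assoc g, inv_mul_cancel_left, inv_mul_cancel_right] at h3
      exact h3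
    · intro h2
      rw [h2]
      group
  rw [h1, hα, ← hg]
  rw [show g * (g⁻¹ * k * g) * g⁻¹ = k by group]

end FPX
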