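import Pool.Agent.FPX.Defs2
import Pool.Agent.FPX.A6

namespace FPX

/-- Coprime action: an element `g` with `g ^ n = 1`, `n` prime to `p`, which normalises the
commutative `p`-group `A` and commutes with its elements of order `p` commutes with `A`.

Proof.  By induction on `k` for `a ∈ A` with `a ^ p ^ k = 1`: `a ^ p` commutes with `g` by induction, so
`u := g a g⁻¹ a⁻¹ ∈ A` satisfies `u ^ p = 1`, so `g` commutes with `u`; then
`g ^ i a g ^ (-i) = u ^ i a` for all `i`, and `i = n` gives `u ^ n = 1`; with `u ^ p = 1`, `u = 1`. -/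
theorem coprime_act {G : Type} [Group G] {p : ℕ} (hp : p.Prime) (A : Subgroup G)
    (hA : ∀ a ∈ A, ∀ b ∈ A, a * b = b * a) (hpA : IsPGroup p A) (g : G) {n : ℕ}
    (hn : n.Coprime p) (hg : g ^ n = 1) (hnorm : ∀ a ∈ A, g * a * g⁻¹ ∈ A)
    (hfix : ∀ a ∈ A, a ^ p = 1 → g * a = a * g) : ∀ a ∈ A, g * a = a * g := by
  have key : ∀ k : ℕ, ∀ a ∈ A, a ^ p ^ k = 1 → g * a = a * g := by
    intro k
    induction k with
    | zero =>
      intro a _ h
      rw [pow_zero, pow_one] at h
      rw [h, mul_one, one_mul]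
    | succ k ih =>
      intro a ha h
      have h1 : g * a ^ p = a ^ p * g := by
        apply ih _ (A.pow_mem ha p)
        rw [← pow_mul, ← pow_succ']
        exact h
      have hu : g * a * g⁻¹ * a⁻¹ ∈ A := A.mul_mem (hnorm a ha) (A.inv_mem ha)
      obtain ⟨u, hudef⟩ : ∃ u, u = g * a * g⁻¹ * a⁻¹ := ⟨_, rfl⟩
      rw [← hudef] at hu
      have hup : u ^ p = 1 := by
        have hc : Commute (g * a * g⁻¹) a⁻¹ := hA _ (hnorm a ha) _ (A.inv_mem ha)
        rw [hudef, hc.mul_pow, conj_pow, h1, mul_assoc, mul_assoc, mul_inv_cancel_left, inv_pow,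
          mul_inv_cancel]
      have hug : g * u = u * g := hfix u hu hup
      have hga : g * a * g⁻¹ = u * a := by rw [hudef]; group
      have hi : ∀ i : ℕ, g ^ i * a * (g ^ i)⁻¹ = u ^ i * a := by
        intro i
        induction i with
        | zero => simp
        | succ i ihi =>
          have h2 : g ^ (i + 1) * a * (g ^ (i + 1))⁻¹ = g * (g ^ i * a * (g ^ i)⁻¹) * g⁻¹ := by
            rw [pow_succ']; group
          have h3 : g * u ^ i = u ^ i * g := (Commute.pow_right (show Commute g u from hug) i)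
          rw [h2, ihi, ← mul_assoc, h3, mul_assoc, mul_assoc, ← mul_assoc g a, hga, pow_succ,
            mul_assoc]
      have hn1 := hi n
      rw [hg, one_mul, inv_one, mul_one] at hn1
      have hun : u ^ n = 1 := by
        have h2 : u ^ n * a = 1 * a := by rw [one_mul]; exact hn1.symm
        exact mul_right_cancel h2
      have hu1 : u = 1 := by
        have h2 := Nat.dvd_gcd (orderOf_dvd_of_pow_eq_one hun) (orderOf_dvd_of_pow_eq_one hup)
        rw [hn] at h2
        exact orderOf_eq_one_iff.1 (Nat.dvd_one.1 h2)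
      rw [hu1, one_mul] at hga
      have h5 := congrArg (fun x => x * g) hga
      simp only [inv_mul_cancel_right] at h5
      exact h5
  intro a ha
  obtain ⟨k, hk⟩ := hpA ⟨a, ha⟩
  exact key k a ha (congrArg Subtype.val hk)

/-- (1.1) The centraliser of `W = Om p P` is `P C_G(P)`.

Proof.  `C` from `exists_C`.  Let `α` have fixed points `P`.  For `g ∈ G` and `b ∈ P`:
`g b g⁻¹ ∈ P` is fixed, so `α(g) b α(g)⁻¹ = g b g⁻¹`, so `g⁻¹ α(g) ∈ cen P`, `g⁻¹ α(g) = z c` with
`z ∈ P ∩ cen P`, `c ∈ C`.  `α` has no fixed point `≠ 1` on `C` (`C ∩ P = 1`), and `α(C) = C`.  By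
`lang` there is `c' ∈ C` with `c' α(c')⁻¹ = c`; `y := g c'` satisfies `y⁻¹ α(y) = c'⁻¹ z c α(c')
= z`.
Let `g` commute with `W`.  Let `n = |G : P|` (prime to `|P|`).  There is `N` with `N ≡ 1` modulo
`n` and `N ≡ 0` modulo `|P|`; `g ^ N` also commutes with `W`, `(g ^ N) ^ n = 1` (`|G| = |P| n`
divides `N n`), and `g ^ (N - 1) ∈ P` (`g ^ n ∈ P`), so it is enough to treat `g ^ N`: we may assume
`g ^ n = 1`.  By `coprime_act` (for `A = P ∩ cen P`) `g` commutes with `P ∩ cen P`; so does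
`y = g c'`.  `α(y) = y z`, `α(z) = z`, `y z = z y`, so `α(y ^ n) = y ^ n z ^ n`; `y ^ n ∈ P` is
fixed, so `z ^ n = 1`, `z = 1` (`z ∈ P`), `α(y) = y`, `y ∈ P`, `g = y c'⁻¹`. -/
theorem cen_Om {G : Type} [Group G] [Finite G] {p : ℕ} {P : Subgroup G} (hP : NSyl p P)
    (hF : PF G) (g : G) (hg : g ∈ cen (Om p P)) : ∃ a ∈ P, ∃ c ∈ cen P, g = a * c := by
  have hPn : P.Normal := hP.normal
  obtain ⟨C, hCchar, hCP, hCcen, -, hdec⟩ := exists_C hP
  obtain ⟨α, hα⟩ := hF P
  have hcenP : ∀ x : G, x ∈ cen P ↔ ∀ b ∈ P, b * x = x * b := by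
    intro x
    rw [Subgroup.mem_centralizer_iff]
    exact Iff.rfl
  have hfixC : ∀ n ∈ C, α n = n → n = 1 := by
    intro n hn hα1
    have h1 : n ∈ C ⊓ P := ⟨hn, (hα n).1 hα1⟩
    rw [hCP, Subgroup.mem_bot] at h1
    exact h1
  have hidxp : P.index.Coprime p := by
    rw [Nat.coprime_comm, hP.prime.coprime_iff_not_dvd]
    exact hP.index
  -- step A
  have stepA : ∀ x : G, x⁻¹ * α x ∈ cen P := by
    intro x
    rw [hcenP]
    intro b hb
    have h1 : x * b * x⁻¹ ∈ P := hPn.conj_mem b hb x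
    have h2 := (hα _).2 h1
    rw [map_mul, map_mul, map_inv, (hα b).2 hb] at h2
    have h3 : α x * b = x * b * x⁻¹ * α x := by rw [← h2]; group
    rw [mul_assoc x⁻¹, h3]
    group
  -- step B
  have stepB : ∀ x : G, x ∈ cen (Om p P) → x ^ P.index = 1 → ∃ a ∈ P, ∃ c ∈ cen P, x = a * c := by
    intro x hx hxn
    obtain ⟨z, hzP, hzc, c, hcC, hzcm⟩ := hdec _ (stepA x)
    obtain ⟨c', hc'C, hc'⟩ := lang α C (fun n hn => char_mem hCchar α hn) hfixC c hcC
    have hact := coprime_act hP.prime (P ⊓ cen P)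
      (fun a ha b hb => (hcenP b).1 hb.2 a ha.1)
      (hP.pgroup.to_le inf_le_left) x hidxp hxn
      (fun a ha => by
        refine ⟨hPn.conj_mem a ha.1 x, (hcenP _).2 ?_⟩
        intro b hb
        have h1 : x⁻¹ * b * x ∈ P := by
          have := hPn.conj_mem b hb x⁻¹
          rwa [inv_inv] at this
        have h2 := (hcenP a).1 ha.2 _ h1
        have h3 : b * (x * a * x⁻¹) = x * (x⁻¹ * b * x * a) * x⁻¹ := by group
        rw [h3, h2]
        group)
      (fun a ha hap => by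
        have h1 : a ∈ Om p P := ⟨ha.1, ha.2, hap⟩
        exact ((Subgroup.mem_centralizer_iff.1 hx) a h1).symm)
    have hxz : x * z = z * x := hact z ⟨hzP, hzc⟩
    have hc'z : z * c' = c' * z := (hcenP c').1 (hCcen hc'C) z hzP
    obtain ⟨y, hy⟩ : ∃ y, y = x * c' := ⟨_, rfl⟩
    have hαy : α y = y * z := by
      have h1 : α x = x * (z * c) := by rw [← hzcm]; group
      have h2 : c * α c' = c' := by rw [← hc']; group
      rw [hy, map_mul, h1]
      calc x * (z * c) * α c' = x * (z * (c * α c')) := by group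
        _ = x * (c' * z) := by rw [h2, hc'z]
        _ = x * c' * z := by group
    have hyz : Commute y z := by
      show y * z = z * y
      rw [hy, mul_assoc, ← hc'z, ← mul_assoc, hxz, mul_assoc]
    have hyn : y ^ P.index ∈ P := P.pow_index_mem y
    have h3 := (hα _).2 hyn
    rw [map_pow, hαy, hyz.mul_pow] at h3
    have hzn : z ^ P.index = 1 := by
      have h4 : y ^ P.index * z ^ P.index = y ^ P.index * 1 := by rw [mul_one]; exact h3
      exact mul_left_cancel h4
    have hzcard : z ^ Nat.card P = 1 := by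
      have h1 : (⟨z, hzP⟩ : P) ^ Nat.card P = 1 := pow_card_eq_one'
      exact congrArg Subtype.val h1
    have hz1 : z = 1 := by
      have h2 := Nat.dvd_gcd (orderOf_dvd_of_pow_eq_one hzcard) (orderOf_dvd_of_pow_eq_one hzn)
      rw [nsyl_coprime hP] at h2
      exact orderOf_eq_one_iff.1 (Nat.dvd_one.1 h2)
    rw [hz1, mul_one] at hαy
    refine ⟨y, (hα y).1 hαy, c'⁻¹, (cen P).inv_mem (hCcen hc'C), ?_⟩
    rw [hy]
    group
  -- step C
  obtain ⟨N₀, hN1, hN2⟩ := Nat.chineseRemainder (nsyl_coprime hP) 0 1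
  obtain ⟨N, hN⟩ : ∃ N, N = N₀ + Nat.card P * P.index := ⟨_, rfl⟩
  have hNpos : 1 ≤ N := by
    have h1 : 0 < Nat.card P := Nat.card_pos
    have h2 : 0 < P.index := Nat.pos_of_ne_zero Subgroup.FiniteIndex.index_ne_zero
    have h3 := Nat.mul_pos h1 h2
    omega
  have hNP : Nat.card P ∣ N := by
    rw [hN]
    exact Nat.dvd_add ((Nat.modEq_zero_iff_dvd).1 hN1) (Dvd.intro _ rfl)
  have hNi : P.index ∣ N - 1 := by
    have h1 : N ≡ 1 [MOD P.index] := by
      rw [hN]
      have h2 : N₀ + Nat.card P * P.index ≡ N₀ [MOD P.index] := by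
        rw [Nat.ModEq, Nat.add_mul_mod_self_right]
      exact h2.trans hN2
    exact (Nat.modEq_iff_dvd' hNpos).1 h1.symm
  obtain ⟨k, hk⟩ := hNi
  obtain ⟨m, hm⟩ := hNP
  have h1 : g ^ N ∈ cen (Om p P) := (cen (Om p P)).pow_mem hg N
  have h2 : (g ^ N) ^ P.index = 1 := by
    rw [← pow_mul, hm]
    have h3 : Nat.card P * m * P.index = Nat.card G * m := by
      rw [← P.card_mul_index]; ring
    rw [h3, pow_mul, pow_card_eq_one', one_pow]
  obtain ⟨a, ha, c, hc, hac⟩ := stepB _ h1 h2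
  have hx : (g ^ P.index) ^ k ∈ P := P.pow_mem (P.pow_index_mem g) k
  have h3 : g ^ N = g * (g ^ P.index) ^ k := by
    rw [← pow_mul, ← hk, ← pow_succ']
    congr 1
    omega
  obtain ⟨x, hxdef⟩ : ∃ x, x = (g ^ P.index) ^ k := ⟨_, rfl⟩
  rw [← hxdef] at hx h3
  refine ⟨a * x⁻¹, P.mul_mem ha (P.inv_mem hx), c, hc, ?_⟩
  have h4 := (hcenP c).1 hc x⁻¹ (P.inv_mem hx)
  rw [mul_assoc, h4, ← mul_assoc, ← hac, h3]
  group

end FPX
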