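import Pool.Agent.FPX.S10
import Pool.Agent.FPX.L1

namespace FPX

variable {G : Type} [Group G] [Finite G] {p r : ℕ} [Fact p.Prime] {P W : Subgroup G} {x : G}
  {V : Type} [AddCommGroup V] [Module (ZMod p) V] {f : V → G}
  {ρ : MulAut G →* (V ≃ₗ[ZMod p] V)} {X : V ≃ₗ[ZMod p] V}

theorem S11_one {N K : Subgroup G} {T : Type} [AddCommGroup T] [Module (ZMod p) T] {π : G → T}
    {σ : MulAut G →* (T ≃ₗ[ZMod p] T)} (hs : SMod p N K T π σ) : π 1 = 0 := by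
  have h1 := hs.mul 1 N.one_mem 1 N.one_mem
  rw [mul_one] at h1
  exact left_eq_add.mp h1

theorem S11_inv {N K : Subgroup G} {T : Type} [AddCommGroup T] [Module (ZMod p) T] {π : G → T}
    {σ : MulAut G →* (T ≃ₗ[ZMod p] T)} (hs : SMod p N K T π σ) {a : G} (ha : a ∈ N) :
    π a⁻¹ = -π a := by
  have h1 := hs.mul a ha a⁻¹ (N.inv_mem ha)
  rw [mul_inv_cancel, S11_one hs] at h1
  exact (neg_eq_of_add_eq_zero_right h1.symm).symm

theorem S11_cong {N K : Subgroup G} {T : Type} [AddCommGroup T] [Module (ZMod p) T] {π : G → T}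
    {σ : MulAut G →* (T ≃ₗ[ZMod p] T)} (hs : SMod p N K T π σ) {a b : G} (ha : a ∈ N)
    (hb : b ∈ N) : a⁻¹ * b ∈ K ↔ π b = π a := by
  rw [← hs.ker _ (N.mul_mem (N.inv_mem ha) hb), hs.mul _ (N.inv_mem ha) _ hb, S11_inv hs ha,
    neg_add_eq_zero]
  exact eq_comm

theorem S11_fval (h : Ctx p r P W x V f ρ X) (c : ZMod p) (v : V) :
    f (c • v) = (f v) ^ c.val := S7_fval h c v

/-- the subspace of the `p`-th powers of the elements of `Z` -/
def S11_U (h : Ctx p r P W x V f ρ X) (Z : Subgroup G)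
    (h5 : ∀ y ∈ Z, ∀ z ∈ Z, (y * z) ^ p = y ^ p * z ^ p) : Submodule (ZMod p) V where
  carrier := {v | ∃ y ∈ Z, f v = y ^ p}
  add_mem' := by
    rintro u v ⟨a, ha, ha3⟩ ⟨b, hb, hb3⟩
    exact ⟨a * b, Z.mul_mem ha hb, by rw [h.mod.add, ha3, hb3, h5 a ha b hb]⟩
  zero_mem' := ⟨1, Z.one_mem, by rw [one_pow, S6_f0 h]⟩
  smul_mem' := by
    rintro c v ⟨a, ha, ha3⟩
    exact ⟨a ^ c.val, Z.pow_mem ha _, by rw [S7_fval h, ha3, ← pow_mul, ← pow_mul, mul_comm]⟩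

/-- the subgroup of the elements of `N` whose image is in the range of `X' - 1` -/
def S11_J {N K : Subgroup G} {T : Type} [AddCommGroup T] [Module (ZMod p) T] {π : G → T}
    {σ : MulAut G →* (T ≃ₗ[ZMod p] T)} (hs : SMod p N K T π σ) (c : T ≃ₗ[ZMod p] T) :
    Subgroup G where
  carrier := {y | y ∈ N ∧ ∃ t, π y = c t - t}
  mul_mem' := by
    rintro y z ⟨hy, t, ht⟩ ⟨hz, s, hs'⟩
    refine ⟨N.mul_mem hy hz, t + s, ?_⟩
    rw [hs.mul y hy z hz, ht, hs', map_add]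
    abel
  one_mem' := ⟨N.one_mem, 0, by rw [S11_one hs, map_zero, sub_zero]⟩
  inv_mem' := by
    rintro y ⟨hy, t, ht⟩
    refine ⟨N.inv_mem hy, -t, ?_⟩
    rw [S11_inv hs hy, ht, map_neg]
    abel

/-- Step (B1).  If some `y ∈ Z` has `y ^ p ≠ 1` then there is a characteristic subgroup `J` with
`W ≤ J ≤ Z` such that `y ↦ y ^ p` induces a bijection of `J/W` onto `W`.

Proof.  `exists_smod` for `Z, W`: `T, π, σ`; `X' = σ (conj x)`, `X' ^ r = 1`.  `J = {y ∈ Z : π y ∈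
range (X' - 1)}`; it contains `W`.  It is characteristic: for an automorphism `α`, `α(x) = x^(±1) u` with
`u ∈ cen W` (`sgn`), and `u` acts trivially on `Z/W` (`Z2_facts`), so `σ α X' (σ α)⁻¹ = X' or X'⁻¹`, and
`range (X'⁻¹ - 1) = range (X' - 1)`.
If `y ∈ J`, `y ^ p = 1`, then `X' π y = π y` by `stepA`, so `π y = 0` by `semis1`, `y ∈ W`.
Onto: `{v : f v = y ^ p for some y ∈ Z}` is a submodule `≠ ⊥` of `V` invariant under `X` and all
`ρ α`; by `Plane.NL` (with `Ctx.exists_neg`) it is `⊤`.  For `w ∈ W` take `y ∈ Z` with `y ^ p = w`; by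
`semis2`, `π y = t₁ + t₂` with `X' t₁ = t₁` and `t₂ ∈ range (X' - 1)`; lift: `y = y₁ y₂` with `π y₁ = t₁`
(`x y₁ x⁻¹ = y₁ w'`), `y₂ ∈ J`.  `y₁ ^ p` commutes with `x` (`(x y₁ x⁻¹) ^ p = y₁ ^ p`), so it is `1`
by `xfix`, and `y₂ ^ p = w`. -/
theorem stepB1 (h : Ctx p r P W x V f ρ X) (hF : PF G) (hc : ∀ a ∈ P, a ∈ cen P → a ∈ W)
    {Z : Subgroup G} (hZ : IsZ2 P W Z) (hex : ∃ y ∈ Z, y ^ p ≠ 1) :
    ∃ J : Subgroup G, J.Characteristic ∧ W ≤ J ∧ J ≤ Z ∧ (∀ y ∈ J, y ^ p = 1 → y ∈ W) ∧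
      (∀ w ∈ W, ∃ y ∈ J, y ^ p = w) := by
  obtain ⟨h1, h2, h3, h4, h5, h6⟩ := Z2_facts h.sit hc hZ
  have hZP : ∀ y ∈ Z, y ∈ P := fun y hy => ((hZ.mem y).mp hy).1
  obtain ⟨T, i1, i2, i3, π, σ, hs⟩ := exists_smod p Z W hZ.char h.sit.Wchar h1
    (fun a ha b hb => ((hZ.mem a).mp ha).2 b (hZP b hb)) h2
  have hconjZ : ∀ g : G, ∀ y ∈ Z, g * y * g⁻¹ ∈ Z := by
    intro g y hy
    have e := char_mem hZ.char (MulAut.conj g) hy
    rwa [MulAut.conj_apply] at e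
  have hσ : ∀ g : G, ∀ y ∈ Z, σ (MulAut.conj g) (π y) = π (g * y * g⁻¹) := by
    intro g y hy
    rw [← hs.act _ y hy, MulAut.conj_apply]
  have hu : ∀ u ∈ cen W, σ (MulAut.conj u) = 1 := by
    intro u hu
    apply LinearEquiv.ext
    intro t
    obtain ⟨y, hy, rfl⟩ := hs.surj t
    rw [hσ u y hy]
    exact (S11_cong hs hy (hconjZ u y hy)).mp (h6 y hy u hu)
  have hXr : (σ (MulAut.conj x)) ^ r = 1 := by
    rw [← map_pow, ← map_pow, ← h.sit.xord, pow_orderOf_eq_one, map_one, map_one]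
  have hrp : r.Coprime p := (Nat.coprime_primes h.sit.rprime Fact.out).mpr h.sit.rp
  have hconj : ∀ α : MulAut G, σ (MulAut.conj (α x)) = σ α * σ (MulAut.conj x) * (σ α)⁻¹ := by
    intro α
    rw [← map_mul, ← map_inv, ← map_mul]
    congr 1
    apply MulEquiv.ext
    intro g
    rw [MulAut.mul_apply, MulAut.mul_apply, MulAut.conj_apply, MulAut.conj_apply, map_mul, map_mul,
      map_inv, MulAut.apply_inv_self]
  refine ⟨S11_J hs (σ (MulAut.conj x)), ?_, ?_, ?_, ?_, ?_⟩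
  · apply char_of_forall
    rintro α y ⟨hy, t, ht⟩
    refine ⟨char_mem hZ.char α hy, ?_⟩
    rw [hs.act α y hy, ht, map_sub]
    rcases h.sit.sgn α with hα | hα
    · refine ⟨σ α t, ?_⟩
      have e1 : σ (MulAut.conj (α x)) = σ (MulAut.conj x) := by
        have e2 : α x = x * (x⁻¹ * α x) := by group
        rw [e2, map_mul, map_mul, hu _ hα, mul_one]
      rw [hconj α] at e1
      have e3 : σ α * σ (MulAut.conj x) = σ (MulAut.conj x) * σ α := mul_inv_eq_iff_eq_mul.mp e1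
      have e4 := LinearEquiv.congr_fun e3 t
      rw [LinearEquiv.mul_apply, LinearEquiv.mul_apply] at e4
      rw [e4]
    · refine ⟨-(σ (MulAut.conj x))⁻¹ (σ α t), ?_⟩
      have e1 : σ (MulAut.conj (α x)) = (σ (MulAut.conj x))⁻¹ := by
        have e2 : α x = x⁻¹ * (x * α x) := by group
        rw [e2, map_mul, map_mul, hu _ hα, mul_one, map_inv, map_inv]
      rw [hconj α] at e1
      have e3 : σ α * σ (MulAut.conj x) = (σ (MulAut.conj x))⁻¹ * σ α :=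
        mul_inv_eq_iff_eq_mul.mp e1
      have e4 := LinearEquiv.congr_fun e3 t
      rw [LinearEquiv.mul_apply, LinearEquiv.mul_apply] at e4
      have e5 : σ (MulAut.conj x) ((σ (MulAut.conj x))⁻¹ (σ α t)) = σ α t := by
        have e6 := LinearEquiv.congr_fun (mul_inv_cancel (σ (MulAut.conj x))) (σ α t)
        rwa [LinearEquiv.mul_apply] at e6
      rw [e4, map_neg, e5]
      abel
  · intro w hw
    refine ⟨h1 hw, 0, ?_⟩
    rw [map_zero, sub_zero]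
    exact (hs.ker w (h1 hw)).mpr hw
  · intro y hy
    exact hy.1
  · rintro y ⟨hy, t, ht⟩ hyp
    have e1 := stepA h hF hc hZ y hy hyp
    rw [S11_cong hs hy (hconjZ x y hy), ← hσ x y hy, ht] at e1
    have e2 := semis1 _ r hrp hXr t e1
    rw [← hs.ker y hy, ht, e2, sub_self]
  · intro w hw
    have hUtop : S11_U h Z h5 = ⊤ := by
      obtain ⟨α, -, -, hα⟩ := h.exists_neg hF
      have hinv : ∀ β : MulAut G, ∀ u ∈ S11_U h Z h5, ρ β u ∈ S11_U h Z h5 := by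
        rintro β u ⟨y, hy, hyu⟩
        exact ⟨β y, char_mem hZ.char β hy, by rw [← h.mod.act, hyu, map_pow]⟩
      have hX : ∀ u ∈ S11_U h Z h5, X u ∈ S11_U h Z h5 := by
        intro u hu
        have e5 := hinv (MulAut.conj x) u hu
        have e6 : X u = ρ (MulAut.conj x) u := LinearEquiv.congr_fun h.hX u
        rwa [e6]
      rcases h.pl.NL (ρ α) hα _ hX (hinv α) with e4 | e4
      · exfalso
        obtain ⟨y, hy, hyp⟩ := hex
        obtain ⟨v, hv⟩ := (h.mod.mem _).mp (h2 y hy)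
        have hvU : v ∈ S11_U h Z h5 := ⟨y, hy, hv⟩
        rw [e4, Submodule.mem_bot] at hvU
        rw [hvU, S6_f0 h] at hv
        exact hyp hv.symm
      · exact e4
    obtain ⟨v, rfl⟩ := (h.mod.mem _).mp hw
    have hvU : v ∈ S11_U h Z h5 := by
      rw [hUtop]
      exact Submodule.mem_top
    obtain ⟨y, hy, hyv⟩ := hvU
    obtain ⟨u, -, t, -, hu1, hut⟩ := semis2 (σ (MulAut.conj x)) r hrp hXr ⊤
      (fun m _ => Submodule.mem_top) (π y) Submodule.mem_top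
    obtain ⟨y₁, hy₁, rfl⟩ := hs.surj u
    have hw' : y₁⁻¹ * (x * y₁ * x⁻¹) ∈ W := by
      rw [S11_cong hs hy₁ (hconjZ x y₁ hy₁), ← hσ x y₁ hy₁]
      exact hu1
    have e1 : x * y₁ ^ p * x⁻¹ = y₁ ^ p := by
      rw [← conj_pow]
      have e2 : x * y₁ * x⁻¹ = y₁ * (y₁⁻¹ * (x * y₁ * x⁻¹)) := by group
      rw [e2, h5 y₁ hy₁ _ (h1 hw'), ((h.sit.Wmem _).mp hw').2.2, mul_one]
    have e3 := h.sit.xfix _ (h2 y₁ hy₁) (mul_inv_eq_iff_eq_mul.mp e1)
    refine ⟨y₁⁻¹ * y, ⟨Z.mul_mem (Z.inv_mem hy₁) hy, t, ?_⟩, ?_⟩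
    · rw [hs.mul _ (Z.inv_mem hy₁) _ hy, S11_inv hs hy₁, hut]
      abel
    · rw [h5 _ (Z.inv_mem hy₁) _ hy, inv_pow, e3, inv_one, one_mul, hyv]

end FPX
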