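import Pool.Agent.FPX.Defs2

namespace FPX

variable {G : Type} [Group G] [Finite G] {p r : ℕ} [Fact p.Prime] {P W : Subgroup G} {x : G}
  {V : Type} [AddCommGroup V] [Module (ZMod p) V] {f : V → G}
  {ρ : MulAut G →* (V ≃ₗ[ZMod p] V)} {X : V ≃ₗ[ZMod p] V}
variable {Z : Subgroup G} {T : Type} [AddCommGroup T] [Module (ZMod p) T] {π : G → T}
  {σ : MulAut G →* (T ≃ₗ[ZMod p] T)} {vv : G → (T →ₗ[ZMod p] V)}

omit [Finite G] in
theorem S17_fX (h : TCtx p r P W x V f ρ X Z T π σ vv) (v : V) : x * f v * x⁻¹ = f (X v) := by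
  have h1 := h.ctx.mod.act (MulAut.conj x) v
  rw [← h.ctx.hX] at h1
  rw [← h1, MulAut.conj_apply]

omit [Finite G] in
theorem S17_WZ (h : TCtx p r P W x V f ρ X Z T π σ vv) {w : G} (hw : w ∈ W) : w ∈ Z := by
  obtain ⟨h1, h2, h3⟩ := (h.ctx.sit.Wmem w).mp hw
  refine (h.z2.mem w).mpr ⟨h1, fun g hg => ?_⟩
  have h4 : g * w = w * g := Subgroup.mem_centralizer_iff.mp h2 g hg
  have h5 : w * g * w⁻¹ * g⁻¹ = 1 := by
    rw [← h4]; group
  rw [h5]
  exact W.one_mem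

omit [Finite G] in
theorem S17_fW (h : TCtx p r P W x V f ρ X Z T π σ vv) (v : V) : f v ∈ W :=
  (h.ctx.mod.mem (f v)).mpr ⟨v, rfl⟩

omit [Finite G] in
theorem S17_f0 (h : TCtx p r P W x V f ρ X Z T π σ vv) : f 0 = 1 := by
  have h1 := h.ctx.mod.add 0 0
  rw [add_zero] at h1
  exact (mul_eq_left.mp h1.symm)

omit [Finite G] in
theorem S17_mulW (h : TCtx p r P W x V f ρ X Z T π σ vv) {q w : G} (hq : q ∈ Z) (hw : w ∈ W) :
    π (q * w) = π q := by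
  rw [h.smod.mul q hq w (S17_WZ h hw), (h.smod.ker w (S17_WZ h hw)).mpr hw, add_zero]

omit [Finite G] in
theorem S17_one (h : TCtx p r P W x V f ρ X Z T π σ vv) : π 1 = 0 :=
  (h.smod.ker 1 Z.one_mem).mpr W.one_mem

omit [Finite G] in
theorem S17_inv (h : TCtx p r P W x V f ρ X Z T π σ vv) {q : G} (hq : q ∈ Z) :
    π q⁻¹ = - π q := by
  have h1 := h.smod.mul q⁻¹ (Z.inv_mem hq) q hq
  rw [inv_mul_cancel, S17_one h] at h1
  exact eq_neg_of_add_eq_zero_left h1.symm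

/-- The subgroup `Z'`. -/
def S17_Z' (h : TCtx p r P W x V f ρ X Z T π σ vv) (φ : Module.Dual (ZMod p) T) :
    Subgroup G where
  carrier := {q | q ∈ Z ∧ φ (π q) = 0}
  mul_mem' := by
    rintro a b ⟨ha, ha'⟩ ⟨hb, hb'⟩
    refine ⟨Z.mul_mem ha hb, ?_⟩
    rw [h.smod.mul a ha b hb, map_add, ha', hb', add_zero]
  one_mem' := ⟨Z.one_mem, by rw [S17_one h, map_zero]⟩
  inv_mem' := by
    rintro a ⟨ha, ha'⟩
    exact ⟨Z.inv_mem ha, by rw [S17_inv h ha, map_neg, ha', neg_zero]⟩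

omit [Finite G] in
theorem S17_memZ' (h : TCtx p r P W x V f ρ X Z T π σ vv) (φ : Module.Dual (ZMod p) T) (q : G) :
    q ∈ S17_Z' h φ ↔ q ∈ Z ∧ φ (π q) = 0 := Iff.rfl

omit [Finite G] in
theorem S17_conj (h : TCtx p r P W x V f ρ X Z T π σ vv) (q : G) :
    q ∈ Z ↔ x * q * x⁻¹ ∈ Z := by
  have hchar := h.z2.char
  have hn : Z.Normal := inferInstance
  constructor
  · intro hq
    exact hn.conj_mem q hq x
  · intro hq
    have := hn.conj_mem _ hq x⁻¹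
    have e2 : x⁻¹ * (x * q * x⁻¹) * x⁻¹⁻¹ = q := by group
    rwa [e2] at this

omit [Finite G] in
theorem S17_norm (h : TCtx p r P W x V f ρ X Z T π σ vv) (φ : Module.Dual (ZMod p) T) :
    x ∈ Subgroup.normalizer (S17_Z' h φ : Set G) := by
  rw [Subgroup.mem_normalizer_iff]
  intro q
  rw [S17_memZ', S17_memZ']
  constructor
  · rintro ⟨h1, h2⟩
    refine ⟨(S17_conj h q).mp h1, ?_⟩
    have h3 := h.xtriv q h1
    have h4 : x * q * x⁻¹ = q * (q⁻¹ * (x * q * x⁻¹)) := by group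
    rw [h4, S17_mulW h h1 h3, h2]
  · rintro ⟨h1, h2⟩
    have h1' := (S17_conj h q).mpr h1
    refine ⟨h1', ?_⟩
    have h3 := h.xtriv q h1'
    have h4 : x * q * x⁻¹ = q * (q⁻¹ * (x * q * x⁻¹)) := by group
    rw [h4, S17_mulW h h1' h3] at h2
    exact h2

/-- The subgroup `H = Z' ⟨x⟩`. -/
def S17_H (h : TCtx p r P W x V f ρ X Z T π σ vv) (φ : Module.Dual (ZMod p) T) :
    Subgroup G where
  carrier := {g | ∃ q ∈ S17_Z' h φ, ∃ i : ℤ, g = q * x ^ i}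
  mul_mem' := by
    rintro a b ⟨q, hq, i, rfl⟩ ⟨q', hq', j, rfl⟩
    have hx : x ^ i ∈ Subgroup.normalizer (S17_Z' h φ : Set G) :=
      Subgroup.zpow_mem _ (S17_norm h φ) i
    have h1 : x ^ i * q' * (x ^ i)⁻¹ ∈ S17_Z' h φ :=
      (Subgroup.mem_normalizer_iff.mp hx q').mp hq'
    refine ⟨q * (x ^ i * q' * (x ^ i)⁻¹), Subgroup.mul_mem _ hq h1, i + j, ?_⟩
    rw [zpow_add]
    group
  one_mem' := ⟨1, Subgroup.one_mem _, 0, by simp⟩
  inv_mem' := by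
    rintro a ⟨q, hq, i, rfl⟩
    have hx : (x ^ i)⁻¹ ∈ Subgroup.normalizer (S17_Z' h φ : Set G) :=
      Subgroup.inv_mem _ (Subgroup.zpow_mem _ (S17_norm h φ) i)
    have h1 : (x ^ i)⁻¹ * q⁻¹ * ((x ^ i)⁻¹)⁻¹ ∈ S17_Z' h φ :=
      (Subgroup.mem_normalizer_iff.mp hx q⁻¹).mp (Subgroup.inv_mem _ hq)
    refine ⟨(x ^ i)⁻¹ * q⁻¹ * ((x ^ i)⁻¹)⁻¹, h1, -i, ?_⟩
    rw [zpow_neg]
    group

omit [Finite G] in
theorem S17_memH (h : TCtx p r P W x V f ρ X Z T π σ vv) (φ : Module.Dual (ZMod p) T) (g : G) :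
    g ∈ S17_H h φ ↔ ∃ q ∈ S17_Z' h φ, ∃ i : ℤ, g = q * x ^ i := Iff.rfl

omit [Finite G] in
theorem S17_ZP (h : TCtx p r P W x V f ρ X Z T π σ vv) {z : G} (hz : z ∈ Z) : z ∈ P :=
  ((h.z2.mem z).mp hz).1

omit [Finite G] in
theorem S17_pow (h : TCtx p r P W x V f ρ X Z T π σ vv) (i : ℤ) (hi : x ^ i ∈ P) : x ^ i = 1 := by
  obtain ⟨k, hk⟩ := h.ctx.sit.syl.pgroup ⟨x ^ i, hi⟩
  have hk' : (x ^ i) ^ (p ^ k) = 1 := by
    have := congrArg Subtype.val hk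
    simpa using this
  have hr : (x ^ i) ^ r = 1 := by
    rw [← h.ctx.sit.xord, ← zpow_natCast, ← zpow_mul, mul_comm, zpow_mul, zpow_natCast,
      pow_orderOf_eq_one, one_zpow]
  have h1 : orderOf (x ^ i) ∣ p ^ k := orderOf_dvd_of_pow_eq_one hk'
  have h2 : orderOf (x ^ i) ∣ r := orderOf_dvd_of_pow_eq_one hr
  have hc : Nat.Coprime (p ^ k) r :=
    Nat.Coprime.pow_left k ((Nat.coprime_primes h.ctx.sit.syl.prime h.ctx.sit.rprime).mpr
      h.ctx.sit.rp.symm)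
  exact orderOf_eq_one_iff.mp (Nat.dvd_one.mp (hc ▸ Nat.dvd_gcd h1 h2))

omit [Finite G] in
theorem S17_HZ (h : TCtx p r P W x V f ρ X Z T π σ vv) (φ : Module.Dual (ZMod p) T) {g : G}
    (hg : g ∈ S17_H h φ) (hz : g ∈ Z) : g ∈ S17_Z' h φ := by
  obtain ⟨q, hq, i, rfl⟩ := (S17_memH h φ g).mp hg
  have hqZ : q ∈ Z := ((S17_memZ' h φ q).mp hq).1
  have h1 : x ^ i ∈ Z := by
    have := Z.mul_mem (Z.inv_mem hqZ) hz
    rwa [inv_mul_cancel_left] at this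
  have h2 := S17_pow h i (S17_ZP h h1)
  rw [h2, mul_one]
  exact hq

/-- Every `t` is `π q` with `q ∈ Z` commuting with `x` (unique).  Proof: `t = π q₁`,
`x q₁ x⁻¹ = q₁ f(v)`; `X - 1` is injective on the finite `V`, so there is `u` with `X u - u = -v`, and
`q = q₁ f(u)` satisfies `x q x⁻¹ = q₁ f(v) f(X u) = q`. -/
theorem TCtx.lift (h : TCtx p r P W x V f ρ X Z T π σ vv) [Finite V] (t : T) :
    ∃ q ∈ Z, π q = t ∧ x * q * x⁻¹ = q := by
  obtain ⟨q₁, hq₁, hπ⟩ := h.smod.surj t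
  obtain ⟨v, hv⟩ := (h.ctx.mod.mem _).mp (h.xtriv q₁ hq₁)
  have hinj : Function.Injective (fun u : V => X u - u) := by
    intro u u' huu
    have h1 : X u - u = X u' - u' := huu
    have h2 : X (u - u') = u - u' := by
      rw [map_sub]
      have h3 : X u = X u' - u' + u := by rw [← h1]; abel
      rw [h3]; abel
    exact sub_eq_zero.mp (h.ctx.pl.Xfix _ h2)
  obtain ⟨u, hu⟩ := (Finite.injective_iff_surjective.mp hinj) (-v)
  have hu' : X u - u = -v := hu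
  have hu2 : v + X u = u := by
    have : X u = -v + u := by rw [← hu']; abel
    rw [this]; abel
  refine ⟨q₁ * f u, Z.mul_mem hq₁ (S17_WZ h (S17_fW h u)), ?_, ?_⟩
  · rw [S17_mulW h hq₁ (S17_fW h u), hπ]
  · have h1 : x * (q₁ * f u) * x⁻¹ = q₁ * (q₁⁻¹ * (x * q₁ * x⁻¹)) * (x * f u * x⁻¹) := by group
    rw [h1, ← hv, S17_fX h u, mul_assoc, ← h.ctx.mod.add, hu2]

/-- Step (C1).  For every functional `φ` on `T` there is `α` with `ρ α = 1` whose fixed space on `T` is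
`ker φ`.

Proof.  `Z' = {q ∈ Z : φ (π q) = 0} ≥ W`, a subgroup normalised by `x` (`x q x⁻¹ ∈ q W`).
`H = Z' ⊔ zpowers x = Z' ⟨x⟩`; `H ∩ Z = Z'` (an element `z x^i ∈ P` has `x^i ∈ P`, so `x^i = 1` as `x`
has order `r ≠ p`).  `α` with fixed points `H`: `W ≤ H` gives `ρ α = 1`; `α x = x`.  If `φ t = 0`,
`t = π q` with `q ∈ Z'` fixed.  Conversely let `σ α t = t`, `t = π q` with `q ∈ Z` commuting with `x`
(`TCtx.lift`).  `α q = q f(v)`, and `α q` commutes with `α x = x`, so `f v` commutes with `x`, so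
`f v = 1` by `xfix`.  So `q ∈ H ∩ Z = Z'`, `φ t = 0`. -/
theorem TCtx.C1 (h : TCtx p r P W x V f ρ X Z T π σ vv) [Finite V] (hF : PF G)
    (φ : Module.Dual (ZMod p) T) :
    ∃ α : MulAut G, (∀ v, ρ α v = v) ∧ ∀ t, σ α t = t ↔ φ t = 0 := by
  obtain ⟨α, hα⟩ := hF (S17_H h φ)
  have hZ'H : ∀ q ∈ S17_Z' h φ, α q = q := fun q hq =>
    (hα q).mpr ((S17_memH h φ q).mpr ⟨q, hq, 0, by simp⟩)
  have hx : α x = x :=
    (hα x).mpr ((S17_memH h φ x).mpr ⟨1, Subgroup.one_mem _, 1, by simp⟩)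
  have hWZ' : ∀ w ∈ W, w ∈ S17_Z' h φ := fun w hw =>
    (S17_memZ' h φ w).mpr ⟨S17_WZ h hw, by
      rw [(h.smod.ker w (S17_WZ h hw)).mpr hw, map_zero]⟩
  refine ⟨α, fun v => ?_, fun t => ⟨fun ht => ?_, fun ht => ?_⟩⟩
  · have h1 := h.ctx.mod.act α v
    rw [hZ'H _ (hWZ' _ (S17_fW h v))] at h1
    exact (h.ctx.mod.inj h1).symm
  · obtain ⟨q, hq, hqt, hqx⟩ := TCtx.lift h t
    have h1 := h.smod.act α q hq
    rw [hqt, ht] at h1
    have hαq : α q ∈ Z := by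
      have := Subgroup.characteristic_iff_le_comap.mp h.z2.char α
      exact this hq
    have h2 : q⁻¹ * α q ∈ W := by
      rw [← h.smod.ker _ (Z.mul_mem (Z.inv_mem hq) hαq), h.smod.mul _ (Z.inv_mem hq) _ hαq,
        S17_inv h hq, hqt, h1, neg_add_cancel]
    obtain ⟨v, hv⟩ := (h.ctx.mod.mem _).mp h2
    have h3 : α q = q * f v := by rw [hv]; group
    have h4 : x * α q * x⁻¹ = α q := by
      have := congrArg α hqx
      rw [map_mul, map_mul, map_inv, hx] at this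
      exact this
    have h5 : X v = v := by
      apply h.ctx.mod.inj
      rw [← S17_fX h v]
      rw [h3] at h4
      have h6 : x * (q * f v) * x⁻¹ = (x * q * x⁻¹) * (x * f v * x⁻¹) := by group
      rw [h6, hqx] at h4
      exact mul_left_cancel h4
    have h7 : v = 0 := h.ctx.pl.Xfix v h5
    rw [h7, S17_f0 h, mul_one] at h3
    have h8 := S17_HZ h φ ((hα q).mp h3) hq
    have h9 := ((S17_memZ' h φ q).mp h8).2
    rwa [hqt] at h9
  · obtain ⟨q, hq, hqt⟩ := h.smod.surj t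
    have h1 : α q = q := hZ'H q ((S17_memZ' h φ q).mpr ⟨hq, by rw [hqt, ht]⟩)
    have h2 := h.smod.act α q hq
    rw [h1, hqt] at h2
    exact h2.symm

end FPX
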