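import Pool.Agent.FPX.S17
import Pool.Agent.FPX.S13
import Pool.Agent.FPX.L16

namespace FPX

variable {G : Type} [Group G] [Finite G] {p r : ℕ} [Fact p.Prime] {P W : Subgroup G} {x : G}
  {V : Type} [AddCommGroup V] [Module (ZMod p) V] {f : V → G}
  {ρ : MulAut G →* (V ≃ₗ[ZMod p] V)} {X : V ≃ₗ[ZMod p] V}
variable {Z : Subgroup G} {T : Type} [AddCommGroup T] [Module (ZMod p) T] {π : G → T}
  {σ : MulAut G →* (T ≃ₗ[ZMod p] T)} {vv : G → (T →ₗ[ZMod p] V)}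

/-- Steps (C2), (C3).  There are a prime `l ≠ p`, an automorphism `s` with `s ^ (l ^ a) = 1`,
`ρ s = 1`, and a nonzero functional `ψ` on `T` with `ψ (σ s t) = κ ψ t`, `κ ≠ 1`.

Proof.  `A := ` the image under `σ` of the subgroup `ρ.ker`; by C1 and `lemL` (`p ≠ 2`) there are `α`
with `ρ α = 1` and `c ≠ 1`, `v ≠ 0` with `σ α v = c v`; `c ≠ 0`.  `σ α - c` is not injective on the
finite `T`, so it is not surjective, so some functional `ψ ≠ 0` vanishes on its range: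
`ψ (σ α t) = c ψ t`.  `exists_l` for `α`, `κ = c` gives `l, a, m`; `s = α ^ m`, `κ = c ^ m`. -/
theorem TCtx.C3 (h : TCtx p r P W x V f ρ X Z T π σ vv) [Finite V] [Finite T] [Nontrivial T]
    (hF : PF G) :
    ∃ (l a : ℕ) (s : MulAut G) (ψ : Module.Dual (ZMod p) T) (κ : ZMod p),
      l.Prime ∧ l ≠ p ∧ s ^ (l ^ a) = 1 ∧ (∀ v, ρ s v = v) ∧ ψ ≠ 0 ∧ κ ≠ 1 ∧
      ∀ t, ψ (σ s t) = κ * ψ t := by
  have hp5 : 5 ≤ p := h.ctx.sit.p5
  have hp2 : p ≠ 2 := by omega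
  obtain ⟨g, hg, c, hc1, v, hv0, hgv⟩ := lemL hp2 (ρ.ker.map σ) (by
    intro φ _
    obtain ⟨α, hα, hfix⟩ := h.C1 hF φ
    exact ⟨σ α, Subgroup.mem_map_of_mem σ (MonoidHom.mem_ker.2 (LinearEquiv.ext hα)), hfix⟩)
  obtain ⟨α, hα, rfl⟩ := Subgroup.mem_map.1 hg
  have hρα : ρ α = 1 := MonoidHom.mem_ker.1 hα
  have hc0 : c ≠ 0 := by
    rintro rfl
    rw [zero_smul] at hgv
    exact hv0 ((σ α).map_eq_zero_iff.1 hgv)
  let L : T →ₗ[ZMod p] T := (σ α : T →ₗ[ZMod p] T) - c • LinearMap.id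
  have hLv : ∀ t, L t = σ α t - c • t := fun t => rfl
  have hninj : ¬ Function.Injective L := by
    intro hi
    apply hv0
    apply hi
    rw [hLv, hgv, sub_self, map_zero]
  have hnsurj : ¬ Function.Surjective L := fun hs => hninj (Finite.injective_iff_surjective.2 hs)
  have hrange : LinearMap.range L ≠ ⊤ := fun h => hnsurj (LinearMap.range_eq_top.1 h)
  obtain ⟨ψ, hψ0, hψ⟩ := Submodule.exists_le_ker_of_lt_top _ (lt_top_iff_ne_top.2 hrange)
  have hψt : ∀ t, ψ (σ α t) = c * ψ t := by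
    intro t
    have h1 : ψ (L t) = 0 := hψ (LinearMap.mem_range_self L t)
    rw [hLv, map_sub, map_smul, smul_eq_mul, sub_eq_zero] at h1
    exact h1
  have hpow : ∀ (n : ℕ) (t : T), ψ ((σ α ^ n) t) = c ^ n * ψ t := by
    intro n
    induction n with
    | zero => intro t; rw [pow_zero, pow_zero, one_mul]; rfl
    | succ n ih =>
      intro t
      have e : (σ α ^ (n + 1)) t = (σ α ^ n) (σ α t) := by rw [pow_succ]; rfl
      rw [e, ih, hψt, pow_succ]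
      ring
  obtain ⟨l, a, m, hl, hlp, hla, hcm⟩ := exists_l α c hc0 hc1
  refine ⟨l, a, α ^ m, ψ, c ^ m, hl, hlp, hla, ?_, hψ0, hcm, ?_⟩
  · intro v
    rw [map_pow, hρα, one_pow]
    rfl
  · intro t
    rw [map_pow]
    exact hpow m t

end FPX
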