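import Pool.Agent.FPX.Defs2
import Pool.Agent.FPX.A6
import Pool.Agent.FPX.A7

namespace FPX

/-- (1.2) `P C_G(P)` has a complement.

Proof.  `exists_compl` for `B = P`, `C` from `exists_C`, `α` with fixed points `P`.  `g⁻¹ α(g) ∈ cen P`
for all `g` (for `b ∈ P`, `g b g⁻¹ ∈ P` is fixed, so `α(g) b α(g)⁻¹ = g b g⁻¹`), and
`cen P ≤ P ⊔ C`; `P ⊔ C = P ⊔ cen P`. -/
theorem exists_Y {G : Type} [Group G] [Finite G] {p : ℕ} {P : Subgroup G} (hP : NSyl p P)
    (hF : PF G) : ∃ Y : Subgroup G, Y ⊓ (P ⊔ cen P) = ⊥ ∧ Y ⊔ (P ⊔ cen P) = ⊤ := by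
  obtain ⟨α, hα⟩ := hF P
  obtain ⟨C, hCc, hCP, hCle, _, hdec⟩ := exists_C hP
  have hCn : C.Normal := by
    have := hCc
    infer_instance
  have hcen : ∀ g : G, g⁻¹ * α g ∈ cen P := by
    intro g
    rw [Subgroup.mem_centralizer_iff]
    intro b hb
    have h1 : g * b * g⁻¹ ∈ P := hP.normal.conj_mem b hb g
    have h2 := (hα _).2 h1
    rw [map_mul, map_mul, map_inv, (hα b).2 hb] at h2
    have h3 : α g * b = g * b * g⁻¹ * α g := by
      rw [← h2]
      group
    calc b * (g⁻¹ * α g) = g⁻¹ * (g * b * g⁻¹ * α g) := by group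
      _ = g⁻¹ * (α g * b) := by rw [h3]
      _ = g⁻¹ * α g * b := by group
  have hsup : P ⊔ C = P ⊔ cen P := by
    apply le_antisymm
    · exact sup_le_sup_left hCle P
    · refine sup_le le_sup_left ?_
      intro m hm
      obtain ⟨z, hz, _, c, hc, rfl⟩ := hdec m hm
      exact (P ⊔ C).mul_mem (Subgroup.mem_sup_left hz) (Subgroup.mem_sup_right hc)
  have hmain := exists_compl α P C hP.normal hCn (by rw [inf_comm]; exact hCP)
    (fun b hb => (hα b).2 hb) (fun c hc => char_mem hCc α hc) ?_ ?_ ?_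
  · rw [hsup] at hmain
    exact hmain
  · intro c hc h1
    have h2 : c ∈ C ⊓ P := ⟨hc, (hα c).1 h1⟩
    rw [hCP] at h2
    exact Subgroup.mem_bot.1 h2
  · intro g
    rw [hsup]
    exact Subgroup.mem_sup_right (hcen g)
  · have h1 := nsyl_coprime hP
    have h2 : (P ⊔ C).index ∣ P.index := Subgroup.index_dvd_of_le le_sup_left
    exact Nat.Coprime.coprime_dvd_right h2 h1

end FPX
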