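import Pool.Agent.FPX.S1
import Pool.Agent.FPX.A4
import Pool.Agent.FPX.L13

namespace FPX

theorem S3_cenchar {G : Type} [Group G] {W : Subgroup G} (hW : W.Characteristic) (α : MulAut G)
    {g : G} (hg : g ∈ cen W) : α g ∈ cen W := by
  rw [Subgroup.mem_centralizer_iff] at hg ⊢
  intro b hb
  have h1 : α⁻¹ b ∈ W := char_mem hW α⁻¹ hb
  have h2 := hg _ h1
  have h3 := congrArg α h2
  rw [map_mul, map_mul, MulAut.apply_inv_self] at h3
  exact h3

theorem S3_Omchar {G : Type} [Group G] {p : ℕ} {P : Subgroup G} (hP : P.Characteristic) :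
    (Om p P).Characteristic := by
  apply char_of_forall
  rintro α g ⟨h1, h2, h3⟩
  exact ⟨char_mem hP α h1, S3_cenchar hP α h2, by rw [← map_pow, h3, map_one]⟩

theorem S3_conj {G : Type} [Group G] (α : MulAut G) (g : G) :
    α * MulAut.conj g * α⁻¹ = MulAut.conj (α g) := by
  ext x
  change α (g * α⁻¹ x * g⁻¹) = α g * x * (α g)⁻¹
  rw [map_mul, map_mul, map_inv, MulAut.apply_inv_self]

theorem S3_one {G : Type} [Group G] {p : ℕ} {W : Subgroup G} {V : Type} [AddCommGroup V]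
    [Module (ZMod p) V] {f : V → G} {ρ : MulAut G →* (V ≃ₗ[ZMod p] V)} (h : Mod p W V f ρ) :
    f 0 = 1 := by
  have h1 := h.add 0 0
  rw [add_zero] at h1
  exact left_eq_mul.1 h1

theorem S3_ker {G : Type} [Group G] {p : ℕ} {W : Subgroup G} {V : Type} [AddCommGroup V]
    [Module (ZMod p) V] {f : V → G} {ρ : MulAut G →* (V ≃ₗ[ZMod p] V)} (h : Mod p W V f ρ) (g : G) :
    ρ (MulAut.conj g) = 1 ↔ g ∈ cen W := by
  rw [Subgroup.mem_centralizer_iff]
  constructor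
  · intro h1 w hw
    obtain ⟨v, rfl⟩ := (h.mem w).1 hw
    have h2 := h.act (MulAut.conj g) v
    rw [h1] at h2
    change g * f v * g⁻¹ = f v at h2
    calc f v * g = (g * f v * g⁻¹) * g := by rw [h2]
      _ = g * f v := by group
  · intro h1
    ext v
    apply h.inj
    rw [← h.act]
    change g * f v * g⁻¹ = f v
    have h2 := h1 (f v) ((h.mem _).2 ⟨v, rfl⟩)
    rw [← h2]
    group

/-- the subgroup `f(U)` -/
theorem S3_sub {G : Type} [Group G] {p : ℕ} {W : Subgroup G} {V : Type} [AddCommGroup V]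
    [Module (ZMod p) V] {f : V → G} {ρ : MulAut G →* (V ≃ₗ[ZMod p] V)} (h : Mod p W V f ρ)
    (U : Submodule (ZMod p) V) : ∃ H : Subgroup G, ∀ v, f v ∈ H ↔ v ∈ U := by
  have h1 := S3_one h
  refine ⟨{ carrier := {g | ∃ v ∈ U, f v = g}
            mul_mem' := ?_
            one_mem' := ⟨0, U.zero_mem, h1⟩
            inv_mem' := ?_ }, fun v => ?_⟩
  · rintro _ _ ⟨u, hu, rfl⟩ ⟨v, hv, rfl⟩
    exact ⟨u + v, U.add_mem hu hv, h.add u v⟩
  · rintro _ ⟨u, hu, rfl⟩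
    refine ⟨-u, U.neg_mem hu, ?_⟩
    have h2 := h.add (-u) u
    rw [neg_add_cancel, h1] at h2
    exact eq_inv_of_mul_eq_one_left h2.symm
  · constructor
    · rintro ⟨u, hu, hv⟩
      rw [← h.inj hv]
      exact hu
    · intro hv
      exact ⟨v, hv, rfl⟩

/-- Proposition LA for the action on `W = Om p P`.

Proof.  `Om p P` is characteristic (`P` is, `nsyl_char`, hence `cen P`, hence `Om p P`), commutative
of exponent `p`: `exists_mod` gives `V, f, ρ`.  Let `A = ρ.range`, `Γ = (ρ.comp MulAut.conj).range`,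
`a0 = ρ α₀` where `α₀` has fixed points `⊥`.  Verification of `LAH p V A Γ a0`:
norm: `ρ(α) ρ(conj g) ρ(α)⁻¹ = ρ(conj (α g))`.
cop: `P` commutes with `W`, so `P ≤ ker (ρ.comp MulAut.conj)`, and `|Γ|` divides `|G : P|`.
hU: for a submodule `U` let `H` be the subgroup `f(U)` of `G` and `α` with fixed points `H`;
`ρ α v = v` iff `α (f v) = f v` iff `f v ∈ H` iff `v ∈ U`.
a0Γ: if `a0` commutes with `ρ(conj g)` then `ρ(conj (α₀ g)) = ρ(conj g)`, so `g⁻¹ α₀(g) ∈ cen W`; by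
`lang_fix` for `N = cen W` there is `n ∈ cen W` with `α₀(g n) = g n`, so `g n = 1`, `g ∈ cen W`,
`ρ(conj g) = 1`.
`Γ` is solvable (image of `G`).  `Γ ≠ ⊥`: otherwise every `g` is in `cen W`, so `g = a c` with `a ∈ P`,
`c ∈ cen P` by `cen_Om`, so `P ⊔ cen P = ⊤`.
Then `LA` gives `LAout`. -/
theorem exists_LAout {G : Type} [Group G] [Finite G] [Group.IsSolvable G] {p : ℕ} [Fact p.Prime]
    {P : Subgroup G} (hP : NSyl p P) (hF : PF G) (hne : P ⊔ cen P ≠ ⊤) :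
    ∃ (V : Type) (_ : AddCommGroup V) (_ : Module (ZMod p) V) (_ : Finite V) (f : V → G)
      (ρ : MulAut G →* (V ≃ₗ[ZMod p] V)), Mod p (Om p P) V f ρ ∧ LAout p V ρ := by
  have hPc := nsyl_char hP
  have hWc : (Om p P).Characteristic := S3_Omchar hPc
  have hcomm : ∀ a ∈ Om p P, ∀ b ∈ Om p P, a * b = b * a := by
    intro a ha b hb
    exact Subgroup.mem_centralizer_iff.1 hb.2.1 a ha.1
  obtain ⟨V, i1, i2, i3, f, ρ, hM⟩ := exists_mod p (Om p P) hWc hcomm (fun a ha => ha.2.2)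
  refine ⟨V, i1, i2, i3, f, ρ, hM, ?_⟩
  obtain ⟨α₀, hα₀⟩ := hF ⊥
  have hf1 := S3_one hM
  have hPker : P ≤ (ρ.comp MulAut.conj).ker := by
    intro x hx
    rw [MonoidHom.mem_ker]
    change ρ (MulAut.conj x) = 1
    rw [S3_ker hM, Subgroup.mem_centralizer_iff]
    intro w hw
    exact (Subgroup.mem_centralizer_iff.1 hw.2.1 x hx).symm
  have hLAH : LAH p V ρ.range (ρ.comp MulAut.conj).range (ρ α₀) := by
    refine ⟨?_, ?_, ?_, ?_, ⟨α₀, rfl⟩, ?_, ?_⟩
    · rintro _ ⟨g, rfl⟩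
      exact ⟨MulAut.conj g, rfl⟩
    · rintro _ ⟨α, rfl⟩ _ ⟨g, rfl⟩
      refine ⟨α g, ?_⟩
      change ρ (MulAut.conj (α g)) = ρ α * ρ (MulAut.conj g) * (ρ α)⁻¹
      rw [← S3_conj, map_mul, map_mul, map_inv]
    · rw [← Subgroup.index_ker]
      have h1 : (ρ.comp MulAut.conj).ker.index ∣ P.index := Subgroup.index_dvd_of_le hPker
      exact Nat.Coprime.coprime_dvd_left h1
        ((Nat.Prime.coprime_iff_not_dvd hP.prime).2 hP.index).symm
    · intro U
      obtain ⟨H, hH⟩ := S3_sub hM U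
      obtain ⟨α, hα⟩ := hF H
      refine ⟨ρ α, ⟨α, rfl⟩, fun v => ?_⟩
      rw [← hH, ← hα, hM.act]
      exact ⟨fun h => by rw [h], fun h => hM.inj h⟩
    · intro v hv
      have h1 := hM.act α₀ v
      rw [hv] at h1
      have h2 := (hα₀ _).1 h1
      rw [Subgroup.mem_bot, ← hf1] at h2
      exact hM.inj h2
    · rintro _ ⟨g, rfl⟩ h1
      change ρ α₀ * ρ (MulAut.conj g) = ρ (MulAut.conj g) * ρ α₀ at h1
      change ρ (MulAut.conj g) = 1
      have h2 : ρ (MulAut.conj (α₀ g)) = ρ (MulAut.conj g) := by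
        rw [← S3_conj, map_mul, map_mul, map_inv, h1, mul_inv_cancel_right]
      have h3 : g⁻¹ * α₀ g ∈ cen (Om p P) := by
        rw [← S3_ker hM, map_mul, map_inv, map_mul, map_inv, h2, inv_mul_cancel]
      obtain ⟨n, hn, h4⟩ := lang_fix α₀ (cen (Om p P)) (fun n hn => S3_cenchar hWc α₀ hn)
        (fun n _ hn => Subgroup.mem_bot.1 ((hα₀ n).1 hn)) g h3
      have h5 : g * n = 1 := Subgroup.mem_bot.1 ((hα₀ _).1 h4)
      rw [S3_ker hM, eq_inv_of_mul_eq_one_left h5]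
      exact (cen (Om p P)).inv_mem hn
  have hs : Group.IsSolvable (ρ.comp MulAut.conj).range :=
    Group.isSolvable_of_surjective (ρ.comp MulAut.conj).rangeRestrict_surjective
  have hne' : (ρ.comp MulAut.conj).range ≠ ⊥ := by
    intro h1
    apply hne
    rw [eq_top_iff]
    intro g _
    have h2 : ρ (MulAut.conj g) ∈ (ρ.comp MulAut.conj).range := ⟨g, rfl⟩
    rw [h1, Subgroup.mem_bot, S3_ker hM] at h2
    obtain ⟨a, ha, c, hc, rfl⟩ := cen_Om hP hF g h2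
    exact (P ⊔ cen P).mul_mem (Subgroup.mem_sup_left ha) (Subgroup.mem_sup_right hc)
  obtain ⟨c1, c2, _, c4, c5, c6, c7⟩ := LA hLAH hs hne'
  refine ⟨c1, c2, fun g => c4 _ ⟨g, rfl⟩, fun g => c5 _ ⟨g, rfl⟩, fun g => c6 _ ⟨g, rfl⟩, fun α => ?_⟩
  rcases c7 (ρ α) ⟨α, rfl⟩ with h1 | h1
  · exact Or.inl fun g => h1 _ ⟨g, rfl⟩
  · exact Or.inr fun g => h1 _ ⟨g, rfl⟩

end FPX
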