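import Pool.Agent.FPX.S1
import Pool.Agent.FPX.S2
import Pool.Agent.FPX.S3

namespace FPX

/-- (1.4) The centraliser of `W` has index an odd prime `r`, and there is `x` of order `r` outside.

Proof.  Take `V, f, ρ` from `exists_LAout`, `W = Om p P`.  `cen W = P ⊔ cen P` as sets: `cen_Om`, and
`P`, `cen P` commute with `W`.  So the kernel of `ρ.comp MulAut.conj` is `cen W =: D`
(`ρ (conj g) = 1` iff `g` commutes with all `f v`).  Take `Y` from `exists_Y`: a complement of `D`, so
`|Y| = |G : D| ≠ 1`, prime to `p`.  Let `r` be a prime divisor of `|Y|` and `x ∈ Y` of order `r`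
(Cauchy); `x ∉ D`, `r ≠ p`.
Let `α` have fixed points `zpowers x`.  By `sgn`, `ρ α` commutes with all `ρ (conj g)` or inverts
all; it commutes with `ρ (conj x)` (`α x = x`); if it inverts all then `ρ (conj x) ^ 2 = 1`, so
`ρ (conj x) = 1` by `odd`, contradiction with `x ∉ D`.  So it commutes with all, so
`ρ (conj (α g)) = ρ (conj g)`, `g⁻¹ α(g) ∈ D` for all `g`; by `count`, `|G : D| ≤ |zpowers x| = r`,
and `r` divides `|Y| = |G : D|`, so `|G : D| = r`.  `r ≠ 2` by `odd` (`ρ (conj x) ^ r = 1`).
`xfix`: by `fix`.  `tau`: take `τ.val`.  `sgn`: `ρ α ρ(conj x) ρ α⁻¹ = ρ (conj (α x))` is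
`ρ (conj x)` or its inverse.  `Wcard`: `|W| = |V| = p ^ 2`. -/
theorem exists_Sit {G : Type} [Group G] [Finite G] [Group.IsSolvable G] {p : ℕ}
    {P : Subgroup G} (hP : NSyl p P) (hF : PF G) (hne : P ⊔ cen P ≠ ⊤) :
    ∃ (r : ℕ) (x : G), Sit p r P (Om p P) x := by
  classical
  have hp : p.Prime := hP.prime
  have hpf : Fact p.Prime := ⟨hp⟩
  obtain ⟨V, iA, iM, iF, f, ρ, hm, hL⟩ := exists_LAout hP hF hne
  set W : Subgroup G := Om p P with hW
  set D : Subgroup G := cen W with hD
  have hconj : ∀ (g : G) (v : V), g * f v * g⁻¹ = f (ρ (MulAut.conj g) v) := by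
    intro g v
    rw [← hm.act, MulAut.conj_apply]
  have hker : ∀ g : G, ρ (MulAut.conj g) = 1 ↔ g ∈ D := by
    intro g
    constructor
    · intro h
      rw [hD, Subgroup.mem_centralizer_iff]
      intro w hw
      obtain ⟨v, rfl⟩ := (hm.mem w).1 hw
      have h1 := hconj g v
      rw [h] at h1
      have h2 : g * f v * g⁻¹ = f v := h1
      rw [mul_inv_eq_iff_eq_mul] at h2
      exact h2.symm
    · intro h
      rw [hD, Subgroup.mem_centralizer_iff] at h
      apply LinearEquiv.ext
      intro v
      apply hm.inj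
      rw [← hconj]
      have h1 := h (f v) ((hm.mem _).2 ⟨v, rfl⟩)
      rw [← h1, mul_inv_cancel_right]
      rfl
  have hαc : ∀ (α : MulAut G) (g : G), ρ α * ρ (MulAut.conj g) = ρ (MulAut.conj (α g)) * ρ α := by
    intro α g
    rw [← map_mul, ← map_mul]
    congr 1
    ext y
    show α (g * y * g⁻¹) = α g * α y * (α g)⁻¹
    rw [map_mul, map_mul, map_inv]
  have hsame : ∀ a b : G, ρ (MulAut.conj b) = ρ (MulAut.conj a) → a⁻¹ * b ∈ D := by
    intro a b h
    rw [← hker, map_mul, map_inv, map_mul, map_inv, h, inv_mul_cancel]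
  have hDcen : ∀ g : G, g ∈ D ↔ ∃ a ∈ P, ∃ c ∈ cen P, g = a * c := by
    intro g
    constructor
    · intro hg
      exact cen_Om hP hF g hg
    · rintro ⟨a, ha, c, hc, rfl⟩
      refine D.mul_mem ?_ ?_
      · rw [hD, Subgroup.mem_centralizer_iff]
        intro w hw
        exact (Subgroup.mem_centralizer_iff.1 (mem_Om.1 hw).2.1 a ha).symm
      · rw [hD, Subgroup.mem_centralizer_iff]
        intro w hw
        exact Subgroup.mem_centralizer_iff.1 hc w (mem_Om.1 hw).1
  have hDeq : D = P ⊔ cen P := by
    apply le_antisymm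
    · intro g hg
      obtain ⟨a, ha, c, hc, rfl⟩ := (hDcen g).1 hg
      exact Subgroup.mul_mem_sup ha hc
    · apply sup_le
      · intro a ha
        exact (hDcen a).2 ⟨a, ha, 1, (cen P).one_mem, (mul_one a).symm⟩
      · intro c hc
        exact (hDcen c).2 ⟨1, P.one_mem, c, hc, (one_mul c).symm⟩
  have hDn : D.Normal := by
    have h1 : D = (ρ.comp (MulAut.conj : G →* MulAut G)).ker := by
      ext g
      rw [MonoidHom.mem_ker]
      exact (hker g).symm
    rw [h1]
    infer_instance
  obtain ⟨Y, hY1, hY2⟩ := exists_Y hP hF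
  rw [← hDeq] at hY1 hY2
  have hcompl : Subgroup.IsComplement' Y D := by
    apply Subgroup.isComplement'_of_disjoint_and_mul_eq_univ (disjoint_iff.2 hY1)
    rw [← Subgroup.mul_normal, hY2]
    rfl
  have hidx : D.index = Nat.card Y := hcompl.index_eq_card
  have hne1 : Nat.card Y ≠ 1 := by
    intro h
    rw [← hidx, Subgroup.index_eq_one] at h
    apply hne
    rw [← hDeq, h]
  obtain ⟨r, hr, hrY⟩ := Nat.exists_prime_and_dvd hne1
  have hPD : P ≤ D := by
    rw [hDeq]
    exact le_sup_left
  have hpY : ¬ p ∣ Nat.card Y := by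
    intro h
    apply hP.index
    rw [← hidx] at h
    exact h.trans (Subgroup.index_dvd_of_le hPD)
  have hrp : r ≠ p := by
    rintro rfl
    exact hpY hrY
  have hrf : Fact r.Prime := ⟨hr⟩
  obtain ⟨x', hx'⟩ := exists_prime_orderOf_dvd_card' r hrY
  set x : G := (x' : G) with hx
  have hxord : orderOf x = r := by rw [hx, Subgroup.orderOf_coe, hx']
  have hx1 : x ≠ 1 := by
    intro h
    rw [h, orderOf_one] at hxord
    exact hr.one_lt.ne hxord
  have hxD : x ∉ D := by
    intro h
    have h1 : x ∈ Y ⊓ D := ⟨x'.2, h⟩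
    rw [hY1] at h1
    exact hx1 (Subgroup.mem_bot.1 h1)
  have hρx : ρ (MulAut.conj x) ≠ 1 := fun h => hxD ((hker x).1 h)
  obtain ⟨α, hα⟩ := hF (Subgroup.zpowers x)
  have hαx : α x = x := (hα x).2 (Subgroup.mem_zpowers x)
  have hcase : ∀ g : G, g⁻¹ * α g ∈ D := by
    rcases hL.sgn α with h | h
    · intro g
      apply hsame
      have h1 := hαc α g
      rw [h g] at h1
      exact (mul_right_cancel h1).symm
    · exfalso
      have h1 := hαc α x
      rw [h x, hαx] at h1
      have h2 := mul_right_cancel h1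
      apply hρx
      apply hL.odd
      rw [pow_two]
      nth_rewrite 1 [← h2]
      exact inv_mul_cancel _
  have hcount : D.index ≤ r := by
    have h1 := count α (Subgroup.zpowers x) D hα hcase
    rw [Nat.card_zpowers, hxord] at h1
    exact h1
  have hDidx : D.index = r := by
    apply le_antisymm hcount
    apply Nat.le_of_dvd
    · rw [hidx]
      exact Nat.card_pos
    · rw [hidx]
      exact hrY
  have hr2 : r ≠ 2 := by
    intro h
    apply hρx
    apply hL.odd
    rw [← map_pow, ← map_pow]
    have h1 : x ^ 2 = 1 := by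
      rw [← h, ← hxord]
      exact pow_orderOf_eq_one x
    rw [h1, map_one, map_one]
  have hf0 : f 0 = 1 := by
    have h1 := hm.add 0 0
    rw [add_zero] at h1
    exact (left_eq_mul.1 h1)
  have hfn : ∀ (n : ℕ) (v : V), f (n • v) = f v ^ n := by
    intro n v
    induction n with
    | zero => rw [zero_smul, pow_zero, hf0]
    | succ n ih => rw [succ_nsmul, hm.add, ih, pow_succ]
  have hPchar : P.Characteristic := nsyl_char hP
  have hWchar : W.Characteristic := by
    apply char_of_forall
    intro β g hg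
    obtain ⟨v, rfl⟩ := (hm.mem g).1 hg
    rw [hm.act]
    exact (hm.mem _).2 ⟨_, rfl⟩
  have hWcard : Nat.card W = p ^ 2 := by
    have h1 : Nat.card V = Nat.card W := by
      apply Nat.card_eq_of_bijective (fun v : V => (⟨f v, (hm.mem _).2 ⟨v, rfl⟩⟩ : W))
      constructor
      · intro a b hab
        exact hm.inj (congrArg Subtype.val hab)
      · rintro ⟨w, hw⟩
        obtain ⟨v, hv⟩ := (hm.mem w).1 hw
        exact ⟨v, Subtype.ext hv⟩
    have hfin : Module.Finite (ZMod p) V := Module.Finite.of_finite
    rw [← h1, Module.natCard_eq_pow_finrank (K := ZMod p), hL.fr, Nat.card_zmod]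
  refine ⟨r, x, ?_⟩
  exact
    { syl := hP
      p5 := hL.p5
      rprime := hr
      r2 := hr2
      rp := hrp
      Pchar := hPchar
      Wchar := hWchar
      Wmem := fun a => Iff.rfl
      Wcard := hWcard
      Dcen := hDcen
      Didx := hDidx
      xord := hxord
      xnot := hxD
      xfix := by
        intro w hw hxw
        obtain ⟨v, rfl⟩ := (hm.mem w).1 hw
        have h1 := hconj x v
        rw [hxw, mul_inv_cancel_right] at h1
        have h2 := hL.fix x hρx v (hm.inj h1).symm
        rw [h2, hf0]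
      tau := by
        obtain ⟨τ, hτ⟩ := hL.tau x
        refine ⟨τ.val, ?_⟩
        intro w hw
        obtain ⟨v, rfl⟩ := (hm.mem w).1 hw
        have h1 := hconj x v
        have h2 := hconj x⁻¹ v
        rw [inv_inv, map_inv, map_inv] at h2
        rw [h1, h2, ← hm.add, hτ, ← hfn]
        congr 1
        rw [← Nat.cast_smul_eq_nsmul (ZMod p), ZMod.natCast_zmod_val]
      sgn := by
        intro β
        rcases hL.sgn β with h | h
        · left
          apply hsame
          have h1 := hαc β x
          rw [h x] at h1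
          exact (mul_right_cancel h1).symm
        · right
          have h1 := hαc β x
          rw [h x] at h1
          have h2 := mul_right_cancel h1
          show x * β x ∈ D
          rw [← hker, map_mul, map_mul, ← h2, mul_inv_cancel] }

end FPX
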