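import Pool.Agent.FPX.Defs2

namespace FPX

variable {G : Type} [Group G] [Finite G] {p r : ℕ} [Fact p.Prime] {P W : Subgroup G} {x : G}
  {V : Type} [AddCommGroup V] [Module (ZMod p) V] {f : V → G}
  {ρ : MulAut G →* (V ≃ₗ[ZMod p] V)} {X : V ≃ₗ[ZMod p] V}

/-- The second centre modulo `W` exists: `Z = {y ∈ P : [y, g] ∈ W for all g ∈ P}` is a
characteristic subgroup (`P`, `W` are characteristic and `W` is normal). -/
theorem exists_Z2 (h : Sit p r P W x) : ∃ Z : Subgroup G, IsZ2 P W Z := by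
  have hWn : W.Normal := by
    haveI := h.Wchar
    infer_instance
  let Z : Subgroup G :=
    { carrier := {y | y ∈ P ∧ ∀ g ∈ P, y * g * y⁻¹ * g⁻¹ ∈ W}
      mul_mem' := by
        rintro y z ⟨hy, hy2⟩ ⟨hz, hz2⟩
        refine ⟨P.mul_mem hy hz, fun g hg => ?_⟩
        have h1 : y * z * g * (y * z)⁻¹ * g⁻¹ =
            (y * (z * g * z⁻¹ * g⁻¹) * y⁻¹) * (y * g * y⁻¹ * g⁻¹) := by group
        rw [h1]
        exact W.mul_mem (hWn.conj_mem _ (hz2 g hg) y) (hy2 g hg)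
      one_mem' := by
        refine ⟨P.one_mem, fun g _ => ?_⟩
        have h1 : (1 : G) * g * 1⁻¹ * g⁻¹ = 1 := by group
        rw [h1]
        exact W.one_mem
      inv_mem' := by
        rintro y ⟨hy, hy2⟩
        refine ⟨P.inv_mem hy, fun g hg => ?_⟩
        have h1 : y⁻¹ * g * y⁻¹⁻¹ * g⁻¹ = y⁻¹ * (y * g * y⁻¹ * g⁻¹)⁻¹ * y⁻¹⁻¹ := by group
        rw [h1]
        exact hWn.conj_mem _ (W.inv_mem (hy2 g hg)) y⁻¹ }
  refine ⟨Z, fun y => Iff.rfl, ?_⟩
  apply char_of_forall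
  rintro α y ⟨hy, hy2⟩
  refine ⟨char_mem h.Pchar α hy, fun g hg => ?_⟩
  have h1 := hy2 (α⁻¹ g) (char_mem h.Pchar α⁻¹ hg)
  have h2 := char_mem h.Wchar α h1
  rw [map_mul, map_mul, map_mul, map_inv, map_inv, MulAut.apply_inv_self] at h2
  exact h2

/-- If `Z(P) = W` and `P ≠ W` then `Z ≠ W`.  Proof: `P/W` is a nontrivial `p`-group, so it has a
nontrivial centre. -/
theorem Z2_ne (h : Sit p r P W x) {Z : Subgroup G} (hZ : IsZ2 P W Z)
    (hne : ∃ a ∈ P, a ∉ W) : ∃ y ∈ Z, y ∉ W := by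
  have hWn : W.Normal := by
    haveI := h.Wchar
    infer_instance
  obtain ⟨a, haP, haW⟩ := hne
  let W' : Subgroup P := W.subgroupOf P
  haveI hW' : W'.Normal := hWn.subgroupOf P
  have hp : IsPGroup p (P ⧸ W') := h.syl.pgroup.to_quotient W'
  haveI : Nontrivial (P ⧸ W') := by
    refine ⟨QuotientGroup.mk (⟨a, haP⟩ : P), 1, ?_⟩
    intro h1
    rw [QuotientGroup.eq_one_iff] at h1
    exact haW h1
  haveI := hp.center_nontrivial
  obtain ⟨c, hc⟩ := exists_ne (1 : Subgroup.center (P ⧸ W'))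
  obtain ⟨y, hy⟩ := QuotientGroup.mk_surjective (c : P ⧸ W')
  refine ⟨y, ?_, ?_⟩
  · rw [hZ.mem]
    refine ⟨y.2, fun g hg => ?_⟩
    have h1 : (QuotientGroup.mk (y * (⟨g, hg⟩ : P) * y⁻¹ * (⟨g, hg⟩ : P)⁻¹) : P ⧸ W') = 1 := by
      have h2 := (Subgroup.mem_center_iff.1 c.2) (QuotientGroup.mk (⟨g, hg⟩ : P))
      rw [← hy] at h2
      rw [QuotientGroup.mk_mul, QuotientGroup.mk_mul, QuotientGroup.mk_mul, ← h2,
        QuotientGroup.mk_inv, QuotientGroup.mk_inv]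
      group
    rw [QuotientGroup.eq_one_iff] at h1
    exact h1
  · intro hyW
    apply hc
    apply Subtype.ext
    rw [← hy]
    show (QuotientGroup.mk y : P ⧸ W') = 1
    rw [QuotientGroup.eq_one_iff]
    exact hyW

/-- Elementary facts on `Z` (assuming `Z(P) = W`), with `[y, g] = y g y⁻¹ g⁻¹`:
`W ≤ Z`; `y ^ p ∈ W` (`[y ^ p, g] = [y, g] ^ p = 1`, so `y ^ p ∈ Z(P)`); `[y, g] ∈ W` is
multiplicative in both variables (`W` is central in `P`); `(y z) ^ p = y ^ p z ^ p`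
(`(y z) ^ p = y ^ p z ^ p [z, y] ^ (p (p - 1) / 2)`, `p` odd); and `cen W = P C_G(P)` acts trivially
on `Z/W`. -/
theorem Z2_facts (h : Sit p r P W x) (hc : ∀ a ∈ P, a ∈ cen P → a ∈ W) {Z : Subgroup G}
    (hZ : IsZ2 P W Z) :
    W ≤ Z ∧ (∀ y ∈ Z, y ^ p ∈ W) ∧
    (∀ y ∈ Z, ∀ z ∈ Z, ∀ g ∈ P,
      y * z * g * (y * z)⁻¹ * g⁻¹ = (y * g * y⁻¹ * g⁻¹) * (z * g * z⁻¹ * g⁻¹)) ∧
    (∀ y ∈ Z, ∀ g ∈ P, ∀ g' ∈ P,
      y * (g * g') * y⁻¹ * (g * g')⁻¹ = (y * g * y⁻¹ * g⁻¹) * (y * g' * y⁻¹ * g'⁻¹)) ∧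
    (∀ y ∈ Z, ∀ z ∈ Z, (y * z) ^ p = y ^ p * z ^ p) ∧
    (∀ y ∈ Z, ∀ u ∈ cen W, y⁻¹ * (u * y * u⁻¹) ∈ W) := by
  have hWn : W.Normal := by
    haveI := h.Wchar
    infer_instance
  have hcomm : ∀ w ∈ W, ∀ g ∈ P, w * g = g * w := by
    intro w hw g hg
    have h1 := ((h.Wmem w).1 hw).2.1
    exact ((Subgroup.mem_centralizer_iff.1 h1) g hg).symm
  have hZP : ∀ y ∈ Z, y ∈ P := fun y hy => ((hZ.mem y).1 hy).1
  have hZW : ∀ y ∈ Z, ∀ g ∈ P, y * g * y⁻¹ * g⁻¹ ∈ W := fun y hy => ((hZ.mem y).1 hy).2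
  have hpow : ∀ w ∈ W, w ^ p = 1 := fun w hw => ((h.Wmem w).1 hw).2.2
  have hWP : ∀ w ∈ W, w ∈ P := fun w hw => ((h.Wmem w).1 hw).1
  -- powers of a swap
  have swap : ∀ c y z : G, c * y = y * c → c * z = z * c → z * y = c * (y * z) →
      ∀ n : ℕ, z ^ n * y = c ^ n * (y * z ^ n) := by
    intro c y z h1 h2 h3 n
    have e1 : Commute c y := h1
    have e2 : Commute c z := h2
    induction n with
    | zero => simp
    | succ n ih =>
      rw [pow_succ, mul_assoc, h3, ← mul_assoc, ← (e2.pow_right n).eq, mul_assoc, ← mul_assoc (z ^ n),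
        ih, pow_succ c]
      have e3 : c * c ^ n = c ^ n * c := (Commute.refl c).pow_right n |>.eq
      rw [← mul_assoc c, ← mul_assoc c, e3]
      simp only [mul_assoc]
  refine ⟨?_, ?_, ?_, ?_, ?_, ?_⟩
  · intro w hw
    rw [hZ.mem]
    refine ⟨hWP w hw, fun g hg => ?_⟩
    have h1 : w * g * w⁻¹ * g⁻¹ = 1 := by
      rw [hcomm w hw g hg]
      group
    rw [h1]
    exact W.one_mem
  · intro y hy
    refine hc _ (P.pow_mem (hZP y hy) p) ?_
    rw [Subgroup.mem_centralizer_iff]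
    intro g hg
    -- y g = c (g y)
    set c := y * g * y⁻¹ * g⁻¹ with hcdef
    have hcW : c ∈ W := hZW y hy g hg
    have h1 := swap c g y (hcomm c hcW g hg) (hcomm c hcW y (hZP y hy)) (by rw [hcdef]; group) p
    rw [hpow c hcW, one_mul] at h1
    exact h1.symm
  · intro y hy z hz g hg
    have h1 := hcomm _ (hZW z hz g hg) y (hZP y hy)
    have h2 : y * z * g * (y * z)⁻¹ * g⁻¹ =
        (y * (z * g * z⁻¹ * g⁻¹)) * (g * y⁻¹ * g⁻¹) := by group
    rw [h2, ← h1]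
    have h3 := hcomm _ (hZW z hz g hg) _ (hWP _ (hZW y hy g hg))
    have h4 : (z * g * z⁻¹ * g⁻¹) * y * (g * y⁻¹ * g⁻¹) =
        (z * g * z⁻¹ * g⁻¹) * (y * g * y⁻¹ * g⁻¹) := by group
    rw [h4, h3]
  · intro y hy g hg g' hg'
    have h1 := hcomm _ (hZW y hy g' hg') g hg
    have h2 : y * (g * g') * y⁻¹ * (g * g')⁻¹ =
        (y * g * y⁻¹ * g⁻¹) * (g * (y * g' * y⁻¹ * g'⁻¹)) * g⁻¹ := by group
    rw [h2, ← h1]
    group
  · intro y hy z hz
    set c := z * y * z⁻¹ * y⁻¹ with hcdef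
    have hcW : c ∈ W := hZW z hz y (hZP y hy)
    have e1 : Commute c y := hcomm c hcW y (hZP y hy)
    have e2 : Commute c z := hcomm c hcW z (hZP z hz)
    have hsw := swap c y z e1.eq e2.eq (by rw [hcdef]; group)
    have key : ∀ n : ℕ, (y * z) ^ n = c ^ (n * (n - 1) / 2) * (y ^ n * z ^ n) := by
      intro n
      induction n with
      | zero => simp
      | succ n ih =>
        have h5 : (n + 1) * (n + 1 - 1) / 2 = n * (n - 1) / 2 + n := by
          rw [Nat.add_sub_cancel]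
          rcases n with _ | m
          · simp
          · have h6 : (m + 1 + 1) * (m + 1) = (m + 1) * (m + 1 - 1) + (m + 1) * 2 := by
              rw [Nat.add_sub_cancel]
              ring
            rw [h6, Nat.add_mul_div_right _ _ (by norm_num)]
        rw [pow_succ, ih, h5, pow_add]
        have h7 : c ^ (n * (n - 1) / 2) * (y ^ n * z ^ n) * (y * z) =
            c ^ (n * (n - 1) / 2) * (y ^ n * (z ^ n * y) * z) := by
          simp only [mul_assoc]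
        rw [h7, hsw n]
        have h8 : y ^ n * (c ^ n * (y * z ^ n)) = c ^ n * (y ^ n * (y * z ^ n)) := by
          rw [← mul_assoc, ((e1.pow_left n).pow_right n).symm.eq, mul_assoc]
        rw [h8, pow_succ y, pow_succ z]
        simp only [mul_assoc]
    rw [key p]
    have hpar : p ∣ p * (p - 1) / 2 := by
      have hp5 := h.p5
      have hodd : ¬ 2 ∣ p := by
        intro h2
        have := (Nat.prime_dvd_prime_iff_eq Nat.prime_two h.syl.prime).1 h2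
        omega
      have h9 : 2 ∣ p - 1 := by omega
      obtain ⟨k, hk⟩ := h9
      rw [hk, ← mul_assoc, mul_comm p 2, mul_assoc, Nat.mul_div_cancel_left _ (by norm_num)]
      exact dvd_mul_right p k
    obtain ⟨k, hk⟩ := hpar
    rw [hk, pow_mul, hpow c hcW, one_pow, one_mul]
  · intro y hy u hu
    obtain ⟨a, ha, c, hcc, rfl⟩ := (h.Dcen u).1 hu
    have h1 : c * y = y * c := ((Subgroup.mem_centralizer_iff.1 hcc) y (hZP y hy)).symm
    have h2 : a * c * y * (a * c)⁻¹ = a * y * a⁻¹ := by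
      rw [mul_assoc a c y, h1]
      group
    rw [h2]
    have h3 : y⁻¹ * (a * y * a⁻¹) = y⁻¹ * (y * a * y⁻¹ * a⁻¹)⁻¹ * y⁻¹⁻¹ := by group
    rw [h3]
    exact hWn.conj_mem _ (W.inv_mem (hZW y hy a ha)) y⁻¹

end FPX
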