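import Pool.Agent.FPX.S6
import Pool.Agent.FPX.S7
import Pool.Agent.FPX.S8

namespace FPX

variable {G : Type} [Group G] [Finite G] {p r : ℕ} [Fact p.Prime] {P W : Subgroup G} {x : G}
  {V : Type} [AddCommGroup V] [Module (ZMod p) V] {f : V → G}
  {ρ : MulAut G →* (V ≃ₗ[ZMod p] V)} {X : V ≃ₗ[ZMod p] V}

/-- the subgroup generated by three commuting elements -/
def S9_H {G : Type} [Group G] (a b c : G) (hab : Commute a b) (hac : Commute a c)
    (hbc : Commute b c) : Subgroup G where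
  carrier := {y | ∃ i j k : ℤ, y = a ^ i * b ^ j * c ^ k}
  mul_mem' := by
    rintro y z ⟨i, j, k, rfl⟩ ⟨i', j', k', rfl⟩
    refine ⟨i + i', j + j', k + k', ?_⟩
    have h1 : c ^ k * (a ^ i' * b ^ j' * c ^ k') = a ^ i' * b ^ j' * c ^ (k + k') := by
      rw [zpow_add, ← mul_assoc, ← mul_assoc, ← mul_assoc, (hac.symm.zpow_zpow k i').eq,
        mul_assoc (a ^ i'), (hbc.symm.zpow_zpow k j').eq]
      group
    have h2 : b ^ j * (a ^ i' * b ^ j') = a ^ i' * b ^ (j + j') := by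
      rw [zpow_add, ← mul_assoc, ← mul_assoc, (hab.symm.zpow_zpow j i').eq]
    calc a ^ i * b ^ j * c ^ k * (a ^ i' * b ^ j' * c ^ k')
        = a ^ i * (b ^ j * (c ^ k * (a ^ i' * b ^ j' * c ^ k'))) := by group
      _ = a ^ i * (b ^ j * (a ^ i' * b ^ j')) * c ^ (k + k') := by rw [h1]; group
      _ = _ := by rw [h2, zpow_add a]; group
  one_mem' := ⟨0, 0, 0, by simp⟩
  inv_mem' := by
    rintro y ⟨i, j, k, rfl⟩
    refine ⟨-i, -j, -k, ?_⟩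
    have h1 : Commute (c ^ (-k)) (a ^ (-i) * b ^ (-j)) :=
      (hac.symm.zpow_zpow (-k) (-i)).mul_right (hbc.symm.zpow_zpow (-k) (-j))
    rw [mul_inv_rev, mul_inv_rev, ← zpow_neg, ← zpow_neg, ← zpow_neg,
      (hab.symm.zpow_zpow (-j) (-i)).eq, h1.eq]

/-- two commuting elements of `P` generating a subgroup with trivial intersection with `W`
are fixed by an automorphism which inverts `X` -/
theorem S9_line (h : Ctx p r P W x V f ρ X) (hF : PF G) (a b : G) (ha : a ∈ P) (hb : b ∈ P)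
    (hab : Commute a b) (hW : ∀ i j : ℤ, a ^ i * b ^ j ∈ W → a ^ i * b ^ j = 1) :
    ∃ α : MulAut G, ρ α * X = X⁻¹ * ρ α ∧ α a = a ∧ α b = b := by
  obtain ⟨w, hw⟩ := h.pl.exists_ni (h.ns hF)
  have hfw : f w ∈ W := (h.mod.mem _).mpr ⟨w, rfl⟩
  have hcen := ((h.sit.Wmem _).mp hfw).2.1
  have hac : Commute a (f w) := Subgroup.mem_centralizer_iff.mp hcen a ha
  have hbc : Commute b (f w) := Subgroup.mem_centralizer_iff.mp hcen b hb
  have hHW : ∀ v, f v ∈ S9_H a b (f w) hab hac hbc ↔ ∃ c : ZMod p, v = c • w := by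
    intro v
    constructor
    · rintro ⟨i, j, k, hij⟩
      refine ⟨(k : ZMod p), ?_⟩
      have h1 : a ^ i * b ^ j ∈ W := by
        have h2 : a ^ i * b ^ j = f v * ((f w) ^ k)⁻¹ := by rw [hij, mul_inv_cancel_right]
        rw [h2]
        exact W.mul_mem ((h.mod.mem _).mpr ⟨v, rfl⟩) (W.inv_mem (W.zpow_mem hfw k))
      rw [hW i j h1, one_mul, ← S7_fz h] at hij
      exact h.mod.inj hij
    · rintro ⟨c, rfl⟩
      refine ⟨0, 0, (c.val : ℤ), ?_⟩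
      rw [← S7_fz h, zpow_zero, zpow_zero, one_mul, one_mul, Int.cast_natCast,
        ZMod.natCast_zmod_val]
  obtain ⟨α, hαH, hα, -⟩ := h.line hF _ w hw hHW
  exact ⟨α, hα, (hαH a).mpr ⟨1, 0, 0, by simp⟩, (hαH b).mpr ⟨0, 1, 0, by simp⟩⟩

theorem S9_pow (g : G) (hg : g ^ p = 1) (K : Subgroup G) (u : G) (hcom : Commute u g) (i j : ℤ)
    (hm : u ^ i * g ^ j ∈ K) : (∃ e : ℤ, u ^ e * g ∈ K) ∨ g ^ j = 1 := by
  by_cases hd : (p : ℤ) ∣ j
  · right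
    obtain ⟨t, rfl⟩ := hd
    rw [zpow_mul, zpow_natCast, hg, one_zpow]
  · left
    have hp : Prime (p : ℤ) := Nat.prime_iff_prime_int.mp Fact.out
    have hco : IsCoprime (p : ℤ) j := (Prime.coprime_iff_not_dvd hp).mpr hd
    obtain ⟨s, t, hst⟩ := hco
    refine ⟨i * t, ?_⟩
    have h1 := K.zpow_mem hm t
    rw [(hcom.zpow_zpow i j).mul_zpow, ← zpow_mul, ← zpow_mul] at h1
    have h2 : g ^ (j * t) = g := by
      have h3 : j * t = 1 - (p : ℤ) * s := by rw [← hst]; ring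
      rw [h3, zpow_sub, zpow_one, zpow_mul, zpow_natCast, hg, one_zpow, inv_one, mul_one]
    rwa [h2] at h1

/-- the last part of the argument -/
theorem S9_fin (h : Ctx p r P W x V f ρ X) (hc : ∀ a ∈ P, a ∈ cen P → a ∈ W)
    {Z : Subgroup G} (hZ : IsZ2 P W Z) (y : G) (hy : y ∈ Z) (α : MulAut G)
    (hα : ρ α * X = X⁻¹ * ρ α) (hαy : α y = y)
    (hαz : (x * y * x⁻¹)⁻¹ * α (x * y * x⁻¹) ∈ W) : y⁻¹ * (x * y * x⁻¹) ∈ W := by
  obtain ⟨h1, h2, h3, h4, h5, h6⟩ := Z2_facts h.sit hc hZ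
  have hWn : W.Normal := by
    have := h.sit.Wchar
    infer_instance
  have hu := (h.neg α).mpr hα
  have hw1 := h6 y hy _ hu
  -- `x⁻¹ y x` and `x y x⁻¹` are congruent modulo `W`
  have hcong : y⁻¹ * (x ^ 2 * y * (x ^ 2)⁻¹) ∈ W := by
    have e1 : α (x * y * x⁻¹) = x⁻¹ * ((x * α x) * y * (x * α x)⁻¹) * x := by
      rw [map_mul, map_mul, map_inv, hαy]
      group
    rw [e1] at hαz
    have e2 := hWn.conj_mem _ hαz x
    have e3 : x * ((x * y * x⁻¹)⁻¹ * (x⁻¹ * (x * α x * y * (x * α x)⁻¹) * x)) * x⁻¹ =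
        (x ^ 2 * y * (x ^ 2)⁻¹)⁻¹ * y * (y⁻¹ * (x * α x * y * (x * α x)⁻¹)) := by
      simp only [pow_two, mul_inv_rev, inv_inv, mul_assoc, mul_inv_cancel_left,
        inv_mul_cancel_left, mul_inv_cancel, mul_one]
    rw [e3] at e2
    have e4 := (W.mul_mem_cancel_right hw1).mp e2
    have e5 := W.inv_mem e4
    rwa [mul_inv_rev, inv_inv] at e5
  -- iterate
  have hit : ∀ n : ℕ, y⁻¹ * ((x ^ 2) ^ n * y * ((x ^ 2) ^ n)⁻¹) ∈ W := by
    intro n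
    induction n with
    | zero => simp
    | succ n ih =>
      have e6 := hWn.conj_mem _ ih (x ^ 2)
      have e7 : y⁻¹ * ((x ^ 2) ^ (n + 1) * y * ((x ^ 2) ^ (n + 1))⁻¹) =
          (y⁻¹ * (x ^ 2 * y * (x ^ 2)⁻¹)) *
            (x ^ 2 * (y⁻¹ * ((x ^ 2) ^ n * y * ((x ^ 2) ^ n)⁻¹)) * (x ^ 2)⁻¹) := by
        rw [pow_succ' (x ^ 2) n]
        group
      rw [e7]
      exact W.mul_mem hcong e6
  have hodd : Odd r := h.sit.rprime.odd_of_ne_two h.sit.r2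
  obtain ⟨q, hq⟩ := hodd
  have hx : (x ^ 2) ^ (q + 1) = x := by
    rw [← pow_mul, show 2 * (q + 1) = r + 1 by omega, pow_succ, ← h.sit.xord, pow_orderOf_eq_one,
      one_mul]
  have h7 := hit (q + 1)
  rwa [hx] at h7

/-- Step (A), main part.  Notation `y^x = x y x⁻¹`.  If `y ∈ Z`, `y ^ p = 1` and
`y^(x^2) ∈ (y^x)^m y⁻¹ W` then `y^x ∈ y W`.

Proof.  `k := [y, y^x] ∈ W`; `x k x⁻¹ = [y^x, y^(x^2)] = [y^x, (y^x)^m y⁻¹ w'] = [y^x, y⁻¹] =
[y^x, y]⁻¹ = [y, y^x] = k` (multiplicativity, `Z2_facts`), so `k = 1` by `xfix`: `y` and `y^x` commute.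
Suppose `y^x ∉ y W`.  Let `H₁ = ⟨y⟩` if `y^x ∈ y^i W` for some `i`, and `H₁ = ⟨y, y^x⟩` otherwise.  In
both cases `H₁ ∩ W = 1`: an element `y^i` (resp. `y^i (y^x)^j`) of `W` has `p ∣ i` (resp. `p ∣ i, j`):
`y ∉ W` (otherwise `y^x ∈ W = y W`), `Z/W` has exponent `p`, and in the second case the classes of `y`
and `y^x` in `Z/W` are independent (`y^x ∉ ⟨y⟩ W`, `p` prime).
Take `w` with `NI X w` (`Plane.exists_ni`, `Ctx.ns`) and `H = H₁ ⊔ zpowers (f w)`; `f w` commutes with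
`P`, so `H ∩ W = zpowers (f w)`.  `Ctx.line` gives `α` with fixed points `H` and `x α(x) ∈ cen W`, i.e.
`α(x) = x⁻¹ u` with `u ∈ cen W`.  `α(y) = y`.  Modulo `W`: `α(y^x) ∈ y^x W` (second case: fixed; first
case: `y^x = y^i w'`, `α(y^x) = y^i α(w')`), and `α(y^x) = α(x) y α(x)⁻¹ ∈ x⁻¹ y x W`
(`u y u⁻¹ ∈ y W`).  So `x y x⁻¹ ∈ x⁻¹ y x W`, `x^2 y x^(-2) ∈ y W`; `x` has odd order, so
`x y x⁻¹ ∈ y W`. -/
theorem stepA2 (h : Ctx p r P W x V f ρ X) (hF : PF G) (hc : ∀ a ∈ P, a ∈ cen P → a ∈ W)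
    {Z : Subgroup G} (hZ : IsZ2 P W Z) (y : G) (hy : y ∈ Z) (hyp : y ^ p = 1) (m : ℕ)
    (hm : ((x * y * x⁻¹) ^ m * y⁻¹)⁻¹ * (x ^ 2 * y * (x ^ 2)⁻¹) ∈ W) :
    y⁻¹ * (x * y * x⁻¹) ∈ W := by
  obtain ⟨h1, h2, h3, h4, h5, h6⟩ := Z2_facts h.sit hc hZ
  have hWn : W.Normal := by
    have := h.sit.Wchar
    infer_instance
  have hz : x * y * x⁻¹ ∈ Z := by
    have e := char_mem hZ.char (MulAut.conj x) hy
    rwa [MulAut.conj_apply] at e
  have hyP : y ∈ P := ((hZ.mem _).mp hy).1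
  have hzP : x * y * x⁻¹ ∈ P := ((hZ.mem _).mp hz).1
  have hzp : (x * y * x⁻¹) ^ p = 1 := by rw [conj_pow, hyp, mul_one, mul_inv_cancel]
  have hWcomm : ∀ w ∈ W, ∀ g ∈ P, g * w = w * g := fun w hw g hg =>
    Subgroup.mem_centralizer_iff.mp ((h.sit.Wmem _).mp hw).2.1 g hg
  -- `y` and `x y x⁻¹` commute
  have hcom : Commute y (x * y * x⁻¹) := by
    have hk : y * (x * y * x⁻¹) * y⁻¹ * (x * y * x⁻¹)⁻¹ ∈ W := ((hZ.mem _).mp hy).2 _ hzP
    set z := x * y * x⁻¹ with hzdef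
    set w' := (z ^ m * y⁻¹)⁻¹ * (x ^ 2 * y * (x ^ 2)⁻¹) with hw'
    have e1 : x ^ 2 * y * (x ^ 2)⁻¹ = z ^ m * (y⁻¹ * w') := by rw [hw']; group
    have hw'P : w' ∈ P := ((h.sit.Wmem _).mp hm).1
    have e2 := h4 z hz (z ^ m) (P.pow_mem hzP m) (y⁻¹ * w') (P.mul_mem (P.inv_mem hyP) hw'P)
    have e3 := h4 z hz y⁻¹ (P.inv_mem hyP) w' hw'P
    have e4 : z * z ^ m * z⁻¹ * (z ^ m)⁻¹ = 1 := by
      rw [← pow_succ', pow_succ]; group
    have e5 : z * w' * z⁻¹ * w'⁻¹ = 1 := by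
      rw [hWcomm w' hm z hzP]; group
    have e6 : z * y⁻¹ * z⁻¹ * y⁻¹⁻¹ = y * z * y⁻¹ * z⁻¹ := by
      have e7 := h4 z hz y hyP y⁻¹ (P.inv_mem hyP)
      rw [mul_inv_cancel, mul_one, mul_inv_cancel, inv_one, mul_one] at e7
      rw [← inv_eq_of_mul_eq_one_right e7.symm]
      group
    rw [e3, e4, e5, e6, one_mul, mul_one, ← e1] at e2
    have e8 : x * (y * z * y⁻¹ * z⁻¹) * x⁻¹ = y * z * y⁻¹ * z⁻¹ := by
      refine Eq.trans ?_ e2
      rw [hzdef]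
      simp only [pow_two, mul_inv_rev, inv_inv, mul_assoc, inv_mul_cancel_left]
    have e9 := h.sit.xfix _ hk (mul_inv_eq_iff_eq_mul.mp e8)
    have e10 : y * z = z * y := by
      have e11 := mul_inv_eq_one.mp e9
      exact mul_inv_eq_iff_eq_mul.mp e11
    exact e10
  by_contra hcon
  have hyW : y ∉ W := by
    intro hyW
    have e := hWn.conj_mem _ hyW x
    exact hcon (W.mul_mem (W.inv_mem hyW) e)
  have hypow : ∀ i : ℤ, y ^ i ∈ W → y ^ i = 1 := by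
    intro i hi
    rcases S9_pow (p := p) y hyp W 1 (Commute.one_left y) 0 i (by simpa using hi) with
      ⟨e, he⟩ | he
    · rw [one_zpow, one_mul] at he
      exact absurd he hyW
    · exact he
  by_cases hcase : ∃ i : ℤ, y ^ i * (x * y * x⁻¹) ∈ W
  · obtain ⟨i, hi⟩ := hcase
    obtain ⟨α, hα, hαy, -⟩ := S9_line h hF y 1 hyP P.one_mem (Commute.one_right y) (by
      intro i j hij
      rw [one_zpow, mul_one] at hij ⊢
      exact hypow i hij)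
    apply hcon
    apply S9_fin h hc hZ y hy α hα hαy
    have e1 : (x * y * x⁻¹) = (y ^ i)⁻¹ * (y ^ i * (x * y * x⁻¹)) := by group
    have e2 : α (x * y * x⁻¹) = (y ^ i)⁻¹ * α (y ^ i * (x * y * x⁻¹)) := by
      conv_lhs => rw [e1]
      rw [map_mul, map_inv, map_zpow, hαy]
    rw [e2]
    have e3 : (x * y * x⁻¹)⁻¹ * ((y ^ i)⁻¹ * α (y ^ i * (x * y * x⁻¹))) =
        (y ^ i * (x * y * x⁻¹))⁻¹ * α (y ^ i * (x * y * x⁻¹)) := by
      rw [mul_inv_rev (y ^ i), mul_assoc ((x * y * x⁻¹)⁻¹)]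
    rw [e3]
    exact W.mul_mem (W.inv_mem hi) (char_mem h.sit.Wchar α hi)
  · obtain ⟨α, hα, hαy, hαz⟩ := S9_line h hF y (x * y * x⁻¹) hyP hzP hcom (by
      intro i j hij
      rcases S9_pow (p := p) _ hzp W y hcom i j hij with he | he
      · exact absurd he hcase
      · rw [he, mul_one] at hij ⊢
        exact hypow i hij)
    apply hcon
    apply S9_fin h hc hZ y hy α hα hαy
    rw [hαz, inv_mul_cancel]
    exact W.one_mem

end FPX
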